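import Pool.Agent.H65.Dprm2

/-! A finitely generated abelian-by-nilpotent group with unsolvable conjugacy problem. -/

set_option autoImplicit false

namespace Pool.Agent.H52.AP

open Pool.Agent.H65.Dprm Finsupp

def Noeth (G : Type) [Group G] : Prop := ∀ H : Subgroup G, H.FG

theorem Noeth.mult (A : Type) [AddCommGroup A] [Module.Finite ℤ A] : Noeth (Multiplicative A) :=
  fun H => by
  have : (Subgroup.toAddSubgroup' H).FG := by
    rw [← AddSubgroup.toIntSubmodule_toAddSubgroup (Subgroup.toAddSubgroup' H),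
      ← Submodule.fg_iff_addSubgroup_fg]
    exact IsNoetherian.noetherian _
  exact (AddSubgroup.fg_iff_mul_fg _).1 this

theorem Noeth.inj {G H : Type} [Group G] [Group H] (f : G →* H) (hf : Function.Injective f)
    (h : Noeth H) : Noeth G := fun P =>
  (Subgroup.fg_iff_submonoid_fg _).2 (Submonoid.FG.map_injective f hf
    ((Subgroup.fg_iff_submonoid_fg _).1 (h (P.map f))))

theorem Noeth.ext {N Q B : Type} [Group N] [Group Q] [Group B] (ι : N →* Q) (π : Q →* B)
    (hk : π.ker ≤ ι.range) (hN : Noeth N) (hB : Noeth B) : Noeth Q := fun H => by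
  classical
  obtain ⟨S, hS⟩ := hB (H.map π)
  have : ∀ b ∈ S, ∃ h ∈ H, π h = b := fun b hb =>
    show b ∈ H.map π from hS ▸ Subgroup.subset_closure hb
  choose! l hl using this
  have h1 : (Subgroup.closure (S.image l : Set Q)).FG := ⟨_, rfl⟩
  have h2 : ((H.comap ι).map ι).FG := (Subgroup.fg_iff_submonoid_fg _).2
    (((Subgroup.fg_iff_submonoid_fg _).1 (hN (H.comap ι))).map ι)
  have h3 : Subgroup.closure (S.image l : Set Q) ≤ H := by
    rw [Subgroup.closure_le]
    intro x hx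
    obtain ⟨b, hb, rfl⟩ := Finset.mem_image.1 hx
    exact (hl b hb).1
  convert h1.sup h2 using 1
  refine le_antisymm (fun h hh => ?_) (sup_le h3 (Subgroup.map_comap_le _ _))
  have : H.map π ≤ (Subgroup.closure (S.image l : Set Q)).map π := by
    rw [← hS, Subgroup.closure_le]
    exact fun b hb => ⟨l b, Subgroup.subset_closure (Finset.mem_image_of_mem l hb), (hl b hb).2⟩
  obtain ⟨g, hg, e⟩ := this ⟨h, hh, rfl⟩
  obtain ⟨n, hn⟩ := hk (show g⁻¹ * h ∈ π.ker by simp [MonoidHom.mem_ker, e])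
  have := Subgroup.mul_mem_sup hg (show ι n ∈ (H.comap ι).map ι from
    ⟨n, show ι n ∈ H from hn ▸ H.mul_mem (H.inv_mem (h3 hg)) hh, rfl⟩)
  simpa [hn] using this

@[ext] structure SD {Q A : Type} [Group Q] [AddCommGroup A] (ρ : Q →* AddMonoid.End A) where
  a : A
  g : Q

section
variable {Q A : Type} [Group Q] [AddCommGroup A] {ρ : Q →* AddMonoid.End A}

instance : Mul (SD ρ) := ⟨fun x y => ⟨x.a + ρ x.g y.a, x.g * y.g⟩⟩
instance : One (SD ρ) := ⟨⟨0, 1⟩⟩
instance : Inv (SD ρ) := ⟨fun x => ⟨-ρ x.g⁻¹ x.a, x.g⁻¹⟩⟩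

@[simp] theorem mul_a (x y : SD ρ) : (x * y).a = x.a + ρ x.g y.a := rfl
@[simp] theorem mul_g (x y : SD ρ) : (x * y).g = x.g * y.g := rfl
@[simp] theorem one_a : (1 : SD ρ).a = 0 := rfl
@[simp] theorem one_g : (1 : SD ρ).g = 1 := rfl
@[simp] theorem inv_a (x : SD ρ) : x⁻¹.a = -ρ x.g⁻¹ x.a := rfl
@[simp] theorem inv_g (x : SD ρ) : x⁻¹.g = x.g⁻¹ := rfl

instance : Group (SD ρ) := Group.ofLeftAxioms
  (fun a b c => by ext <;> simp [add_assoc, mul_assoc])
  (fun a => by ext <;> simp)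
  (fun a => by ext <;> simp)

def pr (ρ : Q →* AddMonoid.End A) : SD ρ →* Q := ⟨⟨SD.g, rfl⟩, fun _ _ => rfl⟩

def inr (ρ : Q →* AddMonoid.End A) : Q →* SD ρ :=
  ⟨⟨fun g => ⟨0, g⟩, rfl⟩, fun _ _ => by ext <;> simp⟩

theorem cj (g : Q) (a : A) : inr ρ g * ⟨a, 1⟩ * (inr ρ g)⁻¹ = ⟨ρ g a, 1⟩ := by
  ext <;> simp [inr]

end

variable {M : ℕ}

def Iv (W : Submodule ℤ ((Fin M → ℤ) → ℤ)) : Prop := ∀ s, ∀ f ∈ W, (fun t => f (t - s)) ∈ W

theorem Iv.mul {W W' : Submodule ℤ ((Fin M → ℤ) → ℤ)} (h : Iv W) (h' : Iv W') : Iv (W * W') :=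
  fun s _ hf => Submodule.mul_induction_on hf
    (fun a ha b hb => Submodule.mul_mem_mul (h s a ha) (h' s b hb))
    fun _ _ ha hb => add_mem ha hb

def M1 (M : ℕ) : Submodule ℤ ((Fin M → ℤ) → ℤ) :=
  Submodule.span ℤ (insert 1 (Set.range fun k t => t k))

theorem one_M1 : 1 ∈ M1 M := Submodule.subset_span (Set.mem_insert _ _)

theorem var_M1 (k : Fin M) : (fun t => t k) ∈ M1 M :=
  Submodule.subset_span (Set.mem_insert_of_mem _ ⟨k, rfl⟩)

theorem iv_M1 : Iv (M1 M) := fun s f hf => by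
  induction hf using Submodule.span_induction with
  | mem x hx =>
    rcases hx with rfl | ⟨k, rfl⟩
    · exact one_M1
    · convert sub_mem (var_M1 k) (Submodule.smul_mem _ (s k) one_M1) using 1
      ext; simp
  | zero => exact zero_mem _
  | add _ _ _ _ a b => exact add_mem a b
  | smul c _ _ a => exact Submodule.smul_mem _ c a

def NN (M : ℕ) : Submodule ℤ ((Fin M → ℤ) → ℤ) := M1 M * M1 M * (M1 M * M1 M)

theorem iv_NN : Iv (NN M) := (iv_M1.mul iv_M1).mul (iv_M1.mul iv_M1)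

instance : Module.Finite ℤ (NN M) := by
  have h : (M1 M).FG := Submodule.fg_span ((Set.finite_range _).insert _)
  exact Module.Finite.iff_fg.2 ((h.mul h).mul (h.mul h))

@[ext] structure QQ (M : ℕ) where
  ν : NN M
  s : Fin M → ℤ
  i : ℤ

def sh (s : Fin M → ℤ) (ν : NN M) : NN M := ⟨fun t => ν.1 (t - s), iv_NN s _ ν.2⟩

@[simp] theorem sh_val (s : Fin M → ℤ) (ν : NN M) (t : Fin M → ℤ) : (sh s ν).1 t = ν.1 (t - s) := rfl

instance : Mul (QQ M) := ⟨fun a b => ⟨a.ν + sh a.s b.ν, a.s + b.s, a.i + b.i⟩⟩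
instance : One (QQ M) := ⟨⟨0, 0, 0⟩⟩
instance : Inv (QQ M) := ⟨fun a => ⟨-sh (-a.s) a.ν, -a.s, -a.i⟩⟩

@[simp] theorem mul_ν (a b : QQ M) : (a * b).ν = a.ν + sh a.s b.ν := rfl
@[simp] theorem mul_s (a b : QQ M) : (a * b).s = a.s + b.s := rfl
@[simp] theorem mul_i (a b : QQ M) : (a * b).i = a.i + b.i := rfl
@[simp] theorem one_ν : (1 : QQ M).ν = 0 := rfl
@[simp] theorem one_s : (1 : QQ M).s = 0 := rfl
@[simp] theorem one_i : (1 : QQ M).i = 0 := rfl
@[simp] theorem inv_ν (a : QQ M) : a⁻¹.ν = -sh (-a.s) a.ν := rfl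
@[simp] theorem inv_s (a : QQ M) : a⁻¹.s = -a.s := rfl
@[simp] theorem inv_i (a : QQ M) : a⁻¹.i = -a.i := rfl

instance : Group (QQ M) := Group.ofLeftAxioms
  (fun a b c => by ext <;> simp [add_assoc, sub_sub])
  (fun a => by ext <;> simp)
  (fun a => by ext <;> simp)

def qι (M : ℕ) : Multiplicative (NN M) →* QQ M :=
  ⟨⟨fun ν => ⟨ν.toAdd, 0, 0⟩, rfl⟩, fun _ _ => by ext <;> simp⟩

def qπ (M : ℕ) : QQ M →* Multiplicative ((Fin M → ℤ) × ℤ) :=
  ⟨⟨fun a => .ofAdd (a.s, a.i), rfl⟩, fun _ _ => rfl⟩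

def yy (M : ℕ) : Multiplicative (Fin M → ℤ) →* QQ M :=
  ⟨⟨fun s => ⟨0, s.toAdd, 0⟩, rfl⟩, fun _ _ => by ext <;> simp⟩

theorem ker_le : (qπ M).ker ≤ (qι M).range := fun a ha =>
  ⟨.ofAdd a.ν, QQ.ext rfl (congrArg (·.toAdd.1) ha).symm (congrArg (·.toAdd.2) ha).symm⟩

theorem noeth_QQ : Noeth (QQ M) := Noeth.ext _ _ ker_le (Noeth.mult _) (Noeth.mult _)

instance : Group.IsSolvable (QQ M) := Group.isSolvable_of_ker_le_range _ _ ker_le

abbrev Om (M : ℕ) := (Fin M → ℤ) × ℤ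

def act (g : QQ M) (w : Om M) : Om M := (w.1 + g.s, w.2 + g.ν.1 (w.1 + g.s))

noncomputable def pp (k : Fin M) : (Om M →₀ ℤ) →+ (ℤ →₀ ℤ) := mapDomain.addMonoidHom fun w => w.1 k

abbrev AA (M : ℕ) := (Om M →₀ ℤ) × (ℤ →₀ ℤ)

noncomputable def rho0 (k : Fin M) (g : QQ M) : AA M →+ AA M where
  toFun a := (mapDomain (act g) a.1, mapDomain (· + g.s k) (a.2 + g.i • pp k a.1))
  map_zero' := by simp
  map_add' a b := by
    simp only [Prod.fst_add, Prod.snd_add, map_add, smul_add, mapDomain_add, Prod.mk_add_mk]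
    congr 1
    abel

theorem rho0_apply (k : Fin M) (g : QQ M) (a : AA M) : rho0 k g a =
    (mapDomain (act g) a.1, mapDomain (· + g.s k) (a.2 + g.i • pp k a.1)) := rfl

noncomputable def rho (k : Fin M) : QQ M →* AddMonoid.End (AA M) where
  toFun := rho0 k
  map_one' := AddMonoidHom.ext fun a => by
    have : act (1 : QQ M) = id := funext fun w => by simp [act]
    have h2 : (fun x : ℤ => x + (1 : QQ M).s k) = id := funext fun w => by simp
    rw [rho0_apply, this, h2]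
    simp [mapDomain_id]
    rfl
  map_mul' g h := AddMonoidHom.ext fun a => by
    have h1 : act (g * h) = act g ∘ act h := funext fun w => by
      simp only [act, mul_s, mul_ν, Function.comp, Submodule.coe_add, Pi.add_apply, sh_val]
      rw [show w.1 + (g.s + h.s) - g.s = w.1 + h.s by abel,
        show w.1 + (g.s + h.s) = w.1 + h.s + g.s by abel]
      congr 1
      ring
    have h2 : (fun x : ℤ => x + (g * h).s k) = (· + g.s k) ∘ (· + h.s k) := funext fun w => by
      simp; ring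
    have h3 : pp k (mapDomain (act h) a.1) = mapDomain (· + h.s k) (pp k a.1) := by
      simp only [pp, mapDomain.addMonoidHom_apply, ← mapDomain_comp]
      rfl
    show _ = rho0 k g (rho0 k h a)
    rw [rho0_apply, rho0_apply, rho0_apply, h1, h2, mapDomain_comp, mapDomain_comp, h3]
    congr 2
    rw [← mapDomain_smul, ← mapDomain_add, mul_i, add_smul]
    congr 1
    abel

theorem rho_apply (k : Fin M) (g : QQ M) (a : AA M) : rho k g a =
    (mapDomain (act g) a.1, mapDomain (· + g.s k) (a.2 + g.i • pp k a.1)) := rfl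

noncomputable def qq (k : Fin M) (P : NN M) : SD (rho k) := inr _ ⟨P, 0, 1⟩
noncomputable def dd (k : Fin M) (t : Fin M → ℤ) : SD (rho k) := ⟨(single (t, 0) 1, 0), 1⟩
noncomputable def cc (k : Fin M) (n : ℤ) : SD (rho k) := ⟨(0, single n 1), 1⟩
noncomputable def y1 (k : Fin M) : Multiplicative (Fin M → ℤ) →* SD (rho k) := (inr _).comp (yy M)

theorem y_dd (k : Fin M) (t : Fin M → ℤ) :
    y1 k (.ofAdd t) * dd k 0 * (y1 k (.ofAdd t))⁻¹ = dd k t := by
  refine (cj _ _).trans ?_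
  simp [rho_apply, yy, act, dd]

theorem y_cc (k : Fin M) (t : Fin M → ℤ) :
    y1 k (.ofAdd t) * cc k 0 * (y1 k (.ofAdd t))⁻¹ = cc k (t k) := by
  refine (cj _ _).trans ?_
  simp [rho_apply, yy, cc]

theorem conj_of (k : Fin M) (P : NN M) {t : Fin M → ℤ} (h : P.1 t = 0) :
    (dd k t)⁻¹ * qq k P = cc k (t k) * qq k P * (dd k t)⁻¹ := by
  rw [inv_mul_eq_iff_eq_mul, ← mul_assoc, eq_mul_inv_iff_mul_eq]
  refine SD.ext ?_ (by simp [dd, cc])
  simp [dd, cc, qq, inr, rho_apply, act, h, pp, show (fun x : ℤ => x) = id from rfl]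

theorem of_conj (k : Fin M) (P : NN M) {n : ℤ} {h : SD (rho k)}
    (e : h * qq k P = cc k n * qq k P * h) : ∃ t : Fin M → ℤ, t k = n ∧ P.1 t = 0 := by
  have e1 := congrArg SD.a e
  simp only [mul_a, mul_g, qq, inr, cc, MonoidHom.coe_mk, OneHom.coe_mk, map_zero, add_zero,
    one_mul] at e1
  rw [rho_apply] at e1
  have e2 : h.a.1 = mapDomain (act ⟨P, 0, 1⟩) h.a.1 := by simpa using congrArg Prod.fst e1
  have e3 : pp k h.a.1 = -single n 1 := by
    have := congrArg Prod.snd e1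
    simp only [Prod.snd_add, Pi.zero_apply, add_zero, one_smul,
      show (fun x : ℤ => x) = id from rfl, mapDomain_id] at this
    rw [eq_neg_iff_add_eq_zero, ← add_right_inj h.a.2, add_zero]
    refine Eq.trans ?_ this.symm
    abel
  generalize h.a.1 = f at e2 e3
  have hn : n ∈ (pp k f).support := by simp [e3]
  obtain ⟨w, hw, rfl⟩ := Finset.mem_image.1 (mapDomain_support hn)
  refine ⟨w.1, rfl, by_contra fun hP => ?_⟩
  have inj : Function.Injective (act (⟨P, 0, 1⟩ : QQ M)) := by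
    rintro ⟨a, b⟩ ⟨c, d⟩ e
    simp only [act, add_zero, Prod.mk.injEq] at e
    obtain ⟨rfl, e⟩ := e
    rw [add_right_cancel e]
  have hall : ∀ j : ℕ, (w.1, w.2 + j * P.1 w.1) ∈ f.support := fun j => by
    induction j with
    | zero => simpa using hw
    | succ j ih =>
      have := mapDomain_apply inj f (w.1, w.2 + j * P.1 w.1)
      rw [← e2] at this
      rw [mem_support_iff, ← this] at ih
      simpa [act, add_mul, add_assoc] using ih
  refine Set.infinite_of_injective_forall_mem (f := fun j : ℕ => (w.1, w.2 + j * P.1 w.1))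
    (fun a b e => ?_) hall f.support.finite_toSet
  simpa [hP] using e

noncomputable def gens (k : Fin M) (P : NN M) : Fin (M + 3) → SD (rho k) :=
  Fin.cons (qq k P) (Fin.cons (dd k 0) (Fin.cons (cc k 0) fun j => y1 k (.ofAdd (Pi.single j 1))))

def wd (k : Fin M) (n : ℕ) : List (Fin (M + 3) × Bool) :=
  List.replicate n (k.succ.succ.succ, true) ++ ((Fin.succ (Fin.succ 0), true) ::
    (List.replicate n (k.succ.succ.succ, false) ++ [(0, true)]))

theorem prim_rep {α : Type} [Primcodable α] (a : α) : Primrec fun n => List.replicate n a :=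
  (Primrec.nat_iterate Primrec.id (Primrec.const []) (Primrec.list_cons.comp (Primrec.const a)
    Primrec.snd).to₂).of_eq fun n => by
      induction n with
      | zero => rfl
      | succ n ih => rw [id, Function.iterate_succ_apply', List.replicate_succ]; exact congrArg _ ih

theorem prim_wd (k : Fin M) : Primrec (wd k) :=
  Primrec.list_append.comp (prim_rep _) (Primrec.list_cons.comp (Primrec.const _)
    (Primrec.list_append.comp (prim_rep _) (Primrec.const _)))

theorem lift_wd (k : Fin M) (P : NN M) (n : ℕ) :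
    FreeGroup.lift (gens k P) (FreeGroup.mk (wd k n)) = cc k n * qq k P := by
  have := y_cc k (n • Pi.single k 1)
  rw [ofAdd_nsmul, map_pow] at this
  simp only [Pi.smul_apply, Pi.single_eq_same, nsmul_eq_mul, mul_one] at this
  rw [← this]
  simp [wd, gens, mul_assoc, -Fin.succ_zero_eq_one', -Fin.succ_zero_eq_one]

theorem conj_iff (k : Fin M) (P : NN M) (n : ℕ) :
    IsConj ((FreeGroup.lift (gens k P)).rangeRestrict (FreeGroup.mk [(0, true)]))
      ((FreeGroup.lift (gens k P)).rangeRestrict (FreeGroup.mk (wd k n))) ↔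
    ∃ t : Fin M → ℤ, t k = n ∧ P.1 t = 0 := by
  have e0 : FreeGroup.lift (gens k P) (FreeGroup.mk [(0, true)]) = qq k P := by simp [gens]
  rw [isConj_iff]
  constructor
  · rintro ⟨h, e⟩
    have := congrArg Subtype.val (mul_inv_eq_iff_eq_mul.1 e)
    simp only [Subgroup.coe_mul, MonoidHom.coe_rangeRestrict, e0, lift_wd] at this
    exact of_conj k P this
  · rintro ⟨t, h1, h2⟩
    have hy : ∀ s, y1 k (.ofAdd s) ∈ (FreeGroup.lift (gens k P)).range := fun s => by
      rw [← Finset.univ_sum_single s, ofAdd_sum]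
      refine Subgroup.prod_mem (((FreeGroup.lift (gens k P)).range).comap (y1 k)) fun j _ => ?_
      rw [show Pi.single j (s j) = s j • (Pi.single j 1 : Fin M → ℤ) by
        rw [← Pi.single_smul]; simp, ofAdd_zsmul]
      exact Subgroup.zpow_mem _ (Subgroup.mem_comap.2
        (MonoidHom.mem_range.2 ⟨.of j.succ.succ.succ, by simp [gens]⟩)) _
    have hd : dd k t ∈ (FreeGroup.lift (gens k P)).range := by
      rw [← y_dd]
      exact mul_mem (mul_mem (hy t) ⟨.of (Fin.succ 0), by simp [gens]⟩) (inv_mem (hy t))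
    refine ⟨⟨_, hd⟩⁻¹, mul_inv_eq_iff_eq_mul.2 (Subtype.ext ?_)⟩
    simp only [Subgroup.coe_mul, MonoidHom.coe_rangeRestrict, e0, lift_wd, Subgroup.coe_inv, ← h1]
    exact conj_of k P h2

def xt (M : ℕ) (t : Fin M → ℤ) (j : ℕ) : ℤ := if h : j < M then t ⟨j, h⟩ else 0

theorem xt_M1 (j : ℕ) : (fun t => xt M t j) ∈ M1 M := by
  unfold xt
  split_ifs
  exacts [var_M1 _, zero_mem _]

theorem exists_eq (q : Eqn ℕ) : ∃ e ∈ M1 M * M1 M, ∀ t, e t = 0 ↔ q.Sat (xt M t) := by
  have h : ∀ j, (fun t => xt M t j) ∈ M1 M * M1 M := fun j => by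
    simpa using Submodule.mul_mem_mul (xt_M1 (M := M) j) one_M1
  cases q with
  | add i j k => exact ⟨_, sub_mem (add_mem (h i) (h j)) (h k), fun t => sub_eq_zero⟩
  | mul i j k =>
    exact ⟨_, sub_mem (Submodule.mul_mem_mul (xt_M1 i) (xt_M1 j)) (h k), fun t => sub_eq_zero⟩
  | cst i c =>
    refine ⟨_, sub_mem (h i) (Submodule.smul_mem _ c (Submodule.mul_mem_mul one_M1 one_M1)),
      fun t => ?_⟩
    simp [Eqn.Sat, sub_eq_zero]

theorem exists_P (S : List (Eqn ℕ)) :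
    ∃ P : NN M, (∀ t, 0 ≤ P.1 t) ∧ ∀ t, P.1 t = 0 ↔ ∀ q ∈ S, q.Sat (xt M t) := by
  induction S with
  | nil => exact ⟨0, fun _ => le_rfl, by simp⟩
  | cons q S ih =>
    obtain ⟨P, h0, h1⟩ := ih
    obtain ⟨e, he, h2⟩ := exists_eq (M := M) q
    refine ⟨⟨e * e, Submodule.mul_mem_mul he he⟩ + P,
      fun t => add_nonneg (mul_self_nonneg (e t)) (h0 t), fun t => ?_⟩
    rw [List.forall_mem_cons, ← h1, ← h2, ← mul_self_eq_zero (a := e t)]
    exact add_eq_zero_iff_of_nonneg (mul_self_nonneg (e t)) (h0 t)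

theorem h10' : ∃ (M : ℕ) (k : Fin M) (P : NN M),
    ¬ ComputablePred fun n : ℕ => ∃ t : Fin M → ℤ, t k = n ∧ P.1 t = 0 := by
  obtain ⟨i, S, h⟩ := h10
  obtain ⟨M, hM⟩ := (i :: S.flatMap Eqn.vars).finite_toSet.bddAbove
  have hl : ∀ j ∈ i :: S.flatMap Eqn.vars, j < M + 1 := fun j hj => Nat.lt_succ_of_le (hM hj)
  obtain ⟨P, -, hP⟩ := exists_P (M := M + 1) S
  refine ⟨M + 1, ⟨i, hl i List.mem_cons_self⟩, P, fun h2 => h (h2.of_eq fun n => ⟨?_, ?_⟩)⟩
  · rintro ⟨t, h1, h2⟩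
    exact ⟨xt _ t, by rw [xt, dif_pos (hl i List.mem_cons_self), h1], (hP t).1 h2⟩
  · rintro ⟨x, h1, h2⟩
    refine ⟨fun j => x j, h1, (hP _).2 fun q hq => (q.sat_congr fun j hj => ?_).2 (h2 q hq)⟩
    rw [xt, dif_pos (hl j (List.mem_cons_of_mem _ (List.mem_flatMap.2 ⟨q, hq, hj⟩)))]

theorem main : ¬ (∀ (G : Type) [Group G] (A : Subgroup G) [A.Normal],
      (∀ x ∈ A, ∀ y ∈ A, x * y = y * x) →
      Group.IsSolvable (G ⧸ A) →
      (∀ H : Subgroup (G ⧸ A), H.FG) →
      ∀ (n : ℕ) (f : FreeGroup (Fin n) →* G), Function.Surjective f →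
        ComputablePred (fun p : List (Fin n × Bool) × List (Fin n × Bool) =>
          IsConj (f (FreeGroup.mk p.1)) (f (FreeGroup.mk p.2)))) := fun H => by
  obtain ⟨M, k, P, h⟩ := h10'
  let φ := (pr (rho k)).comp (FreeGroup.lift (gens k P)).range.subtype
  have hi := QuotientGroup.kerLift_injective φ
  obtain ⟨d, hd⟩ := H _ φ.ker (fun x hx y hy => by
      have hx : (x : SD (rho k)).g = 1 := hx
      have hy : (y : SD (rho k)).g = 1 := hy
      refine Subtype.ext (SD.ext ?_ ?_) <;> simp [hx, hy, add_comm])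
    (Group.isSolvable_of_isSolvable_injective hi) (noeth_QQ.inj _ hi) (M + 3) _
    (FreeGroup.lift (gens k P)).rangeRestrict_surjective
  refine h (ComputablePred.of_eq (p := fun n : ℕ => _) ⟨fun n => d ([(0, true)], wd k n),
    hd.comp ((Computable.const _).pair (prim_wd k).to_comp)⟩ (conj_iff k P))

end Pool.Agent.H52.AP
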