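import Mathlib

namespace Pool.Agent.H52.Afsr

open Finset Module

lemma diam {V G : Type} [AddCommGroup V] [AddCommGroup G] [Finite G] (ν : V → ℕ)
    (hadd : ∀ x y, ν (x + y) ≤ ν x + ν y) (hneg : ∀ x, ν (-x) = ν x) (h0 : ν 0 = 0)
    (hgen : AddSubgroup.closure {x | ν x ≤ 1} = ⊤) (ψ : V →+ G) {U s : ℕ} (hU : 1 ≤ U)
    (hs : s ≤ (ψ '' {x | ν x ≤ U}).ncard) (x0 : V) :
    ∃ x, ψ x = ψ x0 ∧ ν x * s ≤ 3 * U * Nat.card G := by
  let A : ℕ → Set G := fun j => ψ '' {x | ν x ≤ j * U}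
  have mono : ∀ i j, i ≤ j → A i ⊆ A j := fun i j h =>
    Set.image_mono fun x hx => hx.trans (Nat.mul_le_mul_right _ h)
  have add : ∀ i j, ∀ y ∈ A i, ∀ z ∈ A j, y + z ∈ A (i + j) := by
    rintro i j _ ⟨x, hx, rfl⟩ _ ⟨y, hy, rfl⟩
    exact ⟨x + y, (hadd x y).trans (by rw [add_mul]; exact Nat.add_le_add hx hy), map_add _ _ _⟩
  have neg : ∀ i, ∀ y ∈ A i, -y ∈ A i := by
    rintro i _ ⟨x, hx, rfl⟩
    exact ⟨-x, (hneg x).trans_le hx, map_neg _ _⟩
  have key : ∀ j, (∀ x, ψ x ∈ A (3 * j)) ∨ (j + 1) * s ≤ (A (3 * j + 1)).ncard := fun j => by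
    induction j with
    | zero => exact .inr (by simpa [A] using hs)
    | succ j ih =>
      rcases ih with h | h
      · exact .inl fun x => mono _ _ (by omega) (h x)
      by_cases h1 : A (3 * j + 3) ⊆ A (3 * j + 2)
      · refine .inl fun x => mono (3 * j + 2) _ (by omega) ?_
        have : ∀ y ∈ A (3 * j + 2), y + ψ x ∈ A (3 * j + 2) := by
          have hx : x ∈ AddSubgroup.closure {x | ν x ≤ 1} := hgen ▸ trivial
          induction hx using AddSubgroup.closure_induction_left with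
          | zero => simp
          | add_left u hu v _ ih =>
            intro y hy
            rw [map_add, ← add_assoc]
            exact ih _ (h1 (add _ 1 y hy _ ⟨u, by simpa using hu.trans hU, rfl⟩))
          | neg_add_cancel u hu v _ ih =>
            intro y hy
            rw [map_add, ← add_assoc]
            exact ih _ (h1 (add _ 1 y hy _ ⟨-u, by simpa [hneg] using hu.trans hU, rfl⟩))
        simpa using this 0 ⟨0, by simp [h0], map_zero _⟩
      right
      obtain ⟨y, y1, y2⟩ := Set.not_subset.mp h1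
      have d : Disjoint (A (3 * j + 1)) ((y + ·) '' A 1) := Set.disjoint_left.mpr (by
        rintro _ hz ⟨z, z1, rfl⟩
        exact y2 (by simpa using add _ _ _ hz _ (neg _ _ z1)))
      have := Set.ncard_le_ncard (s := A (3 * j + 1) ∪ (y + ·) '' A 1) (t := A (3 * (j + 1) + 1))
        (Set.union_subset (mono _ _ (by omega)) (by
          rintro _ ⟨z, z1, rfl⟩
          exact add _ _ _ y1 _ z1)) (Set.toFinite _)
      rw [Set.ncard_union_eq d, Set.ncard_image_of_injective _ (add_right_injective y)] at this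
      have h2 : s ≤ (A 1).ncard := by simpa [A] using hs
      rw [add_mul (j + 1)]
      omega
  rcases s.eq_zero_or_pos with rfl | s0
  · exact ⟨x0, rfl, by simp⟩
  rcases key (Nat.card G / s) with h | h
  · obtain ⟨x, x1, x2⟩ := h x0
    refine ⟨x, x2, (Nat.mul_le_mul_right _ x1).trans ?_⟩
    nlinarith [Nat.mul_le_mul_left (3 * U) (Nat.div_mul_le_self (Nat.card G) s)]
  · have := h.trans (Set.ncard_le_card _)
    have := Nat.lt_div_mul_add (a := Nat.card G) s0
    rw [add_mul] at *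
    omega

variable {R : Type} [CommRing R] {d : ℕ} (b : Basis (Fin d) ℤ R)

/-- sup norm of the coordinates -/
noncomputable def nm (x : R) : ℕ := univ.sup fun i => (b.repr x i).natAbs

lemma nm_le {x : R} {U : ℕ} : nm b x ≤ U ↔ ∀ i, (b.repr x i).natAbs ≤ U := by simp [nm]

lemma le_nm (x : R) (i : Fin d) : (b.repr x i).natAbs ≤ nm b x := (nm_le b).mp le_rfl i

lemma nm_add (x y : R) : nm b (x + y) ≤ nm b x + nm b y := (nm_le b).mpr fun i => by
  have := le_nm b x i
  have := le_nm b y i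
  simp only [map_add, Finsupp.add_apply]
  omega

lemma nm_neg (x : R) : nm b (-x) = nm b x := by simp [nm]

lemma nm_zero : nm b 0 = 0 := by simp [nm]

lemma nm_sub (x y : R) : nm b (x - y) ≤ nm b x + nm b y := by
  simpa [sub_eq_add_neg, nm_neg] using nm_add b x (-y)

lemma nm_pos {x : R} (h : x ≠ 0) : 0 < nm b x := Nat.pos_of_ne_zero fun h0 => h (by
  refine b.repr.injective (Finsupp.ext fun i => ?_)
  have := le_nm b x i
  simp; omega)

lemma nm_smul (k : ℤ) (x : R) : nm b (k • x) = k.natAbs * nm b x := by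
  simp only [nm, map_smul, Finsupp.smul_apply, smul_eq_mul, Int.natAbs_mul]
  exact (Finset.mul_sup₀ _ _ _).symm

lemma nm_sum {ι : Type} (s : Finset ι) (f : ι → R) : nm b (∑ i ∈ s, f i) ≤ ∑ i ∈ s, nm b (f i) :=
  le_sum_of_subadditive (nm b) (nm_zero b).le (nm_add b) s f

lemma nm_basis (i : Fin d) : nm b (b i) ≤ 1 := (nm_le b).mpr fun j => by
  rw [b.repr_self, Finsupp.single_apply]; split_ifs <;> simp

lemma nm_mul : ∃ c, 1 ≤ c ∧ ∀ x y, nm b (x * y) ≤ c * (nm b x * nm b y) := by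
  refine ⟨∑ i, ∑ j, nm b (b i * b j) + 1, by omega, fun x y => ?_⟩
  conv_lhs => rw [← b.sum_repr x, ← b.sum_repr y, sum_mul_sum]
  refine (nm_sum b _ _).trans (le_trans ?_ (Nat.mul_le_mul_right _ (Nat.le_succ _)))
  rw [sum_mul]
  refine sum_le_sum fun i _ => (nm_sum b _ _).trans ?_
  rw [sum_mul]
  refine sum_le_sum fun j _ => ?_
  rw [smul_mul_smul_comm, nm_smul, Int.natAbs_mul, mul_comm]
  exact Nat.mul_le_mul_left _ (Nat.mul_le_mul (le_nm b x i) (le_nm b y j))

/-- boxes -/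
noncomputable def box (U : ℕ) : Finset R :=
  (Fintype.piFinset fun _ => Icc (-U : ℤ) U).map b.equivFun.symm.toEquiv.toEmbedding

lemma mem_box {x : R} {U : ℕ} : x ∈ box b U ↔ nm b x ≤ U := by
  simp only [box, mem_map_equiv, Fintype.mem_piFinset, mem_Icc, nm_le]
  refine forall_congr' fun i => ?_
  show -(U : ℤ) ≤ b.repr x i ∧ b.repr x i ≤ U ↔ _
  omega

lemma card_box (U : ℕ) : (box b U).card = (2 * U + 1) ^ d := by
  simp only [box, card_map, Fintype.card_piFinset, Int.card_Icc, prod_const, card_univ,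
    Fintype.card_fin]
  congr 1
  omega

lemma reps [IsDomain R] : ∃ c, ∀ x : R, x ≠ 0 → ∀ y, ∃ z, nm b z ≤ c * nm b x ∧ x ∣ y - z := by
  obtain ⟨c, -, hc⟩ := nm_mul b
  refine ⟨c, fun x hx y => ?_⟩
  have := Module.Finite.of_basis b
  obtain ⟨m, m0, w, hw⟩ : ∃ m : ℤ, 0 < m ∧ x ∣ (m : R) := by
    obtain ⟨k, k0, hk⟩ := (IsIntegral.of_finite ℤ x).isAlgebraic.exists_nonzero_dvd
      (mem_nonZeroDivisors_of_ne_zero hx)
    exact ⟨|k|, abs_pos.mpr k0, hk.trans (map_dvd (Int.castRingHom R) (self_dvd_abs k))⟩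
  let q := b.equivFun.symm fun i => b.repr (w * y) i / m
  let r := b.equivFun.symm fun i => b.repr (w * y) i % m
  have e : w * y = m • q + r := b.equivFun.injective (by
    ext i
    simp only [q, r, map_add, map_smul, LinearEquiv.apply_symm_apply]
    simp [Int.mul_ediv_add_emod])
  have r1 : nm b r ≤ m.natAbs := (nm_le b).mpr fun i => by
    have := Int.emod_nonneg (b.repr (w * y) i) m0.ne'
    have := Int.emod_lt_of_pos (b.repr (w * y) i) m0
    simp only [r, Basis.equivFun_symm_apply, Basis.repr_sum_self]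
    omega
  refine ⟨y - x * q, Nat.le_of_mul_le_mul_left ?_ (Int.natAbs_pos.mpr m0.ne'), by simp⟩
  rw [← nm_smul, show m • (y - x * q) = x * r by
    rw [eq_sub_of_add_eq' e.symm]; simp only [zsmul_eq_mul, hw]; ring]
  exact (hc x r).trans (by nlinarith [Nat.mul_le_mul_left (c * nm b x) r1])

lemma pack (D : Set R) (hD : ∀ x ∈ D, ∀ y ∈ D, x - y ∈ D) {K c U : ℕ} (hU : 1 ≤ U)
    (h : ∀ x ∈ D, x ≠ 0 → K ≤ c * nm b x ^ d) (h1 : ∃ x ∈ D, x ≠ 0 ∧ nm b x ≤ U)
    (T : Finset R) (hT : ∀ x ∈ T, x ∈ D ∧ nm b x ≤ U) : K * T.card ≤ c * (10 * U) ^ d := by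
  classical
  obtain ⟨x, x1, x2, x3⟩ := h1
  obtain ⟨ρ, ⟨y, y1, y2, rfl⟩, hρ⟩ := wellFounded_lt.has_min
    {n | ∃ x ∈ D, x ≠ 0 ∧ nm b x = n} ⟨_, x, x1, x2, rfl⟩
  have hρ' : ∀ z ∈ D, z ≠ 0 → nm b y ≤ nm b z := fun z z1 z2 => not_lt.mp (hρ _ ⟨z, z1, z2, rfl⟩)
  have y3 := nm_pos b y2
  have y4 := (hρ' x x1 x2).trans x3
  have := card_le_card_of_injOn (s := T ×ˢ box b ((nm b y - 1) / 2)) (t := box b (2 * U))
    (fun p => p.1 + p.2) (fun p hp => by
      obtain ⟨p1, p2⟩ := mem_product.mp hp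
      have := (hT _ p1).2
      have := (mem_box b).mp p2
      exact (mem_box b).mpr ((nm_add b _ _).trans (by omega))) (by
      rintro ⟨u, v⟩ hp ⟨u', v'⟩ hq e
      obtain ⟨p1, p2⟩ := mem_product.mp hp
      obtain ⟨q1, q2⟩ := mem_product.mp hq
      have e' : u + v = u' + v' := e
      have e1 : u - u' = v' - v := by linear_combination e'
      by_cases e2 : u - u' = 0
      · rw [sub_eq_zero.mp e2, sub_eq_zero.mp (e1.symm.trans e2)]
      have : nm b y ≤ nm b (u - u') := hρ' _ (hD _ (hT _ p1).1 _ (hT _ q1).1) e2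
      have := nm_sub b v' v
      have : nm b v ≤ _ := (mem_box b).mp p2
      have : nm b v' ≤ _ := (mem_box b).mp q2
      rw [e1] at *
      omega)
  rw [card_product, card_box, card_box] at this
  refine (Nat.mul_le_mul_right _ (h y y1 y2)).trans ?_
  rw [mul_assoc]
  refine Nat.mul_le_mul_left _ ((Nat.mul_le_mul_right _ (Nat.pow_le_pow_left
    (show nm b y ≤ 2 * (2 * ((nm b y - 1) / 2) + 1) by omega) d)).trans ?_)
  rw [mul_pow, mul_assoc, mul_comm _ T.card, show 10 * U = 2 * (5 * U) by ring, mul_pow 2]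
  exact Nat.mul_le_mul_left _ (this.trans (Nat.pow_le_pow_left (by omega) d))

end Pool.Agent.H52.Afsr
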