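import Pool.Agent.H52.Afsr1

namespace Pool.Agent.H52.Afsr

open Finset Module

lemma rank_prod {α : Type} (m : α → ℕ) (A : Finset α) : ∀ h : α → ℝ,
    (∀ a ∈ A, ((A.filter fun x => m x ≤ m a).card : ℝ) ≤ h a) →
    (A.card.factorial : ℝ) ≤ ∏ a ∈ A, h a := by
  classical
  induction A using induction_on_max_value m with
  | empty => simp
  | insert a s ha hm ih =>
    intro h hh
    rw [prod_insert ha, card_insert_of_notMem ha, Nat.factorial_succ]
    have h1 := hh a (mem_insert_self _ _)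
    rw [filter_true_of_mem (by
      intro x hx
      rcases mem_insert.mp hx with rfl | hx
      exacts [le_rfl, hm x hx]), card_insert_of_notMem ha] at h1
    push_cast at h1 ⊢
    exact mul_le_mul h1 (ih h fun x hx => le_trans (Nat.cast_le.mpr (card_le_card
      (filter_subset_filter _ (subset_insert _ _)))) (hh x (mem_insert_of_mem hx)))
      (by positivity) (le_trans (by positivity) h1)

lemma rank_log {α : Type} [Fintype α] [Nonempty α] (m : α → ℕ) (h : α → ℝ)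
    (hh : ∀ a, ((univ.filter fun x => m x ≤ m a).card : ℝ) ≤ h a) :
    Fintype.card α * (Real.log (Fintype.card α) - 1) ≤ ∑ a, Real.log (h a) := by
  have h0 : ∀ a, 0 < h a := fun a =>
    lt_of_lt_of_le (Nat.cast_pos.mpr (card_pos.mpr ⟨a, by simp⟩)) (hh a)
  have h1 := rank_prod m univ h fun a _ => hh a
  have h2 := Real.pow_div_factorial_le_exp (Fintype.card α) (by positivity) (Fintype.card α)
  have h3 : (0 : ℝ) < Fintype.card α := Nat.cast_pos.mpr Fintype.card_pos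
  rw [← Real.log_prod fun a _ => (h0 a).ne']
  have h4 := Real.log_le_log (by positivity) h2
  have h5 := Real.log_le_log (by positivity) h1
  rw [Real.log_div (by positivity) (by positivity), Real.log_pow, Real.log_exp] at h4
  rw [card_univ] at h5
  linarith

variable {R : Type} [CommRing R] {d : ℕ} (b : Basis (Fin d) ℤ R) {π : R} {N : ℕ}

lemma dig1 (hb : ∀ i, b i = π ^ (i : ℕ)) (hd : 0 < d) (hN : 0 < N)
    (h : π ^ d = N ∨ π ^ d = -N) (x : R) : ∃ r : Fin N, π ∣ x - (r : ℕ) := by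
  have h1 : π ∣ (N : R) := by
    have := dvd_pow_self π hd.ne'
    rcases h with h | h <;> simpa [h] using this
  obtain ⟨k, hk⟩ : ∃ k : ℤ, π ∣ x - k := by
    refine ⟨b.repr x ⟨0, hd⟩, ?_⟩
    conv => enter [2, 1]; rw [← b.sum_repr x]
    rw [← add_sum_erase _ _ (mem_univ ⟨0, hd⟩), hb]
    simp only [pow_zero, zsmul_eq_mul, mul_one, add_sub_cancel_left]
    refine dvd_sum fun i hi => Dvd.dvd.mul_left ?_ _
    rw [hb]
    exact dvd_pow_self _ fun e => (mem_erase.mp hi).1 (Fin.ext e)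
  have h2 := Int.emod_nonneg k (show (N : ℤ) ≠ 0 by omega)
  have h3 := Int.emod_lt_of_pos k (show (0 : ℤ) < N by omega)
  refine ⟨⟨(k % N).toNat, by omega⟩, ?_⟩
  have e : (((k % N).toNat : ℕ) : R) = k - N * (k / N : ℤ) := by
    rw [← Int.cast_natCast, Int.toNat_of_nonneg h2, Int.emod_def]; push_cast; rfl
  show π ∣ x - (((k % N).toNat : ℕ) : R)
  rw [e, sub_sub_eq_add_sub, add_sub_right_comm]
  exact hk.add (h1.mul_right _)

lemma dig2 (hb : ∀ i, b i = π ^ (i : ℕ)) (hd : 0 < d)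
    (h : π ^ d = N ∨ π ^ d = -N) {k : ℤ} (hk : π ∣ k) : (N : ℤ) ∣ k := by
  obtain ⟨y, hy⟩ := hk
  have e0 : (1 : R) = b ⟨0, hd⟩ := by simp [hb]
  have e1 : ∀ k : ℤ, b.repr k ⟨0, hd⟩ = k := fun k => by
    rw [← zsmul_one, e0, map_smul]; simp
  rw [← e1 k, hy, ← b.sum_repr y, mul_sum, map_sum, Finsupp.finsetSum_apply]
  refine dvd_sum fun i _ => ?_
  rw [mul_smul_comm, map_smul, Finsupp.smul_apply, smul_eq_mul, hb, ← pow_succ']
  refine Dvd.dvd.mul_left ?_ _
  by_cases hi : i + 1 < d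
  · rw [show π ^ (i + 1 : ℕ) = b ⟨i + 1, hi⟩ by simp [hb], b.repr_self, Finsupp.single_apply]
    simp
  rw [show (i : ℕ) + 1 = d by omega]
  have := e1 N
  rcases h with h | h <;> simp_all

lemma ext_seq (h1 : ∀ x : R, ∃ r : Fin N, π ∣ x - (r : ℕ)) {g : R} (hg : IsCoprime g π) (f : R) :
    ∃ a : ℕ → Fin N, ∀ m, π ^ m ∣ f - g * ∑ i ∈ range m, ((a i : ℕ) : R) * π ^ i := by
  obtain ⟨u, v, e⟩ := hg
  have : ∀ y : R, ∃ r : Fin N, ∃ z, y - g * (r : ℕ) = π * z := fun y => by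
    obtain ⟨r, z, hz⟩ := h1 (u * y)
    exact ⟨r, g * z + v * y, by linear_combination g * hz - y * e⟩
  choose r z hz using this
  refine ⟨fun i => r (z^[i] f), fun m => ⟨z^[m] f, ?_⟩⟩
  induction m with
  | zero => simp
  | succ m ih =>
    rw [sum_range_succ, Function.iterate_succ_apply']
    linear_combination ih + π ^ m * hz (z^[m] f)

lemma uniq [IsDomain R] (h0 : π ≠ 0) (h2 : ∀ k : ℤ, π ∣ k → (N : ℤ) ∣ k) (a a' : ℕ → Fin N) (n : ℕ)
    (h : π ^ n ∣ ∑ i ∈ range n, ((a i : ℕ) : R) * π ^ i - ∑ i ∈ range n, ((a' i : ℕ) : R) * π ^ i) :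
    ∀ i < n, a i = a' i := by
  induction n with
  | zero => simp
  | succ n ih =>
    rw [sum_range_succ, sum_range_succ, add_sub_add_comm, ← sub_mul] at h
    have h3 := ih ((dvd_add_left (dvd_mul_left _ _)).mp ((pow_dvd_pow π n.le_succ).trans h))
    rw [sum_congr rfl fun i hi => by rw [h3 i (mem_range.mp hi)], sub_self, zero_add, pow_succ',
      mul_dvd_mul_iff_right (pow_ne_zero _ h0)] at h
    have h4 := h2 ((a n : ℕ) - (a' n : ℕ)) (by push_cast; exact h)
    have := (a n).2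
    have := (a' n).2
    have := Int.eq_zero_of_abs_lt_dvd h4 (by rw [abs_lt]; omega)
    intro i hi
    rcases (Nat.lt_succ_iff.mp hi).lt_or_eq with hi | rfl
    exacts [h3 i hi, Fin.ext (by omega)]

/-- value of a finite digit string -/
def val (π : R) {n : ℕ} (a : Fin n → Fin N) : R := ∑ i, ((a i : ℕ) : R) * π ^ (i : ℕ)

lemma val_inj [IsDomain R] (h0 : π ≠ 0) (h2 : ∀ k : ℤ, π ∣ k → (N : ℤ) ∣ k) (hN : 0 < N) {n : ℕ}
    {a a' : Fin n → Fin N} (h : π ^ n ∣ val π a - val π a') : a = a' := by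
  have := uniq h0 h2 (fun i => if h : i < n then a ⟨i, h⟩ else ⟨0, hN⟩)
    (fun i => if h : i < n then a' ⟨i, h⟩ else ⟨0, hN⟩) n (by
      simpa [sum_range, val] using h)
  ext i
  simpa [Fin.ext_iff] using this i i.2

lemma val_surj (h1 : ∀ x : R, ∃ r : Fin N, π ∣ x - (r : ℕ)) (n : ℕ) (x : R) :
    ∃ a : Fin n → Fin N, π ^ n ∣ x - val π a := by
  obtain ⟨a, ha⟩ := ext_seq h1 isCoprime_one_left x
  exact ⟨fun i => a i, by simpa [sum_range, val] using ha n⟩

lemma ext_iff' [IsDomain R] (h0 : π ≠ 0) (h1 : ∀ x : R, ∃ r : Fin N, π ∣ x - (r : ℕ))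
    (h2 : ∀ k : ℤ, π ∣ k → (N : ℤ) ∣ k) (hN : 0 < N) {n : ℕ} (a : Fin n → Fin N) {g : R}
    (hg : IsCoprime g π) (f : R) :
    (∃ s : ℕ → Fin N, (∀ i : Fin n, s i = a i) ∧
      ∀ m, π ^ m ∣ f - g * ∑ i ∈ range m, ((s i : ℕ) : R) * π ^ i) ↔ π ^ n ∣ f - g * val π a := by
  constructor
  · rintro ⟨s, h3, h4⟩
    simpa [sum_range, val, h3] using h4 n
  intro h
  obtain ⟨s, hs⟩ := ext_seq h1 hg f
  refine ⟨s, congrFun (val_inj h0 h2 hN ((hg.symm.pow_left (m := n)).dvd_of_dvd_mul_left ?_)), hs⟩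
  have := dvd_sub h (hs n)
  rw [sum_range] at this
  convert this using 1
  simp only [val]
  ring

lemma fin_quot (h1 : ∀ x : R, ∃ r : Fin N, π ∣ x - (r : ℕ)) (n : ℕ) :
    Finite (R ⧸ Ideal.span {π ^ n}) ∧ Nat.card (R ⧸ Ideal.span {π ^ n}) ≤ N ^ n := by
  have : Function.Surjective fun a : Fin n → Fin N =>
      Ideal.Quotient.mk (Ideal.span {π ^ n}) (val π a) := fun y => by
    obtain ⟨x, rfl⟩ := Ideal.Quotient.mk_surjective y
    obtain ⟨a, ha⟩ := val_surj h1 n x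
    exact ⟨a, (Ideal.Quotient.eq.mpr (Ideal.mem_span_singleton.mpr ha)).symm⟩
  exact ⟨.of_surjective _ this, by simpa using Nat.card_le_card_of_surjective _ this⟩

lemma fiber {Q : Type} [CommRing Q] [Finite Q] (f g : Q) :
    {a | f = g * a}.ncard ≤ (Ideal.span {g}).toAddSubgroup.index := by
  rcases {a | f = g * a}.eq_empty_or_nonempty with h | ⟨a0, h⟩
  · simp [h]
  let μ := AddMonoidHom.mulLeft g
  have e : (Ideal.span {g}).toAddSubgroup = μ.range := by
    ext x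
    simp [μ, Ideal.mem_span_singleton, dvd_def, eq_comm]
  have h1 := μ.ker.card_mul_index
  have h2 := μ.range.card_mul_index
  rw [AddSubgroup.index_ker, ← h2, mul_comm] at h1
  rw [e, ← Nat.eq_of_mul_eq_mul_left Nat.card_pos h1]
  refine Set.ncard_le_ncard_of_injOn (t := μ.ker) (· - a0) (fun a ha => ?_)
    (sub_left_injective.injOn) (Set.toFinite _)
  simp [μ, mul_sub, ← show f = g * a from ha, ← show f = g * a0 from h]

end Pool.Agent.H52.Afsr
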