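import Pool.Agent.H52.Afsr2

namespace Pool.Agent.H52.Afsr

open Finset Module

variable {R : Type} [CommRing R] {d : ℕ} (b : Basis (Fin d) ℤ R) {π : R} {N : ℕ}

lemma idx [IsDomain R] : ∃ c, ∀ (I : Ideal R) (H : Ideal (R ⧸ I)) (x : R), x ≠ 0 →
    Ideal.Quotient.mk I x ∈ H → H.toAddSubgroup.index ≤ c * nm b x ^ d := by
  obtain ⟨c, hc⟩ := reps b
  refine ⟨(2 * c + 1) ^ d, fun I H x x0 hx => ?_⟩
  have : Function.Surjective fun z : box b (c * nm b x) =>
      ((Ideal.Quotient.mk I z : R ⧸ I) : (R ⧸ I) ⧸ H.toAddSubgroup) := fun y => by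
    obtain ⟨y, rfl⟩ := QuotientAddGroup.mk_surjective y
    obtain ⟨y, rfl⟩ := Ideal.Quotient.mk_surjective y
    obtain ⟨z, z1, w, z2⟩ := hc x x0 y
    refine ⟨⟨z, (mem_box b).mpr z1⟩, QuotientAddGroup.eq.mpr ?_⟩
    rw [neg_add_eq_sub, ← map_sub, z2, map_mul]
    exact H.mul_mem_right _ hx
  refine (Nat.card_le_card_of_surjective _ this).trans ?_
  rw [Nat.card_eq_finsetCard, card_box, ← mul_pow]
  exact Nat.pow_le_pow_left (by nlinarith [nm_pos b x0]) d

/-- sup norm of a pair -/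
noncomputable def nn (p : R × R) : ℕ := max (nm b p.1) (nm b p.2)

lemma count [IsDomain R] (h0 : π ≠ 0) (h1 : ∀ x : R, ∃ r : Fin N, π ∣ x - (r : ℕ))
    (h2 : ∀ k : ℤ, π ∣ k → (N : ℤ) ∣ k) (hN : 0 < N) : ∃ c, ∀ n U, 1 ≤ U →
    ∀ A : Finset (Fin n → Fin N), (∀ a ∈ A, ∃ p, p ≠ 0 ∧ nn b p ≤ U ∧ π ^ n ∣ p.1 - p.2 * val π a) →
      A.card ≤ c * U ^ (2 * d) := by
  classical
  obtain ⟨c, hc⟩ := idx b
  refine ⟨c * 30 ^ d, fun n U hU A hA => ?_⟩
  let I := Ideal.span {π ^ n}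
  have := (fin_quot h1 n).1
  let q := Ideal.Quotient.mk I
  let T : R → Finset R := fun g => (box b U).filter fun f => q f ∈ Ideal.span {q g} ∧ (f, g) ≠ 0
  have e : ∀ {f g a : R}, π ^ n ∣ f - g * a → q f = q g * q a := fun h =>
    Ideal.Quotient.eq.mpr (Ideal.mem_span_singleton.mpr h)
  have s1 : A ⊆ (box b U).biUnion fun g => (T g).biUnion fun f =>
      univ.filter fun a => π ^ n ∣ f - g * val π a := fun a ha => by
    obtain ⟨⟨f, g⟩, p1, p2, p3⟩ := hA a ha
    simp only [mem_biUnion, mem_filter, T, mem_box]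
    exact ⟨g, le_of_max_le_right p2, f, ⟨le_of_max_le_left p2,
      Ideal.mem_span_singleton.mpr ⟨_, e p3⟩, p1⟩, mem_univ _, p3⟩
  refine (card_le_card s1).trans ((card_biUnion_le_card_mul _ _ (c * (10 * U) ^ d)
    fun g hg => ?_).trans ?_)
  · refine (card_biUnion_le_card_mul _ _ (Ideal.span {q g}).toAddSubgroup.index
      fun f _ => le_trans ?_ (fiber (q f) (q g))).trans ?_
    · rw [← Set.ncard_coe_finset]
      exact Set.ncard_le_ncard_of_injOn (fun a => q (val π a)) (fun a ha => e (by simpa using ha))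
        (fun a _ a' _ h => val_inj h0 h2 hN (Ideal.mem_span_singleton.mp (Ideal.Quotient.eq.mp h)))
        (Set.toFinite _)
    rcases (T g).eq_empty_or_nonempty with h | ⟨f, hf⟩
    · simp [h]
    rw [mul_comm]
    simp only [T, mem_filter, mem_box] at hf hg
    refine pack b {x | q x ∈ Ideal.span {q g}} (fun x hx y hy => by
      simpa using sub_mem hx hy) hU (fun x hx x0 => hc I _ x x0 hx) ?_ _ fun x hx => ?_
    · by_cases g0 : g = 0
      · exact ⟨f, hf.2.1, fun f0 => hf.2.2 (by simp [f0, g0]), hf.1⟩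
      exact ⟨g, Ideal.mem_span_singleton_self _, g0, hg⟩
    simp only [T, mem_filter, mem_box] at hx
    exact ⟨hx.2.1, hx.1⟩
  rw [card_box]
  refine (Nat.mul_le_mul_right _ (Nat.pow_le_pow_left (show 2 * U + 1 ≤ 3 * U by omega) d)).trans
    (le_of_eq ?_)
  rw [show 30 = 3 * 10 from rfl]
  simp only [mul_pow]
  ring

lemma gen : AddSubgroup.closure {p | nn b p ≤ 1} = ⊤ := by
  rw [eq_top_iff]
  rintro ⟨f, g⟩ -
  have e : (f, g) = ∑ i, b.repr f i • (b i, (0 : R)) + ∑ i, b.repr g i • ((0 : R), b i) := by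
    ext
    · simpa [Prod.fst_sum] using (b.sum_repr f).symm
    · simpa [Prod.snd_sum] using (b.sum_repr g).symm
  rw [e]
  refine add_mem (sum_mem fun i _ => zsmul_mem (AddSubgroup.subset_closure ?_) _)
    (sum_mem fun i _ => zsmul_mem (AddSubgroup.subset_closure ?_) _) <;>
    simp [nn, nm_zero, nm_basis]

lemma upper (h1 : ∀ x : R, ∃ r : Fin N, π ∣ x - (r : ℕ)) (n W : ℕ) (a : R)
    (hW : ∀ p, nn b p ≤ 2 * W → π ^ n ∣ p.1 - p.2 * a → p = 0) :
    ∃ p, IsCoprime p.2 π ∧ π ^ n ∣ p.1 - p.2 * a ∧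
      nn b p * (2 * W + 1) ^ (2 * d) ≤ 3 * (2 * W + 1) * N ^ (n + 1) := by
  classical
  obtain ⟨i1, c1⟩ := fin_quot h1 n
  obtain ⟨i2, c2⟩ := fin_quot h1 1
  let q := (Ideal.Quotient.mk (Ideal.span {π ^ n})).toAddMonoidHom
  let r := (Ideal.Quotient.mk (Ideal.span {π ^ 1})).toAddMonoidHom
  let ψ := (q.comp (AddMonoidHom.fst R R - (AddMonoidHom.mulRight a).comp (.snd R R))).prod
    (r.comp (.snd R R))
  have e : ∀ p p', ψ p = ψ p' → π ^ n ∣ (p - p').1 - (p - p').2 * a ∧ π ∣ p.2 - p'.2 :=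
    fun p p' h => by
      obtain ⟨e1, e2⟩ := Prod.ext_iff.mp h
      refine ⟨?_, by simpa using Ideal.mem_span_singleton.mp (Ideal.Quotient.eq.mp e2)⟩
      convert Ideal.mem_span_singleton.mp (Ideal.Quotient.eq.mp e1) using 1
      simp
      ring
  obtain ⟨p, p1, p2⟩ := diam (nn b) (fun x y => max_le
      ((nm_add b _ _).trans (add_le_add (le_max_left _ _) (le_max_left _ _)))
      ((nm_add b _ _).trans (add_le_add (le_max_right _ _) (le_max_right _ _))))
    (fun x => by simp [nn, nm_neg]) (by simp [nn, nm_zero]) (gen b) ψ (le_max_left 1 W)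
    (s := (2 * W + 1) ^ (2 * d)) (by
      rw [two_mul d, pow_add, ← card_box b, ← card_product, ← Set.ncard_coe_finset]
      refine Set.ncard_le_ncard_of_injOn ψ (fun p hp => ⟨p, ?_, rfl⟩) (fun p hp p' hp' h => ?_)
        (Set.toFinite _)
      · obtain ⟨s1, s2⟩ := mem_product.mp hp
        exact (max_le ((mem_box b).mp s1) ((mem_box b).mp s2)).trans (le_max_right _ _)
      obtain ⟨s1, s2⟩ := mem_product.mp hp
      obtain ⟨s3, s4⟩ := mem_product.mp hp'
      rw [mem_box] at s1 s2 s3 s4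
      exact sub_eq_zero.mp (hW _ (max_le ((nm_sub b _ _).trans (by omega))
        ((nm_sub b _ _).trans (by omega))) (e _ _ h).1)) (a, 1)
  obtain ⟨e1, w, e2⟩ := e _ _ p1
  refine ⟨p, ⟨1, -w, by linear_combination e2⟩, by convert e1 using 1; simp; ring, p2.trans ?_⟩
  rw [Nat.card_prod, pow_succ]
  exact Nat.mul_le_mul (by omega) (Nat.mul_le_mul c1 (by simpa using c2))

lemma lg {x y : ℕ} (h : x ≤ y) : Real.log x ≤ Real.log y := by
  rcases x.eq_zero_or_pos with rfl | h0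
  · simpa using Real.log_natCast_nonneg y
  exact Real.log_le_log (Nat.cast_pos.mpr h0) (Nat.cast_le.mpr h)

lemma arith {M n l d c x y : ℝ} (hM : 0 < M) (hd : 1 ≤ d) (hc : 0 ≤ c) (hl : 0 ≤ l)
    (h1 : M * (n * l - 1) ≤ M * c + 2 * d * x)
    (h2 : M * (n * l - 1) ≤ M * (c + 2 * d) + 2 * d * y)
    (h3 : x + (2 * d - 1) * y ≤ M * (3 + (n + 1) * l)) :
    |d * x / M - n * l / 2| ≤ d * (3 + l) + d * (1 + c + 2 * d) := by
  have e : d * x / M * M = d * x := div_mul_cancel₀ _ hM.ne'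
  have h4 := mul_le_mul_of_nonneg_left h3 (show 0 ≤ d by linarith)
  have h5 := mul_le_mul_of_nonneg_left h2 (show 0 ≤ 2 * d - 1 by linarith)
  have : 0 ≤ d * l := by positivity
  have : 0 ≤ d * d := by positivity
  have : c ≤ d * c := le_mul_of_one_le_left hc hd
  rw [abs_le]
  constructor <;> refine le_of_mul_le_mul_right ?_ hM <;> nlinarith

lemma inf_abs {S : Set ℝ} {x c y : ℝ} (h1 : y ∈ S) (h2 : x - c ∈ lowerBounds S) (h3 : y - x ≤ c) :
    |sInf S - x| ≤ c :=
  abs_le.mpr ⟨by linarith [le_csInf ⟨_, h1⟩ h2], by linarith [csInf_le ⟨_, h2⟩ h1]⟩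

theorem main [IsDomain R] (hb : ∀ i, b i = π ^ (i : ℕ)) (hd : 0 < d) (hN : 2 ≤ N)
    (h : π ^ d = N ∨ π ^ d = -N) (φ : R → ℝ) (c0 : ℝ)
    (hφ : ∀ x, |φ x - d * Real.log (nm b x) / Real.log N| ≤ c0) :
    ∃ C : ℝ, ∀ n : ℕ, |(∑ a : Fin n → Fin N, sInf {s | ∃ f g, IsUnit (Ideal.Quotient.mk
      (Ideal.span {π}) g) ∧ (∃ t : ℕ → Fin N, (∀ i : Fin n, t i = a i) ∧
      ∀ m, π ^ m ∣ f - g * ∑ i ∈ range m, ((t i : ℕ) : R) * π ^ i) ∧
      s = max (φ f) (φ g)}) / (N : ℝ) ^ n - n / 2| ≤ C := by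
  have N0 : 0 < N := by omega
  have h1 := dig1 b hb hd N0 h
  have h2 : ∀ k : ℤ, π ∣ k → (N : ℤ) ∣ k := fun k => dig2 b hb hd h
  have h0 : π ≠ 0 := by
    rintro rfl
    have : (N : ℤ) • b ⟨0, hd⟩ = 0 := by rcases h with h | h <;> simp_all [hd.ne']
    have := congrArg (b.repr · ⟨0, hd⟩) this
    simp only [map_smul] at this
    simp at this
    omega
  have g0 : ∀ p : R × R, IsCoprime p.2 π → p ≠ 0 := by
    rintro _ hp rfl
    have := Int.le_of_dvd one_pos (h2 1 (by simpa using (isCoprime_zero_left.mp hp).dvd))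
    omega
  have n0 : ∀ p : R × R, p ≠ 0 → 1 ≤ nn b p := fun p hp => by
    by_cases e : p.1 = 0
    · exact le_max_of_le_right (nm_pos b fun e' => hp (Prod.ext e e'))
    exact le_max_of_le_left (nm_pos b e)
  have l0 : 0 < Real.log N := Real.log_pos (by exact_mod_cast hN)
  have d1 : (1 : ℝ) ≤ d := by exact_mod_cast hd
  have hm : ∀ p : R × R, |max (φ p.1) (φ p.2) - d * Real.log (nn b p) / Real.log N| ≤ c0 :=
    fun p => by
      have s1 := abs_le.mp (hφ p.1)
      have s2 := abs_le.mp (hφ p.2)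
      have s3 : ∀ {x y : ℕ}, x ≤ y → d * Real.log x / Real.log N ≤ d * Real.log y / Real.log N :=
        fun h => by have := lg h; gcongr
      rw [abs_le, nn]
      rcases le_total (nm b p.1) (nm b p.2) with e | e <;> have := s3 e
      · rw [max_eq_right e]
        exact ⟨by linarith [le_max_right (φ p.1) (φ p.2)],
          sub_le_iff_le_add.mpr (max_le (by linarith) (by linarith))⟩
      rw [max_eq_left e]
      exact ⟨by linarith [le_max_left (φ p.1) (φ p.2)],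
        sub_le_iff_le_add.mpr (max_le (by linarith) (by linarith))⟩
  obtain ⟨c, hc⟩ := count b h0 h1 h2 N0
  refine ⟨c0 + (d * (3 + Real.log N) + d * (1 + Real.log (c + 1) + 2 * d)) / Real.log N,
    fun n => ?_⟩
  have mn : ∀ S : Set (R × R), S.Nonempty → ∃ p ∈ S, ∀ q ∈ S, nn b p ≤ nn b q := fun S hS =>
    ⟨_, Function.argminOn_mem (nn b) S hS, fun q hq => Function.argminOn_le (nn b) S hq⟩
  choose P P1 P2 using fun a : Fin n → Fin N => mn
    {p | IsCoprime p.2 π ∧ π ^ n ∣ p.1 - p.2 * val π a} ⟨(val π a, 1), isCoprime_one_left, by simp⟩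
  choose Q Q1 Q2 using fun a : Fin n → Fin N => mn
    {p | p ≠ 0 ∧ π ^ n ∣ p.1 - p.2 * val π a} ⟨(val π a, 1), by simp, by simp⟩
  have : Nonempty (Fin n → Fin N) := ⟨fun _ => ⟨0, N0⟩⟩
  let w : (Fin n → Fin N) → ℕ := fun a => 2 * ((nn b (Q a) - 1) / 2) + 1
  have w0 : ∀ a, (0 : ℝ) < w a := fun a => by positivity
  have L0 : ∀ a, (0 : ℝ) < nn b (P a) := fun a => Nat.cast_pos.mpr (n0 _ (g0 _ (P1 a).1))
  have r1 := rank_log (fun a => nn b (P a)) (fun a => (c + 1) * nn b (P a) ^ (2 * d)) fun a => by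
    exact_mod_cast (hc n _ (n0 _ (g0 _ (P1 a).1)) _ fun x hx => ⟨P x, g0 _ (P1 x).1,
      (mem_filter.mp hx).2, (P1 x).2⟩).trans (Nat.mul_le_mul_right _ c.le_succ)
  have r2 := rank_log (fun a => nn b (Q a)) (fun a => (c + 1) * (2 * w a) ^ (2 * d)) fun a => by
    exact_mod_cast (hc n _ (n0 _ (Q1 a).1) _ fun x hx => ⟨Q x, (Q1 x).1,
      (mem_filter.mp hx).2, (Q1 x).2⟩).trans (Nat.mul_le_mul c.le_succ
        (Nat.pow_le_pow_left (by simp only [w]; omega) _))
  have r3 : ∀ a, Real.log (nn b (P a)) + (2 * d - 1) * Real.log (w a) ≤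
      3 + (n + 1) * Real.log N := fun a => by
    obtain ⟨p, p1, p2, p3⟩ := upper b h1 n ((nn b (Q a) - 1) / 2) (val π a) fun p p1 p2 => by
      by_contra p0
      have := Q2 a p ⟨p0, p2⟩
      have := n0 _ (Q1 a).1
      omega
    have p4 : (nn b (P a) : ℝ) * w a ^ (2 * d) ≤ 3 * w a * N ^ (n + 1) := by
      exact_mod_cast (Nat.mul_le_mul_right _ (P2 a p ⟨p1, p2⟩)).trans p3
    have := L0 a
    have := w0 a
    have p5 := Real.log_le_log (by positivity) p4
    rw [Real.log_mul (by positivity) (by positivity), Real.log_mul (by positivity) (by positivity),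
      Real.log_mul (by positivity) (by positivity), Real.log_pow, Real.log_pow] at p5
    push_cast at p5
    linarith [Real.log_le_sub_one_of_pos (show (0 : ℝ) < 3 by norm_num)]
  have r4 := sum_le_sum fun a (_ : a ∈ univ) => r3 a
  have cd : (Fintype.card (Fin n → Fin N) : ℝ) = N ^ n := by simp
  have M0 : (0 : ℝ) < N ^ n := by positivity
  rw [sum_add_distrib, ← mul_sum, sum_const, card_univ, nsmul_eq_mul, cd] at r4
  rw [sum_congr rfl fun a _ => by
    rw [Real.log_mul (by positivity) (pow_pos (L0 a) _).ne', Real.log_pow],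
    sum_add_distrib, ← mul_sum, sum_const, card_univ, nsmul_eq_mul, cd, Real.log_pow] at r1
  rw [sum_congr rfl fun a _ => by
    rw [Real.log_mul (by positivity) (by positivity), Real.log_pow,
      Real.log_mul (by positivity) (w0 a).ne'],
    sum_add_distrib, ← mul_sum, sum_add_distrib, sum_const, sum_const, card_univ, nsmul_eq_mul,
    nsmul_eq_mul, cd, Real.log_pow] at r2
  push_cast at r1 r2
  have r5 := arith M0 d1 (Real.log_nonneg (by linarith [c.cast_nonneg (α := ℝ)])) l0.le r1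
    (r2.trans (by
      nlinarith [mul_le_mul_of_nonneg_left (Real.log_le_sub_one_of_pos two_pos)
        (show (0 : ℝ) ≤ d * N ^ n by positivity)])) r4
  have r6 : ∀ a : Fin n → Fin N, |sInf {s | ∃ f g, IsUnit (Ideal.Quotient.mk
      (Ideal.span {π}) g) ∧ (∃ t : ℕ → Fin N, (∀ i : Fin n, t i = a i) ∧
      ∀ m, π ^ m ∣ f - g * ∑ i ∈ range m, ((t i : ℕ) : R) * π ^ i) ∧
      s = max (φ f) (φ g)} - d * Real.log (nn b (P a)) / Real.log N| ≤ c0 := fun a => by
    have u : ∀ g, IsUnit (Ideal.Quotient.mk (Ideal.span {π}) g) ↔ IsCoprime g π := fun g => by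
      rw [isUnit_iff_exists_inv']
      constructor
      · rintro ⟨u, hu⟩
        obtain ⟨u, rfl⟩ := Ideal.Quotient.mk_surjective u
        obtain ⟨v, hv⟩ := Ideal.mem_span_singleton.mp (Ideal.Quotient.eq.mp
          (show Ideal.Quotient.mk _ (u * g) = Ideal.Quotient.mk _ 1 from hu))
        exact ⟨u, -v, by linear_combination hv⟩
      rintro ⟨u, v, hv⟩
      exact ⟨Ideal.Quotient.mk _ u, Ideal.Quotient.eq.mpr (Ideal.mem_span_singleton.mpr
        (show π ∣ u * g - 1 from ⟨-v, by linear_combination hv⟩))⟩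
    refine inf_abs ⟨_, _, (u _).mpr (P1 a).1,
      (ext_iff' h0 h1 h2 N0 a (P1 a).1 _).mpr (P1 a).2, rfl⟩ ?_ (abs_le.mp (hm (P a))).2
    rintro _ ⟨f, g, s1, s2, rfl⟩
    have := lg (P2 a (f, g) ⟨(u g).mp s1, (ext_iff' h0 h1 h2 N0 a ((u g).mp s1) f).mp s2⟩)
    have : d * Real.log (nn b (P a)) / Real.log N ≤ d * Real.log (nn b (f, g)) / Real.log N := by
      gcongr
    linarith [(abs_le.mp (hm (f, g))).1]
  have r7 := (abs_sum_le_sum_abs _ _).trans (sum_le_sum fun a (_ : a ∈ univ) => r6 a)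
  rw [sum_sub_distrib, sum_const, card_univ, nsmul_eq_mul, cd, ← sum_div, ← mul_sum,
    ← div_le_iff₀' M0, ← abs_of_pos M0, ← abs_div, sub_div] at r7
  have r8 := div_le_div_of_nonneg_right r5 l0.le
  rw [← abs_of_pos l0, ← abs_div, abs_of_pos l0, sub_div, div_right_comm, div_right_comm (_ * _) 2,
    mul_div_cancel_right₀ _ l0.ne'] at r8
  exact (abs_sub_le _ _ _).trans (add_le_add r7 r8)

end Pool.Agent.H52.Afsr
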