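import Pool.Agent.H52.Afsr3

namespace Pool.Agent.H52.AfsrD1

open Finset Module Pool.Agent.H52

/-- The N-adic integer with digit sequence `t` equals `f / g`. -/
def Represents {N : ℕ} (f g : ℤ) (t : ℕ → Fin N) : Prop :=
  ∀ m, (N : ℤ) ^ m ∣ f - g * ∑ i ∈ range m, ((t i : ℕ) : ℤ) * (N : ℤ) ^ i

/-- N-adic complexity of a finite sequence: least complexity of an infinite extension. -/
noncomputable def finComplexity {N n : ℕ} (a : Fin n → Fin N) : ℝ :=
  sInf {s | ∃ (t : ℕ → Fin N) (f g : ℤ), (∀ i : Fin n, t i = a i) ∧ 0 < g ∧ Int.gcd f g = 1 ∧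
    Represents f g t ∧ s = Real.logb N ((max |f| |g| : ℤ) : ℝ)}

/-- Average over all digit strings of length `n`. -/
noncomputable def avgFin (N n : ℕ) : ℝ := (∑ a : Fin n → Fin N, finComplexity a) / (N : ℝ) ^ n

theorem result (N : ℕ) (hN : 2 ≤ N) : ∃ C : ℝ, ∀ n : ℕ, |avgFin N n - n / 2| ≤ C := by
  have N1 : (1 : ℝ) < N := by exact_mod_cast hN
  obtain ⟨C, hC⟩ := Afsr.main (π := (N : ℤ)) (Basis.singleton (Fin 1) ℤ) (by simp) one_pos hN
    (.inl (by simp)) (fun x => Real.logb N |(x : ℝ)|) 0 fun x => by simp [Afsr.nm, Real.logb]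
  refine ⟨C, fun n => ?_⟩
  unfold avgFin
  rw [sum_congr rfl fun a _ => ?_]
  · exact hC n
  have u : ∀ g : ℤ, IsUnit (Ideal.Quotient.mk (Ideal.span {(N : ℤ)}) g) ↔ IsCoprime g N :=
    fun g => by
      rw [isUnit_iff_exists_inv']
      constructor
      · rintro ⟨u, hu⟩
        obtain ⟨u, rfl⟩ := Ideal.Quotient.mk_surjective u
        obtain ⟨v, hv⟩ := Ideal.mem_span_singleton.mp (Ideal.Quotient.eq.mp
          (show Ideal.Quotient.mk _ (u * g) = Ideal.Quotient.mk _ 1 from hu))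
        exact ⟨u, -v, by linear_combination hv⟩
      rintro ⟨u, v, hv⟩
      exact ⟨Ideal.Quotient.mk _ u, Ideal.Quotient.eq.mpr (Ideal.mem_span_singleton.mpr
        (show (N : ℤ) ∣ u * g - 1 from ⟨-v, by linear_combination hv⟩))⟩
  have mono : ∀ {x y : ℤ}, |x| ≤ |y| → Real.logb N |(x : ℝ)| ≤ Real.logb N |(y : ℝ)| := fun {x y} h => by
    have := Afsr.lg (show x.natAbs ≤ y.natAbs by
      rwa [Int.abs_eq_natAbs, Int.abs_eq_natAbs, Nat.cast_le] at h)
    exact div_le_div_of_nonneg_right (by simpa using this) (Real.log_pos N1).le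
  have mx : ∀ f g : ℤ, Real.logb N ((max |f| |g| : ℤ) : ℝ) =
      max (Real.logb N |(f : ℝ)|) (Real.logb N |(g : ℝ)|) := fun f g => by
    rcases le_total |f| |g| with h | h
    · rw [max_eq_right h, max_eq_right (mono h), Int.cast_abs]
    rw [max_eq_left h, max_eq_left (mono h), Int.cast_abs]
  unfold finComplexity
  refine csInf_eq_csInf_of_forall_exists_le ?_ ?_
  · rintro _ ⟨t, f, g, h1, h2, h3, h4, rfl⟩
    refine ⟨_, ⟨f, g, (u g).mpr ?_, ⟨t, h1, h4⟩, rfl⟩, (mx f g).ge⟩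
    obtain ⟨k, hk⟩ := h4 1
    obtain ⟨x, y, e⟩ := Int.isCoprime_iff_gcd_eq_one.mpr h3
    simp at hk
    exact ⟨y + x * (t 0 : ℕ), x * k, by linear_combination e - x * hk⟩
  rintro _ ⟨f, g, h1, ⟨t, h2, h3⟩, rfl⟩
  rw [u] at h1
  have g0 : g ≠ 0 := by
    rintro rfl
    have := Int.isUnit_iff.mp (isCoprime_zero_left.mp h1)
    omega
  obtain ⟨k, f', g', k0, h4, rfl, rfl⟩ := Int.exists_gcd_one' (Int.gcd_pos_of_ne_zero_right f g0)
  have g1 : g' ≠ 0 := left_ne_zero_of_mul g0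
  have k1 : ∀ x : ℤ, |x * g'.sign| ≤ |x * k| := fun x => by
    rw [abs_mul, abs_mul, Int.abs_sign_of_ne_zero g1]
    exact mul_le_mul_of_nonneg_left (by simp; omega) (abs_nonneg _)
  refine ⟨_, ⟨t, f' * g'.sign, g' * g'.sign, h2, ?_, ?_, fun m => ?_, rfl⟩, ?_⟩
  · rw [Int.mul_sign_self]; positivity
  · rw [Int.gcd_mul_right, h4, Int.natAbs_sign_of_ne_zero g1]
  · have := h1.of_mul_left_right.symm.pow_left (m := m) |>.dvd_of_dvd_mul_left
      (z := f' - g' * ∑ i ∈ range m, ((t i : ℕ) : ℤ) * (N : ℤ) ^ i) (by convert h3 m using 1; ring)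
    exact Dvd.dvd.trans (this.mul_right g'.sign) (dvd_of_eq (by ring))
  rw [mx]
  exact max_le_max (mono (k1 _)) (mono (k1 _))

end Pool.Agent.H52.AfsrD1
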