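import Mathlib

set_option autoImplicit false

namespace H52.BN

open MvPolynomial

variable {U : Type} [DecidableEq U] {a b c d : U}

lemma prime_q [Fintype U] (hb : a ≠ b) (hc : a ≠ c) (hd : a ≠ d) (hb' : d ≠ b) (hc' : d ≠ c) :
    Prime (X d * X a - X b * X c : MvPolynomial U ℝ) := by
  rw [sub_eq_add_neg]
  refine (irreducible_mul_X_add _ _ a (X_ne_zero d) (by simp [vars_X, hd]) ?_ ?_).prime
  · rw [vars_neg]
    intro h
    have := vars_mul _ _ h
    simp [vars_X, hb, hc] at this
  · refine (X_prime (R := ℝ) (i := d)).irreducible.isRelPrime_iff_not_dvd.2 ?_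
    rintro ⟨h, e⟩
    have := congrArg (eval fun u => if u = d then (0 : ℝ) else 1) e
    simp [hb'.symm, hc'.symm] at this

lemma pdiv (hb : a ≠ b) (hc : a ≠ c) (hd : a ≠ d) (g : MvPolynomial U ℝ) :
    ∃ (N : ℕ) (r : MvPolynomial U ℝ), (∀ y t, eval (Function.update y a t) r = eval y r) ∧
      X d * X a - X b * X c ∣ X d ^ N * g - r := by
  have hX : ∀ u, a ≠ u → ∀ (y : U → ℝ) t, eval (Function.update y a t) (X u) = eval y (X u) := by
    intro u hu y t
    rw [eval_X, eval_X, Function.update_of_ne hu.symm]
  induction g using MvPolynomial.induction_on with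
  | C x => exact ⟨0, C x, by simp, by simp⟩
  | add p q hp hq =>
    obtain ⟨N, r, h1, u, h2⟩ := hp
    obtain ⟨M, s, h3, v, h4⟩ := hq
    refine ⟨N + M, X d ^ M * r + X d ^ N * s, fun y t => ?_, X d ^ M * u + X d ^ N * v, ?_⟩
    · simp only [map_add, map_mul, map_pow, h1, h3, hX d hd]
    · linear_combination X d ^ M * h2 + X d ^ N * h4
  | mul_X p i hp =>
    obtain ⟨N, r, h1, u, h2⟩ := hp
    by_cases hi : a = i
    · subst hi
      refine ⟨N + 1, r * (X b * X c), fun y t => ?_, u * X d * X a + r, ?_⟩
      · simp only [map_mul, h1, hX b hb, hX c hc]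
      · linear_combination X d * X a * h2
    · refine ⟨N, r * X i, fun y t => ?_, u * X i, ?_⟩
      · simp only [map_mul, h1, hX i hi]
      · linear_combination X i * h2

lemma dvd_q [Fintype U] (hb : a ≠ b) (hc : a ≠ c) (hd : a ≠ d) (hb' : d ≠ b) (hc' : d ≠ c)
    (s : U → Set ℝ) (hs : ∀ u, (s u).Infinite) (h0 : 0 ∉ s d)
    (h1 : ∀ y ∈ Set.pi Set.univ s, y b * y c / y d ∈ s a) (g : MvPolynomial U ℝ)
    (hg : ∀ y ∈ Set.pi Set.univ s, y d * y a = y b * y c → eval y g = 0) :
    X d * X a - X b * X c ∣ g := by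
  obtain ⟨N, r, h2, u, h3⟩ := pdiv hb hc hd g
  have hr : r = 0 := by
    refine funext_set s hs fun y hy => ?_
    have hy' : Function.update y a (y b * y c / y d) ∈ Set.pi Set.univ s := by
      intro v _
      by_cases e : v = a
      · rw [e, Function.update_self]; exact h1 y hy
      · rw [Function.update_of_ne e]; exact hy v trivial
    have hd0 : y d ≠ 0 := fun e => h0 (e ▸ hy d trivial)
    have e : Function.update y a (y b * y c / y d) d * Function.update y a (y b * y c / y d) a
        = Function.update y a (y b * y c / y d) b * Function.update y a (y b * y c / y d) c := by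
      rw [Function.update_self, Function.update_of_ne hb.symm, Function.update_of_ne hc.symm,
        Function.update_of_ne hd.symm]
      field_simp
    have := congrArg (eval (Function.update y a (y b * y c / y d))) h3
    simp only [map_sub, map_mul, eval_X, hg _ hy' e, e, h2] at this
    simpa using this
  have hp := prime_q hb hc hd hb' hc'
  rw [hr, sub_zero] at h3
  refine (hp.dvd_or_dvd ⟨u, h3⟩).resolve_left fun h => ?_
  obtain ⟨v, e⟩ := hp.dvd_of_dvd_pow h
  have := congrArg (eval fun u => if u = d then (1 : ℝ) else 0) e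
  simp [hb'.symm, hc'.symm, hd] at this

end H52.BN
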