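import Mathlib

set_option autoImplicit false

namespace Pool.Agent.H52.CF

/-- The quadratic surd (P + sqrt D) / Q. -/
noncomputable def qs (D : ℕ) (P Q : ℤ) : ℝ := ((P : ℝ) + Real.sqrt D) / Q

lemma sqrt_bounds (D : ℕ) (r : ℤ) (hr : 0 ≤ r) (hr1 : r ^ 2 < D) (hr2 : (D : ℤ) < (r + 1) ^ 2) :
    (r : ℝ) < Real.sqrt D ∧ Real.sqrt D < r + 1 := by
  have h0 : (0 : ℝ) ≤ r := by exact_mod_cast hr
  constructor
  · apply Real.lt_sqrt_of_sq_lt; exact_mod_cast hr1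
  · rw [Real.sqrt_lt' (by linarith)]; exact_mod_cast hr2

lemma step (D : ℕ) (r : ℤ) (hr : 0 ≤ r) (hr1 : r ^ 2 < D) (hr2 : (D : ℤ) < (r + 1) ^ 2)
    (P Q a P' Q' : ℤ) (hQ : 0 < Q) (h1 : a * Q ≤ P + r) (h2 : P + r < (a + 1) * Q)
    (hP : P' = a * Q - P) (hQ' : Q * Q' = D - P' ^ 2) :
    ⌊qs D P Q⌋ = a ∧ (Int.fract (qs D P Q))⁻¹ = qs D P' Q' := by
  obtain ⟨b1, b2⟩ := sqrt_bounds D r hr hr1 hr2
  have hQr : (0 : ℝ) < Q := by exact_mod_cast hQ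
  have h1r : (a : ℝ) * Q ≤ P + r := by exact_mod_cast h1
  have h2r : (P : ℝ) + r + 1 ≤ (a + 1) * Q := by exact_mod_cast h2
  have hf : ⌊qs D P Q⌋ = a := by
    rw [Int.floor_eq_iff, qs, le_div_iff₀ hQr, div_lt_iff₀ hQr]
    constructor <;> linarith
  refine ⟨hf, ?_⟩
  have hs : Real.sqrt D ^ 2 = D := Real.sq_sqrt (by positivity)
  have hPr : (P' : ℝ) = a * Q - P := by exact_mod_cast hP
  have hQr' : (Q : ℝ) * Q' = D - P' ^ 2 := by exact_mod_cast hQ'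
  have hpos : 0 < Real.sqrt D - P' := by linarith
  have hne : (D : ℤ) - P' ^ 2 ≠ 0 := by
    intro h0
    have h3 : (D : ℤ) = P' ^ 2 := by linarith
    have h4 : r ^ 2 < |P'| ^ 2 := by rw [sq_abs]; linarith
    have h5 : |P'| ^ 2 < (r + 1) ^ 2 := by rw [sq_abs]; linarith
    have h6 := lt_of_pow_lt_pow_left₀ 2 (abs_nonneg _) h4
    have h7 := lt_of_pow_lt_pow_left₀ 2 (by linarith) h5
    omega
  have hQ0 : (Q' : ℝ) ≠ 0 := by
    intro h0
    have : Q' = 0 := by exact_mod_cast h0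
    rw [this] at hQ'
    apply hne; linarith
  have hfr : Int.fract (qs D P Q) = (Real.sqrt D - P') / Q := by
    rw [Int.fract, hf, qs, hPr]; field_simp; ring
  rw [hfr, qs, inv_div, div_eq_div_iff hpos.ne' hQ0]
  linear_combination hQr' - hs

lemma qs_zero_one (D : ℕ) : qs D 0 1 = Real.sqrt D := by simp [qs]

end Pool.Agent.H52.CF
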