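import Mathlib

set_option autoImplicit false

namespace Pool.Agent.H52.CS

open Set MeasureTheory RealInnerProductSpace

variable {V : Type} [NormedAddCommGroup V] [InnerProductSpace ℝ V]

/-- Symmetry group. -/
def Sym (A : Set V) : Set (V ≃ᵢ V) := {T | T '' A = A}

/-- Ellipsoids. -/
def Ellipsoid (E : Set V) : Prop :=
  ∃ (c : V) (T : V ≃ₗ[ℝ] V), E = (fun x => c + T x) '' Metric.closedBall 0 1

/-- Euclidean balls. -/
def IsBall (E : Set V) : Prop := ∃ (c : V) (r : ℝ), 0 < r ∧ E = Metric.closedBall c r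

/-- Complete families of isometries. -/
def Complete (G : Set (V ≃ᵢ V)) : Prop := ∀ E : Set V, Ellipsoid E → G ⊆ Sym E → IsBall E

/-- Completely symmetric sets. -/
def CompSym [FiniteDimensional ℝ V] [MeasurableSpace V] [BorelSpace V] (A : Set V) : Prop :=
  IsCompact A ∧ (interior A).Nonempty ∧ (⨍ x in A, x) = 0 ∧ Complete (Sym A)

theorem rot_fix (φ : ℂ ≃ₗᵢ[ℝ] V) (ω : Circle) (hω : (ω : ℂ).im ≠ 0) (v : V)
    (h : φ (ω * φ.symm v) = v) : v = 0 := by
  obtain ⟨z, rfl⟩ := φ.surjective v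
  rw [φ.symm_apply_apply, φ.injective.eq_iff] at h
  have h1 : ((ω : ℂ) - 1) * z = 0 := by linear_combination h
  rcases mul_eq_zero.1 h1 with h2 | h2
  · exact absurd (by simpa using congrArg Complex.im h2) hω
  · rw [h2, map_zero]

theorem ell_ball (φ : ℂ ≃ₗᵢ[ℝ] V) (ω : Circle) (hω : (ω : ℂ).im ≠ 0) (E : Set V)
    (hE : Ellipsoid E) (hR : (fun v => φ (ω * φ.symm v)) '' E = E) : IsBall E := by
  obtain ⟨c, T, rfl⟩ := hE
  let R : V ≃ₗᵢ[ℝ] V := (φ.symm.trans (rotation ω)).trans φ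
  have hRa : ∀ v, R v = φ (ω * φ.symm v) := fun v => rfl
  have mem : ∀ v, v ∈ (fun x => c + T x) '' Metric.closedBall (0 : V) 1 ↔ ‖T.symm (v - c)‖ ≤ 1 := by
    intro v
    constructor
    · rintro ⟨x, hx, rfl⟩
      simpa using hx
    · intro h
      exact ⟨T.symm (v - c), by simpa using h, by simp⟩
  have inv : ∀ v, ‖T.symm (R v - c)‖ ≤ 1 ↔ ‖T.symm (v - c)‖ ≤ 1 := by
    intro v
    rw [← mem, ← mem]
    constructor
    · intro h
      rw [← hR] at h
      obtain ⟨x, hx, e⟩ := h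
      rwa [← R.injective (e.trans rfl : R x = R v)]
    · intro h
      rw [← hR]
      exact ⟨v, h, rfl⟩
  have hc : c = 0 := by
    apply rot_fix φ ω hω
    rw [← hRa, ← sub_eq_zero]
    by_contra hd
    have hd' : T.symm (R c - c) ≠ 0 := fun h => hd (T.symm.map_eq_zero_iff.1 h)
    have hn := norm_pos_iff.2 hd'
    set d := T.symm (R c - c) with hdd
    obtain ⟨v, hv⟩ := R.surjective (c + T (-(‖d‖⁻¹ • d)))
    have h1 : ‖T.symm (R v - c)‖ ≤ 1 := by
      rw [hv]
      simp [norm_smul, inv_mul_cancel₀ hn.ne']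
    have h2 : ‖T.symm ((c + c - v) - c)‖ ≤ 1 := by
      rw [show c + c - v - c = -(v - c) by abel, map_neg, norm_neg]
      exact (inv v).1 h1
    have h3 := (inv _).2 h2
    have h4 : T.symm (R (c + c - v) - c) = (2 + ‖d‖⁻¹) • d := by
      rw [map_sub R, map_add R, hv, show R c + R c - (c + T (-(‖d‖⁻¹ • d))) - c =
        (R c - c) + (R c - c) - T (-(‖d‖⁻¹ • d)) by abel, map_sub T.symm, map_add T.symm, ← hdd]
      simp only [LinearEquiv.symm_apply_apply]
      module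
    rw [h4, norm_smul, Real.norm_eq_abs, abs_of_pos (by positivity), add_mul,
      inv_mul_cancel₀ hn.ne'] at h3
    linarith
  subst hc
  simp only [sub_zero] at inv mem
  have le : ∀ v w, (∀ t : ℝ, ‖T.symm (t • v)‖ ≤ 1 → ‖T.symm (t • w)‖ ≤ 1) →
      ‖T.symm w‖ ≤ ‖T.symm v‖ := by
    intro v w h
    by_contra hlt
    push Not at hlt
    have hp : 0 < ‖T.symm v‖ + ‖T.symm w‖ := by linarith [norm_nonneg (T.symm v)]
    have := h (2 / (‖T.symm v‖ + ‖T.symm w‖)) (by
      rw [map_smul, norm_smul, Real.norm_eq_abs, abs_of_pos (by positivity), div_mul_eq_mul_div,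
        div_le_one hp]
      linarith)
    rw [map_smul, norm_smul, Real.norm_eq_abs, abs_of_pos (by positivity), div_mul_eq_mul_div,
      div_le_one hp] at this
    linarith
  have nR : ∀ v, ‖T.symm (R v)‖ = ‖T.symm v‖ := fun v =>
    le_antisymm (le _ _ fun t h => by rw [← map_smul R]; exact (inv _).2 h)
      (le _ _ fun t h => by rw [← map_smul R] at h; exact (inv _).1 h)
  set a := T.symm (φ 1) with ha
  set b := T.symm (φ Complex.I) with hb
  have dec : ∀ z : ℂ, ‖T.symm (φ z)‖ ^ 2 =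
      z.re ^ 2 * ‖a‖ ^ 2 + 2 * z.re * z.im * ⟪a, b⟫ + z.im ^ 2 * ‖b‖ ^ 2 := by
    intro z
    have : T.symm (φ z) = z.re • a + z.im • b := by
      rw [ha, hb, ← map_smul T.symm, ← map_smul T.symm, ← map_add T.symm, ← map_smul φ,
        ← map_smul φ, ← map_add φ]
      congr 2
      apply Complex.ext <;> simp
    rw [this, norm_add_sq_real, norm_smul, norm_smul, real_inner_smul_left, real_inner_smul_right,
      mul_pow, mul_pow, Real.norm_eq_abs, Real.norm_eq_abs, sq_abs, sq_abs]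
    ring
  have rz : ∀ z : ℂ, ‖T.symm (φ (ω * z))‖ ^ 2 = ‖T.symm (φ z)‖ ^ 2 := fun z => by
    rw [← nR (φ z), hRa, φ.symm_apply_apply]
  have e0 : (ω : ℂ).re ^ 2 + (ω : ℂ).im ^ 2 = 1 := by
    have := ω.normSq_coe
    rw [Complex.normSq_apply] at this
    linarith
  have e1 := rz 1
  have e2 := rz (1 + Complex.I)
  have e3 := rz (1 - Complex.I)
  rw [dec (ω * 1), dec 1] at e1
  rw [dec (ω * (1 + Complex.I)), dec (1 + Complex.I)] at e2
  rw [dec (ω * (1 - Complex.I)), dec (1 - Complex.I)] at e3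
  simp only [mul_one, Complex.mul_re, Complex.mul_im, Complex.add_re, Complex.add_im,
    Complex.sub_re, Complex.sub_im, Complex.one_re, Complex.one_im, Complex.I_re,
    Complex.I_im] at e1 e2 e3
  set x := (ω : ℂ).re
  set y := (ω : ℂ).im
  have f1 : y * (‖b‖ ^ 2 - ‖a‖ ^ 2) + 2 * x * ⟪a, b⟫ = 0 := by
    apply mul_left_cancel₀ hω
    linear_combination e1 - ‖a‖ ^ 2 * e0
  have f2 : x * (‖b‖ ^ 2 - ‖a‖ ^ 2) - 2 * y * ⟪a, b⟫ = 0 := by
    apply mul_left_cancel₀ hω
    linear_combination (1 / 4) * e2 - (1 / 4) * e3 - ⟪a, b⟫ * e0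
  have g1 : ‖b‖ ^ 2 = ‖a‖ ^ 2 := by
    linear_combination y * f1 + x * f2 - (‖b‖ ^ 2 - ‖a‖ ^ 2) * e0
  have g2 : ⟪a, b⟫ = 0 := by
    linear_combination (x / 2) * f1 - (y / 2) * f2 - ⟪a, b⟫ * e0
  have ha0 : 0 < ‖a‖ := norm_pos_iff.2 (by simp [ha])
  refine ⟨0, ‖a‖⁻¹, by positivity, ?_⟩
  ext v
  obtain ⟨z, rfl⟩ := φ.surjective v
  have h1 : ‖T.symm (φ z)‖ = ‖z‖ * ‖a‖ := by
    apply (pow_left_inj₀ (norm_nonneg _) (by positivity) two_ne_zero).1
    rw [dec, g1, g2, mul_pow, Complex.sq_norm, Complex.normSq_apply]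
    ring
  rw [mem, h1, mem_closedBall_zero_iff, φ.norm_map, ← le_div_iff₀ ha0, one_div]

theorem compSym [FiniteDimensional ℝ V] [MeasurableSpace V] [BorelSpace V] (φ : ℂ ≃ₗᵢ[ℝ] V)
    (ω : Circle) (hω : (ω : ℂ).im ≠ 0) (A : Set V) (hA : IsCompact A)
    (hi : (interior A).Nonempty) (h : ∀ z, φ (ω * z) ∈ A ↔ φ z ∈ A) : CompSym A := by
  let R : V ≃ₗᵢ[ℝ] V := (φ.symm.trans (rotation ω)).trans φ
  have hRa : ∀ v, R v = φ (ω * φ.symm v) := fun v => rfl
  have hR : R '' A = A := by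
    ext v
    constructor
    · rintro ⟨x, hx, rfl⟩
      rw [hRa, h, φ.apply_symm_apply]
      exact hx
    · intro hv
      obtain ⟨x, rfl⟩ := R.surjective v
      rw [hRa, h, φ.apply_symm_apply] at hv
      exact ⟨x, hv, rfl⟩
  refine ⟨hA, hi, ?_, fun E hE hG => ell_ball φ ω hω E hE (hG (a := R.toIsometryEquiv) hR)⟩
  have h1 := R.measurePreserving.setIntegral_image_emb
    R.toHomeomorph.measurableEmbedding (fun x => x) A
  have h2 : ∫ x in A, R x = R (∫ x in A, x) :=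
    R.toContinuousLinearEquiv.integral_comp_comm (fun x => x)
  rw [hR, h2] at h1
  rw [setAverage_eq, rot_fix φ ω hω _ h1.symm, smul_zero]

theorem sepa {E : Type} [NormedAddCommGroup E] [InnerProductSpace ℝ E] [FiniteDimensional ℝ E]
    (W : Submodule ℝ E) (K : Set E) (hK : IsCompact K) (hc : Convex ℝ K) (y : W)
    (hy : y ∉ W.orthogonalProjectionOnto '' K) : ∃ v : W, ∀ x ∈ K, ⟪x, (v : E)⟫ < ⟪y, v⟫ := by
  obtain ⟨f, u, h1, h2⟩ := geometric_hahn_banach_closed_point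
    (hc.linear_image W.orthogonalProjectionOnto.toLinearMap)
    (hK.image W.orthogonalProjectionOnto.continuous).isClosed hy
  refine ⟨(InnerProductSpace.toDual ℝ W).symm f, fun x hx => ?_⟩
  rw [← W.inner_orthogonalProjectionOnto_eq_of_mem_right, real_inner_comm,
    InnerProductSpace.toDual_symm_apply, real_inner_comm, InnerProductSpace.toDual_symm_apply]
  exact (h1 _ ⟨x, hx, rfl⟩).trans h2

end Pool.Agent.H52.CS
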