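import Pool.Agent.H52.CS1

set_option autoImplicit false

namespace Pool.Agent.H52.CS

open Set MeasureTheory RealInnerProductSpace

section gen
variable {E : Type} [NormedAddCommGroup E] [InnerProductSpace ℝ E]

/-- Constant width body with cubic perturbation. -/
def K3 (e : E) : Set E := {x | ∀ v : E, ‖v‖ = 1 → ⟪x, v⟫ ≤ 1 + 1 / 8 * ⟪v, e⟫ ^ 3}

/-- The support point. -/
noncomputable def sp (e v : E) : E :=
  v + (1 / 8 : ℝ) • ((3 * ⟪v, e⟫ ^ 2) • e - (2 * ⟪v, e⟫ ^ 3) • v)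

theorem sp_inner (e v w : E) : ⟪sp e v, w⟫ =
    ⟪v, w⟫ + 1 / 8 * (3 * ⟪v, e⟫ ^ 2 * ⟪w, e⟫ - 2 * ⟪v, e⟫ ^ 3 * ⟪v, w⟫) := by
  rw [sp, inner_add_left, real_inner_smul_left, inner_sub_left, real_inner_smul_left,
    real_inner_smul_left, real_inner_comm w e]

theorem sp_self (e v : E) (hv : ‖v‖ = 1) : ⟪sp e v, v⟫ = 1 + 1 / 8 * ⟪v, e⟫ ^ 3 := by
  rw [sp_inner, real_inner_self_eq_norm_sq, hv]
  ring

theorem abs_le1 (e v : E) (he : ‖e‖ = 1) (hv : ‖v‖ = 1) : |⟪v, e⟫| ≤ 1 := by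
  simpa [he, hv] using abs_real_inner_le_norm v e

theorem sp_mem (e v : E) (he : ‖e‖ = 1) (hv : ‖v‖ = 1) : sp e v ∈ K3 e := by
  intro w hw
  rw [sp_inner]
  have ha := abs_le.1 (abs_le1 e v he hv)
  have hb := abs_le.1 (abs_le1 e w he hw)
  have h1 : ‖w - v‖ ^ 2 = 2 * (1 - ⟪v, w⟫) := by
    rw [norm_sub_sq_real, hv, hw, real_inner_comm]
    ring
  have h2 : (⟪w, e⟫ - ⟪v, e⟫) ^ 2 ≤ 2 * (1 - ⟪v, w⟫) := by
    rw [← h1, ← inner_sub_left, ← sq_abs]
    apply pow_le_pow_left₀ (abs_nonneg _)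
    simpa [he] using abs_real_inner_le_norm (w - v) e
  set a := ⟪v, e⟫
  set b := ⟪w, e⟫
  set s := ⟪v, w⟫
  have ht : 0 ≤ 1 - s := by nlinarith [sq_nonneg (b - a)]
  have h3 : a ^ 3 ≤ 1 := by nlinarith [sq_nonneg a, sq_nonneg (a + 1 / 2)]
  have h4 : 0 ≤ (b - a) ^ 2 * (b + 2 * a + 3) := mul_nonneg (sq_nonneg _) (by linarith)
  have h5 : 0 ≤ (1 - s) * (1 - a ^ 3) := mul_nonneg ht (by linarith)
  nlinarith

theorem ball_sub (e : E) (he : ‖e‖ = 1) : Metric.ball (0 : E) (1 / 2) ⊆ K3 e := by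
  intro x hx v hv
  have ha := abs_le.1 (abs_le1 e v he hv)
  have h1 := real_inner_le_norm x v
  rw [hv] at h1
  rw [mem_ball_zero_iff] at hx
  nlinarith [sq_nonneg ⟪v, e⟫, sq_nonneg (⟪v, e⟫ - 1 / 2)]

theorem K3_convex (e : E) : Convex ℝ (K3 e) := by
  intro x hx y hy a b ha hb hab v hv
  rw [inner_add_left, real_inner_smul_left, real_inner_smul_left]
  have h1 := mul_le_mul_of_nonneg_left (hx v hv) ha
  have h2 := mul_le_mul_of_nonneg_left (hy v hv) hb
  have : a * (1 + 1 / 8 * ⟪v, e⟫ ^ 3) + b * (1 + 1 / 8 * ⟪v, e⟫ ^ 3) = 1 + 1 / 8 * ⟪v, e⟫ ^ 3 := by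
    rw [← add_mul, hab, one_mul]
  linarith

theorem K3_compact [FiniteDimensional ℝ E] (e : E) (he : ‖e‖ = 1) : IsCompact (K3 e) := by
  apply Metric.isCompact_of_isClosed_isBounded
  · simp only [K3, setOf_forall]
    exact isClosed_iInter fun v => isClosed_iInter fun _ =>
      isClosed_le (by fun_prop) continuous_const
  · refine (Metric.isBounded_closedBall (x := (0 : E)) (r := 2)).subset fun x hx => ?_
    rw [mem_closedBall_zero_iff]
    by_cases h0 : x = 0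
    · simp [h0]
    have hn := norm_pos_iff.2 h0
    have hv : ‖‖x‖⁻¹ • x‖ = 1 := by rw [norm_smul, norm_inv, norm_norm, inv_mul_cancel₀ hn.ne']
    have h1 := hx _ hv
    have ha := abs_le.1 (abs_le1 e _ he hv)
    rw [real_inner_smul_right, real_inner_self_eq_norm_sq, sq, ← mul_assoc,
      inv_mul_cancel₀ hn.ne', one_mul] at h1
    set a := ⟪‖x‖⁻¹ • x, e⟫
    nlinarith [sq_nonneg a, sq_nonneg (a + 1 / 2)]

theorem K3_proj [FiniteDimensional ℝ E] (e : E) (he : ‖e‖ = 1) (W : Submodule ℝ E) (y : W) :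
    y ∈ W.orthogonalProjectionOnto '' K3 e ↔
      ∀ v : W, ‖v‖ = 1 → ⟪y, v⟫ ≤ 1 + 1 / 8 * ⟪v, W.orthogonalProjectionOnto e⟫ ^ 3 := by
  constructor
  · rintro ⟨x, hx, rfl⟩ v hv
    rw [W.inner_orthogonalProjectionOnto_eq_of_mem_right,
      W.inner_orthogonalProjectionOnto_eq_of_mem_left]
    exact hx v hv
  · intro h
    by_contra hy
    obtain ⟨v, hv⟩ := sepa W _ (K3_compact e he) (K3_convex e) y hy
    have h0 : v ≠ 0 := by
      rintro rfl
      simpa using hv 0 (ball_sub e he (by simp))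
    have hn := norm_pos_iff.2 h0
    have h1 : ‖‖v‖⁻¹ • v‖ = 1 := by rw [norm_smul, norm_inv, norm_norm, inv_mul_cancel₀ hn.ne']
    have h2 := h _ h1
    have h3 := hv _ (sp_mem e ((‖v‖⁻¹ • v : W) : E) he h1)
    have h4 := sp_self e ((‖v‖⁻¹ • v : W) : E) h1
    rw [W.inner_orthogonalProjectionOnto_eq_of_mem_left, ← h4, real_inner_smul_right] at h2
    have h5 := mul_lt_mul_of_pos_left h3 (inv_pos.2 hn)
    rw [← real_inner_smul_right _ (v : E)] at h5
    exact absurd (h2.trans_lt' h5) (lt_irrefl _)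

end gen

theorem cube_id (w η : ℂ) (hw : ‖w‖ = 1) :
    ⟪w, η⟫ ^ 3 - 3 / 4 * ‖η‖ ^ 2 * ⟪η, w⟫ = 1 / 4 * ((w * (starRingEnd ℂ) η) ^ 3).re := by
  have h1 : w.re ^ 2 + w.im ^ 2 = 1 := by
    have := Complex.sq_norm w
    rw [hw, Complex.normSq_apply] at this
    linarith
  rw [Complex.sq_norm, Complex.normSq_apply]
  simp only [Complex.inner, pow_succ, pow_zero, one_mul, Complex.mul_re, Complex.mul_im,
    Complex.conj_re, Complex.conj_im]
  linear_combination (3 / 4 * (η.re ^ 2 + η.im ^ 2) * (η.re * w.re + η.im * w.im)) * h1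

theorem om3 : ∃ ω : Circle, (ω : ℂ).im ≠ 0 ∧ (ω : ℂ) ^ 3 = 1 := by
  refine ⟨Circle.exp (2 * Real.pi / 3), ?_, ?_⟩
  · rw [Circle.coe_exp, Complex.exp_ofReal_mul_I_im]
    exact (Real.sin_pos_of_pos_of_lt_pi (by positivity) (by linarith [Real.pi_pos])).ne'
  · rw [Circle.coe_exp, ← Complex.exp_nat_mul, ← Complex.exp_two_pi_mul_I]
    congr 1
    push_cast
    ring

theorem plane3 {V : Type} [NormedAddCommGroup V] [InnerProductSpace ℝ V] [FiniteDimensional ℝ V]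
    [MeasurableSpace V] [BorelSpace V] (φ : ℂ ≃ₗᵢ[ℝ] V) (B : Set V) (e : V) (hB : IsCompact B)
    (hi : (interior B).Nonempty)
    (h : ∀ y, y ∈ B ↔ ∀ v : V, ‖v‖ = 1 → ⟪y, v⟫ ≤ 1 + 1 / 8 * ⟪v, e⟫ ^ 3) :
    ∃ (A : Set V) (c : V), CompSym A ∧ B = (fun a => a + c) '' A := by
  obtain ⟨ω, hω, h3⟩ := om3
  obtain ⟨η, rfl⟩ := φ.surjective e
  let c : V := (1 / 8 * (3 / 4 * ‖η‖ ^ 2)) • φ η
  refine ⟨(Homeomorph.addRight c) ⁻¹' B, c, compSym φ ω hω _
    ((Homeomorph.addRight c).isCompact_preimage.2 hB) ?_ ?_, ?_⟩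
  · rw [← Homeomorph.preimage_interior]
    exact hi.preimage (Homeomorph.addRight c).surjective
  · have key : ∀ z, φ z ∈ (Homeomorph.addRight c) ⁻¹' B ↔ ∀ w : ℂ, ‖w‖ = 1 →
        (w * (starRingEnd ℂ) z).re ≤ 1 + 1 / 32 * ((w * (starRingEnd ℂ) η) ^ 3).re := by
      intro z
      rw [mem_preimage, h, φ.surjective.forall]
      refine forall_congr' fun w => ?_
      rw [φ.norm_map]
      refine imp_congr_right fun hw => ?_
      rw [Homeomorph.coe_addRight, inner_add_left, real_inner_smul_left, φ.inner_map_map,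
        φ.inner_map_map, φ.inner_map_map, Complex.inner z w]
      have := cube_id w η hw
      constructor <;> intro <;> linarith
    have hc : (starRingEnd ℂ) ω * ω = 1 := by
      rw [mul_comm, Complex.mul_conj, ω.normSq_coe]
      simp
    have hc3 : (starRingEnd ℂ) ω ^ 3 = 1 := by rw [← map_pow, h3, map_one]
    intro z
    rw [key, key]
    constructor
    · intro H w hw
      have := H (w * ω) (by simp [hw])
      rw [map_mul, show w * ω * ((starRingEnd ℂ) ω * (starRingEnd ℂ) z) = w * (starRingEnd ℂ) z by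
        linear_combination w * (starRingEnd ℂ) z * hc,
        show (w * ω * (starRingEnd ℂ) η) ^ 3 = (w * (starRingEnd ℂ) η) ^ 3 by
        linear_combination (w * (starRingEnd ℂ) η) ^ 3 * h3] at this
      exact this
    · intro H w hw
      have := H (w * (starRingEnd ℂ) ω) (by simp [hw])
      rw [show (w * (starRingEnd ℂ) ω * (starRingEnd ℂ) η) ^ 3 = (w * (starRingEnd ℂ) η) ^ 3 by
        linear_combination (w * (starRingEnd ℂ) η) ^ 3 * hc3] at this
      rwa [map_mul, ← mul_assoc]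
  · exact (image_preimage_eq B (Homeomorph.addRight c).surjective).symm

theorem ball_supp {E : Type} [NormedAddCommGroup E] [InnerProductSpace ℝ E] (e c : E) (r : ℝ)
    (he : ‖e‖ = 1) (hr : 0 < r) (h : K3 e = Metric.closedBall c r) (v : E) (hv : ‖v‖ = 1) :
    ⟪c, v⟫ + r = 1 + 1 / 8 * ⟪v, e⟫ ^ 3 := by
  apply le_antisymm
  · have h1 : c + r • v ∈ K3 e := by
      rw [h]
      simp [norm_smul, hv, abs_of_pos hr]
    have h2 := h1 v hv
    rwa [inner_add_left, real_inner_smul_left, real_inner_self_eq_norm_sq, hv, one_pow,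
      mul_one] at h2
  · have h1 := sp_mem e v he hv
    rw [h, mem_closedBall_iff_norm] at h1
    have h2 := real_inner_le_norm (sp e v - c) v
    rw [inner_sub_left, sp_self e v hv, hv] at h2
    linarith

theorem main3 : ∃ K : Set (EuclideanSpace ℝ (Fin 3)), IsCompact K ∧ Convex ℝ K ∧
    (interior K).Nonempty ∧ (∀ u : EuclideanSpace ℝ (Fin 3), ‖u‖ = 1 →
      ∃ (A : Set (ℝ ∙ u)ᗮ) (c : (ℝ ∙ u)ᗮ), CompSym A ∧
        (ℝ ∙ u)ᗮ.orthogonalProjectionOnto '' K = (fun a => a + c) '' A) ∧ ¬ IsBall K := by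
  let e : EuclideanSpace ℝ (Fin 3) := !₂[0, 0, 1]
  have he : ‖e‖ = 1 := by simp [e, EuclideanSpace.norm_eq, Fin.sum_univ_three]
  refine ⟨K3 e, K3_compact e he, K3_convex e,
    ⟨0, mem_interior.2 ⟨_, ball_sub e he, Metric.isOpen_ball, by simp⟩⟩, fun u hu => ?_, ?_⟩
  · have hu0 : u ≠ 0 := by
      rintro rfl
      simp at hu
    haveI : Fact (Module.finrank ℝ (EuclideanSpace ℝ (Fin 3)) = 2 + 1) := ⟨by simp⟩
    let φ := Complex.isometryOfOrthonormal (OrthonormalBasis.fromOrthogonalSpanSingleton 2 hu0)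
    refine plane3 φ _ _ ((K3_compact e he).image (ContinuousLinearMap.continuous _))
      ⟨0, mem_interior.2 ⟨Metric.ball 0 (1 / 2), fun y hy => ⟨y, ball_sub e he (by simpa using hy),
        by simp⟩, Metric.isOpen_ball, by simp⟩⟩ (K3_proj e he _)
  · rintro ⟨c, r, hr, h⟩
    have H := ball_supp e c r he hr h
    have h1 := H e he
    have h2 := H (-e) (by simpa using he)
    have h3 := H !₂[3 / 5, 0, 4 / 5] (by
      simp [EuclideanSpace.norm_eq, Fin.sum_univ_three]; norm_num)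
    have h4 := H !₂[-(3 / 5), 0, 4 / 5] (by
      simp [EuclideanSpace.norm_eq, Fin.sum_univ_three]; norm_num)
    rw [real_inner_self_eq_norm_sq, he] at h1
    rw [inner_neg_left, real_inner_self_eq_norm_sq, he] at h2
    simp [e, EuclideanSpace.inner_eq_star_dotProduct, dotProduct, Fin.sum_univ_three]
      at h1 h2 h3 h4
    linarith

end Pool.Agent.H52.CS
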