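import Pool.Agent.H52.CS1

set_option autoImplicit false

namespace Pool.Agent.H52.CS

open Set MeasureTheory RealInnerProductSpace

theorem plane4 {V : Type} [NormedAddCommGroup V] [InnerProductSpace ℝ V] [FiniteDimensional ℝ V]
    [MeasurableSpace V] [BorelSpace V] (φ : ℂ ≃ₗᵢ[ℝ] V) (B : Set V) (hB : IsCompact B)
    (hi : (interior B).Nonempty) (g : ℂ → ℝ)
    (h : ∀ z, φ z ∈ B ↔ ∀ w, g w ≤ 1 → ⟪z, w⟫ ≤ 1) (p q : ℂ) (μ : ℝ)
    (hd : p.re * q.im - p.im * q.re ≠ 0)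
    (hg : ∀ s t : ℝ, g (s • p + t • q) = s ^ 4 + μ * s ^ 2 * t ^ 2 + t ^ 4) :
    ∃ (A : Set V) (T : V ≃ₗ[ℝ] V), CompSym A ∧ B = T '' A := by
  let S0 : ℂ →ₗ[ℝ] ℂ :=
    { toFun := fun z => ⟨⟪z, p⟫, ⟪z, q⟫⟩
      map_add' := fun x y => by apply Complex.ext <;> simp [inner_add_left]
      map_smul' := fun a x => by
        apply Complex.ext <;> simp only [real_inner_smul_left, RingHom.id_apply] <;> simp }
  have hS : Function.Injective S0 := by
    rw [injective_iff_map_eq_zero]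
    intro z hz
    have h1 : ⟪z, p⟫ = 0 := congrArg Complex.re hz
    have h2 : ⟪z, q⟫ = 0 := congrArg Complex.im hz
    simp only [Complex.inner, Complex.mul_re, Complex.conj_re, Complex.conj_im] at h1 h2
    apply Complex.ext
    · apply mul_left_cancel₀ hd
      rw [Complex.zero_re]
      linear_combination q.im * h1 - p.im * h2
    · apply mul_left_cancel₀ hd
      rw [Complex.zero_im]
      linear_combination p.re * h2 - q.re * h1
  let S := LinearEquiv.ofInjectiveEndo S0 hS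
  let T : V ≃ₗ[ℝ] V := (φ.symm.toLinearEquiv.trans S.symm).trans φ.toLinearEquiv
  let H := T.toContinuousLinearEquiv.toHomeomorph
  have hT : ∀ z, H (φ z) = φ (S.symm z) := fun z => by
    change φ (S.symm (φ.symm (φ z))) = _
    rw [φ.symm_apply_apply]
  have key : ∀ z, φ z ∈ H ⁻¹' B ↔ ∀ s t : ℝ, s ^ 4 + μ * s ^ 2 * t ^ 2 + t ^ 4 ≤ 1 →
      s * z.re + t * z.im ≤ 1 := by
    intro z
    have h1 : ∀ s t : ℝ, ⟪S.symm z, s • p + t • q⟫ = s * z.re + t * z.im := by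
      intro s t
      have h2 : S0 (S.symm z) = z := S.apply_symm_apply z
      have h3 : ⟪S.symm z, p⟫ = z.re := (congrArg Complex.re h2 :)
      have h4 : ⟪S.symm z, q⟫ = z.im := (congrArg Complex.im h2 :)
      rw [inner_add_right, real_inner_smul_right, real_inner_smul_right, h3, h4]
    rw [mem_preimage, hT, h]
    constructor
    · intro G s t hst
      rw [← h1]
      exact G _ (by rwa [hg])
    · intro G w hw
      have h5 : w = ((w.re * q.im - w.im * q.re) / (p.re * q.im - p.im * q.re)) • p +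
          ((p.re * w.im - p.im * w.re) / (p.re * q.im - p.im * q.re)) • q := by
        apply Complex.ext <;> simp only [Complex.add_re, Complex.add_im, Complex.smul_re,
          Complex.smul_im, smul_eq_mul, div_mul_eq_mul_div, ← add_div] <;>
          rw [eq_div_iff hd] <;> ring
      rw [h5, hg] at hw
      rw [h5, h1]
      exact G _ _ hw
  refine ⟨H ⁻¹' B, T, compSym φ ⟨Complex.I, by simp [Submonoid.unitSphere]⟩ (by simp) _
    (H.isCompact_preimage.2 hB) ?_ ?_, (image_preimage_eq B H.surjective).symm⟩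
  · rw [← Homeomorph.preimage_interior]
    exact hi.preimage H.surjective
  · intro z
    rw [key, key]
    simp only [Complex.mul_re, Complex.mul_im, Complex.I_re, Complex.I_im]
    constructor
    · intro G s t hst
      have := G (-t) s (by linarith)
      linarith
    · intro G s t hst
      have := G t (-s) (by linarith)
      linarith

theorem lam (r : ℝ) (h0 : 0 ≤ r) (h1 : r < 1) : ∃ l : ℝ, 1 < l ∧ l ^ 4 * r ≤ 1 := by
  refine ⟨1 + (1 - r) / 16, by linarith, ?_⟩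
  set x := (1 - r) / 16 with hx
  have hx0 : 0 < x := by linarith
  have hx1 : x ≤ 1 := by linarith
  have h2 : x ^ 2 ≤ x := by nlinarith
  have h3 : x ^ 3 ≤ x := by nlinarith
  have h4 : x ^ 4 ≤ x := by nlinarith
  have h5 : (1 + x) ^ 4 ≤ 1 + 16 * x := by nlinarith
  have h6 := mul_le_mul_of_nonneg_right h5 h0
  nlinarith [sq_nonneg (1 - r)]

theorem minq (a b c d e : ℝ) (ha : a ≤ 1)
    (h : ∀ t : ℝ, 1 ≤ a + b * t + c * t ^ 2 + d * t ^ 3 + e * t ^ 4) : a = 1 ∧ b = 0 := by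
  have h1 : a = 1 := le_antisymm ha (by simpa using h 0)
  refine ⟨h1, ?_⟩
  have h2 : IsLocalMin (fun t : ℝ => a + b * t + c * t ^ 2 + d * t ^ 3 + e * t ^ 4) 0 :=
    Filter.Eventually.of_forall fun t => by simpa [h1] using h t
  have h3 : HasDerivAt (fun t : ℝ => a + b * t + c * t ^ 2 + d * t ^ 3 + e * t ^ 4) b 0 := by
    have := ((((hasDerivAt_id' (0 : ℝ)).const_mul b).const_add a).add
      ((hasDerivAt_pow 2 (0 : ℝ)).const_mul c)).add ((hasDerivAt_pow 3 (0 : ℝ)).const_mul d) |>.add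
      ((hasDerivAt_pow 4 (0 : ℝ)).const_mul e)
    exact this.congr_deriv (by simp)
  exact h2.hasDerivAt_eq_zero h3

/-- The quartic gauge. -/
def N4 (v : EuclideanSpace ℝ (Fin 3)) : ℝ := v 0 ^ 4 + v 1 ^ 4 + v 2 ^ 4

theorem nsq (v : EuclideanSpace ℝ (Fin 3)) : ‖v‖ ^ 2 = v 0 ^ 2 + v 1 ^ 2 + v 2 ^ 2 := by
  simp [EuclideanSpace.norm_sq_eq, Fin.sum_univ_three]

theorem N4_le (v : EuclideanSpace ℝ (Fin 3)) (h : ‖v‖ = 1) : N4 v ≤ 1 := by
  have := nsq v
  rw [h] at this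
  unfold N4
  nlinarith [mul_nonneg (sq_nonneg (v 0)) (sq_nonneg (v 1)),
    mul_nonneg (sq_nonneg (v 0)) (sq_nonneg (v 2)), mul_nonneg (sq_nonneg (v 1)) (sq_nonneg (v 2))]

theorem N4_bd (v : EuclideanSpace ℝ (Fin 3)) (h : N4 v ≤ 1) : ‖v‖ ≤ 2 := by
  apply le_of_sq_le_sq _ (by norm_num) |> fun x => x
  rw [nsq]
  unfold N4 at h
  nlinarith [sq_nonneg (v 0 ^ 2 - 1), sq_nonneg (v 1 ^ 2 - 1), sq_nonneg (v 2 ^ 2 - 1)]

theorem N4_smul (a : ℝ) (v : EuclideanSpace ℝ (Fin 3)) : N4 (a • v) = a ^ 4 * N4 v := by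
  simp [N4]
  ring

theorem N4_nonneg (v : EuclideanSpace ℝ (Fin 3)) : 0 ≤ N4 v := by
  unfold N4
  positivity

theorem auer (L : ℂ →ₗᵢ[ℝ] EuclideanSpace ℝ (Fin 3)) : ∃ (p q : ℂ) (μ : ℝ),
    p.re * q.im - p.im * q.re ≠ 0 ∧
    ∀ s t : ℝ, N4 (L (s • p + t • q)) = s ^ 4 + μ * s ^ 2 * t ^ 2 + t ^ 4 := by
  have hC : IsCompact {z : ℂ | N4 (L z) ≤ 1} := by
    apply Metric.isCompact_of_isClosed_isBounded
    · exact isClosed_le (by unfold N4; fun_prop) continuous_const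
    · refine (Metric.isBounded_closedBall (x := (0 : ℂ)) (r := 2)).subset fun x hx => ?_
      rw [mem_closedBall_zero_iff, ← L.norm_map]
      exact N4_bd _ hx
  have h1 : ((1, Complex.I) : ℂ × ℂ) ∈ {z : ℂ | N4 (L z) ≤ 1} ×ˢ {z : ℂ | N4 (L z) ≤ 1} :=
    ⟨N4_le _ (by simp), N4_le _ (by simp)⟩
  obtain ⟨⟨p, q⟩, ⟨hp, hq⟩, hm⟩ := (hC.prod hC).exists_isMaxOn ⟨_, h1⟩
    (f := fun x : ℂ × ℂ => x.1.re * x.2.im - x.1.im * x.2.re) (by fun_prop)
  have hD : 1 ≤ p.re * q.im - p.im * q.re := by simpa using hm h1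
  have e : ∀ s t : ℝ, N4 (L (s • p + t • q)) = s ^ 4 * N4 (L p) +
      4 * (L p 0 ^ 3 * L q 0 + L p 1 ^ 3 * L q 1 + L p 2 ^ 3 * L q 2) * s ^ 3 * t +
      6 * (L p 0 ^ 2 * L q 0 ^ 2 + L p 1 ^ 2 * L q 1 ^ 2 + L p 2 ^ 2 * L q 2 ^ 2) * s ^ 2 * t ^ 2 +
      4 * (L p 0 * L q 0 ^ 3 + L p 1 * L q 1 ^ 3 + L p 2 * L q 2 ^ 3) * s * t ^ 3 +
      t ^ 4 * N4 (L q) := by
    intro s t
    rw [map_add, map_smul, map_smul]
    simp only [N4, PiLp.add_apply, PiLp.smul_apply, smul_eq_mul]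
    ring
  have a1 : ∀ t : ℝ, 1 ≤ N4 (L ((1 : ℝ) • p + t • q)) := by
    intro t
    by_contra hlt
    obtain ⟨l, hl, hl'⟩ := lam _ (N4_nonneg _) (not_le.1 hlt)
    rw [← N4_smul, ← map_smul] at hl'
    have := hm (a := (_, q)) ⟨hl', hq⟩
    simp only [mem_ofPred_eq, Complex.add_re, Complex.add_im, Complex.smul_re,
      Complex.smul_im, smul_eq_mul] at this
    nlinarith
  have a2 : ∀ t : ℝ, 1 ≤ N4 (L (t • p + (1 : ℝ) • q)) := by
    intro t
    by_contra hlt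
    obtain ⟨l, hl, hl'⟩ := lam _ (N4_nonneg _) (not_le.1 hlt)
    rw [← N4_smul, ← map_smul] at hl'
    have := hm (a := (p, l • (t • p + (1 : ℝ) • q))) ⟨hp, hl'⟩
    simp only [mem_ofPred_eq, Complex.add_re, Complex.add_im, Complex.smul_re,
      Complex.smul_im, smul_eq_mul] at this
    nlinarith
  obtain ⟨b1, b2⟩ := minq (N4 (L p))
    (4 * (L p 0 ^ 3 * L q 0 + L p 1 ^ 3 * L q 1 + L p 2 ^ 3 * L q 2))
    (6 * (L p 0 ^ 2 * L q 0 ^ 2 + L p 1 ^ 2 * L q 1 ^ 2 + L p 2 ^ 2 * L q 2 ^ 2))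
    (4 * (L p 0 * L q 0 ^ 3 + L p 1 * L q 1 ^ 3 + L p 2 * L q 2 ^ 3)) (N4 (L q)) hp
    fun t => (a1 t).trans_eq (by rw [e]; ring)
  obtain ⟨c1, c2⟩ := minq (N4 (L q))
    (4 * (L p 0 * L q 0 ^ 3 + L p 1 * L q 1 ^ 3 + L p 2 * L q 2 ^ 3))
    (6 * (L p 0 ^ 2 * L q 0 ^ 2 + L p 1 ^ 2 * L q 1 ^ 2 + L p 2 ^ 2 * L q 2 ^ 2))
    (4 * (L p 0 ^ 3 * L q 0 + L p 1 ^ 3 * L q 1 + L p 2 ^ 3 * L q 2)) (N4 (L p)) hq
    fun t => (a2 t).trans_eq (by rw [e]; ring)
  refine ⟨p, q, 6 * (L p 0 ^ 2 * L q 0 ^ 2 + L p 1 ^ 2 * L q 1 ^ 2 + L p 2 ^ 2 * L q 2 ^ 2),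
    by linarith, fun s t => ?_⟩
  rw [e, b1, b2, c1, c2]
  ring

/-- The polar body of the quartic gauge. -/
def K4 : Set (EuclideanSpace ℝ (Fin 3)) := {x | ∀ v, N4 v ≤ 1 → ⟪x, v⟫ ≤ 1}

theorem inn (x v : EuclideanSpace ℝ (Fin 3)) : ⟪x, v⟫ = x 0 * v 0 + x 1 * v 1 + x 2 * v 2 := by
  simp [EuclideanSpace.inner_eq_star_dotProduct, dotProduct, Fin.sum_univ_three, mul_comm]

theorem young (a b : ℝ) : 4 * (a ^ 3 * b) ≤ 3 * a ^ 4 + b ^ 4 := by
  nlinarith [mul_nonneg (sq_nonneg (a - b)) (sq_nonneg (a + b)),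
    mul_nonneg (sq_nonneg (a - b)) (sq_nonneg a)]

theorem cube_mem (v : EuclideanSpace ℝ (Fin 3)) (h : N4 v ≤ 1) :
    !₂[v 0 ^ 3, v 1 ^ 3, v 2 ^ 3] ∈ K4 := by
  intro w hw
  rw [inn]
  unfold N4 at h hw
  have := young (v 0) (w 0)
  have := young (v 1) (w 1)
  have := young (v 2) (w 2)
  simp
  linarith

theorem ball4 : Metric.ball (0 : EuclideanSpace ℝ (Fin 3)) (1 / 2) ⊆ K4 := by
  intro x hx v hv
  have h1 := real_inner_le_norm x v
  have h2 := N4_bd v hv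
  rw [mem_ball_zero_iff] at hx
  nlinarith [norm_nonneg x, norm_nonneg v]

theorem K4_convex : Convex ℝ K4 := by
  intro x hx y hy a b ha hb hab v hv
  rw [inner_add_left, real_inner_smul_left, real_inner_smul_left]
  have h1 := mul_le_mul_of_nonneg_left (hx v hv) ha
  have h2 := mul_le_mul_of_nonneg_left (hy v hv) hb
  linarith

theorem K4_compact : IsCompact K4 := by
  apply Metric.isCompact_of_isClosed_isBounded
  · simp only [K4, ofPred_forall]
    exact isClosed_iInter fun v => isClosed_iInter fun _ =>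
      isClosed_le (by fun_prop) continuous_const
  · refine (Metric.isBounded_closedBall (x := 0) (r := 1)).subset fun x hx => ?_
    rw [mem_closedBall_zero_iff]
    by_cases h0 : x = 0
    · simp [h0]
    have hn := norm_pos_iff.2 h0
    have hv : ‖‖x‖⁻¹ • x‖ = 1 := by rw [norm_smul, norm_inv, norm_norm, inv_mul_cancel₀ hn.ne']
    have h1 := hx _ (N4_le _ hv)
    rwa [real_inner_smul_right, real_inner_self_eq_norm_sq, sq, ← mul_assoc,
      inv_mul_cancel₀ hn.ne', one_mul] at h1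

theorem K4_proj (W : Submodule ℝ (EuclideanSpace ℝ (Fin 3))) (y : W) :
    y ∈ W.orthogonalProjectionOnto '' K4 ↔ ∀ v : W, N4 v ≤ 1 → ⟪y, v⟫ ≤ 1 := by
  constructor
  · rintro ⟨x, hx, rfl⟩ v hv
    rw [W.inner_orthogonalProjectionOnto_eq_of_mem_right]
    exact hx v hv
  · intro h
    by_contra hy
    obtain ⟨v, hv⟩ := sepa W _ K4_compact K4_convex y hy
    have h0 : 0 < ⟪y, v⟫ := by simpa using hv 0 (ball4 (by simp))
    have hN : 0 < N4 v := by
      refine (N4_nonneg _).lt_of_ne fun hN => ?_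
      have e := real_inner_smul_right y v (2 / ⟪y, v⟫)
      rw [div_mul_cancel₀ _ h0.ne'] at e
      have := e.symm.trans_le (h _ (by
        rw [Submodule.coe_smul, N4_smul, ← hN]
        simp))
      linarith
    set s := √(√(N4 v)) with hs
    have hs0 : 0 < s := by positivity
    have hs4 : s ^ 4 = N4 v := by
      rw [show s ^ 4 = (s ^ 2) ^ 2 by ring, hs, Real.sq_sqrt (Real.sqrt_nonneg _),
        Real.sq_sqrt hN.le]
    have h1 : N4 (s⁻¹ • (v : EuclideanSpace ℝ (Fin 3))) = 1 := by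
      rw [N4_smul, inv_pow, hs4, inv_mul_cancel₀ hN.ne']
    have h2 := h (s⁻¹ • v) h1.le
    have h3 := mul_lt_mul_of_pos_left (hv _ (cube_mem _ h1.le)) (inv_pos.2 hs0)
    rw [← real_inner_smul_right, ← real_inner_smul_right, inn] at h3
    set x := s⁻¹ • (v : EuclideanSpace ℝ (Fin 3))
    unfold N4 at h1
    simp only [Matrix.cons_val] at h3
    linarith

theorem main4 : ∃ K : Set (EuclideanSpace ℝ (Fin 3)), IsCompact K ∧ Convex ℝ K ∧
    (interior K).Nonempty ∧ (∀ u : EuclideanSpace ℝ (Fin 3), ‖u‖ = 1 →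
      ∃ (A : Set (ℝ ∙ u)ᗮ) (T : (ℝ ∙ u)ᗮ ≃ₗ[ℝ] (ℝ ∙ u)ᗮ), CompSym A ∧
        (ℝ ∙ u)ᗮ.orthogonalProjectionOnto '' K = T '' A) ∧ ¬ Ellipsoid K := by
  refine ⟨K4, K4_compact, K4_convex,
    ⟨0, mem_interior.2 ⟨_, ball4, Metric.isOpen_ball, by simp⟩⟩, fun u hu => ?_, ?_⟩
  · have hu0 : u ≠ 0 := by
      rintro rfl
      simp at hu
    have : Fact (Module.finrank ℝ (EuclideanSpace ℝ (Fin 3)) = 2 + 1) := ⟨by simp⟩
    let φ := Complex.isometryOfOrthonormal (OrthonormalBasis.fromOrthogonalSpanSingleton 2 hu0)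
    obtain ⟨p, q, μ, hd, hg⟩ := auer ((ℝ ∙ u)ᗮ.subtypeₗᵢ.comp φ.toLinearIsometry)
    refine plane4 φ _ (K4_compact.image (ContinuousLinearMap.continuous _))
      ⟨0, mem_interior.2 ⟨Metric.ball 0 (1 / 2), fun y hy => ⟨y, ball4 (by simpa using hy),
        by simp⟩, Metric.isOpen_ball, by simp⟩⟩ (fun z => N4 (φ z)) (fun z => ?_) p q μ hd hg
    rw [K4_proj, φ.surjective.forall]
    simp only [φ.inner_map_map]
  · rintro ⟨c, T, h⟩
    have mem : ∀ v, v ∈ K4 ↔ ‖T.symm (v - c)‖ ≤ 1 := by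
      intro v
      rw [h]
      constructor
      · rintro ⟨x, hx, rfl⟩
        simpa using hx
      · intro h
        exact ⟨T.symm (v - c), by simpa using h, by simp⟩
    have neg : ∀ v ∈ K4, -v ∈ K4 := fun v hv w hw => by
      rw [inner_neg_left, ← inner_neg_right]
      exact hv _ (by rw [← neg_one_smul ℝ w, N4_smul]; linarith)
    have par : ∀ v ∈ K4, ‖T.symm v‖ ^ 2 + ‖T.symm c‖ ^ 2 ≤ 1 := by
      intro v hv
      have h1 := (mem _).1 hv
      have h2 := (mem _).1 (neg v hv)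
      rw [show -v - c = -(v + c) by abel, map_neg, norm_neg, map_add] at h2
      rw [map_sub] at h1
      have := parallelogram_law_with_norm ℝ (T.symm v) (T.symm c)
      nlinarith [norm_nonneg (T.symm v + T.symm c), norm_nonneg (T.symm v - T.symm c)]
    have n1 : ‖(!₂[1, 0, 0] : EuclideanSpace ℝ (Fin 3))‖ = 1 := by
      simp [EuclideanSpace.norm_eq, Fin.sum_univ_three]
    have hc : T.symm c = 0 := by
      have h1 := par (c + T !₂[1, 0, 0]) ((mem _).2 (by simp [n1]))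
      have h2 := par (c - T !₂[1, 0, 0]) ((mem _).2 (by simp [n1]))
      rw [map_add, T.symm_apply_apply] at h1
      rw [map_sub, T.symm_apply_apply] at h2
      have := parallelogram_law_with_norm ℝ (T.symm c) !₂[1, 0, 0]
      rw [n1] at this
      rw [← norm_eq_zero, ← sq_eq_zero_iff]
      nlinarith [sq_nonneg ‖T.symm c‖]
    simp only [map_sub, hc, sub_zero] at mem
    have m1 := (mem _).1 (cube_mem !₂[1, 0, 0] (N4_le _ n1))
    have m2 := (mem _).1 (cube_mem !₂[0, 1, 0] (by simp [N4]))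
    simp only [Matrix.cons_val, one_pow, ne_eq, OfNat.ofNat_ne_zero, not_false_eq_true,
      zero_pow] at m1 m2
    have fin : ∀ (x : EuclideanSpace ℝ (Fin 3)), x 0 = 1 → x 1 ^ 2 = 1 → x 2 = 0 →
        2 < ‖T.symm x‖ ^ 2 := by
      intro x x0 x1 x2
      by_contra hle
      have h1 : (7 / 10 : ℝ) • x ∈ K4 := by
        rw [mem, map_smul, norm_smul, Real.norm_eq_abs, abs_of_pos (by norm_num)]
        nlinarith [norm_nonneg (T.symm x)]
      have h2 := h1 ((21 / 25 : ℝ) • x) (by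
        rw [N4_smul, N4, x0, x2, show x 1 ^ 4 = (x 1 ^ 2) ^ 2 by ring, x1]
        norm_num)
      rw [real_inner_smul_left, real_inner_smul_right, real_inner_self_eq_norm_sq, nsq, x0, x1,
        x2] at h2
      norm_num at h2
    have f1 := fin (!₂[1, 0, 0] + !₂[0, 1, 0]) (by simp) (by simp) (by simp)
    have f2 := fin (!₂[1, 0, 0] - !₂[0, 1, 0]) (by simp) (by simp) (by simp)
    rw [map_add] at f1
    rw [map_sub] at f2
    have := parallelogram_law_with_norm ℝ (T.symm !₂[1, 0, 0]) (T.symm !₂[0, 1, 0])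
    nlinarith [norm_nonneg (T.symm !₂[1, 0, 0]), norm_nonneg (T.symm !₂[0, 1, 0])]

end Pool.Agent.H52.CS
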