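import Pool.Agent.H52.CTDefs

/-! Combinatorics of marker rectangles. -/

set_option autoImplicit false

namespace Pool.Agent.H52.CT

abbrev P := Fin 2 → ℤ

def Nr (r : ℤ) (g : P) : Prop := ∀ i, |g i| ≤ r

theorem Nr.finite (r : ℤ) : {g : P | Nr r g}.Finite :=
  (Set.finite_Icc (fun _ => -r : P) fun _ => r).subset fun _ h =>
    ⟨fun i => (abs_le.1 (h i)).1, fun i => (abs_le.1 (h i)).2⟩

theorem avoid (S : Finset ℤ) (L a : ℤ) (hL : 0 < L) :
    ∃ x, a ≤ x ∧ x ≤ a + 2 * L * S.card ∧ ∀ s ∈ S, L ≤ |x - s| := by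
  by_contra h
  push Not at h
  have key : ∀ i : Fin (S.card + 1), ∃ s ∈ S, |a + 2 * L * i - s| < L := fun i =>
    h _ (by have : (0 : ℤ) ≤ i := by positivity
            nlinarith) (by
      have : ((i : ℕ) : ℤ) ≤ S.card := by exact_mod_cast Nat.le_of_lt_succ i.2
      nlinarith)
  choose f hf hf' using key
  have : Function.Injective fun i => (⟨f i, hf i⟩ : S) := by
    intro i j e
    have e' : f i = f j := congrArg Subtype.val e
    have h1 := abs_lt.1 (hf' i)
    have h2 := abs_lt.1 (hf' j)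
    rw [e'] at h1
    ext
    rcases lt_trichotomy (i : ℕ) j with h | h | h
    · have : ((i : ℕ) : ℤ) + 1 ≤ (j : ℕ) := by exact_mod_cast h
      nlinarith
    · exact h
    · have : ((j : ℕ) : ℤ) + 1 ≤ (i : ℕ) := by exact_mod_cast h
      nlinarith
  have := Fintype.card_le_of_injective _ this
  simp at this

theorem packing (D : ℤ) (hD : 0 < D) (S : Finset P) (h1 : ∀ g ∈ S, Nr (8 * D) g)
    (h2 : ∀ g ∈ S, ∀ g' ∈ S, Nr D (g - g') → g = g') : S.card ≤ 289 := by
  have : S.card ≤ (Finset.Icc (fun _ => -8 : P) fun _ => 8).card := by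
    refine Finset.card_le_card_of_injOn (fun g i => g i / D) (fun g hg => ?_) fun g hg g' hg' e => ?_
    · simp only [Finset.coe_Icc, Set.mem_Icc]
      constructor <;> intro i <;> have := abs_le.1 (h1 g hg i)
      · exact Int.le_ediv_of_mul_le hD (by linarith)
      · exact Int.ediv_le_of_le_mul hD (by linarith)
    · refine h2 g hg g' hg' fun i => ?_
      have e1 : g i / D = g' i / D := congrFun e i
      have := Int.emod_add_mul_ediv (g i) D
      have := Int.emod_add_mul_ediv (g' i) D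
      have := Int.emod_nonneg (g i) hD.ne'
      have := Int.emod_nonneg (g' i) hD.ne'
      have := Int.emod_lt_of_pos (g i) hD
      have := Int.emod_lt_of_pos (g' i) hD
      rw [Pi.sub_apply, abs_le, e1] at *
      constructor <;> linarith
  simpa [Pi.card_Icc] using this

/-- the faces of a new marker avoid the faces already chosen -/
def Spec (L D : ℤ) (s : P → Option (P × P)) (y : P × P) : Prop :=
  ∀ i, (-2 * D ≤ y.1 i ∧ y.1 i ≤ -D ∧ D < y.2 i ∧ y.2 i ≤ 2 * D) ∧ ∀ g y', s g = some y' →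
    ∀ a ∈ ({y.1 i, y.2 i} : Set ℤ), ∀ b ∈ ({y'.1 i, y'.2 i} : Set ℤ), L ≤ |a - (g i + b)|

theorem exists_spec {L D : ℤ} (hL : 0 < L) (hD : 2000 * L ≤ D) (s : P → Option (P × P))
    (h1 : ∀ g, s g ≠ none → Nr (8 * D) g)
    (h2 : ∀ g g', s g ≠ none → s g' ≠ none → Nr D (g - g') → g = g') : ∃ y, Spec L D s y := by
  classical
  have hf : {g | s g ≠ none}.Finite := (Nr.finite _).subset h1
  have hc := packing D (by linarith) hf.toFinset (by simpa using h1)
    (fun g hg g' hg' => h2 g g' (by simpa using hg) (by simpa using hg'))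
  let S : Fin 2 → Finset ℤ := fun i =>
    hf.toFinset.image (fun g => g i + ((s g).getD 0).1 i) ∪
      hf.toFinset.image (fun g => g i + ((s g).getD 0).2 i)
  have hS : ∀ i, ((S i).card : ℤ) ≤ 578 := fun i => by
    have := Finset.card_union_le (hf.toFinset.image (fun g => g i + ((s g).getD 0).1 i))
      (hf.toFinset.image (fun g => g i + ((s g).getD 0).2 i))
    have h3 := Finset.card_image_le (s := hf.toFinset) (f := fun g => g i + ((s g).getD 0).1 i)
    have h4 := Finset.card_image_le (s := hf.toFinset) (f := fun g => g i + ((s g).getD 0).2 i)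
    have : (S i).card ≤ 578 := by simp only [S]; omega
    exact_mod_cast this
  choose lo l1 l2 l3 using fun i => avoid (S i) L (-2 * D) hL
  choose hi u1 u2 u3 using fun i => avoid (S i) L (D + 1) hL
  refine ⟨(lo, hi), fun i => ⟨⟨l1 i, ?_, u1 i, ?_⟩, fun g y' hy a ha b hb => ?_⟩⟩
  · have := l2 i; have := hS i; dsimp only; nlinarith
  · have := u2 i; have := hS i; dsimp only; nlinarith
  · have hm : g i + b ∈ S i := by
      have hg : g ∈ hf.toFinset := by simp [hy]
      rcases hb with rfl | rfl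
      · exact Finset.mem_union_left _ (Finset.mem_image.2 ⟨g, hg, by simp [hy]⟩)
      · exact Finset.mem_union_right _ (Finset.mem_image.2 ⟨g, hg, by simp [hy]⟩)
    rcases ha with rfl | rfl
    · exact l3 i _ hm
    · exact u3 i _ hm

/-- the invariants of the marker configuration -/
structure Inv (L D : ℤ) (f : P → Option (P × P)) (c : P → ℕ) : Prop where
  col : ∀ g g', Nr (8 * D) (g - g') → c g = c g' → g = g'
  max : ∀ v, ∃ g, Nr D (g - v) ∧ f g ≠ none
  bd : ∀ g y, f g = some y → ∀ i, -2 * D ≤ y.1 i ∧ y.1 i ≤ -D ∧ D < y.2 i ∧ y.2 i ≤ 2 * D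
  sep : ∀ g y g' y', f g = some y → f g' = some y' → Nr (8 * D) (g - g') → g ≠ g' → ∀ i,
    ∀ a ∈ ({y.1 i, y.2 i} : Set ℤ), ∀ b ∈ ({y'.1 i, y'.2 i} : Set ℤ), L ≤ |g i + a - (g' i + b)|

section good

variable (D : ℤ) (f : P → Option (P × P)) (c : P → ℕ)

def Cont (v u : P) : Prop := ∃ y, f u = some y ∧ ∀ i, u i + y.1 i ≤ v i ∧ v i < u i + y.2 i

def Own (v z : P) : Prop :=
  Nr (2 * D) (z - v) ∧ Cont f v z ∧ ∀ u, Nr (2 * D) (u - v) → Cont f v u → c z ≤ c u

def Line (z : P) (i : Fin 2) : Set ℤ :=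
  {l | ∃ u, Nr (4 * D) (u - z) ∧ ∃ y, f u = some y ∧ (l = u i + y.1 i ∨ l = u i + y.2 i)}

def Good (v : P) (b : P × P) : Prop :=
  ∃ z, Own D f c v z ∧ ∀ i, IsGreatest (Line D f z i ∩ Set.Iic (v i)) (b.1 i) ∧
    IsLeast (Line D f z i ∩ Set.Ioi (v i)) (b.2 i)

variable {D f c} {L : ℤ}

theorem Cont.nr (h : Inv L D f c) {v u : P} (hu : Cont f v u) : Nr (2 * D) (u - v) := by
  obtain ⟨y, h1, h2⟩ := hu
  intro i
  have := h.bd u y h1 i
  have := h2 i
  rw [Pi.sub_apply, abs_le]
  constructor <;> linarith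

theorem Own.uniq (h : Inv L D f c) (hD : 0 ≤ D) {v z z' : P} (h1 : Own D f c v z)
    (h2 : Own D f c v z') : z = z' := by
  refine h.col z z' (fun i => ?_) (le_antisymm (h1.2.2 _ h2.1 h2.2.1) (h2.2.2 _ h1.1 h1.2.1))
  have := abs_le.1 (h1.1 i)
  have := abs_le.1 (h2.1 i)
  simp only [Pi.sub_apply, abs_le] at *
  constructor <;> linarith

theorem Own.ex (h : Inv L D f c) (v : P) : ∃ z, Own D f c v z := by
  classical
  have : ∃ m, ∃ z, Cont f v z ∧ c z = m := by
    obtain ⟨g, h1, h2⟩ := h.max v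
    obtain ⟨y, hy⟩ := Option.ne_none_iff_exists'.1 h2
    refine ⟨_, g, ⟨y, hy, fun i => ?_⟩, rfl⟩
    have := h.bd g y hy i
    have := abs_le.1 (h1 i)
    simp only [Pi.sub_apply] at this
    constructor <;> linarith
  obtain ⟨z, h1, h2⟩ := Nat.find_spec this
  exact ⟨z, h1.nr h, h1, fun u _ hu => h2 ▸ Nat.find_min' this ⟨u, hu, rfl⟩⟩

theorem Good.uniq (h : Inv L D f c) (hD : 0 ≤ D) {v : P} {b b' : P × P} (h1 : Good D f c v b)
    (h2 : Good D f c v b') : b = b' := by
  obtain ⟨z, h1, h3⟩ := h1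
  obtain ⟨z', h2, h4⟩ := h2
  obtain rfl := h1.uniq h hD h2
  exact Prod.ext (funext fun i => (h3 i).1.unique (h4 i).1) (funext fun i => (h3 i).2.unique (h4 i).2)

theorem Line.finite (z : P) (i : Fin 2) : (Line D f z i).Finite := by
  have h1 : {u | Nr (4 * D) (u - z)}.Finite :=
    ((Nr.finite (4 * D)).image (· + z)).subset fun u hu => ⟨u - z, hu, by simp⟩
  refine ((h1.image fun u => u i + ((f u).getD 0).1 i).union
    (h1.image fun u => u i + ((f u).getD 0).2 i)).subset ?_
  rintro _ ⟨u, hu, y, hy, rfl | rfl⟩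
  · exact .inl ⟨u, hu, by simp [hy]⟩
  · exact .inr ⟨u, hu, by simp [hy]⟩

theorem Good.ex (h : Inv L D f c) (hD : 0 ≤ D) (v : P) : ∃ b, Good D f c v b := by
  obtain ⟨z, hz⟩ := Own.ex h v
  obtain ⟨y, h1, h2⟩ := hz.2.1
  have h0 : Nr (4 * D) (z - z) := fun i => by simp [hD]
  have e1 : ∀ i, ∃ p, IsGreatest (Line D f z i ∩ Set.Iic (v i)) p := fun i => by
    obtain ⟨p, h3, h4⟩ := Set.exists_max_image _ id ((Line.finite z i).inter_of_left (Set.Iic (v i)))
      ⟨_, ⟨z, h0, y, h1, .inl rfl⟩, (h2 i).1⟩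
    exact ⟨p, h3, h4⟩
  have e2 : ∀ i, ∃ p, IsLeast (Line D f z i ∩ Set.Ioi (v i)) p := fun i => by
    obtain ⟨p, h3, h4⟩ := Set.exists_min_image _ id ((Line.finite z i).inter_of_left (Set.Ioi (v i)))
      ⟨_, ⟨z, h0, y, h1, .inr rfl⟩, (h2 i).2⟩
    exact ⟨p, h3, h4⟩
  choose p hp using e1
  choose q hq using e2
  exact ⟨(p, q), z, hz, fun i => ⟨hp i, hq i⟩⟩

theorem Good.size (h : Inv L D f c) (hD : L ≤ D) {v : P} {b : P × P} (hb : Good D f c v b)
    (i : Fin 2) : b.1 i ≤ v i ∧ v i < b.2 i ∧ b.1 i + L ≤ b.2 i := by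
  obtain ⟨z, -, h3⟩ := hb
  obtain ⟨⟨⟨u, hu, y, hy, e⟩, h4⟩, -⟩ := (h3 i).1
  obtain ⟨⟨⟨u', hu', y', hy', e'⟩, h5⟩, -⟩ := (h3 i).2
  have h4' : b.1 i ≤ v i := h4
  have h5' : v i < b.2 i := h5
  refine ⟨h4, h5, ?_⟩
  by_cases hne : u = u'
  · subst hne
    obtain rfl : y = y' := Option.some.inj (hy.symm.trans hy')
    have := h.bd u y hy i
    omega
  · have hn : Nr (8 * D) (u - u') := fun j => by
      have := abs_le.1 (hu j)
      have := abs_le.1 (hu' j)
      simp only [Pi.sub_apply, abs_le] at *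
      constructor <;> linarith
    have := h.sep u y u' y' hy hy' hn hne i (b.1 i - u i) (by rcases e with e | e <;> simp [e])
      (b.2 i - u' i) (by rcases e' with e | e <;> simp [e])
    rw [abs_sub_comm, abs_of_nonneg (by linarith)] at this
    linarith

theorem Good.move (h : Inv L D f c) {v w : P} {b : P × P} (hb : Good D f c v b)
    (hw : ∀ i, b.1 i ≤ w i ∧ w i < b.2 i) : Good D f c w b := by
  obtain ⟨z, hz, h3⟩ := hb
  have key : ∀ i, ∀ l ∈ Line D f z i, (l ≤ v i ↔ l ≤ w i) := fun i l hl => by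
    have := hw i
    constructor
    · intro h4
      have := (h3 i).1.2 ⟨hl, h4⟩
      omega
    · intro h4
      by_contra h5
      have := (h3 i).2.2 ⟨hl, not_le.1 h5⟩
      omega
  have key2 : ∀ u, Nr (4 * D) (u - z) → (Cont f v u ↔ Cont f w u) := fun u hu => by
    refine exists_congr fun y => and_congr_right fun hy => forall_congr' fun i => ?_
    have h1 := key i _ ⟨u, hu, y, hy, .inl rfl⟩
    have h2 := key i _ ⟨u, hu, y, hy, .inr rfl⟩
    omega
  have hD : 0 ≤ D := by have := (abs_nonneg _).trans (hz.1 0); linarith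
  have hz' : Cont f w z := (key2 z fun i => by simp [hD]).1 hz.2.1
  refine ⟨z, ⟨hz'.nr h, hz', fun u hu hu' => ?_⟩, fun i => ?_⟩
  · have : Cont f v u := (key2 u fun i => by
      have := abs_le.1 (hu i)
      have := abs_le.1 (hz'.nr h i)
      simp only [Pi.sub_apply, abs_le] at *
      constructor <;> linarith).2 hu'
    exact hz.2.2 u (this.nr h) this
  · have e1 : Line D f z i ∩ Set.Iic (w i) = Line D f z i ∩ Set.Iic (v i) :=
      Set.ext fun l => and_congr_right fun hl => (key i l hl).symm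
    have e2 : Line D f z i ∩ Set.Ioi (w i) = Line D f z i ∩ Set.Ioi (v i) :=
      Set.ext fun l => and_congr_right fun hl => by
        have := key i l hl
        simp only [Set.mem_Ioi]; omega
    rw [e1, e2]
    exact h3 i

theorem Good.congr {f' : P → Option (P × P)} {c' : P → ℕ} {v t : P} {b : P × P}
    (e : ∀ g, Nr (6 * D) (g - v) → f' (g - t) = f g ∧ c' (g - t) = c g) (hb : Good D f c v b) :
    Good D f' c' (v - t) (b.1 - t, b.2 - t) := by
  obtain ⟨z, hz, h3⟩ := hb
  have hD : 0 ≤ D := by have := (abs_nonneg _).trans (hz.1 0); linarith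
  have n1 : ∀ u, Nr (2 * D) (u - v) → Nr (6 * D) (u - v) := fun u hu i => (hu i).trans (by linarith)
  have key : ∀ u, Nr (2 * D) (u - v) → (Cont f' (v - t) (u - t) ↔ Cont f v u) := fun u hu => by
    refine exists_congr fun y => and_congr (by rw [(e u (n1 u hu)).1]) (forall_congr' fun i => ?_)
    simp only [Pi.sub_apply]; omega
  have key2 : ∀ i l, l - t i ∈ Line D f' (z - t) i ↔ l ∈ Line D f z i := fun i l => by
    have n2 : ∀ u, Nr (4 * D) (u - z) → Nr (6 * D) (u - v) := fun u hu i => by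
      have := abs_le.1 (hu i)
      have := abs_le.1 (hz.1 i)
      simp only [Pi.sub_apply, abs_le] at *
      constructor <;> linarith
    constructor
    · rintro ⟨u, hu, y, hy, h4⟩
      have hu' : Nr (4 * D) (u + t - z) := by convert hu using 1; abel
      have := (e _ (n2 _ hu')).1
      rw [add_sub_cancel_right] at this
      exact ⟨u + t, hu', y, this ▸ hy, by simp only [Pi.add_apply]; omega⟩
    · rintro ⟨u, hu, y, hy, h4⟩
      exact ⟨u - t, by convert hu using 1; abel, y, (e _ (n2 _ hu)).1.trans hy,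
        by simp only [Pi.sub_apply]; omega⟩
  refine ⟨z - t, ⟨by convert hz.1 using 1; abel, (key z hz.1).2 hz.2.1, fun u hu hu' => ?_⟩,
    fun i => ⟨⟨⟨(key2 i _).2 (h3 i).1.1.1, ?_⟩, fun l hl => ?_⟩,
      ⟨⟨(key2 i _).2 (h3 i).2.1.1, ?_⟩, fun l hl => ?_⟩⟩⟩
  · have hu2 : Nr (2 * D) (u + t - v) := by convert hu using 1; abel
    have h5 := hz.2.2 _ hu2 ((key _ hu2).1 (by rwa [add_sub_cancel_right]))
    have h6 := (e _ (n1 _ hu2)).2
    rw [add_sub_cancel_right] at h6
    rw [(e z (n1 z hz.1)).2, h6]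
    exact h5
  · have : b.1 i ≤ v i := (h3 i).1.1.2
    simp only [Set.mem_Iic, Pi.sub_apply]; omega
  · have h5 : l ≤ v i - t i := hl.2
    have := (h3 i).1.2 ⟨(key2 i (l + t i)).1 (by simpa using hl.1), show l + t i ≤ v i by omega⟩
    simp only [Pi.sub_apply]; omega
  · have : v i < b.2 i := (h3 i).2.1.2
    simp only [Set.mem_Ioi, Pi.sub_apply]; omega
  · have h5 : v i - t i < l := hl.2
    have := (h3 i).2.2 ⟨(key2 i (l + t i)).1 (by simpa using hl.1), show v i < l + t i by omega⟩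
    simp only [Pi.sub_apply]; omega

end good

end Pool.Agent.H52.CT
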