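import Pool.Agent.H52.CT1

/-! Continuous partitions into rectangles for free actions of `ℤ^2`. -/

set_option autoImplicit false

namespace Pool.Agent.H52.CT

open Filter Topology

variable {Ω : Type} [TopologicalSpace Ω] (a : P → Ω → Ω)

structure IsAct : Prop where
  zero : ∀ x, a 0 x = x
  add : ∀ g h x, a (g + h) x = a g (a h x)
  cont : ∀ g, Continuous (a g)
  col : ∀ r, ∃ c : Ω → ℕ, IsLocallyConstant c ∧ ∀ x g, Nr r g → c (a g x) = c x → g = 0

def Boxes (Q : P → Prop) : Prop :=
  ∃ b : Ω → P × P, IsLocallyConstant b ∧ ∀ x, (∀ i, (b x).1 i ≤ 0 ∧ 0 < (b x).2 i) ∧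
    Q ((b x).2 - (b x).1) ∧
    ∀ g, (∀ i, (b x).1 i ≤ g i ∧ g i < (b x).2 i) → b (a g x) = ((b x).1 - g, (b x).2 - g)

open Classical in
noncomputable def Phi (L D : ℤ) (s : P → Option (P × P)) : Option (P × P) :=
  if ∃ g, Nr D g ∧ s g ≠ none then none else some (Classical.epsilon (Spec L D s))

open Classical in
noncomputable def gr (c : Ω → ℕ) (L D : ℤ) (x : Ω) : Option (P × P) :=
  Phi L D fun g => if _h : Nr (8 * D) g ∧ c (a g x) < c x then gr c L D (a g x) else none
termination_by c x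
decreasing_by exact _h.2

open Classical in
noncomputable def vw (c : Ω → ℕ) (L D : ℤ) (x : Ω) (g : P) : Option (P × P) :=
  if Nr (8 * D) g ∧ c (a g x) < c x then gr a c L D (a g x) else none

theorem gr_eq (c : Ω → ℕ) (L D : ℤ) (x : Ω) : gr a c L D x = Phi L D (vw a c L D x) := by
  rw [gr]; rfl

theorem vw_some {c : Ω → ℕ} {L D : ℤ} {x : Ω} {g : P} (h : vw a c L D x g ≠ none) :
    Nr (8 * D) g ∧ c (a g x) < c x ∧ vw a c L D x g = gr a c L D (a g x) := by
  unfold vw at h ⊢
  split_ifs at h ⊢ with h1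
  · exact ⟨h1.1, h1.2, rfl⟩
  · exact absurd rfl h

variable {a}

theorem ev_ball {β : Type} (r : ℤ) {x : Ω} {F : Ω → P → β}
    (h : ∀ g, Nr r g → ∀ᶠ y in 𝓝 x, F y g = F x g) : ∀ᶠ y in 𝓝 x, ∀ g, Nr r g → F y g = F x g :=
  (eventually_all_finite (Nr.finite r)).2 h

theorem gr_lc (ha : IsAct a) {c : Ω → ℕ} (hc : IsLocallyConstant c) (L D : ℤ) :
    IsLocallyConstant (gr a c L D) := by
  rw [IsLocallyConstant.iff_eventually_eq]
  intro x
  induction hx : c x using Nat.strong_induction_on generalizing x with | _ m ih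
  have : ∀ᶠ y in 𝓝 x, ∀ g, Nr (8 * D) g → vw a c L D y g = vw a c L D x g := by
    refine ev_ball _ fun g _ => ?_
    have h1 := hc.eventually_eq x
    have h2 := (hc.comp_continuous (ha.cont g)).eventually_eq x
    by_cases h : c (a g x) < c x
    · have h3 := (ha.cont g).continuousAt.eventually (ih _ (hx ▸ h) (a g x) rfl)
      filter_upwards [h1, h2, h3] with y h1 h2 h3
      simp only [Function.comp] at h2
      rw [vw, vw, h1, h2, h3]
    · filter_upwards [h1, h2] with y h1 h2
      simp only [Function.comp] at h2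
      rw [vw, vw, h1, h2, if_neg (fun e => h e.2), if_neg (fun e => h e.2)]
  filter_upwards [this] with y hy
  rw [gr_eq, gr_eq]
  congr 1
  funext g
  by_cases hg : Nr (8 * D) g
  · exact hy g hg
  · rw [vw, vw, if_neg (fun e => hg e.1), if_neg (fun e => hg e.1)]

theorem Nr.neg {r : ℤ} {g : P} (h : Nr r g) : Nr r (-g) := fun i => by simpa using h i

theorem gr_inv (ha : IsAct a) {c : Ω → ℕ} {L D : ℤ} (hL : 0 < L) (hD : 2000 * L ≤ D)
    (hc : ∀ x g, Nr (8 * D) g → c (a g x) = c x → g = 0) (x : Ω) :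
    Inv L D (fun g => gr a c L D (a g x)) fun g => c (a g x) := by
  have n1 : ∀ g, Nr D g → Nr (8 * D) g := fun g hg i => (hg i).trans (by linarith)
  have sub : ∀ g g' x, a g x = a (g - g') (a g' x) := fun g g' x => by rw [← ha.add, sub_add_cancel]
  have low : ∀ x g, Nr D g → c (a g x) < c x → gr a c L D (a g x) ≠ none → gr a c L D x = none := by
    intro x g hg h1 h2
    rw [gr_eq, Phi, if_pos ⟨g, hg, by rwa [vw, if_pos ⟨n1 g hg, h1⟩]⟩]
  have disc : ∀ x g g', gr a c L D (a g x) ≠ none → gr a c L D (a g' x) ≠ none → Nr D (g - g') →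
      g = g' := by
    intro x g g' h1 h2 h3
    rcases lt_trichotomy (c (a g x)) (c (a g' x)) with h | h | h
    · rw [sub g g'] at h h1
      exact absurd (low _ _ h3 h h1) h2
    · rw [sub g g'] at h
      exact sub_eq_zero.1 (hc _ _ (n1 _ h3) h)
    · rw [sub g' g] at h h2
      exact absurd (low _ _ (by simpa using h3.neg) h h2) h1
  have spec : ∀ x y, gr a c L D x = some y → Spec L D (vw a c L D x) y := by
    intro x y h
    rw [gr_eq, Phi] at h
    split_ifs at h
    rw [← Option.some.inj h]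
    refine Classical.epsilon_spec (exists_spec hL hD _ (fun g hg => (vw_some a hg).1)
      fun g g' h1 h2 h3 => disc x g g' ?_ ?_ h3)
    · rwa [← (vw_some a h1).2.2]
    · rwa [← (vw_some a h2).2.2]
  have half : ∀ g y g' y', gr a c L D (a g x) = some y → gr a c L D (a g' x) = some y' →
      Nr (8 * D) (g' - g) → c (a g' x) < c (a g x) → ∀ i, ∀ p ∈ ({y.1 i, y.2 i} : Set ℤ),
      ∀ q ∈ ({y'.1 i, y'.2 i} : Set ℤ), L ≤ |g i + p - (g' i + q)| := by
    intro g y g' y' h1 h2 h3 h4 i p hp q hq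
    have := (spec _ _ h1 i).2 (g' - g) y' (by rwa [vw, ← sub, if_pos ⟨h3, h4⟩]) p hp q hq
    rw [Pi.sub_apply] at this
    convert this using 2
    ring
  refine ⟨fun g g' h1 h2 => ?_, fun v => ?_, fun g y h i => (spec _ _ h i).1,
    fun g y g' y' h1 h2 h3 h4 i p hp q hq => ?_⟩
  · rw [sub g g'] at h2
    exact sub_eq_zero.1 (hc _ _ h1 h2)
  · by_cases h : gr a c L D (a v x) = none
    · rw [gr_eq, Phi] at h
      split_ifs at h with h1
      obtain ⟨g, h2, h3⟩ := h1
      refine ⟨g + v, by simpa using h2, ?_⟩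
      rwa [ha.add, ← (vw_some a h3).2.2]
    · exact ⟨v, fun i => by simp; linarith, h⟩
  · rcases lt_trichotomy (c (a g x)) (c (a g' x)) with h | h | h
    · rw [abs_sub_comm]
      exact half g' y' g y h2 h1 h3 h i q hq p hp
    · rw [sub g g'] at h
      exact absurd (sub_eq_zero.1 (hc _ _ h3 h)) h4
    · exact half g y g' y' h1 h2 (by simpa using h3.neg) h i p hp q hq

theorem boxes_big (ha : IsAct a) (L : ℤ) (hL : 0 < L) : Boxes a fun w => ∀ i, L ≤ w i := by
  obtain ⟨c, hc, hc'⟩ := ha.col (8 * (2000 * L))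
  have hI := gr_inv ha hL le_rfl hc'
  set D := 2000 * L with hD
  have h0 : 0 ≤ D := by linarith
  choose b hb using fun x => Good.ex (hI x) h0 0
  refine ⟨b, ?_, fun x => ⟨fun i => ?_, fun i => ?_, fun g hg => ?_⟩⟩
  · rw [IsLocallyConstant.iff_eventually_eq]
    intro x
    have : ∀ᶠ y in 𝓝 x, ∀ g, Nr (6 * D) g →
        (gr a c L D (a g y), c (a g y)) = (gr a c L D (a g x), c (a g x)) :=
      ev_ball (F := fun y g => (gr a c L D (a g y), c (a g y))) _ fun g _ =>
        (((gr_lc ha hc L D).prodMk hc).comp_continuous (ha.cont g)).eventually_eq x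
    filter_upwards [this] with y hy
    have := (hb x).congr (f' := fun g => gr a c L D (a g y)) (c' := fun g => c (a g y)) (t := 0)
      fun g hg => by simpa using hy g (by simpa using hg)
    exact (hb y).uniq (hI y) h0 (by simpa using this)
  · have := (hb x).size (hI x) (by linarith) i
    exact ⟨this.1, this.2.1⟩
  · have := (hb x).size (hI x) (by linarith) i
    rw [Pi.sub_apply]; linarith
  · have := ((hb x).move (hI x) hg).congr (f' := fun u => gr a c L D (a u (a g x)))
      (c' := fun u => c (a u (a g x))) (t := g) fun u _ => by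
        rw [← ha.add, sub_add_cancel]; exact ⟨rfl, rfl⟩
    exact (hb _).uniq (hI _) h0 (by simpa using this)

theorem cut (A : ℤ) (hA : 0 < A) : ∃ σ : ℤ → ℤ → ℤ × ℤ, ∀ w x, A * A ≤ w → 0 ≤ x → x < w →
    0 ≤ (σ w x).1 ∧ (σ w x).1 ≤ x ∧ x < (σ w x).2 ∧ (σ w x).2 ≤ w ∧
    ((σ w x).2 - (σ w x).1 = A ∨ (σ w x).2 - (σ w x).1 = A + 1) ∧
    ∀ y, (σ w x).1 ≤ y → y < (σ w x).2 → σ w y = σ w x := by
  refine ⟨fun w x => if x < w % A * (A + 1) then (x / (A + 1) * (A + 1), x / (A + 1) * (A + 1) + (A + 1))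
    else (w % A + (x - w % A) / A * A, w % A + (x - w % A) / A * A + A), fun w x hw h0 hx => ?_⟩
  have e1 := Int.emod_add_mul_ediv w A
  have e2 := Int.emod_nonneg w hA.ne'
  have e3 := Int.emod_lt_of_pos w hA
  have e4 : A ≤ w / A := Int.le_ediv_of_mul_le hA hw
  set r := w % A
  set q := w / A
  have hB : 0 < A + 1 := by omega
  dsimp only
  split_ifs with h
  · have f1 := Int.ediv_mul_le x hB.ne'
    have f2 := Int.lt_ediv_add_one_mul_self x hB
    have f3 : 0 ≤ x / (A + 1) := Int.ediv_nonneg h0 hB.le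
    have f4 : x / (A + 1) < r := Int.ediv_lt_of_lt_mul hB h
    refine ⟨by positivity, f1, by linarith, by nlinarith, .inr (by ring), fun y h1 h2 => ?_⟩
    have f5 : y / (A + 1) = x / (A + 1) :=
      (Int.ediv_eq_iff_of_pos hB).2 ⟨h1, h2⟩
    rw [if_pos (by nlinarith), f5]
  · have f1 := Int.ediv_mul_le (x - r) hA.ne'
    have f2 := Int.lt_ediv_add_one_mul_self (x - r) hA
    have f3 : r ≤ (x - r) / A := Int.le_ediv_of_mul_le hA (by linarith)
    have f4 : (x - r) / A < q := Int.ediv_lt_of_lt_mul hA (by linarith)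
    refine ⟨by nlinarith, by linarith, by linarith, by nlinarith, .inl (by ring),
      fun y h1 h2 => ?_⟩
    have f5 : (y - r) / A = (x - r) / A :=
      (Int.ediv_eq_iff_of_pos hA).2 ⟨by linarith, by linarith⟩
    rw [if_neg (by nlinarith), f5]

theorem boxes (ha : IsAct a) (A : P) (hA : ∀ i, 0 < A i) :
    Boxes a fun w => ∀ i, w i = A i ∨ w i = A i + 1 := by
  obtain ⟨b, hb, h⟩ := boxes_big ha (A 0 * A 0 + A 1 * A 1) (by have := hA 0; have := hA 1; positivity)
  choose σ hσ using fun i => cut (A i) (hA i)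
  let F : P × P → P × P := fun b => (fun i => b.1 i + (σ i (b.2 i - b.1 i) (-b.1 i)).1,
    fun i => b.1 i + (σ i (b.2 i - b.1 i) (-b.1 i)).2)
  refine ⟨F ∘ b, hb.comp F, fun x => ?_⟩
  obtain ⟨h1, h2, h3⟩ := h x
  have key := fun i => hσ i ((b x).2 i - (b x).1 i) (-(b x).1 i) (by
    have := h2 i
    have h5 := mul_self_nonneg (A 0)
    have h6 := mul_self_nonneg (A 1)
    rw [Pi.sub_apply] at this
    fin_cases i <;> simp at this ⊢ <;> linarith) (by have := h1 i; omega) (by have := h1 i; omega)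
  refine ⟨fun i => ?_, fun i => ?_, fun g hg => ?_⟩
  · have := key i
    simp only [F, Function.comp]; omega
  · have := key i
    simp only [F, Function.comp, Pi.sub_apply]; omega
  · simp only [F, Function.comp] at hg ⊢
    rw [h3 g fun i => by have := key i; have := hg i; omega]
    have e : ∀ i, σ i ((b x).2 i - g i - ((b x).1 i - g i)) (-((b x).1 i - g i)) =
        σ i ((b x).2 i - (b x).1 i) (-(b x).1 i) := fun i => by
      rw [sub_sub_sub_cancel_right]
      have := hg i
      exact (key i).2.2.2.2.2 _ (by omega) (by omega)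
    refine Prod.ext (funext fun i => ?_) (funext fun i => ?_) <;>
      simp only [Pi.sub_apply, e] <;> ring

end Pool.Agent.H52.CT
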