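import Pool.Agent.H52.CT2

/-! Wang tiles with flat sides as finite subsets of `ℤ^2`: rigidity. -/

set_option autoImplicit false

namespace Pool.Agent.H52.CT

abbrev Wg := ℕ × ℕ × ℕ × ℕ
abbrev Tl := Wg × ℕ × ℕ

abbrev Tl.w (t : Tl) : ℕ := t.1.1
abbrev Tl.e (t : Tl) : ℕ := t.1.2.1
abbrev Tl.s (t : Tl) : ℕ := t.1.2.2.1
abbrev Tl.n (t : Tl) : ℕ := t.1.2.2.2

def Rect (k : ℤ) (t : Tl) (x y : ℤ) : Prop :=
  0 ≤ x ∧ (x < k ∨ (x = k ∧ t.e = 0 ∧ t.2.1 = 1)) ∧ 0 ≤ y ∧ (y < k ∨ (y = k ∧ t.n = 0 ∧ t.2.2 = 1))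

def In (k : ℤ) (t : Tl) (x y : ℤ) : Prop :=
  (Rect k t x y ∧ ¬ (t.w ≠ 0 ∧ x = 1 ∧ y = 3) ∧ ¬ (t.e ≠ 0 ∧ x = k - 2 ∧ y = 2 + t.e) ∧
    ¬ (t.s ≠ 0 ∧ x = 3 ∧ y = 1) ∧ ¬ (t.n ≠ 0 ∧ x = 2 + t.n ∧ y = k - 2)) ∨
  (t.e ≠ 0 ∧ x = k + 1 ∧ y = 3) ∨ (t.w ≠ 0 ∧ x = -2 ∧ y = 2 + t.w) ∨
  (t.n ≠ 0 ∧ x = 3 ∧ y = k + 1) ∨ (t.s ≠ 0 ∧ x = 2 + t.s ∧ y = -2)

def Bd (k : ℤ) (t : Tl) : Prop := t.w + 7 ≤ k ∧ t.e + 7 ≤ k ∧ t.s + 7 ≤ k ∧ t.n + 7 ≤ k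

structure PT (k : ℤ) (A : ℤ → ℤ → Tl → Prop) : Prop where
  cover : ∀ x y, ∃ p q t, A p q t ∧ In k t (x - p) (y - q)
  disj : ∀ x y p q t p' q' t', A p q t → A p' q' t' → In k t (x - p) (y - q) →
    In k t' (x - p') (y - q') → p = p' ∧ q = q' ∧ t = t'
  bd : ∀ p q t, A p q t → Bd k t

variable {k : ℤ} {A : ℤ → ℤ → Tl → Prop}

theorem In.weak {t : Tl} {x y : ℤ} (h : In k t x y) : (0 ≤ x ∧ x ≤ k ∧ 0 ≤ y ∧ y ≤ k) ∨
    (t.e ≠ 0 ∧ x = k + 1 ∧ y = 3) ∨ (t.w ≠ 0 ∧ x = -2 ∧ y = 2 + t.w) ∨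
    (t.n ≠ 0 ∧ x = 3 ∧ y = k + 1) ∨ (t.s ≠ 0 ∧ x = 2 + t.s ∧ y = -2) :=
  h.imp_left fun h => by have := h.1; unfold Rect at this; omega

theorem In.core {t : Tl} {x y : ℤ} (h1 : 0 ≤ x) (h2 : x < k) (h3 : 0 ≤ y) (h4 : y < k)
    (c1 : ¬ (t.w ≠ 0 ∧ x = 1 ∧ y = 3)) (c2 : ¬ (t.e ≠ 0 ∧ x = k - 2 ∧ y = 2 + t.e))
    (c3 : ¬ (t.s ≠ 0 ∧ x = 3 ∧ y = 1)) (c4 : ¬ (t.n ≠ 0 ∧ x = 2 + t.n ∧ y = k - 2)) :
    In k t x y := .inl ⟨⟨h1, .inl h2, h3, .inl h4⟩, c1, c2, c3, c4⟩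

theorem PT.overlap (h : PT k A) {p q p' q' : ℤ} {t t' : Tl} (h1 : A p q t) (h2 : A p' q' t')
    (e1 : p - k < p') (e2 : p' < p + k) (e3 : q - k < q') (e4 : q' < q + k) :
    p = p' ∧ q = q' ∧ t = t' := by
  have b1 := h.bd _ _ _ h1
  have b2 := h.bd _ _ _ h2
  unfold Bd at b1 b2
  refine h.disj (if p ≤ p' then p' else p' + k - 1) (if q ≤ q' then q + k - 1 else q)
    _ _ _ _ _ _ h1 h2 (.core ?_ ?_ ?_ ?_ ?_ ?_ ?_ ?_) (.core ?_ ?_ ?_ ?_ ?_ ?_ ?_ ?_) <;>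
      split_ifs <;> omega

theorem PT.west (h : PT k A) {p q : ℤ} {t : Tl} (h1 : A p q t) (hw : t.w ≠ 0) :
    ∃ t', A (p - k) q t' ∧ t'.e = t.w := by
  obtain ⟨p', q', t', h2, h3⟩ := h.cover (p + 1) (q + 3)
  have b1 := h.bd _ _ _ h1
  have b2 := h.bd _ _ _ h2
  have ov := h.overlap h1 h2
  have ne : ¬ (p = p' ∧ q = q' ∧ t = t') := by
    rintro ⟨rfl, rfl, rfl⟩
    unfold Bd at b1
    rcases h3 with h3 | h3
    · exact h3.2.1 ⟨hw, by omega, by omega⟩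
    · omega
  have e : p' = p - k ∧ q' = q ∧ t'.e ≠ 0 := by
    by_contra hc
    have h4 := h3.weak
    unfold Bd at b1 b2
    have : p - k < p' ∧ p' < p + k ∧ q - k < q' ∧ q' < q + k := by
      clear ov ne h3
      rcases h4 with h4 | h4 | h4 | h4 | h4 <;> omega
    exact ne (ov this.1 this.2.1 this.2.2.1 this.2.2.2)
  obtain ⟨rfl, rfl, e⟩ := e
  refine ⟨t', h2, ?_⟩
  by_contra hc
  unfold Bd at b1 b2
  refine ne (h.disj (p - 2) (q' + 2 + t.w) _ _ _ _ _ _ h1 h2 (.inr (.inr (.inl ?_)))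
    (.core ?_ ?_ ?_ ?_ ?_ ?_ ?_ ?_)) <;> clear ov ne h3 <;> omega

theorem PT.south (h : PT k A) {p q : ℤ} {t : Tl} (h1 : A p q t) (hw : t.s ≠ 0) :
    ∃ t', A p (q - k) t' ∧ t'.n = t.s := by
  obtain ⟨p', q', t', h2, h3⟩ := h.cover (p + 3) (q + 1)
  have b1 := h.bd _ _ _ h1
  have b2 := h.bd _ _ _ h2
  have ov := h.overlap h1 h2
  have ne : ¬ (p = p' ∧ q = q' ∧ t = t') := by
    rintro ⟨rfl, rfl, rfl⟩
    unfold Bd at b1
    rcases h3 with h3 | h3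
    · exact h3.2.2.2.1 ⟨hw, by omega, by omega⟩
    · omega
  have e : p' = p ∧ q' = q - k ∧ t'.n ≠ 0 := by
    by_contra hc
    have h4 := h3.weak
    unfold Bd at b1 b2
    have : p - k < p' ∧ p' < p + k ∧ q - k < q' ∧ q' < q + k := by
      clear ov ne h3
      rcases h4 with h4 | h4 | h4 | h4 | h4 <;> omega
    exact ne (ov this.1 this.2.1 this.2.2.1 this.2.2.2)
  obtain ⟨rfl, rfl, e⟩ := e
  refine ⟨t', h2, ?_⟩
  by_contra hc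
  unfold Bd at b1 b2
  refine ne (h.disj (p' + 2 + t.s) (q - 2) _ _ _ _ _ _ h1 h2 (.inr (.inr (.inr (.inr ?_))))
    (.core ?_ ?_ ?_ ?_ ?_ ?_ ?_ ?_)) <;> clear ov ne h3 <;> omega

theorem PT.east (h : PT k A) {p q : ℤ} {t : Tl} (h1 : A p q t) (hw : t.e ≠ 0) :
    ∃ t', A (p + k) q t' ∧ t'.w = t.e := by
  obtain ⟨p', q', t', h2, h3⟩ := h.cover (p + k - 2) (q + 2 + t.e)
  have b1 := h.bd _ _ _ h1
  have b2 := h.bd _ _ _ h2
  have ov := h.overlap h1 h2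
  have ne : ¬ (p = p' ∧ q = q' ∧ t = t') := by
    rintro ⟨rfl, rfl, rfl⟩
    unfold Bd at b1
    rcases h3 with h3 | h3
    · exact h3.2.2.1 ⟨hw, by omega, by omega⟩
    · omega
  have e : p' = p + k ∧ q' = q + t.e - t'.w ∧ t'.w ≠ 0 := by
    by_contra hc
    have h4 := h3.weak
    unfold Bd at b1 b2
    have : p - k < p' ∧ p' < p + k ∧ q - k < q' ∧ q' < q + k := by
      clear ov ne h3
      rcases h4 with h4 | h4 | h4 | h4 | h4 <;> omega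
    exact ne (ov this.1 this.2.1 this.2.2.1 this.2.2.2)
  obtain ⟨rfl, e1, e⟩ := e
  obtain ⟨t'', h4, h5⟩ := h.west h2 e
  unfold Bd at b1 b2
  obtain ⟨-, rfl, rfl⟩ := h.overlap h1 h4 (by omega) (by omega) (by omega) (by omega)
  exact ⟨t', h2, h5.symm⟩

theorem PT.north (h : PT k A) {p q : ℤ} {t : Tl} (h1 : A p q t) (hw : t.n ≠ 0) :
    ∃ t', A p (q + k) t' ∧ t'.s = t.n := by
  obtain ⟨p', q', t', h2, h3⟩ := h.cover (p + 2 + t.n) (q + k - 2)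
  have b1 := h.bd _ _ _ h1
  have b2 := h.bd _ _ _ h2
  have ov := h.overlap h1 h2
  have ne : ¬ (p = p' ∧ q = q' ∧ t = t') := by
    rintro ⟨rfl, rfl, rfl⟩
    unfold Bd at b1
    rcases h3 with h3 | h3
    · exact h3.2.2.2.2 ⟨hw, by omega, by omega⟩
    · omega
  have e : p' = p + t.n - t'.s ∧ q' = q + k ∧ t'.s ≠ 0 := by
    by_contra hc
    have h4 := h3.weak
    unfold Bd at b1 b2
    have : p - k < p' ∧ p' < p + k ∧ q - k < q' ∧ q' < q + k := by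
      clear ov ne h3
      rcases h4 with h4 | h4 | h4 | h4 | h4 <;> omega
    exact ne (ov this.1 this.2.1 this.2.2.1 this.2.2.2)
  obtain ⟨e1, rfl, e⟩ := e
  obtain ⟨t'', h4, h5⟩ := h.south h2 e
  unfold Bd at b1 b2
  obtain ⟨rfl, -, rfl⟩ := h.overlap h1 h4 (by omega) (by omega) (by omega) (by omega)
  exact ⟨t', h2, h5.symm⟩

/-- in a tiling with periods coprime to `k` there is no infinite straight chain -/
theorem PT.chain (h : PT k A) {N : ℤ} (hN : IsCoprime k N) (hN0 : 0 < N)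
    (per : ∀ p q t c d, A p q t → A (p + N * c) (q + N * d) t) (p q dx dy : ℤ)
    (hd : |dx| + |dy| = 1) : ¬ ∀ j : ℕ, ∃ t, A (p + k * j * dx) (q + k * j * dy) t := by
  intro hc
  obtain ⟨u, v, huv⟩ := hN
  obtain ⟨t0, h0⟩ := hc 0
  obtain ⟨t1, h1⟩ := hc (u % N).toNat
  rw [Int.toNat_of_nonneg (Int.emod_nonneg _ hN0.ne')] at h1
  have h2 := per _ _ _ ((v + k * (u / N)) * dx) ((v + k * (u / N)) * dy) h1
  have e : k * (u % N) + N * (v + k * (u / N)) = 1 := by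
    have := Int.emod_add_mul_ediv u N
    linear_combination huv + k * this
  have e1 : p + k * (u % N) * dx + N * ((v + k * (u / N)) * dx) = p + dx := by
    linear_combination dx * e
  have e2 : q + k * (u % N) * dy + N * ((v + k * (u / N)) * dy) = q + dy := by
    linear_combination dy * e
  rw [e1, e2] at h2
  have b := h.bd _ _ _ h0
  unfold Bd at b
  simp only [Nat.cast_zero, mul_zero, zero_mul, add_zero] at h0
  have := abs_le.1 (show |dx| ≤ 1 by linarith [abs_nonneg dy])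
  have := abs_le.1 (show |dy| ≤ 1 by linarith [abs_nonneg dx])
  obtain ⟨e3, e4, -⟩ := h.overlap h0 h2 (by omega) (by omega) (by omega) (by omega)
  rw [show dx = 0 by omega, show dy = 0 by omega] at hd
  simp at hd

structure Grid (k : ℤ) (Dm : ℤ → ℤ → Prop) (τ : ℤ → ℤ → Tl) : Prop where
  bd : ∀ i j, Dm i j → Bd k (τ i j)
  e : ∀ i j, Dm i j → (τ i j).e ≠ 0 → Dm (i + 1) j ∧ (τ (i + 1) j).w = (τ i j).e
  w : ∀ i j, Dm i j → (τ i j).w ≠ 0 → Dm (i - 1) j ∧ (τ (i - 1) j).e = (τ i j).w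
  n : ∀ i j, Dm i j → (τ i j).n ≠ 0 → Dm i (j + 1) ∧ (τ i (j + 1)).s = (τ i j).n
  s : ∀ i j, Dm i j → (τ i j).s ≠ 0 → Dm i (j - 1) ∧ (τ i (j - 1)).n = (τ i j).s
  x : ∀ i j j', Dm i j → Dm (i + 1) j' → (τ i j).e ≠ 0
  y : ∀ i j i', Dm i j → Dm i' (j + 1) → (τ i j).n ≠ 0

variable {Dm : ℤ → ℤ → Prop} {τ : ℤ → ℤ → Tl}

theorem Grid.cover (h : Grid k Dm τ) {i j x y : ℤ} (h1 : Dm i j)
    (h2 : Rect k (τ i j) (x - k * i) (y - k * j)) :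
    ∃ i' j', Dm i' j' ∧ In k (τ i' j') (x - k * i') (y - k * j') := by
  by_cases c1 : (τ i j).w ≠ 0 ∧ x - k * i = 1 ∧ y - k * j = 3
  · obtain ⟨h3, h4⟩ := h.w i j h1 c1.1
    refine ⟨_, _, h3, .inr (.inl ?_)⟩
    rw [mul_sub, mul_one]; omega
  by_cases c2 : (τ i j).e ≠ 0 ∧ x - k * i = k - 2 ∧ y - k * j = 2 + (τ i j).e
  · obtain ⟨h3, h4⟩ := h.e i j h1 c2.1
    refine ⟨_, _, h3, .inr (.inr (.inl ?_))⟩
    rw [mul_add, mul_one]; omega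
  by_cases c3 : (τ i j).s ≠ 0 ∧ x - k * i = 3 ∧ y - k * j = 1
  · obtain ⟨h3, h4⟩ := h.s i j h1 c3.1
    refine ⟨_, _, h3, .inr (.inr (.inr (.inl ?_)))⟩
    rw [mul_sub, mul_one]; omega
  by_cases c4 : (τ i j).n ≠ 0 ∧ x - k * i = 2 + (τ i j).n ∧ y - k * j = k - 2
  · obtain ⟨h3, h4⟩ := h.n i j h1 c4.1
    refine ⟨_, _, h3, .inr (.inr (.inr (.inr ?_)))⟩
    rw [mul_add, mul_one]; omega
  exact ⟨i, j, h1, .inl ⟨h2, c1, c2, c3, c4⟩⟩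

theorem Grid.inside (h : Grid k Dm τ) {i j x y : ℤ} (h1 : Dm i j)
    (h2 : In k (τ i j) (x - k * i) (y - k * j)) :
    ∃ i' j', Dm i' j' ∧ Rect k (τ i' j') (x - k * i') (y - k * j') := by
  have b := h.bd i j h1
  unfold Bd at b
  rcases h2 with h2 | h2 | h2 | h2 | h2
  · exact ⟨i, j, h1, h2.1⟩
  · refine ⟨_, _, (h.e i j h1 h2.1).1, ?_⟩
    rw [mul_add, mul_one]; unfold Rect; omega
  · refine ⟨_, _, (h.w i j h1 h2.1).1, ?_⟩
    rw [mul_sub, mul_one]; unfold Rect; omega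
  · refine ⟨_, _, (h.n i j h1 h2.1).1, ?_⟩
    rw [mul_add, mul_one]; unfold Rect; omega
  · refine ⟨_, _, (h.s i j h1 h2.1).1, ?_⟩
    rw [mul_sub, mul_one]; unfold Rect; omega

theorem near {k x i i' : ℤ} (hk : 7 ≤ k) (h1 : -2 ≤ x - k * i) (h2 : x - k * i ≤ k + 1)
    (h3 : -2 ≤ x - k * i') (h4 : x - k * i' ≤ k + 1) : i' = i - 1 ∨ i' = i ∨ i' = i + 1 := by
  have : i' < i + 2 := by by_contra h; nlinarith
  have : i - 2 < i' := by by_contra h; nlinarith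
  omega

theorem In.bds {t : Tl} {x y : ℤ} (b : Bd k t) (h : In k t x y) :
    -2 ≤ x ∧ x ≤ k + 1 ∧ -2 ≤ y ∧ y ≤ k + 1 := by
  unfold Bd at b
  rcases h.weak with h | h | h | h | h <;> omega

theorem adjE {t t' : Tl} {x y : ℤ} (b : Bd k t) (b' : Bd k t') (he : t.e ≠ 0) (hm : t'.w = t.e)
    (h : In k t x y) (h' : In k t' (x - k) y) : False := by
  unfold Bd at b b'
  rcases h with ⟨h, -, h2, -⟩ | h | h | h | h <;> rcases h' with ⟨h', h3, -⟩ | h' | h' | h' | h' <;>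
    (try unfold Rect at h) <;> (try unfold Rect at h') <;> omega

theorem adjN {t t' : Tl} {x y : ℤ} (b : Bd k t) (b' : Bd k t') (he : t.n ≠ 0) (hm : t'.s = t.n)
    (h : In k t x y) (h' : In k t' x (y - k)) : False := by
  unfold Bd at b b'
  rcases h with ⟨h, -, -, -, h2⟩ | h | h | h | h <;>
    rcases h' with ⟨h', -, -, h3, -⟩ | h' | h' | h' | h' <;>
    (try unfold Rect at h) <;> (try unfold Rect at h') <;> omega

theorem adjD {t t' : Tl} {x y d : ℤ} (b : Bd k t) (b' : Bd k t') (he : t.e ≠ 0)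
    (hd : (d = k ∧ t.n ≠ 0) ∨ (d = -k ∧ t'.n ≠ 0))
    (h : In k t x y) (h' : In k t' (x - k) (y - d)) : False := by
  unfold Bd at b b'
  rcases hd with ⟨rfl, hd⟩ | ⟨rfl, hd⟩ <;> rcases h with ⟨h, -⟩ | h | h | h | h <;>
    rcases h' with ⟨h', -⟩ | h' | h' | h' | h' <;>
    (try unfold Rect at h) <;> (try unfold Rect at h') <;> omega

theorem Grid.disj (h : Grid k Dm τ) {i j i' j' x y : ℤ} (h1 : Dm i j) (h2 : Dm i' j')
    (h3 : In k (τ i j) (x - k * i) (y - k * j)) (h4 : In k (τ i' j') (x - k * i') (y - k * j')) :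
    i = i' ∧ j = j' := by
  wlog hle : i < i' ∨ (i = i' ∧ j ≤ j') generalizing i j i' j'
  · exact (this h2 h1 h4 h3 (by omega)).imp .symm .symm
  have b1 := h.bd i j h1
  have b2 := h.bd i' j' h2
  have c1 := h3.bds b1
  have c2 := h4.bds b2
  have hk : 7 ≤ k := by have := b1.1; omega
  have hi := near hk c1.1 c1.2.1 c2.1 c2.2.1
  have hj := near hk c1.2.2.1 c1.2.2.2 c2.2.2.1 c2.2.2.2
  have e1 : ∀ x i, x - k * (i + 1) = x - k * i - k := fun x i => by ring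
  have e2 : ∀ x i, x - k * (i - 1) = x - k * i - -k := fun x i => by ring
  rcases hle with hle | ⟨rfl, hle⟩
  · obtain rfl : i' = i + 1 := by omega
    have he := h.x i j j' h1 h2
    exfalso
    rw [e1] at h4
    rcases hj with rfl | rfl | rfl
    · rw [e2] at h4
      exact adjD b1 b2 he (.inr ⟨rfl, h.y _ _ i h2 (by simpa using h1)⟩) h3 h4
    · exact adjE b1 b2 he (h.e _ _ h1 he).2 h3 h4
    · rw [e1] at h4
      exact adjD b1 b2 he (.inl ⟨rfl, h.y _ _ _ h1 h2⟩) h3 h4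
  · rcases hj with rfl | rfl | rfl
    · omega
    · exact ⟨rfl, rfl⟩
    · rw [e1] at h4
      have he := h.y _ _ _ h1 h2
      exact (adjN b1 b2 he (h.n _ _ h1 he).2 h3 h4).elim

end Pool.Agent.H52.CT
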