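import Pool.Agent.H52.LT4
import Pool.Agent.H30.MulM

namespace Pool.Agent.H52.LT

open Equiv Function Relation Pool.Agent.H38.CM
open Pool.Agent.H30.MulM (St entry jmp K K' K_entry)

def rgW : (w : W) → St w → ℕ
  | .inc r, _ => r
  | .skip, _ => 0
  | .seq a _, .inl s => rgW a s
  | .seq _ b, .inr s => rgW b s
  | .loop r _, none => r
  | .loop _ b, some s => rgW b s

def thW : (w : W) → St w → ℕ
  | .inc _, _ => 0
  | .skip, _ => 0
  | .seq a _, .inl s => thW a s
  | .seq _ b, .inr s => thW b s
  | .loop _ _, none => 1
  | .loop _ b, some s => thW b s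

def exW : (w : W) → St w → Bool → ℕ
  | .inc _, _, _ => 0
  | .skip, _, _ => 1
  | .seq a _, .inl s, x => exW a s x
  | .seq _ b, .inr s, x => exW b s x
  | .loop _ _, none, x => if x then 1 else 2
  | .loop _ b, some s, x => exW b s x

def nxW : (w : W) → St w → Bool → Option (St w)
  | .inc _, _, _ => none
  | .skip, _, _ => none
  | .seq a b, .inl s, x => jmp .inl (some (.inr (entry b))) (nxW a s x)
  | .seq _ b, .inr s, x => jmp .inr none (nxW b s x)
  | .loop _ b, none, x => if x then none else some (some (entry b))
  | .loop _ b, some s, x => jmp some (some none) (nxW b s x)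

def MW (w : W) : Mach (St w) := ⟨entry w, rgW w, nxW w, exW w⟩

def Stp {Q : Type} (M : Mach Q) (th : Q → ℕ) (c d : Option Q × (ℕ → ℕ)) : Prop :=
  c.1 ≠ none ∧ d = stp M th c

theorem lift {Q Q' : Type} {M : Mach Q} {th : Q → ℕ} {M' : Mach Q'} {th' : Q' → ℕ} (f : Q → Q')
    (e : Option Q') (h1 : ∀ s, M'.rg (f s) = M.rg s) (h2 : ∀ s, th' (f s) = th s)
    (h3 : ∀ s x, M'.ex (f s) x = M.ex s x) (h4 : ∀ s x, M'.nx (f s) x = jmp f e (M.nx s x))
    {c d : Option Q × (ℕ → ℕ)} (hr : ReflTransGen (Stp M th) c d) :
    ReflTransGen (Stp M' th') (jmp f e c.1, c.2) (jmp f e d.1, d.2) := by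
  induction hr with
  | refl => exact ReflTransGen.refl
  | @tail b _ _ hs ih =>
    obtain ⟨e1, rfl⟩ := hs
    rcases b with ⟨_ | s, v⟩
    · exact absurd rfl e1
    · refine ih.tail ⟨by simp [jmp], ?_⟩
      simp [stp, jmp, tst, upd, h1, h2, h3, h4]

theorem run_of_ev {w : W} {v v' : ℕ → ℕ} (h : Ev w v v') :
    ReflTransGen (Stp (MW w) (thW w)) (some (entry w), v) (none, v') := by
  induction h with
  | inc r v => exact .single ⟨by simp, by simp [stp, MW, nxW, upd, rgW, exW]⟩
  | skip v => exact .single ⟨by simp, by simp [stp, MW, nxW, upd, rgW, exW]⟩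
  | @seq a b _ _ _ _ _ r1 r2 =>
    exact (lift (M' := MW (.seq a b)) (th' := thW (.seq a b)) .inl (some (.inr (entry b)))
      (fun _ => rfl) (fun _ => rfl) (fun _ _ => rfl) (fun _ _ => rfl) r1).trans
      (lift (M' := MW (.seq a b)) (th' := thW (.seq a b)) .inr none
      (fun _ => rfl) (fun _ => rfl) (fun _ _ => rfl) (fun _ _ => rfl) r2)
  | @l0 r b v h0 =>
    exact .single ⟨by simp, by simp [stp, MW, nxW, upd, rgW, exW, entry, tst, thW, h0]⟩
  | @l1 r b v u w n h0 _ _ r1 r2 =>
    refine ReflTransGen.head (b := (some (some (entry b)), update v r n))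
      ⟨by simp, by simp [stp, MW, nxW, upd, rgW, exW, entry, tst, thW, h0]; rfl⟩ ?_
    exact (lift (M' := MW (.loop r b)) (th' := thW (.loop r b)) some (some none)
      (fun _ => rfl) (fun _ => rfl) (fun _ _ => rfl) (fun _ _ => rfl) r1).trans r2

theorem K_step : ∀ (w : W) (s : St w) (x : Bool) (v : ℕ → ℕ),
    x = decide (v (rgW w s) < thW w s) → ∀ v', K' w (nxW w s x)
      (update v (rgW w s) (v (rgW w s) + 1 - exW w s x)) v' → K w s v v'
  | .inc r, _, x, v, _, v', h => by
    obtain rfl : v' = _ := h
    exact Ev.inc _ _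
  | .skip, _, x, v, _, v', h => by
    obtain rfl : v' = v := by simpa [nxW, K', exW] using h
    exact Ev.skip _
  | .seq a c, .inl s, x, v, hx, v', h' => by
    have := K_step a s x v hx
    simp only [nxW] at h'
    rcases e : nxW a s x with _ | t <;> rw [e] at h' this
    · exact ⟨_, this _ rfl, K_entry c h'⟩
    · obtain ⟨u, h1, h2⟩ := h'
      exact ⟨u, this u h1, h2⟩
  | .seq a c, .inr s, x, v, hx, v', h' => by
    have := K_step c s x v hx v'
    simp only [nxW] at h'
    rcases e : nxW c s x with _ | t <;> rw [e] at h' this <;> exact this h'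
  | .loop r c, none, true, v, hx, v', h => by
    have hv : v r = 0 := by simpa [rgW, thW] using hx
    obtain rfl : v' = v := by simpa [K', nxW, exW] using h
    exact Ev.l0 hv
  | .loop r c, none, false, v, hx, v', h => by
    have hv : v r ≠ 0 := by simpa [rgW, thW] using hx
    obtain ⟨u, h1, h2⟩ := h
    exact Ev.l1 (n := v r + 1 - 2) (by omega) (K_entry c h1) h2
  | .loop r c, some s, x, v, hx, v', h' => by
    have := K_step c s x v hx
    simp only [nxW] at h'
    rcases e : nxW c s x with _ | t <;> rw [e] at h' this
    · exact ⟨_, this _ rfl, h'⟩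
    · obtain ⟨u, h1, h2⟩ := h'
      exact ⟨u, this u h1, h2⟩

theorem exW_le : ∀ (w : W) (s : St w) (m : ℕ), exW w s (decide (m < thW w s)) ≤ m + 1
  | .inc _, _, _ => by simp [exW]
  | .skip, _, _ => by simp [exW]
  | .seq a _, .inl s, m => exW_le a s m
  | .seq _ b, .inr s, m => exW_le b s m
  | .loop _ _, none, m => by
    simp only [exW, thW, decide_eq_true_eq]; split_ifs <;> omega
  | .loop _ b, some s, m => exW_le b s m

def MM (w : W) : Mach (Option (Option (St w))) where
  q0 := none
  rg := fun | some (some s) => rgW w s | _ => 0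
  nx := fun
    | none, _ => some (some none)
    | some none, x => if x then some (some none) else some (some (some (entry w)))
    | some (some s), x => jmp (fun s => some (some s)) none (nxW w s x)
  ex := fun
    | none, _ => 1
    | some none, x => if x then 0 else 1
    | some (some s), x => exW w s x

def thM (w : W) (n : ℕ) : Option (Option (St w)) → ℕ
  | none => 0
  | some none => n
  | some (some s) => thW w s

theorem wfM (w : W) (n : ℕ) : WF (MM w) (thM w n) := by
  constructor
  · rintro (_ | _ | s) b
    · simp [MM]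
    · cases b <;> simp [MM]
    · simp only [MM]
      cases nxW w s b <;> simp [jmp]
  · rintro (_ | _ | s) v
    · simp [MM]
    · simp only [MM]; split_ifs <;> omega
    · exact exW_le w s _

theorem halt_iff (w : W) (n : ℕ) :
    (∃ m, ((stp (MM w) (thM w n))^[m] (some (MM w).q0, 0)).1 = none) ↔ ∃ v, Ev w (init n) v := by
  constructor
  · rintro ⟨m, hm⟩
    let KK : Option (Option (Option (St w))) × (ℕ → ℕ) → Prop := fun
      | (none, _) => True
      | (some none, v) => v = 0 → ∃ u, Ev w (init n) u
      | (some (some none), v) => ∀ i ≤ n, v = init i → ∃ u, Ev w (init n) u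
      | (some (some (some s)), v) => ∃ u, K w s v u
    have key : ∀ c, KK (stp (MM w) (thM w n) c) → KK c := by
      rintro ⟨_ | _ | _ | s, v⟩ h
      · trivial
      · rintro rfl
        exact h 0 (Nat.zero_le _) (by simp [upd, MM, init]; rfl)
      · rintro i hi rfl
        by_cases hn : i < n
        · have e : stp (MM w) (thM w n) (some (some none), init i) =
              (some (some none), init (i + 1)) := by
            simp [stp, MM, tst, thM, upd, init, hn]
          rw [e] at h
          exact h _ hn rfl
        · obtain rfl : i = n := by omega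
          have e : stp (MM w) (thM w i) (some (some none), init i) =
              (some (some (some (entry w))), init i) := by
            simp [stp, MM, tst, thM, upd, init]
          rw [e] at h
          obtain ⟨u, hu⟩ := h
          exact ⟨u, K_entry w hu⟩
      · have := K_step w s _ v rfl
        change KK (jmp (fun s => some (some s)) none (nxW w s (decide (v (rgW w s) < thW w s))),
          update v (rgW w s) (v (rgW w s) + 1 - exW w s (decide (v (rgW w s) < thW w s)))) at h
        rcases e : nxW w s (decide (v (rgW w s) < thW w s)) with _ | t <;> rw [e] at h this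
        · exact ⟨_, this _ rfl⟩
        · obtain ⟨u, hu⟩ := h
          exact ⟨u, this u hu⟩
    have key2 : ∀ m c, ((stp (MM w) (thM w n))^[m] c).1 = none → KK c := by
      intro m
      induction m with
      | zero => rintro ⟨_, v⟩ (rfl : _ = none); trivial
      | succ m ih => exact fun c h => key c (ih _ h)
    exact key2 m _ hm rfl
  · rintro ⟨v, hv⟩
    have r1 := lift (M' := MM w) (th' := thM w n) (fun s => some (some s)) none
      (fun _ => rfl) (fun _ => rfl) (fun _ _ => rfl) (fun _ _ => rfl) (run_of_ev hv)
    have r2 : ∀ i ≤ n, ReflTransGen (Stp (MM w) (thM w n)) (some none, 0)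
        (some (some none), init i) := by
      intro i
      induction i with
      | zero => exact fun _ => .single ⟨by simp, by simp [stp, MM, upd, init]; rfl⟩
      | succ i ih =>
        intro hi
        refine (ih (by omega)).tail ⟨by simp, ?_⟩
        simp [stp, MM, tst, thM, upd, init, show i < n by omega]
    have r3 := ((r2 n le_rfl).tail (c := (some (some (some (entry w))), init n))
      ⟨by simp, by simp [stp, MM, tst, thM, upd, init]⟩).trans r1
    have key : ∀ c d, ReflTransGen (Stp (MM w) (thM w n)) c d →
        ∃ m, (stp (MM w) (thM w n))^[m] c = d := by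
      intro c d h
      induction h with
      | refl => exact ⟨0, rfl⟩
      | tail _ hs ih =>
        obtain ⟨m, hm⟩ := ih
        exact ⟨m + 1, by rw [iterate_succ_apply', hm, hs.2]⟩
    obtain ⟨m, hm⟩ := key _ _ r3
    exact ⟨m, congrArg Prod.fst hm⟩

end Pool.Agent.H52.LT
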