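import Pool.Agent.H52.CT3
import Pool.Agent.H52.LT5

/-! A Wang system with flat borders simulating a counter machine. -/

set_option autoImplicit false

namespace Pool.Agent.H52.CT

open Pool.Agent.H52.LT Pool.Agent.H38.CM Function

inductive Col (Q : Type) : Type
  | fl | rt | top | star
  | st (o : Option Q) | bt (β : Q → Bool) | mv (s : Q) (x u v : Bool) | cnt (j : ℕ)

open Col

variable {Q : Type} (M : Mach Q) (th : Q → ℕ)

def nb (s : Q) (x u v : Bool) (β : Q → Bool) : Q → Bool := fun s' =>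
  if M.rg s' = M.rg s then (if M.ex s x = 0 then u else if M.ex s x = 1 then β s' else v) else β s'

inductive Til (n : ℕ) : Col Q → Col Q → Col Q → Col Q → Prop
  | c1 : Til n fl (cnt n) fl (st (some M.q0))
  | c2 (j : ℕ) : j < n → Til n (cnt (j + 1)) (cnt j) fl (bt fun s => decide (M.rg s = 0))
  | c3 : Til n (cnt 0) (cnt 0) fl (bt fun _ => false)
  | c4 : Til n (cnt 0) fl fl rt
  | c5 (s : Q) (y : Bool) : Til n fl (mv s (decide (th s = 1 ∧ y = false)) true y) (st (some s))
      (st (M.nx s (decide (th s = 1 ∧ y = false))))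
  | c6 (s : Q) (x u v : Bool) (β : Q → Bool) :
      Til n (mv s x u (β s)) (mv s x (β s) v) (bt β) (bt (nb M s x u v β))
  | c7 (s : Q) (x u : Bool) : ¬ (M.ex s x = 0 ∧ u = true) → Til n (mv s x u false) fl rt rt
  | c8 : Til n fl top (st none) fl
  | c9 (β : Q → Bool) : Til n top top (bt β) fl
  | c10 : Til n top fl rt fl
  | c11 : Til n star star star star

def bits (v : ℕ → ℕ) (i : ℕ) : Q → Bool := fun s => decide (i < v (M.rg s))

variable {M th}

theorem nb_bits (hex : ∀ s x, M.ex s x ≤ 2) (s : Q) (x : Bool) (v : ℕ → ℕ) (i : ℕ) :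
    nb M s x (decide (i ≤ v (M.rg s))) (decide (i + 1 < v (M.rg s))) (bits M v i) =
      bits M (upd M s x v) i := by
  funext s'
  have := hex s x
  unfold nb bits upd
  split_ifs with h h0 h1
  · rw [h, update_self, h0]; simp [Nat.lt_succ_iff]
  · rw [h, update_self, h1]; simp
  · rw [h, update_self, show M.ex s x = 2 by omega]; simp; omega
  · rw [update_of_ne h]

theorem tst_eq (hth : ∀ s, th s ≤ 1) (s : Q) (v : ℕ → ℕ) :
    decide (th s = 1 ∧ decide (0 < v (M.rg s)) = false) = tst M th s v := by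
  have := hth s
  unfold tst
  simp only [decide_eq_false_iff_not, decide_eq_decide]
  omega

structure WS (M : Mach Q) (th : Q → ℕ) (n : ℕ)
    (B : ℤ → ℤ → Col Q → Col Q → Col Q → Col Q → Prop) : Prop where
  til : ∀ {i j a b c d}, B i j a b c d → Til M th n a b c d
  fn : ∀ {i j a b c d a' b' c' d'}, B i j a b c d → B i j a' b' c' d' →
    a = a' ∧ b = b' ∧ c = c' ∧ d = d'
  w : ∀ {i j a b c d}, B i j a b c d → a ≠ fl → ∃ a' c' d', B (i - 1) j a' a c' d'
  e : ∀ {i j a b c d}, B i j a b c d → b ≠ fl → ∃ b' c' d', B (i + 1) j b b' c' d'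
  s : ∀ {i j a b c d}, B i j a b c d → c ≠ fl → ∃ a' b' c', B i (j - 1) a' b' c' c
  n : ∀ {i j a b c d}, B i j a b c d → d ≠ fl → ∃ a' b' d', B i (j + 1) a' b' d d'
  ch : ∀ i j dx dy : ℤ, |dx| + |dy| = 1 → ¬ ∀ m : ℕ, ∃ a b c d, B (i + m * dx) (j + m * dy) a b c d

variable {n : ℕ} {B : ℤ → ℤ → Col Q → Col Q → Col Q → Col Q → Prop}

theorem WS.stop (h : WS M th n B) (I : ℕ → Col Q → Col Q → Col Q → Col Q → Prop) (i j dx dy : ℤ)
    (hd : |dx| + |dy| = 1) (h0 : ∃ a b c d, B i j a b c d ∧ I 0 a b c d)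
    (hs : ∀ (m : ℕ) a b c d, B (i + m * dx) (j + m * dy) a b c d → I m a b c d →
      ∃ a b c d, B (i + m * dx + dx) (j + m * dy + dy) a b c d ∧ I (m + 1) a b c d) : False := by
  refine h.ch i j dx dy hd fun m => ?_
  have : ∃ a b c d, B (i + m * dx) (j + m * dy) a b c d ∧ I m a b c d := by
    induction m with
    | zero => simpa using h0
    | succ m ih =>
      obtain ⟨a, b, c, d, h1, h2⟩ := ih
      simpa [add_mul, add_assoc] using hs m a b c d h1 h2
  obtain ⟨a, b, c, d, h1, -⟩ := this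
  exact ⟨a, b, c, d, h1⟩

theorem WS.corner (h : WS M th n B) (h0 : ∃ i j a b c d, B i j a b c d) :
    ∃ i j, B i j fl (cnt n) fl (st (some M.q0)) := by
  obtain ⟨i, j, a, b, c, d, h0⟩ := h0
  obtain ⟨i, j, b, c, d, h1⟩ : ∃ i j b c d, B i j fl b c d := by
    by_contra hc
    push Not at hc
    refine h.stop (fun _ _ _ _ _ => True) i j (-1) 0 (by simp) ⟨a, b, c, d, h0, trivial⟩
      fun m a b c d h1 _ => ?_
    obtain ⟨a', c', d', h2⟩ := h.w h1 (by rintro rfl; exact hc _ _ _ _ _ h1)
    exact ⟨_, _, _, _, by simpa [sub_eq_add_neg] using h2, trivial⟩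
  by_contra hc
  push Not at hc
  refine h.stop (fun _ a _ _ _ => a = fl) i j 0 (-1) (by simp) ⟨_, b, c, d, h1, rfl⟩
    fun m a b c d h1 e => ?_
  subst e
  have key : ∃ o, c = st o := by
    have := h.til h1
    cases this
    · exact absurd h1 (hc _ _)
    · exact ⟨_, rfl⟩
    · exact ⟨_, rfl⟩
  obtain ⟨o, rfl⟩ := key
  obtain ⟨a', b', c', h2⟩ := h.s h1 (by simp)
  refine ⟨_, _, _, _, by simpa [sub_eq_add_neg] using h2, ?_⟩
  have := h.til h2
  cases this <;> rfl

def Row (M : Mach Q) (B : ℤ → ℤ → Col Q → Col Q → Col Q → Col Q → Prop) (i0 : ℤ) (m : ℕ) (j : ℤ)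
    (c : Option Q × (ℕ → ℕ)) : Prop :=
  (∃ a b s, B i0 j a b s (st c.1)) ∧ (∀ i < m, ∃ a b s, B (i0 + i + 1) j a b s (bt (bits M c.2 i))) ∧
    (∃ a b s, B (i0 + m + 1) j a b s rt) ∧ ∀ s, c.2 (M.rg s) ≤ m

theorem WS.row0 (h : WS M th n B) {i j : ℤ} (h0 : B i j fl (cnt n) fl (st (some M.q0))) :
    ∃ m, Row M B i m j (some M.q0, init n) := by
  have hi : ∀ s, init n (M.rg s) = if M.rg s = 0 then n else 0 := fun s => by
    simp [init, update_apply]
  by_contra hc
  push Not at hc
  refine h.stop (fun m _ b _ _ => b = cnt (n - m) ∧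
    ∀ l < m, ∃ a b s, B (i + l + 1) j a b s (bt (bits M (init n) l))) i j 1 0 (by simp)
    ⟨_, _, _, _, h0, rfl, by simp⟩ fun m a b c d h1 ⟨e, h2⟩ => ?_
  subst e
  obtain ⟨b', c', d', h3⟩ := h.e h1 (by simp)
  simp only [mul_one, mul_zero, add_zero] at h3 ⊢
  refine ⟨_, _, _, _, h3, ?_⟩
  have h4 := h.til h3
  generalize e : n - m = r at h3 h4
  have step : ∀ β, d' = bt β → β = bits M (init n) m → ∀ l < m + 1, ∃ a b s,
      B (i + l + 1) j a b s (bt (bits M (init n) l)) := by
    rintro β rfl rfl l hl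
    rcases Nat.lt_succ_iff_lt_or_eq.1 hl with hl | rfl
    · exact h2 l hl
    · exact ⟨_, _, _, h3⟩
  cases h4
  · refine ⟨by congr 1; omega, step _ rfl (funext fun s => ?_)⟩
    rw [bits, hi]; split_ifs with h5 <;> simp [h5]; omega
  · refine ⟨by congr 1; omega, step _ rfl (funext fun s => ?_)⟩
    rw [bits, hi]; split_ifs with h5 <;> simp; omega
  · refine absurd ⟨⟨_, _, _, h0⟩, h2, ⟨_, _, _, h3⟩, fun s => ?_⟩ (hc m)
    dsimp only
    rw [hi]; split_ifs <;> omega

theorem WS.rowS (h : WS M th n B) (hex : ∀ s x, M.ex s x ≤ 2) (hth : ∀ s, th s ≤ 1) {i j : ℤ}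
    {m : ℕ} {s : Q} {v : ℕ → ℕ} (h0 : Row M B i m j (some s, v)) :
    Row M B i m (j + 1) (stp M th (some s, v)) := by
  obtain ⟨⟨a, b, c, h1⟩, h2, ⟨a', b', c', h3⟩, h4⟩ := h0
  obtain ⟨a1, b1, d1, h5⟩ := h.n h1 (by simp)
  obtain ⟨a2, b2, d2, h6⟩ := h.n h3 (by simp)
  have h7 := h.til h5
  cases h7 with | c5 _ y => ?_
  set x := decide (th s = 1 ∧ y = false) with hx
  have nxt : ∀ l ≤ m, ∀ a u y c d, B (i + l) (j + 1) a (mv s x u y) c d →
      y = decide (l < v (M.rg s)) ∧ (l = m → ¬ (M.ex s x = 0 ∧ u = true)) ∧ (l < m → ∃ y',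
        B (i + l + 1) (j + 1) (mv s x u y) (mv s x y y') (bt (bits M v l))
          (bt (nb M s x u y' (bits M v l)))) := by
    intro l hl a u y c d h8
    obtain ⟨b', c', d', h9⟩ := h.e h8 (by simp)
    have h10 := h.til h9
    rcases hl.lt_or_eq with hl | rfl
    · obtain ⟨a, b, c, h11⟩ := h2 l hl
      obtain ⟨a1, b1, d1, h12⟩ := h.n h11 (by simp)
      obtain rfl := (h.fn h9 h12).2.2.1
      cases h10
      exact ⟨rfl, fun e => absurd e hl.ne, fun _ => ⟨_, h9⟩⟩
    · obtain rfl := (h.fn h9 h6).2.2.1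
      cases h10 with | c7 _ _ _ h11 => ?_
      exact ⟨by simpa using h4 s, fun _ => h11, fun e => absurd e (lt_irrefl _)⟩
  have all : ∀ l ≤ m, ∃ a c d,
      B (i + l) (j + 1) a (mv s x (decide (l ≤ v (M.rg s))) (decide (l < v (M.rg s)))) c d := by
    intro l
    induction l with
    | zero =>
      intro hl
      have h8 := h5
      rw [show i = i + (0 : ℕ) by simp] at h8
      have := (nxt 0 hl _ _ _ _ _ h8).1
      exact ⟨_, _, _, by simpa [← this] using h8⟩
    | succ l ih =>
      intro hl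
      obtain ⟨a, c, d, h8⟩ := ih (by omega)
      obtain ⟨y', h9⟩ := (nxt l (by omega) _ _ _ _ _ h8).2.2 hl
      have h10 := h9
      rw [show i + l + 1 = i + (l + 1 : ℕ) by simp [add_assoc]] at h10
      have := (nxt (l + 1) hl _ _ _ _ _ h10).1
      exact ⟨_, _, _, this ▸ h10⟩
  have hy : y = decide (0 < v (M.rg s)) :=
    (nxt 0 (Nat.zero_le _) _ _ _ _ _ (by simpa using h5)).1
  have hx' : x = tst M th s v := by rw [hx, hy, tst_eq hth]
  rw [stp, ← hx']
  refine ⟨⟨_, _, _, h5⟩, fun l hl => ?_, ?_, fun s' => ?_⟩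
  · obtain ⟨a, c, d, h8⟩ := all l hl.le
    obtain ⟨y', h9⟩ := (nxt l hl.le _ _ _ _ _ h8).2.2 hl
    have := (nxt (l + 1) hl _ _ _ _ _ (by simpa [add_assoc] using h9)).1
    rw [this, nb_bits hex] at h9
    exact ⟨_, _, _, h9⟩
  · have := h.til h6
    obtain ⟨a, c, d, h8⟩ := all m le_rfl
    obtain ⟨b', c', d', h9⟩ := h.e h8 (by simp)
    have h10 := (h.fn h9 h6).1
    cases this
    · exact ⟨_, _, _, h6⟩
    · cases h10
  · obtain ⟨a, c, d, h8⟩ := all m le_rfl
    have := (nxt m le_rfl _ _ _ _ _ h8).2.1 rfl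
    have h9 := h4 s'
    have h10 := h4 s
    simp only [upd, update_apply, decide_eq_true_eq] at *
    split_ifs <;> omega

theorem WS.halt (h : WS M th n B) (hex : ∀ s x, M.ex s x ≤ 2) (hth : ∀ s, th s ≤ 1)
    (h0 : ∃ i j a b c d, B i j a b c d) :
    ∃ t, ((stp M th)^[t] (some M.q0, init n)).1 = none := by
  obtain ⟨i, j, h1⟩ := h.corner h0
  obtain ⟨m, h2⟩ := h.row0 h1
  by_contra hc
  push Not at hc
  have key : ∀ t : ℕ, Row M B i m (j + t) ((stp M th)^[t] (some M.q0, init n)) := by
    intro t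
    induction t with
    | zero => simpa using h2
    | succ t ih =>
      rw [iterate_succ_apply']
      have := hc t
      rcases e : (stp M th)^[t] (some M.q0, init n) with ⟨_ | s, v⟩ <;> rw [e] at ih this
      · exact absurd rfl this
      · simpa [add_assoc] using h.rowS hex hth ih
  refine h.ch i j 0 1 (by simp) fun t => ?_
  obtain ⟨a, b, c, h3⟩ := (key t).1
  exact ⟨a, b, c, _, by simpa using h3⟩

/-- a halting run gives a rectangle -/
theorem rect_of_halt [Finite Q] (hex : ∀ s x, M.ex s x ≤ 2) (hth : ∀ s, th s ≤ 1)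
    (h : ∃ t, ((stp M th)^[t] (some M.q0, init n)).1 = none) :
    ∃ (W H : ℕ) (hz vt : ℕ → ℕ → Col Q),
      (∀ i ≤ W, ∀ j ≤ H, Til M th n (hz i j) (hz (i + 1) j) (vt i j) (vt i (j + 1))) ∧
      (∀ i ≤ W + 1, ∀ j ≤ H, hz i j = fl ↔ i = 0 ∨ i = W + 1) ∧
      (∀ i ≤ W, ∀ j ≤ H + 1, vt i j = fl ↔ j = 0 ∨ j = H + 1) := by
  classical
  let c : ℕ → Option Q × (ℕ → ℕ) := fun t => (stp M th)^[t] (some M.q0, init n)
  obtain ⟨T, hT, hT'⟩ : ∃ T, (c T).1 = none ∧ ∀ t < T, (c t).1 ≠ none :=
    ⟨_, Nat.find_spec h, fun t ht => Nat.find_min h ht⟩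
  obtain ⟨m, hm, hn⟩ : ∃ m, (∀ t ≤ T, ∀ s, (c t).2 (M.rg s) ≤ m) ∧ n ≤ m := by
    obtain ⟨m, hm⟩ := (Set.finite_range fun p : Fin (T + 1) × Q => (c p.1).2 (M.rg p.2)).bddAbove
    exact ⟨max m n, fun t ht s => le_max_of_le_left (hm ⟨(⟨t, by omega⟩, s), rfl⟩), le_max_right _ _⟩
  let sx : ℕ → Q := fun t => (c t).1.getD M.q0
  refine ⟨m + 1, T + 1, fun i j => if i = 0 ∨ i = m + 2 then fl else if j = 0 then cnt (n - (i - 1))
      else if j = T + 1 then top else mv (sx (j - 1)) (tst M th (sx (j - 1)) (c (j - 1)).2)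
        (decide (i - 1 ≤ (c (j - 1)).2 (M.rg (sx (j - 1)))))
        (decide (i - 1 < (c (j - 1)).2 (M.rg (sx (j - 1))))),
    fun i j => if j = 0 ∨ j = T + 2 then fl else if i = 0 then st (c (j - 1)).1
      else if i = m + 1 then rt else bt (bits M (c (j - 1)).2 (i - 1)), fun i hi j hj => ?_,
    fun i _ j _ => ?_, fun i _ j _ => ?_⟩
  · have hi0 : ∀ s, init n (M.rg s) = if M.rg s = 0 then n else 0 := fun s => by
      simp [init, update_apply]
    rcases j with _ | j
    · rcases i with _ | i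
      · simpa [c] using Til.c1
      · rcases hi.lt_or_eq with hi | hi
        · simp [show i ≠ m + 1 by omega, show i ≠ m by omega, c]
          by_cases hin : i < n
          · have := Til.c2 (M := M) (th := th) (n - (i + 1)) (show _ < n by omega)
            convert this using 2
            · omega
            · funext s; rw [bits, hi0]; split_ifs with h5 <;> simp [h5, hin]
          · convert Til.c3 using 2
            · omega
            · omega
            · funext s; rw [bits, hi0]; split_ifs with h5 <;> simp [hin]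
        · obtain rfl : i = m := by omega
          simpa [show n - i = 0 by omega] using Til.c4
    · rcases hj.lt_or_eq with hj | hj
      · have hjT : j < T := by omega
        have e1 : c j = (some (sx j), (c j).2) := by
          have := hT' j hjT
          rcases e : (c j).1 with _ | s
          · exact absurd e this
          · simp [sx, e, Prod.ext_iff]
        have e2 : c (j + 1) = (M.nx (sx j) (tst M th (sx j) (c j).2),
            upd M (sx j) (tst M th (sx j) (c j).2) (c j).2) := by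
          simp only [c, iterate_succ_apply'] at e1 ⊢
          rw [e1]; rfl
        have e3 : (c j).1 = some (sx j) := congrArg Prod.fst e1
        simp only [show j ≠ T by omega, show j ≠ T + 1 by omega, show j + 1 ≠ T + 1 by omega,
          show j + 1 ≠ T + 2 by omega, show j + 1 + 1 ≠ T + 2 by omega, Nat.add_sub_cancel,
          Nat.add_one_ne_zero, or_self, if_false, e2, e3]
        rcases i with _ | i
        · have := Til.c5 (M := M) (th := th) (n := n) (sx j) (decide (0 < (c j).2 (M.rg (sx j))))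
          rw [tst_eq hth] at this
          simpa using this
        · rcases hi.lt_or_eq with hi | hi
          · have := Til.c6 (M := M) (th := th) (n := n) (sx j) (tst M th (sx j) (c j).2)
              (decide (i ≤ (c j).2 (M.rg (sx j)))) (decide (i + 1 < (c j).2 (M.rg (sx j))))
              (bits M (c j).2 i)
            rw [nb_bits hex] at this
            simpa [show i ≠ m + 1 by omega, show i ≠ m by omega, show ¬ i + 1 = m + 2 by omega,
              bits, Nat.succ_le_iff] using this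
          · obtain rfl : i = m := by omega
            have h1 := hm j hjT.le (sx j)
            have h2 := hm (j + 1) hjT (sx j)
            rw [e2] at h2
            simp only [upd, update_self] at h2
            have := Til.c7 (M := M) (th := th) (n := n) (sx j) (tst M th (sx j) (c j).2)
              (decide (i ≤ (c j).2 (M.rg (sx j)))) (by simp only [decide_eq_true_eq]; omega)
            simpa [show ¬ i < (c j).2 (M.rg (sx j)) by omega] using this
      · obtain rfl : j = T := by omega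
        rcases i with _ | i
        · simpa [hT] using Til.c8
        · rcases hi.lt_or_eq with hi | hi
          · simpa [show i ≠ m + 1 by omega, show i ≠ m by omega, show ¬ i + 1 = m + 2 by omega]
              using Til.c9 _
          · obtain rfl : i = m := by omega
            simpa using Til.c10
  · dsimp only
    split_ifs <;> simp [*]
  · dsimp only
    split_ifs <;> simp [*]

theorem exists_mach : ∃ (Q : Type) (_ : Finite Q) (M : Mach Q) (th : Q → ℕ),
    (∀ s x, M.ex s x ≤ 2) ∧ (∀ s, th s ≤ 1) ∧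
    ¬ ComputablePred fun n => ∃ t, ((stp M th)^[t] (some M.q0, init n)).1 = none := by
  obtain ⟨w, hw⟩ := Pool.Agent.H38.CM.exists_undec
  have h1 : ∀ (w : W) s x, exW w s x ≤ 2 := by
    intro w
    induction w with
    | inc => simp [exW]
    | skip => simp [exW]
    | seq a b iha ihb => rintro (s | s) x; exacts [iha s x, ihb s x]
    | loop r b ih =>
      rintro (_ | s) x
      · simp only [exW]; split_ifs <;> omega
      · exact ih s x
  have h2 : ∀ (w : W) s, thW w s ≤ 1 := by
    intro w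
    induction w with
    | inc => simp [thW]
    | skip => simp [thW]
    | seq a b iha ihb => rintro (s | s); exacts [iha s, ihb s]
    | loop r b ih =>
      rintro (_ | s)
      · simp [thW]
      · exact ih s
  refine ⟨_, Pool.Agent.H30.MulM.St.finite w, MW w, thW w, h1 w, h2 w,
    fun h => hw (h.of_eq fun n => ⟨?_, ?_⟩)⟩
  · rintro ⟨t, ht⟩
    have key : ∀ t c, ((stp (MW w) (thW w))^[t] c).1 = none →
        ∃ u, Pool.Agent.H30.MulM.K' w c.1 c.2 u := by
      intro t
      induction t with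
      | zero => rintro ⟨_, v⟩ (rfl : _ = none); exact ⟨v, rfl⟩
      | succ t ih =>
        rintro ⟨_ | s, v⟩ h
        · exact ⟨v, rfl⟩
        · obtain ⟨u, hu⟩ := ih _ h
          exact ⟨u, K_step w s _ v rfl u hu⟩
    obtain ⟨u, hu⟩ := key t _ ht
    exact ⟨u, Pool.Agent.H30.MulM.K_entry w hu⟩
  · rintro ⟨v, hv⟩
    have key : ∀ c, Relation.ReflTransGen (Stp (MW w) (thW w)) c (none, v) →
        ∃ t, ((stp (MW w) (thW w))^[t] c).1 = none := by
      intro c hc
      induction hc using Relation.ReflTransGen.head_induction_on with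
      | refl => exact ⟨0, rfl⟩
      | head hs _ ih =>
        obtain ⟨t, ht⟩ := ih
        exact ⟨t + 1, by rwa [iterate_succ_apply, ← hs.2]⟩
    exact key _ (run_of_ev hv)

end Pool.Agent.H52.CT
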