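import Pool.Agent.H52.CT2

/-! The free part: colourings, and periodic tilings from continuous tilings. -/

set_option autoImplicit false

namespace Pool.Agent.H52.CT

open Filter Topology

variable {n : ℕ}

def io (n : ℕ) (x y : ℤ) : V n := fun j => if j.val = 0 then x else if j.val = 1 then y else 0

theorem io_add (x y x' y' : ℤ) : io n (x + x') (y + y') = io n x y + io n x' y' := by
  funext j; simp only [io, Pi.add_apply]; split_ifs <;> simp

theorem io_sub (x y x' y' : ℤ) : io n (x - x') (y - y') = io n x y - io n x' y' := by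
  funext j; simp only [io, Pi.sub_apply]; split_ifs <;> simp

theorem io_zero : io n 0 0 = 0 := by
  funext j; simp [io]

theorem io_inj (hn : 2 ≤ n) {x y x' y' : ℤ} (h : io n x y = io n x' y') : x = x' ∧ y = y' :=
  ⟨by simpa [io] using congrFun h ⟨0, by omega⟩, by simpa [io] using congrFun h ⟨1, by omega⟩⟩

theorem act_zero (x : Free n) : act 0 x = x := Subtype.ext (funext fun h => by simp [act, shift])

theorem act_add (g h : V n) (x : Free n) : act (g + h) x = act g (act h x) :=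
  Subtype.ext (funext fun v => by simp [act, shift, add_assoc])

theorem act_cont (g : V n) : Continuous (act g) :=
  continuous_induced_rng.2 (continuous_pi fun h => show Continuous fun x : Free n => x.1 (h + g) from
    (continuous_apply (h + g)).comp continuous_subtype_val)

theorem ev_lc (v : V n) : IsLocallyConstant fun x : Free n => x.1 v :=
  (IsLocallyConstant.iff_continuous _).2 ((continuous_apply v).comp continuous_subtype_val)

theorem isAct (hn : 2 ≤ n) : IsAct fun (g : P) (x : Free n) => act (io n (g 0) (g 1)) x where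
  zero x := by simp [io_zero, act_zero]
  add g h x := by simp [io_add, act_add]
  cont g := act_cont _
  col r := by
    classical
    obtain ⟨e, he⟩ := exists_surjective_nat (V n)
    have key : ∀ x : Free n, ∃ R : ℕ, ∀ g : P, Nr r g → g ≠ 0 →
        ∃ j < R, x.1 (e j + io n (g 0) (g 1)) ≠ x.1 (e j) := by
      intro x
      have : ∀ g : P, ∃ j, g ≠ 0 → x.1 (e j + io n (g 0) (g 1)) ≠ x.1 (e j) := by
        intro g
        by_cases hg : g = 0
        · exact ⟨0, fun h => absurd hg h⟩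
        · obtain ⟨v, hv⟩ := Function.ne_iff.1 (x.2 (io n (g 0) (g 1)) fun h => hg (by
            rw [← io_zero] at h
            obtain ⟨h1, h2⟩ := io_inj hn h
            exact funext (Fin.forall_fin_two.2 ⟨h1, h2⟩)))
          obtain ⟨j, rfl⟩ := he v
          exact ⟨j, fun _ => hv⟩
      choose j hj using this
      obtain ⟨R, hR⟩ := ((Nr.finite r).image j).bddAbove
      exact ⟨R + 1, fun g h1 h2 => ⟨j g, Nat.lt_succ_of_le (hR ⟨g, h1, rfl⟩), hj g h2⟩⟩
    refine ⟨fun x => Encodable.encode ((List.range (Nat.find (key x))).map fun j => x.1 (e j)),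
      ?_, fun x g h1 h2 => ?_⟩
    · rw [IsLocallyConstant.iff_eventually_eq]
      intro x
      have h1 : ∀ᶠ y : Free n in 𝓝 x, ∀ j ∈ Set.Iio (Nat.find (key x)), y.1 (e j) = x.1 (e j) ∧
          ∀ g : P, Nr r g → y.1 (e j + io n (g 0) (g 1)) = x.1 (e j + io n (g 0) (g 1)) :=
        (eventually_all_finite (Set.finite_Iio _)).2 fun j _ => ((ev_lc _).eventually_eq x).and
          (ev_ball (F := fun (y : Free n) (g : P) => y.1 (e j + io n (g 0) (g 1))) r fun g _ =>
            (ev_lc _).eventually_eq x)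
      filter_upwards [h1] with y hy
      have h2 : Nat.find (key y) = Nat.find (key x) := by
        rw [Nat.find_eq_iff]
        refine ⟨fun g h3 h4 => ?_, fun R hR h3 => Nat.find_min (key x) hR fun g h4 h5 => ?_⟩
        · obtain ⟨j, h5, h6⟩ := Nat.find_spec (key x) g h3 h4
          exact ⟨j, h5, by rwa [(hy j h5).1, (hy j h5).2 g h3]⟩
        · obtain ⟨j, h6, h7⟩ := h3 g h4 h5
          exact ⟨j, h6, by rwa [← (hy j (h6.trans hR)).1, ← (hy j (h6.trans hR)).2 g h4]⟩
      rw [h2]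
      congr 1
      exact List.map_congr_left fun j hj => (hy j (List.mem_range.1 hj)).1
    · by_contra hg
      have h3 := Encodable.encode_injective h2
      have h4 := congrArg List.length h3
      simp only [List.length_map, List.length_range] at h4
      rw [h4] at h3
      obtain ⟨j, h5, h6⟩ := Nat.find_spec (key x) g h1 hg
      exact h6 (List.map_inj_left.1 h3 j (List.mem_range.2 h5))

theorem val_add {i c : ℤ} {e : ℕ} (h1 : ¬ 2 ^ e ∣ i) (h2 : 2 ^ e ∣ c) :
    padicValInt 2 (i + c) = padicValInt 2 i := by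
  have h0 : i ≠ 0 := by rintro rfl; simp at h1
  have h3 : i + c ≠ 0 := fun h => h1 ((dvd_add_left h2).1 (by simp [h]))
  have key : ∀ (m : ℕ) (a : ℤ), a ≠ 0 → ((2 : ℤ) ^ m ∣ a ↔ m ≤ padicValInt 2 a) := fun m a ha => by
    simpa [ha] using padicValInt_dvd_iff (p := 2) m a
  have h4 : padicValInt 2 i < e := by rwa [key _ _ h0, not_le] at h1
  refine le_antisymm (Nat.le_of_lt_succ (not_le.1 fun h => ?_)) ?_
  · rw [← key _ _ h3, dvd_add_left ((pow_dvd_pow 2 h4).trans h2), key _ _ h0] at h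
    omega
  · rw [← key _ _ h3]
    exact dvd_add ((key _ _ h0).2 le_rfl) ((pow_dvd_pow 2 h4.le).trans h2)

theorem val_win (u : ℤ) (m : ℕ) : ∃ t : ℤ, |t| ≤ 2 ^ (m + 1) ∧ 2 ^ m ∣ u + t ∧
    padicValInt 2 (u + t) = m := by
  have hp : (0 : ℤ) < 2 ^ (m + 1) := by positivity
  have e : u + (2 ^ m - u) % 2 ^ (m + 1) = 2 ^ m + 2 ^ (m + 1) * -((2 ^ m - u) / 2 ^ (m + 1)) := by
    have := Int.emod_add_mul_ediv (2 ^ m - u) (2 ^ (m + 1))
    linarith
  refine ⟨(2 ^ m - u) % 2 ^ (m + 1), ?_, ?_, ?_⟩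
  · rw [abs_of_nonneg (Int.emod_nonneg _ hp.ne')]; exact (Int.emod_lt_of_pos _ hp).le
  · rw [e]; exact dvd_add dvd_rfl ((pow_dvd_pow 2 m.le_succ).mul_right _)
  · rw [e, val_add (e := m + 1) ?_ (dvd_mul_right _ _)]
    · simp [padicValInt]
    · intro h
      have := Int.le_of_dvd (by positivity) h
      rw [pow_succ] at this
      have : (0 : ℤ) < 2 ^ m := by positivity
      omega

def x0 (n : ℕ) : V n → Bool := fun h => decide (Odd (∑ j, padicValInt 2 (h j)))

def KK (n : ℕ) : Set (V n → Bool) :=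
  {x | ∀ g : V n, g ≠ 0 → ∃ h : V n, (∀ i, |h i| ≤ 2 ^ (∑ j, padicValInt 2 (g j) + 3)) ∧
    x (h + g) ≠ x h}

theorem fin_ball (r : ℤ) : {g : V n | ∀ i, |g i| ≤ r}.Finite :=
  (Set.finite_Icc (fun _ => -r : V n) fun _ => r).subset fun _ h =>
    ⟨fun i => (abs_le.1 (h i)).1, fun i => (abs_le.1 (h i)).2⟩

theorem KK_closed : IsClosed (KK n) := by
  simp only [KK, Set.ofPred_forall]
  refine isClosed_iInter fun g => isClosed_iInter fun _ => ?_
  have := (fin_ball (n := n) (2 ^ (∑ j, padicValInt 2 (g j) + 3))).isClosed_biUnion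
    (f := fun h => {x : V n → Bool | x (h + g) ≠ x h}) fun h _ =>
      (isClosed_discrete {p : Bool × Bool | p.1 ≠ p.2}).preimage
        (show Continuous fun x : V n → Bool => (x (h + g), x h) by fun_prop)
  convert this using 1
  ext x; simp

theorem x0_mem (u : V n) : shift u (x0 n) ∈ KK n := by
  classical
  intro g hg
  obtain ⟨j, hj⟩ := Function.ne_iff.1 hg
  have hj' : g j ≠ 0 := hj
  set m := padicValInt 2 (g j) with hm
  have hle : m ≤ ∑ j, padicValInt 2 (g j) :=
    Finset.single_le_sum (f := fun j => padicValInt 2 (g j)) (fun _ _ => Nat.zero_le _)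
      (Finset.mem_univ j)
  have hd : ¬ (2 : ℤ) ^ (m + 1) ∣ g j := by
    have := padicValInt_dvd_iff (p := 2) (m + 1) (g j)
    simp only [Nat.cast_ofNat, hj', false_or] at this
    rw [this]; omega
  have key : ∀ (t : ℤ) (w : V n), ∑ i, padicValInt 2 (((Pi.single j t : V n) + w) i) =
      padicValInt 2 (t + w j) + ∑ i ∈ Finset.univ.erase j, padicValInt 2 (w i) := by
    intro t w
    rw [← Finset.add_sum_erase _ _ (Finset.mem_univ j)]
    congr 1
    · simp
    · exact Finset.sum_congr rfl fun i hi => by simp [Finset.ne_of_mem_erase hi]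
  by_contra hc
  push Not at hc
  have two : ∀ d, 1 ≤ d → d ≤ 2 →
      (Odd (m + ∑ i ∈ Finset.univ.erase j, padicValInt 2 ((g + u) i)) ↔
        Odd (m + d + ∑ i ∈ Finset.univ.erase j, padicValInt 2 (u i))) := by
    intro d h1 h2
    obtain ⟨t, h3, h4, h5⟩ := val_win (u j) (m + d)
    have := hc (Pi.single j t) fun i => by
      refine le_trans ?_ (h3.trans (pow_le_pow_right₀ one_le_two (by omega)))
      by_cases h : i = j
      · simp [h]
      · simp [h]
    simp only [shift, x0, decide_eq_decide, add_assoc] at this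
    rw [key, key, Pi.add_apply, show t + (g j + u j) = g j + (u j + t) by ring,
      val_add hd ((pow_dvd_pow 2 (by omega)).trans h4), add_comm t, h5] at this
    exact this
  have h1 := two 1 le_rfl one_le_two
  have h2 := two 2 one_le_two le_rfl
  simp only [Nat.odd_iff] at h1 h2
  omega

theorem KK_free {x : V n → Bool} (h : x ∈ KK n) : ∀ g : V n, g ≠ 0 → shift g x ≠ x :=
  fun g hg e => by
    obtain ⟨v, -, hv⟩ := h g hg
    exact hv (congrFun e v)

theorem window {β : Type} {f : Free n → β} (hf : IsLocallyConstant f) : ∃ r : ℕ,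
    ∀ (x y : Free n), y.1 ∈ KK n → (∀ v : V n, (∀ i, |v i| ≤ r) → x.1 v = y.1 v) → f x = f y := by
  have h1 : ∀ y : Free n, ∃ r : ℕ, ∀ x : Free n,
      (∀ v : V n, (∀ i, |v i| ≤ r) → x.1 v = y.1 v) → f x = f y := by
    intro y
    have := hf.eventually_eq y
    rw [nhds_subtype, eventually_comap, nhds_pi, eventually_iff, mem_pi] at this
    obtain ⟨I, hI, t, ht, h⟩ := this
    obtain ⟨r, hr⟩ := (hI.image fun v => ∑ i, (v i).natAbs).bddAbove
    refine ⟨r, fun x hx => h (a := x.1) (fun v hv => ?_) x rfl⟩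
    rw [hx v fun i => ?_]
    · exact mem_of_mem_nhds (ht v)
    · have h2 : (v i).natAbs ≤ ∑ i, (v i).natAbs :=
        Finset.single_le_sum (f := fun i => (v i).natAbs) (fun _ _ => Nat.zero_le _)
          (Finset.mem_univ i)
      have h3 : ∑ i, (v i).natAbs ≤ r := hr ⟨v, hv, rfl⟩
      rw [← Int.natCast_natAbs]; exact_mod_cast h2.trans h3
  choose r hr using h1
  obtain ⟨t, ht⟩ := KK_closed.isCompact.elim_nhds_subcover'
    (fun y hy => {x | ∀ v : V n, (∀ i, |v i| ≤ r ⟨y, KK_free hy⟩) → x v = y v}) fun y hy =>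
      (eventually_all_finite (fin_ball _)).2 fun v _ =>
        ((IsLocallyConstant.iff_continuous fun x : V n → Bool => x v).2
          (by fun_prop)).eventually_eq y
  refine ⟨t.sup fun y => r ⟨y.1, KK_free y.2⟩, fun x y hy h => ?_⟩
  obtain ⟨z, hz, h2⟩ := Set.mem_iUnion₂.1 (ht hy)
  have h3 : r ⟨z.1, KK_free z.2⟩ ≤ t.sup fun y => r ⟨y.1, KK_free y.2⟩ :=
    Finset.le_sup (f := fun y : KK n => r ⟨y.1, KK_free y.2⟩) hz
  rw [hr ⟨z.1, KK_free z.2⟩ y h2, hr ⟨z.1, KK_free z.2⟩ x fun v hv =>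
    (h v fun i => (hv i).trans (by exact_mod_cast h3)).trans (h2 v hv)]

open Classical in
noncomputable def ze (n e : ℕ) : V n → Bool := fun h =>
  decide (Odd (∑ j, if 2 ^ e ∣ h j then 0 else padicValInt 2 (h j)))

theorem ze_per (e : ℕ) (h c : V n) : ze n e (h + (2 : ℤ) ^ e • c) = ze n e h := by
  simp only [ze, decide_eq_decide]
  rw [Finset.sum_congr rfl fun j _ => ?_]
  have h1 : (2 : ℤ) ^ e ∣ 2 ^ e * c j := dvd_mul_right _ _
  simp only [Pi.add_apply, Pi.smul_apply, smul_eq_mul, dvd_add_left h1]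
  split_ifs with h2
  · rfl
  · exact val_add h2 h1

theorem ze_match (e : ℕ) (r : ℤ) (hr : 2 * r < 2 ^ e) (u : V n) : ∃ u' : V n,
    ∀ h : V n, (∀ i, |h i| ≤ r) → ze n e (h + u) = x0 n (h + u') := by
  have key : ∀ a : ℤ, ∃ a' : ℤ, ∀ t, |t| ≤ r →
      (if 2 ^ e ∣ t + a then 0 else padicValInt 2 (t + a)) = padicValInt 2 (t + a') := by
    intro a
    by_cases h : ∃ t0, |t0| ≤ r ∧ 2 ^ e ∣ t0 + a
    · obtain ⟨t0, h1, h2⟩ := h
      refine ⟨-t0, fun t ht => ?_⟩
      split_ifs with h3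
      · have h4 : 2 ^ e ∣ t + -t0 := by simpa [sub_eq_add_neg] using dvd_sub h3 h2
        rw [Int.eq_zero_of_abs_lt_dvd h4 (by
          have := abs_le.1 h1; have := abs_le.1 ht; rw [abs_lt]; constructor <;> linarith)]
        simp
      · rw [← val_add h3 (dvd_neg.2 h2)]; congr 1; ring
    · exact ⟨a, fun t ht => if_neg fun h3 => h ⟨t, ht, h3⟩⟩
  choose a' ha using key
  refine ⟨fun i => a' (u i), fun h hh => ?_⟩
  simp only [ze, x0, decide_eq_decide]
  rw [Finset.sum_congr rfl fun j _ => ?_]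
  simpa only [Pi.add_apply] using ha (u j) (h j) (hh j)

theorem periodic {L : List (List (V n))} (h : ContTiles L) : ∃ (e : ℕ) (A : Set (V n × Finset (V n))),
    (∀ p ∈ A, p.2 ∈ tiles L) ∧ IsTiling A ∧ ∀ p ∈ A, ∀ c : V n, (p.1 + (2 : ℤ) ^ e • c, p.2) ∈ A := by
  classical
  obtain ⟨C, hC, ht⟩ := h
  have hf : (tiles L).Finite := ((List.finite_toSet L).image List.toFinset).subset
    fun T ⟨l, h1, h2⟩ => ⟨l, h1, h2.symm⟩
  obtain ⟨r, hr⟩ := window (f := fun x => {T ∈ tiles L | x ∈ C T}) (by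
    rw [IsLocallyConstant.iff_eventually_eq]
    intro x
    have : ∀ᶠ y in 𝓝 x, ∀ T ∈ tiles L, (y ∈ C T ↔ x ∈ C T) :=
      (eventually_all_finite hf).2 fun T hT => by
        by_cases hx : x ∈ C T
        · filter_upwards [(hC T hT).2.mem_nhds hx] with y hy using iff_of_true hy hx
        · filter_upwards [(hC T hT).1.isOpen_compl.mem_nhds hx] with y hy using iff_of_false hy hx
    filter_upwards [this] with y hy
    exact Set.ext fun T => and_congr_right (hy T))
  obtain ⟨s, hs⟩ : ∃ s : ℕ, ∀ T ∈ tiles L, ∀ v ∈ T, ∀ i, |v i| ≤ s := by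
    obtain ⟨s, hs⟩ := ((hf.biUnion fun T _ => T.finite_toSet).image
      fun v => ∑ i, (v i).natAbs).bddAbove
    refine ⟨s, fun T hT v hv i => ?_⟩
    have h2 : (v i).natAbs ≤ ∑ i, (v i).natAbs :=
      Finset.single_le_sum (f := fun i => (v i).natAbs) (fun _ _ => Nat.zero_le _)
        (Finset.mem_univ i)
    have h3 : ∑ i, (v i).natAbs ≤ s := hs ⟨v, Set.mem_biUnion hT hv, rfl⟩
    rw [← Int.natCast_natAbs]; exact_mod_cast h2.trans h3
  refine ⟨2 * (r + s), {p | p.2 ∈ tiles L ∧ ∃ y : Free n, y.1 ∈ KK n ∧ y ∈ C p.2 ∧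
    ∀ h : V n, (∀ i, |h i| ≤ r) → ze n (2 * (r + s)) (h + p.1) = y.1 h}, fun p hp => hp.1,
    fun v => ?_, fun p ⟨h1, y, h2, h3, h4⟩ c => ⟨h1, y, h2, h3, fun h hh => ?_⟩⟩
  · obtain ⟨u, hu⟩ := ze_match (2 * (r + s)) (r + s) (by exact_mod_cast Nat.lt_two_pow_self) v
    let x : Free n := ⟨_, KK_free (x0_mem u)⟩
    have key : ∀ g T, T ∈ tiles L → v - g ∈ T → ((∃ y : Free n, y.1 ∈ KK n ∧ y ∈ C T ∧
        ∀ h : V n, (∀ i, |h i| ≤ r) → ze n (2 * (r + s)) (h + g) = y.1 h) ↔
        act (g - v) x ∈ C T) := by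
      intro g T hT hg
      have h1 : ∀ h : V n, (∀ i, |h i| ≤ r) →
          ze n (2 * (r + s)) (h + g) = (act (g - v) x).1 h := fun h hh => by
        have := hu (h + (g - v)) fun i => by
          have := abs_le.1 (hh i)
          have := abs_le.1 (hs T hT _ hg i)
          simp only [Pi.add_apply, Pi.sub_apply, abs_le] at *
          constructor <;> linarith
        rwa [add_assoc, sub_add_cancel] at this
      constructor
      · rintro ⟨y, h2, h3, h4⟩
        have := hr (act (g - v) x) y h2 fun h hh => (h1 h hh).symm.trans (h4 h hh)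
        exact ((Set.ext_iff.1 this T).2 ⟨hT, h3⟩).2
      · refine fun h2 => ⟨_, ?_, h2, h1⟩
        convert x0_mem (g - v + u) using 1
        funext w; simp [act, shift, x, add_assoc]
    obtain ⟨⟨g, T⟩, ⟨⟨h1, h2⟩, h3⟩, h4⟩ := ht x 0
    have h5 : v - (g + v) ∈ T := by simpa using h3
    refine ⟨(g + v, T), ⟨⟨h1, (key _ _ h1 h5).2 (by simpa using h2)⟩, h5⟩, ?_⟩
    rintro ⟨g', T'⟩ ⟨⟨h6, h7⟩, h8⟩
    have := h4 (g' - v, T') ⟨⟨h6, (key _ _ h6 h8).1 h7⟩, by simpa using h8⟩
    obtain ⟨rfl, rfl⟩ := Prod.mk.inj this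
    simp
  · rw [← add_assoc, ze_per, h4 h hh]

end Pool.Agent.H52.CT
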