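import Pool.Agent.H52.CT4
import Pool.Agent.H52.CT5

/-! Undecidability of the continuous tiling problem. -/

set_option autoImplicit false

namespace Pool.Agent.H52.CT

open Pool.Agent.H52.LT Pool.Agent.H38.CM Col

def InN (k : ℕ) (t : Tl) (a b : ℕ) : Prop :=
  ((2 ≤ a ∧ (a < k + 2 ∨ (a = k + 2 ∧ t.1.2.1 = 0 ∧ t.2.1 = 1)) ∧ 2 ≤ b ∧
    (b < k + 2 ∨ (b = k + 2 ∧ t.1.2.2.2 = 0 ∧ t.2.2 = 1))) ∧ ¬ (¬ t.1.1 = 0 ∧ a = 3 ∧ b = 5) ∧
    ¬ (¬ t.1.2.1 = 0 ∧ a = k ∧ b = t.1.2.1 + 4) ∧ ¬ (¬ t.1.2.2.1 = 0 ∧ a = 5 ∧ b = 3) ∧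
    ¬ (¬ t.1.2.2.2 = 0 ∧ a = t.1.2.2.2 + 4 ∧ b = k)) ∨
  (¬ t.1.2.1 = 0 ∧ a = k + 3 ∧ b = 5) ∨ (¬ t.1.1 = 0 ∧ a = 0 ∧ b = t.1.1 + 4) ∨
  (¬ t.1.2.2.2 = 0 ∧ a = 5 ∧ b = k + 3) ∨ (¬ t.1.2.2.1 = 0 ∧ a = t.1.2.2.1 + 4 ∧ b = 0)

instance (k : ℕ) (t : Tl) (a b : ℕ) : Decidable (InN k t a b) := by unfold InN; infer_instance

theorem inN_iff (k : ℕ) (t : Tl) (a b : ℕ) : InN k t a b ↔ In k t (a - 2) (b - 2) := by
  unfold InN In Rect Tl.w Tl.e Tl.s Tl.n
  exact or_congr (and_congr (and_congr (by omega) (and_congr (by omega) (by omega)))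
    (and_congr (by omega) (and_congr (by omega) (and_congr (by omega) (by omega)))))
    (or_congr (by omega) (or_congr (by omega) (or_congr (by omega) (by omega))))

def cells (N k : ℕ) (t : Tl) : List (V N) :=
  (List.range (k + 4)).flatMap fun a => (List.range (k + 4)).flatMap fun b =>
    if InN k t a b then [io N (a - 2) (b - 2)] else []

theorem mem_cells {N k : ℕ} {t : Tl} (hb : Bd k t) {v : V N} :
    v ∈ (cells N k t).toFinset ↔ ∃ x y, v = io N x y ∧ In k t x y := by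
  simp only [cells, List.mem_toFinset, List.mem_flatMap, List.mem_range, List.mem_ite_nil_right,
    List.mem_singleton, inN_iff]
  constructor
  · rintro ⟨a, -, b, -, h, rfl⟩
    exact ⟨_, _, rfl, h⟩
  · rintro ⟨x, y, rfl, h⟩
    have := h.bds hb
    have e1 : (((x + 2).toNat : ℕ) : ℤ) - 2 = x := by omega
    have e2 : (((y + 2).toNat : ℕ) : ℤ) - 2 = y := by omega
    exact ⟨(x + 2).toNat, by omega, (y + 2).toNat, by omega, by rwa [e1, e2], by rw [e1, e2]⟩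

theorem prim_sub2 : Primrec fun a : ℕ => (a : ℤ) - 2 := by
  have h1 : Primrec fun a : ℕ => (a : ℤ) :=
    Primrec.encode_iff.1 ((Primrec.nat_mul.comp (.const 2) .id).of_eq fun a => by
      show 2 * a = Equiv.intEquivNat (Int.ofNat a)
      simp [Equiv.intEquivNat, Equiv.intEquivNatSumNat]; rfl)
  refine (Primrec.ite (Primrec.eq.comp .id (.const 0)) (.const (-2)) (Primrec.ite
    (Primrec.eq.comp .id (.const 1)) (.const (-1))
    (h1.comp (Primrec.nat_sub.comp .id (.const 2))))).of_eq fun a => ?_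
  simp only [id]
  split_ifs <;> omega

theorem prim_io (N : ℕ) : Primrec₂ (io N) := by
  refine Primrec.fin_curry.2 (Primrec₂.swap (f := fun (j : Fin N) (p : ℤ × ℤ) => io N p.1 p.2 j)
    (Primrec.fin_curry₁.2 fun j => ?_))
  unfold io
  split_ifs
  exacts [.fst, .snd, .const 0]

theorem prim_inN : PrimrecPred fun p : ((ℕ × Tl) × ℕ) × ℕ => InN p.1.1.1 p.1.1.2 p.1.2 p.2 := by
  have k : Primrec fun p : ((ℕ × Tl) × ℕ) × ℕ => p.1.1.1 := Primrec.fst.comp (Primrec.fst.comp .fst)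
  have t : Primrec fun p : ((ℕ × Tl) × ℕ) × ℕ => p.1.1.2 := Primrec.snd.comp (Primrec.fst.comp .fst)
  have a : Primrec fun p : ((ℕ × Tl) × ℕ) × ℕ => p.1.2 := Primrec.snd.comp .fst
  have b : Primrec fun p : ((ℕ × Tl) × ℕ) × ℕ => p.2 := .snd
  have g := Primrec.fst.comp t
  have w := Primrec.fst.comp g
  have e := Primrec.fst.comp (Primrec.snd.comp g)
  have s := Primrec.fst.comp (Primrec.snd.comp (Primrec.snd.comp g))
  have n := Primrec.snd.comp (Primrec.snd.comp (Primrec.snd.comp g))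
  have x := Primrec.fst.comp (Primrec.snd.comp t)
  have y := Primrec.snd.comp (Primrec.snd.comp t)
  have E : ∀ {f g : ((ℕ × Tl) × ℕ) × ℕ → ℕ}, Primrec f → Primrec g →
      PrimrecPred fun p => f p = g p := fun hf hg => Primrec.eq.comp hf hg
  have C : ∀ {f : ((ℕ × Tl) × ℕ) × ℕ → ℕ} (c : ℕ), Primrec f → PrimrecPred fun p => f p = c :=
    fun c hf => E hf (.const c)
  have S : ∀ {f : ((ℕ × Tl) × ℕ) × ℕ → ℕ} (c : ℕ), Primrec f → Primrec fun p => f p + c :=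
    fun c hf => Primrec.nat_add.comp hf (.const c)
  exact (((Primrec.nat_le.comp (.const 2) a).and (((Primrec.nat_lt.comp a (S 2 k)).or
      ((E a (S 2 k)).and ((C 0 e).and (C 1 x)))).and ((Primrec.nat_le.comp (.const 2) b).and
      ((Primrec.nat_lt.comp b (S 2 k)).or ((E b (S 2 k)).and ((C 0 n).and (C 1 y))))))).and
    (((C 0 w).not.and ((C 3 a).and (C 5 b))).not.and
    (((C 0 e).not.and ((E a k).and (E b (S 4 e)))).not.and
    (((C 0 s).not.and ((C 5 a).and (C 3 b))).not.and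
    ((C 0 n).not.and ((E a (S 4 n)).and (E b k))).not)))).or
    (((C 0 e).not.and ((E a (S 3 k)).and (C 5 b))).or
    (((C 0 w).not.and ((C 0 a).and (E b (S 4 w)))).or
    (((C 0 n).not.and ((C 5 a).and (E b (S 3 k)))).or
    ((C 0 s).not.and ((E a (S 4 s)).and (C 0 b))))))

theorem prim_cells (N : ℕ) : Primrec₂ (cells N) := by
  have r : Primrec fun p : ℕ × Tl => List.range (p.1 + 4) :=
    Primrec.list_range.comp (Primrec.nat_add.comp .fst (.const 4))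
  exact Primrec.list_flatMap r (Primrec.list_flatMap (r.comp .fst) (Primrec.ite prim_inN
    (Primrec.list_cons.comp ((prim_io N).comp (prim_sub2.comp (Primrec.snd.comp .fst))
      (prim_sub2.comp .snd)) (.const [])) (.const [])).to₂).to₂

def BoxT (k : ℤ) (S : List Tl) (w h : ℤ) : Prop :=
  ∃ A : ℤ → ℤ → Tl → Prop, (∀ p q t, A p q t → t ∈ S ∧ 0 ≤ p ∧ p < w ∧ 0 ≤ q ∧ q < h) ∧
    (∀ x y, 0 ≤ x → x < w → 0 ≤ y → y < h → ∃ p q t, A p q t ∧ In k t (x - p) (y - q)) ∧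
    (∀ x y p q t, A p q t → In k t (x - p) (y - q) → 0 ≤ x ∧ x < w ∧ 0 ≤ y ∧ y < h) ∧
    ∀ x y p q t p' q' t', A p q t → A p' q' t' → In k t (x - p) (y - q) →
      In k t' (x - p') (y - q') → p = p' ∧ q = q' ∧ t = t'

theorem cont_of_box {N k : ℕ} (hN : 2 ≤ N) {S : List Tl} (hS : ∀ t ∈ S, Bd k t) {w h : ℤ}
    (hw : 0 < w) (hh : 0 < h) (hb : ∀ w' h', w' = w ∨ w' = w + 1 → h' = h ∨ h' = h + 1 →
      BoxT k S w' h') : ContTiles (S.map (cells N k)) := by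
  obtain ⟨b, lc, H⟩ := boxes (isAct hN) ![w, h] (Fin.forall_fin_two.2 ⟨hw, hh⟩)
  choose! A A1 A2 A3 A4 using hb
  let F : Finset (V N) → Set (P × P) := fun T => {b | ∃ t, A (b.2 0 - b.1 0) (b.2 1 - b.1 1)
    (-b.1 0) (-b.1 1) t ∧ T = (cells N k t).toFinset}
  refine ⟨fun T => b ⁻¹' F T, fun T _ => ⟨isOpen_compl_iff.1 (lc (F T)ᶜ), lc _⟩, fun x v => ?_⟩
  obtain ⟨h1, h2, h3⟩ := H (act v x)
  have a0 := h1 0
  have a1 := h1 1
  have w0 : _ = w ∨ _ = w + 1 := h2 0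
  have w1 : _ = h ∨ _ = h + 1 := h2 1
  simp only [Pi.sub_apply] at w0 w1
  obtain ⟨p, q, t, h4, h5⟩ := A2 _ _ w0 w1 (-(b (act v x)).1 0) (-(b (act v x)).1 1)
    (by omega) (by omega) (by omega) (by omega)
  obtain ⟨h6, h7⟩ := A1 _ _ w0 w1 _ _ _ h4
  have h8 := h3 ![p + (b (act v x)).1 0, q + (b (act v x)).1 1]
    (Fin.forall_fin_two.2 ⟨by simp; omega, by simp; omega⟩)
  simp only [Matrix.cons_val_zero, Matrix.cons_val_one, ← act_add] at h8
  refine ⟨(io N (p + (b (act v x)).1 0) (q + (b (act v x)).1 1) + v, (cells N k t).toFinset),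
    ⟨⟨⟨_, List.mem_map_of_mem h6, rfl⟩, t, ?_, rfl⟩, (mem_cells (hS t h6)).2 ⟨_, _, ?_, h5⟩⟩, ?_⟩
  · simp only [Set.mem_preimage, h8, Pi.sub_apply, Matrix.cons_val_zero, Matrix.cons_val_one,
      sub_sub_sub_cancel_right]
    simpa using h4
  · rw [← sub_eq_zero, sub_add_cancel_right, ← neg_add', ← io_add, neg_eq_zero, ← io_zero]
    congr 1 <;> ring
  · rintro ⟨g, T⟩ ⟨⟨-, t', h9, rfl⟩, h10⟩
    obtain ⟨-, h2', h3'⟩ := H (act g x)
    have w0' : _ = w ∨ _ = w + 1 := h2' 0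
    have w1' : _ = h ∨ _ = h + 1 := h2' 1
    simp only [Pi.sub_apply] at w0' w1'
    obtain ⟨x1, y1, e, h11⟩ := (mem_cells (hS t' (A1 _ _ w0' w1' _ _ _ h9).1)).1 h10
    have h12 := A3 _ _ w0' w1' (x1 - (b (act g x)).1 0) (y1 - (b (act g x)).1 1) _ _ _ h9
      (by simpa using h11)
    have h13 := h3' ![x1, y1] (Fin.forall_fin_two.2 ⟨by simp; omega, by simp; omega⟩)
    simp only [Matrix.cons_val_zero, Matrix.cons_val_one, ← act_add] at h13
    rw [← e, sub_add_cancel] at h13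
    rw [h13] at h4 h5 ⊢
    simp only [Pi.sub_apply, Matrix.cons_val_zero, Matrix.cons_val_one, sub_sub_sub_cancel_right]
      at h4 h5 ⊢
    obtain ⟨rfl, rfl, rfl⟩ := A4 _ _ w0' w1' _ _ _ _ _ _ _ _ h4 h9 h5 (by simpa using h11)
    congr 1
    rw [← sub_eq_iff_eq_add, ← neg_sub, e, neg_eq_iff_add_eq_zero, ← io_add, ← io_zero]
    congr 1 <;> ring

theorem pt_of_cont {N k : ℕ} {S : List Tl} (hN : 2 ≤ N) (hS : ∀ t ∈ S, Bd k t)
    (h : ContTiles (S.map (cells N k))) : ∃ (e : ℕ) (A : ℤ → ℤ → Tl → Prop), PT k A ∧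
      (∀ p q t, A p q t → t ∈ S) ∧ ∀ p q t c d, A p q t → A (p + 2 ^ e * c) (q + 2 ^ e * d) t := by
  obtain ⟨e, A, h1, h2, h3⟩ := periodic h
  have : ∀ T ∈ tiles (S.map (cells N k)), ∃ t ∈ S, T = (cells N k t).toFinset := by
    rintro _ ⟨l, hl, rfl⟩
    obtain ⟨t, ht, rfl⟩ := List.mem_map.1 hl
    exact ⟨t, ht, rfl⟩
  choose! pk k1 k2 using this
  refine ⟨e, fun p q t => ∃ T, (io N p q, T) ∈ A ∧ t = pk T, ⟨fun x y => ?_, ?_, ?_⟩, ?_, ?_⟩
  · obtain ⟨⟨g, T⟩, ⟨h4, h5⟩, -⟩ := h2 (io N x y)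
    have hT := h1 _ h4
    dsimp only at h5 hT
    rw [k2 T hT, mem_cells (hS _ (k1 T hT))] at h5
    obtain ⟨a, b, h5, h6⟩ := h5
    refine ⟨x - a, y - b, _, ⟨T, ?_, rfl⟩, by simpa using h6⟩
    rwa [io_sub, ← h5, sub_sub_cancel]
  · rintro x y p q _ p' q' _ ⟨T, h4, rfl⟩ ⟨T', h5, rfl⟩ h6 h7
    have hT := h1 _ h4
    have hT' := h1 _ h5
    have := (h2 (io N x y)).unique ⟨h4, ?_⟩ ⟨h5, ?_⟩
    · obtain ⟨e1, rfl⟩ := Prod.mk.inj this
      exact ⟨(io_inj hN e1).1, (io_inj hN e1).2, rfl⟩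
    · dsimp only at hT ⊢
      rw [k2 T hT, mem_cells (hS _ (k1 T hT))]
      exact ⟨_, _, (io_sub _ _ _ _).symm, h6⟩
    · dsimp only at hT' ⊢
      rw [k2 T' hT', mem_cells (hS _ (k1 T' hT'))]
      exact ⟨_, _, (io_sub _ _ _ _).symm, h7⟩
  · rintro p q _ ⟨T, h4, rfl⟩
    exact hS _ (k1 T (h1 _ h4))
  · rintro p q _ ⟨T, h4, rfl⟩
    exact k1 T (h1 _ h4)
  · rintro p q _ c d ⟨T, h4, rfl⟩
    refine ⟨T, ?_, rfl⟩
    convert h3 _ h4 (io N c d) using 2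
    funext j; simp only [io, Pi.add_apply, Pi.smul_apply, smul_eq_mul]; split_ifs <;> simp

theorem tiles_of_star {N k : ℕ} {S : List Tl} (hN : 2 ≤ N) {c : ℕ} (hc : c ≠ 0) (hk : c + 7 ≤ k)
    (h : ((c, c, c, c), 0, 0) ∈ S) : Tiles (S.map (cells N k)) := by
  have hb : Bd k ((c, c, c, c), 0, 0) := by simp only [Bd, Tl.w, Tl.e, Tl.s, Tl.n]; omega
  have G : Grid k (fun _ _ => True) fun _ _ => ((c, c, c, c), 0, 0) :=
    ⟨fun _ _ _ => hb, by simp, by simp, by simp, by simp, by simpa, by simpa⟩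
  let j0 : Fin N := ⟨0, by omega⟩
  let j1 : Fin N := ⟨1, by omega⟩
  have hk' : (0 : ℤ) < k := by omega
  refine ⟨{p | p.2 = (cells N k ((c, c, c, c), 0, 0)).toFinset ∧ (k : ℤ) ∣ p.1 j0 ∧ (k : ℤ) ∣ p.1 j1},
    fun p hp => ⟨_, List.mem_map_of_mem h, hp.1⟩, fun v => ?_⟩
  obtain ⟨i, j, -, h1⟩ := G.cover (i := v j0 / k) (j := v j1 / k) (x := v j0) (y := v j1) trivial (by
    have := Int.emod_add_mul_ediv (v j0) k
    have := Int.emod_add_mul_ediv (v j1) k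
    have := Int.emod_nonneg (v j0) hk'.ne'
    have := Int.emod_nonneg (v j1) hk'.ne'
    have := Int.emod_lt_of_pos (v j0) hk'
    have := Int.emod_lt_of_pos (v j1) hk'
    unfold Rect; omega)
  refine ⟨(v - io N (v j0 - k * i) (v j1 - k * j), _), ⟨⟨rfl, by simp [io, j0], by simp [io, j1]⟩,
    (mem_cells hb).2 ⟨_, _, by simp, h1⟩⟩, ?_⟩
  rintro ⟨g, _⟩ ⟨⟨rfl, ⟨i', hi⟩, ⟨j', hj⟩⟩, h2⟩
  obtain ⟨x, y, e, h3⟩ := (mem_cells hb).1 h2
  have e0 : x = v j0 - k * i' := by rw [← hi]; simpa [io, j0] using (congrFun e j0).symm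
  have e1 : y = v j1 - k * j' := by rw [← hj]; simpa [io, j1] using (congrFun e j1).symm
  subst e0 e1
  obtain ⟨rfl, rfl⟩ := G.disj trivial trivial h1 h3
  rw [← e, sub_sub_cancel]; rfl

theorem box_of_grid {k : ℕ} (hk : 0 < k) {S : List Tl} {W H : ℕ} {hz vt : ℕ → ℕ → ℕ} {ε δ : ℕ}
    (hε : ε ≤ 1) (hδ : δ ≤ 1) (hS : ∀ t ∈ S, Bd k t)
    (h1 : ∀ i ≤ W, ∀ j ≤ H, ((hz i j, hz (i + 1) j, vt i j, vt i (j + 1)), ε, δ) ∈ S)
    (h2 : ∀ i ≤ W + 1, ∀ j ≤ H, hz i j = 0 ↔ i = 0 ∨ i = W + 1)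
    (h3 : ∀ i ≤ W, ∀ j ≤ H + 1, vt i j = 0 ↔ j = 0 ∨ j = H + 1) :
    BoxT k S (k * (W + 1) + ε) (k * (H + 1) + δ) := by
  let τ : ℤ → ℤ → Tl := fun i j => ((hz i.toNat j.toNat, hz (i.toNat + 1) j.toNat,
    vt i.toNat j.toNat, vt i.toNat (j.toNat + 1)), ε, δ)
  let Dm : ℤ → ℤ → Prop := fun i j => 0 ≤ i ∧ i ≤ W ∧ 0 ≤ j ∧ j ≤ H
  have m : ∀ i j, Dm i j → τ i j ∈ S := fun i j h => h1 _ (by omega) _ (by omega)
  have ze : ∀ i j, Dm i j → ((τ i j).e = 0 ↔ i = W) := fun i j h =>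
    (h2 _ (by omega) _ (by omega)).trans (by omega)
  have zn : ∀ i j, Dm i j → ((τ i j).n = 0 ↔ j = H) := fun i j h =>
    (h3 _ (by omega) _ (by omega)).trans (by omega)
  have zw : ∀ i j, Dm i j → ((τ i j).w = 0 ↔ i = 0) := fun i j h =>
    (h2 _ (by omega) _ (by omega)).trans (by omega)
  have zs : ∀ i j, Dm i j → ((τ i j).s = 0 ↔ j = 0) := fun i j h =>
    (h3 _ (by omega) _ (by omega)).trans (by omega)
  have G : Grid k Dm τ := by
    refine ⟨fun i j h => hS _ (m i j h), fun i j h e => ?_, fun i j h e => ?_, fun i j h e => ?_,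
      fun i j h e => ?_, fun i j j' h h' => ?_, fun i j i' h h' => ?_⟩
    · rw [Ne, ze i j h] at e
      exact ⟨by omega, by simp only [τ, Tl.w, Tl.e, Tl.s, Tl.n]; congr 1; omega⟩
    · rw [Ne, zw i j h] at e
      exact ⟨by omega, by simp only [τ, Tl.w, Tl.e, Tl.s, Tl.n]; congr 1; omega⟩
    · rw [Ne, zn i j h] at e
      exact ⟨by omega, by simp only [τ, Tl.w, Tl.e, Tl.s, Tl.n]; congr 1; omega⟩
    · rw [Ne, zs i j h] at e
      exact ⟨by omega, by simp only [τ, Tl.w, Tl.e, Tl.s, Tl.n]; congr 1; omega⟩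
    · rw [Ne, ze i j h]; omega
    · rw [Ne, zn i j h]; omega
  have hk' : (0 : ℤ) < k := by omega
  have loc : ∀ (W : ℕ) (ε x : ℤ), ε ≤ 1 → 0 ≤ x → x < k * (W + 1) + ε → ∃ i : ℤ, 0 ≤ i ∧ i ≤ W ∧
      0 ≤ x - k * i ∧ (x - k * i < k ∨ (x - k * i = k ∧ i = W ∧ ε = 1)) := by
    intro W ε x h0 h1 h2
    by_cases h : x < k * (W + 1)
    · have := Int.emod_add_mul_ediv x k
      have := Int.emod_nonneg x hk'.ne'
      have := Int.emod_lt_of_pos x hk'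
      exact ⟨x / k, Int.ediv_nonneg h1 hk'.le, Int.le_of_lt_add_one
        (Int.ediv_lt_of_lt_mul hk' (by linarith)), by omega, by omega⟩
    · rw [mul_add] at h h2
      exact ⟨W, by omega, le_rfl, by omega, by omega⟩
  refine ⟨fun p q t => ∃ i j, Dm i j ∧ p = k * i ∧ q = k * j ∧ t = τ i j, ?_, ?_, ?_, ?_⟩
  · rintro _ _ _ ⟨i, j, h, rfl, rfl, rfl⟩
    obtain ⟨a, b, c, d⟩ := h
    exact ⟨m i j ⟨a, b, c, d⟩, by positivity, by nlinarith, by positivity, by nlinarith⟩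
  · intro x y a b c d
    obtain ⟨i, i1, i2, i3, i4⟩ := loc W ε x (by omega) a b
    obtain ⟨j, j1, j2, j3, j4⟩ := loc H δ y (by omega) c d
    have h : Dm i j := ⟨i1, i2, j1, j2⟩
    obtain ⟨i', j', h4, h5⟩ := G.cover (x := x) (y := y) h ⟨i3, by
      rw [ze i j h]; simp only [τ]; omega, j3, by rw [zn i j h]; simp only [τ]; omega⟩
    exact ⟨_, _, _, ⟨i', j', h4, rfl, rfl, rfl⟩, h5⟩
  · rintro x y _ _ _ ⟨i, j, h, rfl, rfl, rfl⟩ h4
    obtain ⟨i', j', h5, r1, r2, r3, r4⟩ := G.inside h h4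
    rw [ze _ _ h5] at r2
    rw [zn _ _ h5] at r4
    simp only [τ] at r2 r4
    obtain ⟨a, b, c, d⟩ := h5
    have := mul_nonneg hk'.le a
    have := mul_nonneg hk'.le c
    have := mul_le_mul_of_nonneg_left b hk'.le
    have := mul_le_mul_of_nonneg_left d hk'.le
    rw [mul_add, mul_add]
    omega
  · rintro x y _ _ _ _ _ _ ⟨i, j, h, rfl, rfl, rfl⟩ ⟨i', j', h', rfl, rfl, rfl⟩ h4 h5
    obtain ⟨rfl, rfl⟩ := G.disj h h' h4 h5
    exact ⟨rfl, rfl, rfl⟩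

theorem exists_cd (Q : Type) [Finite Q] : ∃ (K : ℕ) (cd : Col Q → ℕ), Function.Injective cd ∧
    cd fl = 0 ∧ (∀ j, cd (cnt j) = K + j) ∧ ∀ c, (∀ j, c ≠ cnt j) → cd c < K := by
  obtain ⟨K, ⟨e⟩⟩ := Finite.exists_equiv_fin
    (Fin 3 ⊕ Option Q ⊕ (Q → Bool) ⊕ Q × Bool × Bool × Bool)
  refine ⟨K + 1, fun
    | fl => 0 | rt => e (.inl 0) + 1 | top => e (.inl 1) + 1 | Col.star => e (.inl 2) + 1
    | st o => e (.inr (.inl o)) + 1 | bt β => e (.inr (.inr (.inl β))) + 1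
    | mv s x u v => e (.inr (.inr (.inr (s, x, u, v)))) + 1 | cnt j => K + 1 + j,
    fun a b h => ?_, rfl, fun _ => rfl, fun c hc => ?_⟩
  · have h2 : ∀ a j, K + 1 + j = (e a : ℕ) + 1 ↔ False := fun a j =>
      iff_false_intro (by have := (e a).2; omega)
    have h3 : ∀ a j, (e a : ℕ) + 1 = K + 1 + j ↔ False := fun a j =>
      iff_false_intro (by have := (e a).2; omega)
    have h4 : ∀ j, 0 = K + 1 + j ↔ False := fun j => iff_false_intro (by omega)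
    have h5 : ∀ j, K + 1 + j = 0 ↔ False := fun j => iff_false_intro (by omega)
    cases a <;> cases b <;> dsimp only at h <;>
      first | rfl | simpa [h2, h3, h4, h5, Fin.val_inj] using h
  · cases c <;> first | exact absurd rfl (hc _) | simp

theorem main (N : ℕ) (hN : 2 ≤ N) : ∃ (p : ℕ → Prop) (F : ℕ → List (List (V N))),
    ¬ ComputablePred p ∧ Computable F ∧ ∀ n, Valid (F n) ∧ Tiles (F n) ∧ (ContTiles (F n) ↔ p n) := by
  obtain ⟨Q, hQ, M, th, hex, hth, hu⟩ := exists_mach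
  obtain ⟨K, cd, ci, c0, cc, cb⟩ := exists_cd Q
  have bd : ∀ n a b c d, Til M th n a b c d →
      cd a ≤ K + n ∧ cd b ≤ K + n ∧ cd c ≤ K + n ∧ cd d ≤ K + n := by
    intro n a b c d h
    have cb' : ∀ c, (∀ j, c ≠ cnt j) → cd c ≤ K + n := fun c h => by have := cb c h; omega
    cases h <;> refine ⟨?_, ?_, ?_, ?_⟩ <;>
      first | exact (cc _).le | (rw [cc]; omega) | exact cb' _ (fun _ => by simp)
  obtain ⟨Lf, hLf⟩ : ∃ Lf : List Wg, ∀ g, g ∈ Lf ↔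
      ∃ a b c d, (∀ n, Til M th n a b c d) ∧ g = (cd a, cd b, cd c, cd d) := by
    have : {g : Wg | ∃ a b c d, (∀ n, Til M th n a b c d) ∧ g = (cd a, cd b, cd c, cd d)}.Finite :=
      (Set.finite_Iic (K, K, K, K)).subset (by
        rintro _ ⟨a, b, c, d, h, rfl⟩
        simpa using bd 0 _ _ _ _ (h 0))
    exact ⟨this.toFinset.toList, by simp⟩
  let wl : ℕ → List Wg := fun n => Lf ++ ((0, K + n, 0, cd (st (some M.q0))) ::
    (List.range n).map fun j => (K + (j + 1), K + j, 0, cd (bt fun s => decide (M.rg s = 0))))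
  have hwl : ∀ n g, g ∈ wl n ↔ ∃ a b c d, Til M th n a b c d ∧ g = (cd a, cd b, cd c, cd d) := by
    intro n g
    simp only [wl, List.mem_append, hLf, List.mem_cons, List.mem_map, List.mem_range]
    constructor
    · rintro (⟨a, b, c, d, h, rfl⟩ | rfl | ⟨j, hj, rfl⟩)
      · exact ⟨_, _, _, _, h n, rfl⟩
      · exact ⟨_, _, _, _, .c1, by rw [c0, cc]⟩
      · exact ⟨_, _, _, _, .c2 j hj, by rw [c0, cc, cc]⟩
    · rintro ⟨a, b, c, d, h, rfl⟩
      cases h with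
      | c1 => exact .inr (.inl (by rw [c0, cc]))
      | c2 j hj => exact .inr (.inr ⟨j, hj, by rw [c0, cc, cc]⟩)
      | c7 s x u h => exact .inl ⟨_, _, _, _, fun _ => .c7 s x u h, rfl⟩
      | _ => exact .inl ⟨_, _, _, _, fun _ => by constructor, rfl⟩
  let tl : ℕ → List Tl := fun n => (wl n).flatMap fun g => [(g, 0, 0), (g, 0, 1), (g, 1, 0), (g, 1, 1)]
  have htl : ∀ n t, t ∈ tl n ↔ t.1 ∈ wl n ∧ t.2.1 ≤ 1 ∧ t.2.2 ≤ 1 := by
    rintro n ⟨g, x, y⟩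
    simp only [tl, List.mem_flatMap, List.mem_cons, Prod.mk.injEq, List.not_mem_nil, or_false]
    constructor
    · rintro ⟨_, h, ⟨rfl, rfl, rfl⟩ | ⟨rfl, rfl, rfl⟩ | ⟨rfl, rfl, rfl⟩ | ⟨rfl, rfl, rfl⟩⟩ <;> simpa
    · rintro ⟨h, h1, h2⟩
      exact ⟨g, h, by simp; omega⟩
  have hB : ∀ n, ∀ t ∈ tl n, Bd (2 * (K + n) + 7 : ℕ) t := by
    rintro n ⟨g, x⟩ h
    obtain ⟨a, b, c, d, h', rfl⟩ := (hwl _ _).1 ((htl _ _).1 h).1
    have := bd _ _ _ _ _ h'
    simp only [Bd, Tl.w, Tl.e, Tl.s, Tl.n]; omega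
  refine ⟨_, fun n => (tl n).map (cells N (2 * (K + n) + 7)), hu, Primrec.to_comp ?_, fun n =>
    ⟨?_, ?_, fun h => ?_, fun h => ?_⟩⟩
  · have a : Primrec fun n => K + n := Primrec.nat_add.comp (.const K) .id
    have w : Primrec wl := Primrec.list_append.comp (.const Lf) (Primrec.list_cons.comp
      ((Primrec.const 0).pair (a.pair (.const _))) (Primrec.list_map Primrec.list_range
        ((a.comp (Primrec.succ.comp .snd)).pair ((a.comp .snd).pair (.const _))).to₂))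
    have t : Primrec tl := Primrec.list_flatMap w (Primrec.list_cons.comp (Primrec.snd.pair (.const _))
      (Primrec.list_cons.comp (Primrec.snd.pair (.const _)) (Primrec.list_cons.comp
      (Primrec.snd.pair (.const _)) (Primrec.list_cons.comp (Primrec.snd.pair (.const _))
        (.const []))))).to₂
    exact Primrec.list_map t ((prim_cells N).comp (Primrec.nat_add.comp (Primrec.nat_mul.comp
      (.const 2) (a.comp .fst)) (.const 7)) .snd).to₂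
  · intro l hl e
    obtain ⟨t, ht, rfl⟩ := List.mem_map.1 hl
    have := (mem_cells (N := N) (hB n t ht)).2 ⟨0, 0, rfl, .core le_rfl (by omega) le_rfl (by omega)
      (by omega) (by omega) (by omega) (by omega)⟩
    simp [e] at this
  · have := bd n _ _ _ _ .c11
    exact tiles_of_star hN (c := cd Col.star) (fun e => by simpa using ci (e.trans c0.symm)) (by omega)
      ((htl _ _).2 ⟨(hwl _ _).2 ⟨_, _, _, _, .c11, rfl⟩, by simp⟩)
  · obtain ⟨e, A, h1, h2, h3⟩ := pt_of_cont hN (hB n) h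
    set k : ℤ := ((2 * (K + n) + 7 : ℕ) : ℤ) with hk
    obtain ⟨p, q, t0, h4, -⟩ := h1.cover 0 0
    have ty : ∀ p q t, A p q t → ∃ a b c d, Til M th n a b c d ∧ t.1 = (cd a, cd b, cd c, cd d) :=
      fun p q t h => (hwl _ _).1 ((htl _ _).1 (h2 _ _ _ h)).1
    have k0 : 0 < k := by omega
    have nz : ∀ a, a ≠ fl → cd a ≠ 0 := fun a h e => h (ci (e.trans c0.symm))
    refine WS.halt (B := fun i j a b c d => Til M th n a b c d ∧
      ∃ x, A (p + k * i) (q + k * j) ((cd a, cd b, cd c, cd d), x))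
      ⟨fun h => h.1, ?_, ?_, ?_, ?_, ?_, fun i j dx dy hd hc => ?_⟩ hex hth ?_
    · rintro i j a b c d a' b' c' d' ⟨-, x, h⟩ ⟨-, x', h'⟩
      have := (h1.overlap h h' (by omega) (by omega) (by omega) (by omega)).2.2
      simpa [ci.eq_iff] using congrArg Prod.fst this
    · rintro i j a b c d ⟨-, x, h⟩ hn
      obtain ⟨⟨g, x'⟩, h5, h6⟩ := h1.west h (nz _ hn)
      obtain ⟨a', b', c', d', h7, rfl⟩ := ty _ _ _ h5
      obtain rfl := ci h6
      exact ⟨_, _, _, h7, x', by convert h5 using 1; ring⟩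
    · rintro i j a b c d ⟨-, x, h⟩ hn
      obtain ⟨⟨g, x'⟩, h5, h6⟩ := h1.east h (nz _ hn)
      obtain ⟨a', b', c', d', h7, rfl⟩ := ty _ _ _ h5
      obtain rfl := ci h6
      exact ⟨_, _, _, h7, x', by convert h5 using 1; ring⟩
    · rintro i j a b c d ⟨-, x, h⟩ hn
      obtain ⟨⟨g, x'⟩, h5, h6⟩ := h1.south h (nz _ hn)
      obtain ⟨a', b', c', d', h7, rfl⟩ := ty _ _ _ h5
      obtain rfl := ci h6
      exact ⟨_, _, _, h7, x', by convert h5 using 1; ring⟩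
    · rintro i j a b c d ⟨-, x, h⟩ hn
      obtain ⟨⟨g, x'⟩, h5, h6⟩ := h1.north h (nz _ hn)
      obtain ⟨a', b', c', d', h7, rfl⟩ := ty _ _ _ h5
      obtain rfl := ci h6
      exact ⟨_, _, _, h7, x', by convert h5 using 1; ring⟩
    · refine h1.chain (N := 2 ^ e) (IsCoprime.pow_right ⟨1, -(K + n + 3), by
        rw [hk]; push_cast; ring⟩) (by positivity) h3 (p + k * i) (q + k * j) dx dy hd fun m => ?_
      obtain ⟨a, b, c, d, -, x, h5⟩ := hc m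
      exact ⟨_, by convert h5 using 1 <;> ring⟩
    · obtain ⟨g, x⟩ := t0
      obtain ⟨a, b, c, d, h7, rfl⟩ := ty _ _ _ h4
      exact ⟨0, 0, a, b, c, d, h7, x, by simpa using h4⟩
  · obtain ⟨W, H, hz, vt, h1, h2, h3⟩ := rect_of_halt hex hth h
    have z : ∀ a, cd a = 0 ↔ a = fl := fun a => by rw [← c0, ci.eq_iff]
    have key := fun ε δ hε hδ => box_of_grid (k := 2 * (K + n) + 7) (W := W) (H := H) (ε := ε)
      (δ := δ) (hz := fun i j => cd (hz i j)) (vt := fun i j => cd (vt i j)) (by omega) hε hδ (hB n)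
      (fun i hi j hj => (htl _ _).2 ⟨(hwl _ _).2 ⟨_, _, _, _, h1 i hi j hj, rfl⟩, hε, hδ⟩)
      (fun i hi j hj => (z _).trans (h2 i hi j hj)) fun i hi j hj => (z _).trans (h3 i hi j hj)
    refine cont_of_box hN (hB n) (w := (2 * (K + n) + 7 : ℕ) * (W + 1))
      (h := (2 * (K + n) + 7 : ℕ) * (H + 1)) (by positivity) (by positivity) ?_
    rintro _ _ (rfl | rfl) (rfl | rfl)
    · simpa using key 0 0 (by omega) (by omega)
    · simpa using key 0 1 (by omega) (by omega)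
    · simpa using key 1 0 (by omega) (by omega)
    · simpa using key 1 1 (by omega) (by omega)

end Pool.Agent.H52.CT
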