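import Mathlib

/-! Continuous tilings of the free part of the Bernoulli shift of `ℤ^n`. -/

set_option autoImplicit false

namespace Pool.Agent.H52.CT

/-- The group `ℤ^n`. -/
abbrev V (n : ℕ) : Type := Fin n → ℤ

variable {n : ℕ}

/-- The shift `(g · x)(h) = x(h + g)` on `2^(ℤ^n)`. -/
def shift (g : V n) (x : V n → Bool) : V n → Bool := fun h => x (h + g)

/-- The free part, with the subspace topology of the product topology. -/
abbrev Free (n : ℕ) : Type := {x : V n → Bool // ∀ g : V n, g ≠ 0 → shift g x ≠ x}

/-- The shift action on the free part. -/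
def act (g : V n) (x : Free n) : Free n :=
  ⟨shift g x.1, fun h hh e => x.2 h hh (funext fun v => by
    have := congrFun e (v - g)
    simp only [shift] at this ⊢
    rwa [show v - g + h + g = v + h by abel, sub_add_cancel] at this)⟩

/-- The translates `g + T`, `(g, T) ∈ A`, form a tiling: every point lies in exactly one. -/
def IsTiling (A : Set (V n × Finset (V n))) : Prop :=
  ∀ v : V n, ∃! p : V n × Finset (V n), p ∈ A ∧ v - p.1 ∈ p.2

/-- The finite set of tiles coded by a list of lists of points. -/
def tiles (L : List (List (V n))) : Set (Finset (V n)) := {T | ∃ l ∈ L, T = l.toFinset}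

/-- All tiles are nonempty. -/
def Valid (L : List (List (V n))) : Prop := ∀ l ∈ L, l ≠ []

/-- The tiles tile `ℤ^n` by translates. -/
def Tiles (L : List (List (V n))) : Prop :=
  ∃ A : Set (V n × Finset (V n)), (∀ p ∈ A, p.2 ∈ tiles L) ∧ IsTiling A

/-- The free part admits a continuous tiling. -/
def ContTiles (L : List (List (V n))) : Prop :=
  ∃ C : Finset (V n) → Set (Free n), (∀ T ∈ tiles L, IsClopen (C T)) ∧
    ∀ x : Free n, IsTiling {p | p.2 ∈ tiles L ∧ act p.1 x ∈ C p.2}

end Pool.Agent.H52.CT
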