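import Mathlib

set_option autoImplicit false

namespace Pool.Agent.H52.CY

open Set Real

/-- `g - w` has a continuous logarithm. -/
def HasLog {X : Type} [TopologicalSpace X] (g : X → ℂ) (w : ℂ) : Prop :=
  ∃ l : X → ℂ, Continuous l ∧ ∀ x, Complex.exp (l x) = g x - w

theorem haslog_path {X : Type} [TopologicalSpace X] (g : X → ℂ) (hg : Continuous g) {w w' : ℂ}
    (h : JoinedIn (range g)ᶜ w w') (hw : HasLog g w) : HasLog g w' := by
  obtain ⟨p, hp⟩ := h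
  obtain ⟨l, hl, he⟩ := hw
  have hne : ∀ (t : unitInterval) x, g x - p t ≠ 0 := fun t x h0 =>
    hp t ⟨x, sub_eq_zero.1 h0⟩
  let H : C(unitInterval × X, {z : ℂ // z ≠ 0}) :=
    ⟨fun q => ⟨g q.2 - p q.1, hne q.1 q.2⟩, by fun_prop⟩
  let f : C(X, ℂ) := ⟨l, hl⟩
  have H0 : ∀ a, H (0, a) = (fun z : ℂ ↦ (⟨_, z.exp_ne_zero⟩ : {z : ℂ // z ≠ 0})) (f a) := by
    intro a
    apply Subtype.ext
    simp [H, f, he]
  refine ⟨fun x => Complex.isCoveringMap_exp.liftHomotopy H f H0 (1, x), by fun_prop, fun x => ?_⟩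
  have := congrArg Subtype.val
    (congr_fun (Complex.isCoveringMap_exp.liftHomotopy_lifts H f H0) (1, x))
  simpa [H] using this

theorem haslog_far {X : Type} [TopologicalSpace X] (g : X → ℂ) (hg : Continuous g) (w : ℂ)
    (h : ∀ x, ‖g x‖ < ‖w‖) (x0 : X) : HasLog g w := by
  have hw : w ≠ 0 := by
    intro h0
    have := h x0
    rw [h0, norm_zero] at this
    exact absurd this (not_lt.2 (norm_nonneg _))
  have hs : ∀ x, 1 + (-(g x / w)) ∈ Complex.slitPlane := fun x => by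
    apply Complex.mem_slitPlane_of_norm_lt_one
    rw [norm_neg, norm_div, div_lt_one (norm_pos_iff.2 hw)]
    exact h x
  refine ⟨fun x => Complex.log (-w) + Complex.log (1 + (-(g x / w))), ?_, fun x => ?_⟩
  · exact continuous_const.add (Continuous.clog (by fun_prop) hs)
  · rw [Complex.exp_add, Complex.exp_log (neg_ne_zero.2 hw),
      Complex.exp_log (Complex.slitPlane_ne_zero (hs x))]
    field_simp
    ring

theorem cross (φ : ℝ → ℝ) (hφ : Continuous φ) {u0 u1 A B : ℝ} (hu : u0 ≤ u1) (hAB : A ≤ B)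
    (h0 : φ u0 ≤ A) (h1 : B ≤ φ u1) :
    ∃ v0 v1, u0 ≤ v0 ∧ v0 ≤ v1 ∧ v1 ≤ u1 ∧ φ v0 = A ∧ φ v1 = B ∧
      ∀ u ∈ Icc v0 v1, φ u ∈ Icc A B := by
  have ivt : ∀ a b c, a ≤ b → φ a ≤ c → c ≤ φ b → ∃ u ∈ Icc a b, φ u = c := fun a b c hab ha hb =>
    intermediate_value_Icc hab hφ.continuousOn ⟨ha, hb⟩
  have cpt : ∀ a b c, IsCompact (Icc a b ∩ φ ⁻¹' {c}) := fun a b c =>
    isCompact_Icc.inter_right (isClosed_singleton.preimage hφ)
  obtain ⟨v1, ⟨hv1, e1⟩, hl⟩ := (cpt u0 u1 B).exists_isLeast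
    (by obtain ⟨u, hu, e⟩ := ivt u0 u1 B hu (h0.trans hAB) h1; exact ⟨u, hu, e⟩)
  have e1' : φ v1 = B := e1
  obtain ⟨v0, ⟨hv0, e0⟩, hg⟩ := (cpt u0 v1 A).exists_isGreatest
    (by obtain ⟨u, hu, e⟩ := ivt u0 v1 A hv1.1 h0 (by rw [e1']; exact hAB); exact ⟨u, hu, e⟩)
  have e0' : φ v0 = A := e0
  refine ⟨v0, v1, hv0.1, hv0.2, hv1.2, e0', e1', fun u hu => ⟨?_, ?_⟩⟩
  · by_contra hc
    push Not at hc
    obtain ⟨x, hx, e⟩ := ivt u v1 A hu.2 hc.le (by rw [e1']; exact hAB)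
    have : x ≤ v0 := hg ⟨⟨hv0.1.trans (hu.1.trans hx.1), hx.2⟩, e⟩
    have hxu : u = v0 := le_antisymm (hx.1.trans this) hu.1
    rw [hxu, e0'] at hc
    exact lt_irrefl _ hc
  · by_contra hc
    push Not at hc
    obtain ⟨x, hx, e⟩ := ivt u0 u B (hv0.1.trans hu.1) (h0.trans hAB) hc.le
    have : v1 ≤ x := hl ⟨⟨hx.1, hx.2.trans (hu.2.trans hv1.2)⟩, e⟩
    have hxu : u = v1 := le_antisymm hu.2 (this.trans hx.2)
    rw [hxu, e1'] at hc
    exact lt_irrefl _ hc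

/-- A window crossing: if `φ` gains `2 π` it crosses a window `[π/12, π/4] + k π`. -/
theorem window (φ : ℝ → ℝ) (hφ : Continuous φ) {u0 u1 : ℝ} (hu : u0 ≤ u1)
    (h : φ u0 + 2 * π ≤ φ u1) :
    ∃ (k : ℤ) (v0 v1 : ℝ), u0 ≤ v0 ∧ v0 ≤ v1 ∧ v1 ≤ u1 ∧ φ v0 = π / 12 + k * π ∧
      φ v1 = π / 4 + k * π ∧ ∀ u ∈ Icc v0 v1, φ u ∈ Icc (π / 12 + k * π) (π / 4 + k * π) := by
  have hp := pi_pos
  refine ⟨⌈φ u0 / π⌉, cross φ hφ hu (by linarith) ?_ ?_⟩
  · have := Int.le_ceil (φ u0 / π)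
    rw [div_le_iff₀ hp] at this
    linarith
  · have := Int.ceil_lt_add_one (φ u0 / π)
    have h2 : (⌈φ u0 / π⌉ : ℝ) * π < (φ u0 / π + 1) * π := mul_lt_mul_of_pos_right this hp
    rw [add_mul, div_mul_cancel₀ _ hp.ne'] at h2
    linarith

theorem sin_window (k : ℤ) {m : ℝ} (h : m ∈ Icc (π / 12 + k * π) (π / 4 + k * π)) :
    1 / 2 ≤ sin (2 * m) := by
  have hp := pi_pos
  have e : sin (2 * m) = sin (2 * m - k * (2 * π)) := (sin_sub_int_mul_two_pi _ _).symm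
  rw [e, ← sin_pi_div_six]
  apply sin_le_sin_of_le_of_le_pi_div_two <;> linarith [h.1, h.2]

theorem sin_lo (k : ℤ) : sin (2 * (π / 12 + k * π)) = 1 / 2 := by
  rw [← sin_pi_div_six, ← sin_add_int_mul_two_pi (π / 6) k]
  congr 1
  ring

theorem sin_hi (k : ℤ) : sin (2 * (π / 4 + k * π)) = 1 := by
  rw [← sin_pi_div_two, ← sin_add_int_mul_two_pi (π / 2) k]
  congr 1
  ring

/-- Accelerating orbits of the lifted map. -/
theorem orbit (σ τ : ℝ → ℝ) (h : ℝ × ℝ → ℝ) (d : ℝ) (hd : 100 ≤ d) (hσc : Continuous σ)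
    (hτc : Continuous τ) (hh : Continuous h) (hst : ∀ s, σ (τ s) = s)
    (hL : ∀ a b, |σ a - σ b| ≤ 2 * |a - b|) (hm : Monotone τ) (h0 : ∀ z, 0 ≤ h z)
    (h1 : ∀ z, h z ≤ π) (F : ℝ × ℝ → ℝ × ℝ)
    (hF : ∀ z, F z = (σ (τ z.1 + h z + h z) + d * (z.2 + 3 / 2 * sin (2 * (τ z.1 + h z))),
      z.2 + 3 / 2 * sin (2 * (τ z.1 + h z)))) (y0 : ℝ) (n : ℕ) :
    ∃ u, y0 + 3 / 4 * n ≤ (F^[n] (u, y0)).2 := by
  have hp := pi_pos
  have hp4 := pi_lt_four
  have hFc : Continuous F := by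
    have : F = fun z => (σ (τ z.1 + h z + h z) + d * (z.2 + 3 / 2 * sin (2 * (τ z.1 + h z))),
      z.2 + 3 / 2 * sin (2 * (τ z.1 + h z))) := funext hF
    rw [this]
    fun_prop
  have hτ : ∀ a b, a ≤ b → (b - a) / 2 ≤ τ b - τ a := fun a b hab => by
    have := hL (τ b) (τ a)
    rw [hst, hst, abs_of_nonneg (sub_nonneg.2 hab), abs_of_nonneg (sub_nonneg.2 (hm hab))] at this
    linarith
  set M : ℝ × ℝ → ℝ := fun z => τ z.1 + h z with hM
  have hMc : Continuous M := by fun_prop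
  have key : ∀ n : ℕ, ∃ (k : ℤ) (v0 v1 : ℝ), v0 ≤ v1 ∧ M (F^[n] (v0, y0)) = π / 12 + k * π ∧
      M (F^[n] (v1, y0)) = π / 4 + k * π ∧
      (∀ u ∈ Icc v0 v1, M (F^[n] (u, y0)) ∈ Icc (π / 12 + k * π) (π / 4 + k * π)) ∧
      -(8 * π) ≤ d * ((F^[n] (v1, y0)).2 - (F^[n] (v0, y0)).2) ∧
      ∀ u ∈ Icc v0 v1, y0 + 3 / 4 * n ≤ (F^[n] (u, y0)).2 := by
    intro n
    induction n with
    | zero =>
      obtain ⟨k, v0, v1, -, h01, -, e0, e1, hw⟩ := window (fun u => M (u, y0)) (by fun_prop)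
        (u0 := 0) (u1 := 6 * π) (by linarith) (by
          have := hτ 0 (6 * π) (by linarith)
          have a1 := h1 (0, y0)
          have a2 := h0 (6 * π, y0)
          simp only [hM]
          linarith)
      exact ⟨k, v0, v1, h01, e0, e1, hw, by simp; linarith, fun u _ => by simp⟩
    | succ n ih =>
      obtain ⟨k, v0, v1, h01, e0, e1, hw, hy, hg⟩ := ih
      have hc : Continuous fun u : ℝ => F^[n] (u, y0) := (hFc.iterate n).comp (by fun_prop)
      have hs : ∀ u ∈ Icc v0 v1, ∀ u' ∈ Icc v0 v1,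
          |σ (M (F^[n] (u, y0)) + h (F^[n] (u, y0))) -
            σ (M (F^[n] (u', y0)) + h (F^[n] (u', y0)))| ≤ 4 * π := by
        intro u hu u' hu'
        refine (hL _ _).trans ?_
        have a1 := hw u hu
        have a2 := hw u' hu'
        have : |M (F^[n] (u, y0)) + h (F^[n] (u, y0)) -
            (M (F^[n] (u', y0)) + h (F^[n] (u', y0)))| ≤ 2 * π := by
          rw [abs_le]
          constructor <;>
            linarith [a1.1, a1.2, a2.1, a2.2, h0 (F^[n] (u, y0)), h1 (F^[n] (u, y0)),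
              h0 (F^[n] (u', y0)), h1 (F^[n] (u', y0))]
        linarith
      have f1 : ∀ u, (F^[n + 1] (u, y0)).1 = σ (M (F^[n] (u, y0)) + h (F^[n] (u, y0))) +
          d * (F^[n + 1] (u, y0)).2 := fun u => by
        rw [Function.iterate_succ_apply', hF]
      have f2 : ∀ u, (F^[n + 1] (u, y0)).2 = (F^[n] (u, y0)).2 +
          3 / 2 * sin (2 * M (F^[n] (u, y0))) := fun u => by
        rw [Function.iterate_succ_apply', hF]
      have hc' : Continuous fun u : ℝ => F^[n + 1] (u, y0) :=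
        (hFc.iterate (n + 1)).comp (by fun_prop)
      obtain ⟨k', w0, w1, b0, b01, b1, e0', e1', hw'⟩ := window (fun u => M (F^[n + 1] (u, y0)))
        (hMc.comp hc') h01 (by
          have a0 := f2 v0
          have a1 := f2 v1
          rw [e0, sin_lo] at a0
          rw [e1, sin_hi] at a1
          have a2 := abs_le.1 (hs v1 ⟨h01, le_rfl⟩ v0 ⟨le_rfl, h01⟩)
          have a3 : 6 * π ≤ (F^[n + 1] (v1, y0)).1 - (F^[n + 1] (v0, y0)).1 := by
            rw [f1, f1, a0, a1]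
            nlinarith [a2.1, pi_lt_d2]
          have a4 := hτ (F^[n + 1] (v0, y0)).1 (F^[n + 1] (v1, y0)).1 (by linarith)
          have a5 := h1 (F^[n + 1] (v0, y0))
          have a6 := h0 (F^[n + 1] (v1, y0))
          simp only [hM]
          linarith)
      refine ⟨k', w0, w1, b01, e0', e1', hw', ?_, fun u hu => ?_⟩
      · have a2 := abs_le.1 (hs w1 ⟨b0.trans b01, b1⟩ w0 ⟨b0, b01.trans b1⟩)
        have a3 := hL (τ (F^[n + 1] (w1, y0)).1) (τ (F^[n + 1] (w0, y0)).1)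
        rw [hst, hst] at a3
        have a4 : |τ (F^[n + 1] (w1, y0)).1 - τ (F^[n + 1] (w0, y0)).1| ≤ 2 * π := by
          simp only [hM] at e0' e1'
          rw [abs_le]
          constructor <;>
            linarith [h0 (F^[n + 1] (w1, y0)), h1 (F^[n + 1] (w1, y0)),
              h0 (F^[n + 1] (w0, y0)), h1 (F^[n + 1] (w0, y0))]
        have a5 := abs_le.1 (a3.trans (by linarith : _ ≤ 4 * π))
        have a6 := f1 w0
        have a7 := f1 w1
        linarith [a5.1, a2.2]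
      · have hu' : u ∈ Icc v0 v1 := ⟨b0.trans hu.1, hu.2.trans b1⟩
        have a1 := sin_window k (hw u hu')
        have a2 := hg u hu'
        rw [f2]
        push_cast
        linarith
  obtain ⟨k, v0, v1, h01, -, -, -, -, hg⟩ := key n
  exact ⟨v0, hg v0 ⟨le_rfl, h01⟩⟩

end Pool.Agent.H52.CY
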