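import Pool.Agent.H52.CY1

set_option autoImplicit false

namespace Pool.Agent.H52.CY

open Set Real

/-- Speed of the ellipse. -/
noncomputable def v (t : ℝ) : ℝ := √(1 + 3 * sin t ^ 2)

/-- The ellipse with semi-axes 2 and 1. -/
noncomputable def E (t : ℝ) : ℂ := ((2 * cos t : ℝ) : ℂ) + ((sin t : ℝ) : ℂ) * Complex.I

/-- Its velocity. -/
noncomputable def E1 (t : ℝ) : ℂ := ((-(2 * sin t) : ℝ) : ℂ) + ((cos t : ℝ) : ℂ) * Complex.I

/-- Arc length. -/
noncomputable def sg (t : ℝ) : ℝ := ∫ u in (0 : ℝ)..t, v u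

theorem E_re (t : ℝ) : (E t).re = 2 * cos t := by
  simp only [E, Complex.add_re, Complex.mul_re, Complex.ofReal_re, Complex.ofReal_im,
    Complex.I_re, Complex.I_im]; ring
theorem E_im (t : ℝ) : (E t).im = sin t := by
  simp only [E, Complex.add_im, Complex.mul_im, Complex.ofReal_re, Complex.ofReal_im,
    Complex.I_re, Complex.I_im]; ring
theorem E1_re (t : ℝ) : (E1 t).re = -(2 * sin t) := by
  simp only [E1, Complex.add_re, Complex.mul_re, Complex.ofReal_re, Complex.ofReal_im,
    Complex.I_re, Complex.I_im]; ring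
theorem E1_im (t : ℝ) : (E1 t).im = cos t := by
  simp only [E1, Complex.add_im, Complex.mul_im, Complex.ofReal_re, Complex.ofReal_im,
    Complex.I_re, Complex.I_im]; ring

theorem v_sq (t : ℝ) : v t ^ 2 = 1 + 3 * sin t ^ 2 := sq_sqrt (by positivity)
theorem v_ge (t : ℝ) : 1 ≤ v t := by
  unfold v; rw [one_le_sqrt]; nlinarith [sq_nonneg (sin t)]
theorem v_pos (t : ℝ) : 0 < v t := lt_of_lt_of_le one_pos (v_ge t)
theorem v_le (t : ℝ) : v t ≤ 2 := by
  unfold v; rw [sqrt_le_iff]; constructor <;> nlinarith [sin_sq_le_one t]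
theorem v_smooth : ContDiff ℝ (⊤ : ℕ∞) v :=
  ContDiff.sqrt (by fun_prop) fun t => by positivity
theorem v_per (t : ℝ) (k : ℤ) : v (t + k * (2 * π)) = v t := by
  unfold v; rw [sin_add_int_mul_two_pi]
theorem E_per (t : ℝ) (k : ℤ) : E (t + k * (2 * π)) = E t := by
  unfold E; rw [sin_add_int_mul_two_pi, cos_add_int_mul_two_pi]
theorem E1_per (t : ℝ) (k : ℤ) : E1 (t + k * (2 * π)) = E1 t := by
  unfold E1; rw [sin_add_int_mul_two_pi, cos_add_int_mul_two_pi]

theorem norm_E1 (t : ℝ) : ‖E1 t‖ = v t := by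
  rw [Complex.norm_eq_sqrt_sq_add_sq, E1_re, E1_im, v]
  congr 1
  nlinarith [sin_sq_add_cos_sq t]

theorem E_smooth : ContDiff ℝ (⊤ : ℕ∞) E := by
  have h1 : ContDiff ℝ (⊤ : ℕ∞) fun t : ℝ => ((2 * cos t : ℝ) : ℂ) :=
    Complex.ofRealCLM.contDiff.comp (f := fun t : ℝ => 2 * cos t) (by fun_prop)
  have h2 : ContDiff ℝ (⊤ : ℕ∞) fun t : ℝ => ((sin t : ℝ) : ℂ) :=
    Complex.ofRealCLM.contDiff.comp (f := fun t : ℝ => sin t) (by fun_prop)
  exact h1.add (h2.mul contDiff_const)

theorem E_deriv (t : ℝ) : HasDerivAt E (E1 t) t := by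
  have h1 : HasDerivAt (fun t : ℝ => ((2 * cos t : ℝ) : ℂ)) ((-(2 * sin t) : ℝ) : ℂ) t := by
    have := ((hasDerivAt_cos t).const_mul 2).ofReal_comp
    convert this using 2
    ring
  exact h1.add ((hasDerivAt_sin t).ofReal_comp.mul_const Complex.I)

theorem sg_deriv (t : ℝ) : HasDerivAt sg (v t) t :=
  (v_smooth.continuous.integral_hasStrictDerivAt 0 t).hasDerivAt

theorem v_int (a b : ℝ) : IntervalIntegrable v MeasureTheory.volume a b :=
  v_smooth.continuous.intervalIntegrable a b

theorem sg_sub (a b : ℝ) : sg b - sg a = ∫ u in a..b, v u :=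
  intervalIntegral.integral_interval_sub_left (v_int 0 b) (v_int 0 a)

theorem sg_bd {a b : ℝ} (h : a ≤ b) : b - a ≤ sg b - sg a ∧ sg b - sg a ≤ 2 * (b - a) := by
  rw [sg_sub]
  constructor
  · have := intervalIntegral.integral_mono_on (f := fun _ => (1 : ℝ)) (g := v) h
      (by simp) (v_int a b) fun x _ => v_ge x
    simpa using this
  · have := intervalIntegral.integral_mono_on (f := v) (g := fun _ => (2 : ℝ)) h
      (v_int a b) (by simp) fun x _ => v_le x
    simp only [intervalIntegral.integral_const, smul_eq_mul] at this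
    linarith

theorem sg_lip (a b : ℝ) : |sg a - sg b| ≤ 2 * |a - b| := by
  rcases le_total a b with h | h
  · have := sg_bd h
    rw [abs_sub_comm, abs_sub_comm a, abs_of_nonneg (by linarith), abs_of_nonneg (by linarith)]
    linarith
  · have := sg_bd h
    rw [abs_of_nonneg (by linarith), abs_of_nonneg (by linarith)]
    linarith

theorem sg_mono : StrictMono sg := fun a b h => by linarith [(sg_bd h.le).1]

theorem sg_zero : sg 0 = 0 := by simp [sg]

theorem sg_smooth : ContDiff ℝ (⊤ : ℕ∞) sg := by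
  rw [contDiff_infty_iff_deriv]
  refine ⟨fun t => (sg_deriv t).differentiableAt, ?_⟩
  have : deriv sg = v := funext fun t => (sg_deriv t).deriv
  rw [this]
  exact v_smooth

theorem sg_surj : Function.Surjective sg := fun p => by
  apply mem_range_of_exists_le_of_exists_ge sg_smooth.continuous
  · refine ⟨-|p|, ?_⟩
    have := (sg_bd (a := -|p|) (b := 0) (by simp)).1
    rw [sg_zero] at this
    linarith [neg_abs_le p]
  · refine ⟨|p|, ?_⟩
    have := (sg_bd (a := 0) (b := |p|) (by simp)).1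
    rw [sg_zero] at this
    linarith [le_abs_self p]

/-- The length. -/
noncomputable def Len : ℝ := sg (2 * π)

theorem Len_pos : 0 < Len := by
  have := sg_mono (a := 0) (b := 2 * π) (by positivity)
  rwa [sg_zero] at this

theorem sg_per (t : ℝ) (k : ℤ) : sg (t + k * (2 * π)) = sg t + k * Len := by
  have hp : Function.Periodic v (2 * π) := fun t => by simpa using v_per t 1
  have h1 := hp.intervalIntegral_add_zsmul_eq k t v_int
  rw [hp.intervalIntegral_add_eq t 0, zero_add, ← sg_sub, zsmul_eq_mul, zsmul_eq_mul] at h1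
  have : Len = ∫ x in (0 : ℝ)..2 * π, v x := rfl
  rw [this]
  linarith

/-- The inverse of arc length. -/
noncomputable def tau : ℝ → ℝ := (sg_mono.orderIsoOfSurjective sg sg_surj).symm

theorem sg_tau (s : ℝ) : sg (tau s) = s :=
  (sg_mono.orderIsoOfSurjective sg sg_surj).apply_symm_apply s

theorem tau_sg (t : ℝ) : tau (sg t) = t :=
  (sg_mono.orderIsoOfSurjective sg sg_surj).symm_apply_apply t

theorem tau_mono : Monotone tau := (sg_mono.orderIsoOfSurjective sg sg_surj).symm.monotone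

theorem tau_smooth : ContDiff ℝ (⊤ : ℕ∞) tau :=
  (sg_mono.orderIsoOfSurjective sg sg_surj).toHomeomorph.contDiff_symm_deriv
    (fun x => (v_pos x).ne') sg_deriv sg_smooth

theorem tau_deriv (s : ℝ) : HasDerivAt tau (v (tau s))⁻¹ s :=
  HasDerivAt.of_local_left_inverse tau_smooth.continuous.continuousAt (sg_deriv _) (v_pos _).ne'
    (Filter.Eventually.of_forall sg_tau)

theorem tau_per (s : ℝ) (k : ℤ) : tau (s + k * Len) = tau s + k * (2 * π) := by
  apply sg_mono.injective
  rw [sg_tau, sg_per, sg_tau]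

/-- The ellipse by arc length. -/
noncomputable def G (s : ℝ) : ℂ := E (tau s)

theorem G_smooth : ContDiff ℝ (⊤ : ℕ∞) G := E_smooth.comp tau_smooth

theorem G_deriv (s : ℝ) : deriv G s = (((v (tau s))⁻¹ : ℝ) : ℂ) * E1 (tau s) := by
  have := (E_deriv (tau s)).scomp s (tau_deriv s)
  exact this.deriv

theorem G_per (s : ℝ) (k : ℤ) : G (s + k * Len) = G s := by
  unfold G; rw [tau_per, E_per]

theorem dG_per (s : ℝ) (k : ℤ) : deriv G (s + k * Len) = deriv G s := by
  rw [G_deriv, G_deriv, tau_per, E1_per, v_per]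

theorem norm_dG (s : ℝ) : ‖deriv G s‖ = 1 := by
  rw [G_deriv, norm_mul, norm_E1, Complex.norm_real, norm_inv, Real.norm_eq_abs,
    abs_of_pos (v_pos _), inv_mul_cancel₀ (v_pos _).ne']

theorem G_inj {s s' : ℝ} (h : G s = G s') : ∃ k : ℤ, s' = s + k * Len := by
  have h1 := congrArg Complex.re h
  have h2 := congrArg Complex.im h
  simp only [G, E_re, E_im] at h1 h2
  have h3 : Circle.exp (tau s') = Circle.exp (tau s) := by
    apply Subtype.ext
    rw [Circle.coe_exp, Circle.coe_exp]
    apply Complex.ext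
    · rw [Complex.exp_ofReal_mul_I_re, Complex.exp_ofReal_mul_I_re]; linarith
    · rw [Complex.exp_ofReal_mul_I_im, Complex.exp_ofReal_mul_I_im]; linarith
  obtain ⟨k, hk⟩ := Circle.exp_eq_exp.1 h3
  refine ⟨k, ?_⟩
  rw [← sg_tau s', hk, sg_per, sg_tau]

theorem G_eq (s : ℝ) : (G s).re ^ 2 / 4 + (G s).im ^ 2 = 1 := by
  simp only [G, E_re, E_im]
  nlinarith [sin_sq_add_cos_sq (tau s)]

theorem G_range : range G = {z : ℂ | z.re ^ 2 / 4 + z.im ^ 2 = 1} := by
  ext z
  constructor
  · rintro ⟨s, rfl⟩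
    exact G_eq s
  · intro hz
    have hz' : z.re ^ 2 / 4 + z.im ^ 2 = 1 := hz
    let w : ℂ := ⟨z.re / 2, z.im⟩
    have hw : ‖w‖ = 1 := by
      rw [Complex.norm_eq_sqrt_sq_add_sq]
      have : w.re ^ 2 + w.im ^ 2 = 1 := by simp only [w]; linarith
      rw [this, sqrt_one]
    have hw0 : w ≠ 0 := by intro h0; rw [h0] at hw; simp at hw
    refine ⟨sg w.arg, ?_⟩
    apply Complex.ext
    · simp only [G, tau_sg, E_re]
      rw [Complex.cos_arg hw0, hw]
      simp only [w]
      ring
    · simp only [G, tau_sg, E_im]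
      rw [Complex.sin_arg, hw]
      simp [w]

theorem G_left (s s' : ℝ) (h : G s' ≠ G s) :
    0 < ((starRingEnd ℂ) (deriv G s) * (G s' - G s)).im := by
  rw [G_deriv]
  simp only [G, map_mul, Complex.conj_ofReal, Complex.mul_im, Complex.mul_re, Complex.ofReal_re,
    Complex.ofReal_im, Complex.conj_re, Complex.conj_im, Complex.sub_re, Complex.sub_im, E_re, E_im,
    E1_re, E1_im]
  have hv := inv_pos.2 (v_pos (tau s))
  have e1 := sin_sq_add_cos_sq (tau s)
  have e2 := sin_sq_add_cos_sq (tau s')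
  have hne : 0 < (cos (tau s') - cos (tau s)) ^ 2 + (sin (tau s') - sin (tau s)) ^ 2 := by
    by_contra hc
    push Not at hc
    apply h
    have a1 : cos (tau s') - cos (tau s) = 0 := by
      nlinarith [sq_nonneg (cos (tau s') - cos (tau s)), sq_nonneg (sin (tau s') - sin (tau s))]
    have a2 : sin (tau s') - sin (tau s) = 0 := by
      nlinarith [sq_nonneg (cos (tau s') - cos (tau s)), sq_nonneg (sin (tau s') - sin (tau s))]
    apply Complex.ext
    · simp only [G, E_re]; linarith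
    · simp only [G, E_im]; linarith
  have : 0 < (v (tau s))⁻¹ * ((cos (tau s') - cos (tau s)) ^ 2 +
    (sin (tau s') - sin (tau s)) ^ 2) := mul_pos hv hne
  convert this using 1
  linear_combination (v (tau s))⁻¹ * e1 - (v (tau s))⁻¹ * e2

end Pool.Agent.H52.CY
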