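import Pool.Agent.H52.CY2

set_option autoImplicit false

namespace Pool.Agent.H52.CY

open Set Real

/-- The angle with cotangent `y`. -/
noncomputable def al (y : ℝ) : ℝ := π / 2 - arctan y

theorem al_mem (y : ℝ) : al y ∈ Ioo 0 π :=
  ⟨by unfold al; linarith [arctan_lt_pi_div_two y],
    by unfold al; linarith [neg_pi_div_two_lt_arctan y]⟩

theorem al_cont : Continuous al := by unfold al; fun_prop

theorem sin_al (y : ℝ) : 0 < sin (al y) := sin_pos_of_pos_of_lt_pi (al_mem y).1 (al_mem y).2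

theorem cos_al (y : ℝ) : cos (al y) = y * sin (al y) := by
  unfold al
  rw [cos_pi_div_two_sub, sin_pi_div_two_sub, sin_arctan, cos_arctan]
  ring

theorem cot_al (y : ℝ) : cot (al y) = y := by
  rw [cot_eq_cos_div_sin, cos_al, mul_div_cancel_right₀ _ (sin_al y).ne']

theorem al_cot {a : ℝ} (h : a ∈ Ioo 0 π) : al (cot a) = a := by
  have : cot a = tan (π / 2 - a) := by
    rw [cot_eq_cos_div_sin, tan_eq_sin_div_cos, cos_pi_div_two_sub, sin_pi_div_two_sub]
  rw [this, al, arctan_tan (by linarith [h.2]) (by linarith [h.1])]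
  ring

theorem dir (t y h : ℝ) (hs : 0 < sin h)
    (hr : 2 * y * sin h = (1 + 3 * sin t ^ 2) * cos h + 3 * sin t * cos t * sin h) :
    ∃ c : ℝ, 0 < c ∧ E1 t * Complex.exp ((al y : ℝ) * Complex.I) = c * E1 (t + h) := by
  have h1 := sin_al y
  have e := sin_sq_add_cos_sq t
  refine ⟨sin (al y) * (1 + 3 * sin t ^ 2) / (2 * sin h), by positivity, ?_⟩
  apply Complex.ext
  · simp only [Complex.mul_re, Complex.exp_ofReal_mul_I_re, Complex.exp_ofReal_mul_I_im, E1_re,
      E1_im, Complex.ofReal_re, Complex.ofReal_im, cos_al, sin_add]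
    field_simp
    linear_combination (-sin (al y) * sin t) * hr
  · simp only [Complex.mul_im, Complex.exp_ofReal_mul_I_re, Complex.exp_ofReal_mul_I_im, E1_re,
      E1_im, Complex.ofReal_re, Complex.ofReal_im, cos_al, cos_add]
    field_simp
    linear_combination (sin (al y) * cos t) * hr + (3 * sin (al y) * sin t * sin h) * e

theorem chord (m h : ℝ) : E (m + h) = E (m - h) + ((2 * sin h : ℝ) : ℂ) * E1 m := by
  apply Complex.ext
  · simp only [Complex.add_re, Complex.mul_re, E_re, E1_re, E1_im, Complex.ofReal_re,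
      Complex.ofReal_im, cos_add, cos_sub]
    ring
  · simp only [Complex.add_im, Complex.mul_im, E_im, E1_re, E1_im, Complex.ofReal_re,
      Complex.ofReal_im, sin_add, sin_sub]
    ring

/-- The billiard relation in real coordinates. -/
def R (s a s1 a1 : ℝ) : Prop :=
  ∃ l : ℝ, 0 < l ∧ G s1 = G s + l * (deriv G s * Complex.exp (a * Complex.I)) ∧
    deriv G s1 = deriv G s * Complex.exp (a * Complex.I) * Complex.exp (a1 * Complex.I)

/-- Half the parameter jump. -/
noncomputable def hh (z : ℝ × ℝ) : ℝ :=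
  al ((2 * z.2 - 3 * sin (tau z.1) * cos (tau z.1)) / (1 + 3 * sin (tau z.1) ^ 2))

theorem hh_cont : Continuous hh := by
  have := tau_smooth.continuous
  refine al_cont.comp (Continuous.div (by fun_prop) (by fun_prop) fun z => by positivity)

theorem R_ex (z : ℝ × ℝ) : R z.1 (al z.2) (sg (tau z.1 + hh z + hh z))
    (al (z.2 + 3 / 2 * sin (2 * (tau z.1 + hh z)))) := by
  have hs : 0 < sin (hh z) := sin_al _
  have hc : cos (hh z) = (2 * z.2 - 3 * sin (tau z.1) * cos (tau z.1)) /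
    (1 + 3 * sin (tau z.1) ^ 2) * sin (hh z) := cos_al _
  set t := tau z.1 with ht
  set h := hh z with hh'
  have hr : 2 * z.2 * sin h = (1 + 3 * sin t ^ 2) * cos h + 3 * sin t * cos t * sin h := by
    rw [hc]
    field_simp
    ring
  have e1 := sin_sq_add_cos_sq t
  have e2 := sin_sq_add_cos_sq h
  obtain ⟨c, hc0, hc1⟩ := dir t z.2 h hs hr
  obtain ⟨c', hc0', hc1'⟩ := dir (t + h) (z.2 + 3 / 2 * sin (2 * (t + h))) h hs (by
    rw [sin_two_mul, sin_add, cos_add]
    linear_combination hr + (-3 * sin h ^ 2 * cos h) * e1 * 0 +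
      (-3 * sin t ^ 2 * cos h - 3 * sin t * cos t * sin h) * e2)
  have hv := v_pos t
  have hv1 := v_pos (t + h + h)
  have hu : deriv G z.1 * Complex.exp ((al z.2 : ℝ) * Complex.I) =
      (((v t)⁻¹ * c : ℝ) : ℂ) * E1 (t + h) := by
    rw [G_deriv, ← ht, mul_assoc, hc1]
    push_cast
    ring
  refine ⟨2 * sin h * v t / c, by positivity, ?_, ?_⟩
  · rw [hu, G, G, tau_sg, ← ht, chord, add_sub_cancel_right, ← mul_assoc, ← Complex.ofReal_mul]
    congr 3
    field_simp
  · have h1 : deriv G z.1 * Complex.exp ((al z.2 : ℝ) * Complex.I) *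
        Complex.exp ((al (z.2 + 3 / 2 * sin (2 * (t + h))) : ℝ) * Complex.I) =
        (((v t)⁻¹ * c * c' * v (t + h + h) : ℝ) : ℂ) * deriv G (sg (t + h + h)) := by
      rw [hu, mul_assoc, hc1', G_deriv, tau_sg, ← mul_assoc, ← mul_assoc, ← Complex.ofReal_mul,
        ← Complex.ofReal_mul]
      congr 2
      field_simp
    have h2 := congrArg norm h1
    rw [norm_mul, norm_mul, norm_mul, norm_dG, norm_dG, Complex.norm_exp_ofReal_mul_I,
      Complex.norm_exp_ofReal_mul_I, Complex.norm_real, Real.norm_eq_abs,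
      abs_of_pos (by positivity)] at h2
    have h3 : (v t)⁻¹ * c * c' * v (t + h + h) = 1 := by linarith
    rw [h1, h3]
    simp

theorem R_uniq {s a s1 a1 s1' a1' : ℝ} (h : R s a s1 a1) (h' : R s a s1' a1')
    (m : a1 ∈ Ioo 0 π) (m' : a1' ∈ Ioo 0 π) : (∃ k : ℤ, s1' = s1 + k * Len) ∧ a1' = a1 := by
  obtain ⟨l, hl, e1, e2⟩ := h
  obtain ⟨l', hl', e1', e2'⟩ := h'
  set u := deriv G s * Complex.exp (a * Complex.I) with hu
  have hn : ‖u‖ = 1 := by
    rw [hu, norm_mul, norm_dG, Complex.norm_exp_ofReal_mul_I, mul_one]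
  have hu0 : u ≠ 0 := by intro h0; rw [h0] at hn; simp at hn
  have hq : 0 < u.re ^ 2 / 4 + u.im ^ 2 := by
    have := Complex.normSq_pos.2 hu0
    rw [Complex.normSq_apply] at this
    nlinarith [sq_nonneg u.re, sq_nonneg u.im]
  have q0 := G_eq s
  have q1 := G_eq s1
  have q2 := G_eq s1'
  rw [e1] at q1
  rw [e1'] at q2
  simp only [Complex.add_re, Complex.add_im, Complex.mul_re, Complex.mul_im, Complex.ofReal_re,
    Complex.ofReal_im, zero_mul, sub_zero, add_zero] at q1 q2
  have a1 : l * ((G s).re * u.re / 2 + 2 * (G s).im * u.im + l * (u.re ^ 2 / 4 + u.im ^ 2)) = 0 := by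
    linear_combination q1 - q0
  have a2 : l' * ((G s).re * u.re / 2 + 2 * (G s).im * u.im +
      l' * (u.re ^ 2 / 4 + u.im ^ 2)) = 0 := by
    linear_combination q2 - q0
  have b1 := (mul_eq_zero.1 a1).resolve_left hl.ne'
  have b2 := (mul_eq_zero.1 a2).resolve_left hl'.ne'
  have hll : l' = l := by
    have : (l' - l) * (u.re ^ 2 / 4 + u.im ^ 2) = 0 := by linear_combination b2 - b1
    linarith [(mul_eq_zero.1 this).resolve_right hq.ne']
  obtain ⟨k, hk⟩ : ∃ k : ℤ, s1' = s1 + k * Len := G_inj (by rw [e1, e1', hll])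
  refine ⟨⟨k, hk⟩, ?_⟩
  rw [hk, dG_per, e2] at e2'
  have := congrArg Complex.re (mul_left_cancel₀ hu0 e2')
  rw [Complex.exp_ofReal_mul_I_re, Complex.exp_ofReal_mul_I_re] at this
  exact injOn_cos ⟨m'.1.le, m'.2.le⟩ ⟨m.1.le, m.2.le⟩ this.symm

theorem R_rev {s a s1 a1 : ℝ} (h : R s a s1 a1) : R s1 (π - a1) s (π - a) := by
  obtain ⟨l, hl, e1, e2⟩ := h
  have ex : ∀ b : ℝ, Complex.exp (b * Complex.I) * Complex.exp ((π - b : ℝ) * Complex.I) = -1 := by
    intro b
    rw [← Complex.exp_add, ← Complex.exp_pi_mul_I]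
    congr 1
    push_cast
    ring
  refine ⟨l, hl, ?_, ?_⟩
  · rw [e1, e2]
    linear_combination (-(l * deriv G s * Complex.exp (a * Complex.I))) * ex a1
  · rw [e2]
    linear_combination (deriv G s) * ex a -
      (deriv G s * Complex.exp (a * Complex.I) * Complex.exp ((π - a : ℝ) * Complex.I)) * ex a1

theorem R_per {s a s1 a1 : ℝ} (h : R s a s1 a1) (k : ℤ) : R (s + k * Len) a s1 a1 := by
  unfold R
  rw [G_per, dG_per]
  exact h

end Pool.Agent.H52.CY
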