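import Pool.Agent.H52.CY3

set_option autoImplicit false

namespace Pool.Agent.H52.CY

open Set Real

/-- Phase cylinder. -/
abbrev Cyl (L : ℝ) : Type := AddCircle L × Ioo (0 : ℝ) π

/-- Billiard relation. -/
def Bil (γ : ℝ → ℂ) (L : ℝ) (z w : Cyl L) : Prop :=
  ∃ s s1 : ℝ, (s : AddCircle L) = z.1 ∧ (s1 : AddCircle L) = w.1 ∧ ∃ l : ℝ, 0 < l ∧
    γ s1 = γ s + l * (deriv γ s * Complex.exp ((z.2 : ℝ) * Complex.I)) ∧
    deriv γ s1 = deriv γ s * Complex.exp ((z.2 : ℝ) * Complex.I) *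
      Complex.exp ((w.2 : ℝ) * Complex.I)

/-- The shift. -/
noncomputable def T2 (L d : ℝ) (z : Cyl L) : Cyl L := (z.1 + ((d * cot z.2 : ℝ) : AddCircle L), z.2)

theorem coe_eq {s s' : ℝ} : (s' : AddCircle Len) = s ↔ ∃ k : ℤ, s' = s + k * Len := by
  rw [← sub_eq_zero, ← AddCircle.coe_sub, AddCircle.coe_eq_zero_iff]
  simp only [zsmul_eq_mul]
  constructor <;> rintro ⟨k, hk⟩ <;> exact ⟨k, by linarith⟩

/-- Projection from the lifted coordinates. -/
noncomputable def pr (z : ℝ × ℝ) : Cyl Len := (z.1, ⟨al z.2, al_mem _⟩)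

theorem pr_cont : Continuous pr := by
  have := al_cont
  have h2 : Continuous fun x : ℝ => (x : AddCircle Len) := continuous_quotient_mk'
  unfold pr
  fun_prop

theorem pr_surj : Function.Surjective pr := by
  rintro ⟨a, b⟩
  obtain ⟨s, rfl⟩ := QuotientAddGroup.mk_surjective a
  exact ⟨(s, cot b), Prod.ext rfl (Subtype.ext (al_cot b.2))⟩

theorem bil_uniq {z w w' : Cyl Len} (h : Bil G Len z w) (h' : Bil G Len z w') : w' = w := by
  obtain ⟨s, s1, e, e1, r⟩ := h
  obtain ⟨s', s1', e', e1', r'⟩ := h'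
  obtain ⟨k, rfl⟩ := coe_eq.1 (e'.trans e.symm)
  obtain ⟨hk, ha⟩ := R_uniq (R_per r k) r' w.2.2 w'.2.2
  exact Prod.ext (by rw [← e1, ← e1']; exact coe_eq.2 hk) (Subtype.ext ha)

theorem bil_ex (z : ℝ × ℝ) : Bil G Len (pr z)
    (pr (sg (tau z.1 + hh z + hh z), z.2 + 3 / 2 * sin (2 * (tau z.1 + hh z)))) :=
  ⟨z.1, _, rfl, rfl, R_ex z⟩

/-- Reversal. -/
noncomputable def rv (z : Cyl Len) : Cyl Len :=
  (z.1, ⟨π - z.2, by linarith [z.2.2.2], by linarith [z.2.2.1]⟩)

theorem bil_rev {z w : Cyl Len} (h : Bil G Len z w) : Bil G Len (rv w) (rv z) := by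
  obtain ⟨s, s1, e, e1, r⟩ := h
  exact ⟨s1, s, e1, e, R_rev r⟩

theorem exists_T1 : ∃ T1 : Cyl Len → Cyl Len, ∀ z w, Bil G Len z w ↔ w = T1 z := by
  have : ∀ z, ∃ w, Bil G Len z w := fun z => by
    obtain ⟨x, rfl⟩ := pr_surj z
    exact ⟨_, bil_ex x⟩
  choose T1 hT using this
  exact ⟨T1, fun z w => ⟨fun h => bil_uniq (hT z) h, fun h => h ▸ hT z⟩⟩

/-- Embedding of the cylinder in the punctured plane. -/
noncomputable def Ps (z : Cyl Len) : ℂ := (exp (cot z.2) : ℝ) * (AddCircle.toCircle z.1 : ℂ)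

theorem cot_cont : Continuous fun a : Ioo (0 : ℝ) π => cot a := by
  simp only [cot_eq_cos_div_sin]
  exact Continuous.div (by fun_prop) (by fun_prop)
    fun a => (sin_pos_of_pos_of_lt_pi a.2.1 a.2.2).ne'

theorem Ps_cont : Continuous Ps := by
  have h1 : Continuous fun z : Cyl Len => cot z.2 := cot_cont.comp continuous_snd
  have h2 : Continuous fun z : Cyl Len => (AddCircle.toCircle z.1 : ℂ) :=
    continuous_subtype_val.comp (AddCircle.continuous_toCircle.comp continuous_fst)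
  exact (Complex.continuous_ofReal.comp (continuous_exp.comp h1)).mul h2

theorem Ps_norm (z : Cyl Len) : ‖Ps z‖ = exp (cot z.2) := by
  rw [Ps, norm_mul, Circle.norm_coe, Complex.norm_real, Real.norm_eq_abs, abs_of_pos (exp_pos _),
    mul_one]

theorem Ps_inj : Function.Injective Ps := by
  intro z w h
  have h1 : cot z.2 = cot w.2 := by
    have := congrArg norm h
    rwa [Ps_norm, Ps_norm, exp_eq_exp] at this
  have h2 : z.2 = w.2 := Subtype.ext (by rw [← al_cot z.2.2, h1, al_cot w.2.2])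
  unfold Ps at h
  rw [h1] at h
  have h3 := mul_left_cancel₀ (Complex.ofReal_ne_zero.2 (exp_pos _).ne') h
  exact Prod.ext (AddCircle.injective_toCircle Len_pos.ne' (Subtype.ext h3)) h2

theorem no_curve (d : ℝ) (hd : 100 ≤ d) (T1 : Cyl Len → Cyl Len)
    (hT : ∀ z w, Bil G Len z w ↔ w = T1 z) (f : C(Circle, Cyl Len))
    (hf : (T2 Len d ∘ T1) '' range f = range f) : f.Nullhomotopic := by
  have i1 : Function.Injective T1 := fun z z' h => by
    have a1 := bil_rev ((hT z (T1 z)).2 rfl)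
    have a2 := bil_rev ((hT z' (T1 z)).2 h)
    have a3 := bil_uniq a1 a2
    refine Prod.ext (congrArg Prod.fst a3).symm (Subtype.ext ?_)
    have : π - (z'.2 : ℝ) = π - z.2 := congrArg (fun x : Cyl Len => (x.2 : ℝ)) a3
    linarith
  have i2 : Function.Injective (T2 Len d) := fun z z' h => by
    have a2 : z.2 = z'.2 := (Prod.ext_iff.1 h).2
    have a1 : z.1 + ((d * cot z.2 : ℝ) : AddCircle Len) =
      z'.1 + ((d * cot z'.2 : ℝ) : AddCircle Len) := (Prod.ext_iff.1 h).1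
    rw [a2] at a1
    exact Prod.ext (add_right_cancel a1) a2
  let F : ℝ × ℝ → ℝ × ℝ := fun z =>
    (sg (tau z.1 + hh z + hh z) + d * (z.2 + 3 / 2 * sin (2 * (tau z.1 + hh z))),
      z.2 + 3 / 2 * sin (2 * (tau z.1 + hh z)))
  have hFc : Continuous F := by
    have := tau_smooth.continuous
    have := sg_smooth.continuous
    have := hh_cont
    fun_prop
  have hF : ∀ z, (T2 Len d ∘ T1) (pr z) = pr (F z) := fun z => by
    rw [Function.comp_apply, ← (hT _ _).1 (bil_ex z)]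
    refine Prod.ext ?_ rfl
    simp only [T2, pr, F, cot_al, AddCircle.coe_add]
  obtain ⟨Y, hY⟩ : ∃ Y : ℝ, ∀ x, |cot (f x).2| ≤ Y := by
    have hc : Continuous fun x => |cot (f x).2| :=
      (cot_cont.comp (continuous_snd.comp f.continuous)).abs
    obtain ⟨Y, hY⟩ := (isCompact_range hc).bddAbove
    exact ⟨Y, fun x => hY ⟨x, rfl⟩⟩
  set S : Set (ℝ × ℝ) := pr ⁻¹' (range f)ᶜ with hS
  have hFS : F '' S ⊆ S := by
    rintro _ ⟨z, hz, rfl⟩ hm
    rw [← hF, ← hf] at hm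
    obtain ⟨w, hw, e⟩ := hm
    rw [(i2.comp i1) e] at hw
    exact hz hw
  have hlow : {z : ℝ × ℝ | z.2 < -Y} ⊆ S := by
    rintro z hz ⟨x, hx⟩
    have := hY x
    rw [hx] at this
    simp only [pr, cot_al] at this
    have h2 : z.2 < -Y := hz
    linarith [(abs_le.1 this).1]
  obtain ⟨n, hn⟩ := exists_nat_gt ((2 * Y + 2) * 4 / 3)
  obtain ⟨u, hu⟩ := orbit sg tau hh d hd sg_smooth.continuous tau_smooth.continuous hh_cont sg_tau
    sg_lip tau_mono (fun z => (al_mem _).1.le) (fun z => (al_mem _).2.le) F (fun z => rfl)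
    (-Y - 2) n
  have hcv : Convex ℝ {z : ℝ × ℝ | z.2 < -Y} :=
    convex_halfSpace_lt (f := fun z : ℝ × ℝ => z.2) ⟨fun _ _ => rfl, fun _ _ => rfl⟩ _
  have j1 : JoinedIn S (u, -Y - 2) (F (u, -Y - 2)) := by
    refine JoinedIn.mono (JoinedIn.of_segment_subset (hcv.segment_subset ?_ ?_)) hlow
    · show -Y - 2 < -Y
      linarith
    · show -Y - 2 + 3 / 2 * sin _ < -Y
      linarith [sin_le_one (2 * (tau u + hh (u, -Y - 2)))]
  have jn : ∀ n : ℕ, JoinedIn S (u, -Y - 2) (F^[n] (u, -Y - 2)) := by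
    intro n
    induction n with
    | zero => exact JoinedIn.refl j1.source_mem
    | succ n ih =>
      rw [Function.iterate_succ_apply']
      exact j1.trans ((ih.map hFc).mono hFS)
  let g : Circle → ℂ := fun x => Ps (f x)
  have hg : Continuous g := Ps_cont.comp f.continuous
  have hgn : ∀ x, exp (-Y) ≤ ‖g x‖ ∧ ‖g x‖ ≤ exp Y := fun x => by
    simp only [g, Ps_norm, exp_le_exp]
    exact abs_le.1 (hY x)
  have j2 : JoinedIn (range g)ᶜ (Ps (pr (u, -Y - 2))) (Ps (pr (F^[n] (u, -Y - 2)))) := by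
    refine ((jn n).map (Ps_cont.comp pr_cont)).mono ?_
    rintro _ ⟨z, hz, rfl⟩ ⟨x, hx⟩
    exact hz ⟨x, Ps_inj hx⟩
  have j3 : JoinedIn (range g)ᶜ (Ps (pr (u, -Y - 2))) 0 := by
    refine JoinedIn.mono (JoinedIn.of_segment_subset
      ((convex_ball (0 : ℂ) (exp (-Y))).segment_subset ?_ ?_)) ?_
    · rw [mem_ball_zero_iff, Ps_norm]
      simp only [pr, cot_al, exp_lt_exp]
      linarith
    · exact Metric.mem_ball_self (exp_pos _)
    · rintro z hz ⟨x, rfl⟩
      rw [mem_ball_zero_iff] at hz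
      linarith [(hgn x).1]
  obtain ⟨l, hl, he⟩ := haslog_path g hg (j2.symm.trans j3) (haslog_far g hg _ (fun x => by
    refine lt_of_le_of_lt (hgn x).2 ?_
    rw [Ps_norm]
    simp only [pr, cot_al, exp_lt_exp]
    linarith) 1)
  let lf : C(Circle, ℝ × ℝ) := ⟨fun x => ((l x).im * Len / (2 * π), (l x).re), by fun_prop⟩
  have hfl : f = (⟨pr, pr_cont⟩ : C(ℝ × ℝ, Cyl Len)).comp ((ContinuousMap.id _).comp lf) := by
    ext1 x
    apply Ps_inj
    have h1 := he x
    rw [sub_zero] at h1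
    show g x = Ps (pr (lf x))
    rw [← h1]
    simp only [Ps, pr, cot_al, lf, ContinuousMap.coe_mk, AddCircle.toCircle_apply_mk,
      Circle.coe_exp]
    have : 2 * π / Len * ((l x).im * Len / (2 * π)) = (l x).im := by
      have := Len_pos.ne'
      have := pi_pos.ne'
      field_simp
    rw [this, Complex.ofReal_exp, ← Complex.exp_add, Complex.re_add_im]
  rw [hfl]
  exact ((id_nullhomotopic (ℝ × ℝ)).comp_left lf).comp_right _

end Pool.Agent.H52.CY
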