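import Pool.Agent.H52.CY4

set_option autoImplicit false

namespace Pool.Agent.H52.CY

open Set Real

theorem E1_deriv (t : ℝ) : HasDerivAt E1 (-E t) t := by
  have h1 : HasDerivAt (fun t : ℝ => ((-(2 * sin t) : ℝ) : ℂ)) ((-(2 * cos t) : ℝ) : ℂ) t :=
    ((hasDerivAt_sin t).const_mul 2).neg.ofReal_comp
  have := h1.add ((hasDerivAt_cos t).ofReal_comp.mul_const Complex.I)
  have e : -E t = ((-(2 * cos t) : ℝ) : ℂ) + ((-sin t : ℝ) : ℂ) * Complex.I := by
    unfold E
    push_cast
    ring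
  rw [e]
  exact this

theorem G_curv (s : ℝ) : 0 < ((starRingEnd ℂ) (deriv G s) * deriv (deriv G) s).im := by
  have e : deriv G = fun s => (((v (tau s))⁻¹ : ℝ) : ℂ) * E1 (tau s) := funext G_deriv
  have hw : DifferentiableAt ℝ (fun s => (v (tau s))⁻¹) s :=
    (((v_smooth.comp tau_smooth).differentiable (by simp)) s).inv (v_pos _).ne'
  have h2 := (hw.hasDerivAt.ofReal_comp.mul ((E1_deriv (tau s)).scomp s (tau_deriv s))).deriv
  have h3 : deriv (deriv G) s = ((deriv (fun s => (v (tau s))⁻¹) s : ℝ) : ℂ) * E1 (tau s) +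
      (((v (tau s))⁻¹ : ℝ) : ℂ) * ((((v (tau s))⁻¹ : ℝ) : ℂ) * -E (tau s)) := by
    rw [e]
    exact h2
  rw [h3, G_deriv]
  simp only [map_mul, Complex.conj_ofReal, Complex.mul_im, Complex.mul_re, Complex.ofReal_re,
    Complex.ofReal_im, Complex.conj_re, Complex.conj_im, Complex.add_re, Complex.add_im,
    Complex.neg_re, Complex.neg_im, E_re, E_im, E1_re, E1_im]
  have hv := inv_pos.2 (v_pos (tau s))
  have e1 := sin_sq_add_cos_sq (tau s)
  have : 0 < 2 * (v (tau s))⁻¹ ^ 3 := by positivity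
  convert this using 1
  linear_combination (2 * (v (tau s))⁻¹ ^ 3) * e1

theorem G_injOn : InjOn G (Ico 0 Len) := by
  intro a ha b hb h
  obtain ⟨k, hk⟩ := G_inj h
  have hL := Len_pos
  have h1 : (k : ℝ) < 1 := by
    by_contra hc
    push Not at hc
    nlinarith [ha.1, hb.2]
  have h2 : (-1 : ℝ) < k := by
    by_contra hc
    push Not at hc
    nlinarith [ha.2, hb.1]
  have h3 : k = 0 := by
    have a1 : k < 1 := by exact_mod_cast h1
    have a2 : -1 < k := by exact_mod_cast h2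
    omega
  rw [hk, h3]
  simp

end Pool.Agent.H52.CY
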