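import Mathlib

set_option autoImplicit false
open Finset Real Filter Topology

namespace Pool.Agent.H52.CosSer

noncomputable def a (x : ℝ) (n : ℕ) : ℝ := 2 / √(n : ℝ) * cos (π * ((3 * (n : ℝ) - 1) / 4 - x / n))

noncomputable def P (x : ℝ) (N : ℕ) : ℝ := ∑ n ∈ Icc 1 N, a x n

lemma P_succ (x : ℝ) (N : ℕ) : P x (N + 1) = P x N + a x (N + 1) := by
  rw [P, sum_Icc_succ_top (by omega), P]

lemma a_le (x : ℝ) {N n : ℕ} (hN : 1 ≤ N) (h : N ≤ n) : |a x n| ≤ 2 / √(N : ℝ) := by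
  have : (0 : ℝ) < N := by exact_mod_cast hN
  rw [a, abs_mul, abs_of_nonneg (by positivity)]
  refine (mul_le_of_le_one_right (by positivity) (abs_cos_le_one _)).trans ?_
  gcongr

noncomputable def φ (x : ℝ) (N n : ℕ) : ℝ := 2 / √(n : ℝ) + 2 / √(N : ℝ) * (π * |x| / n)

lemma pair (x : ℝ) {N n : ℕ} (hN : 1 ≤ N) (h : N ≤ n) :
    |a x n + a x (n + 4)| ≤ φ x N n - φ x N (n + 4) := by
  have N0 : (0 : ℝ) < N := by exact_mod_cast hN
  have n0 : (0 : ℝ) < n := by exact_mod_cast hN.trans h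
  have e : a x (n + 4) = -(2 / √((n + 4 : ℕ) : ℝ) *
      cos (π * ((3 * (n : ℝ) - 1) / 4 - x / (n + 4 : ℕ)))) := by
    rw [a, show π * ((3 * ((n + 4 : ℕ) : ℝ) - 1) / 4 - x / (n + 4 : ℕ)) =
      π * ((3 * (n : ℝ) - 1) / 4 - x / (n + 4 : ℕ)) + 2 * π + π by push_cast; ring,
      cos_add_pi, cos_add_two_pi]; ring
  have h1 := abs_cos_sub_cos_le (π * ((3 * (n : ℝ) - 1) / 4 - x / n))
    (π * ((3 * (n : ℝ) - 1) / 4 - x / (n + 4 : ℕ)))
  have h2 : |π * ((3 * (n : ℝ) - 1) / 4 - x / n) - π * ((3 * (n : ℝ) - 1) / 4 - x / (n + 4 : ℕ))| =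
      π * |x| / n - π * |x| / (n + 4 : ℕ) := by
    rw [show π * ((3 * (n : ℝ) - 1) / 4 - x / n) - π * ((3 * (n : ℝ) - 1) / 4 - x / (n + 4 : ℕ)) =
      -x * (π * 4 / (n * (n + 4))) by push_cast; field_simp; ring, abs_mul, abs_neg,
      abs_of_nonneg (a := π * 4 / _) (by positivity)]
    push_cast; field_simp; ring
  have h3 : 2 / √((n + 4 : ℕ) : ℝ) ≤ 2 / √(n : ℝ) := by gcongr; simp
  have h4 : 2 / √(n : ℝ) ≤ 2 / √(N : ℝ) := by gcongr
  rw [h2] at h1
  rw [e, a, φ, φ]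
  generalize cos (π * ((3 * (n : ℝ) - 1) / 4 - x / n)) = c at *
  have h5 := abs_cos_le_one (π * ((3 * (n : ℝ) - 1) / 4 - x / (n + 4 : ℕ)))
  generalize cos (π * ((3 * (n : ℝ) - 1) / 4 - x / (n + 4 : ℕ))) = d at *
  have h6 : 0 ≤ 2 / √(n : ℝ) := by positivity
  generalize 2 / √((n + 4 : ℕ) : ℝ) = v at *
  generalize 2 / √(n : ℝ) = u at *
  rw [show u * c + -(v * d) = u * (c - d) + (u - v) * d by ring]
  refine (abs_add_le _ _).trans ?_
  rw [abs_mul, abs_mul, abs_of_nonneg h6, abs_of_nonneg (sub_nonneg.2 h3)]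
  have := mul_le_mul h4 h1 (abs_nonneg _) (h6.trans h4)
  have := mul_le_mul_of_nonneg_left h5 (sub_nonneg.2 h3)
  linarith

lemma tail (x : ℝ) {N m : ℕ} (hN : 1 ≤ N) (h : N ≤ m) :
    |P x m - P x N| ≤ (12 + 4 * (π * |x| / N)) / √(N : ℝ) := by
  have N0 : (0 : ℝ) < N := by exact_mod_cast hN
  have h1 : |P x m + P x (m + 4) - (P x N + P x (N + 4))| ≤
      (φ x N (N + 1) + φ x N (N + 2) + φ x N (N + 3) + φ x N (N + 4)) -
      (φ x N (m + 1) + φ x N (m + 2) + φ x N (m + 3) + φ x N (m + 4)) := by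
    induction m, h using Nat.le_induction with
    | base => simp
    | succ m hm ih =>
      have := pair x hN (hm.trans (Nat.le_succ m))
      rw [P_succ, show m + 1 + 4 = m + 4 + 1 by ring, P_succ]
      rw [abs_le] at *
      simp only [Nat.succ_eq_add_one, add_assoc m] at *
      constructor <;> linarith
  have h2 : ∀ k, N ≤ k → |P x (k + 4) - P x k| ≤ 8 / √(N : ℝ) := fun k hk => by
    have a1 := a_le x hN (show N ≤ k + 1 by omega)
    have a2 := a_le x hN (show N ≤ k + 1 + 1 by omega)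
    have a3 := a_le x hN (show N ≤ k + 2 + 1 by omega)
    have a4 := a_le x hN (show N ≤ k + 3 + 1 by omega)
    rw [P_succ, P_succ, P_succ, P_succ, show 8 / √(N : ℝ) = 4 * (2 / √N) by ring]
    rw [abs_le] at *
    constructor <;> linarith
  have h3 : ∀ k, 0 ≤ φ x N k := fun k => by unfold φ; positivity
  have h4 : ∀ k, N ≤ k → φ x N k ≤ 2 / √(N : ℝ) + 2 / √(N : ℝ) * (π * |x| / N) := fun k hk => by
    unfold φ; gcongr
  have b1 := h2 m h
  have b2 := h2 N le_rfl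
  rw [show (12 + 4 * (π * |x| / N)) / √(N : ℝ) =
    8 / √(N : ℝ) + 2 * (2 / √(N : ℝ) + 2 / √(N : ℝ) * (π * |x| / N)) by ring]
  rw [abs_le] at *
  constructor <;> linarith [h3 (m + 1), h3 (m + 2), h3 (m + 3), h3 (m + 4), h4 (N + 1) (by omega),
    h4 (N + 2) (by omega), h4 (N + 3) (by omega), h4 (N + 4) (by omega)]

lemma conv (x : ℝ) : ∃ S, Tendsto (P x) atTop (𝓝 S) ∧
    ∀ N, 1 ≤ N → |S - P x N| ≤ (12 + 4 * (π * |x| / N)) / √(N : ℝ) := by
  have c : CauchySeq fun N => P x (N + 1) := by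
    refine cauchySeq_of_le_tendsto_0' (fun N => (12 + 4 * (π * |x|)) / √((N + 1 : ℕ) : ℝ))
      (fun n m h => ?_) ?_
    · rw [dist_comm, Real.dist_eq]
      refine (tail x (by omega) (by omega)).trans ?_
      gcongr
      exact div_le_self (by positivity) (by simp)
    · exact tendsto_const_nhds.div_atTop (tendsto_sqrt_atTop.comp
        (tendsto_natCast_atTop_atTop.comp (tendsto_add_atTop_nat 1)))
  obtain ⟨S, hS⟩ := cauchySeq_tendsto_of_complete c
  rw [tendsto_add_atTop_iff_nat] at hS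
  exact ⟨S, hS, fun N hN => le_of_tendsto ((hS.sub_const _).abs)
    ((eventually_ge_atTop N).mono fun m hm => tail x hN hm)⟩

lemma geo {w : ℂ} (h0 : ‖w‖ = 1) {n : ℕ} (hn : 0 < n) (h1 : w ^ n = 1) (h2 : w ≠ 1) (T : ℕ) :
    ‖∑ t ∈ range T, w ^ t‖ ≤ 2 * n := by
  have p : ∀ j : ℕ, ‖1 - w ^ j‖ ≤ j * ‖1 - w‖ := fun j => by
    rw [← mul_neg_geom_sum, norm_mul, mul_comm]
    gcongr
    exact (norm_sum_le _ _).trans (by simp [h0])
  have s : ∑ j ∈ range n, (1 - w ^ j) = n := by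
    rw [sum_sub_distrib, geom_sum_eq h2, h1]; simp
  have n0 : (0 : ℝ) < n := by exact_mod_cast hn
  have q : (n : ℝ) ≤ n * (n * ‖1 - w‖) := by
    have := norm_sum_le (range n) fun j => 1 - w ^ j
    rw [s, Complex.norm_natCast] at this
    refine this.trans ((sum_le_card_nsmul _ _ (n * ‖1 - w‖) fun j hj => (p j).trans ?_).trans
      (by simp))
    gcongr
    exact (mem_range.1 hj).le
  have q' : 1 ≤ n * ‖1 - w‖ := le_of_mul_le_mul_left (by linarith) n0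
  have r : ‖1 - w‖ * ‖∑ t ∈ range T, w ^ t‖ ≤ 2 := by
    rw [← norm_mul, mul_neg_geom_sum]
    exact (norm_sub_le _ _).trans (by simp [h0]; norm_num)
  nlinarith [norm_nonneg (∑ t ∈ range T, w ^ t)]

lemma avg {M n : ℕ} (hM : M % 8 = 1) (hn : 0 < n) (T : ℕ) :
    (if n ∣ M then (T : ℝ) ^ 2 / √(n : ℝ) else 0) - 8 * n * √(n : ℝ) ≤
      ∑ t ∈ range T ×ˢ range T, a (M * (3 / 4 + 2 * (t.1 + t.2))) n := by
  have n0 : (0 : ℝ) < n := by exact_mod_cast hn
  have s0 : 0 < √(n : ℝ) := sqrt_pos.2 n0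
  split_ifs with h
  · obtain ⟨m, rfl⟩ := h
    obtain ⟨k, hk⟩ : ∃ k : ℤ, (n : ℤ) - m = 8 * k := by
      have : ∀ a b : ZMod 8, a * b = 1 → a - b = 0 := by decide
      have h1 := this n m (by
        rw [← Nat.cast_mul, ← ZMod.natCast_mod, hM]; simp)
      exact (ZMod.intCast_zmod_eq_zero_iff_dvd _ 8).1 (by push_cast; exact h1)
    have e : ∀ t : ℕ × ℕ, a ((n * m : ℕ) * (3 / 4 + 2 * (t.1 + t.2))) n = √2 / √(n : ℝ) := by
      intro t
      have : (n : ℝ) = m + 8 * k := by exact_mod_cast (by omega : (n : ℤ) = m + 8 * k)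
      rw [a, show π * ((3 * (n : ℝ) - 1) / 4 - (n * m : ℕ) * (3 / 4 + 2 * (t.1 + t.2)) / n) =
        -(π / 4) + (3 * k - m * (t.1 + t.2) : ℤ) * (2 * π) by
          push_cast; rw [mul_assoc (n : ℝ), mul_div_cancel_left₀ _ n0.ne', this]; ring,
        cos_add_int_mul_two_pi, cos_neg, cos_pi_div_four]
      ring
    simp only [e, sum_const, card_product, card_range, nsmul_eq_mul]
    have : (T : ℝ) ^ 2 / √(n : ℝ) ≤ (T * T : ℕ) * (√2 / √(n : ℝ)) := by
      push_cast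
      rw [← sq, ← mul_div_assoc]
      gcongr
      exact le_mul_of_one_le_right (by positivity) (by simp)
    have : 0 ≤ 8 * n * √(n : ℝ) := by positivity
    linarith
  · set w := Complex.exp (-(2 * π * M / n : ℝ) * Complex.I) with hw
    have w1 : ‖w‖ = 1 := by rw [hw, ← Complex.ofReal_neg, Complex.norm_exp_ofReal_mul_I]
    have nc : (n : ℂ) ≠ 0 := by exact_mod_cast hn.ne'
    have g := geo w1 hn (by
      rw [hw, ← Complex.exp_nat_mul, Complex.exp_eq_one_iff]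
      exact ⟨-M, by push_cast; field_simp⟩) (by
      rw [hw, Ne, Complex.exp_eq_one_iff]
      rintro ⟨k, hk⟩
      have pc : (π : ℂ) ≠ 0 := by exact_mod_cast pi_ne_zero
      push_cast at hk
      field_simp at hk
      refine h (Int.natCast_dvd_natCast.1 ⟨-k, ?_⟩)
      have : (M : ℂ) = n * -k := by linear_combination -hk
      exact_mod_cast this) T
    have e : ∀ t : ℕ × ℕ, a (M * (3 / 4 + 2 * (t.1 + t.2))) n = 2 / √(n : ℝ) * (Complex.exp
        ((π * ((3 * (n : ℝ) - 1) / 4 - M * (3 / 4) / n) : ℝ) * Complex.I) *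
          (w ^ t.1 * w ^ t.2)).re := by
      intro t
      rw [a, ← Complex.exp_ofReal_mul_I_re, hw, ← Complex.exp_nat_mul, ← Complex.exp_nat_mul,
        ← Complex.exp_add, ← Complex.exp_add]
      congr 3
      push_cast; ring
    simp only [e]
    rw [← mul_sum, ← Complex.re_sum, ← mul_sum, sum_product, ← sum_mul_sum]
    have b := (abs_le.1 (Complex.abs_re_le_norm (Complex.exp
        ((π * ((3 * (n : ℝ) - 1) / 4 - M * (3 / 4) / n) : ℝ) * Complex.I) *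
          ((∑ t ∈ range T, w ^ t) * ∑ t ∈ range T, w ^ t)))).1
    rw [norm_mul, Complex.norm_exp_ofReal_mul_I, one_mul, norm_mul] at b
    have c := mul_le_mul g g (norm_nonneg _) (by positivity)
    have d := mul_le_mul_of_nonneg_left ((neg_le_neg c).trans b) (show 0 ≤ 2 / √(n : ℝ) by positivity)
    refine le_trans (le_of_eq ?_) d
    field_simp
    linear_combination -8 * n * mul_self_sqrt n0.le

lemma big {M : ℕ} (hM : M % 8 = 1) {B : ℝ}
    (h : ∀ x : ℝ, M / 2 ≤ x → x ≤ 5 * M ^ 6 → ∀ S, Tendsto (P x) atTop (𝓝 S) → |S| ≤ B) :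
    ∑ n ∈ M.divisors, 1 / √(n : ℝ) ≤ B + 100 := by
  have M1 : 1 ≤ M := by omega
  have M0 : (1 : ℝ) ≤ M := by exact_mod_cast M1
  have sq4 : √((M ^ 4 : ℕ) : ℝ) = M ^ 2 := by
    push_cast; rw [show (M : ℝ) ^ 4 = (M ^ 2) ^ 2 by ring, sqrt_sq (by positivity)]
  have h1 : ∀ t ∈ range (M ^ 5) ×ˢ range (M ^ 5),
      P (M * (3 / 4 + 2 * (t.1 + t.2))) (M ^ 4) ≤ B + 92 := by
    intro t ht
    obtain ⟨S, hS, h2⟩ := conv (M * (3 / 4 + 2 * (t.1 + t.2)))
    have t1 : (t.1 : ℝ) ≤ M ^ 5 := by exact_mod_cast (mem_range.1 (mem_product.1 ht).1).le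
    have t2 : (t.2 : ℝ) ≤ M ^ 5 := by exact_mod_cast (mem_range.1 (mem_product.1 ht).2).le
    have t3 : (1 : ℝ) ≤ M ^ 5 := one_le_pow₀ M0
    have x1 : (M : ℝ) * (3 / 4 + 2 * (t.1 + t.2)) ≤ 5 * M ^ 6 := by
      rw [show 5 * (M : ℝ) ^ 6 = M * (5 * M ^ 5) by ring]
      gcongr; linarith
    have x0 : (M : ℝ) / 2 ≤ M * (3 / 4 + 2 * (t.1 + t.2)) := by
      have : (0 : ℝ) ≤ M * (t.1 + t.2) := by positivity
      linarith
    have h3 := h _ x0 x1 S hS
    have h4 := h2 (M ^ 4) (Nat.one_le_pow _ _ M1)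
    rw [sq4, abs_of_nonneg (a := (M : ℝ) * _) (by positivity)] at h4
    have h5 : (12 + 4 * (π * (M * (3 / 4 + 2 * (t.1 + t.2))) / (M ^ 4 : ℕ))) / (M : ℝ) ^ 2 ≤
        (12 * M ^ 2 + 4 * (4 * (5 * M ^ 6) / (M ^ 4 : ℕ))) / (M : ℝ) ^ 2 := by
      gcongr
      · exact le_mul_of_one_le_right (by norm_num) (one_le_pow₀ M0)
      · exact pi_le_four
    rw [show (12 * M ^ 2 + 4 * (4 * (5 * M ^ 6) / (M ^ 4 : ℕ))) / (M : ℝ) ^ 2 = 92 by
      push_cast; field_simp; ring] at h5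
    linarith [(abs_le.1 h3).2, (abs_le.1 h4).1]
  have h2 := sum_le_card_nsmul _ _ _ h1
  simp only [P] at h2
  rw [sum_comm] at h2
  have h3 := (sum_le_sum fun n hn => avg hM (mem_Icc.1 hn).1 (M ^ 5)).trans h2
  have h4 : ∑ n ∈ Icc 1 (M ^ 4), 8 * n * √(n : ℝ) ≤ (M ^ 4 : ℕ) * (8 * (M ^ 4 : ℕ) * M ^ 2) := by
    refine (sum_le_card_nsmul _ _ (8 * (M ^ 4 : ℕ) * (M : ℝ) ^ 2) fun n hn => ?_).trans (by simp)
    rw [← sq4]
    have := (mem_Icc.1 hn).2
    gcongr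
  have h5 : (Icc 1 (M ^ 4)).filter (· ∣ M) = M.divisors := by
    ext n
    simp only [mem_filter, mem_Icc, Nat.mem_divisors]
    exact ⟨fun h => ⟨h.2, by omega⟩, fun h => ⟨⟨Nat.pos_of_dvd_of_pos h.1 M1,
      (Nat.le_of_dvd M1 h.1).trans (Nat.le_self_pow (by norm_num) M)⟩, h.1⟩⟩
  rw [sum_sub_distrib, ← sum_filter, h5] at h3
  simp only [div_eq_mul_one_div (((M ^ 5 : ℕ) : ℝ) ^ 2), ← mul_sum, card_product, card_range,
    nsmul_eq_mul] at h3
  push_cast at h3 h4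
  apply le_of_mul_le_mul_left _ (show (0 : ℝ) < (M ^ 5) ^ 2 by positivity)
  linarith

lemma divsum (s : Finset ℕ) (hs : ∀ p ∈ s, p.Prime) :
    ∏ p ∈ s, (1 + 1 / √(p : ℝ)) ≤ ∑ n ∈ ((∏ p ∈ s, p) ^ 2).divisors, 1 / √(n : ℝ) := by
  have inj : Set.InjOn (fun t : Finset ℕ => ∏ p ∈ t, p) s.powerset := fun t ht u hu h => by
    rw [← Nat.primeFactors_prod fun p hp => hs p (mem_powerset.1 ht hp),
      ← Nat.primeFactors_prod fun p hp => hs p (mem_powerset.1 hu hp)]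
    exact congrArg _ h
  have e : ∀ t : Finset ℕ, ∏ p ∈ t, 1 / √(p : ℝ) = 1 / √((∏ p ∈ t, p : ℕ) : ℝ) := fun t => by
    rw [prod_div_distrib, Nat.cast_prod, Real.sqrt_prod _ fun _ _ => Nat.cast_nonneg _]; simp
  rw [prod_one_add, sum_congr rfl fun t _ => e t,
    ← sum_image (f := fun n : ℕ => 1 / √(n : ℝ)) inj]
  refine sum_le_sum_of_subset_of_nonneg (fun n hn => ?_) fun _ _ _ => by positivity
  obtain ⟨t, ht, rfl⟩ := mem_image.1 hn
  exact Nat.mem_divisors.2 ⟨(prod_dvd_prod_of_subset _ _ _ (mem_powerset.1 ht)).trans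
    (dvd_pow_self _ two_ne_zero), pow_ne_zero _ (prod_ne_zero_iff.2 fun p hp => (hs p hp).ne_zero)⟩

lemma exM {v : ℕ} (hv : 1 ≤ v) : ∃ M : ℕ, M % 8 = 1 ∧ M ≤ 16 ^ (16 * v) ^ 4 ∧
    (2 : ℝ) ^ v ≤ ∑ n ∈ M.divisors, 1 / √(n : ℝ) := by
  set u := 16 * v with hu
  have u0 : (16 : ℝ) ≤ u := by exact_mod_cast (by omega : 16 ≤ u)
  set s := (Nat.primesLE (u ^ 4)).erase 2 with hs
  have hp : ∀ p ∈ s, p.Prime ∧ p ≤ u ^ 4 := fun p hp =>
    (Nat.mem_primesLE.1 (mem_erase.1 hp).2).symm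
  refine ⟨(∏ p ∈ s, p) ^ 2, ?_, ?_, le_trans ?_ (divsum s fun p h => (hp p h).1)⟩
  · have : Odd (∏ p ∈ s, p) := prod_induction _ Odd (fun _ _ => Odd.mul) odd_one fun p h =>
      (hp p h).1.odd_of_ne_two (mem_erase.1 h).1
    obtain ⟨k, hk⟩ := this
    obtain ⟨j, hj⟩ := Nat.even_mul_succ_self k
    rw [hk, show (2 * k + 1) ^ 2 = 4 * (k * (k + 1)) + 1 by ring, hj]
    omega
  · rw [show 16 ^ u ^ 4 = (4 ^ u ^ 4) ^ 2 by rw [← pow_mul, mul_comm, pow_mul]; norm_num]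
    gcongr
    refine le_trans (prod_le_prod_of_subset_of_one_le' (fun p h => ?_) fun p h _ =>
      (mem_filter.1 h).2.one_le) (primorial_le_four_pow _)
    exact mem_filter.2 ⟨mem_range.2 (by have := (hp p h).2; omega), (hp p h).1⟩
  · have c : v * u ^ 2 ≤ s.card := by
      have h := Chebyshev.pi_ge (u ^ 4)
      have l1 : log ((u ^ 4 : ℕ) : ℝ) ≤ 4 * u := by
        push_cast; rw [log_pow]; have := log_le_self (show (0 : ℝ) ≤ u by linarith)
        push_cast; linarith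
      have l0 : 0 < log ((u ^ 4 : ℕ) : ℝ) := log_pos (by push_cast; exact one_lt_pow₀ (by linarith) (by norm_num))
      have l2 : log (((u ^ 4 : ℕ) : ℝ) + 1) ≤ 8 * u := by
        have : ((u ^ 4 : ℕ) : ℝ) + 1 ≤ (2 * u) ^ 4 := by
          push_cast; have : (1 : ℝ) ≤ u ^ 4 := one_le_pow₀ (by linarith); linarith
        refine (log_le_log (by positivity) this).trans ?_
        rw [log_pow]; have := log_le_self (show (0 : ℝ) ≤ 2 * u by linarith)
        push_cast; linarith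
      rw [div_le_iff₀ l0] at h
      have h2 := mul_le_mul_of_nonneg_left l1 (Nat.cast_nonneg (α := ℝ) (Nat.primeCounting (u ^ 4)))
      have h3 : ((u ^ 4 : ℕ) : ℝ) * (1 / 2) ≤ (u ^ 4 : ℕ) * log 2 := by
        gcongr; linarith [log_two_gt_d9]
      have h4 : (v : ℝ) * u ^ 2 + 1 ≤ Nat.primeCounting (u ^ 4) := by
        apply le_of_mul_le_mul_right _ (show (0 : ℝ) < 4 * u by linarith)
        have : (u : ℝ) = 16 * v := by rw [hu]; push_cast; ring
        have h5 : (v : ℝ) * u ^ 2 * (4 * u) = u ^ 4 / 4 := by rw [this]; ring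
        have h6 : 16 * 16 * (u : ℝ) ≤ u ^ 4 := by
          rw [show (u : ℝ) ^ 4 = u * (u * u) * u by ring]
          gcongr; nlinarith
        push_cast at *
        linarith
      have h5 : v * u ^ 2 + 1 ≤ Nat.primeCounting (u ^ 4) := by exact_mod_cast h4
      have := Finset.pred_card_le_card_erase (s := Nat.primesLE (u ^ 4)) (a := 2)
      rw [Nat.primesLE_card_eq_primeCounting, ← hs] at this
      omega
    have b : (2 : ℝ) ≤ (1 + 1 / u ^ 2) ^ (u ^ 2) := by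
      refine le_trans (le_of_eq ?_) (one_add_mul_le_pow (by
        have : (0 : ℝ) ≤ 1 / u ^ 2 := by positivity
        linarith) _)
      push_cast; field_simp; ring
    have b1 : (1 : ℝ) ≤ 1 + 1 / u ^ 2 := le_add_of_nonneg_right (by positivity)
    calc (2 : ℝ) ^ v ≤ ((1 + 1 / u ^ 2) ^ (u ^ 2)) ^ v := by gcongr
      _ ≤ (1 + 1 / u ^ 2) ^ s.card := by
        rw [← pow_mul]; exact pow_le_pow_right₀ b1 (by linarith)
      _ ≤ _ := by
        rw [← prod_const]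
        refine prod_le_prod (fun _ _ => by positivity) fun p h => ?_
        have : (0 : ℝ) < p := by exact_mod_cast (hp p h).1.pos
        gcongr
        rw [sqrt_le_left (by positivity)]
        exact_mod_cast (by rw [← pow_mul]; exact (hp p h).2)

end Pool.Agent.H52.CosSer
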