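import Mathlib

set_option autoImplicit false

namespace Pool.Agent.H52.Cov

/-- A finite set of moduli greater than 1 admitting residues whose classes cover the integers. -/
def IsCoveringSet (S : Finset ℕ) : Prop :=
  (∀ n ∈ S, 1 < n) ∧ ∃ a : ℕ → ℤ, ∀ z : ℤ, ∃ n ∈ S, z ≡ a n [ZMOD n]

/-- A covering set none of whose proper subsets is a covering set. -/
def IsIrreducibleCovering (S : Finset ℕ) : Prop :=
  IsCoveringSet S ∧ ∀ T : Finset ℕ, T ⊂ S → ¬ IsCoveringSet T

/-- The largest reciprocal sum of an irreducible covering set of size k (0 if there is none). -/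
noncomputable def M (k : ℕ) : ℝ :=
  sSup {s : ℝ | ∃ S : Finset ℕ, IsIrreducibleCovering S ∧ S.card = k ∧ s = ∑ n ∈ S, (1 / n : ℝ)}

end Pool.Agent.H52.Cov
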