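import Mathlib
import Pool.Agent.H52.CovDefs

set_option autoImplicit false
open Finset

namespace Pool.Agent.H52.Cov

structure Frame (Q : ℕ) (S : Finset ℕ) : Prop where
  pos : 0 < Q
  dvd : ∀ n ∈ S, 1 < n ∧ n ∣ Q
  cov : ∃ a : ℕ → ℤ, ∀ z : ℤ, ¬ (Q : ℤ) ∣ z → ∃ n ∈ S, z ≡ a n [ZMOD n]
  n0 : ∀ a : ℕ → ℤ, ∃ z : ℤ, ∀ n ∈ S, ¬ z ≡ a n [ZMOD n]
  n1 : ∀ a : ℕ → ℤ, ∀ m ∈ S, ∀ b : ℤ, ∃ z : ℤ,
    (∀ n ∈ S, n ≠ m → ¬ z ≡ a n [ZMOD n]) ∧ ¬ z ≡ b [ZMOD Q]

lemma frame_one : Frame 1 ∅ :=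
  ⟨one_pos, by simp, ⟨0, by simp⟩, by simp, by simp⟩

lemma kill {Q q n : ℕ} (hq : q.Prime) (h1 : n ∣ q * Q) (h2 : ¬ n ∣ Q) {j j' : ℕ} (hj : j < q)
    (hj' : j' < q) {x : ℤ} (h : x + j * Q ≡ x + j' * Q [ZMOD n]) : j = j' := by
  by_contra hne
  have hd : (n : ℤ) ∣ ((j' : ℤ) - j) * Q := by
    have := h.dvd
    convert this using 1; ring
  have hcop : IsCoprime (q : ℤ) ((j' : ℤ) - j) := by
    rw [(Nat.prime_iff_prime_int.1 hq).irreducible.coprime_iff_not_dvd]
    intro hdv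
    have := Int.eq_zero_of_abs_lt_dvd hdv (by rw [abs_lt]; constructor <;> omega)
    omega
  obtain ⟨u, v, huv⟩ := hcop
  have h1' : (n : ℤ) ∣ q * Q := by exact_mod_cast h1
  apply h2
  have : (Q : ℤ) = u * (q * Q) + v * (((j' : ℤ) - j) * Q) := by linear_combination (-Q : ℤ) * huv
  have h3 : (n : ℤ) ∣ Q := by
    rw [this]; exact dvd_add (h1'.mul_left _) (hd.mul_left _)
  exact_mod_cast h3

lemma avoid {Q q : ℕ} (hq : q.Prime) (U : Finset ℕ) (hU : U.card < q)
    (h : ∀ n ∈ U, n ∣ q * Q ∧ ¬ n ∣ Q) (a : ℕ → ℤ) (x : ℤ) :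
    ∃ j : ℕ, ∀ n ∈ U, ¬ x + j * Q ≡ a n [ZMOD n] := by
  by_contra hc
  push Not at hc
  choose f hf hf2 using hc
  obtain ⟨j, hj, j', hj', hne, he⟩ := Finset.exists_ne_map_eq_of_card_lt_of_maps_to
    (s := range q) (t := U) (f := f) (by simpa using hU) (fun j _ => hf j)
  have e1 := hf2 j
  have e2 := hf2 j'
  rw [← he] at e2
  exact hne (kill hq (h _ (hf j)).1 (h _ (hf j)).2 (mem_range.1 hj) (mem_range.1 hj')
    (e1.trans e2.symm))

lemma shift {Q n : ℕ} (h : n ∣ Q) (x b : ℤ) (j : ℕ) (hx : ¬ x ≡ b [ZMOD n]) :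
    ¬ x + j * Q ≡ b [ZMOD n] := by
  intro h2
  apply hx
  have h3 : (n : ℤ) ∣ j * Q := Dvd.dvd.mul_left (by exact_mod_cast h) _
  have : x + j * Q ≡ x + 0 [ZMOD n] := Int.ModEq.add_left _ ((Int.modEq_zero_iff_dvd).2 h3)
  rw [add_zero] at this
  exact this.symm.trans h2

lemma Frame.step {Q q : ℕ} {S T : Finset ℕ} (F : Frame Q S) (hq : q.Prime)
    (hT : T.card + 1 = q) (h : ∀ n ∈ T, n ∣ q * Q ∧ ¬ n ∣ Q) : Frame (q * Q) (S ∪ T) := by
  have hQ := F.pos
  have hdisj : ∀ n ∈ T, n ∉ S := fun n hn hS => (h n hn).2 (F.dvd n hS).2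
  refine ⟨Nat.mul_pos hq.pos hQ, ?_, ?_, ?_, ?_⟩
  · intro n hn
    rcases mem_union.1 hn with hn | hn
    · exact ⟨(F.dvd n hn).1, (F.dvd n hn).2.mul_left _⟩
    · refine ⟨?_, (h n hn).1⟩
      have h1 : n ≠ 1 := by rintro rfl; exact (h 1 hn).2 (one_dvd _)
      have h0 : n ≠ 0 := by
        rintro rfl
        have := Nat.eq_zero_of_zero_dvd (h 0 hn).1
        have := Nat.mul_pos hq.pos hQ
        omega
      omega
  · obtain ⟨a, ha⟩ := F.cov
    let e := T.equivFin
    refine ⟨fun n => if hn : n ∈ T then ((e ⟨n, hn⟩ : ℕ) + 1) * Q else a n, fun z hz => ?_⟩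
    by_cases hz2 : (Q : ℤ) ∣ z
    · obtain ⟨w, rfl⟩ := hz2
      have hqpos : (0 : ℤ) < q := by exact_mod_cast hq.pos
      have hr0 := Int.emod_nonneg w hqpos.ne'
      have hr1 := Int.emod_lt_of_pos w hqpos
      have hw := Int.emod_add_mul_ediv w q
      have hr : w % q ≠ 0 := by
        intro h0
        apply hz
        rw [h0] at hw
        exact ⟨w / q, by push_cast; linear_combination (-Q : ℤ) * hw⟩
      let i : Fin T.card := ⟨(w % q).toNat - 1, by omega⟩
      refine ⟨e.symm i, mem_union_right _ (e.symm i).2, ?_⟩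
      simp only [(e.symm i).2, dite_true, Subtype.coe_eta, Equiv.apply_symm_apply]
      have hi : ((i : ℕ) : ℤ) + 1 = w % q := by simp only [i]; omega
      rw [hi]
      have hd : ((e.symm i : ℕ) : ℤ) ∣ q * Q := by exact_mod_cast (h _ (e.symm i).2).1
      apply Int.ModEq.symm
      rw [Int.modEq_iff_dvd]
      have : (Q : ℤ) * w - w % q * Q = (q * Q) * (w / q) := by linear_combination (-Q : ℤ) * hw
      rw [this]
      exact hd.mul_right _
    · obtain ⟨n, hn, hz3⟩ := ha z hz2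
      refine ⟨n, mem_union_left _ hn, ?_⟩
      have : n ∉ T := fun hT => hdisj n hT hn
      simpa [this] using hz3
  · intro a
    obtain ⟨x, hx⟩ := F.n0 a
    obtain ⟨j, hj⟩ := avoid hq T (by omega) h a x
    refine ⟨x + j * Q, fun n hn => ?_⟩
    rcases mem_union.1 hn with hn | hn
    · exact shift (F.dvd n hn).2 _ _ _ (hx n hn)
    · exact hj n hn
  · intro a m hm b
    rcases mem_union.1 hm with hm | hm
    · obtain ⟨x, hx, hx2⟩ := F.n1 a m hm b
      obtain ⟨j, hj⟩ := avoid hq T (by omega) h a x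
      refine ⟨x + j * Q, fun n hn hne => ?_, fun h3 => ?_⟩
      · rcases mem_union.1 hn with hn | hn
        · exact shift (F.dvd n hn).2 _ _ _ (hx n hn hne)
        · exact hj n hn
      · exact shift dvd_rfl _ _ j hx2 (h3.of_dvd (by push_cast; exact Dvd.intro_left _ rfl))
    · obtain ⟨x, hx⟩ := F.n0 a
      have hm2 := h m hm
      obtain ⟨j, hj⟩ := avoid hq T (by omega) h (fun n => if n = m then b else a n) x
      refine ⟨x + j * Q, fun n hn hne => ?_, fun h3 => ?_⟩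
      · rcases mem_union.1 hn with hn | hn
        · exact shift (F.dvd n hn).2 _ _ _ (hx n hn)
        · simpa [hne] using hj n hn
      · have := hj m hm
        simp only [if_true] at this
        exact this (h3.of_dvd (by exact_mod_cast hm2.1))

lemma Frame.irred {Q : ℕ} {S : Finset ℕ} (F : Frame Q S) (h1 : 1 < Q) (hQ : Q ∉ S) :
    IsIrreducibleCovering (insert Q S) := by
  constructor
  · refine ⟨?_, ?_⟩
    · intro n hn
      rcases mem_insert.1 hn with rfl | hn
      · exact h1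
      · exact (F.dvd n hn).1
    · obtain ⟨a, ha⟩ := F.cov
      refine ⟨fun n => if n = Q then 0 else a n, fun z => ?_⟩
      by_cases hz : (Q : ℤ) ∣ z
      · exact ⟨Q, mem_insert_self _ _, by simpa [Int.modEq_zero_iff_dvd] using hz⟩
      · obtain ⟨n, hn, h⟩ := ha z hz
        have : n ≠ Q := by rintro rfl; exact hQ hn
        exact ⟨n, mem_insert_of_mem hn, by simpa [this] using h⟩
  · rintro T hT ⟨_, a, ha⟩
    obtain ⟨m, hm, hmT⟩ := exists_of_ssubset hT
    rcases mem_insert.1 hm with rfl | hm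
    · obtain ⟨z, hz⟩ := F.n0 a
      obtain ⟨n, hn, h⟩ := ha z
      rcases mem_insert.1 (hT.subset hn) with rfl | hn2
      · exact hmT hn
      · exact hz n hn2 h
    · obtain ⟨z, hz, hz2⟩ := F.n1 a m hm (a Q)
      obtain ⟨n, hn, h⟩ := ha z
      rcases mem_insert.1 (hT.subset hn) with rfl | hn2
      · exact hz2 h
      · exact hz n hn2 (by rintro rfl; exact hmT hn) h

lemma powers {Q q : ℕ} {S : Finset ℕ} (F : Frame Q S) (hq : q.Prime) (hqQ : ¬ q ∣ Q)
    (hd : ∀ d, 0 < d → d < q → d ∣ Q) (E : ℕ) :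
    ∃ S', Frame (q ^ (E + 1) * Q) S' ∧ S'.card = S.card + (E + 1) * (q - 1) ∧
      ∑ n ∈ S, (1 / n : ℝ) + Real.log q / q ≤ ∑ n ∈ S', (1 / n : ℝ) ∧
      (q ≤ Q → q ^ (E + 1) * Q ∉ S') := by
  have hq2 := hq.two_le
  have key : ∀ (j : ℕ) (S1 : Finset ℕ), Frame (q ^ j * Q) S1 →
      ∃ S2, Frame (q ^ (j + 1) * Q) S2 ∧ S2.card = S1.card + (q - 1) ∧
        ∑ n ∈ S2, (1 / n : ℝ) = ∑ n ∈ S1, (1 / n : ℝ) +
          ∑ d ∈ Icc 1 (q - 1), (1 / ((q ^ (j + 1) * d : ℕ) : ℝ)) ∧
        (q ≤ Q → q ^ (j + 1) * Q ∉ S2) := by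
    intro j S1 F1
    have hpos : 0 < q ^ (j + 1) := by positivity
    have hinj : Function.Injective (fun d => q ^ (j + 1) * d) :=
      fun a b h => Nat.eq_of_mul_eq_mul_left hpos h
    have hT : ∀ n ∈ (Icc 1 (q - 1)).image (fun d => q ^ (j + 1) * d),
        n ∣ q * (q ^ j * Q) ∧ ¬ n ∣ q ^ j * Q := by
      intro n hn
      obtain ⟨d, hd1, rfl⟩ := mem_image.1 hn
      rw [mem_Icc] at hd1
      constructor
      · rw [← mul_assoc, ← pow_succ']
        exact Nat.mul_dvd_mul_left _ (hd d (by omega) (by omega))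
      · intro h
        apply hqQ
        have h2 : q ^ j * q ∣ q ^ j * Q := by
          rw [← pow_succ]; exact (Dvd.intro _ rfl).trans h
        exact Nat.dvd_of_mul_dvd_mul_left (by positivity) h2
    have hcard : ((Icc 1 (q - 1)).image (fun d => q ^ (j + 1) * d)).card = q - 1 := by
      rw [card_image_of_injective _ hinj]; simp
    have hdisj : Disjoint S1 ((Icc 1 (q - 1)).image (fun d => q ^ (j + 1) * d)) := by
      rw [disjoint_right]
      exact fun n hn hS => (hT n hn).2 (F1.dvd n hS).2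
    have F2 := F1.step hq (by omega) hT
    rw [← mul_assoc, ← pow_succ'] at F2
    refine ⟨_, F2, ?_, ?_, fun hle hmem => ?_⟩
    · rw [card_union_of_disjoint hdisj, hcard]
    · rw [sum_union hdisj, sum_image (fun a _ b _ h => hinj h)]
    · rcases mem_union.1 hmem with h | h
      · have h1 := Nat.le_of_dvd F1.pos (F1.dvd _ h).2
        have h2 := F1.pos
        rw [pow_succ', mul_assoc] at h1
        nlinarith
      · obtain ⟨d, hd1, he⟩ := mem_image.1 h
        rw [mem_Icc] at hd1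
        have := hinj he
        omega
  induction E with
  | zero =>
    obtain ⟨S2, F2, h1, h2, h3⟩ := key 0 S (by simpa using F)
    refine ⟨S2, F2, by omega, ?_, h3⟩
    rw [h2]
    have h4 := log_add_one_le_harmonic (q - 1)
    rw [Nat.sub_add_cancel (by omega), harmonic_eq_sum_Icc] at h4
    push_cast at h4 ⊢
    have hqr : (0 : ℝ) < q := by exact_mod_cast hq.pos
    have : ∑ d ∈ Icc 1 (q - 1), 1 / ((q : ℝ) ^ (0 + 1) * d) = (∑ d ∈ Icc 1 (q - 1), (d : ℝ)⁻¹) / q := by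
      rw [sum_div]
      refine sum_congr rfl fun d _ => ?_
      rw [zero_add, pow_one, one_div, mul_inv, div_eq_mul_inv, mul_comm]
    rw [this]
    gcongr
  | succ E ih =>
    obtain ⟨S1, F1, c1, s1, _⟩ := ih
    obtain ⟨S2, F2, h1, h2, h3⟩ := key (E + 1) S1 F1
    refine ⟨S2, F2, by rw [h1, c1]; ring, ?_, h3⟩
    rw [h2]
    have : 0 ≤ ∑ d ∈ Icc 1 (q - 1), (1 / ((q ^ (E + 1 + 1) * d : ℕ) : ℝ)) := by positivity
    linarith

lemma build (y J : ℕ) (hJ : y ≤ J) (t : ℕ) (ht : t + 2 ≤ y) :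
    ∃ Q S, Frame Q S ∧
      (∀ d, 0 < d → d ≤ y → (∀ p, p.Prime → p ∣ d → p ≤ t + 2) → d ∣ Q) ∧
      (∀ p, p.Prime → t + 2 < p → ¬ p ∣ Q) ∧ y ≤ Q ∧
      S.card = (J + 1) + (y + 1) * ∑ p ∈ (Icc 3 (t + 2)).filter Nat.Prime, (p - 1) ∧
      ∑ p ∈ (Icc 2 (t + 2)).filter Nat.Prime, Real.log p / p ≤ ∑ n ∈ S, (1 / n : ℝ) ∧
      (1 ≤ t → Q ∉ S) := by
  induction t with
  | zero =>
    obtain ⟨S, F, h1, h2, _⟩ := powers frame_one Nat.prime_two (by norm_num)
      (fun d h1 h2 => by obtain rfl : d = 1 := by omega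
                         rfl) J
    refine ⟨_, S, F, ?_, ?_, ?_, by simpa using h1, ?_, by simp⟩
    · intro d hd0 hdy hp
      obtain ⟨e, rfl⟩ : ∃ e, d = 2 ^ e :=
        ⟨_, Nat.eq_prime_pow_of_unique_prime_dvd hd0.ne' (fun {p} hp1 hp2 => by
          have := hp p hp1 hp2
          have := hp1.two_le
          omega)⟩
      rw [mul_one]
      have := Nat.lt_two_pow_self (n := e)
      exact pow_dvd_pow _ (by omega)
    · intro p hp h hd
      rw [mul_one] at hd
      have := (Nat.prime_dvd_prime_iff_eq hp Nat.prime_two).1 (hp.dvd_of_dvd_pow hd)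
      omega
    · have := Nat.lt_two_pow_self (n := J + 1)
      omega
    · have : (Icc 2 (0 + 2)).filter Nat.Prime = {2} := by decide
      rw [this]
      simpa using h2
  | succ t ih =>
    obtain ⟨Q, S, F, a1, a2, a3, a4, a5, a6⟩ := ih (by omega)
    have e1 : Icc 3 (t + 1 + 2) = insert (t + 3) (Icc 3 (t + 2)) := by
      ext x; simp only [mem_Icc, mem_insert]; omega
    have e2 : Icc 2 (t + 1 + 2) = insert (t + 3) (Icc 2 (t + 2)) := by
      ext x; simp only [mem_Icc, mem_insert]; omega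
    by_cases hp : (t + 3).Prime
    · obtain ⟨S', F', h1, h2, h3⟩ := powers F hp (a2 _ hp (by omega))
        (fun d h1 h2 => a1 d h1 (by omega) (fun p _ hpd => by
          have := Nat.le_of_dvd h1 hpd
          omega)) y
      refine ⟨_, S', F', ?_, ?_, ?_, ?_, ?_, fun _ => h3 (by omega)⟩
      · intro d hd0 hdy hpr
        obtain ⟨e, d', hnd, rfl⟩ := Nat.exists_eq_pow_mul_and_not_dvd hd0.ne' (t + 3) hp.ne_one
        have hd' : 0 < d' := Nat.pos_of_mul_pos_left hd0
        have hpe : 0 < (t + 3) ^ e := by positivity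
        have h4 : e < (t + 3) ^ e := Nat.lt_pow_self (by omega)
        have h5 : (t + 3) ^ e ≤ (t + 3) ^ e * d' := Nat.le_mul_of_pos_right _ hd'
        have h6 : d' ≤ (t + 3) ^ e * d' := Nat.le_mul_of_pos_left _ hpe
        refine Nat.mul_dvd_mul (pow_dvd_pow _ (by omega)) (a1 d' hd' (by omega) ?_)
        intro p hp1 hp2
        have h7 := hpr p hp1 (hp2.mul_left _)
        have : p ≠ t + 3 := by rintro rfl; exact hnd hp2
        omega
      · intro p hp1 hlt hdv
        rcases (Nat.Prime.dvd_mul hp1).1 hdv with h | h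
        · have := (Nat.prime_dvd_prime_iff_eq hp1 hp).1 (hp1.dvd_of_dvd_pow h)
          omega
        · exact a2 p hp1 (by omega) h
      · exact a3.trans (Nat.le_mul_of_pos_left _ (by positivity))
      · rw [h1, a4, e1, filter_insert, if_pos hp, sum_insert (by simp)]
        ring
      · rw [e2, filter_insert, if_pos hp, sum_insert (by simp)]
        linarith
    · refine ⟨Q, S, F, ?_, ?_, a3, ?_, ?_, fun _ => a6 ?_⟩
      · intro d hd0 hdy hpr
        refine a1 d hd0 hdy fun p hp1 hp2 => ?_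
        have := hpr p hp1 hp2
        have : p ≠ t + 3 := by rintro rfl; exact hp hp1
        omega
      · intro p hp1 hlt
        exact a2 p hp1 (by omega)
      · rw [a4, e1, filter_insert, if_neg hp]
      · rw [e2, filter_insert, if_neg hp]; exact a5
      · by_contra h0
        obtain rfl : t = 0 := by omega
        exact hp (by norm_num)

lemma mertens (y : ℕ) (hy : 1 ≤ y) :
    (Real.log y - 1) / 2 ≤ ∑ p ∈ (Icc 2 y).filter Nat.Prime, Real.log p / p := by
  have hyr : (0 : ℝ) < y := by exact_mod_cast hy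
  have h1 : y * Real.log y - y ≤ Real.log (y.factorial) := by
    have h := Real.pow_div_factorial_le_exp (y : ℝ) hyr.le y
    have hf : (0 : ℝ) < y.factorial := by exact_mod_cast y.factorial_pos
    have := Real.log_le_log (by positivity) h
    rw [Real.log_div (by positivity) hf.ne', Real.log_pow, Real.log_exp] at this
    linarith
  have h2 : Real.log (y.factorial) ≤
      ∑ p ∈ (Icc 2 y).filter Nat.Prime, 2 * y * (Real.log p / p) := by
    rw [Real.log_nat_eq_sum_factorization, Finsupp.sum, Nat.support_factorization]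
    have hsub : (y.factorial).primeFactors ⊆ (Icc 2 y).filter Nat.Prime := by
      intro p hp
      have h1 := Nat.prime_of_mem_primeFactors hp
      have h2 := (h1.dvd_factorial).1 (Nat.dvd_of_mem_primeFactors hp)
      simp only [mem_filter, mem_Icc]
      exact ⟨⟨h1.two_le, h2⟩, h1⟩
    refine (sum_le_sum_of_subset_of_nonneg hsub fun p _ _ => ?_).trans (sum_le_sum fun p hp => ?_)
    · exact mul_nonneg (Nat.cast_nonneg _) (Real.log_natCast_nonneg _)
    · have hp1 := (mem_filter.1 hp).2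
      have h2 := hp1.two_le
      have h3 := Nat.factorization_factorial_le_div_pred hp1 y
      have h4 : (y.factorial).factorization p * (p - 1) ≤ y :=
        (Nat.le_div_iff_mul_le (by omega)).1 h3
      have h5 : (y.factorial).factorization p * p ≤ 2 * y := by
        obtain ⟨r, rfl⟩ : ∃ r, p = r + 2 := ⟨p - 2, by omega⟩
        have : r + 2 - 1 = r + 1 := by omega
        rw [this] at h4
        nlinarith
      have h6 : (((y.factorial).factorization p : ℕ) : ℝ) * p ≤ 2 * y := by exact_mod_cast h5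
      have hpr : (0 : ℝ) < p := by exact_mod_cast hp1.pos
      have hl := Real.log_natCast_nonneg p
      rw [mul_div_assoc', le_div_iff₀ hpr]
      nlinarith
  rw [← mul_sum] at h2
  rw [div_le_iff₀ (by norm_num)]
  nlinarith

lemma upper (S : Finset ℕ) (k : ℕ) (hk : 1 ≤ k) (hS : S.card = k) :
    ∑ n ∈ S, (1 / n : ℝ) ≤ 2 + Real.log k := by
  have hkr : (0 : ℝ) < k := by exact_mod_cast hk
  rw [← sum_filter_add_sum_filter_not S (fun n => n ∈ Icc 1 k)]
  have h1 : ∑ n ∈ S.filter (fun n => n ∈ Icc 1 k), (1 / n : ℝ) ≤ ∑ n ∈ Icc 1 k, (1 / n : ℝ) :=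
    sum_le_sum_of_subset_of_nonneg (fun n hn => (mem_filter.1 hn).2) fun _ _ _ => by positivity
  have h2 := harmonic_le_one_add_log k
  rw [harmonic_eq_sum_Icc] at h2
  push_cast at h2
  simp only [← one_div] at h2
  have h3 : ∑ n ∈ S.filter (fun n => n ∉ Icc 1 k), (1 / n : ℝ) ≤ ∑ n ∈ S, (1 / k : ℝ) := by
    refine (sum_le_sum (g := fun _ => (1 / k : ℝ)) fun n hn => ?_).trans
      (sum_le_sum_of_subset_of_nonneg (filter_subset _ _) fun _ _ _ => by positivity)
    have := (mem_filter.1 hn).2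
    rw [mem_Icc] at this
    rcases Nat.eq_zero_or_pos n with rfl | hn0
    · simp
    · have : (k : ℝ) ≤ n := by exact_mod_cast (by omega : k ≤ n)
      gcongr
  rw [sum_const, hS, nsmul_eq_mul, mul_one_div_cancel hkr.ne'] at h3
  linarith

lemma lower (k y : ℕ) (hy : 3 ≤ y) (hk : y ^ 4 ≤ k) :
    ∃ S, IsIrreducibleCovering S ∧ S.card = k ∧
      (Real.log y - 1) / 2 ≤ ∑ n ∈ S, (1 / n : ℝ) := by
  set A := ∑ p ∈ (Icc 3 y).filter Nat.Prime, (p - 1) with hA
  have hA2 : A ≤ y * y := by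
    calc A ≤ ((Icc 3 y).filter Nat.Prime).card • y := sum_le_card_nsmul _ _ _ fun p hp => by
          have := mem_Icc.1 (mem_filter.1 hp).1
          omega
      _ ≤ y * y := by
          rw [smul_eq_mul]
          have := card_filter_le (Icc 3 y) Nat.Prime
          rw [Nat.card_Icc] at this
          exact Nat.mul_le_mul_right _ (by omega)
  have hB : (y + 1) * A + y + 2 ≤ k := by
    have : (y + 1) * A ≤ (y + 1) * (y * y) := Nat.mul_le_mul_left _ hA2
    obtain ⟨r, rfl⟩ : ∃ r, y = r + 3 := ⟨y - 3, by omega⟩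
    have : (r + 3 + 1) * ((r + 3) * (r + 3)) + (r + 3) + 2 ≤ (r + 3) ^ 4 := by
      nlinarith [Nat.zero_le r, Nat.zero_le (r ^ 2), Nat.zero_le (r ^ 3), Nat.zero_le (r ^ 4)]
    omega
  obtain ⟨Q, S, F, _, _, a3, a4, a5, a6⟩ := build y (k - 2 - (y + 1) * A) (by omega) (y - 2) (by omega)
  have e : y - 2 + 2 = y := by omega
  rw [e] at a4 a5
  have hQ := a6 (by omega)
  refine ⟨insert Q S, F.irred (by omega) hQ, ?_, ?_⟩
  · rw [card_insert_of_notMem hQ, a4, ← hA]; omega
  · rw [sum_insert hQ]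
    have := mertens y (by omega)
    have : (0 : ℝ) ≤ 1 / Q := by positivity
    linarith

theorem main : ∀ k : ℕ, 21 ^ 4 ≤ k → 1 / 24 * Real.log k ≤ M k ∧ M k ≤ 2 * Real.log k := by
  intro k hk
  have hlog : 2 ≤ Real.log k := by
    rw [Real.le_log_iff_exp_le (by exact_mod_cast (by omega : 0 < k))]
    have h := Real.exp_one_lt_d9
    have e : Real.exp 2 = Real.exp 1 ^ 2 := by rw [← Real.exp_nat_mul]; norm_num
    have h2 : ((21 ^ 4 : ℕ) : ℝ) ≤ k := by exact_mod_cast hk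
    rw [e]
    calc Real.exp 1 ^ 2 ≤ (2.7182818286 : ℝ) ^ 2 := by gcongr
      _ ≤ ((21 ^ 4 : ℕ) : ℝ) := by norm_num
      _ ≤ k := h2
  have hup : ∀ s ∈ {s : ℝ | ∃ S : Finset ℕ, IsIrreducibleCovering S ∧ S.card = k ∧
      s = ∑ n ∈ S, (1 / n : ℝ)}, s ≤ 2 * Real.log k := by
    rintro s ⟨S, _, h2, rfl⟩
    have := upper S k (by omega) h2
    linarith
  refine ⟨?_, Real.sSup_le hup (by linarith)⟩
  set y := Nat.sqrt (Nat.sqrt k) with hy
  have h1 : y ^ 4 ≤ k := by
    have a := Nat.sqrt_le' k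
    have b := Nat.sqrt_le' (Nat.sqrt k)
    calc y ^ 4 = (y ^ 2) ^ 2 := by ring
      _ ≤ (Nat.sqrt k) ^ 2 := Nat.pow_le_pow_left b 2
      _ ≤ k := a
  have h2 : k < (y + 1) ^ 4 := by
    have a := Nat.lt_succ_sqrt' k
    have b := Nat.lt_succ_sqrt' (Nat.sqrt k)
    calc k < (Nat.sqrt k + 1) ^ 2 := a
      _ ≤ ((y + 1) ^ 2) ^ 2 := Nat.pow_le_pow_left b 2
      _ = (y + 1) ^ 4 := by ring
  have h3 : 21 ≤ y := by
    have := lt_of_pow_lt_pow_left₀ 4 (Nat.zero_le _) (lt_of_le_of_lt hk h2)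
    omega
  obtain ⟨S, hS, hc, hs⟩ := lower k y (by omega) h1
  have hle : ∑ n ∈ S, (1 / n : ℝ) ≤ M k := le_csSup ⟨_, hup⟩ ⟨S, hS, hc, rfl⟩
  have hyr : (21 : ℝ) ≤ y := by exact_mod_cast h3
  have hl3 : 3 ≤ Real.log y := by
    rw [Real.le_log_iff_exp_le (by linarith)]
    have h := Real.exp_one_lt_d9
    have e : Real.exp 3 = Real.exp 1 ^ 3 := by rw [← Real.exp_nat_mul]; norm_num
    rw [e]
    calc Real.exp 1 ^ 3 ≤ (2.7182818286 : ℝ) ^ 3 := by gcongr
      _ ≤ 21 := by norm_num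
      _ ≤ y := hyr
  have hk8 : Real.log k ≤ 8 * Real.log y := by
    have h4 : k ≤ y ^ 8 := by
      have : y + 1 ≤ y ^ 2 := by nlinarith
      calc k ≤ (y + 1) ^ 4 := h2.le
        _ ≤ (y ^ 2) ^ 4 := Nat.pow_le_pow_left this 4
        _ = y ^ 8 := by ring
    have h5 : (k : ℝ) ≤ (y : ℝ) ^ 8 := by exact_mod_cast h4
    have := Real.log_le_log (by exact_mod_cast (by omega : 0 < k)) h5
    rw [Real.log_pow] at this
    exact_mod_cast this
  linarith

end Pool.Agent.H52.Cov
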