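import Mathlib

set_option autoImplicit false

namespace Pool.Agent.H52.Cyc105

def Rel (D : ℕ → ℝ) : Prop :=
  (∀ r < 35, D r + D (r + 35) + D (r + 70) = 0) ∧
  (∀ r < 21, D r + D (r + 21) + D (r + 42) + D (r + 63) + D (r + 84) = 0) ∧
  (∀ r < 15, D r + D (r + 15) + D (r + 30) + D (r + 45) + D (r + 60) + D (r + 75) + D (r + 90) = 0)

lemma zero1 (D : ℕ → ℝ) (h : Rel D)
    (hA : ∀ r ∈ [0, 1, 2, 3, 4, 5, 6, 7, 8, 9, 10, 11, 12, 13, 14, 15, 16, 17, 18, 19, 20, 21, 22, 23, 24, 25, 26, 27, 28, 29, 30, 31, 32, 33, 34, 35, 36, 37, 38, 39, 40, 41, 42, 43, 44, 45, 46, 47], D r = 0) : ∀ r < 105, D r = 0 := by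
  obtain ⟨h3, h5, h7⟩ := h
  have a0 : D 0 + D 35 + D 70 = 0 := h3 0 (by norm_num)
  have a1 : D 1 + D 36 + D 71 = 0 := h3 1 (by norm_num)
  have a2 : D 2 + D 37 + D 72 = 0 := h3 2 (by norm_num)
  have a3 : D 3 + D 38 + D 73 = 0 := h3 3 (by norm_num)
  have a4 : D 4 + D 39 + D 74 = 0 := h3 4 (by norm_num)
  have a5 : D 5 + D 40 + D 75 = 0 := h3 5 (by norm_num)
  have a6 : D 6 + D 41 + D 76 = 0 := h3 6 (by norm_num)
  have a7 : D 7 + D 42 + D 77 = 0 := h3 7 (by norm_num)
  have a8 : D 8 + D 43 + D 78 = 0 := h3 8 (by norm_num)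
  have a9 : D 9 + D 44 + D 79 = 0 := h3 9 (by norm_num)
  have a10 : D 10 + D 45 + D 80 = 0 := h3 10 (by norm_num)
  have a11 : D 11 + D 46 + D 81 = 0 := h3 11 (by norm_num)
  have a12 : D 12 + D 47 + D 82 = 0 := h3 12 (by norm_num)
  have a13 : D 13 + D 48 + D 83 = 0 := h3 13 (by norm_num)
  have a14 : D 14 + D 49 + D 84 = 0 := h3 14 (by norm_num)
  have a15 : D 15 + D 50 + D 85 = 0 := h3 15 (by norm_num)
  have a16 : D 16 + D 51 + D 86 = 0 := h3 16 (by norm_num)
  have a17 : D 17 + D 52 + D 87 = 0 := h3 17 (by norm_num)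
  have a18 : D 18 + D 53 + D 88 = 0 := h3 18 (by norm_num)
  have a19 : D 19 + D 54 + D 89 = 0 := h3 19 (by norm_num)
  have a20 : D 20 + D 55 + D 90 = 0 := h3 20 (by norm_num)
  have a21 : D 21 + D 56 + D 91 = 0 := h3 21 (by norm_num)
  have a22 : D 22 + D 57 + D 92 = 0 := h3 22 (by norm_num)
  have a23 : D 23 + D 58 + D 93 = 0 := h3 23 (by norm_num)
  have a24 : D 24 + D 59 + D 94 = 0 := h3 24 (by norm_num)
  have a25 : D 25 + D 60 + D 95 = 0 := h3 25 (by norm_num)
  have a26 : D 26 + D 61 + D 96 = 0 := h3 26 (by norm_num)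
  have a27 : D 27 + D 62 + D 97 = 0 := h3 27 (by norm_num)
  have a28 : D 28 + D 63 + D 98 = 0 := h3 28 (by norm_num)
  have a29 : D 29 + D 64 + D 99 = 0 := h3 29 (by norm_num)
  have a30 : D 30 + D 65 + D 100 = 0 := h3 30 (by norm_num)
  have a31 : D 31 + D 66 + D 101 = 0 := h3 31 (by norm_num)
  have a32 : D 32 + D 67 + D 102 = 0 := h3 32 (by norm_num)
  have a33 : D 33 + D 68 + D 103 = 0 := h3 33 (by norm_num)
  have a34 : D 34 + D 69 + D 104 = 0 := h3 34 (by norm_num)
  have b0 : D 0 + D 21 + D 42 + D 63 + D 84 = 0 := h5 0 (by norm_num)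
  have b1 : D 1 + D 22 + D 43 + D 64 + D 85 = 0 := h5 1 (by norm_num)
  have b2 : D 2 + D 23 + D 44 + D 65 + D 86 = 0 := h5 2 (by norm_num)
  have b3 : D 3 + D 24 + D 45 + D 66 + D 87 = 0 := h5 3 (by norm_num)
  have b4 : D 4 + D 25 + D 46 + D 67 + D 88 = 0 := h5 4 (by norm_num)
  have b5 : D 5 + D 26 + D 47 + D 68 + D 89 = 0 := h5 5 (by norm_num)
  have b6 : D 6 + D 27 + D 48 + D 69 + D 90 = 0 := h5 6 (by norm_num)
  have b7 : D 7 + D 28 + D 49 + D 70 + D 91 = 0 := h5 7 (by norm_num)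
  have b8 : D 8 + D 29 + D 50 + D 71 + D 92 = 0 := h5 8 (by norm_num)
  have b9 : D 9 + D 30 + D 51 + D 72 + D 93 = 0 := h5 9 (by norm_num)
  have b10 : D 10 + D 31 + D 52 + D 73 + D 94 = 0 := h5 10 (by norm_num)
  have b11 : D 11 + D 32 + D 53 + D 74 + D 95 = 0 := h5 11 (by norm_num)
  have b12 : D 12 + D 33 + D 54 + D 75 + D 96 = 0 := h5 12 (by norm_num)
  have b13 : D 13 + D 34 + D 55 + D 76 + D 97 = 0 := h5 13 (by norm_num)
  have b14 : D 14 + D 35 + D 56 + D 77 + D 98 = 0 := h5 14 (by norm_num)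
  have b15 : D 15 + D 36 + D 57 + D 78 + D 99 = 0 := h5 15 (by norm_num)
  have b16 : D 16 + D 37 + D 58 + D 79 + D 100 = 0 := h5 16 (by norm_num)
  have b17 : D 17 + D 38 + D 59 + D 80 + D 101 = 0 := h5 17 (by norm_num)
  have b18 : D 18 + D 39 + D 60 + D 81 + D 102 = 0 := h5 18 (by norm_num)
  have b19 : D 19 + D 40 + D 61 + D 82 + D 103 = 0 := h5 19 (by norm_num)
  have b20 : D 20 + D 41 + D 62 + D 83 + D 104 = 0 := h5 20 (by norm_num)
  have c0 : D 0 + D 15 + D 30 + D 45 + D 60 + D 75 + D 90 = 0 := h7 0 (by norm_num)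
  have c1 : D 1 + D 16 + D 31 + D 46 + D 61 + D 76 + D 91 = 0 := h7 1 (by norm_num)
  have c2 : D 2 + D 17 + D 32 + D 47 + D 62 + D 77 + D 92 = 0 := h7 2 (by norm_num)
  have c3 : D 3 + D 18 + D 33 + D 48 + D 63 + D 78 + D 93 = 0 := h7 3 (by norm_num)
  have c4 : D 4 + D 19 + D 34 + D 49 + D 64 + D 79 + D 94 = 0 := h7 4 (by norm_num)
  have c5 : D 5 + D 20 + D 35 + D 50 + D 65 + D 80 + D 95 = 0 := h7 5 (by norm_num)
  have c6 : D 6 + D 21 + D 36 + D 51 + D 66 + D 81 + D 96 = 0 := h7 6 (by norm_num)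
  have c7 : D 7 + D 22 + D 37 + D 52 + D 67 + D 82 + D 97 = 0 := h7 7 (by norm_num)
  have c8 : D 8 + D 23 + D 38 + D 53 + D 68 + D 83 + D 98 = 0 := h7 8 (by norm_num)
  have c9 : D 9 + D 24 + D 39 + D 54 + D 69 + D 84 + D 99 = 0 := h7 9 (by norm_num)
  have c10 : D 10 + D 25 + D 40 + D 55 + D 70 + D 85 + D 100 = 0 := h7 10 (by norm_num)
  have c11 : D 11 + D 26 + D 41 + D 56 + D 71 + D 86 + D 101 = 0 := h7 11 (by norm_num)
  have c12 : D 12 + D 27 + D 42 + D 57 + D 72 + D 87 + D 102 = 0 := h7 12 (by norm_num)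
  have c13 : D 13 + D 28 + D 43 + D 58 + D 73 + D 88 + D 103 = 0 := h7 13 (by norm_num)
  have c14 : D 14 + D 29 + D 44 + D 59 + D 74 + D 89 + D 104 = 0 := h7 14 (by norm_num)
  have z0 : D 0 = 0 := hA 0 (by decide)
  have z1 : D 1 = 0 := hA 1 (by decide)
  have z2 : D 2 = 0 := hA 2 (by decide)
  have z3 : D 3 = 0 := hA 3 (by decide)
  have z4 : D 4 = 0 := hA 4 (by decide)
  have z5 : D 5 = 0 := hA 5 (by decide)
  have z6 : D 6 = 0 := hA 6 (by decide)
  have z7 : D 7 = 0 := hA 7 (by decide)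
  have z8 : D 8 = 0 := hA 8 (by decide)
  have z9 : D 9 = 0 := hA 9 (by decide)
  have z10 : D 10 = 0 := hA 10 (by decide)
  have z11 : D 11 = 0 := hA 11 (by decide)
  have z12 : D 12 = 0 := hA 12 (by decide)
  have z13 : D 13 = 0 := hA 13 (by decide)
  have z14 : D 14 = 0 := hA 14 (by decide)
  have z15 : D 15 = 0 := hA 15 (by decide)
  have z16 : D 16 = 0 := hA 16 (by decide)
  have z17 : D 17 = 0 := hA 17 (by decide)
  have z18 : D 18 = 0 := hA 18 (by decide)
  have z19 : D 19 = 0 := hA 19 (by decide)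
  have z20 : D 20 = 0 := hA 20 (by decide)
  have z21 : D 21 = 0 := hA 21 (by decide)
  have z22 : D 22 = 0 := hA 22 (by decide)
  have z23 : D 23 = 0 := hA 23 (by decide)
  have z24 : D 24 = 0 := hA 24 (by decide)
  have z25 : D 25 = 0 := hA 25 (by decide)
  have z26 : D 26 = 0 := hA 26 (by decide)
  have z27 : D 27 = 0 := hA 27 (by decide)
  have z28 : D 28 = 0 := hA 28 (by decide)
  have z29 : D 29 = 0 := hA 29 (by decide)
  have z30 : D 30 = 0 := hA 30 (by decide)
  have z31 : D 31 = 0 := hA 31 (by decide)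
  have z32 : D 32 = 0 := hA 32 (by decide)
  have z33 : D 33 = 0 := hA 33 (by decide)
  have z34 : D 34 = 0 := hA 34 (by decide)
  have z35 : D 35 = 0 := hA 35 (by decide)
  have z36 : D 36 = 0 := hA 36 (by decide)
  have z37 : D 37 = 0 := hA 37 (by decide)
  have z38 : D 38 = 0 := hA 38 (by decide)
  have z39 : D 39 = 0 := hA 39 (by decide)
  have z40 : D 40 = 0 := hA 40 (by decide)
  have z41 : D 41 = 0 := hA 41 (by decide)
  have z42 : D 42 = 0 := hA 42 (by decide)
  have z43 : D 43 = 0 := hA 43 (by decide)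
  have z44 : D 44 = 0 := hA 44 (by decide)
  have z45 : D 45 = 0 := hA 45 (by decide)
  have z46 : D 46 = 0 := hA 46 (by decide)
  have z47 : D 47 = 0 := hA 47 (by decide)
  have z70 : D 70 = 0 := by linear_combination a0 - z0 - z35
  have z71 : D 71 = 0 := by linear_combination a1 - z1 - z36
  have z72 : D 72 = 0 := by linear_combination a2 - z2 - z37
  have z73 : D 73 = 0 := by linear_combination a3 - z3 - z38
  have z74 : D 74 = 0 := by linear_combination a4 - z4 - z39
  have z75 : D 75 = 0 := by linear_combination a5 - z5 - z40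
  have z76 : D 76 = 0 := by linear_combination a6 - z6 - z41
  have z77 : D 77 = 0 := by linear_combination a7 - z7 - z42
  have z78 : D 78 = 0 := by linear_combination a8 - z8 - z43
  have z79 : D 79 = 0 := by linear_combination a9 - z9 - z44
  have z80 : D 80 = 0 := by linear_combination a10 - z10 - z45
  have z81 : D 81 = 0 := by linear_combination a11 - z11 - z46
  have z82 : D 82 = 0 := by linear_combination a12 - z12 - z47
  have z52 : D 52 = 0 := by
    linear_combination (1) * a18 + (1) * a20 + (1) * a25 + (-1) * b4 + (-1) * b11 + (-1) * b13 + (-1) * c0 + (1) * c7 - (1) * z18 - (1) * z20 - (-1) * z4 - (-1) * z46 - (-1) * z11 - (-1) * z32 - (-1) * z74 - (-1) * z13 - (-1) * z34 - (-1) * z76 - (-1) * z0 - (-1) * z15 - (-1) * z30 - (-1) * z45 - (-1) * z75 - (1) * z7 - (1) * z22 - (1) * z37 - (1) * z82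
  have z87 : D 87 = 0 := by linear_combination a17 - z17 - z52
  have z66 : D 66 = 0 := by linear_combination b3 - z3 - z24 - z45 - z87
  have z94 : D 94 = 0 := by linear_combination b10 - z10 - z31 - z52 - z73
  have z59 : D 59 = 0 := by linear_combination a24 - z24 - z94
  have z101 : D 101 = 0 := by linear_combination a31 - z31 - z66
  have z48 : D 48 = 0 := by
    linear_combination (1) * a14 + (-1) * a26 + (-1) * b0 + (-1) * b7 + (-1) * b9 + (1) * c1 + (1) * c3 + (1) * c6 - (1) * z14 - (-1) * z26 - (-1) * z0 - (-1) * z42 - (-1) * z7 - (-1) * z28 - (-1) * z70 - (-1) * z9 - (-1) * z30 - (-1) * z72 - (1) * z1 - (1) * z16 - (1) * z31 - (1) * z46 - (1) * z76 - (1) * z3 - (1) * z18 - (1) * z33 - (1) * z78 - (1) * z6 - (1) * z36 - (1) * z66 - (1) * z81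
  have z83 : D 83 = 0 := by linear_combination a13 - z13 - z48
  have z65 : D 65 = 0 := by
    linear_combination (-1) * a20 + (-1) * a25 + (-1) * a27 + (-1) * b8 + (1) * b13 + (1) * c0 + (1) * c2 + (1) * c5 - (-1) * z25 - (-1) * z27 - (-1) * z8 - (-1) * z29 - (-1) * z71 - (1) * z13 - (1) * z34 - (1) * z76 - (1) * z0 - (1) * z15 - (1) * z30 - (1) * z45 - (1) * z75 - (1) * z2 - (1) * z17 - (1) * z32 - (1) * z47 - (1) * z77 - (1) * z5 - (1) * z35 - (1) * z80
  have z100 : D 100 = 0 := by linear_combination a30 - z30 - z65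
  have z86 : D 86 = 0 := by linear_combination b2 - z2 - z23 - z44 - z65
  have z58 : D 58 = 0 := by linear_combination b16 - z16 - z37 - z79 - z100
  have z56 : D 56 = 0 := by linear_combination c11 - z11 - z26 - z41 - z71 - z86 - z101
  have z51 : D 51 = 0 := by linear_combination a16 - z16 - z86
  have z91 : D 91 = 0 := by linear_combination a21 - z21 - z56
  have z93 : D 93 = 0 := by linear_combination a23 - z23 - z58
  have z49 : D 49 = 0 := by linear_combination b7 - z7 - z28 - z70 - z91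
  have z98 : D 98 = 0 := by linear_combination b14 - z14 - z35 - z56 - z77
  have z61 : D 61 = 0 := by linear_combination c1 - z1 - z16 - z31 - z46 - z76 - z91
  have z63 : D 63 = 0 := by linear_combination c3 - z3 - z18 - z33 - z48 - z78 - z93
  have z64 : D 64 = 0 := by linear_combination c4 - z4 - z19 - z34 - z49 - z79 - z94
  have z96 : D 96 = 0 := by linear_combination c6 - z6 - z21 - z36 - z51 - z66 - z81
  have z84 : D 84 = 0 := by linear_combination a14 - z14 - z49
  have z99 : D 99 = 0 := by linear_combination a29 - z29 - z64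
  have z85 : D 85 = 0 := by linear_combination b1 - z1 - z22 - z43 - z64
  have z54 : D 54 = 0 := by linear_combination b12 - z12 - z33 - z75 - z96
  have z57 : D 57 = 0 := by linear_combination b15 - z15 - z36 - z78 - z99
  have z103 : D 103 = 0 := by linear_combination b19 - z19 - z40 - z61 - z82
  have z69 : D 69 = 0 := by linear_combination c9 - z9 - z24 - z39 - z54 - z84 - z99
  have z55 : D 55 = 0 := by linear_combination c10 - z10 - z25 - z40 - z70 - z85 - z100
  have z102 : D 102 = 0 := by linear_combination c12 - z12 - z27 - z42 - z57 - z72 - z87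
  have z88 : D 88 = 0 := by linear_combination c13 - z13 - z28 - z43 - z58 - z73 - z103
  have z50 : D 50 = 0 := by linear_combination a15 - z15 - z85
  have z53 : D 53 = 0 := by linear_combination a18 - z18 - z88
  have z89 : D 89 = 0 := by linear_combination a19 - z19 - z54
  have z90 : D 90 = 0 := by linear_combination a20 - z20 - z55
  have z92 : D 92 = 0 := by linear_combination a22 - z22 - z57
  have z67 : D 67 = 0 := by linear_combination a32 - z32 - z102
  have z68 : D 68 = 0 := by linear_combination a33 - z33 - z103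
  have z104 : D 104 = 0 := by linear_combination a34 - z34 - z69
  have z95 : D 95 = 0 := by linear_combination b11 - z11 - z32 - z53 - z74
  have z97 : D 97 = 0 := by linear_combination b13 - z13 - z34 - z55 - z76
  have z60 : D 60 = 0 := by linear_combination b18 - z18 - z39 - z81 - z102
  have z62 : D 62 = 0 := by linear_combination b20 - z20 - z41 - z83 - z104
  intro r hr
  interval_cases r <;> assumption

lemma zero2 (D : ℕ → ℝ) (h : Rel D)
    (hA : ∀ r ∈ [0, 1, 6, 7, 8, 9, 11, 18, 19, 20, 25, 26, 27, 29, 30, 31, 32, 34, 36, 42, 44, 47, 48, 54, 55, 57, 58, 67, 73, 74, 75, 76, 78, 80, 81, 82, 83, 85, 86, 87, 88, 91, 94, 96, 98, 100, 101, 103], D r = 0) : ∀ r < 105, D r = 0 := by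
  obtain ⟨h3, h5, h7⟩ := h
  have a0 : D 0 + D 35 + D 70 = 0 := h3 0 (by norm_num)
  have a1 : D 1 + D 36 + D 71 = 0 := h3 1 (by norm_num)
  have a2 : D 2 + D 37 + D 72 = 0 := h3 2 (by norm_num)
  have a3 : D 3 + D 38 + D 73 = 0 := h3 3 (by norm_num)
  have a4 : D 4 + D 39 + D 74 = 0 := h3 4 (by norm_num)
  have a5 : D 5 + D 40 + D 75 = 0 := h3 5 (by norm_num)
  have a6 : D 6 + D 41 + D 76 = 0 := h3 6 (by norm_num)
  have a7 : D 7 + D 42 + D 77 = 0 := h3 7 (by norm_num)
  have a8 : D 8 + D 43 + D 78 = 0 := h3 8 (by norm_num)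
  have a9 : D 9 + D 44 + D 79 = 0 := h3 9 (by norm_num)
  have a10 : D 10 + D 45 + D 80 = 0 := h3 10 (by norm_num)
  have a11 : D 11 + D 46 + D 81 = 0 := h3 11 (by norm_num)
  have a12 : D 12 + D 47 + D 82 = 0 := h3 12 (by norm_num)
  have a13 : D 13 + D 48 + D 83 = 0 := h3 13 (by norm_num)
  have a14 : D 14 + D 49 + D 84 = 0 := h3 14 (by norm_num)
  have a15 : D 15 + D 50 + D 85 = 0 := h3 15 (by norm_num)
  have a16 : D 16 + D 51 + D 86 = 0 := h3 16 (by norm_num)
  have a17 : D 17 + D 52 + D 87 = 0 := h3 17 (by norm_num)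
  have a18 : D 18 + D 53 + D 88 = 0 := h3 18 (by norm_num)
  have a19 : D 19 + D 54 + D 89 = 0 := h3 19 (by norm_num)
  have a20 : D 20 + D 55 + D 90 = 0 := h3 20 (by norm_num)
  have a21 : D 21 + D 56 + D 91 = 0 := h3 21 (by norm_num)
  have a22 : D 22 + D 57 + D 92 = 0 := h3 22 (by norm_num)
  have a23 : D 23 + D 58 + D 93 = 0 := h3 23 (by norm_num)
  have a24 : D 24 + D 59 + D 94 = 0 := h3 24 (by norm_num)
  have a25 : D 25 + D 60 + D 95 = 0 := h3 25 (by norm_num)
  have a26 : D 26 + D 61 + D 96 = 0 := h3 26 (by norm_num)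
  have a27 : D 27 + D 62 + D 97 = 0 := h3 27 (by norm_num)
  have a28 : D 28 + D 63 + D 98 = 0 := h3 28 (by norm_num)
  have a29 : D 29 + D 64 + D 99 = 0 := h3 29 (by norm_num)
  have a30 : D 30 + D 65 + D 100 = 0 := h3 30 (by norm_num)
  have a31 : D 31 + D 66 + D 101 = 0 := h3 31 (by norm_num)
  have a32 : D 32 + D 67 + D 102 = 0 := h3 32 (by norm_num)
  have a33 : D 33 + D 68 + D 103 = 0 := h3 33 (by norm_num)
  have a34 : D 34 + D 69 + D 104 = 0 := h3 34 (by norm_num)
  have b0 : D 0 + D 21 + D 42 + D 63 + D 84 = 0 := h5 0 (by norm_num)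
  have b1 : D 1 + D 22 + D 43 + D 64 + D 85 = 0 := h5 1 (by norm_num)
  have b2 : D 2 + D 23 + D 44 + D 65 + D 86 = 0 := h5 2 (by norm_num)
  have b3 : D 3 + D 24 + D 45 + D 66 + D 87 = 0 := h5 3 (by norm_num)
  have b4 : D 4 + D 25 + D 46 + D 67 + D 88 = 0 := h5 4 (by norm_num)
  have b5 : D 5 + D 26 + D 47 + D 68 + D 89 = 0 := h5 5 (by norm_num)
  have b6 : D 6 + D 27 + D 48 + D 69 + D 90 = 0 := h5 6 (by norm_num)
  have b7 : D 7 + D 28 + D 49 + D 70 + D 91 = 0 := h5 7 (by norm_num)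
  have b8 : D 8 + D 29 + D 50 + D 71 + D 92 = 0 := h5 8 (by norm_num)
  have b9 : D 9 + D 30 + D 51 + D 72 + D 93 = 0 := h5 9 (by norm_num)
  have b10 : D 10 + D 31 + D 52 + D 73 + D 94 = 0 := h5 10 (by norm_num)
  have b11 : D 11 + D 32 + D 53 + D 74 + D 95 = 0 := h5 11 (by norm_num)
  have b12 : D 12 + D 33 + D 54 + D 75 + D 96 = 0 := h5 12 (by norm_num)
  have b13 : D 13 + D 34 + D 55 + D 76 + D 97 = 0 := h5 13 (by norm_num)
  have b14 : D 14 + D 35 + D 56 + D 77 + D 98 = 0 := h5 14 (by norm_num)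
  have b15 : D 15 + D 36 + D 57 + D 78 + D 99 = 0 := h5 15 (by norm_num)
  have b16 : D 16 + D 37 + D 58 + D 79 + D 100 = 0 := h5 16 (by norm_num)
  have b17 : D 17 + D 38 + D 59 + D 80 + D 101 = 0 := h5 17 (by norm_num)
  have b18 : D 18 + D 39 + D 60 + D 81 + D 102 = 0 := h5 18 (by norm_num)
  have b19 : D 19 + D 40 + D 61 + D 82 + D 103 = 0 := h5 19 (by norm_num)
  have b20 : D 20 + D 41 + D 62 + D 83 + D 104 = 0 := h5 20 (by norm_num)
  have c0 : D 0 + D 15 + D 30 + D 45 + D 60 + D 75 + D 90 = 0 := h7 0 (by norm_num)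
  have c1 : D 1 + D 16 + D 31 + D 46 + D 61 + D 76 + D 91 = 0 := h7 1 (by norm_num)
  have c2 : D 2 + D 17 + D 32 + D 47 + D 62 + D 77 + D 92 = 0 := h7 2 (by norm_num)
  have c3 : D 3 + D 18 + D 33 + D 48 + D 63 + D 78 + D 93 = 0 := h7 3 (by norm_num)
  have c4 : D 4 + D 19 + D 34 + D 49 + D 64 + D 79 + D 94 = 0 := h7 4 (by norm_num)
  have c5 : D 5 + D 20 + D 35 + D 50 + D 65 + D 80 + D 95 = 0 := h7 5 (by norm_num)
  have c6 : D 6 + D 21 + D 36 + D 51 + D 66 + D 81 + D 96 = 0 := h7 6 (by norm_num)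
  have c7 : D 7 + D 22 + D 37 + D 52 + D 67 + D 82 + D 97 = 0 := h7 7 (by norm_num)
  have c8 : D 8 + D 23 + D 38 + D 53 + D 68 + D 83 + D 98 = 0 := h7 8 (by norm_num)
  have c9 : D 9 + D 24 + D 39 + D 54 + D 69 + D 84 + D 99 = 0 := h7 9 (by norm_num)
  have c10 : D 10 + D 25 + D 40 + D 55 + D 70 + D 85 + D 100 = 0 := h7 10 (by norm_num)
  have c11 : D 11 + D 26 + D 41 + D 56 + D 71 + D 86 + D 101 = 0 := h7 11 (by norm_num)
  have c12 : D 12 + D 27 + D 42 + D 57 + D 72 + D 87 + D 102 = 0 := h7 12 (by norm_num)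
  have c13 : D 13 + D 28 + D 43 + D 58 + D 73 + D 88 + D 103 = 0 := h7 13 (by norm_num)
  have c14 : D 14 + D 29 + D 44 + D 59 + D 74 + D 89 + D 104 = 0 := h7 14 (by norm_num)
  have z0 : D 0 = 0 := hA 0 (by decide)
  have z1 : D 1 = 0 := hA 1 (by decide)
  have z6 : D 6 = 0 := hA 6 (by decide)
  have z7 : D 7 = 0 := hA 7 (by decide)
  have z8 : D 8 = 0 := hA 8 (by decide)
  have z9 : D 9 = 0 := hA 9 (by decide)
  have z11 : D 11 = 0 := hA 11 (by decide)
  have z18 : D 18 = 0 := hA 18 (by decide)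
  have z19 : D 19 = 0 := hA 19 (by decide)
  have z20 : D 20 = 0 := hA 20 (by decide)
  have z25 : D 25 = 0 := hA 25 (by decide)
  have z26 : D 26 = 0 := hA 26 (by decide)
  have z27 : D 27 = 0 := hA 27 (by decide)
  have z29 : D 29 = 0 := hA 29 (by decide)
  have z30 : D 30 = 0 := hA 30 (by decide)
  have z31 : D 31 = 0 := hA 31 (by decide)
  have z32 : D 32 = 0 := hA 32 (by decide)
  have z34 : D 34 = 0 := hA 34 (by decide)
  have z36 : D 36 = 0 := hA 36 (by decide)
  have z42 : D 42 = 0 := hA 42 (by decide)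
  have z44 : D 44 = 0 := hA 44 (by decide)
  have z47 : D 47 = 0 := hA 47 (by decide)
  have z48 : D 48 = 0 := hA 48 (by decide)
  have z54 : D 54 = 0 := hA 54 (by decide)
  have z55 : D 55 = 0 := hA 55 (by decide)
  have z57 : D 57 = 0 := hA 57 (by decide)
  have z58 : D 58 = 0 := hA 58 (by decide)
  have z67 : D 67 = 0 := hA 67 (by decide)
  have z73 : D 73 = 0 := hA 73 (by decide)
  have z74 : D 74 = 0 := hA 74 (by decide)
  have z75 : D 75 = 0 := hA 75 (by decide)
  have z76 : D 76 = 0 := hA 76 (by decide)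
  have z78 : D 78 = 0 := hA 78 (by decide)
  have z80 : D 80 = 0 := hA 80 (by decide)
  have z81 : D 81 = 0 := hA 81 (by decide)
  have z82 : D 82 = 0 := hA 82 (by decide)
  have z83 : D 83 = 0 := hA 83 (by decide)
  have z85 : D 85 = 0 := hA 85 (by decide)
  have z86 : D 86 = 0 := hA 86 (by decide)
  have z87 : D 87 = 0 := hA 87 (by decide)
  have z88 : D 88 = 0 := hA 88 (by decide)
  have z91 : D 91 = 0 := hA 91 (by decide)
  have z94 : D 94 = 0 := hA 94 (by decide)
  have z96 : D 96 = 0 := hA 96 (by decide)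
  have z98 : D 98 = 0 := hA 98 (by decide)
  have z100 : D 100 = 0 := hA 100 (by decide)
  have z101 : D 101 = 0 := hA 101 (by decide)
  have z103 : D 103 = 0 := hA 103 (by decide)
  have z71 : D 71 = 0 := by linear_combination a1 - z1 - z36
  have z41 : D 41 = 0 := by linear_combination a6 - z6 - z76
  have z77 : D 77 = 0 := by linear_combination a7 - z7 - z42
  have z43 : D 43 = 0 := by linear_combination a8 - z8 - z78
  have z79 : D 79 = 0 := by linear_combination a9 - z9 - z44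
  have z46 : D 46 = 0 := by linear_combination a11 - z11 - z81
  have z12 : D 12 = 0 := by linear_combination a12 - z47 - z82
  have z13 : D 13 = 0 := by linear_combination a13 - z48 - z83
  have z53 : D 53 = 0 := by linear_combination a18 - z18 - z88
  have z89 : D 89 = 0 := by linear_combination a19 - z19 - z54
  have z90 : D 90 = 0 := by linear_combination a20 - z20 - z55
  have z61 : D 61 = 0 := by linear_combination a26 - z26 - z96
  have z65 : D 65 = 0 := by linear_combination a30 - z30 - z100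
  have z66 : D 66 = 0 := by linear_combination a31 - z31 - z101
  have z102 : D 102 = 0 := by linear_combination a32 - z32 - z67
  have z4 : D 4 = 0 := by linear_combination b4 - z25 - z46 - z67 - z88
  have z69 : D 69 = 0 := by linear_combination b6 - z6 - z27 - z48 - z90
  have z95 : D 95 = 0 := by linear_combination b11 - z11 - z32 - z53 - z74
  have z33 : D 33 = 0 := by linear_combination b12 - z12 - z54 - z75 - z96
  have z97 : D 97 = 0 := by linear_combination b13 - z13 - z34 - z55 - z76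
  have z40 : D 40 = 0 := by linear_combination b19 - z19 - z61 - z82 - z103
  have z16 : D 16 = 0 := by linear_combination c1 - z1 - z31 - z46 - z61 - z76 - z91
  have z56 : D 56 = 0 := by linear_combination c11 - z11 - z26 - z41 - z71 - z86 - z101
  have z72 : D 72 = 0 := by linear_combination c12 - z12 - z27 - z42 - z57 - z87 - z102
  have z28 : D 28 = 0 := by linear_combination c13 - z13 - z43 - z58 - z73 - z88 - z103
  have z39 : D 39 = 0 := by linear_combination a4 - z4 - z74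
  have z5 : D 5 = 0 := by linear_combination a5 - z40 - z75
  have z51 : D 51 = 0 := by linear_combination a16 - z16 - z86
  have z21 : D 21 = 0 := by linear_combination a21 - z56 - z91
  have z60 : D 60 = 0 := by linear_combination a25 - z25 - z95
  have z62 : D 62 = 0 := by linear_combination a27 - z27 - z97
  have z63 : D 63 = 0 := by linear_combination a28 - z28 - z98
  have z68 : D 68 = 0 := by linear_combination a33 - z33 - z103
  have z104 : D 104 = 0 := by linear_combination a34 - z34 - z69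
  have z84 : D 84 = 0 := by linear_combination b0 - z0 - z21 - z42 - z63
  have z93 : D 93 = 0 := by linear_combination b9 - z9 - z30 - z51 - z72
  have z37 : D 37 = 0 := by linear_combination b16 - z16 - z58 - z79 - z100
  have z3 : D 3 = 0 := by linear_combination c3 - z18 - z33 - z48 - z63 - z78 - z93
  have z2 : D 2 = 0 := by linear_combination a2 - z37 - z72
  have z38 : D 38 = 0 := by linear_combination a3 - z3 - z73
  have z23 : D 23 = 0 := by linear_combination a23 - z58 - z93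
  have z10 : D 10 = 0 := by
    linear_combination (1 / 2) * a10 + (1 / 2) * a15 + (-1 / 2) * a17 + (-1 / 2) * b8 + (1 / 2) * b10 + (-1 / 2) * c0 + (1 / 2) * c2 - (1 / 2) * z80 - (1 / 2) * z85 - (-1 / 2) * z87 - (-1 / 2) * z8 - (-1 / 2) * z29 - (-1 / 2) * z71 - (1 / 2) * z31 - (1 / 2) * z73 - (1 / 2) * z94 - (-1 / 2) * z0 - (-1 / 2) * z30 - (-1 / 2) * z60 - (-1 / 2) * z75 - (-1 / 2) * z90 - (1 / 2) * z2 - (1 / 2) * z32 - (1 / 2) * z47 - (1 / 2) * z62 - (1 / 2) * z77
  have z45 : D 45 = 0 := by linear_combination a10 - z10 - z80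
  have z24 : D 24 = 0 := by linear_combination b3 - z3 - z45 - z66 - z87
  have z52 : D 52 = 0 := by linear_combination b10 - z10 - z31 - z73 - z94
  have z15 : D 15 = 0 := by linear_combination c0 - z0 - z30 - z45 - z60 - z75 - z90
  have z22 : D 22 = 0 := by linear_combination c7 - z7 - z37 - z52 - z67 - z82 - z97
  have z99 : D 99 = 0 := by linear_combination c9 - z9 - z24 - z39 - z54 - z69 - z84
  have z70 : D 70 = 0 := by linear_combination c10 - z10 - z25 - z40 - z55 - z85 - z100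
  have z35 : D 35 = 0 := by linear_combination a0 - z0 - z70
  have z50 : D 50 = 0 := by linear_combination a15 - z15 - z85
  have z17 : D 17 = 0 := by linear_combination a17 - z52 - z87
  have z92 : D 92 = 0 := by linear_combination a22 - z22 - z57
  have z59 : D 59 = 0 := by linear_combination a24 - z24 - z94
  have z64 : D 64 = 0 := by linear_combination a29 - z29 - z99
  have z49 : D 49 = 0 := by linear_combination b7 - z7 - z28 - z70 - z91
  have z14 : D 14 = 0 := by linear_combination b14 - z35 - z56 - z77 - z98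
  intro r hr
  interval_cases r <;> assumption

def tt (r : ℕ) : ℤ := ([2, 2, 0, 0, -2, 0, 2, 2, 2, 2, -3, 2, -4, -4, 1, -3, 0, 1, 2, 2, 2, -2, -1, 0, 1, 2, 2, 2, 0, 2, 2, 2, 2, -2, 2, 1, 2, 0, -2, 0, -2, -4, 2, -4, 2, 1, -4, 2, 2, -1, 1, -2, -3, -4, 2, 2, 0, 2, 2, -3, 0, -4, 0, -2, 1, -4, -4, 2, 0, -2, -3, -4, 0, 2, 2, 2, 2, -4, 2, -4, 2, 2, 2, 2, 0, 2, 2, 2, 2, -4, -4, 2, -1, -2, 2, -2, 2, -2, 2, -3, 2, 2, -4, 2, 0] : List ℤ).getD r 0

def Z : List ℕ := [0, 1, 6, 7, 8, 9, 11, 18, 19, 20, 25, 26, 27, 29, 30, 31, 32, 34, 36, 42, 44, 47, 48, 54, 55, 57, 58, 67, 73, 74, 75, 76, 78, 80, 81, 82, 83, 85, 86, 87, 88, 91, 94, 96, 98, 100, 101, 103]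

lemma tt_le : ∀ r < 105, tt r ≤ 2 := by decide +kernel

lemma tt_Z : ∀ r ∈ Z, r < 105 ∧ tt r = 2 := by decide +kernel

lemma tt_rel : Rel (fun r => (tt r : ℝ) / 2) := by
  have h3 : ∀ r < 35, tt r + tt (r + 35) + tt (r + 70) = 0 := by decide +kernel
  have h5 : ∀ r < 21, tt r + tt (r + 21) + tt (r + 42) + tt (r + 63) + tt (r + 84) = 0 := by
    decide +kernel
  have h7 : ∀ r < 15, tt r + tt (r + 15) + tt (r + 30) + tt (r + 45) + tt (r + 60) + tt (r + 75)
      + tt (r + 90) = 0 := by decide +kernel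
  refine ⟨fun r hr => ?_, fun r hr => ?_, fun r hr => ?_⟩
  · have : ((tt r + tt (r + 35) + tt (r + 70) : ℤ) : ℝ) = 0 := by rw [h3 r hr]; simp
    push_cast at this
    simp only
    linarith
  · have : ((tt r + tt (r + 21) + tt (r + 42) + tt (r + 63) + tt (r + 84) : ℤ) : ℝ) = 0 := by
      rw [h5 r hr]; simp
    push_cast at this
    simp only
    linarith
  · have : ((tt r + tt (r + 15) + tt (r + 30) + tt (r + 45) + tt (r + 60) + tt (r + 75)
      + tt (r + 90) : ℤ) : ℝ) = 0 := by rw [h7 r hr]; simp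
    push_cast at this
    simp only
    linarith

end Pool.Agent.H52.Cyc105
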