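import Mathlib

set_option autoImplicit false
open Finset

namespace Pool.Agent.H52.SUnit

def Sm (m : ℕ) : Prop := 0 < m ∧ ∀ p : ℕ, p.Prime → p ∣ m → p ≤ 5

lemma Sm.mul {m n : ℕ} (h : Sm m) (k : Sm n) : Sm (m * n) :=
  ⟨Nat.mul_pos h.1 k.1, fun p hp hd => ((Nat.Prime.dvd_mul hp).1 hd).elim (h.2 p hp) (k.2 p hp)⟩

lemma Sm.pow {m : ℕ} (h : Sm m) (t : ℕ) : Sm (m ^ t) :=
  ⟨Nat.pow_pos h.1, fun p hp hd => h.2 p hp (hp.dvd_of_dvd_pow hd)⟩

lemma sm_le {m : ℕ} (h0 : 0 < m) (h : m ≤ 5) : Sm m :=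
  ⟨h0, fun _ _ hd => (Nat.le_of_dvd h0 hd).trans h⟩

lemma reduce {m n : ℕ} (hm : Sm m) (hn : Sm n) :
    ∃ A D, Sm A ∧ Sm D ∧ Nat.Coprime A D ∧ (A : ℝ) / D = m / n ∧ D ≤ n := by
  obtain ⟨A, D, h1, h2, h3⟩ := Nat.exists_coprime m n
  have hg : 0 < m.gcd n := Nat.gcd_pos_of_pos_left _ hm.1
  have a : A ∣ m := ⟨_, h2⟩
  have d : D ∣ n := ⟨_, h3⟩
  refine ⟨A, D, ⟨Nat.pos_of_dvd_of_pos a hm.1, fun p hp h => hm.2 p hp (h.trans a)⟩,
    ⟨Nat.pos_of_dvd_of_pos d hn.1, fun p hp h => hn.2 p hp (h.trans d)⟩, h1, ?_,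
    Nat.le_of_dvd hn.1 d⟩
  generalize m.gcd n = g at *
  rw [h2, h3]; push_cast
  rw [mul_div_mul_right _ _ (by positivity)]

lemma uniq {a b c a' b' c' : ℕ} (h : 3 ^ b * 5 ^ c * 2 ^ a' = 3 ^ b' * 5 ^ c' * 2 ^ a) :
    b = b' ∧ c = c' := by
  have h2 := congrArg Nat.factorization h
  rw [Nat.factorization_mul (by positivity) (by positivity),
    Nat.factorization_mul (by positivity) (by positivity),
    Nat.factorization_mul (by positivity) (by positivity),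
    Nat.factorization_mul (by positivity) (by positivity)] at h2
  simp only [Nat.factorization_pow, Nat.Prime.factorization Nat.prime_two,
    Nat.Prime.factorization Nat.prime_three, Nat.Prime.factorization Nat.prime_five] at h2
  have h3 := congrArg (fun f => f 3) h2
  have h5 := congrArg (fun f => f 5) h2
  simp at h3 h5
  exact ⟨h3, h5⟩

lemma unit (N : ℕ) (hN : 1 ≤ N) :
    ∃ m n, Sm m ∧ Sm n ∧ n < m ∧ (m : ℝ) / n < 1 + 1 / N ^ 2 ∧ n ≤ 2 ^ (8 * N) := by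
  let u : ℕ × ℕ → ℕ := fun z => 3 ^ z.1 * 5 ^ z.2
  let d : ℕ × ℕ → ℕ := fun z => 2 ^ Nat.log 2 (u z)
  let x : ℕ × ℕ → ℝ := fun z => u z / d z
  have u0 : ∀ z, 0 < u z := fun z => by positivity
  have d0 : ∀ z, 0 < d z := fun z => by positivity
  have du : ∀ z, d z ≤ u z := fun z => Nat.pow_log_le_self 2 (u0 z).ne'
  have x1 : ∀ z, 1 ≤ x z := fun z =>
    (one_le_div (by exact_mod_cast d0 z)).2 (by exact_mod_cast du z)
  have x2 : ∀ z, x z < 2 := fun z => by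
    have h : u z < 2 * d z := by
      have := Nat.lt_pow_succ_log_self (b := 2) (by norm_num) (u z)
      rwa [pow_succ'] at this
    exact (div_lt_iff₀ (by exact_mod_cast d0 z)).2 (by exact_mod_cast h)
  have N0 : (0 : ℝ) < N ^ 2 := by positivity
  obtain ⟨z, hz, w, hw, hne, he⟩ := exists_ne_map_eq_of_card_lt_of_maps_to
    (s := range (N + 1) ×ˢ range (N + 1)) (t := range (N ^ 2))
    (f := fun z => ⌊(N : ℝ) ^ 2 * (x z - 1)⌋₊) (by simp; nlinarith) (fun z _ => by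
      simp only [coe_range, Set.mem_Iio]
      rw [Nat.floor_lt (by nlinarith [x1 z])]
      push_cast; nlinarith [x2 z])
  have key : ∀ z w : ℕ × ℕ, w ∈ range (N + 1) ×ˢ range (N + 1) → z ∈ range (N + 1) ×ˢ range (N + 1) →
      ⌊(N : ℝ) ^ 2 * (x z - 1)⌋₊ = ⌊(N : ℝ) ^ 2 * (x w - 1)⌋₊ → u w * d z < u z * d w →
      ∃ m n, Sm m ∧ Sm n ∧ n < m ∧ (m : ℝ) / n < 1 + 1 / N ^ 2 ∧ n ≤ 2 ^ (8 * N) := by
    intro z w hw hz he hlt
    have su : ∀ z, Sm (u z) := fun z =>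
      ((sm_le (by norm_num) (by norm_num)).pow _).mul ((sm_le (by norm_num) (by norm_num)).pow _)
    have sd : ∀ z, Sm (d z) := fun z => (sm_le (by norm_num) (by norm_num)).pow _
    have ub : ∀ z ∈ range (N + 1) ×ˢ range (N + 1), u z ≤ 2 ^ (4 * N) := by
      intro z hz
      simp only [mem_product, mem_range] at hz
      calc u z ≤ 3 ^ N * 5 ^ N := Nat.mul_le_mul (Nat.pow_le_pow_right (by norm_num) (by omega))
            (Nat.pow_le_pow_right (by norm_num) (by omega))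
        _ ≤ (2 ^ 4) ^ N := by rw [← mul_pow]; exact Nat.pow_le_pow_left (by norm_num) _
        _ = _ := by rw [← pow_mul]
    refine ⟨_, _, (su z).mul (sd w), (su w).mul (sd z), hlt, ?_, ?_⟩
    · have h1 := Nat.lt_floor_add_one ((N : ℝ) ^ 2 * (x z - 1))
      have h2 := Nat.floor_le (a := (N : ℝ) ^ 2 * (x w - 1)) (by nlinarith [x1 w])
      rw [he] at h1
      have h3 : x z < x w + 1 / N ^ 2 := by
        rw [← sub_lt_iff_lt_add', lt_div_iff₀ N0]; linarith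
      have e : ((u z * d w : ℕ) : ℝ) / (u w * d z : ℕ) = x z / x w := by
        have := u0 w; have := d0 z; have := d0 w
        simp only [x]; push_cast; field_simp
      have h4 : 0 < 1 / (N : ℝ) ^ 2 := by positivity
      rw [e, div_lt_iff₀ (by linarith [x1 w])]
      nlinarith [x1 w]
    · calc u w * d z ≤ 2 ^ (4 * N) * 2 ^ (4 * N) := Nat.mul_le_mul (ub w hw) ((du z).trans (ub z hz))
        _ = _ := by rw [← pow_add]; congr 1; ring
  rcases lt_trichotomy (u w * d z) (u z * d w) with h | h | h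
  · exact key z w hw hz he h
  · exact absurd (Prod.ext (uniq h).1.symm (uniq h).2.symm) hne
  · exact key w z hz hw he.symm h

lemma bigunit (L : ℕ) (hL : 1 ≤ L) : ∃ A D, Sm A ∧ Sm D ∧ Nat.Coprime A D ∧
    1 ≤ (A : ℝ) / D ∧ (A : ℝ) / D ≤ 1 + 2 / L ∧ 2 ^ (64 * L) ≤ D ∧ D ≤ 2 ^ (128 * L) := by
  obtain ⟨m, n, hm, hn, h1, h2, h3⟩ := unit (8 * L) (by omega)
  obtain ⟨A, D, hA, hD, hc, he, hle⟩ := reduce hm hn
  have L1 : (1 : ℝ) ≤ L := by exact_mod_cast hL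
  have h4 : 1 < (A : ℝ) / D := by
    rw [he]; exact (one_lt_div (by exact_mod_cast hn.1)).2 (by exact_mod_cast h1)
  rw [← he] at h2
  push_cast at h2
  have h5 : 1 < D := by
    by_contra h
    obtain rfl : D = 1 := by have := hD.1; omega
    have h6 : 1 / (8 * (L : ℝ)) ^ 2 ≤ 1 := by
      rw [div_le_one (by positivity)]; nlinarith
    rw [Nat.cast_one, div_one] at h2 h4
    have : 1 < A := by exact_mod_cast h4
    have : A < 2 := by exact_mod_cast (show (A : ℝ) < 2 by linarith)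
    omega
  have hX : 1 < 2 ^ (64 * L) := Nat.one_lt_two_pow (by omega)
  have t1 : Nat.clog D (2 ^ (64 * L)) ≤ 64 * L :=
    Nat.clog_le_of_le_pow (Nat.pow_le_pow_left h5 _)
  have t2 := Nat.pow_pred_clog_lt_self h5 hX
  have t3 := Nat.le_pow_clog h5 (2 ^ (64 * L))
  have t4 := Nat.clog_pos h5 hX
  generalize Nat.clog D (2 ^ (64 * L)) = t at *
  refine ⟨A ^ t, D ^ t, hA.pow t, hD.pow t, Nat.Coprime.pow _ _ hc, ?_, ?_, t3, ?_⟩
  · push_cast; rw [← div_pow]; exact one_le_pow₀ h4.le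
  · push_cast; rw [← div_pow]
    have e1 : (A : ℝ) / D ≤ Real.exp (1 / (8 * L) ^ 2) := by
      linarith [Real.add_one_le_exp (1 / (8 * (L : ℝ)) ^ 2)]
    have e2 : |Real.exp (1 / L) - 1| ≤ 2 * |1 / (L : ℝ)| := Real.abs_exp_sub_one_le (by
      rw [abs_of_pos (by positivity), div_le_one (by positivity)]; exact L1)
    rw [abs_of_pos (show (0 : ℝ) < 1 / L by positivity)] at e2
    calc ((A : ℝ) / D) ^ t ≤ ((A : ℝ) / D) ^ (64 * L) := pow_le_pow_right₀ h4.le t1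
      _ ≤ Real.exp (1 / (8 * L) ^ 2) ^ (64 * L) := by gcongr
      _ = Real.exp (1 / L) := by
        rw [← Real.exp_nat_mul]; congr 1; push_cast; field_simp; norm_num
      _ ≤ 1 + 2 / L := by
        have := (abs_le.1 e2).2
        rw [mul_one_div] at this; linarith
  · obtain ⟨s, rfl⟩ : ∃ s, t = s + 1 := ⟨t - 1, by omega⟩
    rw [Nat.pred_succ] at t2
    calc D ^ (s + 1) = D ^ s * D := pow_succ _ _
      _ ≤ 2 ^ (64 * L) * 2 ^ (8 * (8 * L)) := Nat.mul_le_mul t2.le (hle.trans h3)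
      _ = _ := by rw [← pow_add]; congr 1; ring

lemma dense (x δ : ℝ) (hx : 1 ≤ x) (hx2 : x ≤ 2) (hδ : 0 < δ) :
    ∃ m n, Sm m ∧ Sm n ∧ 1 ≤ (m : ℝ) / n ∧ (m : ℝ) / n ≤ x ∧ x ≤ (m : ℝ) / n + δ := by
  obtain ⟨N, hN⟩ := exists_nat_gt (2 / δ)
  have N0 : (0 : ℝ) < N := lt_trans (by positivity) hN
  have N1 : 1 ≤ N := by exact_mod_cast N0
  obtain ⟨m, n, hm, hn, h1, h2, -⟩ := unit N N1
  have h4 : 1 < (m : ℝ) / n := (one_lt_div (by exact_mod_cast hn.1)).2 (by exact_mod_cast h1)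
  obtain ⟨e, h5, h6⟩ := exists_nat_pow_near hx h4
  refine ⟨m ^ e, n ^ e, hm.pow e, hn.pow e, ?_⟩
  push_cast
  rw [← div_pow]
  have h7 := one_le_pow₀ (n := e) h4.le
  refine ⟨h7, h5, ?_⟩
  have h8 : 1 / (N : ℝ) ^ 2 ≤ δ / 2 := by
    have : (1 : ℝ) ≤ N := by exact_mod_cast N1
    rw [div_lt_iff₀ hδ] at hN
    rw [div_le_iff₀ (by positivity)]
    nlinarith
  rw [pow_succ] at h6
  nlinarith

open GenContFract in
lemma conts_int (ξ : ℝ) (n : ℕ) :
    ∃ a b : ℤ, (a : ℝ) = ((GenContFract.of ξ).contsAux n).a ∧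
      (b : ℝ) = ((GenContFract.of ξ).contsAux n).b := by
  induction n using Nat.strong_induction_on with
  | _ n ih =>
    match n with
    | 0 => exact ⟨1, 0, by simp, by simp⟩
    | 1 => exact ⟨⌊ξ⌋, 1, by simp, by simp⟩
    | n + 2 =>
      obtain ⟨a, b, h1, h2⟩ := ih n (by omega)
      obtain ⟨a', b', h3, h4⟩ := ih (n + 1) (by omega)
      rcases h : (GenContFract.of ξ).s.get? n with _ | gp
      · rw [contsAux_stable_step_of_terminated h]; exact ⟨a', b', h3, h4⟩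
      · obtain ⟨e1, z, e2⟩ := of_partNum_eq_one_and_exists_int_partDen_eq h
        rw [contsAux_recurrence h rfl rfl]
        refine ⟨z * a' + a, z * b' + b, ?_, ?_⟩ <;> simp [e1, e2, h1, h2, h3, h4]

open GenContFract in
lemma conv_of_close (ξ : ℝ) (hξ : Irrational ξ) (A D : ℕ) (hD : 0 < D) (hc : Nat.Coprime A D)
    (h : |ξ - (A : ℝ) / D| < 1 / (2 * (D : ℝ) ^ 2)) :
    ∃ n, (A : ℝ) = (GenContFract.of ξ).nums n ∧ (D : ℝ) = (GenContFract.of ξ).dens n := by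
  have hd : (((A : ℤ) / (D : ℤ) : ℚ)).den = D := by
    exact_mod_cast Rat.den_div_eq_of_coprime (a := A) (b := D) (by exact_mod_cast hD)
      (by simpa using hc)
  obtain ⟨n, hn⟩ := Real.exists_convs_eq_rat (ξ := ξ) (q := (A : ℤ) / (D : ℤ))
    (by rw [hd]; push_cast; exact h)
  have nt : ∀ k, ¬ (GenContFract.of ξ).TerminatedAt k := fun k hk => by
    obtain ⟨q, hq⟩ := (terminates_iff_rat ξ).1 ⟨k, hk⟩
    exact hξ ⟨q, hq.symm⟩
  obtain ⟨a, b, h1, h2⟩ := conts_int ξ (n + 1)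
  obtain ⟨a', b', h3, h4⟩ := conts_int ξ (n + 2)
  have det := SimpContFract.determinant (s := SimpContFract.of ξ) (n := n) (nt n)
  have e1 : (GenContFract.of ξ).nums n = a := h1.symm
  have e2 : (GenContFract.of ξ).dens n = b := h2.symm
  have e3 : (GenContFract.of ξ).nums (n + 1) = a' := h3.symm
  have e4 : (GenContFract.of ξ).dens (n + 1) = b' := h4.symm
  have det2 : (a : ℝ) * b' - b * a' = (-1) ^ (n + 1) := by rw [← e1, ← e2, ← e3, ← e4]; exact det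
  have det3 : a * b' - b * a' = (-1) ^ (n + 1) := by exact_mod_cast det2
  have cop : IsCoprime a b := ⟨b' * (-1) ^ (n + 1), -a' * (-1) ^ (n + 1), by
    have : ((-1 : ℤ) ^ (n + 1)) * (-1) ^ (n + 1) = 1 := by rw [← mul_pow]; simp
    linear_combination (-1) ^ (n + 1) * det3 + this⟩
  have b0 : 0 < b := by
    have := succ_nth_fib_le_of_nth_den (v := ξ) (n := n) (Or.inr (nt _))
    have h5 : (0 : ℝ) < Nat.fib (n + 1) := by exact_mod_cast Nat.fib_pos.2 (by omega)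
    rw [e2] at this
    exact_mod_cast h5.trans_le this
  rw [conv_eq_num_div_den, e1, e2] at hn
  obtain ⟨r1, r2⟩ := Rat.div_int_inj (a := a) (b := b) (c := A) (d := D) b0 (by exact_mod_cast hD)
    (Int.isCoprime_iff_nat_coprime.1 cop) (by simpa using hc) (by exact_mod_cast hn)
  exact ⟨n, by rw [e1, r1]; simp, by rw [e2, r2]; simp⟩

end Pool.Agent.H52.SUnit
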