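import Mathlib
import Pool.Agent.H52.SUnit

set_option autoImplicit false
open Finset Pool.Agent.H52.SUnit

namespace Pool.Agent.H52.EM

lemma gap (Y A D m0 n0 m1 n1 q q' : ℕ) (p p' : ℤ) (y : ℝ) (hY : 2 ≤ Y) (hc : Nat.Coprime A D)
    (D1 : Y ^ 64 ≤ D) (D2 : D ≤ Y ^ 128) (hV : (A : ℝ) / D ≤ 2)
    (a0 : 0 < n0) (a1 : 0 < n1) (b0 : m0 ≤ Y ^ 9) (b1 : n0 ≤ Y ^ 9) (b2 : m1 ≤ Y ^ 9)
    (w0 : 1 ≤ (m0 : ℝ) / n0) (w1 : 1 ≤ (m1 : ℝ) / n1) (q0 : 0 < q) (q1 : q ≤ Y ^ 16)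
    (q0' : 0 < q') (q1' : q' ≤ Y ^ 16) (hy : 1 ≤ y) (hy2 : y * (m0 / n0) ≤ 4)
    (h : |y * (m0 / n0) - p / q| < 1 / (Y : ℝ) ^ 200)
    (h' : |y * (A / D) * (m1 / n1) - p' / q'| < 1 / (Y : ℝ) ^ 200) : False := by
  have Y2 : (2 : ℝ) ≤ Y := by exact_mod_cast hY
  have D0 : 0 < D := lt_of_lt_of_le (by positivity) D1
  have c0 : 0 < m0 := by
    rcases Nat.eq_zero_or_pos m0 with h | h
    · rw [h] at w0; norm_num at w0
    · exact h
  have c1 : 0 < m1 := by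
    rcases Nat.eq_zero_or_pos m1 with h | h
    · rw [h] at w1; norm_num at w1
    · exact h
  set τ : ℝ := 1 / (Y : ℝ) ^ 200 with hτ
  have τ1 : τ ≤ 1 := by
    rw [hτ, div_le_one (by positivity)]; exact one_le_pow₀ (by linarith)
  have e0 : |(p : ℝ) / q / (m0 / n0) - y| ≤ τ := by
    rw [show (p : ℝ) / q / (m0 / n0) - y = (p / q - y * (m0 / n0)) / (m0 / n0) by field_simp,
      abs_div, abs_sub_comm, abs_of_pos (show (0 : ℝ) < m0 / n0 by linarith)]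
    exact (div_le_self (abs_nonneg _) w0).trans h.le
  have e1 : |y * (A / D) - (p' : ℝ) / q' / (m1 / n1)| ≤ τ := by
    rw [show y * (A / D) - (p' : ℝ) / q' / (m1 / n1) =
      (y * (A / D) * (m1 / n1) - p' / q') / (m1 / n1) by field_simp,
      abs_div, abs_of_pos (show (0 : ℝ) < m1 / n1 by linarith)]
    exact (div_le_self (abs_nonneg _) w1).trans h'.le
  have e2 : |(p : ℝ) / q / (m0 / n0) * (A / D) - (p' : ℝ) / q' / (m1 / n1)| ≤ 3 * τ := by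
    have : (p : ℝ) / q / (m0 / n0) * (A / D) - (p' : ℝ) / q' / (m1 / n1) =
      ((p : ℝ) / q / (m0 / n0) - y) * (A / D) + (y * (A / D) - (p' : ℝ) / q' / (m1 / n1)) := by ring
    rw [this]
    refine (abs_add_le _ _).trans ?_
    rw [abs_mul, abs_of_nonneg (show (0 : ℝ) ≤ A / D by positivity)]
    have : |(p : ℝ) / q / (m0 / n0) - y| * (A / D) ≤ τ * 2 := by gcongr
    linarith
  have e3 : ((p * n0 * q' * m1 * A - p' * n1 * q * m0 * D : ℤ) : ℝ) =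
      ((p : ℝ) / q / (m0 / n0) * (A / D) - (p' : ℝ) / q' / (m1 / n1)) * (q * m0 * q' * m1 * D : ℕ) := by
    push_cast; field_simp
  have e4 : q * m0 * q' * m1 * D ≤ Y ^ 178 := by
    calc q * m0 * q' * m1 * D ≤ Y ^ 16 * Y ^ 9 * Y ^ 16 * Y ^ 9 * Y ^ 128 := by gcongr
      _ = Y ^ 178 := by ring
  have e5 : |((p * n0 * q' * m1 * A - p' * n1 * q * m0 * D : ℤ) : ℝ)| < 1 := by
    rw [e3, abs_mul, Nat.abs_cast]
    have h1 : ((q * m0 * q' * m1 * D : ℕ) : ℝ) ≤ (Y : ℝ) ^ 178 := by exact_mod_cast e4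
    have h2 : (2 : ℝ) ^ 22 ≤ (Y : ℝ) ^ 22 := by gcongr
    calc _ ≤ 3 * τ * (Y : ℝ) ^ 178 := by gcongr
      _ = 3 / (Y : ℝ) ^ 22 := by rw [hτ]; field_simp
      _ < 1 := by rw [div_lt_one (by positivity)]; linarith [show (3 : ℝ) < 2 ^ 22 by norm_num]
  have e6 : p * n0 * q' * m1 * A - p' * n1 * q * m0 * D = 0 := by
    rw [← Int.cast_abs] at e5
    exact Int.abs_lt_one_iff.1 (by exact_mod_cast e5)
  have q0r : (0 : ℝ) < q := by exact_mod_cast q0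
  have hp := abs_lt.1 h
  have p0 : (0 : ℝ) < p := by
    have : 0 < (p : ℝ) / q := by nlinarith [hp.2]
    exact (div_pos_iff_of_pos_right q0r).1 this
  have p1 : (p : ℝ) ≤ 5 * q := by
    have : (p : ℝ) / q ≤ 5 := by linarith [hp.1]
    rwa [div_le_iff₀ q0r] at this
  obtain ⟨k, rfl⟩ := Int.eq_ofNat_of_zero_le (show 0 ≤ p by exact_mod_cast p0.le)
  have k0 : 0 < k := by exact_mod_cast p0
  have k1 : k ≤ 5 * q := by exact_mod_cast p1
  have d1 : D ∣ k * n0 * q' * m1 * A := by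
    have : (D : ℤ) ∣ k * n0 * q' * m1 * A := ⟨p' * n1 * q * m0, by linarith⟩
    exact_mod_cast this
  have d2 := Nat.le_of_dvd (by positivity) (hc.symm.dvd_of_dvd_mul_right d1)
  have d3 : k * n0 * q' * m1 ≤ 5 * Y ^ 16 * Y ^ 9 * Y ^ 16 * Y ^ 9 := by gcongr; omega
  have d4 : 2 ^ 14 * Y ^ 50 ≤ Y ^ 14 * Y ^ 50 := by gcongr
  have d5 : 0 < Y ^ 50 := by positivity
  nlinarith

lemma cover {ι : Type*} (s : Finset ι) (c r : ι → ℝ) (hr : ∀ i, 0 ≤ r i) (u l : ℝ)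
    (h : ∑ i ∈ s, 2 * r i < l) : ∃ x, u ≤ x ∧ x ≤ u + l ∧ ∀ i ∈ s, r i < |x - c i| := by
  by_contra hc
  push Not at hc
  have h1 : Set.Icc u (u + l) ⊆ ⋃ i ∈ s, Metric.closedBall (c i) (r i) := by
    intro x hx
    obtain ⟨i, hi, h2⟩ := hc x hx.1 hx.2
    exact Set.mem_biUnion hi h2
  have h2 := (MeasureTheory.measure_mono (μ := MeasureTheory.volume) h1).trans
    (MeasureTheory.measure_biUnion_finset_le s _)
  simp only [Real.volume_Icc, Real.volume_closedBall, add_sub_cancel_left] at h2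
  rw [← ENNReal.ofReal_sum_of_nonneg (fun i _ => by linarith [hr i]),
    ENNReal.ofReal_le_ofReal_iff (sum_nonneg fun i _ => by linarith [hr i])] at h2
  linarith

def P (A D : ℕ → ℕ) : ℕ → Finset (ℕ × ℕ)
  | 0 => {(1, 1)}
  | n + 1 => P A D n ∪ (P A D n).image fun w => (A n * w.1, D n * w.2)

def Y (B i : ℕ) : ℕ := 2 ^ (B * 16 ^ i)

lemma Y_succ (B i : ℕ) : Y B (i + 1) = Y B i ^ 16 := by
  rw [Y, Y, ← pow_mul, pow_succ, mul_assoc]

lemma Y_two {B : ℕ} (hB : 6 ≤ B) (i : ℕ) : 2 ≤ Y B i :=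
  Nat.le_self_pow (by positivity) 2

def Good (A D : ℕ → ℕ) (B : ℕ) : Prop := ∀ i, Sm (A i) ∧ Sm (D i) ∧ Nat.Coprime (A i) (D i) ∧
  1 ≤ (A i : ℝ) / D i ∧ (A i : ℝ) / D i ≤ 1 + 2 / (B * 16 ^ i) ∧ Y B i ^ 64 ≤ D i ∧
    D i ≤ Y B i ^ 128

lemma exists_good (B : ℕ) (hB : 1 ≤ B) : ∃ A D, Good A D B := by
  choose A D h using fun i => bigunit (B * 16 ^ i) (Nat.mul_pos hB (by positivity))
  refine ⟨A, D, fun i => ?_⟩
  have := h i
  simp only [Y, ← pow_mul, mul_comm (B * 16 ^ i)]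
  push_cast at this
  exact this

variable {A D : ℕ → ℕ} {B : ℕ}

lemma P_card (n : ℕ) : (P A D n).card ≤ 2 ^ n := by
  induction n with
  | zero => simp [P]
  | succ n ih =>
    refine (card_union_le _ _).trans ?_
    have := card_image_le (s := P A D n) (f := fun w => (A n * w.1, D n * w.2))
    omega

lemma eta_le (hB : 6 ≤ B) (i : ℕ) : 0 < (2 : ℝ) / (B * 16 ^ i) ∧ (2 : ℝ) / (B * 16 ^ i) ≤ 1 / 3 := by
  have : (6 : ℝ) ≤ B := by exact_mod_cast hB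
  have h : (1 : ℝ) ≤ 16 ^ i := one_le_pow₀ (by norm_num)
  refine ⟨by positivity, ?_⟩
  rw [div_le_div_iff₀ (by positivity) (by norm_num)]
  nlinarith

lemma val_mul (a d : ℕ) (w : ℕ × ℕ) :
    ((a * w.1 : ℕ) : ℝ) / (d * w.2 : ℕ) = (a : ℝ) / d * (w.1 / w.2) := by
  push_cast; rw [mul_div_mul_comm]

lemma P_rep (hB : 6 ≤ B) (hG : Good A D B) (n : ℕ) : ∀ w ∈ P A D n,
    Sm w.1 ∧ Sm w.2 ∧ w.1 ≤ Y B n ^ 9 ∧ w.2 ≤ Y B n ^ 9 ∧ 1 ≤ (w.1 : ℝ) / w.2 := by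
  induction n with
  | zero =>
    intro w hw
    obtain rfl : w = (1, 1) := by simpa [P] using hw
    have : 1 ≤ Y B 0 ^ 9 := Nat.one_le_pow _ _ (by have := Y_two hB 0; omega)
    exact ⟨sm_le one_pos (by norm_num), sm_le one_pos (by norm_num), this, this, by simp⟩
  | succ n ih =>
    intro w hw
    have y2 := Y_two hB n
    rw [Y_succ, ← pow_mul]
    rcases mem_union.1 hw with h | h
    · obtain ⟨h1, h2, h3, h4, h5⟩ := ih w h
      have : Y B n ^ 9 ≤ Y B n ^ (16 * 9) := Nat.pow_le_pow_right (by omega) (by norm_num)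
      exact ⟨h1, h2, h3.trans this, h4.trans this, h5⟩
    · obtain ⟨z, hz, rfl⟩ := mem_image.1 h
      obtain ⟨h1, h2, h3, h4, h5⟩ := ih z hz
      obtain ⟨g1, g2, -, g4, g5, -, g7⟩ := hG n
      have a2 : A n ≤ 2 * D n := by
        have : (A n : ℝ) / D n ≤ 2 := by linarith [(eta_le hB n).2]
        rw [div_le_iff₀ (by exact_mod_cast g2.1)] at this
        exact_mod_cast this
      have key : 2 * Y B n ^ 128 * Y B n ^ 9 ≤ Y B n ^ (16 * 9) := by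
        calc 2 * Y B n ^ 128 * Y B n ^ 9 ≤ Y B n ^ 7 * Y B n ^ 128 * Y B n ^ 9 := by
              gcongr; exact y2.trans (Nat.le_self_pow (by norm_num) _)
          _ = _ := by ring
      refine ⟨g1.mul h1, g2.mul h2, le_trans ?_ key, le_trans ?_ key, ?_⟩
      · exact Nat.mul_le_mul (by omega) h3
      · exact Nat.mul_le_mul (by omega) h4
      · rw [val_mul]; nlinarith

lemma P_split0 (hB : 6 ≤ B) (hG : Good A D B) (j k : ℕ) : ∀ w ∈ P A D (j + k), ∃ z ∈ P A D j,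
    (z.1 : ℝ) / z.2 ≤ w.1 / w.2 ∧ (w.1 : ℝ) / w.2 ≤
      z.1 / z.2 * (1 + 3 * (2 / (B * 16 ^ j)) - 3 * (2 / (B * 16 ^ (j + k)))) := by
  induction k with
  | zero => intro w hw; exact ⟨w, hw, le_rfl, by simp⟩
  | succ k ih =>
    intro w hw
    have e : (2 : ℝ) / (B * 16 ^ (j + (k + 1))) = 2 / (B * 16 ^ (j + k)) / 16 := by
      rw [← add_assoc, pow_succ]; field_simp
    have h1 := eta_le hB j
    have h2 := eta_le hB (j + k)
    rw [e]
    change w ∈ P A D (j + k) ∪ (P A D (j + k)).image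
      (fun w => (A (j + k) * w.1, D (j + k) * w.2)) at hw
    rcases mem_union.1 hw with h | h
    · obtain ⟨z, hz, h3, h4⟩ := ih w h
      exact ⟨z, hz, h3, h4.trans (mul_le_mul_of_nonneg_left (by linarith) (by positivity))⟩
    · obtain ⟨v, hv, rfl⟩ := mem_image.1 h
      obtain ⟨z, hz, h3, h4⟩ := ih v hv
      obtain ⟨-, -, -, g4, g5, -⟩ := hG (j + k)
      have z0 : (0 : ℝ) ≤ z.1 / z.2 := by positivity
      have v0 : (0 : ℝ) ≤ v.1 / v.2 := by positivity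
      refine ⟨z, hz, ?_, ?_⟩ <;> rw [val_mul]
      · nlinarith
      · generalize (2 : ℝ) / (B * 16 ^ (j + k)) = η at *
        generalize (2 : ℝ) / (B * 16 ^ j) = θ at *
        calc _ ≤ (1 + η) * (z.1 / z.2 * (1 + 3 * θ - 3 * η)) :=
              mul_le_mul g5 h4 v0 (by linarith)
          _ = z.1 / z.2 * ((1 + η) * (1 + 3 * θ - 3 * η)) := by ring
          _ ≤ _ := mul_le_mul_of_nonneg_left (by nlinarith) z0

lemma P_mono {m n : ℕ} (h : m ≤ n) : P A D m ⊆ P A D n := by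
  induction h with
  | refl => exact Subset.refl _
  | step _ ih => exact ih.trans subset_union_left

lemma P_split (hB : 6 ≤ B) (hG : Good A D B) (j n : ℕ) : ∀ w ∈ P A D n, ∃ z ∈ P A D j,
    (z.1 : ℝ) / z.2 ≤ w.1 / w.2 ∧ (w.1 : ℝ) / w.2 ≤ z.1 / z.2 * (1 + 3 * (2 / (B * 16 ^ j))) := by
  intro w hw
  obtain ⟨z, hz, h1, h2⟩ := P_split0 hB hG j n w (P_mono (by omega) hw)
  refine ⟨z, hz, h1, h2.trans ?_⟩
  gcongr
  linarith [(eta_le hB (j + n)).1]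

lemma P_le (hB : 6 ≤ B) (hG : Good A D B) (n : ℕ) : ∀ w ∈ P A D n,
    (w.1 : ℝ) / w.2 ≤ 1 + 6 / B := by
  intro w hw
  obtain ⟨z, hz, -, h2⟩ := P_split hB hG 0 n w hw
  obtain rfl : z = (1, 1) := by simpa [P] using hz
  refine h2.trans (le_of_eq ?_)
  simp; ring

lemma topdown (hB : 6 ≤ B) (hG : Good A D B) (n : ℕ) : ∀ y : ℝ, 1 ≤ y →
    (∀ w ∈ P A D n, y * (w.1 / w.2) ≤ 4) → ∃ w ∈ P A D n, ∀ q : ℕ, Y B 0 ≤ q → q < Y B n →
      ∀ p : ℤ, 1 / (q : ℝ) ^ 200 ≤ |y * (w.1 / w.2) - p / q| := by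
  induction n with
  | zero => intro y _ _; exact ⟨(1, 1), by simp [P], fun q h1 h2 => by omega⟩
  | succ n ih =>
    intro y hy hb
    by_cases hc : ∀ w ∈ P A D n, ∀ q : ℕ, Y B n ≤ q → q < Y B (n + 1) →
      ∀ p : ℤ, 1 / (q : ℝ) ^ 200 ≤ |y * (w.1 / w.2) - p / q|
    · obtain ⟨w, hw, h⟩ := ih y hy fun w hw => hb w (mem_union_left _ hw)
      refine ⟨w, mem_union_left _ hw, fun q h1 h2 => ?_⟩
      rcases Nat.lt_or_ge q (Y B n) with h3 | h3
      · exact h q h1 h3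
      · exact hc w hw q h3 h2
    · push Not at hc
      obtain ⟨w0, hw0, q0, a1, a2, p0, a3⟩ := hc
      obtain ⟨g1, g2, g3, g4, g5, g6, g7⟩ := hG n
      have hm : ∀ w ∈ P A D n, (A n * w.1, D n * w.2) ∈ P A D (n + 1) := fun w hw =>
        mem_union_right _ (mem_image_of_mem _ hw)
      obtain ⟨w, hw, h⟩ := ih (y * (A n / D n)) (by nlinarith) fun w hw => by
        have := hb _ (hm w hw)
        rwa [val_mul, ← mul_assoc] at this
      refine ⟨_, hm w hw, fun q h1 h2 p => ?_⟩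
      rw [val_mul, ← mul_assoc]
      rcases Nat.lt_or_ge q (Y B n) with h3 | h3
      · exact h q h1 h3 p
      · by_contra h4
        have y2 := Y_two hB n
        have mono : ∀ q : ℕ, Y B n ≤ q → 1 / (q : ℝ) ^ 200 ≤ 1 / (Y B n : ℝ) ^ 200 := by
          intro q hq
          have : (0 : ℝ) < Y B n := by exact_mod_cast (by omega)
          gcongr
        obtain ⟨r1, r2, r3, r4, r5⟩ := P_rep hB hG n w0 hw0
        obtain ⟨s1, s2, s3, s4, s5⟩ := P_rep hB hG n w hw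
        rw [Y_succ] at a2 h2
        exact gap (Y B n) (A n) (D n) w0.1 w0.2 w.1 w.2 q0 q p0 p y y2 g3 g6 g7
          (by linarith [(eta_le hB n).2]) r2.1 s2.1 r3 r4 s3 r5 s5 (by omega) a2.le (by omega) h2.le
          hy (hb w0 (mem_union_left _ hw0)) (a3.trans_le (mono q0 a1))
          ((not_le.1 h4).trans_le (mono q h3))

end Pool.Agent.H52.EM
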