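import Mathlib
import Pool.Agent.H52.EMGap

set_option autoImplicit false
open Finset Pool.Agent.H52.SUnit

namespace Pool.Agent.H52.EM

def lev (q : ℕ) : ℕ := 50 * (Nat.log 2 q + 1)

lemma lev_lo (q : ℕ) : q ^ 200 ≤ 16 ^ lev q := by
  have h := (Nat.lt_pow_succ_log_self (b := 2) (by norm_num) q).le
  calc q ^ 200 ≤ (2 ^ (Nat.log 2 q + 1)) ^ 200 := Nat.pow_le_pow_left h _
    _ = (2 ^ 4) ^ lev q := by rw [← pow_mul, ← pow_mul, lev]; congr 1; ring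

lemma lev_hi (q : ℕ) (hq : 2 ≤ q) : 2 ^ lev q ≤ q ^ 100 := by
  have h := Nat.pow_log_le_self 2 (x := q) (by omega)
  calc 2 ^ lev q = (2 ^ Nat.log 2 q * 2) ^ 50 := by rw [← pow_succ, ← pow_mul, lev, mul_comm]
    _ ≤ (q * q) ^ 50 := by gcongr
    _ = q ^ 100 := by ring

lemma position (A D : ℕ → ℕ) (Q Z : ℕ) (hQ : 2 ≤ Q) (u : ℝ) :
    ∃ x, u ≤ x ∧ x ≤ u + 1 / (Q : ℝ) ^ 3 / 4 ∧ ∀ q, Q ≤ q → q < Z → ∀ p ≤ 5 * q,
      ∀ z ∈ P A D (lev q), 30 / (q : ℝ) ^ 200 < |x - (p : ℝ) / q / (z.1 / z.2)| := by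
  have Q2 : (2 : ℝ) ≤ Q := by exact_mod_cast hQ
  obtain ⟨x, h1, h2, h3⟩ := cover
    ((Ico Q Z).sigma fun q => range (5 * q + 1) ×ˢ P A D (lev q))
    (fun i => (i.2.1 : ℝ) / i.1 / (i.2.2.1 / i.2.2.2)) (fun i => 30 / (i.1 : ℝ) ^ 200)
    (fun i => by positivity) u (1 / (Q : ℝ) ^ 3 / 4) (by
      rw [sum_sigma]
      have b : ∀ q ∈ Ico Q Z, ∑ _i ∈ range (5 * q + 1) ×ˢ P A D (lev q), 2 * (30 / (q : ℝ) ^ 200) ≤
          1 / (Q : ℝ) ^ 80 * ((q : ℝ) ^ 2)⁻¹ := by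
        intro q hq
        have hq2 := (mem_Ico.1 hq).1
        have q2 : (Q : ℝ) ≤ q := by exact_mod_cast hq2
        have c : (range (5 * q + 1) ×ˢ P A D (lev q)).card ≤ 6 * q * q ^ 100 := by
          rw [card_product, card_range]
          exact Nat.mul_le_mul (by omega) ((P_card _).trans (lev_hi q (by omega)))
        have c' : ((range (5 * q + 1) ×ˢ P A D (lev q)).card : ℝ) ≤ 6 * q * q ^ 100 := by
          exact_mod_cast c
        have q0 : (0 : ℝ) < q := by linarith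
        have h17 : (2 : ℝ) ^ 17 ≤ (q : ℝ) ^ 17 := by gcongr; linarith
        rw [sum_const, nsmul_eq_mul]
        calc _ ≤ 6 * q * q ^ 100 * (2 * (30 / (q : ℝ) ^ 200)) := by gcongr
          _ = 360 / (q : ℝ) ^ 17 * (1 / (q : ℝ) ^ 80 * ((q : ℝ) ^ 2)⁻¹) := by field_simp; norm_num
          _ ≤ 1 * (1 / (Q : ℝ) ^ 80 * ((q : ℝ) ^ 2)⁻¹) := by
            gcongr
            rw [div_le_one (by positivity)]; linarith [show (360 : ℝ) ≤ 2 ^ 17 by norm_num]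
          _ = _ := one_mul _
      refine (sum_le_sum b).trans_lt ?_
      rw [← mul_sum]
      have s1 : ∑ q ∈ Ico Q Z, ((q : ℝ) ^ 2)⁻¹ ≤ 2 := by
        have := sum_Ioo_inv_sq_le (α := ℝ) 0 Z
        refine le_trans (sum_le_sum_of_subset_of_nonneg (fun q hq => ?_) fun _ _ _ => by positivity)
          (this.trans (by norm_num))
        rw [mem_Ico] at hq; rw [mem_Ioo]; omega
      have h77 : (2 : ℝ) ^ 77 ≤ (Q : ℝ) ^ 77 := by gcongr
      calc _ ≤ 1 / (Q : ℝ) ^ 80 * 2 := by gcongr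
        _ = 8 / (Q : ℝ) ^ 77 * (1 / (Q : ℝ) ^ 3 / 4) := by field_simp; norm_num
        _ < 1 * (1 / (Q : ℝ) ^ 3 / 4) := by
          gcongr
          rw [div_lt_one (by positivity)]; linarith [show (8 : ℝ) < 2 ^ 77 by norm_num]
        _ = _ := one_mul _)
  exact ⟨x, h1, h2, fun q a b p hp z hz => h3 ⟨q, p, z⟩ (by
    simp only [mem_sigma, mem_Ico, mem_product, mem_range]; exact ⟨⟨a, b⟩, by omega, hz⟩)⟩

lemma Y_big {B : ℕ} (hB : 6 ≤ B) (n : ℕ) : n < Y B n :=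
  calc n < 16 ^ n := Nat.lt_pow_self (by norm_num)
    _ ≤ B * 16 ^ n := Nat.le_mul_of_pos_left _ (by omega)
    _ ≤ _ := Nat.lt_two_pow_self.le

lemma step0 (Q : ℕ) (hQ : 2 ≤ Q) (a : ℝ) (ha : 1 ≤ a) (ha2 : a + 1 / (Q : ℝ) ^ 3 ≤ 2) :
    ∃ m n Z : ℕ, Sm m ∧ Sm n ∧ n ≤ Z ^ 10 ∧ 2 * Q * Q < Z ∧ a ≤ (m : ℝ) / n ∧
      (m : ℝ) / n ≤ a + 3 * (1 / (Q : ℝ) ^ 3) / 4 ∧
      ∀ q : ℕ, Q ≤ q → q < Z → ∀ p : ℤ, 1 / (q : ℝ) ^ 200 ≤ |(m : ℝ) / n - p / q| := by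
  have Q2 : (2 : ℝ) ≤ Q := by exact_mod_cast hQ
  have hB : 6 ≤ 100 * Q ^ 3 := by have : 0 < Q ^ 3 := by positivity
                                  omega
  obtain ⟨A, D, hG⟩ := exists_good (100 * Q ^ 3) (by omega)
  have eB : (6 : ℝ) / (100 * Q ^ 3 : ℕ) = 6 / 100 * (1 / (Q : ℝ) ^ 3) := by push_cast; field_simp
  generalize 100 * Q ^ 3 = B at *
  obtain ⟨x, x1, x2, x3⟩ := position A D Q (Y B 0) hQ (a + 1 / (Q : ℝ) ^ 3 / 4)
  have e0 : 0 < 1 / (Q : ℝ) ^ 3 := by positivity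
  generalize 1 / (Q : ℝ) ^ 3 = ε at *
  have y0 : (0 : ℝ) < Y B 0 := by have := Y_two hB 0; exact_mod_cast (by omega)
  obtain ⟨m, n, sm, sn, y1, y2, y3⟩ := dense x (min (ε / 4) (1 / (Y B 0 : ℝ) ^ 200)) (by linarith)
    (by linarith) (by positivity)
  have y4 := min_le_left (ε / 4) (1 / (Y B 0 : ℝ) ^ 200)
  have y5 := min_le_right (ε / 4) (1 / (Y B 0 : ℝ) ^ 200)
  have wle : ∀ k, ∀ w ∈ P A D k, (w.1 : ℝ) / w.2 ≤ 1 + 6 / 100 * ε := fun k w hw =>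
    eB ▸ P_le hB hG k w hw
  obtain ⟨w, hw, h⟩ := topdown hB hG (n + 2 * Q * Q) (m / n) y1 fun w hw => by
    have := wle _ w hw
    have : (0 : ℝ) ≤ w.1 / w.2 := by positivity
    nlinarith
  obtain ⟨r1, r2, -, r4, r5⟩ := P_rep hB hG _ w hw
  have hZ := Y_big hB (n + 2 * Q * Q)
  have w2 := wle _ w hw
  refine ⟨m * w.1, n * w.2, Y B (n + 2 * Q * Q), sm.mul r1, sn.mul r2, ?_, by omega, ?_, ?_, ?_⟩
  · rw [pow_succ']; exact Nat.mul_le_mul (by omega) r4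
  · rw [val_mul]; nlinarith
  · rw [val_mul]; nlinarith
  · intro q q1 q2 p
    rw [val_mul]
    rcases Nat.lt_or_ge q (Y B 0) with h3 | h3
    swap
    · exact h q h3 q2 p
    by_contra h4
    have q0 : (2 : ℝ) ≤ q := Q2.trans (by exact_mod_cast q1)
    obtain ⟨z, hz, z1, z2⟩ := P_split hB hG (lev q) _ w hw
    obtain ⟨-, -, -, -, z3⟩ := P_rep hB hG _ z hz
    have t1 : 1 / (Y B 0 : ℝ) ^ 200 ≤ 1 / (q : ℝ) ^ 200 := by
      have : (q : ℝ) ≤ Y B 0 := by exact_mod_cast h3.le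
      gcongr
    have t2 : (2 : ℝ) / (B * 16 ^ lev q) ≤ 1 / (q : ℝ) ^ 200 := by
      have h5 : (q : ℝ) ^ 200 ≤ 16 ^ lev q := by exact_mod_cast lev_lo q
      have h6 : (6 : ℝ) ≤ B := by exact_mod_cast hB
      rw [div_le_div_iff₀ (by positivity) (by positivity)]
      have : (0 : ℝ) < (q : ℝ) ^ 200 := by positivity
      nlinarith
    have t3 : 1 / (q : ℝ) ^ 200 ≤ 1 := by
      rw [div_le_one (by positivity)]; exact one_le_pow₀ (by linarith)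
    have hp := abs_lt.1 (not_le.1 h4)
    have p0 : (0 : ℝ) < p := by
      have : 0 < (p : ℝ) / q := by nlinarith [hp.2]
      exact (div_pos_iff_of_pos_right (by linarith)).1 this
    have p1 : (p : ℝ) ≤ 5 * q := by
      have : (p : ℝ) / q ≤ 5 := by nlinarith [hp.1]
      rwa [div_le_iff₀ (by linarith)] at this
    obtain ⟨k, rfl⟩ := Int.eq_ofNat_of_zero_le (show 0 ≤ p by exact_mod_cast p0.le)
    have h7 := x3 q q1 h3 k (by exact_mod_cast p1) z hz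
    rw [show (30 : ℝ) / q ^ 200 = 30 * (1 / q ^ 200) by ring] at h7
    rw [Int.cast_natCast] at hp
    have z4 := wle _ z hz
    have η0 := (eta_le hB (lev q)).1
    generalize (2 : ℝ) / (B * 16 ^ lev q) = η at *
    generalize 1 / (q : ℝ) ^ 200 = τ at *
    generalize (k : ℝ) / q = c at *
    generalize (z.1 : ℝ) / z.2 = v at *
    generalize (w.1 : ℝ) / w.2 = u at *
    generalize (m : ℝ) / n = y at *
    rw [show x - c / v = (x * v - c) / v by field_simp, abs_div, abs_of_pos (show 0 < v by linarith)]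
      at h7
    have h8 := h7.trans_le (div_le_self (abs_nonneg _) z3)
    have i1 : 0 ≤ (x - y) * v := by nlinarith
    have i2 : (x - y) * v ≤ τ * 2 := mul_le_mul (by linarith) (by linarith) (by linarith) (by linarith)
    have i3 : 0 ≤ y * (u - v) := by nlinarith
    have i4 : y * (u - v) ≤ 2 * (6 * τ) :=
      mul_le_mul (by linarith) (by nlinarith) (by linarith) (by linarith)
    have : |x * v - c| ≤ 30 * τ := by
      rw [abs_le]; constructor <;> nlinarith [hp.1, hp.2]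
    linarith

lemma step (Q : ℕ) (hQ : 2 ≤ Q) (a : ℝ) (ha : 1 ≤ a) (ha2 : a + 1 / (Q : ℝ) ^ 3 ≤ 2) :
    ∃ A D : ℕ, Sm A ∧ Sm D ∧ Nat.Coprime A D ∧ 2 * Q < D ∧ a ≤ (A : ℝ) / D ∧
      (A : ℝ) / D + 1 / (D : ℝ) ^ 3 + 1 / (D : ℝ) ^ 3 ≤ a + 1 / (Q : ℝ) ^ 3 ∧
      ∀ x : ℝ, |x - A / D| ≤ 2 / (D : ℝ) ^ 3 → ∀ q : ℕ, Q ≤ q → q < D → ∀ p : ℤ,
        1 / (q : ℝ) ^ 300 ≤ |x - p / q| := by
  obtain ⟨m, n, Z, sm, sn, h1, h2, h3, h4, h5⟩ := step0 Q hQ a ha ha2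
  obtain ⟨A, D, sA, sD, hc, he, hle⟩ := reduce sm sn
  rw [← he] at h3 h4 h5
  have Q2 : (2 : ℝ) ≤ Q := by exact_mod_cast hQ
  have D0 : (0 : ℝ) < D := by exact_mod_cast sD.1
  have hD : 2 * Q < D := by
    by_contra h
    have := h5 (D * Q) (Nat.le_mul_of_pos_left _ sD.1)
      (lt_of_le_of_lt (Nat.mul_le_mul_right _ (by omega)) h2) (A * Q)
    push_cast at this
    rw [mul_div_mul_right _ _ (by positivity), sub_self, abs_zero] at this
    exact absurd this (not_le.2 (by positivity))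
  have hD' : 2 * (Q : ℝ) ≤ D := by exact_mod_cast hD.le
  refine ⟨A, D, sA, sD, hc, hD, h3, ?_, fun x hx q q1 q2 p => ?_⟩
  · have : 1 / (D : ℝ) ^ 3 ≤ 1 / (2 * (Q : ℝ)) ^ 3 := by gcongr
    rw [show 1 / (2 * (Q : ℝ)) ^ 3 = 1 / (Q : ℝ) ^ 3 / 8 by field_simp; norm_num] at this
    linarith
  have q0 : (2 : ℝ) ≤ q := Q2.trans (by exact_mod_cast q1)
  have tri : |(A : ℝ) / D - p / q| ≤ 2 / (D : ℝ) ^ 3 + |x - p / q| := by
    have := abs_sub_le ((A : ℝ) / D) x (p / q)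
    rw [abs_sub_comm _ x] at this; linarith
  rcases Nat.lt_or_ge (q ^ 100) D with h | h
  · have h6 : q < Z := by
      have : q ^ 10 ≤ q ^ 100 := Nat.pow_le_pow_right (by omega) (by norm_num)
      exact lt_of_pow_lt_pow_left₀ 10 (Nat.zero_le _) (by omega)
    have h7 := h5 q q1 h6 p
    have h8 : (q : ℝ) ^ 100 ≤ D := by exact_mod_cast h.le
    have h9 : 2 / (D : ℝ) ^ 3 ≤ 2 / ((q : ℝ) ^ 100) ^ 3 := by gcongr
    have h10 : (2 : ℝ) ^ 100 ≤ (q : ℝ) ^ 100 := by gcongr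
    have h11 : 3 * (1 / (q : ℝ) ^ 300) ≤ 1 / (q : ℝ) ^ 200 := by
      rw [mul_one_div, div_le_div_iff₀ (by positivity) (by positivity), one_mul,
        show (q : ℝ) ^ 300 = q ^ 100 * q ^ 200 by ring]
      gcongr
      linarith [show (3 : ℝ) ≤ 2 ^ 100 by norm_num]
    rw [show 2 / ((q : ℝ) ^ 100) ^ 3 = 2 * (1 / (q : ℝ) ^ 300) by ring] at h9
    linarith
  · have hne : (A : ℤ) * q - p * D ≠ 0 := by
      intro h0
      have d1 : D ∣ A * q := by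
        have : (D : ℤ) ∣ A * q := ⟨p, by linarith⟩
        exact_mod_cast this
      have := Nat.le_of_dvd (by omega) (hc.symm.dvd_of_dvd_mul_left d1)
      omega
    have h6 : (1 : ℝ) ≤ |(A : ℝ) * q - p * D| := by exact_mod_cast Int.one_le_abs hne
    have h7 : (q : ℝ) ≤ D := by exact_mod_cast q2.le
    have h8 : 1 / (D : ℝ) ^ 2 ≤ |(A : ℝ) / D - p / q| := by
      rw [show (A : ℝ) / D - p / q = (A * q - p * D) / (D * q) by field_simp, abs_div,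
        abs_of_pos (show (0 : ℝ) < D * q by positivity), sq]
      gcongr
    have h9 : (D : ℝ) ≤ (q : ℝ) ^ 100 := by exact_mod_cast h
    have h10 : 1 / ((q : ℝ) ^ 100) ^ 3 ≤ 1 / (D : ℝ) ^ 3 := by gcongr
    have h11 : 3 * (1 / (D : ℝ) ^ 3) ≤ 1 / (D : ℝ) ^ 2 := by
      rw [mul_one_div, div_le_div_iff₀ (by positivity) (by positivity)]
      nlinarith [sq_nonneg (D : ℝ)]
    rw [← pow_mul] at h10
    rw [show 2 / (D : ℝ) ^ 3 = 2 * (1 / (D : ℝ) ^ 3) by ring] at tri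
    linarith

end Pool.Agent.H52.EM
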