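import Mathlib

set_option autoImplicit false
open Finset Polynomial Matrix

namespace Pool.Agent.H52.Evil

variable {m : ℕ}

noncomputable def ee (v : Fin m → ℂ) (r : Fin m) : ℂ := ∏ j ∈ univ.erase r, (v r - v j)

noncomputable def aa (v : Fin m → ℂ) (t : ℂ) : ℂ := ∏ j, (t - v j)

lemma ee_ne {v : Fin m → ℂ} (hv : Function.Injective v) (r : Fin m) : ee v r ≠ 0 :=
  prod_ne_zero_iff.2 fun _ hj => sub_ne_zero.2 fun h => (mem_erase.1 hj).1 (hv h).symm

lemma interp {v : Fin m → ℂ} (hv : Function.Injective v) (f : ℂ[X]) (hf : f.degree < m) (t : ℂ)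
    (ht : ∀ j, t ≠ v j) : f.eval t = aa v t * ∑ s, f.eval (v s) / ((t - v s) * ee v s) := by
  have h := Lagrange.eq_interpolate (s := univ) hv.injOn (f := f) (by simpa using hf)
  have h2 := Lagrange.eval_interpolate_not_at_node (s := univ) (v := v)
    (fun i => f.eval (v i)) (x := t) fun i _ => ht i
  rw [← h, Lagrange.eval_nodal] at h2
  rw [h2, aa]
  congr 1
  refine sum_congr rfl fun s _ => ?_
  rw [Lagrange.nodalWeight, prod_inv_distrib, ee, div_eq_mul_inv, mul_inv]; ring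

lemma vand {v : Fin m → ℂ} (hv : Function.Injective v) (t : Fin m → ℂ) (ht : ∀ s j, t s ≠ v j) :
    vandermonde t = (of fun s r => aa v (t s) / ((t s - v r) * ee v r)) * vandermonde v := by
  ext s j
  have := interp hv (X ^ (j : ℕ)) (by rw [degree_X_pow]; exact_mod_cast j.2) (t s) (ht s)
  simp only [eval_pow, eval_X] at this
  rw [vandermonde_apply, this, mul_apply, mul_sum]
  refine sum_congr rfl fun r _ => ?_
  rw [of_apply, vandermonde_apply]; ring

lemma norm_vand (v : Fin m → ℂ) : ‖det (vandermonde v)‖ ^ 2 = ∏ r, ‖ee v r‖ := by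
  have h := prod_prod_Ioi_mul_eq_prod_prod_off_diag (fun i j : Fin m => ‖v i - v j‖)
  simp only [det_vandermonde, norm_prod, ee, ← prod_pow]
  simp only [← compl_singleton]
  rw [prod_congr rfl fun r _ => prod_congr rfl fun j _ => norm_sub_rev (v r) (v j), ← h]
  refine prod_congr rfl fun i _ => prod_congr rfl fun j _ => ?_
  rw [norm_sub_rev (v i), sq]

lemma rank_one (S : Matrix (Fin m) (Fin m) ℂ) (k a b : Fin m → ℂ) (h1 : S *ᵥ k = 0)
    (h2 : k ᵥ* S = 0) (h3 : k ⬝ᵥ 1 = 1) :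
    det (S + vecMulVec a b) = (k ⬝ᵥ a) * (k ⬝ᵥ b) * det (S + vecMulVec 1 1) := by
  have e : S + vecMulVec a b =
      (1 + vecMulVec (a - 1) k) * (S + vecMulVec 1 1) * (1 + vecMulVec k (b - 1)) := by
    have e1 : (1 + vecMulVec (a - 1) k) * (S + vecMulVec 1 1) = S + vecMulVec a 1 := by
      rw [add_mul, one_mul, mul_add, vecMulVec_mul, h2, vecMulVec_mul_vecMulVec, h3, one_smul]
      ext i j; simp [vecMulVec_apply]
    rw [e1, mul_add, mul_one, add_mul, mul_vecMulVec, h1, vecMulVec_mul_vecMulVec,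
      dotProduct_comm, h3, one_smul]
    ext i j; simp [vecMulVec_apply]; ring
  rw [e, det_mul, det_mul, vecMulVec_eq Unit (a - 1), vecMulVec_eq Unit k,
    det_one_add_replicateCol_mul_replicateRow, det_one_add_replicateCol_mul_replicateRow,
    dotProduct_sub, sub_dotProduct, dotProduct_comm 1, h3, dotProduct_comm b]
  ring

noncomputable def sch (y : Fin m → ℂ) : Matrix (Fin m) (Fin m) ℂ :=
  of fun s r => (y s - y r) / (1 - y s * y r)

noncomputable def kk (y : Fin m → ℂ) (s : Fin m) : ℂ :=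
  (∏ j, (1 - y j * y s)) / ((1 - y s ^ 2) * ee y s)

section
variable {n : ℕ} {y : Fin (n + 1) → ℂ}

lemma pm_sum (hn : Even n) (hi : Function.Injective y) (h1 : ∀ r s, y r * y s ≠ 1) (ε : ℂ)
    (hε : ε * ε = 1) (r : Fin (n + 1)) :
    ∑ s, (1 - ε * y r) * (1 + ε * y s) / (1 - y r * y s) * kk y s = 1 := by
  have hy : ∀ j, 1 - ε * y j ≠ 0 := fun j h => h1 j j (by
    linear_combination (-(1 + ε * y j)) * h - y j * y j * hε)
  have hy' : ∀ j, 1 + ε * y j ≠ 0 := fun j h => h1 j j (by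
    linear_combination (-(1 - ε * y j)) * h - y j * y j * hε)
  have e0 : ε ≠ 0 := by rintro rfl; simp at hε
  have hd : (∏ j ∈ univ.erase r, (1 - C (y j) * X : ℂ[X])).degree < (n + 1 : ℕ) := by
    refine lt_of_le_of_lt (degree_le_of_natDegree_le (n := n) ?_) (by exact_mod_cast n.lt_succ_self)
    refine (natDegree_prod_le _ _).trans ((sum_le_card_nsmul _ _ 1 fun j _ => ?_).trans (by simp))
    compute_degree
  have h := interp hi _ hd ε fun j h => hy j (by rw [← h, hε, sub_self])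
  simp only [eval_prod, eval_sub, eval_one, eval_mul, eval_C, eval_X] at h
  have ha : aa y ε = ε * ((1 - ε * y r) * ∏ j ∈ univ.erase r, (1 - y j * ε)) := by
    have : ∀ j, ε - y j = ε * (1 - y j * ε) := fun j => by linear_combination y j * hε
    simp only [aa, this, prod_mul_distrib, prod_const, card_univ, Fintype.card_fin]
    obtain ⟨t, rfl⟩ := hn
    rw [pow_succ, pow_add, ← mul_pow, hε, one_pow, one_mul,
      ← mul_prod_erase _ _ (mem_univ r), mul_comm (y r)]
  have hne : ∏ j ∈ univ.erase r, (1 - y j * ε) ≠ 0 :=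
    prod_ne_zero_iff.2 fun j _ => by rw [mul_comm]; exact hy j
  apply mul_left_cancel₀ hne
  rw [mul_one]
  refine Eq.trans ?_ h.symm
  rw [ha, mul_sum, mul_sum]
  refine sum_congr rfl fun s _ => ?_
  have e1 : ε - y s = ε * (1 - ε * y s) := by linear_combination y s * hε
  have e2 : 1 - y s ^ 2 = (1 - ε * y s) * (1 + ε * y s) := by linear_combination (y s) ^ 2 * hε
  have e3 := sub_ne_zero.2 (h1 r s).symm
  have e4 := ee_ne hi s
  have e5 := hy s
  have e6 := hy' s
  rw [kk, e1, e2, ← mul_prod_erase _ _ (mem_univ r)]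
  generalize ∏ j ∈ univ.erase r, (1 - y j * ε) = Q
  generalize ∏ j ∈ univ.erase r, (1 - y j * y s) = Q'
  field_simp

lemma ker (hn : Even n) (hi : Function.Injective y) (h1 : ∀ r s, y r * y s ≠ 1) :
    sch y *ᵥ kk y = 0 ∧ kk y ᵥ* sch y = 0 ∧ kk y ⬝ᵥ 1 = 1 := by
  have a : ∀ r, (sch y *ᵥ kk y) r + kk y ⬝ᵥ 1 = 1 := fun r => by
    refine Eq.trans ?_ (pm_sum hn hi h1 (-1) (by ring) r)
    rw [mulVec, dotProduct, dotProduct, ← sum_add_distrib]
    refine sum_congr rfl fun s _ => ?_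
    have e3 := sub_ne_zero.2 (h1 r s).symm
    simp only [sch, of_apply, Pi.one_apply]
    field_simp; ring
  have b : ∀ r, -(sch y *ᵥ kk y) r + kk y ⬝ᵥ 1 = 1 := fun r => by
    refine Eq.trans ?_ (pm_sum hn hi h1 1 (by ring) r)
    rw [mulVec, dotProduct, dotProduct, ← sum_neg_distrib, ← sum_add_distrib]
    refine sum_congr rfl fun s _ => ?_
    have e3 := sub_ne_zero.2 (h1 r s).symm
    simp only [sch, of_apply, Pi.one_apply]
    field_simp; ring
  have c : ∀ r, (sch y *ᵥ kk y) r = 0 := fun r => by linear_combination (a r - b r) / 2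
  refine ⟨funext c, funext fun r => ?_, by linear_combination (a 0 + b 0) / 2⟩
  have := c r
  simp only [mulVec, vecMul, dotProduct, sch, of_apply, Pi.zero_apply] at this ⊢
  rw [← neg_eq_zero, ← sum_neg_distrib, ← this]
  refine sum_congr rfl fun s _ => ?_
  rw [mul_comm (y s)]; ring

lemma kk_dot (hn : Even n) (hi : Function.Injective y) (h1 : ∀ r s, y r * y s ≠ 1)
    (hp : ∏ j, y j = 1) : kk y ⬝ᵥ (fun s => y s ^ 2 - 1) = ∑ s, y s - ∑ s, (y s)⁻¹ := by
  have y0 : ∀ j, y j ≠ 0 := fun j => prod_ne_zero_iff.1 (hp ▸ one_ne_zero) j (mem_univ _)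
  have m1 := monic_prod_X_sub_C (fun j => (y j)⁻¹) univ
  have m2 := monic_prod_X_sub_C y univ
  have d1 : (∏ j, (X - C (y j)⁻¹ : ℂ[X])).degree = (n + 1 : ℕ) := by
    rw [degree_eq_natDegree m1.ne_zero, natDegree_finsetProd_X_sub_C_eq_card]; simp
  have d2 : (∏ j, (X - C (y j) : ℂ[X])).degree = (n + 1 : ℕ) := by
    rw [degree_eq_natDegree m2.ne_zero, natDegree_finsetProd_X_sub_C_eq_card]; simp
  have d3 := degree_sub_lt (d1.trans d2.symm) m1.ne_zero (m1.leadingCoeff.trans m2.leadingCoeff.symm)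
  have h := Lagrange.coeff_eq_sum (s := univ) hi.injOn
    (P := ∏ j, (X - C (y j)⁻¹) - ∏ j, (X - C (y j))) (by rw [d1] at d3; simpa using d3)
  rw [coeff_sub, prod_X_sub_C_coeff_card_pred _ _ (by simp),
    prod_X_sub_C_coeff_card_pred _ _ (by simp)] at h
  rw [show ∑ s, y s - ∑ s, (y s)⁻¹ = -∑ s, (y s)⁻¹ - -∑ s, y s by ring, h, dotProduct]
  refine sum_congr rfl fun s _ => ?_
  have e1 : ∏ j, (y s - y j) = 0 := prod_eq_zero (mem_univ s) (sub_self _)
  have e2 : ∏ j, (1 - y j * y s) = -∏ j, (y s - (y j)⁻¹) := by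
    have : ∀ j, 1 - y j * y s = -1 * (y j * (y s - (y j)⁻¹)) := fun j => by
      have := y0 j
      field_simp; ring
    simp only [this, prod_mul_distrib, hp, prod_const, card_univ, Fintype.card_fin, pow_succ,
      hn.neg_one_pow]
    ring
  have e3 : 1 - y s ^ 2 ≠ 0 := by rw [sq]; exact sub_ne_zero.2 (h1 s s).symm
  have e4 := ee_ne hi s
  simp only [eval_sub, eval_prod, eval_X, eval_C, e1, kk, e2]
  change _ = _ / ee y s
  field_simp; ring
end

lemma cauchy {y : Fin m → ℂ} (hi : Function.Injective y) (h1 : ∀ r s, y r * y s ≠ 1)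
    (hy : ∀ r, ‖y r‖ = 1) : (∏ r, ‖aa y (y r)⁻¹‖) * ‖det (sch y + vecMulVec 1 1)‖ =
      (∏ r, ‖y r ^ 2 - 1‖) * ∏ r, ‖ee y r‖ := by
  have y0 : ∀ j, y j ≠ 0 := fun j => norm_ne_zero_iff.1 (by rw [hy]; norm_num)
  have h := vand hi (fun s => (y s)⁻¹) fun s j h => h1 s j (by rw [← h, mul_inv_cancel₀ (y0 s)])
  have hp : ∀ j, 1 + y j ≠ 0 := fun j h => h1 j j (by linear_combination (y j - 1) * h)
  have hm : ∀ j, 1 - y j ≠ 0 := fun j h => h1 j j (by linear_combination (-y j - 1) * h)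
  have e : (of fun s r => aa y (y s)⁻¹ / (((y s)⁻¹ - y r) * ee y r)) =
      diagonal (fun s => aa y (y s)⁻¹ * y s / (1 + y s)) * (sch y + vecMulVec 1 1) *
        diagonal (fun r => ((1 - y r) * ee y r)⁻¹) := by
    ext s r
    have e3 := sub_ne_zero.2 (h1 s r).symm
    have := ee_ne hi r
    have := y0 s
    have := hp s
    have := hm r
    simp only [mul_diagonal, diagonal_mul, of_apply, sch, Matrix.add_apply, vecMulVec_apply,
      Pi.one_apply]
    field_simp; ring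
  have nv : ‖det (vandermonde fun s => (y s)⁻¹)‖ = ‖det (vandermonde y)‖ := by
    simp only [det_vandermonde, norm_prod]
    refine prod_congr rfl fun i _ => prod_congr rfl fun j _ => ?_
    rw [inv_sub_inv (y0 j) (y0 i), norm_div, norm_mul, hy, hy, norm_sub_rev]; simp
  have v0 : ‖det (vandermonde y)‖ ≠ 0 := norm_ne_zero_iff.2 (det_vandermonde_ne_zero_iff.2 hi)
  rw [h, e, det_mul, det_mul, det_mul, norm_mul, mul_eq_right₀ v0, det_diagonal, det_diagonal]
    at nv
  have e2 : ∀ r, ‖y r ^ 2 - 1‖ = ‖1 + y r‖ * ‖1 - y r‖ := fun r => by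
    rw [← norm_mul, norm_sub_rev]; congr 1; ring
  simp only [norm_mul, norm_prod, norm_div, norm_inv, hy, mul_one, prod_div_distrib,
    prod_inv_distrib, prod_mul_distrib, prod_const_one] at nv
  have p1 : ∏ r, ‖1 + y r‖ ≠ 0 := prod_ne_zero_iff.2 fun r _ => norm_ne_zero_iff.2 (hp r)
  have p2 : ∏ r, ‖1 - y r‖ ≠ 0 := prod_ne_zero_iff.2 fun r _ => norm_ne_zero_iff.2 (hm r)
  have p3 : ∏ r, ‖ee y r‖ ≠ 0 := prod_ne_zero_iff.2 fun r _ => norm_ne_zero_iff.2 (ee_ne hi r)
  simp only [e2, prod_mul_distrib]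
  generalize ∏ r, ‖aa y (y r)⁻¹‖ = Q at *
  field_simp at nv
  linarith

lemma top {n : ℕ} {v : Fin (n + 1) → ℂ} (hv : Function.Injective v) :
    (fun r => (ee v r)⁻¹) ᵥ* vandermonde v = Pi.single (Fin.last n) 1 := by
  ext j
  have h := Lagrange.coeff_eq_sum (s := univ) hv.injOn (P := X ^ (j : ℕ))
    (by rw [degree_X_pow, card_univ, Fintype.card_fin]; exact_mod_cast j.2)
  simp only [eval_pow, eval_X, coeff_X_pow, card_univ, Fintype.card_fin, add_tsub_cancel_right] at h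
  have e : ((fun r => (ee v r)⁻¹) ᵥ* vandermonde v) j = ∑ i, v i ^ (j : ℕ) / ee v i := by
    simp only [vecMul, dotProduct, vandermonde_apply]
    exact sum_congr rfl fun i _ => by ring
  rw [e, Pi.single_apply]
  refine h.symm.trans ?_
  simp only [Fin.ext_iff, Fin.val_last, eq_comm]

theorem alg {n : ℕ} (hn : Even n) (y x : Fin (n + 1) → ℂ) (hx : ∀ r, x r = y r ^ 2) (P g : ℂ)
    (hP : P ≠ 0) (A : Matrix (Fin (n + 1)) (Fin (n + 1)) ℂ) (hi : Function.Injective x)
    (h1 : ∀ r s, x r * x s ≠ 1) (hp : ∏ j, y j = 1)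
    (KI : ∀ r, aa x (x r)⁻¹ * ee x r * (x r - 1) * y r = -P)
    (hA : ∀ j k, g * A j k = ∑ r, (x r ^ (j : ℕ) * (x r)⁻¹ ^ (k : ℕ) -
      (x r)⁻¹ ^ (j : ℕ) * x r ^ (k : ℕ))) :
    g ^ (n + 1) * det (A + vecMulVec (Pi.single (Fin.last n) 1) (Pi.single (Fin.last n) 1)) =
      det (vandermonde x) ^ 2 * (∏ r, (ee x r * (x r - 1))⁻¹) ^ 2 * P ^ (n + 1) *
        (g / P * (∑ s, y s - ∑ s, (y s)⁻¹) ^ 2 * det (sch y + vecMulVec 1 1)) := by
  have y0 : ∀ j, y j ≠ 0 := fun j => prod_ne_zero_iff.1 (hp ▸ one_ne_zero) j (mem_univ _)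
  have x0 : ∀ j, x j ≠ 0 := fun j => by rw [hx]; exact pow_ne_zero _ (y0 j)
  have yi : Function.Injective y := fun r s h => hi (by rw [hx, hx, h])
  have y1 : ∀ r s, y r * y s ≠ 1 := fun r s h => h1 r s (by rw [hx, hx, ← mul_pow, h, one_pow])
  have y2 : ∀ r s, 1 + y r * y s ≠ 0 := fun r s h => h1 r s (by
    rw [hx, hx]; linear_combination (y r * y s - 1) * h)
  have x1 : ∀ r, x r - 1 ≠ 0 := fun r h => h1 r r (by linear_combination (x r + 1) * h)
  obtain ⟨k1, k2, k3⟩ := ker hn yi y1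
  have R := rank_one (sch y) (kk y) ((g / P) • fun s => y s ^ 2 - 1) (fun s => y s ^ 2 - 1) k1 k2 k3
  rw [dotProduct_smul, kk_dot hn yi y1 hp, smul_eq_mul] at R
  have h := vand hi (fun s => (x s)⁻¹) fun s j h => h1 s j (by rw [← h, mul_inv_cancel₀ (x0 s)])
  set Φ : Matrix (Fin (n + 1)) (Fin (n + 1)) ℂ :=
    of fun s r => aa x (x s)⁻¹ / (((x s)⁻¹ - x r) * ee x r) with hΦ
  have hΦ2 : ∀ s r, Φ s r = -P * y s / ((1 - y s * y r) * (1 + y s * y r) *
      (ee x s * (x s - 1)) * ee x r) := by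
    intro s r
    have a1 := sub_ne_zero.2 (y1 s r).symm
    have a2 := y2 s r
    have a3 := ee_ne hi s
    have a4 := ee_ne hi r
    have a5 := x1 s
    have a6 := y0 s
    have a7 : (x s)⁻¹ - x r = (1 - y s * y r) * (1 + y s * y r) / y s ^ 2 := by
      rw [hx, hx]; field_simp; ring
    rw [hΦ, of_apply, a7, ← KI s]
    field_simp
  have e1 : Φ - Φᵀ + g • vecMulVec (fun r => (ee x r)⁻¹) (fun r => (ee x r)⁻¹) =
      diagonal (fun r => (ee x r * (x r - 1))⁻¹) *
        (P • (sch y + vecMulVec ((g / P) • fun s => y s ^ 2 - 1) fun s => y s ^ 2 - 1)) *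
        diagonal (fun r => (ee x r * (x r - 1))⁻¹) := by
    ext s r
    have a1 := sub_ne_zero.2 (y1 s r).symm
    have a2 := y2 s r
    have a3 := ee_ne hi s
    have a4 := ee_ne hi r
    have a5 := x1 s
    have a6 := x1 r
    simp only [mul_diagonal, diagonal_mul, Matrix.add_apply, Matrix.sub_apply, transpose_apply,
      Matrix.smul_apply, vecMulVec_apply, hΦ2, sch, of_apply, smul_eq_mul, Pi.smul_apply, mul_comm (y r) (y s)]
    rw [hx s, hx r] at *
    field_simp; ring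
  have e2 : g • (A + vecMulVec (Pi.single (Fin.last n) 1) (Pi.single (Fin.last n) 1)) =
      (vandermonde x)ᵀ * (Φ - Φᵀ + g • vecMulVec (fun r => (ee x r)⁻¹) (fun r => (ee x r)⁻¹)) *
        vandermonde x := by
    rw [mul_add, add_mul, mul_sub, sub_mul, Matrix.mul_assoc, ← h, ← transpose_mul, ← h,
      Matrix.mul_smul, Matrix.smul_mul, mul_vecMulVec, vecMulVec_mul, mulVec_transpose, top hi,
      smul_add]
    congr 1
    ext j k
    simp only [Matrix.smul_apply, smul_eq_mul, hA, Matrix.sub_apply, mul_apply, transpose_apply,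
      vandermonde_apply, sum_sub_distrib]
  have e3 := congrArg det e2
  rw [e1] at e3
  simp only [det_smul, det_mul, det_transpose, det_diagonal, Fintype.card_fin, R] at e3
  rw [e3]; ring

end Pool.Agent.H52.Evil
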