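import Pool.Agent.H52.EvilAlg

set_option autoImplicit false
open Finset Matrix

namespace Pool.Agent.H52.Evil

variable {p : ℕ} [hp : Fact p.Prime]

/-- nonzero squares -/
def RR (p : ℕ) [Fact p.Prime] : Finset (ZMod p) := univ.filter fun t => quadraticChar (ZMod p) t = 1

lemma mem_RR {t : ZMod p} : t ∈ RR p ↔ quadraticChar (ZMod p) t = 1 := by simp [RR]

lemma rc (h3 : p % 4 = 3) : ringChar (ZMod p) ≠ 2 := by
  rw [ZMod.ringChar_zmod_n]; omega

lemma chi_neg (h3 : p % 4 = 3) (t : ZMod p) :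
    quadraticChar (ZMod p) (-t) = -quadraticChar (ZMod p) t := by
  rw [neg_eq_neg_one_mul, map_mul, quadraticChar_neg_one (rc h3), ZMod.card,
    ZMod.χ₄_nat_three_mod_four h3, neg_one_mul]

lemma RR_ne {t : ZMod p} (h : t ∈ RR p) : t ≠ 0 := by
  rintro rfl
  simpa using mem_RR.1 h

lemma prod_split {M : Type*} [CommMonoid M] (h3 : p % 4 = 3) (f : ZMod p → M) :
    ∏ t ∈ univ.erase 0, f t = (∏ r ∈ RR p, f r) * ∏ r ∈ RR p, f (-r) := by
  rw [← prod_filter_mul_prod_filter_not (univ.erase 0) (fun t => quadraticChar (ZMod p) t = 1)]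
  congr 1
  · refine prod_congr ?_ fun _ _ => rfl
    ext t
    simp only [mem_filter, mem_erase, mem_univ, and_true, mem_RR]
    exact ⟨fun h => h.2, fun h => ⟨RR_ne (mem_RR.2 h), h⟩⟩
  · refine prod_nbij' (fun t => -t) (fun t => -t) ?_ ?_ (by simp) (by simp) (by simp)
    · intro t ht
      simp only [mem_filter, mem_erase, mem_univ, and_true] at ht
      rw [mem_RR, chi_neg h3, (quadraticChar_dichotomy ht.1).resolve_left ht.2, neg_neg]
    · intro t ht
      simp only [mem_filter, mem_erase, mem_univ, and_true]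
      refine ⟨neg_ne_zero.2 (RR_ne ht), ?_⟩
      rw [chi_neg h3, mem_RR.1 ht]; norm_num

lemma sum_split {M : Type*} [AddCommMonoid M] (h3 : p % 4 = 3) (f : ZMod p → M) :
    ∑ t ∈ univ.erase 0, f t = (∑ r ∈ RR p, f r) + ∑ r ∈ RR p, f (-r) :=
  prod_split (M := Multiplicative M) h3 f

lemma prod_perm {M : Type*} [CommMonoid M] {u : ZMod p} (hu : u ∈ RR p) (f : ZMod p → M) :
    ∏ r ∈ RR p, f (u * r) = ∏ r ∈ RR p, f r := by
  have u0 := RR_ne hu
  refine prod_nbij' (fun t => u * t) (fun t => u⁻¹ * t) ?_ ?_ ?_ ?_ (by simp)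
  · intro t ht
    rw [mem_RR, map_mul, mem_RR.1 hu, mem_RR.1 ht, one_mul]
  · intro t ht
    have : quadraticChar (ZMod p) (u * (u⁻¹ * t)) = 1 := by
      rw [mul_inv_cancel_left₀ u0]; exact mem_RR.1 ht
    rwa [map_mul, mem_RR.1 hu, one_mul, ← mem_RR] at this
  · intro t _; simp [u0]
  · intro t _; simp [u0]

lemma sum_perm {M : Type*} [AddCommMonoid M] {u : ZMod p} (hu : u ∈ RR p) (f : ZMod p → M) :
    ∑ r ∈ RR p, f (u * r) = ∑ r ∈ RR p, f r := prod_perm (M := Multiplicative M) hu f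

lemma card_RR (h3 : p % 4 = 3) : (RR p).card = (p - 3) / 2 + 1 := by
  have := sum_split h3 (fun _ => (1 : ℕ))
  simp only [sum_const, smul_eq_mul, mul_one, card_erase_of_mem (mem_univ _), card_univ,
    ZMod.card] at this
  omega

lemma sum_RR (h3 : p % 4 = 3) (h5 : 5 ≤ p) : ∑ r ∈ RR p, r = 0 := by
  have h2 : (2 : ZMod p) ≠ 0 := by
    intro h
    have := (ZMod.natCast_eq_zero_iff 2 p).1 (by exact_mod_cast h)
    have := Nat.le_of_dvd (by norm_num) this
    omega
  have h33 : (3 : ZMod p) ≠ 0 := by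
    intro h
    have := (ZMod.natCast_eq_zero_iff 3 p).1 (by exact_mod_cast h)
    have := Nat.le_of_dvd (by norm_num) this
    omega
  have := sum_perm (mem_RR.2 (quadraticChar_sq_one' h2)) (fun r => r)
  rw [← mul_sum] at this
  apply mul_left_cancel₀ h33
  linear_combination this

variable {φ : AddChar (ZMod p) ℂ}

lemma map_sum' (s : Finset (ZMod p)) : ∏ r ∈ s, φ r = φ (∑ r ∈ s, r) := by
  induction s using Finset.induction_on with
  | empty => simp
  | insert a s h ih => rw [prod_insert h, sum_insert h, ih, AddChar.map_add_eq_mul]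

lemma phi_ne (t : ZMod p) : φ t ≠ 0 := norm_ne_zero_iff.1 (by rw [AddChar.norm_apply]; norm_num)

lemma cyc (hφ : Function.Injective φ) : ∏ t ∈ univ.erase 0, (1 - φ t) = p := by
  have e : ∀ k : ℕ, φ 1 ^ k = φ k := fun k => by rw [← AddChar.map_nsmul_eq_pow, nsmul_one]
  have hz : IsPrimitiveRoot (φ 1) (p - 1 + 1) := by
    rw [Nat.sub_add_cancel hp.out.one_le, IsPrimitiveRoot.iff_def]
    refine ⟨by rw [e]; simp, fun l hl => ?_⟩
    rw [e, ← φ.map_zero_eq_one] at hl
    exact (ZMod.natCast_eq_zero_iff l p).1 (hφ hl)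
  have h := hz.prod_one_sub_pow_eq_order
  have p1 := hp.out.one_lt
  rw [show ((p - 1 : ℕ) : ℂ) + 1 = p by rw [Nat.cast_sub p1.le]; simp] at h
  rw [← h]
  symm
  refine prod_nbij' (fun k => ((k + 1 : ℕ) : ZMod p)) (fun t => t.val - 1) ?_ ?_ ?_ ?_
    fun k _ => by rw [e]
  · intro k hk
    simp only [mem_erase, mem_univ, and_true, mem_range] at hk ⊢
    intro h
    have := Nat.le_of_dvd (by omega) ((ZMod.natCast_eq_zero_iff _ p).1 h)
    omega
  · intro t ht
    have := ZMod.val_lt t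
    have := (ZMod.val_ne_zero t).2 (mem_erase.1 ht).1
    simp only [mem_range]; omega
  · intro k hk
    rw [ZMod.val_natCast, Nat.mod_eq_of_lt (by have := mem_range.1 hk; omega)]; simp
  · intro t ht
    have := (ZMod.val_ne_zero t).2 (mem_erase.1 ht).1
    rw [show t.val - 1 + 1 = t.val by omega, ZMod.natCast_zmod_val]

lemma shift_inj (hφ : Function.Injective φ) {a : ZMod p} (ha : a ≠ 0) :
    Function.Injective (φ.mulShift a) := fun s t h => mul_left_cancel₀ ha (hφ h)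

lemma norm_sub_phi (s t : ZMod p) : ‖φ s - φ t‖ = ‖1 - φ (t - s)‖ := by
  rw [show φ s - φ t = φ s * (1 - φ (t - s)) by
    rw [mul_sub, ← AddChar.map_add_eq_mul]; simp, norm_mul, AddChar.norm_apply, one_mul]

lemma half (h3 : p % 4 = 3) (hφ : Function.Injective φ) {a : ZMod p} (ha : a ≠ 0) :
    ∏ r ∈ RR p, ‖1 - φ (a * r)‖ = √p := by
  have h := congrArg norm (cyc (shift_inj hφ ha))
  rw [norm_prod, prod_split h3] at h
  have e : ∀ r, ‖1 - φ.mulShift a (-r)‖ = ‖1 - φ (a * r)‖ := fun r => by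
    rw [AddChar.mulShift_apply, norm_sub_rev 1 (φ (a * r)), ← φ.map_zero_eq_one, norm_sub_phi,
      norm_sub_phi]
    simp
  simp only [e] at h
  simp only [AddChar.mulShift_apply, Complex.norm_natCast] at h
  rw [← h, Real.sqrt_mul_self (prod_nonneg fun _ _ => norm_nonneg _)]

lemma gauss_eq (h3 : p % 4 = 3) (φ : AddChar (ZMod p) ℂ) :
    gaussSum ((quadraticChar (ZMod p)).ringHomComp (Int.castRingHom ℂ)) φ =
      ∑ r ∈ RR p, (φ r - φ (-r)) := by
  rw [gaussSum, ← add_sum_erase _ _ (mem_univ 0), sum_split h3, sum_sub_distrib, sub_eq_add_neg,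
    ← sum_neg_distrib]
  simp only [MulChar.ringHomComp_apply, MulChar.map_zero, zero_mul, zero_add]
  congr 1
  · exact sum_congr rfl fun r hr => by rw [mem_RR.1 hr]; simp
  · exact sum_congr rfl fun r hr => by rw [chi_neg h3, mem_RR.1 hr]; simp

lemma gauss_norm (h3 : p % 4 = 3) (hφ : Function.Injective φ) :
    ‖∑ r ∈ RR p, (φ r - φ (-r))‖ = √p := by
  have h := gaussSum_sq (χ := (quadraticChar (ZMod p)).ringHomComp (Int.castRingHom ℂ)) (ψ := φ)
    ((MulChar.ringHomComp_ne_one_iff (RingHom.injective_int _)).2 (quadraticChar_ne_one (rc h3)))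
    ((quadraticChar_isQuadratic _).comp _) (AddChar.IsPrimitive.of_ne_one fun h => by
      have : φ 1 = φ 0 := by simp [h]
      exact one_ne_zero (hφ this))
  have h2 := congrArg norm h
  rw [gauss_eq h3, MulChar.ringHomComp_apply, chi_neg h3] at h2
  simp only [norm_pow, map_one, eq_intCast, Int.cast_neg, Int.cast_one, ZMod.card, neg_mul,
    one_mul, norm_neg, Complex.norm_natCast] at h2
  rw [← h2, Real.sqrt_sq (norm_nonneg _)]

lemma gauss_shift (h3 : p % 4 = 3) (a : ZMod p) :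
    (∑ r ∈ RR p, (φ r - φ (-r))) * (quadraticChar (ZMod p) a : ℂ) =
      ∑ r ∈ RR p, (φ (a * r) - φ (-(a * r))) := by
  by_cases ha : a = 0
  · simp [ha]
  have h := gaussSum_mulShift ((quadraticChar (ZMod p)).ringHomComp (Int.castRingHom ℂ)) φ
    (Units.mk0 a ha)
  rw [gauss_eq h3, gauss_eq h3] at h
  simp only [MulChar.ringHomComp_apply, Units.val_mk0, eq_intCast, AddChar.mulShift_apply,
    mul_neg] at h
  have h2 : (quadraticChar (ZMod p) a : ℂ) ^ 2 = 1 := by exact_mod_cast quadraticChar_sq_one ha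
  rw [← h]
  linear_combination (∑ r ∈ RR p, (φ (a * r) - φ (-(a * r)))) * h2

section
variable {n : ℕ} {ρ : Fin (n + 1) → ZMod p} (hρ : Function.Injective ρ)
  (hR : univ.image ρ = RR p)
include hρ hR

lemma prod_tr {M : Type*} [CommMonoid M] (f : ZMod p → M) : ∏ i, f (ρ i) = ∏ r ∈ RR p, f r := by
  rw [← hR, prod_image hρ.injOn]

lemma sum_tr {M : Type*} [AddCommMonoid M] (f : ZMod p → M) : ∑ i, f (ρ i) = ∑ r ∈ RR p, f r := by
  rw [← hR, sum_image hρ.injOn]

omit hρ in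
lemma rho_mem (i : Fin (n + 1)) : ρ i ∈ RR p := hR ▸ mem_image_of_mem _ (mem_univ _)

lemma ee_eq (i : Fin (n + 1)) :
    ee (fun i => φ (ρ i)) i = ∏ s ∈ (RR p).erase (ρ i), (φ (ρ i) - φ s) := by
  rw [← hR, ← image_erase hρ, prod_image hρ.injOn, ee]

lemma norm_ee (h3 : p % 4 = 3) (hφ : Function.Injective φ) :
    ∏ i, ‖ee (fun i => φ (ρ i)) i‖ = √p ^ n := by
  have e : ∀ r ∈ RR p, ∏ s ∈ (RR p).erase r, ‖φ r - φ s‖ =
      ∏ u ∈ (RR p).erase 1, ‖1 - φ ((u - 1) * r)‖ := fun r hr => by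
    have := prod_perm hr fun s => if s = r then 1 else ‖φ r - φ s‖
    rw [← filter_ne', ← filter_ne', prod_filter, prod_filter]
    simp only [ne_eq, ite_not]
    rw [← this]
    refine prod_congr rfl fun u _ => ?_
    rw [norm_sub_phi, show r * u - r = (u - 1) * r by ring]
    simp only [mul_eq_left₀ (RR_ne hr)]
  simp only [ee_eq hρ hR, norm_prod]
  rw [prod_tr hρ hR fun r => ∏ s ∈ (RR p).erase r, ‖φ r - φ s‖, prod_congr rfl e, prod_comm,
    prod_congr rfl fun u hu => half h3 hφ (sub_ne_zero.2 (mem_erase.1 hu).1), prod_const,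
    card_erase_of_mem (mem_RR.2 (map_one _)), ← hR, card_image_of_injective _ hρ]
  simp

lemma key (hn : Even n) (h3 : p % 4 = 3) (h5 : 5 ≤ p) (hφ : Function.Injective φ)
    (i : Fin (n + 1)) : aa (fun i => φ (ρ i)) (φ (ρ i))⁻¹ * ee (fun i => φ (ρ i)) i *
      (φ (ρ i) - 1) * φ (ρ i) ^ (n + 2) = -p := by
  have hc : (RR p).card = n + 1 := by rw [← hR, card_image_of_injective _ hρ]; simp
  have hr := rho_mem hR i
  rw [ee_eq hρ hR, aa, prod_tr hρ hR fun s => (φ (ρ i))⁻¹ - φ s]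
  generalize ρ i = r at *
  have r0 := RR_ne hr
  have hrn : ∀ s ∈ RR p, -s ≠ r := fun s hs h => by
    have := mem_RR.1 hr
    rw [← h, chi_neg h3, mem_RR.1 hs] at this
    norm_num at this
  have h1 : ∏ t, (if t = r then 1 else φ r - φ t) = φ r ^ (p - 1) * p := by
    rw [← cyc hφ, ← Equiv.prod_comp (Equiv.addLeft r), ← mul_prod_erase _ _ (mem_univ 0)]
    have : p - 1 = (univ.erase (0 : ZMod p)).card := by simp
    rw [this, ← prod_const, ← prod_mul_distrib]
    simp only [Equiv.coe_addLeft, add_zero, if_true, one_mul]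
    refine prod_congr rfl fun t ht => ?_
    rw [if_neg (by simpa using (mem_erase.1 ht).1), AddChar.map_add_eq_mul]; ring
  have h2 : φ r ^ (p - 1) * φ r = 1 := by
    rw [← pow_succ, Nat.sub_add_cancel hp.out.one_le, ← AddChar.map_nsmul_eq_pow]; simp
  rw [← mul_prod_erase _ _ (mem_univ 0), prod_split h3, if_neg r0.symm,
    prod_congr rfl fun s hs => if_neg (hrn s hs), AddChar.map_zero_eq_one] at h1
  have h4 : ∏ s ∈ RR p, (if s = r then 1 else φ r - φ s) = ∏ s ∈ (RR p).erase r, (φ r - φ s) := by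
    rw [← filter_ne', prod_filter]; simp only [ne_eq, ite_not]
  have h6 : ∏ s ∈ RR p, (φ r - φ (-s)) = -φ r ^ (n + 1) * ∏ s ∈ RR p, ((φ r)⁻¹ - φ s) := by
    have : ∀ s, φ r - φ (-s) = -1 * φ r * (φ s)⁻¹ * ((φ r)⁻¹ - φ s) := fun s => by
      have := phi_ne (φ := φ) r
      have := phi_ne (φ := φ) s
      rw [AddChar.map_neg_eq_inv]; field_simp; ring
    simp only [this, prod_mul_distrib, prod_const, prod_inv_distrib, map_sum', sum_RR h3 h5, hc,
      AddChar.map_zero_eq_one, pow_succ (-1 : ℂ), hn.neg_one_pow]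
    ring
  rw [h4, h6] at h1
  linear_combination -φ r * h1 - p * h2

theorem norm_det (hn : Even n) (h3 : p % 4 = 3) (h5 : 5 ≤ p) (hpn : p = 2 * n + 3) :
    ‖det ((of fun j k : Fin (n + 1) => (quadraticChar (ZMod p) ((j : ℕ) - (k : ℕ)) : ℂ)) +
      vecMulVec (Pi.single (Fin.last n) 1) (Pi.single (Fin.last n) 1))‖ = 1 := by
  set ψ : AddChar (ZMod p) ℂ := ZMod.stdAddChar
  have hψ : Function.Injective ψ := ZMod.injective_stdAddChar
  have h2 : (2 : ZMod p) ≠ 0 := by
    intro h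
    have := (ZMod.natCast_eq_zero_iff 2 p).1 (by exact_mod_cast h)
    have := Nat.le_of_dvd (by norm_num) this
    omega
  have hφ := shift_inj hψ h2
  set φ := ψ.mulShift 2 with hφd
  have hx : ∀ r, φ r = ψ r ^ 2 := fun r => by
    rw [hφd, AddChar.mulShift_apply, two_mul, AddChar.map_add_eq_mul, sq]
  have ne1 : ∀ {θ : AddChar (ZMod p) ℂ}, Function.Injective θ → ∀ r s, θ (ρ r) * θ (ρ s) ≠ 1 := by
    intro θ hθ r s h
    rw [← AddChar.map_add_eq_mul, ← θ.map_zero_eq_one] at h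
    have h1 := mem_RR.1 (rho_mem hR r)
    rw [eq_neg_of_add_eq_zero_left (hθ h), chi_neg h3, mem_RR.1 (rho_mem hR s)] at h1
    norm_num at h1
  have p0 : (0 : ℝ) < p := by exact_mod_cast hp.out.pos
  have s0 : 0 < √(p : ℝ) := Real.sqrt_pos.2 p0
  have H := alg hn (fun i => ψ (ρ i)) (fun i => φ (ρ i)) (fun i => hx _) p
    (∑ r ∈ RR p, (φ r - φ (-r))) (by exact_mod_cast p0.ne')
    (of fun j k : Fin (n + 1) => (quadraticChar (ZMod p) ((j : ℕ) - (k : ℕ)) : ℂ))
    (hφ.comp hρ) (ne1 hφ)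
    (by rw [prod_tr hρ hR ψ, map_sum', sum_RR h3 h5, AddChar.map_zero_eq_one])
    (fun i => by
      have : (p : ZMod p) = ((2 * n + 3 : ℕ) : ZMod p) := by rw [← hpn]
      rw [ZMod.natCast_self] at this
      have e : φ (ρ i) ^ (n + 2) = ψ (ρ i) := by
        rw [← AddChar.map_nsmul_eq_pow, hφd, AddChar.mulShift_apply, nsmul_eq_mul]
        congr 1
        push_cast at this ⊢
        linear_combination -ρ i * this
      rw [← key hρ hR hn h3 h5 hφ i, e])
    (fun j k => by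
      rw [of_apply, gauss_shift h3, ← sum_tr hρ hR fun r => φ (((j : ℕ) - (k : ℕ)) * r) -
        φ (-(((j : ℕ) - (k : ℕ)) * r))]
      refine sum_congr rfl fun i _ => ?_
      simp only [← AddChar.map_neg_eq_inv, ← AddChar.map_nsmul_eq_pow, ← AddChar.map_add_eq_mul,
        nsmul_eq_mul]
      congr 2 <;> ring)
  have C := cauchy (y := fun i => ψ (ρ i)) (hψ.comp hρ) (ne1 hψ) fun _ => AddChar.norm_apply _ _
  have n1 : ∀ {θ : AddChar (ZMod p) ℂ}, Function.Injective θ → ∏ i, ‖θ (ρ i) - 1‖ = √p := by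
    intro θ hθ
    rw [prod_tr hρ hR fun r => ‖θ r - 1‖, ← half h3 hθ one_ne_zero]
    exact prod_congr rfl fun r _ => by rw [one_mul, norm_sub_rev]
  have K : (∏ i, ‖aa (fun i => ψ (ρ i)) (ψ (ρ i))⁻¹‖) * √p ^ n * √p = (√p * √p) ^ (n + 1) := by
    rw [Real.mul_self_sqrt p0.le, ← norm_ee hρ hR h3 hψ]
    nth_rw 1 [← n1 hψ]
    rw [← prod_mul_distrib, ← prod_mul_distrib, ← Fin.prod_const]
    refine prod_congr rfl fun i _ => ?_
    have := congrArg norm (key hρ hR hn h3 h5 hψ i)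
    simpa only [norm_mul, norm_pow, AddChar.norm_apply, one_pow, mul_one, norm_neg,
      Complex.norm_natCast] using this
  simp only [← hx] at C
  rw [n1 hφ, norm_ee hρ hR h3 hψ] at C
  have G : ‖∑ s, ψ (ρ s) - ∑ s, (ψ (ρ s))⁻¹‖ = √p := by
    rw [← gauss_norm h3 hψ, ← sum_tr hρ hR fun r => ψ r - ψ (-r), ← sum_sub_distrib]
    simp only [AddChar.map_neg_eq_inv]
  have H2 := congrArg norm H
  simp only [norm_mul, norm_pow, norm_prod, norm_inv, norm_div, norm_vand, G, gauss_norm h3 hφ,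
    prod_inv_distrib, prod_mul_distrib, n1 hφ, norm_ee hρ hR h3 hφ, Complex.norm_natCast] at H2
  generalize ‖det (sch (fun i => ψ (ρ i)) + vecMulVec 1 1)‖ = d at *
  generalize ∏ i, ‖aa (fun i => ψ (ρ i)) (ψ (ρ i))⁻¹‖ = a at *
  have hs := Real.mul_self_sqrt p0.le
  generalize √(p : ℝ) = s at *
  have sn : 0 < s ^ n := pow_pos s0 n
  have ha : a = s * s ^ n := by
    apply mul_right_cancel₀ (mul_pos sn s0).ne'
    rw [← mul_assoc, K]; ring
  have hd : d = 1 := by
    apply mul_left_cancel₀ (mul_pos s0 sn).ne'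
    rw [mul_one, ← ha, C, ha]
  rw [hd, ← hs] at H2
  apply mul_left_cancel₀ (pow_pos s0 (n + 1)).ne'
  rw [H2]
  field_simp
  ring
end

lemma skew_ne {m : ℕ} (B : Matrix (Fin m) (Fin m) ℝ) (hB : Bᵀ = -B) : B.det ≠ -1 := by
  intro h
  have c : Continuous fun t : ℝ => det ((1 - t) • B + t • (1 : Matrix (Fin m) (Fin m) ℝ)) := by
    fun_prop
  obtain ⟨t, ⟨t0, -⟩, ht⟩ := intermediate_value_Ioo (zero_le_one' ℝ) c.continuousOn
    (show (0 : ℝ) ∈ _ by simp [h])
  obtain ⟨v, v0, hv⟩ := exists_mulVec_eq_zero_iff.2 ht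
  have e : v ⬝ᵥ B *ᵥ v = 0 := by
    have : v ⬝ᵥ B *ᵥ v = -(v ⬝ᵥ B *ᵥ v) := by
      nth_rw 1 [dotProduct_mulVec, ← mulVec_transpose, hB, neg_mulVec, neg_dotProduct,
        dotProduct_comm]
    linarith
  have := congrArg (v ⬝ᵥ ·) hv
  simp only [add_mulVec, smul_mulVec, one_mulVec, dotProduct_add, dotProduct_smul, e,
    smul_eq_mul, mul_zero, zero_add, dotProduct_zero] at this
  exact v0 (dotProduct_self_eq_zero.1 ((mul_eq_zero.1 this).resolve_left t0.ne'))

lemma det_add_corner {n : ℕ} (hn : Even n) (A : Matrix (Fin (n + 1)) (Fin (n + 1)) ℂ)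
    (hA : Aᵀ = -A) : det (A + vecMulVec (Pi.single (Fin.last n) 1) (Pi.single (Fin.last n) 1)) =
      det (A.submatrix Fin.castSucc Fin.castSucc) := by
  have h0 : det A = 0 := by
    have := det_transpose A
    rw [hA, det_neg, Fintype.card_fin, pow_succ, hn.neg_one_pow] at this
    linear_combination (-1 / 2) * this
  have e : A + vecMulVec (Pi.single (Fin.last n) 1) (Pi.single (Fin.last n) 1) =
      updateRow A (Fin.last n) (A (Fin.last n) + Pi.single (Fin.last n) 1) := by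
    ext j k
    by_cases h : j = Fin.last n
    · simp [h, vecMulVec_apply]
    · simp [h, vecMulVec_apply, updateRow_ne]
  rw [e, det_updateRow_add, updateRow_eq_self, h0, zero_add, det_succ_row _ (Fin.last n),
    sum_eq_single (Fin.last n) (fun b _ hb => by simp [hb]) (by simp)]
  simp only [updateRow_self, Pi.single_eq_same, Fin.succAbove_last, mul_one, ← two_mul, pow_mul,
    neg_one_sq, one_pow, one_mul]
  congr 1
  ext j k
  simp

end Pool.Agent.H52.Evil
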