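import Mathlib

set_option autoImplicit false

namespace H52.FR

open MvPolynomial

variable {σ : Type} {p : ℕ} [Fact p.Prime]

lemma pw (e : ℕ) (f : MvPolynomial σ (ZMod p)) : f ^ p ^ e = expand (p ^ e) f := by
  induction e with
  | zero => simp
  | succ e ih => rw [pow_succ, pow_mul, ih, ← expand_zmod, ← expand_mul, mul_comm]

lemma ex {q : ℕ} (hq : 0 < q) (r : σ →₀ ℕ) (g : MvPolynomial σ (ZMod p)) :
    ∃ h : MvPolynomial σ (ZMod p), ∀ v, coeff v h = coeff (q • v + r) g := by
  classical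
  induction g using MvPolynomial.induction_on' with
  | monomial u a =>
    by_cases h : ∃ w, u = q • w + r
    · obtain ⟨w, rfl⟩ := h
      refine ⟨monomial w a, fun v => ?_⟩
      rw [coeff_monomial, coeff_monomial]
      refine if_congr ⟨fun e => by rw [e], fun e => ?_⟩ rfl rfl
      ext i
      have := DFunLike.congr_fun (add_right_cancel e) i
      exact Nat.eq_of_mul_eq_mul_left hq this
    · exact ⟨0, fun v => by rw [coeff_monomial, if_neg fun e => h ⟨v, e⟩, coeff_zero]⟩
  | add f g hf hg =>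
    obtain ⟨a, ha⟩ := hf
    obtain ⟨b, hb⟩ := hg
    exact ⟨a + b, fun v => by rw [coeff_add, coeff_add, ha, hb]⟩

lemma key {q : ℕ} {r : σ →₀ ℕ} (hr : ∀ i, r i < q) (f c h : MvPolynomial σ (ZMod p))
    (hh : ∀ v, coeff v h = coeff (q • v + r) c) (v : σ →₀ ℕ) :
    coeff v (f * h) = coeff (q • v + r) (expand q f * c) := by
  classical
  induction f using MvPolynomial.induction_on' with
  | monomial s a =>
    rw [expand_monomial, coeff_monomial_mul', coeff_monomial_mul']
    by_cases e : s ≤ v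
    · obtain ⟨w, rfl⟩ := exists_add_of_le e
      rw [if_pos e, smul_add, add_assoc, if_pos le_self_add, add_tsub_cancel_left,
        add_tsub_cancel_left, hh]
    · rw [if_neg e, if_neg]
      intro e'
      refine e fun i => ?_
      have h1 : q * s i ≤ q * v i + r i := e' i
      have h2 := hr i
      exact Nat.le_of_lt_succ (Nat.lt_of_mul_lt_mul_left (a := q) (by rw [Nat.mul_succ]; omega))
  | add f g hf hg => rw [add_mul, map_add, add_mul, coeff_add, coeff_add, hf, hg]

lemma low (e : ℕ) (J : Ideal (MvPolynomial σ (ZMod p))) (u v : σ →₀ ℕ)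
    (hu : monomial u 1 ∈ Ideal.span {g | ∃ f ∈ J, g = f ^ p ^ e})
    (h : ∀ i, u i < p ^ e * (v i + 1)) : monomial v (1 : ZMod p) ∈ J := by
  classical
  have hq : 0 < p ^ e := pow_pos (Fact.out : p.Prime).pos e
  let w := u.mapRange (· / p ^ e) (Nat.zero_div _)
  let r := u.mapRange (· % p ^ e) (Nat.zero_mod _)
  have hr : ∀ i, r i < p ^ e := fun i => Nat.mod_lt _ hq
  have e1 : u = p ^ e • w + r := by
    ext i
    exact (Nat.div_add_mod _ _).symm
  have main : ∀ g ∈ Ideal.span {g | ∃ f ∈ J, g = f ^ p ^ e}, ∀ c, ∃ h ∈ J,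
      ∀ v, coeff v h = coeff (p ^ e • v + r) (g * c) := by
    intro g hg
    induction hg using Submodule.span_induction with
    | mem g hg =>
      obtain ⟨f, hf, rfl⟩ := hg
      intro c
      obtain ⟨h, hh⟩ := ex hq r c
      exact ⟨f * h, J.mul_mem_right _ hf, fun v => by rw [pw]; exact key hr f c h hh v⟩
    | zero => exact fun c => ⟨0, J.zero_mem, by simp⟩
    | add a b _ _ ha hb =>
      intro c
      obtain ⟨h, h1, h2⟩ := ha c
      obtain ⟨k, k1, k2⟩ := hb c
      exact ⟨h + k, J.add_mem h1 k1, fun v => by rw [add_mul, coeff_add, coeff_add, h2, k2]⟩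
    | smul a b _ hb =>
      intro c
      obtain ⟨h, h1, h2⟩ := hb (a * c)
      exact ⟨h, h1, fun v => by rw [h2, smul_eq_mul]; congr 1; ring⟩
  obtain ⟨k, k1, k2⟩ := main _ hu 1
  have e2 : k = monomial w 1 := by
    ext t
    rw [k2, mul_one, coeff_monomial, coeff_monomial, e1]
    refine if_congr ⟨fun e => ?_, fun e => by rw [e]⟩ rfl rfl
    ext i
    exact Nat.eq_of_mul_eq_mul_left hq (DFunLike.congr_fun (add_right_cancel e) i)
  have e3 : w ≤ v := fun i =>
    Nat.le_of_lt_succ ((Nat.div_lt_iff_lt_mul hq).2 (by rw [mul_comm]; exact h i))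
  obtain ⟨s, rfl⟩ := exists_add_of_le e3
  rw [← mul_one (1 : ZMod p), ← monomial_mul, ← e2]
  exact J.mul_mem_right _ k1

lemma low3 (e : ℕ) (J : Ideal (MvPolynomial σ (ZMod p))) {i j l : σ} (h1 : i ≠ j) (h2 : i ≠ l)
    (h3 : j ≠ l) {a b c a' b' c' : ℕ}
    (hu : X i ^ a * X j ^ b * X l ^ c ∈ Ideal.span {g | ∃ f ∈ J, g = f ^ p ^ e})
    (ha : a < p ^ e * (a' + 1)) (hb : b < p ^ e * (b' + 1)) (hc : c < p ^ e * (c' + 1)) :
    X i ^ a' * X j ^ b' * X l ^ c' ∈ J := by
  classical
  have hq : 0 < p ^ e := pow_pos (Fact.out : p.Prime).pos e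
  simp only [X_pow_eq_monomial, monomial_mul, mul_one] at hu ⊢
  refine low e J _ _ hu fun m => ?_
  simp only [Finsupp.add_apply, Finsupp.single_apply]
  by_cases e1 : i = m
  · subst e1; simpa [h1.symm, h2.symm] using ha
  by_cases e2 : j = m
  · subst e2; simpa [h1, h3.symm] using hb
  by_cases e3 : l = m
  · subst e3; simpa [h2, h3] using hc
  simpa [e1, e2, e3] using hq

end H52.FR
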