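import Mathlib

set_option autoImplicit false
open Finset

namespace Pool.Agent.H52.Feyn

noncomputable def W (b : Bool) (n : ℕ) (y : ℤ) : ℂ :=
  ∑ s : Fin (n + 1) → Bool, if s 0 = true ∧ ∑ i, (if s i then (1 : ℤ) else -1) = y ∧
    s (Fin.last n) = b then
    (-Complex.I) ^ (univ.filter (fun i : Fin n => s i.castSucc ≠ s i.succ)).card else 0

lemma W_succ (b : Bool) (n : ℕ) (y : ℤ) : W b (n + 1) y =
    W b n (y - if b then 1 else -1) - Complex.I * W (!b) n (y - if b then 1 else -1) := by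
  rw [W, ← (Fin.snocEquiv fun _ => Bool).sum_comp, Fintype.sum_prod_type, sum_comm, W, W, mul_sum,
    ← sum_sub_distrib]
  refine sum_congr rfl fun s _ => ?_
  have e0 : ∀ c : Bool, (Fin.snoc s c : Fin (n + 2) → Bool) 0 = s 0 := fun c =>
    Fin.snoc_castSucc (α := fun _ => Bool) c s 0
  have e1 : ∀ c : Bool, (univ.filter (fun i : Fin (n + 1) => (Fin.snoc s c : Fin (n + 2) → Bool)
      i.castSucc ≠ (Fin.snoc s c : Fin (n + 2) → Bool) i.succ)).card =
      (univ.filter (fun i : Fin n => s i.castSucc ≠ s i.succ)).card +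
        if s (Fin.last n) ≠ c then 1 else 0 := fun c => by
    simp only [card_filter, Fin.sum_univ_castSucc, Fin.succ_castSucc, Fin.snoc_castSucc,
      Fin.succ_last, Fin.snoc_last]
  simp only [Fin.snocEquiv_apply, e1]
  simp only [Fin.sum_univ_castSucc (n := n + 1), Fin.snoc_castSucc,
    Fin.snoc_last, e0, Fintype.sum_bool, eq_sub_iff_add_eq]
  cases b <;> cases h : s (Fin.last n) <;> simp [pow_succ] <;> split_ifs <;> ring

def AB : ℕ → ℤ → ℝ × ℝ
  | 0, y => (if y = 1 then 1 else 0, 0)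
  | n + 1, y => ((AB n (y - 1)).1 - (AB n (y - 1)).2, (AB n (y + 1)).1 + (AB n (y + 1)).2)

lemma W_eq (n : ℕ) : ∀ y, W true n y = (AB n y).1 ∧ W false n y = -Complex.I * (AB n y).2 := by
  induction n with
  | zero =>
    intro y
    have e : ∀ f : (Fin 1 → Bool) → ℂ, ∑ s, f s = f (fun _ => true) + f (fun _ => false) :=
      fun f => by rw [← (Equiv.funUnique (Fin 1) Bool).symm.sum_comp, Fintype.sum_bool]; rfl
    simp only [W, AB]
    rw [e, e]
    by_cases h : y = 1
    · simp [h]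
    · simp [h, Ne.symm h]
  | succ n ih =>
    intro y
    simp only [W_succ, AB, Bool.not_true, Bool.not_false, ih, if_true, Bool.false_eq_true,
      if_false, sub_neg_eq_add]
    push_cast
    constructor
    · linear_combination (AB n (y - 1)).2 * Complex.I_sq
    · ring

lemma amp (n : ℕ) (y : ℤ) : ‖∑ s ∈ univ.filter (fun s : Fin (n + 1) → Bool =>
      s 0 = true ∧ ∑ i, (if s i then (1 : ℤ) else -1) = y),
      (-Complex.I) ^ (univ.filter (fun i : Fin n => s i.castSucc ≠ s i.succ)).card‖ ^ 2 =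
    (AB n y).1 ^ 2 + (AB n y).2 ^ 2 := by
  have : ∑ s ∈ univ.filter (fun s : Fin (n + 1) → Bool =>
      s 0 = true ∧ ∑ i, (if s i then (1 : ℤ) else -1) = y),
      (-Complex.I) ^ (univ.filter (fun i : Fin n => s i.castSucc ≠ s i.succ)).card =
      W true n y + W false n y := by
    rw [sum_filter, W, W, ← sum_add_distrib]
    refine sum_congr rfl fun s _ => ?_
    cases s (Fin.last n) <;> simp
  rw [this, (W_eq n y).1, (W_eq n y).2, Complex.sq_norm, Complex.normSq_apply]
  simp; ring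

lemma mix (n : ℕ) : ∀ y : ℤ,
    ((n : ℝ) + 2 - y) * (AB n (y - 1)).1 + 2 * (y - 1) * (AB n (y - 1)).2 =
      (n - y) * (AB n (y + 1)).1 ∧
    ((n : ℝ) + y) * ((AB n (y - 1)).2 - (AB n (y + 1)).2) = 2 * y * (AB n (y + 1)).1 := by
  induction n with
  | zero =>
    intro y
    simp only [AB]
    constructor
    · split_ifs with h1 h2 h2
      · omega
      · simp [show y = 2 by omega]
      · simp [show y = 0 by omega]
      · simp
    · split_ifs with h
      · simp [show y = 0 by omega]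
      · simp
  | succ n ih =>
    intro y
    obtain ⟨a1, a2⟩ := ih (y - 1)
    obtain ⟨b1, b2⟩ := ih (y + 1)
    simp only [AB, sub_add_cancel, add_sub_cancel_right] at *
    push_cast at *
    exact ⟨by linear_combination a1 - a2, by linear_combination b1 + b2⟩

lemma supp (n : ℕ) : ∀ y, AB n y = 0 ∨ ∃ k ≤ n + 1, y = n + 1 - 2 * (k : ℕ) := by
  induction n with
  | zero =>
    intro y
    by_cases h : y = 1
    · exact Or.inr ⟨0, by simp, by simp [h]⟩
    · exact Or.inl (by simp [AB, h])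
  | succ n ih =>
    intro y
    rcases ih (y - 1) with h1 | ⟨k, hk, h1⟩
    · rcases ih (y + 1) with h2 | ⟨k, hk, h2⟩
      · exact Or.inl (by simp [AB, h1, h2])
      · exact Or.inr ⟨k + 1, by omega, by push_cast; omega⟩
    · exact Or.inr ⟨k, by omega, by push_cast; omega⟩

lemma edge (n : ℕ) : AB n (n + 1) = (1, 0) := by
  induction n with
  | zero => simp [AB]
  | succ n ih =>
    have : AB n (n + 1 + 1 + 1) = 0 := (supp n _).resolve_right (by rintro ⟨k, -, h⟩; omega)
    simp [AB, ih, this]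

lemma in1 {n x r e w C : ℝ} (hr : r ^ 2 + 2 * r = 1) (r0 : 0.41 < r) (r1 : r < 0.42) (hC : 1 ≤ C)
    (n0 : 100 ≤ n) (hx : x ≤ n) (x0 : 0.69 * n ≤ x) (hw' : w = x - (r + 1) / 2 * n) (hw : -C ≤ w)
    (e0 : 0 ≤ e) (e1 : 40 * C ≤ n * e) :
    (n - x + 1) * (n + x) < (x - 1) * (2 * x - (n + x) * (r - e)) := by
  have id : (x - 1) * (2 * x - (n + x) * (r - e)) - (n - x + 1) * (n + x) =
      w * ((3 - r) * x + (r + 1) * n) + (x - 1) * (n + x) * e - (2 * x - (n + x) * r) -
        (n + x) := by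
    rw [hw']; linear_combination (n ^ 2 / 2 - n * x / 2) * hr
  clear hw' hr
  have u1 : 0 ≤ (3 - r) * x + (r + 1) * n :=
    add_nonneg (mul_nonneg (by linarith) (by linarith)) (mul_nonneg (by linarith) (by linarith))
  have u2 : (3 - r) * x + (r + 1) * n ≤ 3 * n + 2 * n :=
    add_le_add (mul_le_mul (by linarith) hx (by linarith) (by linarith))
      (mul_le_mul_of_nonneg_right (by linarith) (by linarith))
  have t1 := mul_le_mul_of_nonneg_right hw u1
  have t1' := mul_le_mul_of_nonneg_left u2 (show 0 ≤ C by linarith)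
  have u3 : 0.6 * n * n ≤ (x - 1) * (n + x) :=
    mul_le_mul (by linarith) (by linarith) (by linarith) (by linarith)
  have t2 := mul_le_mul_of_nonneg_right u3 e0
  have t3 := mul_le_mul_of_nonneg_left e1 (show 0 ≤ n by linarith)
  have t4 := mul_le_mul_of_nonneg_left hC (show 0 ≤ n by linarith)
  have t5 : 0 ≤ (n + x) * r := mul_nonneg (by linarith) (by linarith)
  linarith

lemma in2 {n x r e w C : ℝ} (hr : r ^ 2 + 2 * r = 1) (r0 : 0.41 < r) (r1 : r < 0.42) (hC : 1 ≤ C)
    (x0 : 0 ≤ x) (hw' : w = x - (r + 1) / 2 * n) (hw : -C ≤ w)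
    (e0 : 0 ≤ e) (e1 : 40 * C ≤ n * e) : (n + x) * (r - e) ≤ x := by
  have id : x - (n + x) * (r - e) = (1 - r) * w + (n + x) * e := by
    rw [hw']; linear_combination (-n / 2) * hr
  have t1 := mul_le_mul_of_nonneg_left hw (show 0 ≤ 1 - r by linarith)
  have t2 : 0 ≤ r * C := mul_nonneg (by linarith) (by linarith)
  have t3 := mul_nonneg x0 e0
  linarith

lemma in3 {n x r e f w C : ℝ} (hr : r ^ 2 + 2 * r = 1) (r0 : 0.41 < r) (r1 : r < 0.42) (hC : 1 ≤ C)
    (n0 : 100 ≤ n) (hx : x ≤ n) (x0 : 0.69 * n ≤ x) (hw' : w = x - (r + 1) / 2 * n) (hw : -C ≤ w)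
    (f0 : 0 ≤ f) (fe : f ≤ e) (e3 : e ≤ 0.05) (e2 : 4 * n * e ^ 2 ≤ 1)
    (hc : 10 ≤ w ∨ 40 * C ≤ n * (e - f)) : (n - x) * (n + x) * (r - f) ≤
      (2 * x - (n + x) * (r - e)) * (2 * (x - 1) * (r - f) - (n - x + 2)) := by
  have id : (2 * x - (n + x) * (r - e)) * (2 * (x - 1) * (r - f) - (n - x + 2)) -
      (n - x) * (n + x) * (r - f) = x * w * (8 * r - 4 * (1 - r) * f) +
        (e - f) * ((n + x) * ((2 * r + 1) * x - n)) - 2 * x * (n + x) * e * f -
        (2 * x - (n + x) * (r - e)) * (2 * (r - f) + 2) := by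
    rw [hw']
    linear_combination (-2 * x ^ 2 + 2 * n * x + 2 * f * n * x) * hr
  clear hw' hr
  have u0 : 0 ≤ (n + x) * (r - e) := mul_nonneg (by linarith) (by linarith)
  have t1 : (2 * x - (n + x) * (r - e)) * (2 * (r - f) + 2) ≤ 2 * n * 3 :=
    mul_le_mul (by linarith) (by linarith) (by linarith) (by linarith)
  have u1 : 2 * x * (n + x) ≤ 2 * n * (2 * n) :=
    mul_le_mul (by linarith) (by linarith) (by linarith) (by linarith)
  have u2 : e * f ≤ e * e := mul_le_mul_of_nonneg_left fe (by linarith)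
  have u3 := mul_le_mul u1 u2 (mul_nonneg (by linarith) f0) (by positivity)
  have u4 := mul_le_mul_of_nonneg_left e2 (show 0 ≤ n by linarith)
  have u5 : 1.82 * (0.69 * n) ≤ (2 * r + 1) * x :=
    mul_le_mul (by linarith) x0 (by linarith) (by linarith)
  have t3 : 1.6 * n * (0.25 * n) ≤ (n + x) * ((2 * r + 1) * x - n) :=
    mul_le_mul (by linarith) (by linarith) (by linarith) (by linarith)
  have u6 : (1 - r) * f ≤ 1 * 0.05 := mul_le_mul (by linarith) (by linarith) f0 (by linarith)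
  have u7 : 0 ≤ (1 - r) * f := mul_nonneg (by linarith) f0
  have t6 := mul_le_mul_of_nonneg_left t3 (show 0 ≤ e - f by linarith)
  rcases hc with hc | hc
  · have v1 : 0.69 * n * 10 ≤ x * w := mul_le_mul x0 hc (by linarith) (by linarith)
    have v2 : 0.69 * n * 10 * 3 ≤ x * w * (8 * r - 4 * (1 - r) * f) :=
      mul_le_mul v1 (by linarith) (by linarith) (by linarith)
    have v3 : 0 ≤ (e - f) * (1.6 * n * (0.25 * n)) := mul_nonneg (by linarith) (by positivity)
    linarith
  · have v0 := mul_le_mul_of_nonneg_left hw (show 0 ≤ x by linarith)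
    have v1 := mul_le_mul_of_nonneg_right hx (show 0 ≤ C by linarith)
    have v2 := mul_le_mul_of_nonneg_right (show -(n * C) ≤ x * w by linarith)
      (show 0 ≤ 8 * r - 4 * (1 - r) * f by linarith)
    have v3 := mul_le_mul_of_nonneg_left (show 8 * r - 4 * (1 - r) * f ≤ 4 by linarith)
      (show 0 ≤ n * C by positivity)
    have v4 := mul_le_mul_of_nonneg_left hc (show 0 ≤ n by linarith)
    have t4 := mul_le_mul_of_nonneg_left hC (show 0 ≤ n by linarith)
    linarith

/-- one step of the barrier argument -/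
lemma step {n x r e f a b a' b' C : ℝ} (hr : r ^ 2 + 2 * r = 1) (r0 : 0.41 < r) (r1 : r < 0.42)
    (hC : 1 ≤ C) (hn : 100 * C ≤ n) (hx : x ≤ n) (hw : -C ≤ x - (r + 1) / 2 * n) (f0 : 0 ≤ f)
    (fe : f ≤ e) (e1 : 40 * C ≤ n * e) (e2 : 4 * n * e ^ 2 ≤ 1)
    (hc : 10 ≤ x - (r + 1) / 2 * n ∨ 40 * C ≤ n * (e - f))
    (a0 : 0 < a) (hb : b ≤ (r - e) * a)
    (h1 : (n + x) * (b' + b) = 2 * x * a)
    (h2 : (n - x + 2) * a' + (n - x) * a = 2 * (x - 1) * b') :
    a < a' ∧ b ≤ b' ∧ b' ≤ (r - f) * a' := by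
  have n0 : 100 ≤ n := by linarith
  have x0 : 0.69 * n ≤ x := by
    have := mul_le_mul_of_nonneg_right r0.le (show 0 ≤ n by linarith)
    linarith
  have e0 : 0 ≤ e := f0.trans fe
  have e3 : e ≤ 0.05 := by
    have := mul_le_mul_of_nonneg_right n0 (sq_nonneg e)
    exact abs_le_of_sq_le_sq' (by linarith) (by norm_num) |>.2
  have nx : 0 < n + x := by linarith
  have hb2 := mul_le_mul_of_nonneg_left hb nx.le
  have hb' : (2 * x - (n + x) * (r - e)) * a ≤ (n + x) * b' := by linarith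
  refine ⟨?_, ?_, ?_⟩
  · have k1 := mul_lt_mul_of_pos_right (in1 hr r0 r1 hC n0 hx x0 rfl hw e0 e1) a0
    have k2 : (n - x + 1) * a < (x - 1) * b' := by
      apply lt_of_mul_lt_mul_left _ nx.le
      linarith [mul_le_mul_of_nonneg_left hb' (show 0 ≤ x - 1 by linarith)]
    apply lt_of_mul_lt_mul_left _ (show 0 ≤ n - x + 2 by linarith)
    linarith
  · have k1 := mul_le_mul_of_nonneg_right (in2 hr r0 r1 hC (by linarith) rfl hw e0 e1) a0.le
    apply le_of_mul_le_mul_left _ nx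
    linarith
  · have k0 : 0 ≤ 2 * (x - 1) * (r - f) - (n - x + 2) := by
      have : (0.68 * n) * 0.36 ≤ (x - 1) * (r - f) :=
        mul_le_mul (by linarith) (by linarith) (by linarith) (by linarith)
      linarith
    have k1 := mul_le_mul_of_nonneg_right (in3 hr r0 r1 hC n0 hx x0 rfl hw f0 fe e3 e2 hc) a0.le
    have k2 : (n - x) * (r - f) * a ≤ b' * (2 * (x - 1) * (r - f) - (n - x + 2)) := by
      apply le_of_mul_le_mul_left _ nx
      linarith [mul_le_mul_of_nonneg_right hb' k0]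
    apply le_of_mul_le_mul_left _ (show 0 < n - x + 2 by linarith)
    linear_combination k2 - (r - f) * h2

theorem incr {r C : ℝ} (hr : r ^ 2 + 2 * r = 1) (r0 : 0.41 < r) (r1 : r < 0.42) (hC : 1 ≤ C) {n : ℕ}
    (hn : 4 * (20 * C * (C + 14)) ^ 2 ≤ n) (k : ℕ) (hk : -C ≤ n - 2 * k - (r + 1) / 2 * n) :
    (AB n (n + 1 - 2 * k)).1 ^ 2 + (AB n (n + 1 - 2 * k)).2 ^ 2 <
      (AB n (n + 1 - 2 * (k + 1 : ℕ))).1 ^ 2 + (AB n (n + 1 - 2 * (k + 1 : ℕ))).2 ^ 2 := by
  set a : ℕ → ℝ := fun k => (-1) ^ k * (AB n (n + 1 - 2 * k)).1 with ha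
  set b : ℕ → ℝ := fun k => (-1) ^ (k + 1) * (AB n (n + 1 - 2 * k)).2 with hb
  set m : ℕ → ℝ := fun k => min (n - 2 * k - (r + 1) / 2 * n + C + 2) (C + 14) with hm
  have c0 : 300 * C ≤ 20 * C * (C + 14) := by nlinarith
  have c1 : 100 * C ≤ (n : ℝ) := by
    generalize 20 * C * (C + 14) = T at *
    nlinarith
  have n0 : (0 : ℝ) < n := by linarith
  have S : ∀ k : ℕ, -C ≤ n - 2 * k - (r + 1) / 2 * n → 0 < a k →
      b k ≤ (r - 20 * C * m k / n) * a k →
      a k < a (k + 1) ∧ b k ≤ b (k + 1) ∧ b (k + 1) ≤ (r - 20 * C * m (k + 1) / n) * a (k + 1) := by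
    intro k hk a0 hb'
    obtain ⟨m1, m2⟩ := mix n (n - 2 * k)
    have m3 : 2 ≤ m k := le_min (by linarith) (by linarith)
    have m4 : m k ≤ C + 14 := min_le_right _ _
    have m5 : 0 ≤ m (k + 1) := le_min (by push_cast; linarith) (by linarith)
    have m6 : m (k + 1) ≤ m k := min_le_min (by push_cast; linarith) le_rfl
    have k0 : (0 : ℝ) ≤ k := k.cast_nonneg
    refine step (x := n - 2 * k) hr r0 r1 hC c1 (by linarith) hk (by positivity) (by gcongr)
      (by rw [mul_div_cancel₀ _ n0.ne']; nlinarith) ?_ ?_ a0 hb' ?_ ?_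
    · rw [div_pow, show 4 * (n : ℝ) * ((20 * C * m k) ^ 2 / n ^ 2) = 4 * (20 * C * m k) ^ 2 / n by
        field_simp, div_le_one n0]
      refine le_trans ?_ hn
      gcongr
    · by_cases h : 10 ≤ n - 2 * k - (r + 1) / 2 * n
      · exact Or.inl h
      · refine Or.inr (le_of_eq ?_)
        simp only [hm]
        rw [min_eq_left (by linarith), min_eq_left (by push_cast; linarith)]
        push_cast; field_simp; ring
    · simp only [ha, hb]
      rw [show (n : ℤ) + 1 - 2 * (k + 1 : ℕ) = n - 2 * k - 1 by push_cast; ring,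
        show (n : ℤ) + 1 - 2 * k = n - 2 * k + 1 by ring]
      push_cast at m2 ⊢
      linear_combination (-1) ^ k * m2
    · simp only [ha, hb]
      rw [show (n : ℤ) + 1 - 2 * (k + 1 : ℕ) = n - 2 * k - 1 by push_cast; ring,
        show (n : ℤ) + 1 - 2 * k = n - 2 * k + 1 by ring]
      push_cast at m1 ⊢
      linear_combination -(-1) ^ k * m1
  have I : ∀ k : ℕ, -C ≤ n - 2 * k - (r + 1) / 2 * n →
      0 < a k ∧ 0 ≤ b k ∧ b k ≤ (r - 20 * C * m k / n) * a k := by
    intro k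
    induction k with
    | zero =>
      intro _
      have m4 : m 0 ≤ C + 14 := min_le_right _ _
      have : 20 * C * m 0 / n ≤ 0.4 := by
        rw [div_le_iff₀ n0]
        have : 20 * C * m 0 ≤ 20 * C * (C + 14) := by gcongr
        have : 1 ≤ 20 * C * (C + 14) := by nlinarith
        nlinarith
      simp only [ha, hb, Nat.cast_zero, mul_zero, sub_zero, edge]
      norm_num
      linarith
    | succ k ih =>
      intro h
      have h' : -C ≤ n - 2 * k - (r + 1) / 2 * n := by push_cast at h; linarith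
      obtain ⟨i1, i2, i3⟩ := ih h'
      obtain ⟨j1, j2, j3⟩ := S k h' i1 i3
      exact ⟨i1.trans j1, i2.trans j2, j3⟩
  obtain ⟨i1, i2, i3⟩ := I k hk
  obtain ⟨j1, j2, -⟩ := S k hk i1 i3
  have q : ∀ j : ℕ, a j ^ 2 + b j ^ 2 =
      (AB n (n + 1 - 2 * j)).1 ^ 2 + (AB n (n + 1 - 2 * j)).2 ^ 2 := fun j => by
    have : ∀ i : ℕ, ((-1 : ℝ) ^ i) ^ 2 = 1 := fun i => by
      rw [← pow_mul, mul_comm, pow_mul, neg_one_sq, one_pow]
    simp only [ha, hb, mul_pow, this, one_mul]
  rw [← q, ← q]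
  have := pow_lt_pow_left₀ j1 i1.le two_ne_zero
  have := pow_le_pow_left₀ i2 j2 2
  linarith

end Pool.Agent.H52.Feyn
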