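import Mathlib

set_option autoImplicit false

namespace Pool.Agent.H52.GP

open Finset Filter Topology Classical

/-- Working form of progression-freeness. -/
def Free (A : Set ℕ) : Prop := ∀ a ∈ A, ∀ b ∈ A, ∀ c ∈ A, a * c = b ^ 2 → a = c

/-- Counting function. -/
noncomputable def cnt (A : Set ℕ) (N : ℕ) : ℕ := ((Icc 1 N).filter (· ∈ A)).card

theorem decomp (a y c : ℕ) (ha : 0 < a) (h : a * c = y ^ 2) :
    ∃ k u v : ℕ, a = k * u ^ 2 ∧ y = k * (u * v) ∧ c = k * v ^ 2 := by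
  obtain ⟨g, u, v, hg, huv, rfl, rfl⟩ := Nat.exists_coprime' (Nat.gcd_pos_of_pos_left y ha)
  have hu : 0 < u := Nat.pos_of_mul_pos_right ha |> fun h => by
    rcases Nat.eq_zero_or_pos u with rfl | h' <;> simp_all
  have h1 : u * c = g * v ^ 2 := Nat.eq_of_mul_eq_mul_left hg (by nlinarith)
  obtain ⟨k, rfl⟩ : u ∣ g := (Nat.Coprime.pow_right 2 huv).dvd_of_dvd_mul_right ⟨c, h1.symm⟩
  exact ⟨k, u, v, by ring, by ring, Nat.eq_of_mul_eq_mul_left hu (by rw [h1]; ring)⟩

theorem exP (k : ℕ) : ∃ P : ℕ, 0 < P ∧ (∀ p, p.Prime → p ≤ 2 * k + 2 → p ∣ P) ∧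
    P ^ 2 ≤ 4 * (2 * k + 1) * P.totient ^ 2 := by
  induction k with
  | zero => exact ⟨2, two_pos, fun p hp h => by
      rw [le_antisymm h hp.two_le], by simp⟩
  | succ k ih =>
    obtain ⟨P, h0, h1, h2⟩ := ih
    have ev : ∀ p : ℕ, p.Prime → p ≠ 2 * (k + 1) + 2 := fun p hp e => by
      have := hp.eq_two_or_odd
      omega
    by_cases hp : (2 * k + 3).Prime
    · refine ⟨P * (2 * k + 3), by positivity, fun p hq h => ?_, ?_⟩
      · by_cases e : p = 2 * k + 3
        · exact e ▸ Dvd.intro_left _ rfl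
        · exact (h1 p hq (by have := ev p hq; omega)).mul_right _
      · have h3 := Nat.totient_super_multiplicative P (2 * k + 3)
        rw [Nat.totient_prime hp, show 2 * k + 3 - 1 = 2 * k + 2 by omega] at h3
        have h4 := Nat.pow_le_pow_left h3 2
        calc (P * (2 * k + 3)) ^ 2 = P ^ 2 * (2 * k + 3) ^ 2 := by ring
          _ ≤ 4 * (2 * k + 1) * P.totient ^ 2 * (2 * k + 3) ^ 2 := Nat.mul_le_mul_right _ h2
          _ = 4 * (2 * k + 3) * P.totient ^ 2 * ((2 * k + 1) * (2 * k + 3)) := by ring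
          _ ≤ 4 * (2 * k + 3) * P.totient ^ 2 * (2 * k + 2) ^ 2 :=
            Nat.mul_le_mul_left _ (by nlinarith)
          _ = 4 * (2 * (k + 1) + 1) * (P.totient * (2 * k + 2)) ^ 2 := by ring
          _ ≤ _ := Nat.mul_le_mul_left _ h4
    · refine ⟨P, h0, fun p hq h => h1 p hq ?_, h2.trans (by gcongr; omega)⟩
      have := ev p hq
      have : p ≠ 2 * k + 3 := fun e => hp (e ▸ hq)
      omega

theorem sq_card (U N : ℕ) (hU : 0 < U) :
    (((Icc 1 N).filter fun x => ∃ u, U < u ∧ u ^ 2 ∣ x).card : ℝ) ≤ N / U := by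
  have h1 : ((Icc 1 N).filter fun x => ∃ u, U < u ∧ u ^ 2 ∣ x) ⊆
      (Ioc U (U + N)).biUnion fun u => (Ioc 0 N).filter (u ^ 2 ∣ ·) := by
    intro x hx
    simp only [mem_filter, mem_Icc, mem_biUnion, mem_Ioc] at hx ⊢
    obtain ⟨⟨h1, h2⟩, u, h3, h4⟩ := hx
    have := Nat.le_of_dvd h1 h4
    exact ⟨u, ⟨h3, by nlinarith⟩, ⟨h1, h2⟩, h4⟩
  have h2 := (card_le_card h1).trans card_biUnion_le
  simp only [Nat.Ioc_filter_dvd_card_eq_div] at h2
  have h3 := sum_Ioc_inv_sq_le_sub (α := ℝ) hU.ne' (Nat.le_add_right U N)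
  calc _ ≤ ((∑ u ∈ Ioc U (U + N), N / u ^ 2 : ℕ) : ℝ) := by exact_mod_cast h2
    _ ≤ ∑ u ∈ Ioc U (U + N), (N : ℝ) * ((u : ℝ) ^ 2)⁻¹ := by
      push_cast
      refine sum_le_sum fun u _ => ?_
      have := Nat.cast_div_le (α := ℝ) (m := N) (n := u ^ 2)
      rwa [Nat.cast_pow, div_eq_mul_inv (N : ℝ)] at this
    _ ≤ N / U := by
      rw [← mul_sum, div_eq_mul_inv]
      gcongr
      have : (0 : ℝ) ≤ ((U + N : ℕ) : ℝ)⁻¹ := by positivity
      linarith

theorem swap (A : Set ℕ) (hA : Free A) (U N J : ℕ) (hU : 0 < U) (hJ : J ≤ U) (G W : Finset ℕ)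
    (hG : G ⊆ Icc 1 J) (hF : Free G)
    (hW : ∀ b ∈ W, (∀ u, 0 < u → u ≤ U → b.Coprime u) ∧ J * b ≤ N ∧ N < (J + 1) * b ∧
      ((Icc 1 J).filter fun j => b * j ∈ A).card + 1 ≤ G.card) :
    ∃ B : Finset ℕ, B ⊆ Icc 1 N ∧ Free B ∧ (cnt A N : ℝ) + W.card - N / U ≤ B.card := by
  have uniq : ∀ b ∈ W, ∀ b' ∈ W, ∀ j ∈ G, b ∣ b' * j → b = b' := by
    intro b hb b' hb' j hj h
    have hj' := mem_Icc.1 (hG hj)
    obtain ⟨t, rfl⟩ := ((hW b hb).1 j hj'.1 (by omega)).dvd_of_dvd_mul_right h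
    obtain ⟨-, h1, h2, -⟩ := hW b hb
    obtain ⟨-, h3, h4, -⟩ := hW _ hb'
    rcases t with _ | _ | t
    · simp at h4
    · simp
    · nlinarith
  have pos : ∀ b ∈ W, 0 < b := fun b hb => by
    have := (hW b hb).2.2.1
    rcases b with _ | b <;> simp_all
  let A' := (Icc 1 N).filter fun x => x ∈ A ∧ ∀ b ∈ W, ¬ b ∣ x
  let D := (W ×ˢ G).image fun p : ℕ × ℕ => p.1 * p.2
  let S := (Icc 1 N).filter fun x => ∃ u, U < u ∧ u ^ 2 ∣ x
  have sub : A' ∪ D ⊆ Icc 1 N := by
    refine union_subset (filter_subset _ _) fun x hx => ?_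
    obtain ⟨⟨b, j⟩, hp, rfl⟩ := mem_image.1 hx
    obtain ⟨hb, hj⟩ := mem_product.1 hp
    have hj' := mem_Icc.1 (hG hj)
    have := (hW b hb).2.1
    have := pos b hb
    exact mem_Icc.2 ⟨by nlinarith, by nlinarith⟩
  refine ⟨(A' ∪ D) \ S, sdiff_subset.trans sub, ?_, ?_⟩
  · intro a ha y hy c hc h
    obtain ⟨ha1, ha2⟩ := mem_sdiff.1 ha
    obtain ⟨hy1, -⟩ := mem_sdiff.1 hy
    obtain ⟨hc1, hc2⟩ := mem_sdiff.1 hc
    have pa := (mem_Icc.1 (sub ha1)).1
    have pc := (mem_Icc.1 (sub hc1)).1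
    obtain ⟨k, u, v, rfl, rfl, rfl⟩ := decomp a y c pa h
    have hu : u ≤ U := not_lt.1 fun h => ha2 (mem_filter.2 ⟨sub ha1, u, h, Dvd.intro_left _ rfl⟩)
    have hv : v ≤ U := not_lt.1 fun h => hc2 (mem_filter.2 ⟨sub hc1, v, h, Dvd.intro_left _ rfl⟩)
    have u0 : 0 < u := by rcases u with _ | u <;> simp_all
    have v0 : 0 < v := by rcases v with _ | v <;> simp_all
    by_cases hk : ∃ b ∈ W, b ∣ k
    · obtain ⟨b, hb, t, rfl⟩ := hk
      have inG : ∀ z, b * t * z ∈ A' ∪ D → t * z ∈ G := by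
        intro z hz
        rcases mem_union.1 hz with hz | hz
        · exact absurd ⟨t * z, by ring⟩ ((mem_filter.1 hz).2.2 b hb)
        · obtain ⟨⟨b', j⟩, hp, e⟩ := mem_image.1 hz
          obtain ⟨hb', hj⟩ := mem_product.1 hp
          obtain rfl := uniq b hb b' hb' j hj ⟨t * z, by rw [e]; ring⟩
          rwa [← Nat.eq_of_mul_eq_mul_left (pos b hb) (e.trans (mul_assoc _ _ _))]
      have := hF _ (inG _ ha1) _ (inG _ hy1) _ (inG _ hc1) (by ring)
      rw [mul_assoc, mul_assoc, this]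
    · have inA : ∀ z, (∀ b ∈ W, b.Coprime z) → k * z ∈ A' ∪ D → k * z ∈ A := by
        intro z hz h
        rcases mem_union.1 h with h | h
        · exact (mem_filter.1 h).2.1
        · obtain ⟨⟨b, j⟩, hp, e⟩ := mem_image.1 h
          have hb := (mem_product.1 hp).1
          exact absurd ⟨b, hb, (hz b hb).dvd_of_dvd_mul_right ⟨j, e.symm⟩⟩ hk
      exact hA _ (inA _ (fun b hb => ((hW b hb).1 u u0 hu).pow_right 2) ha1) _
        (inA _ (fun b hb => ((hW b hb).1 u u0 hu).mul_right ((hW b hb).1 v v0 hv)) hy1) _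
        (inA _ (fun b hb => ((hW b hb).1 v v0 hv).pow_right 2) hc1) h
  · have c1 : D.card = W.card * G.card := by
      rw [card_image_of_injOn, card_product]
      rintro ⟨b, j⟩ hp ⟨b', j'⟩ hp' (e : b * j = b' * j')
      obtain ⟨hb, hj⟩ := mem_product.1 hp
      obtain ⟨hb', hj'⟩ := mem_product.1 hp'
      obtain rfl := uniq b hb b' hb' j' hj' ⟨j, e.symm⟩
      rw [Nat.eq_of_mul_eq_mul_left (pos b hb) e]
    have c2 : (A' ∪ D).card = A'.card + D.card := by
      refine card_union_of_disjoint (disjoint_left.2 fun x hx hx' => ?_)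
      obtain ⟨⟨b, j⟩, hp, rfl⟩ := mem_image.1 hx'
      exact (mem_filter.1 hx).2.2 b (mem_product.1 hp).1 (Dvd.intro _ rfl)
    have c3 : ((Icc 1 N).filter (· ∈ A)) ⊆ A' ∪ W.biUnion fun b =>
        ((Icc 1 J).filter fun j => b * j ∈ A).image (b * ·) := by
      intro x hx
      obtain ⟨hx1, hx2⟩ := mem_filter.1 hx
      by_cases h : ∃ b ∈ W, b ∣ x
      · obtain ⟨b, hb, j, rfl⟩ := h
        have h1 := mem_Icc.1 hx1
        have h2 := (hW b hb).2.2.1
        refine mem_union_right _ (mem_biUnion.2 ⟨b, hb, mem_image.2 ⟨j, mem_filter.2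
          ⟨mem_Icc.2 ⟨?_, ?_⟩, hx2⟩, rfl⟩⟩)
        · rcases j with _ | j <;> simp_all
        · by_contra hj
          nlinarith [not_le.1 hj]
      · exact mem_union_left _ (mem_filter.2 ⟨hx1, hx2, fun b hb hd => h ⟨b, hb, hd⟩⟩)
    have c4 := (card_le_card c3).trans (card_union_le _ _)
    have c5 : (W.biUnion fun b => ((Icc 1 J).filter fun j => b * j ∈ A).image (b * ·)).card +
        W.card ≤ W.card * G.card := by
      calc _ ≤ ∑ b ∈ W, ((Icc 1 J).filter fun j => b * j ∈ A).card + ∑ b ∈ W, 1 := by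
            rw [← card_eq_sum_ones]
            exact Nat.add_le_add_right (card_biUnion_le.trans (sum_le_sum fun b _ => card_image_le)) _
        _ ≤ ∑ b ∈ W, G.card := by
            rw [← sum_add_distrib]
            exact sum_le_sum fun b hb => (hW b hb).2.2.2
        _ = _ := by simp
    have c6 := le_card_sdiff S (A' ∪ D)
    have c7 : cnt A N + W.card ≤ ((A' ∪ D) \ S).card + S.card := by
      unfold cnt
      omega
    have c8 := sq_card U N hU
    have c9 : (cnt A N : ℝ) + W.card ≤ ((A' ∪ D) \ S).card + S.card := by exact_mod_cast c7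
    linarith

theorem win (P m M : ℕ) : ((Ico M (M + m * P)).filter (P.Coprime ·)).card = m * P.totient := by
  induction m with
  | zero => simp
  | succ m ih =>
    rw [← Ico_union_Ico_eq_Ico (b := M + m * P) (by omega) (by nlinarith), filter_union,
      card_union_of_disjoint (disjoint_filter_filter (Ico_disjoint_Ico_consecutive _ _ _)), ih,
      show M + (m + 1) * P = M + m * P + P by ring, Nat.filter_coprime_Ico_eq_totient]
    ring

theorem step1 (A : Set ℕ) (hA : Free A) (M0 : ℕ) : ∃ N, M0 ≤ N ∧ ∃ B : Finset ℕ, B ⊆ Icc 1 N ∧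
    Free B ∧ (cnt A N : ℝ) + N / 2000000 ≤ B.card := by
  obtain ⟨P, h0, h1, h2⟩ := exP 780000
  have h3 : P ≤ 2498 * P.totient := by
    apply (Nat.pow_le_pow_iff_left two_ne_zero).1
    calc _ ≤ _ := h2
      _ = _ := by ring
  obtain ⟨m, hm⟩ : ∃ m, m = M0 + 1 := ⟨_, rfl⟩
  obtain ⟨Q, hQ⟩ : ∃ Q, Q = m * P := ⟨_, rfl⟩
  have hQ0 : M0 + 1 ≤ Q := by nlinarith
  have hw := win P m (12 * Q)
  rw [← hQ] at hw
  set W := (Ico (12 * Q) (12 * Q + Q)).filter (P.Coprime ·) with hW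
  have hwQ : (Q : ℝ) ≤ 2498 * W.card := by
    have : Q ≤ 2498 * W.card := by
      rw [hw, hQ]
      nlinarith
    exact_mod_cast this
  have cop : ∀ b ∈ W, ∀ u, 0 < u → u ≤ 1560001 → b.Coprime u := by
    intro b hb u u0 hu
    refine Nat.Coprime.symm (Nat.coprime_of_dvd fun p hp hpu hpb => ?_)
    have := Nat.dvd_gcd (h1 p hp ((Nat.le_of_dvd u0 hpu).trans (by omega))) hpb
    rw [(mem_filter.1 hb).2] at this
    exact hp.one_lt.ne' (Nat.dvd_one.1 this)
  have rng : ∀ b ∈ W, 12 * Q ≤ b ∧ b < 12 * Q + Q := fun b hb => mem_Ico.1 (mem_filter.1 hb).1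
  have hs := card_filter_add_card_filter_not (s := W) fun b => b * 1 ∈ A ∧ b * 2 ∈ A ∧ b * 3 ∈ A
  set W1 := W.filter fun b => b * 1 ∈ A ∧ b * 2 ∈ A ∧ b * 3 ∈ A
  set W2 := W.filter fun b => ¬ (b * 1 ∈ A ∧ b * 2 ∈ A ∧ b * 3 ∈ A)
  have fin : ∀ (N w : ℕ), N ≤ 156 * Q → W.card ≤ 2 * w →
      (N : ℝ) / 2000000 ≤ w - N / (1560001 : ℕ) := by
    intro N w a b
    have a' : (N : ℝ) ≤ 156 * Q := by exact_mod_cast a
    have b' : (W.card : ℝ) ≤ 2 * w := by exact_mod_cast b
    have : (0 : ℝ) ≤ N := Nat.cast_nonneg N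
    push_cast
    linarith
  by_cases hc : W2.card ≤ W1.card
  · obtain ⟨B, b1, b2, b3⟩ := swap A hA 1560001 (156 * Q - 1) 12 (by norm_num) (by norm_num)
      {1, 2, 5, 6, 7, 8, 9, 10, 11, 12} W1 (by decide) (by
        simp only [Free, mem_coe]
        decide) (by
      intro b hb
      obtain ⟨hb1, a1, a2, a3⟩ := mem_filter.1 hb
      have := rng b hb1
      refine ⟨cop b hb1, by omega, by omega, ?_⟩
      have n4 : b * 4 ∉ A := fun h => by
        have := hA _ a1 _ a2 _ h (by ring)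
        omega
      have n9 : b * 9 ∉ A := fun h => by
        have := hA _ a1 _ a3 _ h (by ring)
        omega
      have key : ∀ e ∈ ({6, 12} : Finset ℕ), b * e ∉ A →
          ((Icc 1 12).filter fun j => b * j ∈ A).card ≤ 9 := by
        intro e he hn
        have : ((Icc 1 12).filter fun j => b * j ∈ A) ⊆ Icc 1 12 \ {4, 9, e} := by
          intro j hj
          obtain ⟨j1, j2⟩ := mem_filter.1 hj
          refine mem_sdiff.2 ⟨j1, fun h => ?_⟩
          simp only [mem_insert, mem_singleton] at h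
          rcases h with rfl | rfl | rfl <;> contradiction
        refine (card_le_card this).trans ?_
        clear this hn
        revert e
        decide
      have : ((Icc 1 12).filter fun j => b * j ∈ A).card ≤ 9 := by
        by_cases h6 : b * 6 ∈ A
        · refine key 12 (by simp) fun h => ?_
          have := hA _ a3 _ h6 _ h (by ring)
          omega
        · exact key 6 (by simp) h6
      exact Nat.succ_le_succ this)
    have := fin (156 * Q - 1) W1.card (by omega) (by omega)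
    exact ⟨156 * Q - 1, by omega, B, b1, b2, by linarith⟩
  · obtain ⟨B, b1, b2, b3⟩ := swap A hA 1560001 (48 * Q - 1) 3 (by norm_num) (by norm_num)
      {1, 2, 3} W2 (by decide) (by
        simp only [Free, mem_coe]
        decide) (by
      intro b hb
      obtain ⟨hb1, a⟩ := mem_filter.1 hb
      have := rng b hb1
      refine ⟨cop b hb1, by omega, by omega, ?_⟩
      have : ((Icc 1 3).filter fun j => b * j ∈ A).card < (Icc 1 3).card := by
        refine card_lt_card (filter_ssubset.2 ?_)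
        by_contra hn
        push Not at hn
        exact a ⟨hn 1 (by simp), hn 2 (by simp), hn 3 (by simp)⟩
      exact this)
    have := fin (48 * Q - 1) W2.card (by omega) (by omega)
    exact ⟨48 * Q - 1, by omega, B, b1, b2, by linarith⟩

theorem glue (γ : ℝ) (m : ℕ) (hm : 0 < m)
    (h : ∀ M0 : ℕ, ∃ N, M0 ≤ N ∧ ∃ B : Finset ℕ, B ⊆ Icc 1 N ∧ Free B ∧ γ * N ≤ B.card) :
    ∃ C : Set ℕ, 0 ∉ C ∧ Free C ∧ ∃ᶠ N in atTop, γ - 1 / m ≤ (cnt C N : ℝ) / N := by
  choose f hf B hB hF hc using h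
  let s : ℕ → ℕ := fun k => Nat.rec 1 (fun _ x => m ^ 2 * f x ^ 2 + 1) k
  have hs : ∀ k, s (k + 1) = m ^ 2 * f (s k) ^ 2 + 1 := fun k => rfl
  have step : ∀ k, m ^ 2 * f (s k) ^ 2 < f (s (k + 1)) := fun k => by
    have := hf (s (k + 1))
    rw [hs] at this ⊢
    omega
  have le2 : ∀ x : ℕ, x ≤ m ^ 2 * x ^ 2 := fun x => by
    have : 1 ≤ m ^ 2 := Nat.one_le_pow _ _ hm
    nlinarith [Nat.le_self_pow two_ne_zero x]
  have mono : StrictMono fun k => f (s k) :=
    strictMono_nat_of_lt_succ fun k => (le2 _).trans_lt (step k)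
  have big : ∀ j k, j < k → m ^ 2 * f (s j) ^ 2 < f (s k) := fun j k h =>
    (step j).trans_le (mono.monotone h)
  refine ⟨{x | ∃ k, x ∈ B (s k) ∧ f (s k) < m * x}, ?_, ?_, ?_⟩
  · rintro ⟨k, -, h⟩
    simp at h
  · have main : ∀ i j k a y c : ℕ, i ≤ k → a ∈ B (s i) → y ∈ B (s j) → f (s j) < m * y →
        c ∈ B (s k) → f (s k) < m * c → a * c = y ^ 2 → a = c := by
      intro i j k a y c hik ha hy hy' hc hc' e
      have ra := mem_Icc.1 (hB _ ha)
      have ry := mem_Icc.1 (hB _ hy)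
      have rc := mem_Icc.1 (hB _ hc)
      have hik' : f (s i) ≤ f (s k) := mono.monotone hik
      rcases lt_trichotomy j k with hj | rfl | hj
      · have h1 := big j k hj
        have h2 : c ≤ f (s j) ^ 2 := by nlinarith [Nat.pow_le_pow_left ry.2 2]
        have h3 : m * c ≤ m ^ 2 * f (s j) ^ 2 :=
          Nat.mul_le_mul (Nat.le_self_pow two_ne_zero m) h2
        omega
      · rcases hik.eq_or_lt with rfl | hi
        · exact hF _ _ ha _ hy _ hc e
        · have h1 := big i j hi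
          have h2 : f (s j) ^ 2 < (m * y) ^ 2 := Nat.pow_lt_pow_left hy' two_ne_zero
          have h3 : a * c ≤ f (s i) ^ 2 * f (s j) :=
            Nat.mul_le_mul (ra.2.trans (Nat.le_self_pow two_ne_zero _)) rc.2
          have h4 := Nat.mul_le_mul_left (m ^ 2) h3
          have h5 := Nat.mul_le_mul_right (f (s j)) h1.le
          nlinarith
      · have h1 := big k j hj
        have h2 : y ^ 2 ≤ f (s k) ^ 2 := by
          rw [← e, sq]
          exact Nat.mul_le_mul (ra.2.trans hik') rc.2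
        have h3 : m * y ≤ m ^ 2 * f (s k) ^ 2 :=
          Nat.mul_le_mul (Nat.le_self_pow two_ne_zero m) ((Nat.le_self_pow two_ne_zero y).trans h2)
        omega
    rintro a ⟨i, ha, ha'⟩ y ⟨j, hy, hy'⟩ c ⟨k, hc, hc'⟩ e
    rcases le_total i k with h | h
    · exact main i j k a y c h ha hy hy' hc hc' e
    · exact (main k j i c y a h hc hy hy' ha ha' (by rw [mul_comm, e])).symm
  · rw [frequently_atTop]
    intro k
    refine ⟨f (s (k + 1)), (Nat.le_succ k).trans (mono.le_apply (x := k + 1)), ?_⟩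
    have hp : 0 < f (s (k + 1)) := (Nat.zero_le _).trans_lt (step k)
    set N := f (s (k + 1)) with hN
    have h1 : B (s (k + 1)) ⊆ ((Icc 1 N).filter (· ∈ {x | ∃ k, x ∈ B (s k) ∧ f (s k) < m * x})) ∪
        Icc 1 (N / m) := by
      intro x hx
      by_cases h : N < m * x
      · exact mem_union_left _ (mem_filter.2 ⟨hB _ hx, k + 1, hx, h⟩)
      · exact mem_union_right _ (mem_Icc.2 ⟨(mem_Icc.1 (hB _ hx)).1,
          (Nat.le_div_iff_mul_le hm).2 (by rw [mul_comm]; omega)⟩)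
    have h2 := (card_le_card h1).trans (card_union_le _ _)
    rw [Nat.card_Icc, Nat.add_sub_cancel] at h2
    have h3 : ((B (s (k + 1))).card : ℝ) ≤
        cnt {x | ∃ k, x ∈ B (s k) ∧ f (s k) < m * x} N + (N / m : ℕ) := by exact_mod_cast h2
    have h4 := Nat.cast_div_le (α := ℝ) (m := N) (n := m)
    have h5 := hc (s (k + 1))
    rw [le_div_iff₀ (by exact_mod_cast hp), sub_mul, one_div_mul_eq_div]
    linarith

theorem cnt_le (A : Set ℕ) (N : ℕ) : (cnt A N : ℝ) / N ≤ 1 := by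
  apply div_le_one_of_le₀ _ (Nat.cast_nonneg N)
  exact_mod_cast (card_filter_le _ _).trans_eq (by simp)

theorem gain (A : Set ℕ) (hA : Free A) (d : ℝ)
    (hd : Tendsto (fun N => (cnt A N : ℝ) / N) atTop (𝓝 d)) :
    ∃ C : Set ℕ, 0 ∉ C ∧ Free C ∧
      d + 1 / 8000000 ≤ limsup (fun N => (cnt C N : ℝ) / N) atTop := by
  obtain ⟨N0, h0⟩ := eventually_atTop.1 (hd.eventually (lt_mem_nhds
    (show d - 1 / 8000000 < d by norm_num)))
  obtain ⟨C, c1, c2, c3⟩ := glue (d + 2 / 8000000) 8000000 (by norm_num) fun M0 => by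
    obtain ⟨N, hN, B, b1, b2, b3⟩ := step1 A hA (M0 + N0 + 1)
    have hp : (0 : ℝ) < N := by exact_mod_cast (by omega : 0 < N)
    have := (lt_div_iff₀ hp).1 (h0 N (by omega))
    exact ⟨N, by omega, B, b1, b2, by linarith⟩
  refine ⟨C, c1, c2, le_limsup_of_frequently_le (c3.mono fun N h => ?_)
    (isBoundedUnder_of ⟨1, cnt_le C⟩)⟩
  push_cast at h
  linarith

end Pool.Agent.H52.GP
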