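import Mathlib

set_option autoImplicit false

namespace Pool.Agent.H52.HB
open Set Filter Topology

abbrev P := ℝ × ℝ

def IsAff (φ : P → ℝ) : Prop := ∃ c a b : ℝ, ∀ z : P, φ z = c + a * z.1 + b * z.2

lemma IsAff.line {φ : P → ℝ} (h : IsAff φ) (p q : P) (u : ℝ) :
    φ (p + u • (q - p)) = φ p + u * (φ q - φ p) := by
  obtain ⟨c, a, b, h⟩ := h
  simp only [h, Prod.fst_add, Prod.snd_add, Prod.smul_fst, Prod.smul_snd, Prod.fst_sub,
    Prod.snd_sub, smul_eq_mul]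
  ring

lemma IsAff.cont {φ : P → ℝ} (h : IsAff φ) : Continuous φ := by
  obtain ⟨c, a, b, h⟩ := h
  have : φ = fun z => c + a * z.1 + b * z.2 := funext h
  rw [this]; fun_prop

lemma IsAff.nonneg {φ : P → ℝ} (h : IsAff φ) {Ω : Set P} (hp : ∀ z ∈ Ω, 0 < φ z) {z : P}
    (hz : z ∈ closure Ω) : 0 ≤ φ z := by
  have : closure Ω ⊆ {z | 0 ≤ φ z} :=
    closure_minimal (fun z hz => (hp z hz).le) (isClosed_le continuous_const h.cont)
  exact this hz

lemma exists_sup {Ω : Set P} (ho : IsOpen Ω) (hc : Convex ℝ Ω) {Q : P} (hQ : Q ∉ Ω) :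
    ∃ α : P → ℝ, IsAff α ∧ α Q = 0 ∧ ∀ z ∈ Ω, 0 < α z := by
  obtain ⟨f, hf⟩ := geometric_hahn_banach_open_point hc ho hQ
  refine ⟨fun z => f Q - f z, ⟨f Q, -f (1, 0), -f (0, 1), fun z => ?_⟩, by simp,
    fun z hz => sub_pos.2 (hf z hz)⟩
  have : z = z.1 • ((1 : ℝ), (0 : ℝ)) + z.2 • ((0 : ℝ), (1 : ℝ)) := by ext <;> simp
  have e : f z = z.1 * f (1, 0) + z.2 * f (0, 1) := by
    conv_lhs => rw [this, map_add, map_smul, map_smul]
    rfl
  show f Q - f z = _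
  rw [e]; ring

lemma combo_mem {Ω : Set P} (ho : IsOpen Ω) (hc : Convex ℝ Ω) {p A : P} (hp : p ∈ closure Ω)
    (hA : A ∈ Ω) {u : ℝ} (h0 : 0 < u) (h1 : u ≤ 1) : p + u • (A - p) ∈ Ω := by
  have := hc.combo_closure_interior_mem_interior hp (by rwa [ho.interior_eq] : A ∈ interior Ω)
    (a := 1 - u) (b := u) (by linarith) h0 (by ring)
  rw [ho.interior_eq] at this
  convert this using 1
  ext <;> simp <;> ring

def Ch (Ω : Set P) (A B : P) (L : P → ℝ) : Prop :=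
  ∃ (p q : P) (u v : ℝ) (α β : P → ℝ), IsAff α ∧ IsAff β ∧ p ∈ closure Ω ∧ q ∈ closure Ω ∧
    α p = 0 ∧ β q = 0 ∧ (∀ z ∈ Ω, 0 < α z) ∧ (∀ z ∈ Ω, 0 < β z) ∧
    A = p + u • (q - p) ∧ B = p + v • (q - p) ∧
    ∀ z, L z = α z / √(α A * α B) - β z / √(β A * β B)

def D3 (L1 L2 L3 : P → ℝ) (x y z : P) : ℝ :=
  L1 x * (L2 y * L3 z - L2 z * L3 y) - L1 y * (L2 x * L3 z - L2 z * L3 x) +
    L1 z * (L2 x * L3 y - L2 y * L3 x)

def NC (A B C : P) : Prop := (B.1 - A.1) * (C.2 - A.2) - (B.2 - A.2) * (C.1 - A.1) ≠ 0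

def H (Ω : Set P) : Prop := ∀ A B C : P, A ∈ Ω → B ∈ Ω → C ∈ Ω → NC A B C →
  ∀ L1 L2 L3, Ch Ω A B L1 → Ch Ω B C L2 → Ch Ω C A L3 → ∀ x y z, D3 L1 L2 L3 x y z = 0

noncomputable def dd (Ω : Set P) (x y : P) : ℝ := (1 / 2) * Real.log
        (((1 + sSup {s : ℝ | 0 ≤ s ∧ x - s • (y - x) ∈ Ω}) *
            sSup {t : ℝ | 0 ≤ t ∧ x + t • (y - x) ∈ Ω}) /
          (sSup {s : ℝ | 0 ≤ s ∧ x - s • (y - x) ∈ Ω} *
            (sSup {t : ℝ | 0 ≤ t ∧ x + t • (y - x) ∈ Ω} - 1)))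

/-- the ray lemma -/
lemma ray {Ω : Set P} (ho : IsOpen Ω) (hc : Convex ℝ Ω) (hb : Bornology.IsBounded Ω) {O v : P}
    (hO : O ∈ Ω) (hv : v ≠ 0) :
    ∃ T : ℝ, 0 < T ∧ O + T • v ∈ closure Ω ∧ {t : ℝ | 0 ≤ t ∧ O + t • v ∈ Ω} = Ico 0 T := by
  set S := {t : ℝ | 0 ≤ t ∧ O + t • v ∈ Ω} with hS
  have h0 : (0 : ℝ) ∈ S := ⟨le_rfl, by simpa using hO⟩
  obtain ⟨M, hM⟩ := hb.exists_norm_le
  have hvn : 0 < ‖v‖ := norm_pos_iff.2 hv
  have hbd : BddAbove S := by
    refine ⟨(M + ‖O‖) / ‖v‖, fun t ht => ?_⟩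
    rw [le_div_iff₀ hvn]
    have h1 := hM _ ht.2
    have h2 : ‖t • v‖ ≤ ‖O + t • v‖ + ‖O‖ := by
      have := norm_sub_le (O + t • v) O
      simpa using this
    rw [norm_smul, Real.norm_of_nonneg ht.1] at h2
    linarith
  have hcont : Continuous fun t : ℝ => O + t • v := by fun_prop
  have hup : ∀ t ∈ S, ∃ t' ∈ S, t < t' := by
    intro t ht
    have : ∀ᶠ t' in 𝓝 t, O + t' • v ∈ Ω := hcont.continuousAt.eventually (ho.mem_nhds ht.2)
    obtain ⟨t', h1, h2⟩ := ((this.filter_mono nhdsWithin_le_nhds).and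
      (self_mem_nhdsWithin (s := Ioi t))).exists
    exact ⟨t', ⟨ht.1.trans (le_of_lt h2), h1⟩, h2⟩
  have hlt : ∀ t ∈ S, t < sSup S := by
    intro t ht
    obtain ⟨t', h1, h2⟩ := hup t ht
    exact h2.trans_le (le_csSup hbd h1)
  have hcl : O + sSup S • v ∈ closure Ω := by
    have := csSup_mem_closure ⟨0, h0⟩ hbd
    exact map_mem_closure (f := fun t : ℝ => O + t • v) hcont this (fun t (ht : t ∈ S) => ht.2)
  refine ⟨sSup S, hlt 0 h0, hcl, ?_⟩
  ext t
  refine ⟨fun ht => ⟨ht.1, hlt t ht⟩, fun ht => ⟨ht.1, ?_⟩⟩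
  have hT := hlt 0 h0
  have := combo_mem ho hc hcl hO (u := 1 - t / sSup S)
    (by rw [sub_pos, div_lt_one hT]; exact ht.2) (by have := div_nonneg ht.1 hT.le; linarith)
  convert this using 1
  ext <;> simp <;> field_simp <;> ring

lemma dd_self (Ω : Set P) (x : P) : dd Ω x x = 0 := by
  unfold dd
  by_cases hx : x ∈ Ω
  · have h1 : {s : ℝ | 0 ≤ s ∧ x - s • (x - x) ∈ Ω} = Ici 0 := by ext s; simp [hx]
    have h2 : {s : ℝ | 0 ≤ s ∧ x + s • (x - x) ∈ Ω} = Ici 0 := by ext s; simp [hx]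
    rw [h1, h2, Real.sSup_of_not_bddAbove (not_bddAbove_Ici 0)]; simp
  · have h1 : {s : ℝ | 0 ≤ s ∧ x - s • (x - x) ∈ Ω} = ∅ := by ext s; simp [hx]
    have h2 : {s : ℝ | 0 ≤ s ∧ x + s • (x - x) ∈ Ω} = ∅ := by ext s; simp [hx]
    rw [h1, h2]; simp

lemma dd_form {Ω : Set P} (ho : IsOpen Ω) (hc : Convex ℝ Ω) (hb : Bornology.IsBounded Ω)
    {x y : P} (hx : x ∈ Ω) (hy : y ∈ Ω) (hxy : x ≠ y) :
    ∃ S T : ℝ, 0 < S ∧ 1 < T ∧ x + (-S) • (y - x) ∈ closure Ω ∧ x + T • (y - x) ∈ closure Ω ∧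
      (∀ s, 0 ≤ s → x + (-s) • (y - x) ∈ Ω → s < S) ∧ (∀ s, 0 ≤ s → x + s • (y - x) ∈ Ω → s < T) ∧
      dd Ω x y = (1 / 2) * Real.log ((1 + S) * T / (S * (T - 1))) := by
  have hv : y - x ≠ 0 := sub_ne_zero.2 hxy.symm
  obtain ⟨T, hT, hTc, hTs⟩ := ray ho hc hb hx hv
  obtain ⟨S, hS, hSc, hSs⟩ := ray ho hc hb hx (neg_ne_zero.2 hv)
  have e1 : {s : ℝ | 0 ≤ s ∧ x - s • (y - x) ∈ Ω} = Ico 0 S := by
    rw [← hSs]; ext s; simp only [mem_ofPred_eq, smul_neg, sub_eq_add_neg]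
  have hT1 : 1 < T := by
    have : (1 : ℝ) ∈ Ico 0 T := by rw [← hTs]; exact ⟨zero_le_one, by simpa using hy⟩
    exact this.2
  refine ⟨S, T, hS, hT1, by simpa only [smul_neg, neg_smul] using hSc, hTc, ?_, ?_, ?_⟩
  · intro s h0 hs
    have : s ∈ Ico 0 S := by rw [← hSs]; exact ⟨h0, by simpa only [smul_neg, neg_smul] using hs⟩
    exact this.2
  · intro s h0 hs
    have : s ∈ Ico 0 T := by rw [← hTs]; exact ⟨h0, hs⟩
    exact this.2
  · unfold dd; rw [e1, hTs, csSup_Ico hS, csSup_Ico hT]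

lemma dd_ge {Ω : Set P} (ho : IsOpen Ω) (hc : Convex ℝ Ω) (hb : Bornology.IsBounded Ω)
    {α β : P → ℝ} (ha : IsAff α) (hb' : IsAff β) (hα : ∀ z ∈ Ω, 0 < α z) (hβ : ∀ z ∈ Ω, 0 < β z)
    {x y : P} (hx : x ∈ Ω) (hy : y ∈ Ω) :
    (1 / 2) * Real.log (α y * β x / (α x * β y)) ≤ dd Ω x y := by
  have a1 := hα x hx; have a2 := hα y hy; have b1 := hβ x hx; have b2 := hβ y hy
  by_cases hxy : x = y
  · subst hxy; rw [dd_self, div_self (by positivity)]; simp
  obtain ⟨S, T, hS, hT, h1, h2, -, -, h⟩ := dd_form ho hc hb hx hy hxy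
  rw [h]
  have k1 := ha.nonneg hα h1
  have k2 := hb'.nonneg hβ h2
  rw [ha.line] at k1; rw [hb'.line] at k2
  have hT' : 0 < T - 1 := by linarith
  refine mul_le_mul_of_nonneg_left (Real.log_le_log (by positivity) ?_) (by norm_num)
  rw [div_le_div_iff₀ (by positivity) (by positivity)]
  have e1 : α y * S ≤ (1 + S) * α x := by linarith
  have e2 : β x * (T - 1) ≤ T * β y := by linarith
  calc α y * β x * (S * (T - 1)) = (α y * S) * (β x * (T - 1)) := by ring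
    _ ≤ ((1 + S) * α x) * (T * β y) := mul_le_mul e1 e2 (by positivity) (by positivity)
    _ = _ := by ring

lemma dd_chord {Ω : Set P} (ho : IsOpen Ω) (hc : Convex ℝ Ω) (hb : Bornology.IsBounded Ω)
    {α β : P → ℝ} (ha : IsAff α) (hb' : IsAff β) (hα : ∀ z ∈ Ω, 0 < α z) (hβ : ∀ z ∈ Ω, 0 < β z)
    {p q : P} (hp : p ∈ closure Ω) (hq : q ∈ closure Ω) (hαp : α p = 0) (hβq : β q = 0)
    {u v : ℝ} (huv : u < v) {x y : P} (hx : x ∈ Ω) (hy : y ∈ Ω) (ex : x = p + u • (q - p))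
    (ey : y = p + v • (q - p)) :
    dd Ω x y = (1 / 2) * Real.log (α y * β x / (α x * β y)) := by
  have a1 := hα x hx; have a2 := hα y hy; have b1 := hβ x hx; have b2 := hβ y hy
  have aq := ha.nonneg hα hq
  have bp := hb'.nonneg hβ hp
  have eax : α x = u * α q := by rw [ex, ha.line, hαp]; ring
  have eay : α y = v * α q := by rw [ey, ha.line, hαp]; ring
  have ebx : β x = (1 - u) * β p := by rw [ex, hb'.line, hβq]; ring
  have eby : β y = (1 - v) * β p := by rw [ey, hb'.line, hβq]; ring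
  have hu : 0 < u := by
    by_contra h; push Not at h; nlinarith
  have hv : 0 < 1 - v := by
    by_contra h; push Not at h; nlinarith
  have aq' : 0 < α q := by
    rcases aq.eq_or_lt with h | h
    · rw [← h] at eax; linarith
    · exact h
  have bp' : 0 < β p := by
    rcases bp.eq_or_lt with h | h
    · rw [← h] at ebx; linarith
    · exact h
  have hxy : x ≠ y := by
    intro h; rw [h] at eax; nlinarith
  obtain ⟨S, T, hS, hT, h1, h2, h3, h4, h⟩ := dd_form ho hc hb hx hy hxy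
  have k1 := ha.nonneg hα h1
  have k2 := hb'.nonneg hβ h2
  rw [ha.line] at k1; rw [hb'.line] at k2
  have hd : 0 < v - u := by linarith
  have hu1 : 0 < 1 - u := by linarith
  have eS : S = u / (v - u) := by
    apply le_antisymm
    · rw [le_div_iff₀ hd]; rw [eax, eay] at k1; nlinarith
    · by_contra hlt
      push Not at hlt
      rw [lt_div_iff₀ hd] at hlt
      have := combo_mem ho hc hp hx (u := 1 - S * (v - u) / u)
        (by rw [sub_pos, div_lt_one hu]; exact hlt) (by have : 0 ≤ S * (v - u) / u := by positivity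
                                                        linarith)
      refine lt_irrefl S (h3 S hS.le ?_)
      convert this using 1
      rw [ex, ey]
      ext <;> simp <;> field_simp <;> ring
  have eT : T = (1 - u) / (v - u) := by
    apply le_antisymm
    · rw [le_div_iff₀ hd]; rw [ebx, eby] at k2; nlinarith
    · by_contra hlt
      push Not at hlt
      rw [lt_div_iff₀ hd] at hlt
      have := combo_mem ho hc hq hx (u := 1 - T * (v - u) / (1 - u))
        (by rw [sub_pos, div_lt_one hu1]; exact hlt)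
        (by have : 0 ≤ T * (v - u) / (1 - u) := by positivity
            linarith)
      refine lt_irrefl T (h4 T (by linarith) ?_)
      convert this using 1
      rw [ex, ey]
      ext <;> simp <;> field_simp <;> ring
  rw [h, eS, eT, eax, eay, ebx, eby]
  congr 2
  have : (1 - u) / (v - u) - 1 = (1 - v) / (v - u) := by field_simp; ring
  rw [this]
  field_simp; ring

lemma swap_pt (p q : P) (u : ℝ) : p + u • (q - p) = q + (1 - u) • (p - q) := by
  ext <;> simp <;> ring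

lemma chord_R {Ω : Set P} (ho : IsOpen Ω) (hc : Convex ℝ Ω) (hb : Bornology.IsBounded Ω)
    {α β : P → ℝ} (ha : IsAff α) (hb' : IsAff β) (hα : ∀ z ∈ Ω, 0 < α z) (hβ : ∀ z ∈ Ω, 0 < β z)
    {p q : P} (hp : p ∈ closure Ω) (hq : q ∈ closure Ω) (hαp : α p = 0) (hβq : β q = 0)
    {u v : ℝ} (huv : u < v) {A B : P} (hA : A ∈ Ω) (hB : B ∈ Ω) (eA : A = p + u • (q - p))
    (eB : B = p + v • (q - p)) {L : P → ℝ}
    (hL : ∀ z, L z = α z / √(α A * α B) - β z / √(β A * β B)) :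
    IsAff L ∧ L A ≠ L B ∧ ∃ m ∈ segment ℝ A B, dd Ω A m = dd Ω m B ∧ L m = 0 ∧
      ∀ x ∈ affineSpan ℝ {A, B}, x ∈ Ω → ∀ z ∈ Ω, L z = 0 → dd Ω x m ≤ dd Ω x z := by
  have a1 := hα A hA; have a2 := hα B hB; have b1 := hβ A hA; have b2 := hβ B hB
  have aq := ha.nonneg hα hq
  have bp := hb'.nonneg hβ hp
  have eax : α A = u * α q := by rw [eA, ha.line, hαp]; ring
  have eay : α B = v * α q := by rw [eB, ha.line, hαp]; ring
  have ebx : β A = (1 - u) * β p := by rw [eA, hb'.line, hβq]; ring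
  have eby : β B = (1 - v) * β p := by rw [eB, hb'.line, hβq]; ring
  have aq' : 0 < α q := by
    rcases aq.eq_or_lt with h | h
    · rw [← h] at eax; linarith
    · exact h
  have bp' : 0 < β p := by
    rcases bp.eq_or_lt with h | h
    · rw [← h] at ebx; linarith
    · exact h
  have l1 : α A < α B := by rw [eax, eay]; nlinarith
  have l2 : β B < β A := by rw [ebx, eby]; nlinarith
  set sa := √(α A * α B) with hsa
  set sb := √(β A * β B) with hsb
  have sa0 : 0 < sa := Real.sqrt_pos.2 (by positivity)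
  have sb0 : 0 < sb := Real.sqrt_pos.2 (by positivity)
  have sa2 : sa ^ 2 = α A * α B := Real.sq_sqrt (by positivity)
  have sb2 : sb ^ 2 = β A * β B := Real.sq_sqrt (by positivity)
  have hLa : IsAff L := by
    obtain ⟨c, a, b, h⟩ := ha
    obtain ⟨c', a', b', h'⟩ := hb'
    exact ⟨c / sa - c' / sb, a / sa - a' / sb, b / sa - b' / sb, fun z => by
      rw [hL, h, h']; ring⟩
  have m1 : α A < sa := by nlinarith
  have m2 : sa < α B := by nlinarith
  have m3 : β B < sb := by nlinarith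
  have m4 : sb < β A := by nlinarith
  have LA : L A < 0 := by
    rw [hL]
    have := (div_lt_one sa0).2 m1
    have := (one_lt_div sb0).2 m4
    linarith
  have LB : 0 < L B := by
    rw [hL]
    have := (div_lt_one sb0).2 m3
    have := (one_lt_div sa0).2 m2
    linarith
  have hd : 0 < L B - L A := by linarith
  set θ := -L A / (L B - L A) with hθ
  have t0 : 0 < θ := div_pos (by linarith) hd
  have t1 : θ < 1 := (div_lt_one hd).2 (by linarith)
  have hm : A + θ • (B - A) ∈ Ω := combo_mem ho hc (subset_closure hA) hB t0 t1.le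
  have em : A + θ • (B - A) = p + (u + θ * (v - u)) • (q - p) := by
    rw [eA, eB]; ext <;> simp <;> ring
  have Lm : L (A + θ • (B - A)) = 0 := by rw [hLa.line, hθ]; field_simp; ring
  have hseg : A + θ • (B - A) ∈ segment ℝ A B := by
    rw [segment_eq_image']; exact ⟨θ, ⟨t0.le, t1.le⟩, rfl⟩
  set m := A + θ • (B - A) with hmdef
  have a3 := hα m hm; have b3 := hβ m hm
  have key : ∀ z, L z = 0 → α z * sb = β z * sa := by
    intro z hz
    rw [hL, sub_eq_zero, div_eq_div_iff sa0.ne' sb0.ne'] at hz; exact hz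
  have km := key m Lm
  refine ⟨hLa, by linarith, m, hseg, ?_, Lm, ?_⟩
  · rw [dd_chord ho hc hb ha hb' hα hβ hp hq hαp hβq (by nlinarith) hA hm eA em,
      dd_chord ho hc hb ha hb' hα hβ hp hq hαp hβq (by nlinarith) hm hB em eB]
    congr 2
    rw [div_eq_div_iff (by positivity) (by positivity)]
    have : (α m * sb) ^ 2 = (β m * sa) ^ 2 := by rw [km]
    rw [mul_pow, mul_pow, sa2, sb2] at this
    linarith
  · intro x hx hxΩ z hz Lz
    have kz := key z Lz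
    have a4 := hα x hxΩ; have b4 := hβ x hxΩ; have a5 := hα z hz; have b5 := hβ z hz
    have kk : α m * β z = α z * β m := by
      have : (α m * β z - α z * β m) * sb = 0 := by linear_combination β z * km - β m * kz
      rcases mul_eq_zero.1 this with h | h
      · linarith
      · exact absurd h sb0.ne'
    obtain ⟨r, hr⟩ : ∃ r : ℝ, x = A + r • (B - A) := by
      rw [mem_affineSpan_pair_iff_exists_lineMap_eq] at hx
      obtain ⟨r, hr⟩ := hx
      exact ⟨r, by rw [← hr, AffineMap.lineMap_apply]; simp [add_comm]⟩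
    have ex : x = p + (u + r * (v - u)) • (q - p) := by
      rw [hr, eA, eB]; ext <;> simp <;> ring
    rcases lt_trichotomy (u + r * (v - u)) (u + θ * (v - u)) with h | h | h
    · rw [dd_chord ho hc hb ha hb' hα hβ hp hq hαp hβq h hxΩ hm ex em]
      refine le_trans (le_of_eq ?_) (dd_ge ho hc hb ha hb' hα hβ hxΩ hz)
      congr 2
      rw [div_eq_div_iff (by positivity) (by positivity)]
      linear_combination α x * β x * kk
    · have : x = m := by rw [ex, em, h]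
      rw [← this, dd_self]
      have h1 := dd_ge ho hc hb ha hb' hα hβ hxΩ hz
      have h2 : α z * β x / (α x * β z) = 1 := by
        rw [div_eq_one_iff_eq (by positivity), this]; linarith
      rw [h2] at h1; simpa using h1
    · rw [swap_pt] at ex em
      rw [dd_chord ho hc hb hb' ha hβ hα hq hp hβq hαp (by linarith) hxΩ hm ex em]
      refine le_trans (le_of_eq ?_) (dd_ge ho hc hb hb' ha hβ hα hxΩ hz)
      congr 2
      rw [div_eq_div_iff (by positivity) (by positivity)]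
      linear_combination (-α x * β x) * kk

lemma ch_R {Ω : Set P} (ho : IsOpen Ω) (hc : Convex ℝ Ω) (hb : Bornology.IsBounded Ω)
    {A B : P} (hA : A ∈ Ω) (hB : B ∈ Ω) (hAB : A ≠ B) {L : P → ℝ} (h : Ch Ω A B L) :
    ∃ (c a b : ℝ) (ℓ : AffineSubspace ℝ P), (∀ z : P, L z = c + a * z.1 + b * z.2) ∧
      ((-b, a) : P) ≠ 0 ∧ ℓ.direction = Submodule.span ℝ {((-b, a) : P)} ∧
      (∀ z ∈ ℓ, L z = 0) ∧ Module.finrank ℝ ℓ.direction = 1 ∧
        ∃ m ∈ segment ℝ A B, dd Ω A m = dd Ω m B ∧ m ∈ ℓ ∧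
          ∀ x ∈ affineSpan ℝ {A, B}, x ∈ Ω → ∀ z ∈ ℓ, z ∈ Ω → dd Ω x m ≤ dd Ω x z := by
  have main : IsAff L ∧ L A ≠ L B ∧ ∃ m ∈ segment ℝ A B, dd Ω A m = dd Ω m B ∧ L m = 0 ∧
      ∀ x ∈ affineSpan ℝ {A, B}, x ∈ Ω → ∀ z ∈ Ω, L z = 0 → dd Ω x m ≤ dd Ω x z := by
    obtain ⟨p, q, u, v, α, β, ha, hb', hp, hq, hαp, hβq, hα, hβ, eA, eB, hL⟩ := h
    rcases lt_trichotomy u v with h | h | h
    · exact chord_R ho hc hb ha hb' hα hβ hp hq hαp hβq h hA hB eA eB hL
    · exact absurd (by rw [eA, eB, h]) hAB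
    · rw [swap_pt] at eA eB
      obtain ⟨h1, h2, m, h3, h4, h5, h6⟩ := chord_R ho hc hb hb' ha hβ hα hq hp hβq hαp
        (by linarith) hA hB eA eB (L := fun z => -L z) (fun z => by rw [hL]; ring)
      refine ⟨?_, fun h => h2 (by simp [h]), m, h3, h4, by simpa using h5,
        fun x hx hx' z hz Lz => h6 x hx hx' z hz (by simp [Lz])⟩
      obtain ⟨c, a, b, h⟩ := h1
      exact ⟨-c, -a, -b, fun z => by have := h z; simp only at this; linarith⟩
  obtain ⟨⟨c, a, b, hL⟩, hne, m, h3, h4, h5, h6⟩ := main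
  have hv : ((-b, a) : P) ≠ 0 := by
    intro h
    have h1 : b = 0 := by simpa using congrArg Prod.fst h
    have h2 : a = 0 := by simpa using congrArg Prod.snd h
    apply hne; rw [hL, hL, h1, h2]; ring
  have hz : ∀ z ∈ AffineSubspace.mk' m (Submodule.span ℝ {((-b, a) : P)}), L z = 0 := by
    intro z hz
    rw [AffineSubspace.mem_mk', Submodule.mem_span_singleton] at hz
    obtain ⟨r, hr⟩ := hz
    have h1 := congrArg Prod.fst hr
    have h2 := congrArg Prod.snd hr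
    simp at h1 h2
    rw [hL] at h5 ⊢
    linear_combination h5 - a * h1 - b * h2
  refine ⟨c, a, b, AffineSubspace.mk' m (Submodule.span ℝ {((-b, a) : P)}), hL, hv,
    AffineSubspace.direction_mk' _ _, hz, ?_, m, h3, h4, AffineSubspace.self_mem_mk' _ _,
    fun x hx hx' z hz1 hz2 => h6 x hx hx' z hz2 (hz z hz1)⟩
  rw [AffineSubspace.direction_mk']
  exact finrank_span_singleton hv

lemma not_col {A B C : P} (h : NC A B C) : ¬ Collinear ℝ {A, B, C} := by
  intro hc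
  rw [collinear_iff_of_mem (p₀ := A) (by simp)] at hc
  obtain ⟨v, hv⟩ := hc
  obtain ⟨r, hr⟩ := hv B (by simp)
  obtain ⟨s, hs⟩ := hv C (by simp)
  apply h
  rw [hr, hs]; simp; ring

lemma H_of {Ω : Set P} (ho : IsOpen Ω) (hc : Convex ℝ Ω) (hb : Bornology.IsBounded Ω)
    (R : P → P → AffineSubspace ℝ P → Prop)
    (hR : ∀ a b ℓ, R a b ℓ ↔
      (Module.finrank ℝ ℓ.direction = 1 ∧
        ∃ m ∈ segment ℝ a b, dd Ω a m = dd Ω m b ∧ m ∈ ℓ ∧
          ∀ x ∈ affineSpan ℝ {a, b}, x ∈ Ω → ∀ z ∈ ℓ, z ∈ Ω → dd Ω x m ≤ dd Ω x z))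
    (hh : ∀ a b c : P, a ∈ Ω → b ∈ Ω → c ∈ Ω → ¬ Collinear ℝ {a, b, c} →
      ∀ ℓ₁ ℓ₂ ℓ₃ : AffineSubspace ℝ P, R a b ℓ₁ → R b c ℓ₂ → R c a ℓ₃ →
        ((∃ p, p ∈ ℓ₁ ∧ p ∈ ℓ₂ ∧ p ∈ ℓ₃) ∨
          (ℓ₁.direction = ℓ₂.direction ∧ ℓ₂.direction = ℓ₃.direction))) : H Ω := by
  intro A B C hA hB hC hN L1 L2 L3 h1 h2 h3 x y z
  have nAB : A ≠ B := by rintro rfl; exact hN (by ring)
  have nBC : B ≠ C := by rintro rfl; exact hN (by ring)
  have nCA : C ≠ A := by rintro rfl; exact hN (by ring)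
  obtain ⟨c1, a1, b1, l1, e1, v1, d1, z1, r1⟩ := ch_R ho hc hb hA hB nAB h1
  obtain ⟨c2, a2, b2, l2, e2, v2, d2, z2, r2⟩ := ch_R ho hc hb hB hC nBC h2
  obtain ⟨c3, a3, b3, l3, e3, v3, d3, z3, r3⟩ := ch_R ho hc hb hC hA nCA h3
  have hD : D3 L1 L2 L3 x y z = (c1 * (a2 * b3 - a3 * b2) - c2 * (a1 * b3 - a3 * b1) +
      c3 * (a1 * b2 - a2 * b1)) * ((y.1 - x.1) * (z.2 - x.2) - (y.2 - x.2) * (z.1 - x.1)) := by
    simp only [D3, e1, e2, e3]; ring
  rw [hD]
  apply mul_eq_zero_of_left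
  rcases hh A B C hA hB hC (not_col hN) l1 l2 l3 ((hR _ _ _).2 r1) ((hR _ _ _).2 r2)
    ((hR _ _ _).2 r3) with ⟨p, p1, p2, p3⟩ | ⟨k1, k2⟩
  · have q1 := z1 p p1; have q2 := z2 p p2; have q3 := z3 p p3
    rw [e1] at q1; rw [e2] at q2; rw [e3] at q3
    linear_combination (a2 * b3 - a3 * b2) * q1 - (a1 * b3 - a3 * b1) * q2 +
      (a1 * b2 - a2 * b1) * q3
  · have m2 : ((-b2, a2) : P) ∈ l1.direction := by
      rw [k1, d2]; exact Submodule.mem_span_singleton_self _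
    have m3 : ((-b3, a3) : P) ∈ l1.direction := by
      rw [k1, k2, d3]; exact Submodule.mem_span_singleton_self _
    rw [d1, Submodule.mem_span_singleton] at m2 m3
    obtain ⟨r, hr⟩ := m2
    obtain ⟨s, hs⟩ := m3
    have r1 := congrArg Prod.fst hr
    have r2 := congrArg Prod.snd hr
    have s1 := congrArg Prod.fst hs
    have s2 := congrArg Prod.snd hs
    simp at r1 r2 s1 s2
    rw [← r1, ← r2, ← s1, ← s2]; ring

end Pool.Agent.H52.HB
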