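import Pool.Agent.H52.HB1

set_option autoImplicit false

namespace Pool.Agent.H52.HB
open Set Filter Topology

def tf (s g σ : ℝ) (z : P) : ℝ := z.2 - g - σ * (z.1 - s)

lemma tf_aff (s g σ : ℝ) : IsAff (tf s g σ) := ⟨σ * s - g, -σ, 1, fun z => by unfold tf; ring⟩

def Good (Ω : Set P) (e s g σ : ℝ) : Prop := (s, g) ∈ closure Ω ∧ (∀ z ∈ Ω, 0 < tf s g σ z) ∧
  ∃ (u w : ℝ → ℝ) (w0 : ℝ), Tendsto u (𝓝[>] 0) (𝓝 σ) ∧ Tendsto w (𝓝[>] 0) (𝓝 w0) ∧
    ∀ᶠ h in 𝓝[>] (0 : ℝ), (s + e * h, g + e * h * u h) ∈ closure Ω ∧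
      ∀ z ∈ Ω, 0 < tf (s + e * h) (g + e * h * u h) (σ + e * h * w h) z

def det3 (a1 a2 a3 b1 b2 b3 c1 c2 c3 : ℝ) : ℝ :=
  a1 * (b2 * c3 - b3 * c2) - a2 * (b1 * c3 - b3 * c1) + a3 * (b1 * c2 - b2 * c1)

def Phi (β γ α' α : P → ℝ) (x y z : P) (η X Y I1 I2 d1 d2 d3 e1 e2 e3 : ℝ) : ℝ :=
  Y * I2 * D3 β γ α x y z - X * I1 * D3 α' β γ x y z + η * (X * Y * (I1 * D3 α' β α x y z -
    I2 * D3 α' γ α x y z) +
    I1 * det3 (β x - η * X * α' x) (β y - η * X * α' y) (β z - η * X * α' z) d1 d2 d3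
      (γ x - η * Y * α x) (γ y - η * Y * α y) (γ z - η * Y * α z) -
    I2 * det3 (β x - η * X * α' x) (β y - η * X * α' y) (β z - η * X * α' z) e1 e2 e3
      (γ x - η * Y * α x) (γ y - η * Y * α y) (γ z - η * Y * α z))

lemma alg {η X Y I1 I2 k1 k3 : ℝ} {L1 L2 L3 β γ α' α db dc : P → ℝ} {x y z : P} (hη : η ≠ 0)
    (h1 : ∀ z, k1 * L1 z = β z - η * X * α' z) (h3 : ∀ z, k3 * L3 z = γ z - η * Y * α z)
    (h2 : ∀ z, η * L2 z = (β z + η ^ 2 * db z) * I1 - (γ z + η ^ 2 * dc z) * I2)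
    (hD : D3 L1 L2 L3 x y z = 0) :
    Phi β γ α' α x y z η X Y I1 I2 (db x) (db y) (db z) (dc x) (dc y) (dc z) = 0 := by
  have e : det3 (k1 * L1 x) (k1 * L1 y) (k1 * L1 z) (η * L2 x) (η * L2 y) (η * L2 z)
      (k3 * L3 x) (k3 * L3 y) (k3 * L3 z) = 0 := by
    unfold det3; unfold D3 at hD; linear_combination k1 * η * k3 * hD
  simp only [h1, h2, h3] at e
  apply mul_left_cancel₀ hη
  rw [mul_zero, ← e]
  unfold Phi det3 D3; ring

lemma lim {l : Filter ℝ} [l.NeBot] {β γ α' α : P → ℝ} {x y z : P}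
    {η X Y I1 I2 d1 d2 d3 e1 e2 e3 : ℝ → ℝ} {X0 Y0 I10 I20 d10 d20 d30 e10 e20 e30 : ℝ}
    (h0 : Tendsto η l (𝓝 0)) (h1 : Tendsto X l (𝓝 X0)) (h2 : Tendsto Y l (𝓝 Y0))
    (h3 : Tendsto I1 l (𝓝 I10)) (h4 : Tendsto I2 l (𝓝 I20)) (h5 : Tendsto d1 l (𝓝 d10))
    (h6 : Tendsto d2 l (𝓝 d20)) (h7 : Tendsto d3 l (𝓝 d30)) (h8 : Tendsto e1 l (𝓝 e10))
    (h9 : Tendsto e2 l (𝓝 e20)) (h10 : Tendsto e3 l (𝓝 e30))
    (h : ∀ᶠ i in l, Phi β γ α' α x y z (η i) (X i) (Y i) (I1 i) (I2 i) (d1 i) (d2 i) (d3 i)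
      (e1 i) (e2 i) (e3 i) = 0) :
    Y0 * I20 * D3 β γ α x y z = X0 * I10 * D3 α' β γ x y z := by
  have T := h0.prodMk_nhds (h1.prodMk_nhds (h2.prodMk_nhds (h3.prodMk_nhds (h4.prodMk_nhds
    (h5.prodMk_nhds (h6.prodMk_nhds (h7.prodMk_nhds (h8.prodMk_nhds (h9.prodMk_nhds h10)))))))))
  have C : Continuous (fun v : ℝ × ℝ × ℝ × ℝ × ℝ × ℝ × ℝ × ℝ × ℝ × ℝ × ℝ =>
      Phi β γ α' α x y z v.1 v.2.1 v.2.2.1 v.2.2.2.1 v.2.2.2.2.1 v.2.2.2.2.2.1 v.2.2.2.2.2.2.1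
        v.2.2.2.2.2.2.2.1 v.2.2.2.2.2.2.2.2.1 v.2.2.2.2.2.2.2.2.2.1 v.2.2.2.2.2.2.2.2.2.2) := by
    unfold Phi det3; fun_prop
  have T2 := (C.tendsto _).comp T
  have := tendsto_nhds_unique_of_eventuallyEq T2 (tendsto_const_nhds (x := (0 : ℝ))) h
  simp only [Phi, zero_mul, add_zero] at this
  linarith

lemma on_line {s g t g' : ℝ} (hst : t - s ≠ 0) {z : P} (hz : tf s g ((g' - g) / (t - s)) z = 0) :
    z = ((s, g) : P) + ((z.1 - s) / (t - s)) • ((t, g') - (s, g)) := by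
  unfold tf at hz
  ext
  · simp; field_simp; ring
  · simp
    have : z.2 = g + (g' - g) / (t - s) * (z.1 - s) := by linarith
    rw [this]; field_simp

lemma sqrt_aux {η a r : ℝ} (hη : 0 < η) (ha : 0 < a) :
    √(a * (η ^ 2 * r * a)) = η * a * √r := by
  rw [show a * (η ^ 2 * r * a) = (η * a) ^ 2 * r by ring, Real.sqrt_mul (by positivity),
    Real.sqrt_sq (by positivity)]

lemma sqrt_aux2 {η r : ℝ} (hη : 0 < η) : √(η ^ 2 * r) = η * √r := by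
  rw [Real.sqrt_mul (by positivity), Real.sqrt_sq (by positivity)]

lemma step {Ω : Set P} (ho : IsOpen Ω) (hc : Convex ℝ Ω) (hH : H Ω) {s t gs gt σs σt : ℝ}
    (hst : s < t) (hb : (s, gs) ∈ closure Ω) (hβ : ∀ z ∈ Ω, 0 < tf s gs σs z)
    (hcc : (t, gt) ∈ closure Ω) (hγ : ∀ z ∈ Ω, 0 < tf t gt σt z)
    {Pp Q A : P} (hP : Pp ∈ closure Ω) (hQ : Q ∈ closure Ω) {α' α : P → ℝ} (ha' : IsAff α')
    (ha : IsAff α) (hα' : ∀ z ∈ Ω, 0 < α' z) (hα : ∀ z ∈ Ω, 0 < α z) (hP0 : α' Pp = 0)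
    (hQ0 : α Q = 0) (hA : A ∈ Ω) {τ τ' : ℝ} (e1 : A = ((s, gs) : P) + τ • (Pp - (s, gs)))
    (e2 : A = ((t, gt) : P) + τ' • (Q - (t, gt))) (hl : 0 < tf s gs ((gt - gs) / (t - s)) A)
    {η u w u' w' mh r r' : ℝ} (hη : 0 < η)
    (g1 : (s + (-1) * η ^ 2, gs + (-1) * η ^ 2 * u) ∈ closure Ω)
    (g2 : ∀ z ∈ Ω, 0 < tf (s + (-1) * η ^ 2) (gs + (-1) * η ^ 2 * u) (σs + (-1) * η ^ 2 * w) z)
    (g3 : (t + 1 * η ^ 2, gt + 1 * η ^ 2 * u') ∈ closure Ω)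
    (g4 : ∀ z ∈ Ω, 0 < tf (t + 1 * η ^ 2) (gt + 1 * η ^ 2 * u') (σt + 1 * η ^ 2 * w') z)
    (hm : mh = (gt - gs + η ^ 2 * (u + u')) / (t - s + 2 * η ^ 2))
    (hr : r * (A.2 - gs - mh * (A.1 - s)) = mh - u)
    (hr' : r' * (A.2 - gt - mh * (A.1 - t)) = u' - mh)
    (r0 : 0 < r) (r0' : 0 < r') (r1 : η ^ 2 * r < 1) (r1' : η ^ 2 * r' < 1)
    {db dc : P → ℝ} (hdb : ∀ z, db z = u - σs + η ^ 2 * w + w * (z.1 - s))
    (hdc : ∀ z, dc z = σt - u' + η ^ 2 * w' - w' * (z.1 - t)) :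
    Phi (tf s gs σs) (tf t gt σt) α' α (s, gs) (t, gt) A η
      (tf s gs σs A * √r / √(α' A * (α' (s, gs) + η ^ 2 * r * (α' A - α' (s, gs)))))
      (tf t gt σt A * √r' / √((α (t, gt) + η ^ 2 * r' * (α A - α (t, gt))) * α A))
      (√((db (s, gs) + r * (tf s gs σs A + η ^ 2 * (db A - db (s, gs)))) *
        (tf s gs σs (t, gt) + η ^ 2 * db (t, gt) + η ^ 2 * r' * (tf s gs σs A + η ^ 2 * db A -
          (tf s gs σs (t, gt) + η ^ 2 * db (t, gt))))))⁻¹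
      (√((dc (t, gt) + r' * (tf t gt σt A + η ^ 2 * (dc A - dc (t, gt)))) *
        (tf t gt σt (s, gs) + η ^ 2 * dc (s, gs) + η ^ 2 * r * (tf t gt σt A + η ^ 2 * dc A -
          (tf t gt σt (s, gs) + η ^ 2 * dc (s, gs))))))⁻¹
      (db (s, gs)) (db (t, gt)) (db A) (dc (s, gs)) (dc (t, gt)) (dc A) = 0 := by
  set b : P := (s, gs) with hbd
  set c : P := (t, gt) with hcd
  set β := tf s gs σs with hβd
  set γ := tf t gt σt with hγd
  set β1 := tf (s + (-1) * η ^ 2) (gs + (-1) * η ^ 2 * u) (σs + (-1) * η ^ 2 * w) with hβ1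
  set γ1 := tf (t + 1 * η ^ 2) (gt + 1 * η ^ 2 * u') (σt + 1 * η ^ 2 * w') with hγ1
  have eβ : ∀ z, β1 z = β z + η ^ 2 * db z := fun z => by
    rw [hdb]; simp only [hβ1, hβd, tf]; ring
  have eγ : ∀ z, γ1 z = γ z + η ^ 2 * dc z := fun z => by
    rw [hdc]; simp only [hγ1, hγd, tf]; ring
  have βb : β b = 0 := by simp [hβd, hbd, tf]
  have γc : γ c = 0 := by simp [hγd, hcd, tf]
  set B := b + (η ^ 2 * r) • (A - b) with hB
  set C := c + (η ^ 2 * r') • (A - c) with hC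
  have hBΩ : B ∈ Ω := combo_mem ho hc hb hA (by positivity) r1.le
  have hCΩ : C ∈ Ω := combo_mem ho hc hcc hA (by positivity) r1'.le
  have hden : t - s + 2 * η ^ 2 ≠ 0 := by have : 0 < t - s := by linarith
                                          positivity
  have hden' : t + 1 * η ^ 2 - (s + (-1) * η ^ 2) ≠ 0 := by intro h; apply hden; linarith
  have hm' : (gt + 1 * η ^ 2 * u' - (gs + (-1) * η ^ 2 * u)) /
      (t + 1 * η ^ 2 - (s + (-1) * η ^ 2)) = mh := by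
    rw [hm]; congr 1 <;> ring
  have hm2 : mh * (t - s + 2 * η ^ 2) = gt - gs + η ^ 2 * (u + u') := by
    rw [hm]; exact div_mul_cancel₀ _ hden
  have lB := on_line (g := gs + (-1) * η ^ 2 * u) (g' := gt + 1 * η ^ 2 * u') hden' (z := B) (by
    rw [hm']; simp [tf, hB, hbd]; linear_combination η ^ 2 * hr)
  have lC := on_line (g := gs + (-1) * η ^ 2 * u) (g' := gt + 1 * η ^ 2 * u') hden' (z := C) (by
    rw [hm']; simp [tf, hC, hcd]; linear_combination η ^ 2 * hr' - hm2)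
  have hN : NC A B C := by
    unfold NC
    have : (B.1 - A.1) * (C.2 - A.2) - (B.2 - A.2) * (C.1 - A.1) =
        (1 - η ^ 2 * r) * (1 - η ^ 2 * r') * ((t - s) * tf s gs ((gt - gs) / (t - s)) A) := by
      have : t - s ≠ 0 := by linarith
      simp [hB, hC, hbd, hcd, tf]; field_simp; ring
    rw [this]
    have : 0 < t - s := by linarith
    have : 0 < 1 - η ^ 2 * r := by linarith
    have : 0 < 1 - η ^ 2 * r' := by linarith
    positivity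
  have c1 : Ch Ω A B (fun z => β z / √(β A * β B) - α' z / √(α' A * α' B)) :=
    ⟨b, Pp, τ, η ^ 2 * r * τ, β, α', tf_aff _ _ _, ha', hb, hP, βb, hP0, hβ, hα', e1,
      by rw [hB, e1]; ext <;> simp <;> ring, fun z => rfl⟩
  have c2 : Ch Ω B C (fun z => β1 z / √(β1 B * β1 C) - γ1 z / √(γ1 B * γ1 C)) :=
    ⟨_, _, _, _, β1, γ1, tf_aff _ _ _, tf_aff _ _ _, g1, g3, by simp [hβ1, tf], by simp [hγ1, tf],
      g2, g4, lB, lC, fun z => rfl⟩
  have c3 : Ch Ω C A (fun z => γ z / √(γ C * γ A) - α z / √(α C * α A)) :=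
    ⟨c, Q, η ^ 2 * r' * τ', τ', γ, α, tf_aff _ _ _, ha, hcc, hQ, γc, hQ0, hγ, hα,
      by rw [hC, e2]; ext <;> simp <;> ring, e2, fun z => rfl⟩
  have hD := hH A B C hA hBΩ hCΩ hN _ _ _ c1 c2 c3 b c A
  have βA := hβ A hA
  have γA := hγ A hA
  have sr : 0 < √r := Real.sqrt_pos.2 r0
  have sr' : 0 < √r' := Real.sqrt_pos.2 r0'
  have aβ : IsAff β := tf_aff _ _ _
  have aγ : IsAff γ := tf_aff _ _ _
  have aβ1 : IsAff β1 := tf_aff _ _ _
  have aγ1 : IsAff γ1 := tf_aff _ _ _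
  refine alg (k1 := η * β A * √r) (k3 := η * γ A * √r') hη.ne' (fun z => ?_) (fun z => ?_)
    (fun z => ?_) hD
  · have : β B = η ^ 2 * r * β A := by rw [hB, aβ.line, βb]; ring
    rw [this, sqrt_aux hη βA, hB, ha'.line]
    field_simp
  · have : γ C = η ^ 2 * r' * γ A := by rw [hC, aγ.line, γc]; ring
    rw [this, mul_comm (η ^ 2 * r' * γ A) (γ A), sqrt_aux hη γA, hC, ha.line]
    field_simp
  · have k1 : β1 B * β1 C = η ^ 2 * ((db b + r * (β A + η ^ 2 * (db A - db b))) *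
        (β c + η ^ 2 * db c + η ^ 2 * r' * (β A + η ^ 2 * db A - (β c + η ^ 2 * db c)))) := by
      rw [hB, hC, aβ1.line, aβ1.line]; simp only [eβ, βb]; ring
    have k2 : γ1 B * γ1 C = η ^ 2 * ((dc c + r' * (γ A + η ^ 2 * (dc A - dc c))) *
        (γ b + η ^ 2 * dc b + η ^ 2 * r * (γ A + η ^ 2 * dc A - (γ b + η ^ 2 * dc b)))) := by
      rw [hB, hC, aγ1.line, aγ1.line]; simp only [eγ, γc]; ring
    rw [k1, k2, sqrt_aux2 hη, sqrt_aux2 hη, eβ, eγ]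
    field_simp

lemma rel0 {Ω : Set P} (ho : IsOpen Ω) (hc : Convex ℝ Ω) (hH : H Ω) {s t gs gt σs σt : ℝ}
    (hst : s < t) (Gs : Good Ω (-1) s gs σs) (Gt : Good Ω 1 t gt σt)
    (hm1 : σs < (gt - gs) / (t - s)) (hm2 : (gt - gs) / (t - s) < σt)
    {Pp Q A : P} (hP : Pp ∈ closure Ω) (hQ : Q ∈ closure Ω) {α' α : P → ℝ} (ha' : IsAff α')
    (ha : IsAff α) (hα' : ∀ z ∈ Ω, 0 < α' z) (hα : ∀ z ∈ Ω, 0 < α z) (hP0 : α' Pp = 0)
    (hQ0 : α Q = 0) (hA : A ∈ Ω) {τ τ' : ℝ} (e1 : A = ((s, gs) : P) + τ • (Pp - (s, gs)))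
    (e2 : A = ((t, gt) : P) + τ' • (Q - (t, gt))) (hl : 0 < tf s gs ((gt - gs) / (t - s)) A) :
    0 < α' (s, gs) ∧ 0 < α (t, gt) ∧
    tf t gt σt A * D3 (tf s gs σs) (tf t gt σt) α (s, gs) (t, gt) A ^ 2 *
      (α' A * α' (s, gs) * tf s gs σs (t, gt)) =
    tf s gs σs A * D3 α' (tf s gs σs) (tf t gt σt) (s, gs) (t, gt) A ^ 2 *
      (α (t, gt) * α A * tf t gt σt (s, gs)) := by
  obtain ⟨hb, hβ, u, w, w0, hu, hw, ev1⟩ := Gs
  obtain ⟨hcc, hγ, u', w', w0', hu', hw', ev2⟩ := Gt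
  have hts : 0 < t - s := by linarith
  set m := (gt - gs) / (t - s) with hm
  have hmm : m * (t - s) = gt - gs := div_mul_cancel₀ _ hts.ne'
  have a1 := hα' A hA; have a2 := hα A hA
  have p1 : 0 < α' (s, gs) := by
    have h := ha'.nonneg hα' hb
    rcases h.eq_or_lt with h | h
    · rw [e1, ha'.line, ← h, hP0] at a1; simp at a1
    · exact h
  have p2 : 0 < α (t, gt) := by
    have h := ha.nonneg hα hcc
    rcases h.eq_or_lt with h | h
    · rw [e2, ha.line, ← h, hQ0] at a2; simp at a2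
    · exact h
  refine ⟨p1, p2, ?_⟩
  have βA := hβ A hA; have γA := hγ A hA
  have βc : 0 < tf s gs σs (t, gt) := by simp only [tf]; nlinarith
  have γb : 0 < tf t gt σt (s, gs) := by simp only [tf]; nlinarith
  have hsq : Tendsto (fun η : ℝ => η ^ 2) (𝓝[>] 0) (𝓝[>] 0) := by
    refine tendsto_nhdsWithin_iff.2 ⟨?_, ?_⟩
    · have : Tendsto (fun η : ℝ => η ^ 2) (𝓝 0) (𝓝 (0 ^ 2)) := (continuous_pow 2).tendsto 0
      simpa using this.mono_left nhdsWithin_le_nhds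
    · filter_upwards [self_mem_nhdsWithin] with η hη
      exact pow_pos (show 0 < η from hη) 2
  have h0 : Tendsto (fun η : ℝ => η) (𝓝[>] 0) (𝓝 0) := tendsto_id.mono_left nhdsWithin_le_nhds
  have hh : Tendsto (fun η : ℝ => η ^ 2) (𝓝[>] 0) (𝓝 0) := hsq.mono_right nhdsWithin_le_nhds
  have tu : Tendsto (fun η : ℝ => u (η ^ 2)) (𝓝[>] 0) (𝓝 σs) := hu.comp hsq
  have tw : Tendsto (fun η : ℝ => w (η ^ 2)) (𝓝[>] 0) (𝓝 w0) := hw.comp hsq
  have tu' : Tendsto (fun η : ℝ => u' (η ^ 2)) (𝓝[>] 0) (𝓝 σt) := hu'.comp hsq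
  have tw' : Tendsto (fun η : ℝ => w' (η ^ 2)) (𝓝[>] 0) (𝓝 w0') := hw'.comp hsq
  set mh : ℝ → ℝ := fun η => (gt - gs + η ^ 2 * (u (η ^ 2) + u' (η ^ 2))) / (t - s + 2 * η ^ 2)
    with hmh
  have tm : Tendsto mh (𝓝[>] 0) (𝓝 m) := by
    have := ((hh.mul (tu.add tu')).const_add (gt - gs)).div ((hh.const_mul 2).const_add (t - s))
      (by simpa using hts.ne')
    simp only [zero_mul, mul_zero, add_zero] at this
    exact this
  have l1 : 0 < A.2 - gs - m * (A.1 - s) := hl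
  have l2 : 0 < A.2 - gt - m * (A.1 - t) := by nlinarith
  have td : Tendsto (fun η => A.2 - gs - mh η * (A.1 - s)) (𝓝[>] 0)
      (𝓝 (A.2 - gs - m * (A.1 - s))) := (tm.mul_const _).const_sub _
  have td' : Tendsto (fun η => A.2 - gt - mh η * (A.1 - t)) (𝓝[>] 0)
      (𝓝 (A.2 - gt - m * (A.1 - t))) := (tm.mul_const _).const_sub _
  set r : ℝ → ℝ := fun η => (mh η - u (η ^ 2)) / (A.2 - gs - mh η * (A.1 - s)) with hr
  set r' : ℝ → ℝ := fun η => (u' (η ^ 2) - mh η) / (A.2 - gt - mh η * (A.1 - t)) with hr'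
  set r0 := (m - σs) / (A.2 - gs - m * (A.1 - s)) with hr0
  set r0' := (σt - m) / (A.2 - gt - m * (A.1 - t)) with hr0'
  have r0p : 0 < r0 := div_pos (by linarith) l1
  have r0p' : 0 < r0' := div_pos (by linarith) l2
  have tr : Tendsto r (𝓝[>] 0) (𝓝 r0) := (tm.sub tu).div td l1.ne'
  have tr' : Tendsto r' (𝓝[>] 0) (𝓝 r0') := (tu'.sub tm).div td' l2.ne'
  have tδ : Tendsto (fun η => η ^ 2 * r η) (𝓝[>] 0) (𝓝 0) := by simpa using hh.mul tr
  have tε : Tendsto (fun η => η ^ 2 * r' η) (𝓝[>] 0) (𝓝 0) := by simpa using hh.mul tr'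
  set db : ℝ → P → ℝ := fun η z => u (η ^ 2) - σs + η ^ 2 * w (η ^ 2) + w (η ^ 2) * (z.1 - s)
    with hdb
  set dc : ℝ → P → ℝ := fun η z => σt - u' (η ^ 2) + η ^ 2 * w' (η ^ 2) - w' (η ^ 2) * (z.1 - t)
    with hdc
  have tdb : ∀ z : P, Tendsto (fun η => db η z) (𝓝[>] 0) (𝓝 (w0 * (z.1 - s))) := fun z => by
    have := ((tu.sub_const σs).add (hh.mul tw)).add (tw.mul_const (z.1 - s))
    simp only [sub_self, zero_mul, zero_add] at this
    exact this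
  have tdc : ∀ z : P, Tendsto (fun η => dc η z) (𝓝[>] 0) (𝓝 (-(w0' * (z.1 - t)))) := fun z => by
    have := ((tu'.const_sub σt).add (hh.mul tw')).sub (tw'.mul_const (z.1 - t))
    simp only [sub_self, zero_mul, zero_add, zero_sub] at this
    exact this
  have tX := (tr.sqrt.const_mul (tf s gs σs A)).div
    (((tδ.mul_const (α' A - α' (s, gs))).const_add (α' (s, gs))).const_mul (α' A)).sqrt
    (by simp only [zero_mul, add_zero]; positivity)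
  have tY := (tr'.sqrt.const_mul (tf t gt σt A)).div
    (((tε.mul_const (α A - α (t, gt))).const_add (α (t, gt))).mul_const (α A)).sqrt
    (by simp only [zero_mul, add_zero]; positivity)
  have tb1 : ∀ z : P, Tendsto (fun η => tf s gs σs z + η ^ 2 * db η z) (𝓝[>] 0)
      (𝓝 (tf s gs σs z)) := fun z => by simpa using (hh.mul (tdb z)).const_add (tf s gs σs z)
  have tc1 : ∀ z : P, Tendsto (fun η => tf t gt σt z + η ^ 2 * dc η z) (𝓝[>] 0)
      (𝓝 (tf t gt σt z)) := fun z => by simpa using (hh.mul (tdc z)).const_add (tf t gt σt z)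
  have tI1 := (((tdb (s, gs)).add (tr.mul ((hh.mul ((tdb A).sub (tdb (s, gs)))).const_add
    (tf s gs σs A)))).mul ((tb1 (t, gt)).add (tε.mul ((tb1 A).sub (tb1 (t, gt)))))).sqrt.inv₀
    (by simp only [zero_mul, add_zero, sub_self, mul_zero, zero_add]; positivity)
  have tI2 := (((tdc (t, gt)).add (tr'.mul ((hh.mul ((tdc A).sub (tdc (t, gt)))).const_add
    (tf t gt σt A)))).mul ((tc1 (s, gs)).add (tδ.mul ((tc1 A).sub (tc1 (s, gs)))))).sqrt.inv₀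
    (by simp only [zero_mul, add_zero, sub_self, mul_zero, zero_add, neg_zero]; positivity)
  have key := lim (β := tf s gs σs) (γ := tf t gt σt) (α' := α') (α := α) (x := (s, gs))
    (y := (t, gt)) (z := A) h0 tX tY tI1 tI2 (tdb (s, gs)) (tdb (t, gt)) (tdb A) (tdc (s, gs))
    (tdc (t, gt)) (tdc A) (by
      filter_upwards [self_mem_nhdsWithin, hsq.eventually ev1, hsq.eventually ev2,
        td.eventually (lt_mem_nhds l1), td'.eventually (lt_mem_nhds l2),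
        tr.eventually (lt_mem_nhds r0p), tr'.eventually (lt_mem_nhds r0p'),
        tδ.eventually (gt_mem_nhds zero_lt_one), tε.eventually (gt_mem_nhds zero_lt_one)]
        with η k0 k1 k2 k3 k4 k5 k6 k7 k8
      exact step ho hc hH hst hb hβ hcc hγ hP hQ ha' ha hα' hα hP0 hQ0 hA e1 e2 hl
        (mh := mh η) (r := r η) (r' := r' η) k0 k1.1 k1.2 k2.1 k2.2 rfl
        (div_mul_cancel₀ _ k3.ne') (div_mul_cancel₀ _ k4.ne') k5 k6 k7 k8 (fun z => rfl)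
        (fun z => rfl))
  simp only [zero_mul, add_zero, sub_self, mul_zero, zero_add, neg_zero] at key
  have k2 := congrArg (· ^ 2) key
  simp only [mul_pow, div_pow, inv_pow] at k2
  rw [Real.sq_sqrt r0p.le, Real.sq_sqrt r0p'.le, Real.sq_sqrt (by positivity),
    Real.sq_sqrt (by positivity), Real.sq_sqrt (by positivity), Real.sq_sqrt (by positivity)] at k2
  field_simp at k2
  linear_combination k2

end Pool.Agent.H52.HB
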