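import Pool.Agent.H52.HB2

set_option autoImplicit false

namespace Pool.Agent.H52.HB
open Set Filter Topology

structure Fr (Ω : Set P) (s t gs gt σs σt m : ℝ) : Prop where
  hst : s < t
  Gs : Good Ω (-1) s gs σs
  Gt : Good Ω 1 t gt σt
  hm : m = (gt - gs) / (t - s)
  hm1 : σs < m
  hm2 : m < σt

def Pt (Ω : Set P) (s t gs gt σs σt m : ℝ) (Z : P) (x1 x2 v1 v2 v3 : ℝ) : Prop :=
  Z ∈ closure Ω ∧ 0 < tf s gs m Z ∧ tf t gt σt Z = x1 * tf s gs m Z ∧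
    tf s gs σs Z = x2 * tf s gs m Z ∧
    (∀ z ∈ Ω, 0 < v1 * tf t gt σt z + v2 * tf s gs σs z + v3 * tf s gs m z) ∧
    v1 * x1 + v2 * x2 + v3 = 0

variable {Ω : Set P} {s t gs gt σs σt m : ℝ}

lemma Fr.hmm (F : Fr Ω s t gs gt σs σt m) : gt = gs + m * (t - s) := by
  have : t - s ≠ 0 := by linarith [F.hst]
  rw [F.hm, div_mul_cancel₀ _ this]; ring

lemma Fr.βc (F : Fr Ω s t gs gt σs σt m) : 0 < tf s gs σs (t, gt) := by
  have := F.hmm; have := F.hst; have := F.hm1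
  simp only [tf]; nlinarith

lemma Fr.γb (F : Fr Ω s t gs gt σs σt m) : 0 < tf t gt σt (s, gs) := by
  have := F.hmm; have := F.hst; have := F.hm2
  simp only [tf]; nlinarith

lemma Fr.lc (F : Fr Ω s t gs gt σs σt m) : tf s gs m (t, gt) = 0 := by
  have := F.hmm
  simp only [tf]; linarith

lemma tf_self (s g σ : ℝ) : tf s g σ (s, g) = 0 := by simp [tf]

lemma Fr.van (F : Fr Ω s t gs gt σs σt m) {φ : P → ℝ} (h : IsAff φ) (h1 : φ (s, gs) = 0)
    (h2 : φ (t, gt) = 0) : ∃ v : ℝ, ∀ z, φ z = v * tf s gs m z := by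
  obtain ⟨c, a, b, h⟩ := h
  have hts : t - s ≠ 0 := by linarith [F.hst]
  rw [h] at h1 h2
  simp only at h1 h2
  have e := F.hmm
  have : a = -b * m := by
    apply mul_right_cancel₀ hts
    rw [e] at h2; linear_combination h2 - h1
  refine ⟨b, fun z => ?_⟩
  rw [h, tf]; rw [this] at h1 ⊢; linear_combination h1

lemma Fr.expand (F : Fr Ω s t gs gt σs σt m) {φ : P → ℝ} (h : IsAff φ) :
    ∃ v1 v2 v3 : ℝ, ∀ z, φ z = v1 * tf t gt σt z + v2 * tf s gs σs z + v3 * tf s gs m z := by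
  have h1 := F.βc; have h2 := F.γb
  obtain ⟨v, hv⟩ := F.van (φ := fun z => φ z - φ (s, gs) / tf t gt σt (s, gs) * tf t gt σt z -
    φ (t, gt) / tf s gs σs (t, gt) * tf s gs σs z) (by
      obtain ⟨c, a, b, h⟩ := h
      generalize φ (s, gs) / tf t gt σt (s, gs) = k1
      generalize φ (t, gt) / tf s gs σs (t, gt) = k2
      exact ⟨c - k1 * (σt * t - gt) - k2 * (σs * s - gs), a + k1 * σt + k2 * σs, b - k1 - k2,
        fun z => by simp only [h, tf]; ring⟩)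
    (by simp only [tf_self]; field_simp; ring) (by simp only [tf_self]; field_simp; ring)
  exact ⟨φ (s, gs) / tf t gt σt (s, gs), φ (t, gt) / tf s gs σs (t, gt), v,
    fun z => by have := hv z; linarith⟩

lemma comb_aff (v1 v2 v3 : ℝ) :
    IsAff (fun z => v1 * tf t gt σt z + v2 * tf s gs σs z + v3 * tf s gs m z) :=
  ⟨v1 * (σt * t - gt) + v2 * (σs * s - gs) + v3 * (m * s - gs), -v1 * σt - v2 * σs - v3 * m,
    v1 + v2 + v3, fun z => by simp only [tf]; ring⟩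

lemma Fr.inj (F : Fr Ω s t gs gt σs σt m) {z z' : P} {x1 x2 : ℝ}
    (h1 : tf t gt σt z = x1 * tf s gs m z) (h2 : tf s gs σs z = x2 * tf s gs m z)
    (h1' : tf t gt σt z' = x1 * tf s gs m z') (h2' : tf s gs σs z' = x2 * tf s gs m z') :
    z = z' := by
  obtain ⟨k1, k2, k3, hk⟩ := F.expand (φ := fun _ => 1) ⟨1, 0, 0, fun z => by ring⟩
  have e1 := hk z; have e2 := hk z'
  rw [h1, h2] at e1; rw [h1', h2'] at e2
  have e : tf s gs m z = tf s gs m z' := by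
    linear_combination tf s gs m z * e2 - tf s gs m z' * e1
  obtain ⟨a1, a2, a3, ha⟩ := F.expand (φ := fun z => z.1) ⟨0, 1, 0, fun z => by ring⟩
  obtain ⟨b1, b2, b3, hb⟩ := F.expand (φ := fun z => z.2) ⟨0, 0, 1, fun z => by ring⟩
  ext
  · rw [ha z, ha z', h1, h2, h1', h2', e]
  · rw [hb z, hb z', h1, h2, h1', h2', e]

lemma Pt.nn (F : Fr Ω s t gs gt σs σt m) {Z : P} {x1 x2 v1 v2 v3 : ℝ}
    (h : Pt Ω s t gs gt σs σt m Z x1 x2 v1 v2 v3) : 0 ≤ x1 ∧ 0 ≤ x2 := by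
  obtain ⟨h1, h2, h3, h4, -, -⟩ := h
  have a := (tf_aff _ _ _).nonneg F.Gt.2.1 h1
  have b := (tf_aff _ _ _).nonneg F.Gs.2.1 h1
  rw [h3] at a; rw [h4] at b
  exact ⟨nonneg_of_mul_nonneg_left a h2, nonneg_of_mul_nonneg_left b h2⟩

lemma Fr.rel (F : Fr Ω s t gs gt σs σt m) (ho : IsOpen Ω) (hc : Convex ℝ Ω) (hH : H Ω)
    (hne : Ω.Nonempty) {Pp Q : P} {p1 p2 u1 u2 u3 q1 q2 v1 v2 v3 : ℝ}
    (hP : Pt Ω s t gs gt σs σt m Pp p1 p2 u1 u2 u3) (hQ : Pt Ω s t gs gt σs σt m Q q1 q2 v1 v2 v3)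
    (l1 : p1 < q1) (l2 : q2 < p2) :
    0 < u1 ∧ 0 < v2 ∧ (p2 * u3 / u1) ^ 2 * (1 - q2 / p2) = (q1 * v3 / v2) ^ 2 * (1 - p1 / q1) := by
  have n1 := hP.nn F; have n2 := hQ.nn F
  obtain ⟨P1, P2, P3, P4, P5, P6⟩ := hP
  obtain ⟨Q1, Q2, Q3, Q4, Q5, Q6⟩ := hQ
  have βc := F.βc; have γb := F.γb; have lc := F.lc
  set β := tf s gs σs with hβ
  set γ := tf t gt σt with hγ
  set l := tf s gs m with hl
  have aβ : IsAff β := tf_aff _ _ _
  have aγ : IsAff γ := tf_aff _ _ _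
  have al : IsAff l := tf_aff _ _ _
  have βb : β (s, gs) = 0 := tf_self _ _ _
  have γc : γ (t, gt) = 0 := tf_self _ _ _
  have lb : l (s, gs) = 0 := tf_self _ _ _
  have d1 : 0 < (q1 - p1) * l Pp := mul_pos (by linarith) P2
  have d2 : 0 < (p2 - q2) * l Q := mul_pos (by linarith) Q2
  set τ := γ (s, gs) / (γ (s, gs) + (q1 - p1) * l Pp) with hτ
  set τ' := β (t, gt) / (β (t, gt) + (p2 - q2) * l Q) with hτ'
  have τ0 : 0 < τ := by positivity
  have τ0' : 0 < τ' := by positivity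
  have τ1 : τ < 1 := (div_lt_one (by positivity)).2 (by linarith)
  have τ1' : τ' < 1 := (div_lt_one (by positivity)).2 (by linarith)
  have τe : τ * (γ (s, gs) + (q1 - p1) * l Pp) = γ (s, gs) := div_mul_cancel₀ _ (by positivity)
  have τe' : τ' * (β (t, gt) + (p2 - q2) * l Q) = β (t, gt) := div_mul_cancel₀ _ (by positivity)
  set A := ((s, gs) : P) + τ • (Pp - (s, gs)) with hA
  have lA : l A = τ * l Pp := by rw [hA, al.line, lb]; ring
  have γA : γ A = q1 * l A := by rw [lA, hA, aγ.line, P3]; linear_combination -τe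
  have βA : β A = p2 * l A := by rw [lA, hA, aβ.line, P4, βb]; ring
  have e2 : A = ((t, gt) : P) + τ' • (Q - (t, gt)) := by
    refine F.inj γA βA ?_ ?_
    · rw [← hγ, ← hl, aγ.line, al.line, lc, γc, Q3]; ring
    · rw [← hβ, ← hl, aβ.line, al.line, lc, Q4]; linear_combination -τe'
  have hAΩ : A ∈ Ω := by
    by_contra hn
    obtain ⟨φ, a1, a2, a3⟩ := exists_sup ho hc hn
    have k1 := a1.nonneg a3 F.Gs.1
    have k2 := a1.nonneg a3 F.Gt.1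
    have k3 := a1.nonneg a3 P1
    have k4 := a1.nonneg a3 Q1
    have j1 := a2; have j2 := a2
    rw [hA, a1.line] at j1
    rw [e2, a1.line] at j2
    obtain ⟨v, hv⟩ := F.van a1 (by nlinarith) (by nlinarith)
    obtain ⟨z, hz⟩ := hne
    have := a3 z hz
    rw [hv] at a2 this
    rw [← hl] at a2 this
    have : v = 0 := by
      rcases mul_eq_zero.1 a2 with h | h
      · exact h
      · rw [lA] at h; nlinarith
    simp_all
  have lA0 : 0 < l A := by rw [lA]; positivity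
  have R := rel0 ho hc hH F.hst F.Gs F.Gt (F.hm ▸ F.hm1) (F.hm ▸ F.hm2) P1 Q1
    (comb_aff (s := s) (t := t) (gs := gs) (gt := gt) (σs := σs) (σt := σt) (m := m) u1 u2 u3)
    (comb_aff (s := s) (t := t) (gs := gs) (gt := gt) (σs := σs) (σt := σt) (m := m) v1 v2 v3)
    P5 Q5 (by simp only [← hβ, ← hγ, ← hl, P3, P4]; linear_combination l Pp * P6)
    (by simp only [← hβ, ← hγ, ← hl, Q3, Q4]; linear_combination l Q * Q6) hAΩ hA e2
    (F.hm ▸ lA0)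
  simp only [D3, ← hβ, ← hγ, ← hl, βb, γc, lb, lc, γA, βA, mul_zero, add_zero, zero_add] at R
  obtain ⟨R1, R2, R3⟩ := R
  have u0 : 0 < u1 := pos_of_mul_pos_left R1 γb.le
  have v0 : 0 < v2 := pos_of_mul_pos_left R2 βc.le
  refine ⟨u0, v0, ?_⟩
  have q0 : 0 < q1 := by linarith [n1.1]
  have p0 : 0 < p2 := by linarith [n2.2]
  have hu3 : u3 = -(u1 * p1 + u2 * p2) := by linarith
  have hv3 : v3 = -(v1 * q1 + v2 * q2) := by linarith
  have key : (γ (s, gs) ^ 3 * β (t, gt) ^ 3 * l A ^ 4) *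
      (q1 * v3 ^ 2 * u1 ^ 2 * (q1 - p1) - p2 * u3 ^ 2 * v2 ^ 2 * (p2 - q2)) = 0 := by
    rw [hu3, hv3] at R3 ⊢
    linear_combination R3
  rcases mul_eq_zero.1 key with h | h
  · exact absurd h (by positivity)
  · field_simp
    linear_combination -h

lemma Fr.apprb (F : Fr Ω s t gs gt σs σt m) : ∃ (Z : ℝ → P) (x1 x2 v1 v2 v3 : ℝ → ℝ),
    Tendsto x2 (𝓝[>] 0) (𝓝 0) ∧ Tendsto (fun h => (x1 h)⁻¹) (𝓝[>] 0) (𝓝 0) ∧
    ∀ᶠ h in 𝓝[>] 0, 0 < x1 h ∧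
      Pt Ω s t gs gt σs σt m (Z h) (x1 h) (x2 h) (v1 h) (v2 h) (v3 h) := by
  obtain ⟨-, -, u, w, w0, hu, -, ev⟩ := F.Gs
  choose v1 v2 v3 hv using fun h : ℝ => F.expand
    (tf_aff (s + (-1) * h) (gs + (-1) * h * u h) (σs + (-1) * h * w h))
  have h0 : Tendsto (fun η : ℝ => η) (𝓝[>] 0) (𝓝 0) := tendsto_id.mono_left nhdsWithin_le_nhds
  have m0 : 0 < m - σs := by linarith [F.hm1]
  have γb := F.γb
  have t1 : Tendsto (fun h => m - u h) (𝓝[>] 0) (𝓝 (m - σs)) := hu.const_sub m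
  have t2 : Tendsto (fun h => tf t gt σt (s, gs) + h * (σt - u h)) (𝓝[>] 0)
      (𝓝 (tf t gt σt (s, gs))) := by
    simpa using (h0.mul (hu.const_sub σt)).const_add (tf t gt σt (s, gs))
  refine ⟨fun h => (s + (-1) * h, gs + (-1) * h * u h),
    fun h => (tf t gt σt (s, gs) + h * (σt - u h)) / (h * (m - u h)),
    fun h => (σs - u h) / (m - u h), v1, v2, v3, ?_, ?_, ?_⟩
  · simpa [Pi.div_def] using (hu.const_sub σs).div t1 m0.ne'
  · simp only [inv_div]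
    simpa [Pi.div_def] using (h0.mul t1).div t2 γb.ne'
  · filter_upwards [ev, self_mem_nhdsWithin, t1.eventually (lt_mem_nhds m0),
      t2.eventually (lt_mem_nhds γb)] with h k1 k2 k3 k4
    have k2' : 0 < h := k2
    have e1 : tf s gs m (s + (-1) * h, gs + (-1) * h * u h) = h * (m - u h) := by
      simp only [tf]; ring
    have e2 : tf t gt σt (s + (-1) * h, gs + (-1) * h * u h) =
        (tf t gt σt (s, gs) + h * (σt - u h)) / (h * (m - u h)) * (h * (m - u h)) := by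
      rw [div_mul_cancel₀ _ (by positivity)]; simp only [tf]; ring
    have e3 : tf s gs σs (s + (-1) * h, gs + (-1) * h * u h) =
        (σs - u h) / (m - u h) * (h * (m - u h)) := by
      simp only [tf]; field_simp; ring
    refine ⟨by positivity, k1.1, by rw [e1]; positivity, by rw [e1, e2], by rw [e1, e3],
      fun z hz => by rw [← hv]; exact k1.2 z hz, ?_⟩
    have := hv h (s + (-1) * h, gs + (-1) * h * u h)
    rw [tf_self, e1, e2, e3] at this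
    apply mul_right_cancel₀ (b := h * (m - u h)) (by positivity)
    linear_combination -this

lemma Fr.apprc (F : Fr Ω s t gs gt σs σt m) : ∃ (Z : ℝ → P) (x1 x2 v1 v2 v3 : ℝ → ℝ),
    Tendsto x1 (𝓝[>] 0) (𝓝 0) ∧ Tendsto (fun h => (x2 h)⁻¹) (𝓝[>] 0) (𝓝 0) ∧
    ∀ᶠ h in 𝓝[>] 0, 0 < x2 h ∧
      Pt Ω s t gs gt σs σt m (Z h) (x1 h) (x2 h) (v1 h) (v2 h) (v3 h) := by
  obtain ⟨-, -, u, w, w0, hu, -, ev⟩ := F.Gt
  choose v1 v2 v3 hv using fun h : ℝ => F.expand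
    (tf_aff (t + 1 * h) (gt + 1 * h * u h) (σt + 1 * h * w h))
  have h0 : Tendsto (fun η : ℝ => η) (𝓝[>] 0) (𝓝 0) := tendsto_id.mono_left nhdsWithin_le_nhds
  have m0 : 0 < σt - m := by linarith [F.hm2]
  have βc := F.βc
  have hmm := F.hmm
  have t1 : Tendsto (fun h => u h - m) (𝓝[>] 0) (𝓝 (σt - m)) := hu.sub_const m
  have t2 : Tendsto (fun h => tf s gs σs (t, gt) + h * (u h - σs)) (𝓝[>] 0)
      (𝓝 (tf s gs σs (t, gt))) := by
    simpa using (h0.mul (hu.sub_const σs)).const_add (tf s gs σs (t, gt))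
  refine ⟨fun h => (t + 1 * h, gt + 1 * h * u h), fun h => (u h - σt) / (u h - m),
    fun h => (tf s gs σs (t, gt) + h * (u h - σs)) / (h * (u h - m)), v1, v2, v3, ?_, ?_, ?_⟩
  · simpa [Pi.div_def] using (hu.sub_const σt).div t1 m0.ne'
  · simp only [inv_div]
    simpa [Pi.div_def] using (h0.mul t1).div t2 βc.ne'
  · filter_upwards [ev, self_mem_nhdsWithin, t1.eventually (lt_mem_nhds m0),
      t2.eventually (lt_mem_nhds βc)] with h k1 k2 k3 k4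
    have k2' : 0 < h := k2
    have e1 : tf s gs m (t + 1 * h, gt + 1 * h * u h) = h * (u h - m) := by
      simp only [tf]; linear_combination hmm
    have e2 : tf s gs σs (t + 1 * h, gt + 1 * h * u h) =
        (tf s gs σs (t, gt) + h * (u h - σs)) / (h * (u h - m)) * (h * (u h - m)) := by
      rw [div_mul_cancel₀ _ (by positivity)]; simp only [tf]; ring
    have e3 : tf t gt σt (t + 1 * h, gt + 1 * h * u h) =
        (u h - σt) / (u h - m) * (h * (u h - m)) := by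
      simp only [tf]; field_simp; ring
    refine ⟨by positivity, k1.1, by rw [e1]; positivity, by rw [e1, e3], by rw [e1, e2],
      fun z hz => by rw [← hv]; exact k1.2 z hz, ?_⟩
    have := hv h (t + 1 * h, gt + 1 * h * u h)
    rw [tf_self, e1, e2, e3] at this
    apply mul_right_cancel₀ (b := h * (u h - m)) (by positivity)
    linear_combination -this

lemma Fr.toPt (F : Fr Ω s t gs gt σs σt m) {Z : P} (hZ : Z ∈ closure Ω) (hl : 0 < tf s gs m Z)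
    {α : P → ℝ} (ha : IsAff α) (hα : ∀ z ∈ Ω, 0 < α z) (h0 : α Z = 0) :
    ∃ x1 x2 v1 v2 v3 : ℝ, (∀ z, α z = v1 * tf t gt σt z + v2 * tf s gs σs z + v3 * tf s gs m z) ∧
      Pt Ω s t gs gt σs σt m Z x1 x2 v1 v2 v3 := by
  obtain ⟨v1, v2, v3, hv⟩ := F.expand ha
  refine ⟨tf t gt σt Z / tf s gs m Z, tf s gs σs Z / tf s gs m Z, v1, v2, v3, hv, hZ, hl,
    (div_mul_cancel₀ _ hl.ne').symm, (div_mul_cancel₀ _ hl.ne').symm,
    fun z hz => by rw [← hv]; exact hα z hz, ?_⟩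
  rw [hv] at h0
  field_simp
  linarith

lemma lim2 {K a b : ℝ → ℝ} {N : ℝ} (ha : Tendsto a (𝓝[>] 0) (𝓝 0)) (hb : Tendsto b (𝓝[>] 0) (𝓝 0))
    (h : ∀ᶠ h in 𝓝[>] (0 : ℝ), N * (1 - a h) = K h * (1 - b h)) : Tendsto K (𝓝[>] 0) (𝓝 N) := by
  have t := ((ha.const_sub 1).const_mul N).div (hb.const_sub 1) (by simp)
  simp only [sub_zero, mul_one, div_one] at t
  refine t.congr' ?_
  filter_upwards [h, hb.eventually (gt_mem_nhds zero_lt_one)] with h h1 h2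
  have : 1 - b h ≠ 0 := by linarith
  simp only [Pi.div_apply]
  rw [h1, mul_div_cancel_right₀ _ this]

lemma ev_lt {x : ℝ → ℝ} (hx : Tendsto (fun h => (x h)⁻¹) (𝓝[>] 0) (𝓝 0)) (p : ℝ) :
    ∀ᶠ h in 𝓝[>] (0 : ℝ), 0 < x h → p < x h := by
  have : Tendsto (fun h => p * (x h)⁻¹) (𝓝[>] 0) (𝓝 0) := by simpa using hx.const_mul p
  filter_upwards [this.eventually (gt_mem_nhds zero_lt_one)] with h h1 h2
  rwa [← div_eq_mul_inv, div_lt_one h2] at h1

def Bf (s t gs gt σs σt m κ : ℝ) (Z w : P) : ℝ :=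
  tf s gs σs Z * tf t gt σt w + tf t gt σt Z * tf s gs σs w - κ * tf s gs m Z * tf s gs m w

lemma Fr.polar (F : Fr Ω s t gs gt σs σt m) (ho : IsOpen Ω) (hc : Convex ℝ Ω) (hH : H Ω)
    (hne : Ω.Nonempty) {T : P} (hT : T ∈ closure Ω) (hT' : T ∉ Ω) (T1 : 0 < tf s gs m T)
    (T2 : 0 < tf s gs σs T) (T3 : 0 < tf t gt σt T) :
    ∃ κ : ℝ, 0 < κ ∧ ∀ Z ∈ closure Ω, 0 < tf s gs m Z → ∀ α : P → ℝ, IsAff α →
      (∀ z ∈ Ω, 0 < α z) → α Z = 0 → ∃ μ : ℝ, 0 < μ ∧ ∀ w, α w = μ * Bf s t gs gt σs σt m κ Z w := by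
  obtain ⟨Zb, x1, x2, a1, a2, a3, tb1, tb2, evb⟩ := F.apprb
  obtain ⟨Zc, y1, y2, c1, c2, c3, tc1, tc2, evc⟩ := F.apprc
  have S1 : ∀ {Pp : P} {p1 p2 u1 u2 u3 : ℝ}, Pt Ω s t gs gt σs σt m Pp p1 p2 u1 u2 u3 → 0 < p2 →
      0 < u1 ∧ Tendsto (fun h => (x1 h * a3 h / a2 h) ^ 2) (𝓝[>] 0) (𝓝 ((p2 * u3 / u1) ^ 2)) := by
    intro Pp p1 p2 u1 u2 u3 hP p0
    have ev : ∀ᶠ h in 𝓝[>] (0 : ℝ), 0 < u1 ∧ 0 < a2 h ∧ (p2 * u3 / u1) ^ 2 * (1 - x2 h / p2) =
        (x1 h * a3 h / a2 h) ^ 2 * (1 - p1 / x1 h) := by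
      filter_upwards [evb, ev_lt tb2 p1, tb1.eventually (gt_mem_nhds p0)] with h k1 k2 k3
      exact F.rel ho hc hH hne hP k1.2 (k2 k1.1) k3
    refine ⟨ev.exists.choose_spec.1, lim2 (a := fun h => x2 h / p2) (b := fun h => p1 / x1 h)
      (by simpa using tb1.div_const p2) (by simpa [div_eq_mul_inv] using tb2.const_mul p1)
      (ev.mono fun h k => k.2.2)⟩
  have S2 : ∀ {Q : P} {q1 q2 v1 v2 v3 : ℝ}, Pt Ω s t gs gt σs σt m Q q1 q2 v1 v2 v3 → 0 < q1 →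
      0 < v2 ∧ Tendsto (fun h => (y2 h * c3 h / c1 h) ^ 2) (𝓝[>] 0) (𝓝 ((q1 * v3 / v2) ^ 2)) := by
    intro Q q1 q2 v1 v2 v3 hQ q0
    have ev : ∀ᶠ h in 𝓝[>] (0 : ℝ), 0 < c1 h ∧ 0 < v2 ∧
        (y2 h * c3 h / c1 h) ^ 2 * (1 - q2 / y2 h) = (q1 * v3 / v2) ^ 2 * (1 - y1 h / q1) := by
      filter_upwards [evc, ev_lt tc2 q2, tc1.eventually (gt_mem_nhds q0)] with h k1 k2 k3
      exact F.rel ho hc hH hne k1.2 hQ k3 (k2 k1.1)
    refine ⟨ev.exists.choose_spec.2.1, lim2 (a := fun h => y1 h / q1) (b := fun h => q2 / y2 h)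
      (by simpa using tc1.div_const q1) (by simpa [div_eq_mul_inv] using tc2.const_mul q2)
      (ev.mono fun h k => k.2.2.symm)⟩
  obtain ⟨φ, f1, f2, f3⟩ := exists_sup ho hc hT'
  obtain ⟨t1, t2, w1, w2, w3, -, hTp⟩ := F.toPt hT T1 f1 f3 f2
  have t10 : 0 < t1 := by
    have := hTp.2.2.1; rw [this] at T3; exact pos_of_mul_pos_left T3 T1.le
  have t20 : 0 < t2 := by
    have := hTp.2.2.2.1; rw [this] at T2; exact pos_of_mul_pos_left T2 T1.le
  obtain ⟨w10, hN⟩ := S1 hTp t20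
  obtain ⟨w20, -⟩ := S2 hTp t10
  have w30 : w3 < 0 := by have := hTp.2.2.2.2.2; nlinarith
  set κ := -(t2 * w3 / w1) with hκ
  have κ0 : 0 < κ := by
    rw [hκ, neg_pos]; exact div_neg_of_neg_of_pos (mul_neg_of_pos_of_neg t20 w30) w10
  have κ2 : (t2 * w3 / w1) ^ 2 = κ ^ 2 := by rw [hκ]; ring
  rw [κ2] at hN
  have S1' : ∀ {Pp : P} {p1 p2 u1 u2 u3 : ℝ}, Pt Ω s t gs gt σs σt m Pp p1 p2 u1 u2 u3 → 0 < p2 →
      0 < u1 ∧ (p2 * u3 / u1) ^ 2 = κ ^ 2 := fun hP p0 =>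
    ⟨(S1 hP p0).1, tendsto_nhds_unique (S1 hP p0).2 hN⟩
  have hC : Tendsto (fun h => (y2 h * c3 h / c1 h) ^ 2) (𝓝[>] 0) (𝓝 (κ ^ 2)) := by
    refine tendsto_const_nhds.congr' ?_
    filter_upwards [evc] with h k
    exact (S1' k.2 k.1).2.symm
  have S2' : ∀ {Q : P} {q1 q2 v1 v2 v3 : ℝ}, Pt Ω s t gs gt σs σt m Q q1 q2 v1 v2 v3 → 0 < q1 →
      0 < v2 ∧ (q1 * v3 / v2) ^ 2 = κ ^ 2 := fun hQ q0 =>
    ⟨(S2 hQ q0).1, tendsto_nhds_unique (S2 hQ q0).2 hC⟩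
  have pos2 : ∀ {Z : P} {z1 z2 v1 v2 v3 : ℝ}, Pt Ω s t gs gt σs σt m Z z1 z2 v1 v2 v3 →
      0 < z1 ∧ 0 < z2 := by
    intro Z z1 z2 v1 v2 v3 hZ
    obtain ⟨n1, n2⟩ := hZ.nn F
    obtain ⟨Z1, Z2, Z3, Z4, -, -⟩ := hZ
    have k1 : 0 < z1 → 0 < z2 := by
      intro h
      by_contra h'
      have h2 : z2 = 0 := by linarith
      have : Pt Ω s t gs gt σs σt m Z z1 z2 0 1 0 :=
        ⟨Z1, Z2, Z3, Z4, fun z hz => by simpa using F.Gs.2.1 z hz, by simp [h2]⟩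
      have := (S2' this h).2
      simp only [mul_zero, zero_div] at this
      nlinarith
    have k2 : 0 < z2 → 0 < z1 := by
      intro h
      by_contra h'
      have h2 : z1 = 0 := by linarith
      have : Pt Ω s t gs gt σs σt m Z z1 z2 1 0 0 :=
        ⟨Z1, Z2, Z3, Z4, fun z hz => by simpa using F.Gt.2.1 z hz, by simp [h2]⟩
      have := (S1' this h).2
      simp only [mul_zero, zero_div] at this
      nlinarith
    rcases n1.eq_or_lt with h1 | h1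
    · rcases n2.eq_or_lt with h2 | h2
      · exfalso
        rw [← h1] at Z3; rw [← h2] at Z4
        have := F.hmm; have := F.hst; have := F.hm1; have := F.hm2
        simp only [tf] at Z2 Z3 Z4
        have e1 : Z.1 < s := by nlinarith
        have e2 : t < Z.1 := by nlinarith
        linarith
      · exact ⟨k2 h2, h2⟩
    · exact ⟨h1, k1 h1⟩
  refine ⟨κ, κ0, fun Z hZ hl α ha hα h0 => ?_⟩
  obtain ⟨z1, z2, v1, v2, v3, hv, hZp⟩ := F.toPt hZ hl ha hα h0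
  obtain ⟨z10, z20⟩ := pos2 hZp
  obtain ⟨v10, e1⟩ := S1' hZp z20
  obtain ⟨v20, e2⟩ := S2' hZp z10
  obtain ⟨Z1, Z2, Z3, Z4, -, Z6⟩ := hZp
  have v30 : v3 < 0 := by nlinarith
  have n1 : z2 * v3 / v1 < 0 := div_neg_of_neg_of_pos (mul_neg_of_pos_of_neg z20 v30) v10
  have n2 : z1 * v3 / v2 < 0 := div_neg_of_neg_of_pos (mul_neg_of_pos_of_neg z10 v30) v20
  have f1 : z2 * v3 / v1 = -κ := by nlinarith
  have f2 : z1 * v3 / v2 = -κ := by nlinarith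
  rw [div_eq_iff v10.ne'] at f1
  rw [div_eq_iff v20.ne'] at f2
  refine ⟨-v3 / (κ * tf s gs m Z), div_pos (by linarith) (by positivity), fun w => ?_⟩
  rw [hv, Bf, Z3, Z4]
  field_simp
  linear_combination tf t gt σt w * f1 + tf s gs σs w * f2

end Pool.Agent.H52.HB
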