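import Pool.Agent.H52.HB3

set_option autoImplicit false

namespace Pool.Agent.H52.HB
open Set Filter Topology

variable {Ω : Set P} {s t gs gt σs σt m : ℝ}

lemma Fr.below (F : Fr Ω s t gs gt σs σt m) {z : P} (hz : z ∈ closure Ω) (h : tf s gs m z ≤ 0) :
    s ≤ z.1 ∧ z.1 ≤ t ∧ z.2 ≤ max gs gt := by
  have a := (tf_aff _ _ _).nonneg F.Gt.2.1 hz
  have b := (tf_aff _ _ _).nonneg F.Gs.2.1 hz
  have := F.hmm; have := F.hst; have := F.hm1; have := F.hm2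
  simp only [tf] at a b h
  have e1 : s ≤ z.1 := by nlinarith
  have e2 : z.1 ≤ t := by nlinarith
  refine ⟨e1, e2, ?_⟩
  rcases le_total 0 m with hm | hm
  · exact le_max_of_le_right (by nlinarith)
  · exact le_max_of_le_left (by nlinarith)

lemma Fr.matchq (F : Fr Ω s t gs gt σs σt m) {s' t' gs' gt' σs' σt' m' κ κ' μ ν : ℝ}
    (hμ : 0 < μ) (hν : 0 < ν)
    (h1 : ∀ w, tf s gs σs w = μ * Bf s' t' gs' gt' σs' σt' m' κ' (s, gs) w)
    (h2 : ∀ w, tf t gt σt w = ν * Bf s' t' gs' gt' σs' σt' m' κ' (t, gt) w)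
    {T : P} (T1 : 0 < tf s gs m T) (T2 : Bf s t gs gt σs σt m κ T T = 0)
    (T3 : Bf s' t' gs' gt' σs' σt' m' κ' T T = 0) {Z : P}
    (hZ : Bf s' t' gs' gt' σs' σt' m' κ' Z Z = 0) : Bf s t gs gt σs σt m κ Z Z = 0 := by
  set B := Bf s' t' gs' gt' σs' σt' m' κ' with hB
  have bb : B (s, gs) (s, gs) = 0 := by
    have := h1 (s, gs); rw [tf_self] at this
    exact (mul_eq_zero.1 this.symm).resolve_left hμ.ne'
  have cc : B (t, gt) (t, gt) = 0 := by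
    have := h2 (t, gt); rw [tf_self] at this
    exact (mul_eq_zero.1 this.symm).resolve_left hν.ne'
  have bc : 0 < B (s, gs) (t, gt) := by
    have := F.βc; rw [h1] at this; exact pos_of_mul_pos_right this hμ.le
  obtain ⟨v, hv⟩ := F.van (φ := D3 (tf t' gt' σt') (tf s' gs' σs') (tf s' gs' m') (s, gs) (t, gt))
    (by
      obtain ⟨a1, a2, a3, ha⟩ := comb_aff (s := s') (t := t') (gs := gs') (gt := gt') (σs := σs')
        (σt := σt') (m := m')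
        (tf s' gs' σs' (s, gs) * tf s' gs' m' (t, gt) - tf s' gs' σs' (t, gt) * tf s' gs' m' (s, gs))
        (tf t' gt' σt' (t, gt) * tf s' gs' m' (s, gs) - tf t' gt' σt' (s, gs) * tf s' gs' m' (t, gt))
        (tf t' gt' σt' (s, gs) * tf s' gs' σs' (t, gt) -
          tf t' gt' σt' (t, gt) * tf s' gs' σs' (s, gs))
      exact ⟨a1, a2, a3, fun z => by rw [← ha z, D3]; ring⟩)
    (by rw [D3]; ring) (by rw [D3]; ring)
  have gram : ∀ z, B (s, gs) (s, gs) * (B (t, gt) (t, gt) * B z z - B (t, gt) z ^ 2) -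
      B (s, gs) (t, gt) * (B (s, gs) (t, gt) * B z z - B (t, gt) z * B (s, gs) z) +
      B (s, gs) z * (B (s, gs) (t, gt) * B (t, gt) z - B (t, gt) (t, gt) * B (s, gs) z) =
      κ' * (v * tf s gs m z) ^ 2 := by
    intro z
    rw [← hv, D3]; simp only [hB, Bf]; ring
  have g1 := gram T; have g2 := gram Z
  rw [bb, cc, T3] at g1; rw [bb, cc, hZ] at g2
  simp only [Bf] at T2 ⊢
  rw [h1, h2] at T2 ⊢
  have : B (s, gs) (t, gt) * tf s gs m T ^ 2 * (μ * B (s, gs) Z * (ν * B (t, gt) Z) +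
      ν * B (t, gt) Z * (μ * B (s, gs) Z) - κ * tf s gs m Z * tf s gs m Z) = 0 := by
    linear_combination μ * ν * tf s gs m T ^ 2 * g2 - μ * ν * tf s gs m Z ^ 2 * g1 +
      B (s, gs) (t, gt) * tf s gs m Z ^ 2 * T2
  exact (mul_eq_zero.1 this).resolve_left (by positivity)

lemma exists_g (ho : IsOpen Ω) (hc : Convex ℝ Ω) (hb : Bornology.IsBounded Ω)
    (h1 : ((0, 1) : P) ∈ Ω) : ∃ r : ℝ, 0 < r ∧ ∃ g σ : ℝ → ℝ, ∀ x ∈ Ioo (-r) r,
      (x, g x) ∈ closure Ω ∧ g x < 1 ∧ ∀ z ∈ Ω, 0 < tf x (g x) (σ x) z := by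
  obtain ⟨r, hr, hB⟩ := Metric.isOpen_iff.1 ho _ h1
  have : ∀ x : ℝ, ∃ g σ : ℝ, x ∈ Ioo (-r) r → (x, g) ∈ closure Ω ∧ g < 1 ∧
      ∀ z ∈ Ω, 0 < tf x g σ z := by
    intro x
    by_cases hx : x ∈ Ioo (-r) r
    swap
    · exact ⟨0, 0, fun h => absurd h hx⟩
    have hx1 : ((x, 1) : P) ∈ Ω := hB (by
      simp [Prod.dist_eq, hr, abs_lt, hx.1, hx.2])
    obtain ⟨T, hT, hTc, hTs⟩ := ray ho hc hb hx1 (v := (0, -1)) (by simp)
    have e : ((x, 1) : P) + T • ((0, -1) : P) = (x, 1 - T) := by ext <;> simp; ring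
    have hn : ((x, 1 - T) : P) ∉ Ω := by
      intro h
      have : T ∈ Ico 0 T := by rw [← hTs]; exact ⟨hT.le, by rwa [e]⟩
      exact lt_irrefl _ this.2
    obtain ⟨α, ⟨c, a, b, ha⟩, h0, hp⟩ := exists_sup ho hc hn
    have k := hp _ hx1
    rw [ha] at h0 k
    simp only at h0 k
    have b0 : 0 < b := by nlinarith
    refine ⟨1 - T, -a / b, fun _ => ⟨e ▸ hTc, by linarith, fun z hz => ?_⟩⟩
    have := hp z hz
    have e2 : tf x (1 - T) (-a / b) z = α z / b := by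
      rw [ha, tf]; field_simp; linear_combination -h0
    rw [e2]; positivity
  choose g σ h using this
  exact ⟨r, hr, g, σ, h⟩

lemma good_of {r : ℝ} {g σ : ℝ → ℝ} (h : ∀ x ∈ Ioo (-r) r,
      (x, g x) ∈ closure Ω ∧ g x < 1 ∧ ∀ z ∈ Ω, 0 < tf x (g x) (σ x) z) {a b : ℝ} (hab : a < b)
    (ha : -r ≤ a) (hb : b ≤ r) {e : ℝ} (he : e ≠ 0) : ∃ x ∈ Ioo a b, Good Ω e x (g x) (σ x) := by
  have sup : ∀ x ∈ Ioo (-r) r, ∀ y ∈ Ioo (-r) r, σ x * (y - x) ≤ g y - g x := by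
    intro x hx y hy
    have := (tf_aff _ _ _).nonneg (h x hx).2.2 (h y hy).1
    simp only [tf] at this; linarith
  have mono : MonotoneOn σ (Ioo (-r) r) := by
    intro x hx y hy hxy
    rcases hxy.eq_or_lt with h | h
    · rw [h]
    · have := sup x hx y hy; have := sup y hy x hx; nlinarith
  obtain ⟨x, hx, hd⟩ := MeasureTheory.Measure.exists_mem_of_measure_ne_zero_of_ae
    (μ := MeasureTheory.volume) (s := Ioo a b) (by simp [hab])
    (MeasureTheory.ae_restrict_of_ae mono.ae_differentiableWithinAt_of_mem)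
  have hxJ : x ∈ Ioo (-r) r := ⟨by linarith [hx.1], by linarith [hx.2]⟩
  have hJ : Ioo (-r) r ∈ 𝓝 x := isOpen_Ioo.mem_nhds hxJ
  have hd' := (hd hxJ).differentiableAt hJ
  have te : Tendsto (fun h : ℝ => e * h) (𝓝[>] 0) (𝓝[≠] 0) := by
    refine tendsto_nhdsWithin_iff.2 ⟨?_, ?_⟩
    · have : Tendsto (fun h : ℝ => e * h) (𝓝 0) (𝓝 (e * 0)) := (continuous_const_mul e).tendsto 0
      simpa using this.mono_left nhdsWithin_le_nhds
    · filter_upwards [self_mem_nhdsWithin] with h hh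
      exact mul_ne_zero he (ne_of_gt hh)
  have tx : Tendsto (fun h : ℝ => x + e * h) (𝓝[>] 0) (𝓝 x) := by
    simpa using (te.mono_right nhdsWithin_le_nhds).const_add x
  have evJ : ∀ᶠ h in 𝓝[>] (0 : ℝ), x + e * h ∈ Ioo (-r) r := tx.eventually hJ
  have evn : ∀ᶠ h in 𝓝[>] (0 : ℝ), e * h ≠ 0 := te.eventually self_mem_nhdsWithin
  refine ⟨x, hx, (h x hxJ).1, (h x hxJ).2.2, fun h => (g (x + e * h) - g x) / (e * h),
    fun h => (e * h)⁻¹ • (σ (x + e * h) - σ x), deriv σ x, ?_,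
    hd'.hasDerivAt.tendsto_slope_zero.comp te, ?_⟩
  · rw [← tendsto_sub_nhds_zero_iff]
    have t1 : Tendsto (fun h => |σ (x + e * h) - σ x|) (𝓝[>] 0) (𝓝 0) := by
      simpa using ((hd'.continuousAt.tendsto.comp tx).sub_const (σ x)).abs
    refine squeeze_zero_norm' ?_ t1
    filter_upwards [evJ, evn] with h k1 k2
    have s1 := sup x hxJ _ k1
    have s2 := sup _ k1 x hxJ
    set k := e * h
    set u := (g (x + k) - g x) / k with hu
    have : g (x + k) - g x = u * k := (div_mul_cancel₀ _ k2).symm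
    rw [Real.norm_eq_abs, abs_le]
    have l1 := le_abs_self (σ (x + k) - σ x)
    have l2 := neg_abs_le (σ (x + k) - σ x)
    have l3 := abs_nonneg (σ (x + k) - σ x)
    rcases lt_or_gt_of_ne k2 with k3 | k3
    · have : u ≤ σ x := by nlinarith
      have : σ (x + k) ≤ u := by nlinarith
      constructor <;> linarith
    · have : σ x ≤ u := by nlinarith
      have : u ≤ σ (x + k) := by nlinarith
      constructor <;> linarith
  · filter_upwards [evJ, evn] with k k1 k2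
    have e1 : g x + e * k * ((g (x + e * k) - g x) / (e * k)) = g (x + e * k) := by
      rw [mul_div_cancel₀ _ k2]; ring
    have e2 : σ x + e * k * ((e * k)⁻¹ • (σ (x + e * k) - σ x)) = σ (x + e * k) := by
      rw [smul_eq_mul, mul_inv_cancel_left₀ k2]; ring
    rw [e1, e2]
    exact ⟨(h _ k1).1, (h _ k1).2.2⟩

lemma mkFr (h0 : ((0, 0) : P) ∈ closure Ω) (hpos : ∀ z ∈ closure Ω, z ≠ (0, 0) → 0 < z.2)
    (hs : s < 0) (ht : 0 < t) (Gs : Good Ω (-1) s gs σs) (Gt : Good Ω 1 t gt σt) :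
    Fr Ω s t gs gt σs σt ((gt - gs) / (t - s)) := by
  have a := (tf_aff _ _ _).nonneg Gs.2.1 h0
  have b := (tf_aff _ _ _).nonneg Gt.2.1 h0
  have c : 0 < gs := hpos _ Gs.1 (by simp [hs.ne])
  have d : 0 < gt := hpos _ Gt.1 (by simp [ht.ne'])
  simp only [tf] at a b
  have e1 : σs < 0 := by nlinarith
  have e2 : 0 < σt := by nlinarith
  refine ⟨by linarith, Gs, Gt, rfl, ?_, ?_⟩
  · rw [lt_div_iff₀ (by linarith)]; nlinarith
  · rw [div_lt_iff₀ (by linarith)]; nlinarith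

lemma conic (ho : IsOpen Ω) (hc : Convex ℝ Ω) (hb : Bornology.IsBounded Ω) (hH : H Ω)
    (h0 : ((0, 0) : P) ∈ closure Ω) (hpos : ∀ z ∈ closure Ω, z ≠ (0, 0) → 0 < z.2)
    (h1 : ((0, 1) : P) ∈ Ω) : ∃ s t gs gt σs σt m κ : ℝ, ∃ O ∈ Ω, 0 < Bf s t gs gt σs σt m κ O O ∧
      ∀ Z ∈ closure Ω, Z ∉ Ω → Bf s t gs gt σs σt m κ Z Z = 0 := by
  obtain ⟨r, hr, g, σ, hg⟩ := exists_g ho hc hb h1
  have hne : Ω.Nonempty := ⟨_, h1⟩
  obtain ⟨T0, hT0, hTc, hTs⟩ := ray ho hc hb h1 (v := (0, 1)) (by simp)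
  have e : ((0, 1) : P) + T0 • ((0, 1) : P) = (0, 1 + T0) := by ext <;> simp
  rw [e] at hTc
  have hTn : ((0, 1 + T0) : P) ∉ Ω := by
    intro h
    have : T0 ∈ Ico 0 T0 := by rw [← hTs]; exact ⟨hT0.le, by rwa [e]⟩
    exact lt_irrefl _ this.2
  have ax : ∀ y : ℝ, 0 < y → y ≤ 1 → ((0, y) : P) ∈ Ω := by
    intro y y0 y1
    have := combo_mem ho hc h0 h1 y0 y1
    simpa using this
  have fr : ∀ a b : ℝ, -r ≤ a → a < 0 → 0 < b → b ≤ r → ∃ s ∈ Ioo a 0, ∃ t ∈ Ioo 0 b, ∃ m κ : ℝ,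
      Fr Ω s t (g s) (g t) (σ s) (σ t) m ∧ 0 < tf s (g s) m (0, 1 + T0) ∧
      ∀ Z ∈ closure Ω, 0 < tf s (g s) m Z → ∀ α : P → ℝ, IsAff α → (∀ z ∈ Ω, 0 < α z) → α Z = 0 →
        ∃ μ : ℝ, 0 < μ ∧ ∀ w, α w = μ * Bf s t (g s) (g t) (σ s) (σ t) m κ Z w := by
    intro a b ha a0 b0 hb
    obtain ⟨s, hs, Gs⟩ := good_of hg a0 ha hr.le (e := -1) (by norm_num)
    obtain ⟨t, ht, Gt⟩ := good_of hg b0 (by linarith) hb (e := 1) (by norm_num)
    have F := mkFr h0 hpos hs.2 ht.1 Gs Gt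
    have gs1 := (hg s ⟨by linarith [hs.1], by linarith [hs.2]⟩).2.1
    have gt1 := (hg t ⟨by linarith [ht.1], by linarith [ht.2]⟩).2.1
    have T1 : 0 < tf s (g s) ((g t - g s) / (t - s)) (0, 1 + T0) := by
      by_contra hn
      have := (F.below hTc (not_lt.1 hn)).2.2
      have := max_lt gs1 gt1
      simp only at *
      linarith
    obtain ⟨κ, -, hκ⟩ := F.polar ho hc hH hne hTc hTn T1
      (by have := Gs.2.1 _ h1; simp only [tf] at this ⊢; linarith)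
      (by have := Gt.2.1 _ h1; simp only [tf] at this ⊢; linarith)
    exact ⟨s, hs, t, ht, _, κ, F, T1, hκ⟩
  have zero : ∀ {s t gs gt σs σt m κ : ℝ}, (∀ Z ∈ closure Ω, 0 < tf s gs m Z → ∀ α : P → ℝ,
      IsAff α → (∀ z ∈ Ω, 0 < α z) → α Z = 0 →
        ∃ μ : ℝ, 0 < μ ∧ ∀ w, α w = μ * Bf s t gs gt σs σt m κ Z w) →
      ∀ Z ∈ closure Ω, Z ∉ Ω → 0 < tf s gs m Z → Bf s t gs gt σs σt m κ Z Z = 0 := by
    intro s t gs gt σs σt m κ h Z hZ hZ' hl
    obtain ⟨α, a1, a2, a3⟩ := exists_sup ho hc hZ'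
    obtain ⟨μ, hμ, hw⟩ := h Z hZ hl α a1 a3 a2
    rw [hw] at a2
    exact (mul_eq_zero.1 a2).resolve_left hμ.ne'
  have small : ∀ y : ℝ, 0 < y → ∃ ρ : ℝ, 0 < ρ ∧ ∀ x ∈ Ioo (-r) r, |x| < ρ → g x < y := by
    intro y hy
    obtain ⟨ρ, hρ, hB⟩ := Metric.isOpen_iff.1 ho _ (ax (min y 1) (by positivity) (min_le_right _ _))
    refine ⟨ρ, hρ, fun x hx hx' => ?_⟩
    have := (hg x hx).2.2 (x, min y 1) (hB (by simp [Prod.dist_eq, hρ, hx']))
    simp only [tf] at this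
    linarith [min_le_left y 1]
  obtain ⟨s, hs, t, ht, m, κ, F, T1, hκ⟩ := fr (-r) r le_rfl (by linarith) hr le_rfl
  have main : ∀ Z ∈ closure Ω, Z ∉ Ω → Z ≠ (0, 0) →
      Bf s t (g s) (g t) (σ s) (σ t) m κ Z Z = 0 := by
    intro Z hZ hZ' hZ0
    obtain ⟨ρ, hρ, hsm⟩ := small _ (hpos Z hZ hZ0)
    obtain ⟨s', hs', t', ht', m', κ', F', T1', hκ'⟩ := fr (max s (-ρ)) (min t ρ)
      (le_max_of_le_left hs.1.le) (max_lt hs.2 (by linarith)) (lt_min ht.1 hρ)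
      (min_le_of_left_le ht.2.le)
    have k1 := (max_lt_iff.1 hs'.1); have k2 := (lt_min_iff.1 ht'.2)
    obtain ⟨μ, hμ, e1⟩ := hκ' _ F.Gs.1 (by
      by_contra hn
      have := (F'.below F.Gs.1 (not_lt.1 hn)).1
      simp only at this; linarith) _ (tf_aff _ _ _) F.Gs.2.1 (tf_self _ _ _)
    obtain ⟨ν, hν, e2⟩ := hκ' _ F.Gt.1 (by
      by_contra hn
      have := (F'.below F.Gt.1 (not_lt.1 hn)).2.1
      simp only at this; linarith) _ (tf_aff _ _ _) F.Gt.2.1 (tf_self _ _ _)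
    refine F.matchq hμ hν e1 e2 T1 (zero hκ _ hTc hTn T1) (zero hκ' _ hTc hTn T1')
      (zero hκ' Z hZ hZ' ?_)
    by_contra hn
    have := (F'.below hZ (not_lt.1 hn)).2.2
    have a1 := hsm s' ⟨by linarith [hs.1], by linarith [hs'.2]⟩
      (abs_lt.2 ⟨k1.2, by linarith [hs'.2]⟩)
    have a2 := hsm t' ⟨by linarith [ht'.1], by linarith [ht.2]⟩
      (abs_lt.2 ⟨by linarith [ht'.1], k2.2⟩)
    linarith [max_lt a1 a2]
  have gs0 : 0 < g s := hpos _ F.Gs.1 (by simp [hs.2.ne])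
  have gt0 : 0 < g t := hpos _ F.Gt.1 (by simp [ht.1.ne'])
  have gs1 := (hg s ⟨by linarith [hs.1], by linarith [hs.2]⟩).2.1
  have gt1 := (hg t ⟨by linarith [ht.1], by linarith [ht.2]⟩).2.1
  have hO : ((0, g s - m * s) : P) ∈ Ω := by
    have := F.hmm; have := hs.2; have := ht.1
    rcases le_total 0 m with hm | hm
    · exact ax _ (by nlinarith) (by nlinarith)
    · exact ax _ (by nlinarith) (by nlinarith)
  refine ⟨s, t, g s, g t, σ s, σ t, m, κ, _, hO, ?_, fun Z hZ hZ' => ?_⟩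
  · have a := F.Gs.2.1 _ hO
    have b := F.Gt.2.1 _ hO
    have c : tf s (g s) m (0, g s - m * s) = 0 := by simp only [tf]; ring
    rw [Bf, c]; nlinarith [mul_pos a b]
  by_cases hZ0 : Z = (0, 0)
  swap
  · exact main Z hZ hZ' hZ0
  subst hZ0
  have evJ : ∀ᶠ x in 𝓝[>] (0 : ℝ), x ∈ Ioo 0 r := Ioo_mem_nhdsGT hr
  have tg : Tendsto g (𝓝[>] 0) (𝓝 0) := by
    refine tendsto_order.2 ⟨fun y hy => ?_, fun y hy => ?_⟩
    · filter_upwards [evJ] with x hx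
      exact hy.trans (hpos _ (hg x ⟨by linarith [hx.1], hx.2⟩).1 (by simp [hx.1.ne']))
    · obtain ⟨ρ, hρ, hsm⟩ := small y hy
      filter_upwards [evJ, Ioo_mem_nhdsGT hρ] with x hx hx'
      exact hsm x ⟨by linarith [hx.1], hx.2⟩ (abs_lt.2 ⟨by linarith [hx.1], hx'.2⟩)
  have tz : Tendsto (fun x : ℝ => ((x, g x) : P)) (𝓝[>] 0) (𝓝 (0, 0)) :=
    (tendsto_id.mono_left nhdsWithin_le_nhds).prodMk_nhds tg
  have C : Continuous fun z : P => Bf s t (g s) (g t) (σ s) (σ t) m κ z z := by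
    unfold Bf tf; fun_prop
  refine tendsto_nhds_unique_of_eventuallyEq ((C.tendsto _).comp tz)
    (tendsto_const_nhds (x := (0 : ℝ))) ?_
  filter_upwards [evJ] with x hx
  have hxJ : x ∈ Ioo (-r) r := ⟨by linarith [hx.1], hx.2⟩
  refine main _ (hg x hxJ).1 (fun h => ?_) (by simp [hx.1.ne'])
  have := (hg x hxJ).2.2 _ h
  rw [tf_self] at this; exact lt_irrefl _ this

end Pool.Agent.H52.HB
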