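import Pool.Agent.H52.HB4

set_option autoImplicit false

namespace Pool.Agent.H52.HB
open Set Filter Topology

lemma exists_AE (o e1 e2 : P) (h : e1.1 * e2.2 - e1.2 * e2.1 ≠ 0) :
    ∃ S : P ≃ᵃ[ℝ] P, ∀ w, S w = (o.1 + w.1 * e1.1 + w.2 * e2.1, o.2 + w.1 * e1.2 + w.2 * e2.2) := by
  let L : P →ₗ[ℝ] P := (LinearMap.toSpanSingleton ℝ P e1).coprod (LinearMap.toSpanSingleton ℝ P e2)
  have hL : ∀ w, L w = w.1 • e1 + w.2 • e2 := fun w => by simp [L]
  have inj : Function.Injective L := by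
    rw [injective_iff_map_eq_zero]
    intro w hw
    rw [hL] at hw
    have h1 := congrArg Prod.fst hw
    have h2 := congrArg Prod.snd hw
    simp at h1 h2
    ext
    · apply mul_right_cancel₀ h; simp only [Prod.fst_zero, Prod.snd_zero]; linear_combination e2.2 * h1 - e2.1 * h2
    · apply mul_right_cancel₀ h; simp only [Prod.fst_zero, Prod.snd_zero]; linear_combination e1.1 * h2 - e1.2 * h1
  refine ⟨(LinearEquiv.ofBijective L ⟨inj, LinearMap.injective_iff_surjective.1 inj⟩).toAffineEquiv.trans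
    (AffineEquiv.constVAdd ℝ P o), fun w => ?_⟩
  ext <;> simp [hL] <;> ring

lemma ellipse {Ω : Set P} (ho : IsOpen Ω) (hc : Convex ℝ Ω) (hb : Bornology.IsBounded Ω)
    {F : P → ℝ} {c l1 l2 A B C : ℝ}
    (hF : ∀ z, F z = c + l1 * z.1 + l2 * z.2 - (A * z.1 ^ 2 + 2 * B * z.1 * z.2 + C * z.2 ^ 2))
    {O : P} (hO : O ∈ Ω) (hFO : 0 < F O) (hz : ∀ Z ∈ closure Ω, Z ∉ Ω → F Z = 0) :
    ∃ f : P ≃ᵃ[ℝ] P, Ω = f '' {p : P | p.1 ^ 2 + p.2 ^ 2 < 1} := by
  have key : ∀ v : P, v ≠ 0 → 0 < A * v.1 ^ 2 + 2 * B * v.1 * v.2 + C * v.2 ^ 2 ∧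
      (O + v ∈ Ω ↔ 0 < F (O + v)) := by
    intro v hv
    obtain ⟨T1, h1, c1, s1⟩ := ray ho hc hb hO hv
    obtain ⟨T2, h2, c2, s2⟩ := ray ho hc hb hO (neg_ne_zero.2 hv)
    have z1 := hz _ c1 (fun h => by
      have : T1 ∈ Ico 0 T1 := by rw [← s1]; exact ⟨h1.le, h⟩
      exact lt_irrefl _ this.2)
    have z2 := hz _ c2 (fun h => by
      have : T2 ∈ Ico 0 T2 := by rw [← s2]; exact ⟨h2.le, h⟩
      exact lt_irrefl _ this.2)
    set Q := A * v.1 ^ 2 + 2 * B * v.1 * v.2 + C * v.2 ^ 2 with hQ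
    set L := l1 * v.1 + l2 * v.2 - 2 * (A * O.1 * v.1 + B * (O.1 * v.2 + O.2 * v.1) + C * O.2 * v.2)
      with hL
    have e1 : F O + T1 * L - T1 ^ 2 * Q = 0 := by
      rw [← z1, hF, hF, hL, hQ]; simp; ring
    have e2 : F O - T2 * L - T2 ^ 2 * Q = 0 := by
      rw [← z2, hF, hF, hL, hQ]; simp; ring
    have e3 : F (O + v) = F O + L - Q := by rw [hF, hF, hL, hQ]; simp; ring
    have e4 : F O = T1 * T2 * Q := by
      apply mul_right_cancel₀ (b := T1 + T2) (by positivity)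
      linear_combination T2 * e1 + T1 * e2
    have e5 : L = (T1 - T2) * Q := by
      apply mul_right_cancel₀ (b := T1) h1.ne'
      linear_combination e1 - e4
    have Q0 : 0 < Q := by
      rw [e4] at hFO; exact pos_of_mul_pos_right hFO (by positivity)
    refine ⟨Q0, ?_⟩
    have e6 : F (O + v) = (T1 - 1) * ((T2 + 1) * Q) := by rw [e3, e4, e5]; ring
    rw [e6, mul_pos_iff_of_pos_right (by positivity), sub_pos]
    have : (1 : ℝ) ∈ {t : ℝ | 0 ≤ t ∧ O + t • v ∈ Ω} ↔ (1 : ℝ) ∈ Ico 0 T1 := by rw [s1]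
    simpa using this
  have hΩ : ∀ z, z ∈ Ω ↔ 0 < F z := by
    intro z
    by_cases h : z = O
    · subst h; exact ⟨fun _ => hFO, fun _ => hO⟩
    · simpa using (key (z - O) (sub_ne_zero.2 h)).2
  have A0 : 0 < A := by simpa using (key (1, 0) (by simp)).1
  have D0 : 0 < A * C - B ^ 2 := by
    have := (key (-B, A) (by simp [A0.ne'])).1
    simp only at this
    have e : A * (-B) ^ 2 + 2 * B * -B * A + C * A ^ 2 = A * (A * C - B ^ 2) := by ring
    rw [e] at this; exact pos_of_mul_pos_right this A0.le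
  set D := A * C - B ^ 2 with hD
  set x0 := (C * l1 - B * l2) / (2 * D) with hx0
  set y0 := (A * l2 - B * l1) / (2 * D) with hy0
  have g1 : l1 = 2 * (A * x0 + B * y0) := by rw [hx0, hy0]; field_simp; rw [hD]; ring
  have g2 : l2 = 2 * (B * x0 + C * y0) := by rw [hx0, hy0]; field_simp; rw [hD]; ring
  set Fc := F (x0, y0) with hFc
  have hF2 : ∀ z : P, F z = Fc - (A * (z.1 - x0 + B / A * (z.2 - y0)) ^ 2 + D / A * (z.2 - y0) ^ 2) := by
    intro z
    rw [hFc, hF, hF, g1, g2, hD]; field_simp; ring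
  have Fc0 : 0 < Fc := by
    rw [hF2] at hFO
    have : 0 ≤ A * (O.1 - x0 + B / A * (O.2 - y0)) ^ 2 + D / A * (O.2 - y0) ^ 2 := by positivity
    linarith
  set a := √(Fc / A) with ha
  set b := √(Fc * A / D) with hb'
  have a0 : 0 < a := Real.sqrt_pos.2 (by positivity)
  have b0 : 0 < b := Real.sqrt_pos.2 (by positivity)
  have a2 : A * a ^ 2 = Fc := by rw [ha, Real.sq_sqrt (by positivity)]; field_simp
  have b2 : D / A * b ^ 2 = Fc := by rw [hb', Real.sq_sqrt (by positivity)]; field_simp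
  obtain ⟨S, hS⟩ := exists_AE (x0, y0) (a, 0) (-(B / A * b), b) (by simp [a0.ne', b0.ne'])
  have hFS : ∀ p : P, F (S p) = Fc * (1 - (p.1 ^ 2 + p.2 ^ 2)) := by
    intro p
    rw [hF2, hS]
    simp only
    linear_combination (-p.1 ^ 2) * a2 - p.2 ^ 2 * b2
  refine ⟨S, ?_⟩
  ext z
  obtain ⟨p, rfl⟩ := S.surjective z
  rw [hΩ, hFS, mul_pos_iff_of_pos_left Fc0, sub_pos, S.injective.mem_set_image]
  rfl

lemma core {Ω : Set P} (ho : IsOpen Ω) (hc : Convex ℝ Ω) (hb : Bornology.IsBounded Ω) (hH : H Ω)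
    (h0 : ((0, 0) : P) ∈ closure Ω) (hpos : ∀ z ∈ closure Ω, z ≠ (0, 0) → 0 < z.2)
    (h1 : ((0, 1) : P) ∈ Ω) : ∃ f : P ≃ᵃ[ℝ] P, Ω = f '' {p : P | p.1 ^ 2 + p.2 ^ 2 < 1} := by
  obtain ⟨s, t, gs, gt, σs, σt, m, κ, O, hO, h2, h3⟩ := conic ho hc hb hH h0 hpos h1
  obtain ⟨a0, a1, a2, ha⟩ := tf_aff s gs σs
  obtain ⟨b0, b1, b2, hb'⟩ := tf_aff t gt σt
  obtain ⟨c0, c1, c2, hc'⟩ := tf_aff s gs m
  exact ellipse ho hc hb (F := fun z => Bf s t gs gt σs σt m κ z z)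
    (c := 2 * a0 * b0 - κ * c0 ^ 2) (l1 := 2 * (a0 * b1 + a1 * b0) - 2 * κ * c0 * c1)
    (l2 := 2 * (a0 * b2 + a2 * b0) - 2 * κ * c0 * c2) (A := κ * c1 ^ 2 - 2 * a1 * b1)
    (B := κ * c1 * c2 - a1 * b2 - a2 * b1) (C := κ * c2 ^ 2 - 2 * a2 * b2)
    (fun z => by simp only [Bf, ha, hb', hc']; ring) hO h2 h3

lemma IsAff.comp {φ : P → ℝ} (h : IsAff φ) (S : P ≃ᵃ[ℝ] P) : IsAff (fun z => φ (S z)) := by
  obtain ⟨c, a, b, h⟩ := h
  have e : ∀ z : P, S z = S 0 + z.1 • S.linear (1, 0) + z.2 • S.linear (0, 1) := by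
    intro z
    have h1 : S z = S.linear z + S 0 := by
      have := S.map_vadd 0 z
      simpa using this
    have h2 : z = z.1 • ((1 : ℝ), (0 : ℝ)) + z.2 • ((0 : ℝ), (1 : ℝ)) := by ext <;> simp
    have h3 : S.linear z = z.1 • S.linear (1, 0) + z.2 • S.linear (0, 1) := by
      conv_lhs => rw [h2, map_add, map_smul, map_smul]
    rw [h1, h3]; abel
  refine ⟨c + a * (S 0).1 + b * (S 0).2, a * (S.linear (1, 0)).1 + b * (S.linear (1, 0)).2,
    a * (S.linear (0, 1)).1 + b * (S.linear (0, 1)).2, fun z => ?_⟩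
  show φ (S z) = _
  rw [h, e z]; simp; ring

lemma H_pre {Ω : Set P} (hH : H Ω) (S : P ≃ᵃ[ℝ] P) {o e1 e2 : P}
    (h : e1.1 * e2.2 - e1.2 * e2.1 ≠ 0)
    (hS : ∀ w, S w = (o.1 + w.1 * e1.1 + w.2 * e2.1, o.2 + w.1 * e1.2 + w.2 * e2.2)) :
    H (S ⁻¹' Ω) := by
  have cS : Continuous S := S.continuous_of_finiteDimensional
  have ch : ∀ {A B : P} {L : P → ℝ}, Ch (S ⁻¹' Ω) A B L →
      Ch Ω (S A) (S B) (fun z => L (S.symm z)) := by
    rintro A B L ⟨p, q, u, v, α, β, a1, a2, hp, hq, h1, h2, h3, h4, h5, h6, h7⟩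
    refine ⟨S p, S q, u, v, fun z => α (S.symm z), fun z => β (S.symm z), a1.comp _, a2.comp _,
      map_mem_closure cS hp (fun _ h => h), map_mem_closure cS hq (fun _ h => h), by simpa,
      by simpa, fun z hz => h3 _ (by simpa), fun z hz => h4 _ (by simpa), ?_, ?_,
      fun z => by simp [h7]⟩
    · rw [h5]; simp only [hS]; ext <;> simp <;> ring
    · rw [h6]; simp only [hS]; ext <;> simp <;> ring
  intro A B C hA hB hC hN L1 L2 L3 c1 c2 c3 x y z
  have := hH (S A) (S B) (S C) hA hB hC (by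
    unfold NC at hN ⊢
    simp only [hS]
    intro h'
    apply mul_ne_zero h hN
    linear_combination h') _ _ _ (ch c1) (ch c2) (ch c3) (S x) (S y) (S z)
  simpa [D3] using this

theorem main {Ω : Set P} (ho : IsOpen Ω) (hc : Convex ℝ Ω) (hb : Bornology.IsBounded Ω)
    (hne : Ω.Nonempty) (hH : H Ω) : ∃ f : P ≃ᵃ[ℝ] P, Ω = f '' {p : P | p.1 ^ 2 + p.2 ^ 2 < 1} := by
  obtain ⟨O, hO⟩ := hne
  obtain ⟨b, hb1, hb2⟩ := hb.isCompact_closure.exists_isMaxOn ⟨O, subset_closure hO⟩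
    (f := fun z : P => (z.1 - O.1) ^ 2 + (z.2 - O.2) ^ 2) (by fun_prop)
  have n0 : 0 < (b.1 - O.1) ^ 2 + (b.2 - O.2) ^ 2 := by
    obtain ⟨T, hT, hTc, -⟩ := ray ho hc hb hO (v := (1, 0)) (by simp)
    have := hb2 hTc
    simp at this
    nlinarith
  have hd : ((O.2 - b.2, b.1 - O.1) : P).1 * (O - b).2 - ((O.2 - b.2, b.1 - O.1) : P).2 * (O - b).1
      ≠ 0 := by simp; nlinarith
  obtain ⟨S, hS⟩ := exists_AE b (O.2 - b.2, b.1 - O.1) (O - b) hd
  have cS : Continuous S := S.continuous_of_finiteDimensional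
  have cS' : Continuous S.symm := S.symm.continuous_of_finiteDimensional
  obtain ⟨f, hf⟩ := core (Ω := S ⁻¹' Ω) (ho.preimage cS) (hc.affine_preimage S.toAffineMap)
    ((hb.isCompact_closure.image cS').isBounded.subset fun z hz =>
      ⟨S z, subset_closure hz, by simp⟩) (H_pre hH S hd hS)
    (by
      have : S.symm b ∈ closure (S ⁻¹' Ω) := map_mem_closure cS' hb1 (fun z hz => by simpa)
      have e : S.symm b = (0, 0) := by rw [AffineEquiv.symm_apply_eq, hS]; simp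
      rwa [e] at this)
    (fun w hw hw0 => by
      have := hb2 (map_mem_closure cS hw (fun _ h => h))
      simp only [mem_ofPred_eq, hS, Prod.fst_sub, Prod.snd_sub] at this
      have k : w.1 ^ 2 + (w.2 - 1) ^ 2 ≤ 1 := by
        by_contra hk
        push Not at hk
        nlinarith [mul_lt_mul_of_pos_right hk n0]
      have : 0 < w.1 ^ 2 + w.2 ^ 2 := by
        by_contra hk
        apply hw0
        ext
        · simp only; nlinarith [sq_nonneg w.1, sq_nonneg w.2]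
        · simp only; nlinarith [sq_nonneg w.1, sq_nonneg w.2]
      nlinarith)
    (by
      show S (0, 1) ∈ Ω
      rw [hS]; simpa using hO)
  refine ⟨f.trans S, ?_⟩
  rw [AffineEquiv.coe_trans, image_comp, ← hf, image_preimage_eq _ S.surjective]

end Pool.Agent.H52.HB
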