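import Pool.Agent.H52.HB5

set_option autoImplicit false

namespace Pool.Agent.H52.HB
open Set Filter Topology

def Ch' (Ω : Set P) (A B C : P) (L : P → ℝ) : Prop :=
  ∃ (p q : P) (u v : ℝ) (α β : P → ℝ), IsAff α ∧ IsAff β ∧ p ∈ closure Ω ∧ q ∈ closure Ω ∧
    α p = 0 ∧ β q = 0 ∧ (∀ z ∈ Ω, 0 < α z) ∧ (∀ z ∈ Ω, 0 < β z) ∧
    B = p + u • (q - p) ∧ C = p + v • (q - p) ∧ ∀ z, L z = α z * β A - β z * α A

def H' (Ω : Set P) : Prop := ∀ A B C : P, A ∈ Ω → B ∈ Ω → C ∈ Ω → NC A B C →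
  ∀ L1 L2 L3, Ch' Ω A B C L1 → Ch' Ω B C A L2 → Ch' Ω C A B L3 → ∀ x y z, D3 L1 L2 L3 x y z = 0

lemma near {Ω : Set P} (ho : IsOpen Ω) (hc : Convex ℝ Ω) (hb : Bornology.IsBounded Ω)
    {α β : P → ℝ} (ha : IsAff α) (hb' : IsAff β) (hα : ∀ z ∈ Ω, 0 < α z) (hβ : ∀ z ∈ Ω, 0 < β z)
    {p q : P} (hp : p ∈ closure Ω) (hq : q ∈ closure Ω) (hαp : α p = 0) (hβq : β q = 0)
    {u w : ℝ} {x m z : P} (hxΩ : x ∈ Ω) (hm : m ∈ Ω) (hz : z ∈ Ω) (ex : x = p + u • (q - p))
    (em : m = p + w • (q - p)) (kk : α m * β z = α z * β m) : dd Ω x m ≤ dd Ω x z := by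
  have a3 := hα m hm; have b3 := hβ m hm
  have a4 := hα x hxΩ; have b4 := hβ x hxΩ; have a5 := hα z hz; have b5 := hβ z hz
  rcases lt_trichotomy u w with h | h | h
  · rw [dd_chord ho hc hb ha hb' hα hβ hp hq hαp hβq h hxΩ hm ex em]
    refine le_trans (le_of_eq ?_) (dd_ge ho hc hb ha hb' hα hβ hxΩ hz)
    congr 2
    rw [div_eq_div_iff (by positivity) (by positivity)]
    linear_combination α x * β x * kk
  · have : x = m := by rw [ex, em, h]
    rw [← this, dd_self]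
    have h1 := dd_ge ho hc hb ha hb' hα hβ hxΩ hz
    have h2 : α z * β x / (α x * β z) = 1 := by
      rw [div_eq_one_iff_eq (by positivity), this]; linarith
    rw [h2] at h1; simpa using h1
  · rw [swap_pt] at ex em
    rw [dd_chord ho hc hb hb' ha hβ hα hq hp hβq hαp (by linarith) hxΩ hm ex em]
    refine le_trans (le_of_eq ?_) (dd_ge ho hc hb hb' ha hβ hα hxΩ hz)
    congr 2
    rw [div_eq_div_iff (by positivity) (by positivity)]
    linear_combination (-α x * β x) * kk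

def RA (Ω : Set P) (A B C : P) (ℓ : AffineSubspace ℝ P) : Prop :=
  Module.finrank ℝ ℓ.direction = 1 ∧ A ∈ ℓ ∧ ∃ F ∈ Ω, F ∈ ℓ ∧ F ∈ affineSpan ℝ {B, C} ∧
    ∀ X ∈ affineSpan ℝ {B, C}, X ∈ Ω → ∀ Y ∈ ℓ, Y ∈ Ω → dd Ω X F ≤ dd Ω X Y

lemma ch_RA {Ω : Set P} (ho : IsOpen Ω) (hc : Convex ℝ Ω) (hb : Bornology.IsBounded Ω)
    {A B C : P} (hA : A ∈ Ω) (hB : B ∈ Ω) (hBC : B ≠ C) {L : P → ℝ} (h : Ch' Ω A B C L) :
    ∃ (c a b : ℝ) (ℓ : AffineSubspace ℝ P), (∀ z : P, L z = c + a * z.1 + b * z.2) ∧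
      ℓ.direction = Submodule.span ℝ {((-b, a) : P)} ∧ (∀ z ∈ ℓ, L z = 0) ∧ RA Ω A B C ℓ := by
  obtain ⟨p, q, u, v, α, β, ha, hb', hp, hq, hαp, hβq, hα, hβ, eB, eC, hL⟩ := h
  have a1 := hα A hA; have b1 := hβ A hA; have a2 := hα B hB; have b2 := hβ B hB
  have aq := ha.nonneg hα hq
  have bp := hb'.nonneg hβ hp
  have eax : α B = u * α q := by rw [eB, ha.line, hαp]; ring
  have ebx : β B = (1 - u) * β p := by rw [eB, hb'.line, hβq]; ring
  have aq' : 0 < α q := by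
    rcases aq.eq_or_lt with h | h
    · rw [← h] at eax; linarith
    · exact h
  have bp' : 0 < β p := by
    rcases bp.eq_or_lt with h | h
    · rw [← h] at ebx; linarith
    · exact h
  have u0 : 0 < u := by rw [eax] at a2; exact pos_of_mul_pos_left a2 aq
  have u1 : 0 < 1 - u := by rw [ebx] at b2; exact pos_of_mul_pos_left b2 bp
  have huv : v - u ≠ 0 := fun h => hBC (by rw [eB, eC, show v = u by linarith])
  have hLa : IsAff L := by
    obtain ⟨c, a, b, h⟩ := ha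
    obtain ⟨c', a', b', h'⟩ := hb'
    exact ⟨c * β A - c' * α A, a * β A - a' * α A, b * β A - b' * α A, fun z => by
      rw [hL, h z, h' z]; ring⟩
  have Lp : L p = -(β p * α A) := by rw [hL, hαp]; ring
  have Lq : L q = α q * β A := by rw [hL, hβq]; ring
  have d0 : 0 < α q * β A + β p * α A := by positivity
  set w := β p * α A / (α q * β A + β p * α A) with hw
  have w0 : 0 < w := by positivity
  have w1 : w < 1 := (div_lt_one d0).2 (by nlinarith [mul_pos aq' b1])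
  set F := p + w • (q - p) with hF
  have LF : L F = 0 := by rw [hF, hLa.line, Lp, Lq, hw]; field_simp; ring
  have hFΩ : F ∈ Ω := by
    rcases le_total w u with h | h
    · have := combo_mem ho hc hp hB (u := w / u) (by positivity) ((div_le_one u0).2 h)
      convert this using 1
      rw [hF, eB]; ext <;> simp <;> field_simp
    · have := combo_mem ho hc hq hB (u := (1 - w) / (1 - u)) (div_pos (by linarith) u1)
        ((div_le_one u1).2 (by linarith))
      convert this using 1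
      rw [hF, eB]; ext <;> simp <;> field_simp <;> ring
  obtain ⟨c, a, b, hL'⟩ := hLa
  have hv : ((-b, a) : P) ≠ 0 := by
    intro h
    have h1 : b = 0 := by simpa using congrArg Prod.fst h
    have h2 : a = 0 := by simpa using congrArg Prod.snd h
    rw [hL', h1, h2] at Lp Lq
    nlinarith [mul_pos aq' b1, mul_pos bp' a1]
  have hz : ∀ z, z ∈ AffineSubspace.mk' F (Submodule.span ℝ {((-b, a) : P)}) ↔ L z = 0 := by
    intro z
    rw [AffineSubspace.mem_mk', Submodule.mem_span_singleton]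
    rw [hL'] at LF ⊢
    constructor
    · rintro ⟨r, hr⟩
      have h1 := congrArg Prod.fst hr
      have h2 := congrArg Prod.snd hr
      simp at h1 h2
      linear_combination LF - a * h1 - b * h2
    · intro h
      have n0 : a ^ 2 + b ^ 2 ≠ 0 := by
        intro h0
        apply hv
        have : a = 0 := by nlinarith [sq_nonneg a, sq_nonneg b]
        have : b = 0 := by nlinarith [sq_nonneg a, sq_nonneg b]
        simp [*]
      refine ⟨(a * (z.2 - F.2) - b * (z.1 - F.1)) / (a ^ 2 + b ^ 2), ?_⟩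
      ext
      · simp only [Prod.smul_fst, smul_eq_mul, vsub_eq_sub, Prod.fst_sub]
        field_simp; linear_combination (-a) * h + a * LF
      · simp only [Prod.smul_snd, smul_eq_mul, vsub_eq_sub, Prod.snd_sub]
        field_simp; linear_combination (-b) * h + b * LF
  refine ⟨c, a, b, AffineSubspace.mk' F (Submodule.span ℝ {((-b, a) : P)}), hL',
    AffineSubspace.direction_mk' _ _, fun z h => (hz z).1 h, ?_, (hz A).2 (by rw [hL]; ring),
    F, hFΩ, AffineSubspace.self_mem_mk' _ _, ?_, fun x hx hxΩ z hz1 hz2 => ?_⟩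
  · rw [AffineSubspace.direction_mk']
    exact finrank_span_singleton hv
  · rw [mem_affineSpan_pair_iff_exists_lineMap_eq]
    refine ⟨(w - u) / (v - u), ?_⟩
    rw [AffineMap.lineMap_apply, hF, eB, eC]
    ext <;> simp <;> field_simp <;> ring
  · obtain ⟨r, hr⟩ : ∃ r : ℝ, x = B + r • (C - B) := by
      rw [mem_affineSpan_pair_iff_exists_lineMap_eq] at hx
      obtain ⟨r, hr⟩ := hx
      exact ⟨r, by rw [← hr, AffineMap.lineMap_apply]; simp [add_comm]⟩
    have ex : x = p + (u + r * (v - u)) • (q - p) := by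
      rw [hr, eB, eC]; ext <;> simp <;> ring
    refine near ho hc hb ha hb' hα hβ hp hq hαp hβq hxΩ hFΩ hz2 ex hF ?_
    have k1 := (hz z).1 hz1
    rw [hL] at k1 LF
    apply mul_right_cancel₀ b1.ne'
    linear_combination β z * LF - β F * k1

lemma H'_of {Ω : Set P} (ho : IsOpen Ω) (hc : Convex ℝ Ω) (hb : Bornology.IsBounded Ω)
    (hh : ∀ a b c : P, a ∈ Ω → b ∈ Ω → c ∈ Ω → ¬ Collinear ℝ {a, b, c} →
      ∀ ℓ₁ ℓ₂ ℓ₃ : AffineSubspace ℝ P, RA Ω a b c ℓ₁ → RA Ω b c a ℓ₂ → RA Ω c a b ℓ₃ →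
        ((∃ p, p ∈ ℓ₁ ∧ p ∈ ℓ₂ ∧ p ∈ ℓ₃) ∨
          (ℓ₁.direction = ℓ₂.direction ∧ ℓ₂.direction = ℓ₃.direction))) : H' Ω := by
  intro A B C hA hB hC hN L1 L2 L3 h1 h2 h3 x y z
  have nAB : A ≠ B := by rintro rfl; exact hN (by ring)
  have nBC : B ≠ C := by rintro rfl; exact hN (by ring)
  have nCA : C ≠ A := by rintro rfl; exact hN (by ring)
  obtain ⟨c1, a1, b1, l1, e1, d1, z1, r1⟩ := ch_RA ho hc hb hA hB nBC h1
  obtain ⟨c2, a2, b2, l2, e2, d2, z2, r2⟩ := ch_RA ho hc hb hB hC nCA h2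
  obtain ⟨c3, a3, b3, l3, e3, d3, z3, r3⟩ := ch_RA ho hc hb hC hA nAB h3
  have hD : D3 L1 L2 L3 x y z = (c1 * (a2 * b3 - a3 * b2) - c2 * (a1 * b3 - a3 * b1) +
      c3 * (a1 * b2 - a2 * b1)) * ((y.1 - x.1) * (z.2 - x.2) - (y.2 - x.2) * (z.1 - x.1)) := by
    simp only [D3, e1, e2, e3]; ring
  rw [hD]
  apply mul_eq_zero_of_left
  rcases hh A B C hA hB hC (not_col hN) l1 l2 l3 r1 r2 r3 with ⟨p, p1, p2, p3⟩ | ⟨k1, k2⟩
  · have q1 := z1 p p1; have q2 := z2 p p2; have q3 := z3 p p3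
    rw [e1] at q1; rw [e2] at q2; rw [e3] at q3
    linear_combination (a2 * b3 - a3 * b2) * q1 - (a1 * b3 - a3 * b1) * q2 +
      (a1 * b2 - a2 * b1) * q3
  · have m2 : ((-b2, a2) : P) ∈ l1.direction := by
      rw [k1, d2]; exact Submodule.mem_span_singleton_self _
    have m3 : ((-b3, a3) : P) ∈ l1.direction := by
      rw [k1, k2, d3]; exact Submodule.mem_span_singleton_self _
    rw [d1, Submodule.mem_span_singleton] at m2 m3
    obtain ⟨r, hr⟩ := m2
    obtain ⟨s, hs⟩ := m3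
    have r1 := congrArg Prod.fst hr
    have r2 := congrArg Prod.snd hr
    have s1 := congrArg Prod.fst hs
    have s2 := congrArg Prod.snd hs
    simp at r1 r2 s1 s2
    rw [← r1, ← r2, ← s1, ← s2]; ring

def Psi (β γ α' α : P → ℝ) (b c A : P) (h δ ε d1 d2 d3 e1 e2 e3 : ℝ) : ℝ :=
  det3 ((β b + h * d1) * (γ A + h * e3) - (γ b + h * e1) * (β A + h * d3))
    ((β c + h * d2) * (γ A + h * e3) - (γ c + h * e2) * (β A + h * d3)) 0
    (γ b * (α b + δ * (α A - α b)) - α b * (γ b + δ * (γ A - γ b)))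
    (γ c * (α b + δ * (α A - α b)) - α c * (γ b + δ * (γ A - γ b)))
    (γ A * (α b + δ * (α A - α b)) - α A * (γ b + δ * (γ A - γ b)))
    (β b * (α' c + ε * (α' A - α' c)) - α' b * (β c + ε * (β A - β c)))
    (β c * (α' c + ε * (α' A - α' c)) - α' c * (β c + ε * (β A - β c)))
    (β A * (α' c + ε * (α' A - α' c)) - α' A * (β c + ε * (β A - β c)))

lemma step' {Ω : Set P} (ho : IsOpen Ω) (hc : Convex ℝ Ω) (hH : H' Ω) {s t gs gt σs σt : ℝ}
    (hst : s < t) (hb : (s, gs) ∈ closure Ω) (hβ : ∀ z ∈ Ω, 0 < tf s gs σs z)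
    (hcc : (t, gt) ∈ closure Ω) (hγ : ∀ z ∈ Ω, 0 < tf t gt σt z)
    {Pp Q A : P} (hP : Pp ∈ closure Ω) (hQ : Q ∈ closure Ω) {α' α : P → ℝ} (ha' : IsAff α')
    (ha : IsAff α) (hα' : ∀ z ∈ Ω, 0 < α' z) (hα : ∀ z ∈ Ω, 0 < α z) (hP0 : α' Pp = 0)
    (hQ0 : α Q = 0) (hA : A ∈ Ω) {τ τ' : ℝ} (e1 : A = ((s, gs) : P) + τ • (Pp - (s, gs)))
    (e2 : A = ((t, gt) : P) + τ' • (Q - (t, gt))) (hl : 0 < tf s gs ((gt - gs) / (t - s)) A)
    {h u w u' w' mh r r' : ℝ} (hη : 0 < h)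
    (g1 : (s + (-1) * h, gs + (-1) * h * u) ∈ closure Ω)
    (g2 : ∀ z ∈ Ω, 0 < tf (s + (-1) * h) (gs + (-1) * h * u) (σs + (-1) * h * w) z)
    (g3 : (t + 1 * h, gt + 1 * h * u') ∈ closure Ω)
    (g4 : ∀ z ∈ Ω, 0 < tf (t + 1 * h) (gt + 1 * h * u') (σt + 1 * h * w') z)
    (hm : mh = (gt - gs + h * (u + u')) / (t - s + 2 * h))
    (hr : r * (A.2 - gs - mh * (A.1 - s)) = mh - u)
    (hr' : r' * (A.2 - gt - mh * (A.1 - t)) = u' - mh)
    (r0 : 0 < r) (r0' : 0 < r') (r1 : h * r < 1) (r1' : h * r' < 1)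
    {db dc : P → ℝ} (hdb : ∀ z, db z = u - σs + h * w + w * (z.1 - s))
    (hdc : ∀ z, dc z = σt - u' + h * w' - w' * (z.1 - t)) :
    Psi (tf s gs σs) (tf t gt σt) α' α (s, gs) (t, gt) A h (h * r) (h * r')
      (db (s, gs)) (db (t, gt)) (db A) (dc (s, gs)) (dc (t, gt)) (dc A) = 0 := by
  set b : P := (s, gs) with hbd
  set c : P := (t, gt) with hcd
  set β := tf s gs σs with hβd
  set γ := tf t gt σt with hγd
  set β1 := tf (s + (-1) * h) (gs + (-1) * h * u) (σs + (-1) * h * w) with hβ1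
  set γ1 := tf (t + 1 * h) (gt + 1 * h * u') (σt + 1 * h * w') with hγ1
  have eβ : ∀ z, β1 z = β z + h * db z := fun z => by
    rw [hdb]; simp only [hβ1, hβd, tf]; ring
  have eγ : ∀ z, γ1 z = γ z + h * dc z := fun z => by
    rw [hdc]; simp only [hγ1, hγd, tf]; ring
  have βb : β b = 0 := by simp [hβd, hbd, tf]
  have γc : γ c = 0 := by simp [hγd, hcd, tf]
  set B := b + (h * r) • (A - b) with hB
  set C := c + (h * r') • (A - c) with hC
  have hBΩ : B ∈ Ω := combo_mem ho hc hb hA (by positivity) r1.le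
  have hCΩ : C ∈ Ω := combo_mem ho hc hcc hA (by positivity) r1'.le
  have hden : t - s + 2 * h ≠ 0 := by have : 0 < t - s := by linarith
                                      positivity
  have hden' : t + 1 * h - (s + (-1) * h) ≠ 0 := by intro h; apply hden; linarith
  have hm' : (gt + 1 * h * u' - (gs + (-1) * h * u)) /
      (t + 1 * h - (s + (-1) * h)) = mh := by
    rw [hm]; congr 1 <;> ring
  have hm2 : mh * (t - s + 2 * h) = gt - gs + h * (u + u') := by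
    rw [hm]; exact div_mul_cancel₀ _ hden
  have lB := on_line (g := gs + (-1) * h * u) (g' := gt + 1 * h * u') hden' (z := B) (by
    rw [hm']; simp [tf, hB, hbd]; linear_combination h * hr)
  have lC := on_line (g := gs + (-1) * h * u) (g' := gt + 1 * h * u') hden' (z := C) (by
    rw [hm']; simp [tf, hC, hcd]; linear_combination h * hr' - hm2)
  have hN : NC A B C := by
    unfold NC
    have : (B.1 - A.1) * (C.2 - A.2) - (B.2 - A.2) * (C.1 - A.1) =
        (1 - h * r) * (1 - h * r') * ((t - s) * tf s gs ((gt - gs) / (t - s)) A) := by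
      have : t - s ≠ 0 := by linarith
      simp [hB, hC, hbd, hcd, tf]; field_simp; ring
    rw [this]
    have : 0 < t - s := by linarith
    have : 0 < 1 - h * r := by linarith
    have : 0 < 1 - h * r' := by linarith
    positivity
  have c1 : Ch' Ω A B C (fun z => β1 z * γ1 A - γ1 z * β1 A) :=
    ⟨_, _, _, _, β1, γ1, tf_aff _ _ _, tf_aff _ _ _, g1, g3, by simp [hβ1, tf], by simp [hγ1, tf],
      g2, g4, lB, lC, fun z => rfl⟩
  have c2 : Ch' Ω B C A (fun z => γ z * α B - α z * γ B) :=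
    ⟨c, Q, h * r' * τ', τ', γ, α, tf_aff _ _ _, ha, hcc, hQ, γc, hQ0, hγ, hα,
      by rw [hC, e2]; ext <;> simp <;> ring, e2, fun z => rfl⟩
  have c3 : Ch' Ω C A B (fun z => β z * α' C - α' z * β C) :=
    ⟨b, Pp, τ, h * r * τ, β, α', tf_aff _ _ _, ha', hb, hP, βb, hP0, hβ, hα', e1,
      by rw [hB, e1]; ext <;> simp <;> ring, fun z => rfl⟩
  have hD := hH A B C hA hBΩ hCΩ hN _ _ _ c1 c2 c3 b c A
  have aβ : IsAff β := tf_aff _ _ _
  have aγ : IsAff γ := tf_aff _ _ _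
  simp only [D3, eβ, eγ] at hD
  rw [hB, hC, ha.line, aγ.line, ha'.line, aβ.line] at hD
  unfold Psi det3
  linear_combination hD

lemma rel0' {Ω : Set P} (ho : IsOpen Ω) (hc : Convex ℝ Ω) (hH : H' Ω) {s t gs gt σs σt : ℝ}
    (hst : s < t) (Gs : Good Ω (-1) s gs σs) (Gt : Good Ω 1 t gt σt)
    (hm1 : σs < (gt - gs) / (t - s)) (hm2 : (gt - gs) / (t - s) < σt)
    {Pp Q A : P} (hP : Pp ∈ closure Ω) (hQ : Q ∈ closure Ω) {α' α : P → ℝ} (ha' : IsAff α')
    (ha : IsAff α) (hα' : ∀ z ∈ Ω, 0 < α' z) (hα : ∀ z ∈ Ω, 0 < α z) (hP0 : α' Pp = 0)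
    (hQ0 : α Q = 0) (hA : A ∈ Ω) {τ τ' : ℝ} (e1 : A = ((s, gs) : P) + τ • (Pp - (s, gs)))
    (e2 : A = ((t, gt) : P) + τ' • (Q - (t, gt))) (hl : 0 < tf s gs ((gt - gs) / (t - s)) A) :
    0 < α' (s, gs) ∧ 0 < α (t, gt) ∧
    Psi (tf s gs σs) (tf t gt σt) α' α (s, gs) (t, gt) A 0 0 0 0 0 0 0 0 0 = 0 := by
  obtain ⟨hb, hβ, u, w, w0, tu, tw, ev1⟩ := Gs
  obtain ⟨hcc, hγ, u', w', w0', tu', tw', ev2⟩ := Gt
  have hts : 0 < t - s := by linarith
  set m := (gt - gs) / (t - s) with hm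
  have hmm : m * (t - s) = gt - gs := div_mul_cancel₀ _ hts.ne'
  have a1 := hα' A hA; have a2 := hα A hA
  have p1 : 0 < α' (s, gs) := by
    have h := ha'.nonneg hα' hb
    rcases h.eq_or_lt with h | h
    · rw [e1, ha'.line, ← h, hP0] at a1; simp at a1
    · exact h
  have p2 : 0 < α (t, gt) := by
    have h := ha.nonneg hα hcc
    rcases h.eq_or_lt with h | h
    · rw [e2, ha.line, ← h, hQ0] at a2; simp at a2
    · exact h
  refine ⟨p1, p2, ?_⟩
  have hh : Tendsto (fun η : ℝ => η) (𝓝[>] 0) (𝓝 0) := tendsto_id.mono_left nhdsWithin_le_nhds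
  set mh : ℝ → ℝ := fun η => (gt - gs + η * (u η + u' η)) / (t - s + 2 * η) with hmh
  have tm : Tendsto mh (𝓝[>] 0) (𝓝 m) := by
    have := ((hh.mul (tu.add tu')).const_add (gt - gs)).div ((hh.const_mul 2).const_add (t - s))
      (by simpa using hts.ne')
    simp only [zero_mul, mul_zero, add_zero] at this
    exact this
  have l1 : 0 < A.2 - gs - m * (A.1 - s) := hl
  have l2 : 0 < A.2 - gt - m * (A.1 - t) := by nlinarith
  have td : Tendsto (fun η => A.2 - gs - mh η * (A.1 - s)) (𝓝[>] 0)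
      (𝓝 (A.2 - gs - m * (A.1 - s))) := (tm.mul_const _).const_sub _
  have td' : Tendsto (fun η => A.2 - gt - mh η * (A.1 - t)) (𝓝[>] 0)
      (𝓝 (A.2 - gt - m * (A.1 - t))) := (tm.mul_const _).const_sub _
  set r : ℝ → ℝ := fun η => (mh η - u η) / (A.2 - gs - mh η * (A.1 - s)) with hr
  set r' : ℝ → ℝ := fun η => (u' η - mh η) / (A.2 - gt - mh η * (A.1 - t)) with hr'
  set r0 := (m - σs) / (A.2 - gs - m * (A.1 - s)) with hr0
  set r0' := (σt - m) / (A.2 - gt - m * (A.1 - t)) with hr0'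
  have r0p : 0 < r0 := div_pos (by linarith) l1
  have r0p' : 0 < r0' := div_pos (by linarith) l2
  have tr : Tendsto r (𝓝[>] 0) (𝓝 r0) := (tm.sub tu).div td l1.ne'
  have tr' : Tendsto r' (𝓝[>] 0) (𝓝 r0') := (tu'.sub tm).div td' l2.ne'
  have tδ : Tendsto (fun η => η * r η) (𝓝[>] 0) (𝓝 0) := by simpa using hh.mul tr
  have tε : Tendsto (fun η => η * r' η) (𝓝[>] 0) (𝓝 0) := by simpa using hh.mul tr'
  set db : ℝ → P → ℝ := fun η z => u η - σs + η * w η + w η * (z.1 - s) with hdb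
  set dc : ℝ → P → ℝ := fun η z => σt - u' η + η * w' η - w' η * (z.1 - t) with hdc
  have tdb : ∀ z : P, Tendsto (fun η => db η z) (𝓝[>] 0) (𝓝 (w0 * (z.1 - s))) := fun z => by
    have := ((tu.sub_const σs).add (hh.mul tw)).add (tw.mul_const (z.1 - s))
    simp only [sub_self, zero_mul, zero_add] at this
    exact this
  have tdc : ∀ z : P, Tendsto (fun η => dc η z) (𝓝[>] 0) (𝓝 (-(w0' * (z.1 - t)))) := fun z => by
    have := ((tu'.const_sub σt).add (hh.mul tw')).sub (tw'.mul_const (z.1 - t))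
    simp only [sub_self, zero_mul, zero_add, zero_sub] at this
    exact this
  have T := hh.prodMk_nhds (tδ.prodMk_nhds (tε.prodMk_nhds ((tdb (s, gs)).prodMk_nhds
    ((tdb (t, gt)).prodMk_nhds ((tdb A).prodMk_nhds ((tdc (s, gs)).prodMk_nhds
    ((tdc (t, gt)).prodMk_nhds (tdc A))))))))
  have C : Continuous (fun v : ℝ × ℝ × ℝ × ℝ × ℝ × ℝ × ℝ × ℝ × ℝ =>
      Psi (tf s gs σs) (tf t gt σt) α' α (s, gs) (t, gt) A v.1 v.2.1 v.2.2.1 v.2.2.2.1 v.2.2.2.2.1
        v.2.2.2.2.2.1 v.2.2.2.2.2.2.1 v.2.2.2.2.2.2.2.1 v.2.2.2.2.2.2.2.2) := by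
    unfold Psi det3; fun_prop
  have key := tendsto_nhds_unique_of_eventuallyEq ((C.tendsto _).comp T)
    (tendsto_const_nhds (x := (0 : ℝ))) (by
      filter_upwards [self_mem_nhdsWithin, ev1, ev2,
        td.eventually (lt_mem_nhds l1), td'.eventually (lt_mem_nhds l2),
        tr.eventually (lt_mem_nhds r0p), tr'.eventually (lt_mem_nhds r0p'),
        tδ.eventually (gt_mem_nhds zero_lt_one), tε.eventually (gt_mem_nhds zero_lt_one)]
        with η k0 k1 k2 k3 k4 k5 k6 k7 k8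
      exact step' ho hc hH hst hb hβ hcc hγ hP hQ ha' ha hα' hα hP0 hQ0 hA e1 e2 hl
        (mh := mh η) (r := r η) (r' := r' η) k0 k1.1 k1.2 k2.1 k2.2 rfl
        (div_mul_cancel₀ _ k3.ne') (div_mul_cancel₀ _ k4.ne') k5 k6 k7 k8 (fun z => rfl)
        (fun z => rfl))
  simpa only [Psi, zero_mul] using key

end Pool.Agent.H52.HB
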