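import Pool.Agent.H52.HC1

set_option autoImplicit false

namespace Pool.Agent.H52.HB
open Set Filter Topology

variable {Ω : Set P} {s t gs gt σs σt m : ℝ}

lemma Fr.rel' (F : Fr Ω s t gs gt σs σt m) (ho : IsOpen Ω) (hc : Convex ℝ Ω) (hH : H' Ω)
    (hne : Ω.Nonempty) {Pp Q : P} {p1 p2 u1 u2 u3 q1 q2 v1 v2 v3 : ℝ}
    (hP : Pt Ω s t gs gt σs σt m Pp p1 p2 u1 u2 u3) (hQ : Pt Ω s t gs gt σs σt m Q q1 q2 v1 v2 v3)
    (l1 : p1 < q1) (l2 : q2 < p2) :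
    0 < u1 ∧ 0 < v2 ∧ p2 * u3 / u1 = q1 * v3 / v2 := by
  have n1 := hP.nn F; have n2 := hQ.nn F
  obtain ⟨P1, P2, P3, P4, P5, P6⟩ := hP
  obtain ⟨Q1, Q2, Q3, Q4, Q5, Q6⟩ := hQ
  have βc := F.βc; have γb := F.γb; have lc := F.lc
  set β := tf s gs σs with hβ
  set γ := tf t gt σt with hγ
  set l := tf s gs m with hl
  have aβ : IsAff β := tf_aff _ _ _
  have aγ : IsAff γ := tf_aff _ _ _
  have al : IsAff l := tf_aff _ _ _
  have βb : β (s, gs) = 0 := tf_self _ _ _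
  have γc : γ (t, gt) = 0 := tf_self _ _ _
  have lb : l (s, gs) = 0 := tf_self _ _ _
  have d1 : 0 < (q1 - p1) * l Pp := mul_pos (by linarith) P2
  have d2 : 0 < (p2 - q2) * l Q := mul_pos (by linarith) Q2
  set τ := γ (s, gs) / (γ (s, gs) + (q1 - p1) * l Pp) with hτ
  set τ' := β (t, gt) / (β (t, gt) + (p2 - q2) * l Q) with hτ'
  have τ0 : 0 < τ := by positivity
  have τ0' : 0 < τ' := by positivity
  have τ1 : τ < 1 := (div_lt_one (by positivity)).2 (by linarith)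
  have τ1' : τ' < 1 := (div_lt_one (by positivity)).2 (by linarith)
  have τe : τ * (γ (s, gs) + (q1 - p1) * l Pp) = γ (s, gs) := div_mul_cancel₀ _ (by positivity)
  have τe' : τ' * (β (t, gt) + (p2 - q2) * l Q) = β (t, gt) := div_mul_cancel₀ _ (by positivity)
  set A := ((s, gs) : P) + τ • (Pp - (s, gs)) with hA
  have lA : l A = τ * l Pp := by rw [hA, al.line, lb]; ring
  have γA : γ A = q1 * l A := by rw [lA, hA, aγ.line, P3]; linear_combination -τe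
  have βA : β A = p2 * l A := by rw [lA, hA, aβ.line, P4, βb]; ring
  have e2 : A = ((t, gt) : P) + τ' • (Q - (t, gt)) := by
    refine F.inj γA βA ?_ ?_
    · rw [← hγ, ← hl, aγ.line, al.line, lc, γc, Q3]; ring
    · rw [← hβ, ← hl, aβ.line, al.line, lc, Q4]; linear_combination -τe'
  have hAΩ : A ∈ Ω := by
    by_contra hn
    obtain ⟨φ, a1, a2, a3⟩ := exists_sup ho hc hn
    have k1 := a1.nonneg a3 F.Gs.1
    have k2 := a1.nonneg a3 F.Gt.1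
    have k3 := a1.nonneg a3 P1
    have k4 := a1.nonneg a3 Q1
    have j1 := a2; have j2 := a2
    rw [hA, a1.line] at j1
    rw [e2, a1.line] at j2
    obtain ⟨v, hv⟩ := F.van a1 (by nlinarith) (by nlinarith)
    obtain ⟨z, hz⟩ := hne
    have := a3 z hz
    rw [hv] at a2 this
    rw [← hl] at a2 this
    have : v = 0 := by
      rcases mul_eq_zero.1 a2 with h | h
      · exact h
      · rw [lA] at h; nlinarith
    simp_all
  have lA0 : 0 < l A := by rw [lA]; positivity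
  have R := rel0' ho hc hH F.hst F.Gs F.Gt (F.hm ▸ F.hm1) (F.hm ▸ F.hm2) P1 Q1
    (comb_aff (s := s) (t := t) (gs := gs) (gt := gt) (σs := σs) (σt := σt) (m := m) u1 u2 u3)
    (comb_aff (s := s) (t := t) (gs := gs) (gt := gt) (σs := σs) (σt := σt) (m := m) v1 v2 v3)
    P5 Q5 (by simp only [← hβ, ← hγ, ← hl, P3, P4]; linear_combination l Pp * P6)
    (by simp only [← hβ, ← hγ, ← hl, Q3, Q4]; linear_combination l Q * Q6) hAΩ hA e2
    (F.hm ▸ lA0)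
  simp only [Psi, det3, ← hβ, ← hγ, ← hl, βb, γc, lb, lc, γA, βA, mul_zero, add_zero, zero_add,
    zero_mul] at R
  obtain ⟨R1, R2, R3⟩ := R
  have u0 : 0 < u1 := pos_of_mul_pos_left R1 γb.le
  have v0 : 0 < v2 := pos_of_mul_pos_left R2 βc.le
  refine ⟨u0, v0, ?_⟩
  have key : (γ (s, gs) ^ 2 * β (t, gt) ^ 2 * l A ^ 2) * (p2 * u3 * v2 - q1 * v3 * u1) = 0 := by
    linear_combination -R3
  rcases mul_eq_zero.1 key with h | h
  · exact absurd h (by positivity)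
  · rw [div_eq_div_iff u0.ne' v0.ne']
    linear_combination h

lemma Fr.polar' (F : Fr Ω s t gs gt σs σt m) (ho : IsOpen Ω) (hc : Convex ℝ Ω) (hH : H' Ω)
    (hne : Ω.Nonempty) {T : P} (hT : T ∈ closure Ω) (hT' : T ∉ Ω) (T1 : 0 < tf s gs m T)
    (T2 : 0 < tf s gs σs T) (T3 : 0 < tf t gt σt T) :
    ∃ κ : ℝ, 0 < κ ∧ ∀ Z ∈ closure Ω, 0 < tf s gs m Z → ∀ α : P → ℝ, IsAff α →
      (∀ z ∈ Ω, 0 < α z) → α Z = 0 → ∃ μ : ℝ, 0 < μ ∧ ∀ w, α w = μ * Bf s t gs gt σs σt m κ Z w := by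
  obtain ⟨Zb, x1, x2, a1, a2, a3, tb1, tb2, evb⟩ := F.apprb
  obtain ⟨Zc, y1, y2, c1, c2, c3, tc1, tc2, evc⟩ := F.apprc
  have S1 : ∀ {Pp : P} {p1 p2 u1 u2 u3 : ℝ}, Pt Ω s t gs gt σs σt m Pp p1 p2 u1 u2 u3 → 0 < p2 →
      0 < u1 ∧ Tendsto (fun h => (x1 h * a3 h / a2 h) ^ 2) (𝓝[>] 0) (𝓝 ((p2 * u3 / u1) ^ 2)) := by
    intro Pp p1 p2 u1 u2 u3 hP p0
    have ev : ∀ᶠ h in 𝓝[>] (0 : ℝ), 0 < u1 ∧ 0 < a2 h ∧ p2 * u3 / u1 = x1 h * a3 h / a2 h := by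
      filter_upwards [evb, ev_lt tb2 p1, tb1.eventually (gt_mem_nhds p0)] with h k1 k2 k3
      exact F.rel' ho hc hH hne hP k1.2 (k2 k1.1) k3
    exact ⟨ev.exists.choose_spec.1, tendsto_const_nhds.congr' (ev.mono fun h k => by
      simp only [k.2.2])⟩
  have S2 : ∀ {Q : P} {q1 q2 v1 v2 v3 : ℝ}, Pt Ω s t gs gt σs σt m Q q1 q2 v1 v2 v3 → 0 < q1 →
      0 < v2 ∧ Tendsto (fun h => (y2 h * c3 h / c1 h) ^ 2) (𝓝[>] 0) (𝓝 ((q1 * v3 / v2) ^ 2)) := by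
    intro Q q1 q2 v1 v2 v3 hQ q0
    have ev : ∀ᶠ h in 𝓝[>] (0 : ℝ), 0 < c1 h ∧ 0 < v2 ∧
        y2 h * c3 h / c1 h = q1 * v3 / v2 := by
      filter_upwards [evc, ev_lt tc2 q2, tc1.eventually (gt_mem_nhds q0)] with h k1 k2 k3
      exact F.rel' ho hc hH hne k1.2 hQ k3 (k2 k1.1)
    exact ⟨ev.exists.choose_spec.2.1, tendsto_const_nhds.congr' (ev.mono fun h k => by
      simp only [k.2.2])⟩
  obtain ⟨φ, f1, f2, f3⟩ := exists_sup ho hc hT'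
  obtain ⟨t1, t2, w1, w2, w3, -, hTp⟩ := F.toPt hT T1 f1 f3 f2
  have t10 : 0 < t1 := by
    have := hTp.2.2.1; rw [this] at T3; exact pos_of_mul_pos_left T3 T1.le
  have t20 : 0 < t2 := by
    have := hTp.2.2.2.1; rw [this] at T2; exact pos_of_mul_pos_left T2 T1.le
  obtain ⟨w10, hN⟩ := S1 hTp t20
  obtain ⟨w20, -⟩ := S2 hTp t10
  have w30 : w3 < 0 := by have := hTp.2.2.2.2.2; nlinarith
  set κ := -(t2 * w3 / w1) with hκ
  have κ0 : 0 < κ := by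
    rw [hκ, neg_pos]; exact div_neg_of_neg_of_pos (mul_neg_of_pos_of_neg t20 w30) w10
  have κ2 : (t2 * w3 / w1) ^ 2 = κ ^ 2 := by rw [hκ]; ring
  rw [κ2] at hN
  have S1' : ∀ {Pp : P} {p1 p2 u1 u2 u3 : ℝ}, Pt Ω s t gs gt σs σt m Pp p1 p2 u1 u2 u3 → 0 < p2 →
      0 < u1 ∧ (p2 * u3 / u1) ^ 2 = κ ^ 2 := fun hP p0 =>
    ⟨(S1 hP p0).1, tendsto_nhds_unique (S1 hP p0).2 hN⟩
  have hC : Tendsto (fun h => (y2 h * c3 h / c1 h) ^ 2) (𝓝[>] 0) (𝓝 (κ ^ 2)) := by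
    refine tendsto_const_nhds.congr' ?_
    filter_upwards [evc] with h k
    exact (S1' k.2 k.1).2.symm
  have S2' : ∀ {Q : P} {q1 q2 v1 v2 v3 : ℝ}, Pt Ω s t gs gt σs σt m Q q1 q2 v1 v2 v3 → 0 < q1 →
      0 < v2 ∧ (q1 * v3 / v2) ^ 2 = κ ^ 2 := fun hQ q0 =>
    ⟨(S2 hQ q0).1, tendsto_nhds_unique (S2 hQ q0).2 hC⟩
  have pos2 : ∀ {Z : P} {z1 z2 v1 v2 v3 : ℝ}, Pt Ω s t gs gt σs σt m Z z1 z2 v1 v2 v3 →
      0 < z1 ∧ 0 < z2 := by
    intro Z z1 z2 v1 v2 v3 hZ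
    obtain ⟨n1, n2⟩ := hZ.nn F
    obtain ⟨Z1, Z2, Z3, Z4, -, -⟩ := hZ
    have k1 : 0 < z1 → 0 < z2 := by
      intro h
      by_contra h'
      have h2 : z2 = 0 := by linarith
      have : Pt Ω s t gs gt σs σt m Z z1 z2 0 1 0 :=
        ⟨Z1, Z2, Z3, Z4, fun z hz => by simpa using F.Gs.2.1 z hz, by simp [h2]⟩
      have := (S2' this h).2
      simp only [mul_zero, zero_div] at this
      nlinarith
    have k2 : 0 < z2 → 0 < z1 := by
      intro h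
      by_contra h'
      have h2 : z1 = 0 := by linarith
      have : Pt Ω s t gs gt σs σt m Z z1 z2 1 0 0 :=
        ⟨Z1, Z2, Z3, Z4, fun z hz => by simpa using F.Gt.2.1 z hz, by simp [h2]⟩
      have := (S1' this h).2
      simp only [mul_zero, zero_div] at this
      nlinarith
    rcases n1.eq_or_lt with h1 | h1
    · rcases n2.eq_or_lt with h2 | h2
      · exfalso
        rw [← h1] at Z3; rw [← h2] at Z4
        have := F.hmm; have := F.hst; have := F.hm1; have := F.hm2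
        simp only [tf] at Z2 Z3 Z4
        have e1 : Z.1 < s := by nlinarith
        have e2 : t < Z.1 := by nlinarith
        linarith
      · exact ⟨k2 h2, h2⟩
    · exact ⟨h1, k1 h1⟩
  refine ⟨κ, κ0, fun Z hZ hl α ha hα h0 => ?_⟩
  obtain ⟨z1, z2, v1, v2, v3, hv, hZp⟩ := F.toPt hZ hl ha hα h0
  obtain ⟨z10, z20⟩ := pos2 hZp
  obtain ⟨v10, e1⟩ := S1' hZp z20
  obtain ⟨v20, e2⟩ := S2' hZp z10
  obtain ⟨Z1, Z2, Z3, Z4, -, Z6⟩ := hZp
  have v30 : v3 < 0 := by nlinarith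
  have n1 : z2 * v3 / v1 < 0 := div_neg_of_neg_of_pos (mul_neg_of_pos_of_neg z20 v30) v10
  have n2 : z1 * v3 / v2 < 0 := div_neg_of_neg_of_pos (mul_neg_of_pos_of_neg z10 v30) v20
  have f1 : z2 * v3 / v1 = -κ := by nlinarith
  have f2 : z1 * v3 / v2 = -κ := by nlinarith
  rw [div_eq_iff v10.ne'] at f1
  rw [div_eq_iff v20.ne'] at f2
  refine ⟨-v3 / (κ * tf s gs m Z), div_pos (by linarith) (by positivity), fun w => ?_⟩
  rw [hv, Bf, Z3, Z4]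
  field_simp
  linear_combination tf t gt σt w * f1 + tf s gs σs w * f2

lemma conic' (ho : IsOpen Ω) (hc : Convex ℝ Ω) (hb : Bornology.IsBounded Ω) (hH : H' Ω)
    (h0 : ((0, 0) : P) ∈ closure Ω) (hpos : ∀ z ∈ closure Ω, z ≠ (0, 0) → 0 < z.2)
    (h1 : ((0, 1) : P) ∈ Ω) : ∃ s t gs gt σs σt m κ : ℝ, ∃ O ∈ Ω, 0 < Bf s t gs gt σs σt m κ O O ∧
      ∀ Z ∈ closure Ω, Z ∉ Ω → Bf s t gs gt σs σt m κ Z Z = 0 := by
  obtain ⟨r, hr, g, σ, hg⟩ := exists_g ho hc hb h1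
  have hne : Ω.Nonempty := ⟨_, h1⟩
  obtain ⟨T0, hT0, hTc, hTs⟩ := ray ho hc hb h1 (v := (0, 1)) (by simp)
  have e : ((0, 1) : P) + T0 • ((0, 1) : P) = (0, 1 + T0) := by ext <;> simp
  rw [e] at hTc
  have hTn : ((0, 1 + T0) : P) ∉ Ω := by
    intro h
    have : T0 ∈ Ico 0 T0 := by rw [← hTs]; exact ⟨hT0.le, by rwa [e]⟩
    exact lt_irrefl _ this.2
  have ax : ∀ y : ℝ, 0 < y → y ≤ 1 → ((0, y) : P) ∈ Ω := by
    intro y y0 y1
    have := combo_mem ho hc h0 h1 y0 y1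
    simpa using this
  have fr : ∀ a b : ℝ, -r ≤ a → a < 0 → 0 < b → b ≤ r → ∃ s ∈ Ioo a 0, ∃ t ∈ Ioo 0 b, ∃ m κ : ℝ,
      Fr Ω s t (g s) (g t) (σ s) (σ t) m ∧ 0 < tf s (g s) m (0, 1 + T0) ∧
      ∀ Z ∈ closure Ω, 0 < tf s (g s) m Z → ∀ α : P → ℝ, IsAff α → (∀ z ∈ Ω, 0 < α z) → α Z = 0 →
        ∃ μ : ℝ, 0 < μ ∧ ∀ w, α w = μ * Bf s t (g s) (g t) (σ s) (σ t) m κ Z w := by
    intro a b ha a0 b0 hb
    obtain ⟨s, hs, Gs⟩ := good_of hg a0 ha hr.le (e := -1) (by norm_num)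
    obtain ⟨t, ht, Gt⟩ := good_of hg b0 (by linarith) hb (e := 1) (by norm_num)
    have F := mkFr h0 hpos hs.2 ht.1 Gs Gt
    have gs1 := (hg s ⟨by linarith [hs.1], by linarith [hs.2]⟩).2.1
    have gt1 := (hg t ⟨by linarith [ht.1], by linarith [ht.2]⟩).2.1
    have T1 : 0 < tf s (g s) ((g t - g s) / (t - s)) (0, 1 + T0) := by
      by_contra hn
      have := (F.below hTc (not_lt.1 hn)).2.2
      have := max_lt gs1 gt1
      simp only at *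
      linarith
    obtain ⟨κ, -, hκ⟩ := F.polar' ho hc hH hne hTc hTn T1
      (by have := Gs.2.1 _ h1; simp only [tf] at this ⊢; linarith)
      (by have := Gt.2.1 _ h1; simp only [tf] at this ⊢; linarith)
    exact ⟨s, hs, t, ht, _, κ, F, T1, hκ⟩
  have zero : ∀ {s t gs gt σs σt m κ : ℝ}, (∀ Z ∈ closure Ω, 0 < tf s gs m Z → ∀ α : P → ℝ,
      IsAff α → (∀ z ∈ Ω, 0 < α z) → α Z = 0 →
        ∃ μ : ℝ, 0 < μ ∧ ∀ w, α w = μ * Bf s t gs gt σs σt m κ Z w) →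
      ∀ Z ∈ closure Ω, Z ∉ Ω → 0 < tf s gs m Z → Bf s t gs gt σs σt m κ Z Z = 0 := by
    intro s t gs gt σs σt m κ h Z hZ hZ' hl
    obtain ⟨α, a1, a2, a3⟩ := exists_sup ho hc hZ'
    obtain ⟨μ, hμ, hw⟩ := h Z hZ hl α a1 a3 a2
    rw [hw] at a2
    exact (mul_eq_zero.1 a2).resolve_left hμ.ne'
  have small : ∀ y : ℝ, 0 < y → ∃ ρ : ℝ, 0 < ρ ∧ ∀ x ∈ Ioo (-r) r, |x| < ρ → g x < y := by
    intro y hy
    obtain ⟨ρ, hρ, hB⟩ := Metric.isOpen_iff.1 ho _ (ax (min y 1) (by positivity) (min_le_right _ _))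
    refine ⟨ρ, hρ, fun x hx hx' => ?_⟩
    have := (hg x hx).2.2 (x, min y 1) (hB (by simp [Prod.dist_eq, hρ, hx']))
    simp only [tf] at this
    linarith [min_le_left y 1]
  obtain ⟨s, hs, t, ht, m, κ, F, T1, hκ⟩ := fr (-r) r le_rfl (by linarith) hr le_rfl
  have main : ∀ Z ∈ closure Ω, Z ∉ Ω → Z ≠ (0, 0) →
      Bf s t (g s) (g t) (σ s) (σ t) m κ Z Z = 0 := by
    intro Z hZ hZ' hZ0
    obtain ⟨ρ, hρ, hsm⟩ := small _ (hpos Z hZ hZ0)
    obtain ⟨s', hs', t', ht', m', κ', F', T1', hκ'⟩ := fr (max s (-ρ)) (min t ρ)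
      (le_max_of_le_left hs.1.le) (max_lt hs.2 (by linarith)) (lt_min ht.1 hρ)
      (min_le_of_left_le ht.2.le)
    have k1 := (max_lt_iff.1 hs'.1); have k2 := (lt_min_iff.1 ht'.2)
    obtain ⟨μ, hμ, e1⟩ := hκ' _ F.Gs.1 (by
      by_contra hn
      have := (F'.below F.Gs.1 (not_lt.1 hn)).1
      simp only at this; linarith) _ (tf_aff _ _ _) F.Gs.2.1 (tf_self _ _ _)
    obtain ⟨ν, hν, e2⟩ := hκ' _ F.Gt.1 (by
      by_contra hn
      have := (F'.below F.Gt.1 (not_lt.1 hn)).2.1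
      simp only at this; linarith) _ (tf_aff _ _ _) F.Gt.2.1 (tf_self _ _ _)
    refine F.matchq hμ hν e1 e2 T1 (zero hκ _ hTc hTn T1) (zero hκ' _ hTc hTn T1')
      (zero hκ' Z hZ hZ' ?_)
    by_contra hn
    have := (F'.below hZ (not_lt.1 hn)).2.2
    have a1 := hsm s' ⟨by linarith [hs.1], by linarith [hs'.2]⟩
      (abs_lt.2 ⟨k1.2, by linarith [hs'.2]⟩)
    have a2 := hsm t' ⟨by linarith [ht'.1], by linarith [ht.2]⟩
      (abs_lt.2 ⟨by linarith [ht'.1], k2.2⟩)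
    linarith [max_lt a1 a2]
  have gs0 : 0 < g s := hpos _ F.Gs.1 (by simp [hs.2.ne])
  have gt0 : 0 < g t := hpos _ F.Gt.1 (by simp [ht.1.ne'])
  have gs1 := (hg s ⟨by linarith [hs.1], by linarith [hs.2]⟩).2.1
  have gt1 := (hg t ⟨by linarith [ht.1], by linarith [ht.2]⟩).2.1
  have hO : ((0, g s - m * s) : P) ∈ Ω := by
    have := F.hmm; have := hs.2; have := ht.1
    rcases le_total 0 m with hm | hm
    · exact ax _ (by nlinarith) (by nlinarith)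
    · exact ax _ (by nlinarith) (by nlinarith)
  refine ⟨s, t, g s, g t, σ s, σ t, m, κ, _, hO, ?_, fun Z hZ hZ' => ?_⟩
  · have a := F.Gs.2.1 _ hO
    have b := F.Gt.2.1 _ hO
    have c : tf s (g s) m (0, g s - m * s) = 0 := by simp only [tf]; ring
    rw [Bf, c]; nlinarith [mul_pos a b]
  by_cases hZ0 : Z = (0, 0)
  swap
  · exact main Z hZ hZ' hZ0
  subst hZ0
  have evJ : ∀ᶠ x in 𝓝[>] (0 : ℝ), x ∈ Ioo 0 r := Ioo_mem_nhdsGT hr
  have tg : Tendsto g (𝓝[>] 0) (𝓝 0) := by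
    refine tendsto_order.2 ⟨fun y hy => ?_, fun y hy => ?_⟩
    · filter_upwards [evJ] with x hx
      exact hy.trans (hpos _ (hg x ⟨by linarith [hx.1], hx.2⟩).1 (by simp [hx.1.ne']))
    · obtain ⟨ρ, hρ, hsm⟩ := small y hy
      filter_upwards [evJ, Ioo_mem_nhdsGT hρ] with x hx hx'
      exact hsm x ⟨by linarith [hx.1], hx.2⟩ (abs_lt.2 ⟨by linarith [hx.1], hx'.2⟩)
  have tz : Tendsto (fun x : ℝ => ((x, g x) : P)) (𝓝[>] 0) (𝓝 (0, 0)) :=
    (tendsto_id.mono_left nhdsWithin_le_nhds).prodMk_nhds tg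
  have C : Continuous fun z : P => Bf s t (g s) (g t) (σ s) (σ t) m κ z z := by
    unfold Bf tf; fun_prop
  refine tendsto_nhds_unique_of_eventuallyEq ((C.tendsto _).comp tz)
    (tendsto_const_nhds (x := (0 : ℝ))) ?_
  filter_upwards [evJ] with x hx
  have hxJ : x ∈ Ioo (-r) r := ⟨by linarith [hx.1], hx.2⟩
  refine main _ (hg x hxJ).1 (fun h => ?_) (by simp [hx.1.ne'])
  have := (hg x hxJ).2.2 _ h
  rw [tf_self] at this; exact lt_irrefl _ this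

lemma core' {Ω : Set P} (ho : IsOpen Ω) (hc : Convex ℝ Ω) (hb : Bornology.IsBounded Ω) (hH : H' Ω)
    (h0 : ((0, 0) : P) ∈ closure Ω) (hpos : ∀ z ∈ closure Ω, z ≠ (0, 0) → 0 < z.2)
    (h1 : ((0, 1) : P) ∈ Ω) : ∃ f : P ≃ᵃ[ℝ] P, Ω = f '' {p : P | p.1 ^ 2 + p.2 ^ 2 < 1} := by
  obtain ⟨s, t, gs, gt, σs, σt, m, κ, O, hO, h2, h3⟩ := conic' ho hc hb hH h0 hpos h1
  obtain ⟨a0, a1, a2, ha⟩ := tf_aff s gs σs
  obtain ⟨b0, b1, b2, hb'⟩ := tf_aff t gt σt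
  obtain ⟨c0, c1, c2, hc'⟩ := tf_aff s gs m
  exact ellipse ho hc hb (F := fun z => Bf s t gs gt σs σt m κ z z)
    (c := 2 * a0 * b0 - κ * c0 ^ 2) (l1 := 2 * (a0 * b1 + a1 * b0) - 2 * κ * c0 * c1)
    (l2 := 2 * (a0 * b2 + a2 * b0) - 2 * κ * c0 * c2) (A := κ * c1 ^ 2 - 2 * a1 * b1)
    (B := κ * c1 * c2 - a1 * b2 - a2 * b1) (C := κ * c2 ^ 2 - 2 * a2 * b2)
    (fun z => by simp only [Bf, ha, hb', hc']; ring) hO h2 h3

lemma H'_pre {Ω : Set P} (hH : H' Ω) (S : P ≃ᵃ[ℝ] P) {o e1 e2 : P}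
    (h : e1.1 * e2.2 - e1.2 * e2.1 ≠ 0)
    (hS : ∀ w, S w = (o.1 + w.1 * e1.1 + w.2 * e2.1, o.2 + w.1 * e1.2 + w.2 * e2.2)) :
    H' (S ⁻¹' Ω) := by
  have cS : Continuous S := S.continuous_of_finiteDimensional
  have ch : ∀ {A B C : P} {L : P → ℝ}, Ch' (S ⁻¹' Ω) A B C L →
      Ch' Ω (S A) (S B) (S C) (fun z => L (S.symm z)) := by
    rintro A B C L ⟨p, q, u, v, α, β, a1, a2, hp, hq, h1, h2, h3, h4, h5, h6, h7⟩
    refine ⟨S p, S q, u, v, fun z => α (S.symm z), fun z => β (S.symm z), a1.comp _, a2.comp _,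
      map_mem_closure cS hp (fun _ h => h), map_mem_closure cS hq (fun _ h => h), by simpa,
      by simpa, fun z hz => h3 _ (by simpa), fun z hz => h4 _ (by simpa), ?_, ?_,
      fun z => by simp [h7]⟩
    · rw [h5]; simp only [hS]; ext <;> simp <;> ring
    · rw [h6]; simp only [hS]; ext <;> simp <;> ring
  intro A B C hA hB hC hN L1 L2 L3 c1 c2 c3 x y z
  have := hH (S A) (S B) (S C) hA hB hC (by
    unfold NC at hN ⊢
    simp only [hS]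
    intro h'
    apply mul_ne_zero h hN
    linear_combination h') _ _ _ (ch c1) (ch c2) (ch c3) (S x) (S y) (S z)
  simpa [D3] using this

theorem main' {Ω : Set P} (ho : IsOpen Ω) (hc : Convex ℝ Ω) (hb : Bornology.IsBounded Ω)
    (hne : Ω.Nonempty) (hH : H' Ω) : ∃ f : P ≃ᵃ[ℝ] P, Ω = f '' {p : P | p.1 ^ 2 + p.2 ^ 2 < 1} := by
  obtain ⟨O, hO⟩ := hne
  obtain ⟨b, hb1, hb2⟩ := hb.isCompact_closure.exists_isMaxOn ⟨O, subset_closure hO⟩
    (f := fun z : P => (z.1 - O.1) ^ 2 + (z.2 - O.2) ^ 2) (by fun_prop)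
  have n0 : 0 < (b.1 - O.1) ^ 2 + (b.2 - O.2) ^ 2 := by
    obtain ⟨T, hT, hTc, -⟩ := ray ho hc hb hO (v := (1, 0)) (by simp)
    have := hb2 hTc
    simp at this
    nlinarith
  have hd : ((O.2 - b.2, b.1 - O.1) : P).1 * (O - b).2 - ((O.2 - b.2, b.1 - O.1) : P).2 * (O - b).1
      ≠ 0 := by simp; nlinarith
  obtain ⟨S, hS⟩ := exists_AE b (O.2 - b.2, b.1 - O.1) (O - b) hd
  have cS : Continuous S := S.continuous_of_finiteDimensional
  have cS' : Continuous S.symm := S.symm.continuous_of_finiteDimensional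
  obtain ⟨f, hf⟩ := core' (Ω := S ⁻¹' Ω) (ho.preimage cS) (hc.affine_preimage S.toAffineMap)
    ((hb.isCompact_closure.image cS').isBounded.subset fun z hz =>
      ⟨S z, subset_closure hz, by simp⟩) (H'_pre hH S hd hS)
    (by
      have : S.symm b ∈ closure (S ⁻¹' Ω) := map_mem_closure cS' hb1 (fun z hz => by simpa)
      have e : S.symm b = (0, 0) := by rw [AffineEquiv.symm_apply_eq, hS]; simp
      rwa [e] at this)
    (fun w hw hw0 => by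
      have := hb2 (map_mem_closure cS hw (fun _ h => h))
      simp only [mem_ofPred_eq, hS, Prod.fst_sub, Prod.snd_sub] at this
      have k : w.1 ^ 2 + (w.2 - 1) ^ 2 ≤ 1 := by
        by_contra hk
        push Not at hk
        nlinarith [mul_lt_mul_of_pos_right hk n0]
      have : 0 < w.1 ^ 2 + w.2 ^ 2 := by
        by_contra hk
        apply hw0
        ext
        · simp only; nlinarith [sq_nonneg w.1, sq_nonneg w.2]
        · simp only; nlinarith [sq_nonneg w.1, sq_nonneg w.2]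
      nlinarith)
    (by
      show S (0, 1) ∈ Ω
      rw [hS]; simpa using hO)
  refine ⟨f.trans S, ?_⟩
  rw [AffineEquiv.coe_trans, image_comp, ← hf, image_preimage_eq _ S.surjective]

end Pool.Agent.H52.HB
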