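import Mathlib

namespace Pool.Agent.H52.Jam

open Finset Filter Topology RealInnerProductSpace

variable {ι : Type} [Fintype ι] [DecidableEq ι]

/-- standard basis vector -/
noncomputable def e (i : ι) : EuclideanSpace ℝ ι := EuclideanSpace.single i 1

omit [DecidableEq ι] in
lemma ip (x y : EuclideanSpace ℝ ι) : ⟪x, y⟫ = ∑ i, x i * y i := by
  simp [PiLp.inner_apply, mul_comm]

lemma ip_e (x : EuclideanSpace ℝ ι) (i : ι) : ⟪x, e i⟫ = x i := by
  simp [e, EuclideanSpace.inner_single_right]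

lemma e_ip (x : EuclideanSpace ℝ ι) (i : ι) : ⟪e i, x⟫ = x i := by rw [real_inner_comm, ip_e]

lemma e_app (i j : ι) : e i j = if j = i then 1 else 0 := by simp [e, Pi.single_apply]

/-- ambient space -/
abbrev EE (ι : Type) := EuclideanSpace ℝ ι

/-- deformation space -/
abbrev WW (C : Finset (EE ι)) := (C → EE ι) × (ι → ι → ℝ)

lemma local_rigid (C : Finset (EuclideanSpace ℝ ι)) (he : ∀ i, e i ∈ C) (hn : ∀ x ∈ C, ‖x‖ = 1)
    (hinf : ∀ z : EuclideanSpace ℝ ι → EuclideanSpace ℝ ι, (∀ x ∈ C, ⟪x, z x⟫ = 0) →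
      (∀ x ∈ C, ∀ y ∈ C, ⟪x, y⟫ = 1 / 2 → ⟪x, z y⟫ + ⟪z x, y⟫ ≤ 0) →
      ∀ x ∈ C, ∀ i, ⟪x, z (e i)⟫ + ⟪z x, e i⟫ = 0) :
    ∀ᶠ p : C → EuclideanSpace ℝ ι in 𝓝 Subtype.val, (∀ x, ‖p x‖ = 1) →
      (∀ x y, x ≠ y → ⟪p x, p y⟫ ≤ 1 / 2) → ∀ x y, ⟪p x, p y⟫ = ⟪x.1, y.1⟫ := by
  let u : ι → C := fun i => ⟨e i, he i⟩
  let β : ((C → EE ι) × ℝ) × WW C → C → C → ℝ := fun q x y =>
    ∑ i, ∑ j, x.1 i * y.1 j * q.2.2 i j + ∑ i, x.1 i * ⟪q.1.1 (u i), q.2.1 y⟫ +
      ∑ j, y.1 j * ⟪q.2.1 x, q.1.1 (u j)⟫ + q.1.2 * ⟪q.2.1 x, q.2.1 y⟫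
  let K : Set (((C → EE ι) × ℝ) × WW C) := {q | (∀ i, q.2.1 (u i) = 0) ∧ (∀ i j, q.2.2 i j = q.2.2 j i) ∧
    (∀ x, β q x x = 0) ∧ ∀ x y : C, ⟪x.1, y.1⟫ = 1 / 2 → β q x y ≤ 0}
  have hK : IsClosed K := by
    simp only [K, Set.ofPred_and, Set.ofPred_forall, β]
    refine .inter ?_ (.inter ?_ (.inter ?_ ?_)) <;> repeat' refine isClosed_iInter fun _ => ?_
    exacts [isClosed_eq (by fun_prop) (by fun_prop), isClosed_eq (by fun_prop) (by fun_prop),
      isClosed_eq (by fun_prop) (by fun_prop), isClosed_le (by fun_prop) (by fun_prop)]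
  have h1 := (isCompact_sphere (0 : WW C) 1).eventually_forall_of_forall_eventually
    (x₀ := ((Subtype.val, 0) : (C → EE ι) × ℝ)) (P := fun a w => (a, w) ∉ K) fun w hw =>
      hK.isOpen_compl.mem_nhds (by
        rintro ⟨k1, k2, k3, k4⟩
        let z : EE ι → EE ι := Function.extend Subtype.val
          (fun x : C => w.1 x + WithLp.toLp 2 fun j => (∑ i, x.1 i * w.2 i j) / 2) 0
        have hz : ∀ x y : C, ⟪x.1, z y⟫ + ⟪z x, y.1⟫ = β ((Subtype.val, 0), w) x y := fun x y => by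
          simp only [z, β, u, Subtype.val_injective.extend_apply, ip_e, e_ip, ip x.1, ip _ y.1,
            PiLp.add_apply, mul_add, add_mul, sum_add_distrib, sum_div, mul_sum, sum_mul]
          rw [sum_comm (s := univ) (t := univ) (f := fun j i => x.1 i * w.2 i j / 2 * y.1 j)]
          have : ∑ i, ∑ j, x.1 i * y.1 j * w.2 i j = ∑ i, ∑ j, x.1 i * (y.1 j * w.2 j i / 2) +
              ∑ i, ∑ j, x.1 i * w.2 i j / 2 * y.1 j := by
            simp only [← sum_add_distrib]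
            exact sum_congr rfl fun i _ => sum_congr rfl fun j _ => by
              rw [show w.2 j i = w.2 i j from k2 j i]; ring
          rw [this]
          simp only [mul_comm (y.1 _) (w.1 x _)]
          ring
        have h := hinf z (fun x hx => by
          have := (hz ⟨x, hx⟩ ⟨x, hx⟩).trans (k3 _)
          rw [real_inner_comm x (z x)] at this
          linarith) fun x hx y hy h => (hz ⟨x, hx⟩ ⟨y, hy⟩).trans_le (k4 _ _ h)
        have h2 : ∀ x i, ∑ j, x.1 j * w.2 j i + w.1 x i = 0 := fun x i => by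
          have := (hz x (u i)).symm.trans (h x x.2 i)
          simpa [β, u, e_app, ip_e, show w.1 ⟨e i, he i⟩ = 0 from k1 i] using this
        have h3 : w.2 = 0 := by
          ext i j
          simpa [u, e_app, show w.1 ⟨e i, he i⟩ = 0 from k1 i] using h2 (u i) j
        have h4 : w = 0 := Prod.ext (by ext x i; simpa [h3] using h2 x i) h3
        simp [h4] at hw)
  let w : (C → EE ι) → WW C := fun p => (fun x => p x - ∑ i, x.1 i • p (u i),
    fun i j => ⟪p (u i), p (u j)⟫ - e i j)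
  have w0 : w Subtype.val = 0 := by
    ext x i
    · simp [w, u, e_app]
    simp [w, u, ip_e]
  have hc : Tendsto (fun p => (p, ‖w p‖)) (𝓝 Subtype.val) (𝓝 (Subtype.val, 0)) := by
    have : Continuous fun p => (p, ‖w p‖) := by fun_prop
    simpa [w0] using this.tendsto Subtype.val
  filter_upwards [hc.eventually h1] with p hp p1 p2
  have id : ∀ x y, ⟪p x, p y⟫ - ⟪x.1, y.1⟫ = β ((p, 1), w p) x y := fun x y => by
    simp only [β, w, inner_sub_left, inner_sub_right, sum_inner, inner_sum, inner_smul_left,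
      inner_smul_right, ip x.1 y.1, e_app, mul_sub, sum_sub_distrib, mul_sum, conj_trivial,
      mul_ite, mul_one, mul_zero, sum_ite_eq', mem_univ, if_true, one_mul]
    rw [sum_comm (f := fun j i => y.1 j * (x.1 i * ⟪p (u i), p (u j)⟫))]
    simp only [mul_left_comm (y.1 _), mul_assoc]
    ring
  by_cases h0 : w p = 0
  · intro x y
    rw [← sub_eq_zero, id, h0]
    simp [β]
  have n0 := norm_pos_iff.mpr h0
  have sc : ∀ x y, β ((p, ‖w p‖), ‖w p‖⁻¹ • w p) x y = ‖w p‖⁻¹ * β ((p, 1), w p) x y :=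
    fun x y => by
      simp only [β, Prod.smul_fst, Prod.smul_snd, Pi.smul_apply, inner_smul_left, inner_smul_right,
        smul_eq_mul, conj_trivial, mul_add, mul_sum, mul_left_comm _ ‖w p‖⁻¹]
      field_simp
  refine absurd ⟨fun i => ?_, fun i j => ?_, fun x => ?_, fun x y h => ?_⟩
    (hp (‖w p‖⁻¹ • w p) (by simp [norm_smul, n0.ne']))
  · simp [w, u, e_app]
  · simp [w, e_app, real_inner_comm, eq_comm]
  · rw [sc, ← id]
    simp [p1, hn]
  rw [sc, ← id, h]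
  refine mul_nonpos_of_nonneg_of_nonpos (by positivity) (sub_nonpos.mpr (p2 x y ?_))
  rintro rfl
  norm_num [hn] at h

lemma gram {C : Finset (EuclideanSpace ℝ ι)} (he : ∀ i, e i ∈ C) (p : C → EuclideanSpace ℝ ι)
    (h : ∀ x y, ⟪p x, p y⟫ = ⟪x.1, y.1⟫) :
    ∃ A : EuclideanSpace ℝ ι ≃ₗᵢ[ℝ] EuclideanSpace ℝ ι, ∀ x, p x = A x := by
  have o : Orthonormal ℝ fun i => p ⟨e i, he i⟩ := by
    rw [orthonormal_iff_ite]
    intro i j
    simp [h, ip_e, e_app, eq_comm]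
  let b := OrthonormalBasis.mk o (o.linearIndependent.span_eq_top_of_card_eq_finrank' (by simp)).ge
  refine ⟨b.repr.symm, fun x => ?_⟩
  rw [eq_comm, LinearIsometryEquiv.symm_apply_eq]
  ext i
  simp [b, b.repr_apply_apply, h, e_ip]

lemma jam (C : Finset (EuclideanSpace ℝ ι)) (he : ∀ i, e i ∈ C)
    (hl : ∀ᶠ p : C → EuclideanSpace ℝ ι in 𝓝 Subtype.val, (∀ x, ‖p x‖ = 1) →
      (∀ x y, x ≠ y → ⟪p x, p y⟫ ≤ 1 / 2) → ∀ x y, ⟪p x, p y⟫ = ⟪x.1, y.1⟫)
    (γ : C → unitInterval → EuclideanSpace ℝ ι) (hc : ∀ x, Continuous (γ x))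
    (h0 : ∀ x, γ x 0 = x) (h1 : ∀ x t, ‖γ x t‖ = 1)
    (h2 : ∀ x y t, x ≠ y → ⟪γ x t, γ y t⟫ ≤ 1 / 2) (t : unitInterval) :
    ∃ A : EuclideanSpace ℝ ι ≃ₗᵢ[ℝ] EuclideanSpace ℝ ι, ∀ x, γ x t = A x := by
  have : IsClopen {t | ∀ x y, ⟪γ x t, γ y t⟫ = ⟪x.1, y.1⟫} := by
    constructor
    · simp only [Set.ofPred_forall]
      exact isClosed_iInter fun x => isClosed_iInter fun y => isClosed_eq (by fun_prop) (by fun_prop)
    refine isOpen_iff_mem_nhds.mpr fun s hs => ?_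
    obtain ⟨A, hA⟩ := gram he (γ · s) hs
    have : Continuous fun t (x : C) => A.symm (γ x t) := by fun_prop
    have h := this.tendsto s
    simp only [hA, A.symm_apply_apply] at h
    filter_upwards [h.eventually hl] with t ht
    simpa using ht (by simpa using (h1 · t)) (by simpa using (h2 · · t))
  exact gram he (γ · t) ((this.eq_univ ⟨0, by simp [h0]⟩).ge trivial)

end Pool.Agent.H52.Jam
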