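import Pool.Agent.H52.Jam1

namespace Pool.Agent.H52.Jam

open Finset RealInnerProductSpace

variable {ι : Type} [Fintype ι] [DecidableEq ι] [CommRing ι]

/-- half the construction A lattice -/
def Lat : AddSubgroup (EE ι) where
  carrier := {x | ∃ u : ι → ℤ, (∀ i, x i = u i / 2) ∧ Even (∑ i, u i) ∧ ∑ i, u i • i = 0}
  zero_mem' := ⟨0, by simp, by simp, by simp⟩
  add_mem' := by
    rintro x y ⟨u, u1, u2, u3⟩ ⟨v, v1, v2, v3⟩
    exact ⟨u + v, by simp [u1, v1, add_div], by simpa [sum_add_distrib] using u2.add v2,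
      by simp [-zsmul_eq_mul, add_smul, sum_add_distrib, u3, v3]⟩
  neg_mem' := by
    rintro x ⟨u, u1, u2, u3⟩
    exact ⟨-u, by simp [u1, neg_div], by simpa using u2, by simpa using u3⟩

/-- half sum of four signed basis vectors -/
noncomputable def Y (a b c d : ι) (p q r s : ℤ) : EE ι :=
  (1 / 2 : ℝ) • ((p : ℝ) • e a + (q : ℝ) • e b + (r : ℝ) • e c + (s : ℝ) • e d)

/-- an affine plane -/
def Pl (a b c d : ι) : Prop :=
  a ≠ b ∧ a ≠ c ∧ a ≠ d ∧ b ≠ c ∧ b ≠ d ∧ c ≠ d ∧ a + b + c + d = 0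

/-- a sign -/
def Sg (p : ℤ) : Prop := p = 1 ∨ p = -1

lemma cls (h2 : ∀ a : ι, a + a = 0) {x : EE ι} (hx : x ∈ Lat) (hn : ⟪x, x⟫ ≤ 1) :
    x = 0 ∨ (∃ i, x = e i ∨ x = -e i) ∨ ∃ a b c d p q r s, Pl a b c d ∧ Sg p ∧ Sg q ∧ Sg r ∧ Sg s ∧
      x = Y a b c d p q r s := by
  obtain ⟨u, u1, u2, u3⟩ := hx
  have h4 : ∑ i, u i ^ 2 ≤ 4 := by
    have : ∑ i, (u i : ℝ) ^ 2 = 4 * ⟪x, x⟫ := by
      rw [ip, mul_sum]; exact sum_congr rfl fun i _ => by rw [u1]; ring
    exact_mod_cast this.trans_le (show _ ≤ (4 : ℝ) by linarith)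
  by_cases h : ∃ i, 2 ≤ |u i|
  · obtain ⟨i, hi⟩ := h
    rw [← add_sum_erase _ _ (mem_univ i)] at h4
    have s0 := sum_nonneg fun j (_ : j ∈ univ.erase i) => sq_nonneg (u j)
    have s1 : 4 ≤ u i ^ 2 := by nlinarith [sq_abs (u i)]
    have s2 := (sum_eq_zero_iff_of_nonneg fun j (_ : j ∈ univ.erase i) => sq_nonneg (u j)).mp
      (by omega)
    have s3 : u i = 2 ∨ u i = -2 := sq_eq_sq_iff_eq_or_eq_neg.mp (by omega)
    refine .inr (.inl ⟨i, s3.imp (fun s => ?_) fun s => ?_⟩) <;> ext j <;>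
      by_cases hj : j = i <;> simp_all [e_app]
  push Not at h
  let S := univ.filter (u · ≠ 0)
  have hS : ∀ i ∈ S, Sg (u i) := fun i hi => by
    have := (mem_filter.mp hi).2
    have := abs_lt.mp (h i)
    unfold Sg; omega
  have e1 : ∑ i, u i ^ 2 = S.card := by
    rw [← sum_filter_of_ne (p := (u · ≠ 0)) (by simp), card_eq_sum_ones]
    push_cast
    exact sum_congr rfl fun i hi => by rcases hS i hi with h | h <;> simp [h]
  have e2 : Even S.card := by
    have : Even (∑ i, u i ^ 2 - ∑ i, u i) := by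
      rw [← sum_sub_distrib]
      exact even_sum _ fun i _ => by simpa [sq, mul_sub] using Int.even_mul_pred_self (u i)
    exact (Int.even_coe_nat _).mp (e1 ▸ (Int.even_sub.mp this).mpr u2)
  have e3 : ∑ i ∈ S, i = 0 := by
    rw [← u3, ← sum_filter_of_ne (p := (u · ≠ 0)) (s := univ) (by intro i _ h h0; simp [h0] at h)]
    exact sum_congr rfl fun i hi => by
      rcases hS i hi with h | h <;> simp [h, neg_eq_of_add_eq_zero_left (h2 i)]
  have e4 : ∀ i, i ∉ S → u i = 0 := by simp [S]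
  obtain e5 | e5 | e5 : S.card = 0 ∨ S.card = 2 ∨ S.card = 4 := by
    obtain ⟨k, hk⟩ := e2; omega
  · left
    ext i
    simp [u1, e4 i (by simp [card_eq_zero.mp e5])]
  · obtain ⟨a, b, h1, h3⟩ := card_eq_two.mp e5
    rw [h3, sum_pair h1] at e3
    exact absurd (add_left_cancel ((h2 a).trans e3.symm)) h1
  obtain ⟨a, b, c, d, h1, h3, h5, h6, h7, h8, h9⟩ := card_eq_four.mp e5
  rw [h9] at hS e3 e4
  refine .inr (.inr ⟨a, b, c, d, u a, u b, u c, u d, ⟨h1, h3, h5, h6, h7, h8, ?_⟩, hS _ (by simp),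
    hS _ (by simp), hS _ (by simp), hS _ (by simp), ?_⟩)
  · simpa [h1, h3, h5, h6, h7, h8, add_assoc] using e3
  ext i
  simp only [Y, u1, PiLp.smul_apply, PiLp.add_apply, e_app, smul_eq_mul]
  split_ifs <;> simp_all <;> ring

lemma e_mem (h2 : ∀ a : ι, a + a = 0) (i : ι) : e i ∈ Lat :=
  ⟨Pi.single i 2, fun j => by by_cases h : j = i <;> simp [e_app, h], by simp,
    by simp [Pi.single_apply, two_smul, h2]⟩

omit [CommRing ι] in
lemma Y_ip (a b c d : ι) (p q r s : ℤ) (x : EE ι) :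
    ⟪Y a b c d p q r s, x⟫ = (p * x a + q * x b + r * x c + s * x d) / 2 := by
  simp [Y, inner_add_left, inner_smul_left, e_ip]; ring

omit [CommRing ι] in
lemma Y_app (a b c d : ι) (p q r s : ℤ) (i : ι) : Y a b c d p q r s i = ((if i = a then p else 0) +
    (if i = b then q else 0) + (if i = c then r else 0) + (if i = d then s else 0) : ℤ) / 2 := by
  simp [Y, e_app, ← add_div, div_eq_inv_mul, mul_add]

lemma Y_mem (h2 : ∀ a : ι, a + a = 0) {a b c d : ι} {p q r s : ℤ} (h : Pl a b c d) (hp : Sg p)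
    (hq : Sg q) (hr : Sg r) (hs : Sg s) : Y a b c d p q r s ∈ Lat ∧ ‖Y a b c d p q r s‖ = 1 := by
  obtain ⟨h1, h3, h4, h5, h6, h7, h8⟩ := h
  have n : ∀ {p : ℤ} (a : ι), Sg p → p • a = a := fun a h => by
    rcases h with rfl | rfl <;> simp [neg_eq_of_add_eq_zero_left (h2 a)]
  refine ⟨⟨_, Y_app a b c d p q r s, ?_, ?_⟩, ?_⟩
  · simp only [sum_add_distrib, sum_ite_eq', mem_univ, if_true]
    unfold Sg at *
    rw [Int.even_iff]; omega
  · simp [-zsmul_eq_mul, add_smul, sum_add_distrib, *]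
  rw [← sq_eq_sq₀ (by positivity) zero_le_one, ← real_inner_self_eq_norm_sq, Y_ip]
  simp only [Y_app, h1, h3, h4, h5, h6, h7, h1.symm, h3.symm, h4.symm, h5.symm, h6.symm, h7.symm]
  rcases hp with rfl | rfl <;> rcases hq with rfl | rfl <;> rcases hr with rfl | rfl <;>
    rcases hs with rfl | rfl <;> norm_num

omit [Fintype ι] [DecidableEq ι] in
lemma pl (h2 : ∀ a : ι, a + a = 0) {a b c : ι} (h1 : a ≠ b) (h3 : a ≠ c) (h4 : b ≠ c) :
    Pl a b c (a + b + c) := by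
  exact ⟨h1, h3, fun h => h4 (by linear_combination h2 b + h), h4,
    fun h => h3 (by linear_combination h2 a + h), fun h => h1 (by linear_combination h2 a + h), h2 _⟩

lemma inf (h2 : ∀ a : ι, a + a = 0) (h3 : 3 ≤ Fintype.card ι) (z : EE ι → EE ι)
    (z0 : ∀ x, x ∈ Lat ∧ ‖x‖ = 1 → ⟪x, z x⟫ = 0)
    (z1 : ∀ x, x ∈ Lat ∧ ‖x‖ = 1 → ∀ y, y ∈ Lat ∧ ‖y‖ = 1 → ⟪x, y⟫ = 1 / 2 →
      ⟪x, z y⟫ + ⟪z x, y⟫ ≤ 0) (x : EE ι) (hx : x ∈ Lat ∧ ‖x‖ = 1) (i : ι) :
    ⟪x, z (e i)⟫ + ⟪z x, e i⟫ = 0 := by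
  have n1 : ∀ {x : EE ι}, x ∈ Lat ∧ ‖x‖ = 1 → ⟪x, x⟫ = 1 := fun h => by simp [h.2]
  have ng : ∀ {x : EE ι}, x ∈ Lat ∧ ‖x‖ = 1 → -x ∈ Lat ∧ ‖-x‖ = 1 := fun h =>
    ⟨neg_mem h.1, by simp [h.2]⟩
  have sb : ∀ {x y : EE ι}, x ∈ Lat ∧ ‖x‖ = 1 → y ∈ Lat ∧ ‖y‖ = 1 → ⟪x, y⟫ = 1 / 2 →
      x - y ∈ Lat ∧ ‖x - y‖ = 1 := fun h h' h1 => ⟨sub_mem h.1 h'.1, by
    rw [← sq_eq_sq₀ (by positivity) zero_le_one, norm_sub_sq_real, h1, h.2, h'.2]; norm_num⟩
  have H : ∀ {x y : EE ι}, x ∈ Lat ∧ ‖x‖ = 1 → y ∈ Lat ∧ ‖y‖ = 1 → ⟪x, y⟫ = 1 / 2 →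
      ⟪x, z y⟫ + ⟪z x, y⟫ = 0 := fun {x y} hx hy h => by
    have hw := sb hx hy h
    have h' : ⟪y, x⟫ = 1 / 2 := by rwa [real_inner_comm]
    have a1 := z1 _ hx _ hy h
    have a2 := z1 _ hx _ hw (by rw [inner_sub_right, n1 hx, h]; norm_num)
    have a3 := z1 _ hw _ (ng hy) (by rw [inner_neg_right, inner_sub_left, n1 hy, h]; norm_num)
    have a4 := z1 _ (ng hx) _ (ng hy) (by simpa using h)
    have a5 := z1 _ (ng hx) _ (ng hw) (by rw [inner_neg_neg, inner_sub_right, n1 hx, h]; norm_num)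
    have a6 := z1 _ (ng hw) _ hy (by rw [inner_neg_left, inner_sub_left, n1 hy, h]; norm_num)
    have b1 := z0 _ hx
    have b2 := z0 _ hy
    have b3 := z0 _ hw
    have b4 := z0 _ (ng hx)
    have b5 := z0 _ (ng hy)
    have b6 := z0 _ (ng hw)
    generalize z x = z1, z y = z2, z (x - y) = z3, z (-x) = z4, z (-y) = z5, z (-(x - y)) = z6 at *
    simp only [inner_neg_left, inner_neg_right, inner_sub_left, inner_sub_right,
      real_inner_comm _ z1, real_inner_comm _ z3, real_inner_comm _ z4,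
      real_inner_comm _ z6] at a1 a2 a3 a4 a5 a6 b1 b2 b3 b4 b5 b6 ⊢
    linarith
  have H' : ∀ {x y : EE ι}, x ∈ Lat ∧ ‖x‖ = 1 → y ∈ Lat ∧ ‖y‖ = 1 → ⟪x, y⟫ = -1 / 2 →
      ⟪x, z y⟫ + ⟪z x, y⟫ = 0 := fun {x y} hx hy h => by
    have hw := sb hx (ng hy) (by rw [inner_neg_right, h]; norm_num)
    rw [sub_neg_eq_add] at hw
    have a1 := H hw hx (by rw [inner_add_left, n1 hx, real_inner_comm, h]; norm_num)
    have a2 := H hw hy (by rw [inner_add_left, n1 hy, h]; norm_num)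
    have b1 := z0 _ hx
    have b2 := z0 _ hy
    have b3 := z0 _ hw
    generalize z x = z1, z y = z2, z (x + y) = z3 at *
    simp only [inner_add_left, real_inner_comm _ z1, real_inner_comm _ z3] at a1 a2 b1 b2 b3 ⊢
    linarith
  have he : ∀ i : ι, e i ∈ Lat ∧ ‖e i‖ = 1 := fun i => ⟨e_mem h2 i, by simp [e]⟩
  let g : EE ι → ι → ℝ := fun x i => ⟪x, z (e i)⟫ + ⟪z x, e i⟫
  have gY : ∀ {a b c d : ι} {p q r s : ℤ}, Pl a b c d → Sg p → Sg q → Sg r → Sg s →
      g (Y a b c d p q r s) a = 0 ∧ g (Y a b c d p q r s) b = 0 ∧ g (Y a b c d p q r s) c = 0 ∧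
      g (Y a b c d p q r s) d = 0 := fun {a b c d p q r s} h hp hq hr hs => by
    have : ∀ i t, Sg t → ⟪Y a b c d p q r s, e i⟫ = t / 2 → g (Y a b c d p q r s) i = 0 := by
      rintro i _ (rfl | rfl) h1
      exacts [H (Y_mem h2 h hp hq hr hs) (he i) (by simpa using h1),
        H' (Y_mem h2 h hp hq hr hs) (he i) (by simpa using h1)]
    obtain ⟨h1, h3, h4, h5, h6, h7, -⟩ := h
    refine ⟨this _ p hp ?_, this _ q hq ?_, this _ r hr ?_, this _ s hs ?_⟩ <;>
      simp [ip_e, Y_app, h1, h3, h4, h5, h6, h7, h1.symm, h3.symm, h4.symm, h5.symm, h6.symm, h7.symm]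
  have th : ∀ i j : ι, ∃ k, k ≠ i ∧ k ≠ j := fun i j => by
    simpa using exists_mem_notMem_of_card_lt_card (s := {i, j}) (t := univ)
      (card_le_two.trans_lt h3)
  have o : Sg 1 := .inl rfl
  have m : Sg (-1) := .inr rfl
  have g1 : ∀ i j, g (e i) j = 0 := fun i j => by
    by_cases h : i = j
    · simp only [g, h, real_inner_comm (e j), z0 _ (he j), add_zero]
    obtain ⟨k, k1, k2⟩ := th i j
    have P := pl h2 h k1.symm k2.symm
    have : ∀ r s, Sg r → Sg s → ⟪Y i j k (i + j + k) 1 1 r s,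
        z (e i) + z (e j) + (r : ℝ) • z (e k) + (s : ℝ) • z (e (i + j + k))⟫ = 0 := fun r s hr hs => by
      obtain ⟨a1, a2, a3, a4⟩ := gY P o o hr hs
      have a5 := z0 _ (Y_mem h2 P o o hr hs)
      rw [Y_ip] at a5
      simp only [g, ip_e, inner_add_right, inner_smul_right, Int.cast_one] at *
      linear_combination a1 + a2 + r * a3 + s * a4 - 2 * a5
    have a1 := this _ _ o o
    have a2 := this _ _ o m
    have a3 := this _ _ m o
    have a4 := this _ _ m m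
    have b := fun i => z0 _ (he i)
    simp only [e_ip] at b
    simp [Y_ip, b] at a1 a2 a3 a4
    simp only [g, e_ip, ip_e]
    linarith
  have B : ∀ x y : EE ι, ⟪x, z y⟫ + ⟪z x, y⟫ = ∑ i, y i * g x i + ∑ i, x i * g y i := fun x y => by
    have : ∑ i, y i * ⟪x, z (e i)⟫ + ∑ i, x i * ⟪y, z (e i)⟫ = 0 := by
      simp only [ip, mul_sum]
      rw [sum_comm, ← sum_add_distrib]
      refine sum_eq_zero fun i _ => ?_
      rw [← sum_add_distrib]
      refine sum_eq_zero fun j _ => ?_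
      have := g1 i j
      simp only [g, e_ip, ip_e] at this
      linear_combination (x i * y j) * this
    simp only [g, ip_e, mul_add, sum_add_distrib]
    rw [ip x (z y), real_inner_comm, ip y (z x)]
    linarith
  have Ys : ∀ (a b c d : ι) (p q r s : ℤ) (f : ι → ℝ), ∑ i, Y a b c d p q r s i * f i =
      (p * f a + q * f b + r * f c + s * f d) / 2 := fun a b c d p q r s f => by
    simpa only [ip] using Y_ip a b c d p q r s (WithLp.toLp 2 f)
  have sn : ∀ {p}, Sg p → Sg (-p) := by rintro _ (rfl | rfl) <;> simp [Sg]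
  have gv : ∀ {a b c d : ι} {p q r s : ℤ}, Pl a b c d → Sg p → Sg q → Sg r → Sg s → ∀ v,
      g (Y a b c d p q r s) v + g (Y a b c d p q (-r) (-s)) v = 0 := by
    intro a b c d p q r s P hp hq hr hs v
    have a1 := gY P hp hq hr hs
    have a2 := gY P hp hq (sn hr) (sn hs)
    by_cases hv : v = a ∨ v = b ∨ v = c ∨ v = d
    · rcases hv with rfl | rfl | rfl | rfl <;> simp [a1, a2]
    push Not at hv
    obtain ⟨v1, v2, v3, v4⟩ := hv
    have Q := pl h2 P.1 v1.symm v2.symm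
    have : ∀ r s t, Sg r → Sg s → Sg t → ∑ i, Y a b v (a + b + v) p q 1 t i * g (Y a b c d p q r s) i +
        ∑ i, Y a b c d p q r s i * g (Y a b v (a + b + v) p q 1 t) i = 0 := fun r s t hr hs ht => by
      rw [← B]
      refine H (Y_mem h2 P hp hq hr hs) (Y_mem h2 Q hp hq o ht) ?_
      obtain ⟨h1, h3, h4, h5, h6, h7, h8⟩ := P
      obtain ⟨-, -, -, k1, k2, -⟩ := id Q
      have c1 : c ≠ a + b + v := fun h => v4 (by linear_combination h2 c - h - h8)
      have c2 : d ≠ a + b + v := fun h => v3 (by linear_combination h2 d - h - h8)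
      rw [Y_ip]
      simp only [Y_app, h1, h3.symm, h4.symm, h5.symm, h6.symm, h1.symm, Q.2.1, Q.2.2.1, k1, k2, c1,
        c2, v3.symm, v4.symm]
      rcases hp with rfl | rfl <;> rcases hq with rfl | rfl <;> norm_num
    have b1 := this _ _ _ hr hs o
    have b2 := this _ _ _ hr hs m
    have b3 := this _ _ _ (sn hr) (sn hs) o
    have b4 := this _ _ _ (sn hr) (sn hs) m
    simp only [Ys, a1, a2, gY Q hp hq o o, gY Q hp hq o m] at b1 b2 b3 b4
    push_cast at b1 b2 b3 b4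
    linarith
  have g2 : ∀ {a b c d : ι} {p q r s : ℤ}, Pl a b c d → Sg p → Sg q → Sg r → Sg s → ∀ v,
      g (Y a b c d p q r s) v = 0 := by
    intro a b c d p q r s P hp hq hr hs v
    have a1 := gv P hp hq hr hs v
    obtain ⟨h1, h3, h4, h5, h6, h7, h8⟩ := P
    have a2 := gv ⟨h3, h1, h4, h5.symm, h7, h6, by linear_combination h8⟩ hp (sn hr) hq (sn hs) v
    have a3 := gv ⟨h4, h1, h3, h6.symm, h7.symm, h5, by linear_combination h8⟩ hp hs (sn hq) (sn hr) v
    have e1 : ∀ p q r s, Y a c b d p r q s = Y a b c d p q r s := fun p q r s => by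
      simp only [Y]; congr 1; abel
    have e2 : ∀ p q r s, Y a d b c p s q r = Y a b c d p q r s := fun p q r s => by
      simp only [Y]; congr 1; abel
    simp only [e1, e2, neg_neg] at a2 a3
    linarith
  rcases cls h2 hx.1 (n1 hx).le with rfl | ⟨j, rfl | rfl⟩ | ⟨a, b, c, d, p, q, r, s, P, hp, hq, hr, hs, rfl⟩
  · simp at hx
  · exact g1 _ _
  · by_cases h : j = i
    · have := z0 _ hx
      rw [real_inner_comm, inner_neg_right] at this
      subst h
      rw [inner_neg_left, z0 _ (he j)]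
      linarith
    obtain ⟨k, k1, k2⟩ := th j i
    have P := pl h2 h k1.symm k2.symm
    have : ∀ t, Sg t → ∑ l, Y j i k (j + i + k) 1 t 1 1 l * g (-e j) l = 0 := fun t ht => by
      have := H' hx (Y_mem h2 P o ht o o) (by
        rw [inner_neg_left, e_ip, Y_app]
        simp [h, k1.symm, P.2.2.1]
        norm_num)
      rw [B] at this
      simpa [g2 P o ht o o] using this
    have a1 := this _ o
    have a2 := this _ m
    rw [Ys] at a1 a2
    push_cast at a1 a2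
    show g _ _ = 0
    linarith
  exact g2 P hp hq hr hs i

theorem main (h2 : ∀ a : ι, a + a = 0) (h3 : 3 ≤ Fintype.card ι) : ∃ C : Finset (EE ι),
    (∀ x ∈ C, ‖x‖ = 1) ∧ (∀ x ∈ C, ∀ y ∈ C, x ≠ y → ⟪x, y⟫ ≤ 1 / 2) ∧
    (Fintype.card ι).descFactorial 3 ≤ 64 * C.card ∧ (∀ i, e i ∈ C) ∧
    ∀ᶠ p : C → EE ι in nhds Subtype.val, (∀ x, ‖p x‖ = 1) →
      (∀ x y, x ≠ y → ⟪p x, p y⟫ ≤ 1 / 2) → ∀ x y, ⟪p x, p y⟫ = ⟪x.1, y.1⟫ := by
  classical
  have o : Sg 1 := .inl rfl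
  have fin : {x : EE ι | x ∈ Lat ∧ ‖x‖ = 1}.Finite := by
    refine ((Fintype.piFinset fun _ : ι => Icc (-2 : ℤ) 2).finite_toSet.image
      fun u => WithLp.toLp 2 fun i => (u i : ℝ) / 2).subset ?_
    rintro x ⟨⟨u, u1, -⟩, h⟩
    refine ⟨u, by_contra fun hu => ?_, by ext; simp [u1]⟩
    simp only [Fintype.coe_piFinset, coe_Icc, Set.mem_pi, Set.mem_univ, true_imp_iff] at hu
    refine hu fun i => ?_
    have := PiLp.norm_apply_le x i
    rw [h, u1, Real.norm_eq_abs, abs_le] at this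
    constructor <;> [exact_mod_cast (show (-2 : ℝ) ≤ u i by linarith);
      exact_mod_cast (show (u i : ℝ) ≤ 2 by linarith)]
  have he : ∀ i, e i ∈ fin.toFinset := fun i => by simp [e_mem h2 i, show ‖e i‖ = 1 by simp [e]]
  refine ⟨fin.toFinset, by simp, fun x hx y hy h => ?_, ?_, he, local_rigid _ he (by simp)
    fun z z0 z1 x hx => inf h2 h3 z (by simpa using z0) (by simpa using z1) x (by simpa using hx)⟩
  · rw [Set.Finite.mem_toFinset] at hx hy
    by_contra hc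
    have h1 : ⟪x - y, x - y⟫ < 1 := by
      rw [real_inner_self_eq_norm_sq, norm_sub_sq_real, hx.2, hy.2]; linarith
    rw [real_inner_self_eq_norm_sq] at h1
    rcases cls h2 (sub_mem hx.1 hy.1) (by rw [real_inner_self_eq_norm_sq]; exact h1.le) with
      h4 | ⟨j, h4 | h4⟩ | ⟨a, b, c, d, p, q, r, s, P, hp, hq, hr, hs, h4⟩
    · exact h (sub_eq_zero.mp h4)
    · simp [h4, e] at h1
    · simp [h4, e] at h1
    simp [h4, (Y_mem h2 P hp hq hr hs).2] at h1
  have := Fintype.card_embedding_eq (α := Fin 3) (β := ι)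
  rw [Fintype.card_fin] at this
  rw [← this]
  have P : ∀ f : Fin 3 ↪ ι, Pl (f 0) (f 1) (f 2) (f 0 + f 1 + f 2) := fun f =>
    pl h2 (by simp) (by simp) (by simp)
  refine card_le_mul_card_image_of_maps_to (f := fun f => Y (f 0) (f 1) (f 2) (f 0 + f 1 + f 2) 1 1 1 1)
    (fun f _ => by simpa using Y_mem h2 (P f) o o o o) _ fun y _ => ?_
  rcases (univ.filter fun f : Fin 3 ↪ ι => Y (f 0) (f 1) (f 2) (f 0 + f 1 + f 2) 1 1 1 1 = y
    ).eq_empty_or_nonempty with h | ⟨f, hf⟩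
  · simp [h]
  refine (card_le_card_of_injOn (t := Fintype.piFinset fun _ : Fin 3 =>
    ({f 0, f 1, f 2, f 0 + f 1 + f 2} : Finset ι)) (⇑) (fun f' hf' => ?_)
    DFunLike.coe_injective.injOn).trans ?_
  · refine Fintype.mem_piFinset.mpr fun i => by_contra fun hi => ?_
    have := congrArg (· (f' i)) ((mem_filter.mp hf').2.trans (mem_filter.mp hf).2.symm)
    simp only [mem_insert, mem_singleton, not_or] at hi
    simp only [Y_app, hi, if_false] at this
    have := (P f').2.2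
    fin_cases i <;> simp_all [Pl]
  simpa using Nat.pow_le_pow_left card_le_four 3

end Pool.Agent.H52.Jam
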