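import Pool.Agent.Lead.KK.Spec

set_option autoImplicit false
open Complex Filter Topology Pool.Agent.Lead.KK

namespace Pool.Agent.H52.KK

lemma ev_log (a b r : ℝ) (hr : 0 < r) : ∀ᶠ x : ℝ in atTop, a + b * Real.log x ≤ x ^ r := by
  have h1 := (isLittleO_log_rpow_atTop hr).bound (c := 1 / (2 * (|b| + 1))) (by positivity)
  have h2 := (tendsto_rpow_atTop hr).eventually_ge_atTop (2 * a)
  filter_upwards [h1, h2, eventually_ge_atTop 1] with x h1 h2 h3
  have h4 : 0 ≤ Real.log x := Real.log_nonneg h3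
  have h5 : 0 ≤ x ^ r := by positivity
  rw [Real.norm_of_nonneg h4, Real.norm_of_nonneg h5, div_mul_eq_mul_div, one_mul,
    le_div_iff₀ (by positivity)] at h1
  have h6 := mul_le_mul_of_nonneg_right (le_abs_self b) h4
  nlinarith

lemma ev_small (C e r : ℝ) (he : 0 < e) (hr : 0 < r) : ∀ᶠ x : ℝ in atTop, C * x ^ (-r) ≤ e := by
  have := (tendsto_rpow_neg_atTop hr).const_mul C
  rw [mul_zero] at this
  exact this.eventually (ge_mem_nhds he)

/-- the point z with 1/2 + i z - kappa/2 = w -/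
noncomputable def zof (κ w : ℂ) : ℂ := -I * (w + κ / 2 - 1 / 2)

noncomputable def wof (κ z : ℂ) : ℂ := 1 / 2 + I * z - κ / 2

lemma wof_zof (κ w : ℂ) : wof κ (zof κ w) = w := by
  rw [wof, zof, ← mul_assoc, mul_neg, I_mul_I]; ring

lemma norm_wof (κ z w : ℂ) : ‖wof κ z - w‖ = ‖z - zof κ w‖ := by
  have : wof κ z - w = I * (z - zof κ w) := by
    rw [← sub_eq_zero, mul_sub, ← wof_zof κ w, wof_zof, wof]
    have := wof_zof κ w
    rw [wof] at this
    linear_combination this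
  rw [this, norm_mul, norm_I, one_mul]

lemma zof_re (κ w : ℂ) : (zof κ w).re = w.im + κ.im / 2 := by simp [zof]

lemma zof_im (κ w : ℂ) : (zof κ w).im = -(w.re + κ.re / 2 - 1 / 2) := by simp [zof]

lemma local_form (h1 : REP) (h2 : ZREP) (h3 : APX) : ∃ C T0 : ℝ, 0 < C ∧ ∀ τ : ℝ, T0 ≤ |τ| →
    ∃ (κ : ℂ) (F : ℂ → ℂ), |κ.re - Real.log |τ| / 2| ≤ C ∧ |κ.im| ≤ C ∧ Differentiable ℂ F ∧
      (∀ z, analyticOrderNatAt F z = analyticOrderNatAt (Xi (-1 / 4)) z) ∧
      (∀ z, F z ≠ 0 → Xi (-1 / 4) z ≠ 0) ∧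
      ∀ (a r : ℝ) (z : ℂ), 0 ≤ a → a + r ≤ |τ| ^ (1 / 4 : ℝ) → ‖z - zof κ (a + τ * I)‖ ≤ r →
        a - r ≤ (wof κ z).re ∧
        ‖F z - Z (wof κ z)‖ ≤ C * |τ| ^ (-(1 / 3) : ℝ) * Real.exp (max (2 - (wof κ z).re) 0 ^ 2) ∧
        ‖F z‖ ≤ 3 * Real.exp (max (2 - a + r) 0 ^ 2) ∧ (3 ≤ a - r → ‖F z - 1‖ ≤ 1 / 2) := by
  obtain ⟨C, T0, hC, h⟩ := h3
  obtain ⟨T1, hT1⟩ := eventually_atTop.1 (ev_small C (1 / 4) (1 / 3) (by norm_num) (by norm_num))
  refine ⟨C, max T0 T1, hC, fun τ hτ => ?_⟩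
  obtain ⟨κ, c0, k1, k2, k3⟩ := h τ ((le_max_left _ _).trans hτ)
  have sm := hT1 _ ((le_max_right _ _).trans hτ)
  have d2 : Differentiable ℂ fun z => Complex.exp (c0 - κ * wof κ z) := by
    unfold wof; fun_prop
  refine ⟨κ, fun z => Xi (-1 / 4) z * Complex.exp (c0 - κ * wof κ z), k1, k2, h1.1.mul d2, ?_,
    fun z hz => left_ne_zero_of_mul hz, fun a r z ha har hz => ?_⟩
  · intro z
    have e := analyticOrderAt_mul (h1.1.analyticAt z) (d2.analyticAt z)
    rw [(d2.analyticAt z).analyticOrderAt_eq_zero.2 (exp_ne_zero _), add_zero] at e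
    exact congrArg ENat.toNat e
  rw [← norm_wof] at hz
  have r1 := (abs_re_le_norm _).trans hz
  have r2 := (abs_im_le_norm _).trans hz
  simp only [sub_re, add_re, ofReal_re, mul_re, I_re, mul_zero, ofReal_im, I_im, mul_one, sub_self,
    add_zero, sub_im, add_im, mul_im, zero_add] at r1 r2
  obtain ⟨r3, r4⟩ := abs_le.1 r1
  have e := k3 z (wof κ z) rfl (by linarith) (by linarith)
  have e2 := e.trans (mul_le_mul_of_nonneg_right sm (Real.exp_pos _).le)
  refine ⟨by linarith, e, ?_, fun h3 => ?_⟩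
  · have e3 := h2.2.2.2 (wof κ z)
    have e4 : Real.exp (max (2 - (wof κ z).re) 0 ^ 2) ≤ Real.exp (max (2 - a + r) 0 ^ 2) := by
      gcongr
      linarith
    have e5 := norm_add_le (Xi (-1 / 4) z * Complex.exp (c0 - κ * wof κ z) - Z (wof κ z))
      (Z (wof κ z))
    rw [sub_add_cancel] at e5
    linarith [Real.exp_pos (max (2 - (wof κ z).re) 0 ^ 2)]
  · have e3 := h2.2.2.1 (wof κ z) (by linarith)
    rw [max_eq_right (by linarith), sq, mul_zero, Real.exp_zero] at e2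
    have e5 := norm_add_le (Xi (-1 / 4) z * Complex.exp (c0 - κ * wof κ z) - Z (wof κ z))
      (Z (wof κ z) - 1)
    rw [sub_add_sub_cancel] at e5
    linarith

lemma low_ev (C ε X0 T0 M0 : ℝ) (hε : 0 < ε) : ∀ᶠ X : ℝ in atTop,
    X0 ≤ X ∧ T0 ≤ ε * X ∧ M0 ≤ Real.log X / 10 ∧ 6 ≤ Real.log X / 10 ∧
    3 + 5 * (Real.log X / 10) ≤ (ε * X) ^ (1 / 4 : ℝ) ∧
    C * (ε * X) ^ (-(1 / 3) : ℝ) * Real.exp (2 * (Real.log X / 10) + 4) ≤ 1 / 2 ∧
    C - Real.log ε < Real.log X / 10 ∧ C + 3 * (Real.log X / 10) ≤ X ∧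
    Real.log 2 - Real.log ε ≤ Real.log X := by
  have t1 : Tendsto (fun X : ℝ => ε * X) atTop atTop := tendsto_id.const_mul_atTop hε
  have t2 : Tendsto (fun X : ℝ => Real.log X / 10) atTop atTop :=
    Real.tendsto_log_atTop.atTop_div_const (by norm_num)
  filter_upwards [eventually_ge_atTop X0, t1.eventually_ge_atTop T0, t2.eventually_ge_atTop M0,
    t2.eventually_ge_atTop 6, t1.eventually (ev_log (3 - Real.log ε / 2) (1 / 2) (1 / 4) (by norm_num)),
    ev_small (C * ε ^ (-(1 / 3) : ℝ) * Real.exp 4) (1 / 2) (2 / 15) (by norm_num) (by norm_num),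
    t2.eventually_gt_atTop (C - Real.log ε), ev_log C (3 / 10) 1 one_pos,
    Real.tendsto_log_atTop.eventually_ge_atTop (Real.log 2 - Real.log ε), eventually_gt_atTop 0]
    with X a1 a2 a3 a4 a5 a6 a7 a8 a9 a10
  refine ⟨a1, a2, a3, a4, ?_, ?_, a7, ?_, a9⟩
  · rw [Real.log_mul hε.ne' a10.ne'] at a5; linarith
  · have e1 : Real.exp (2 * (Real.log X / 10)) = X ^ (1 / 5 : ℝ) := by
      rw [Real.rpow_def_of_pos a10]; congr 1; ring
    have e2 : X ^ (-(2 / 15) : ℝ) = X ^ (-(1 / 3) : ℝ) * X ^ (1 / 5 : ℝ) := by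
      rw [← Real.rpow_add a10]; norm_num
    rw [Real.mul_rpow hε.le a10.le, Real.exp_add, e1]
    rw [e2] at a6
    linarith
  · rw [Real.rpow_one] at a8; linarith

theorem low (h1 : REP) (h2 : ZREP) (h3 : APX) (h4 : ZER) (h5 : PRB) : LOW := by
  classical
  obtain ⟨C, T0, hC, hl⟩ := local_form h1 h2 h3
  obtain ⟨δ, M0, hδ, hz⟩ := h4 (1 / 50) (by norm_num)
  obtain ⟨ε, X0, hε, hε1, hp⟩ := h5
  have t0 : Tendsto (fun T : ℝ => ε / 2 * T) atTop atTop := tendsto_id.const_mul_atTop (by positivity)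
  obtain ⟨T1, hT1⟩ := eventually_atTop.1 (t0.eventually
    ((low_ev C ε X0 T0 M0 hε).and (eventually_gt_atTop 0)))
  refine ⟨ε ^ 2 * δ / 40, T1, by positivity, fun T hT => ?_⟩
  obtain ⟨⟨a1, a2, a3, a4, a5, a6, a7, a8, a9⟩, X0'⟩ := hT1 T hT
  obtain ⟨X, hX⟩ : ∃ X, X = ε / 2 * T := ⟨_, rfl⟩
  rw [← hX] at a1 a2 a3 a4 a5 a6 a7 a8 a9 X0'
  have eT : T = 2 * (X / ε) := by rw [hX]; field_simp
  obtain ⟨A, b1, b2, b3⟩ := hp X a1
  obtain ⟨R, hR⟩ : ∃ R, R = Real.log X / 10 := ⟨_, rfl⟩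
  have eR : Real.log X = 10 * R := by rw [hR]; ring
  rw [← hR] at a3 a4 a5 a6 a7 a8
  have key : ∀ τ ∈ A, ∃ S : Finset ℂ, (∀ z ∈ S, |z.re - τ| ≤ 3 * R + C / 2 ∧ z.im < 0) ∧
      δ * (10 * R ^ 2) ≤ ∑ z ∈ S, (analyticOrderNatAt (Xi (-1 / 4)) z : ℝ) := by
    intro τ hτ
    obtain ⟨c1, c2, c3⟩ := b2 τ hτ
    have εX : 0 < ε * X := by positivity
    obtain ⟨κ, F, k1, k2, dF, oF, -, bF⟩ := hl τ (a2.trans c1)
    have c4 : 3 + 5 * R ≤ |τ| ^ (1 / 4 : ℝ) :=
      a5.trans (Real.rpow_le_rpow εX.le c1 (by norm_num))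
    have c5 : |τ| ^ (-(1 / 3) : ℝ) ≤ (ε * X) ^ (-(1 / 3) : ℝ) :=
      Real.rpow_le_rpow_of_nonpos εX c1 (by norm_num)
    obtain ⟨S, s1, s2⟩ := hz F (zof κ ((3 + R : ℝ) + τ * I)) R (10 * R ^ 2) dF (by linarith)
      (by nlinarith) (fun z hz => by
        refine (bF (3 + R) (4 * R) z (by linarith) (by linarith) hz).2.2.1.trans ?_
        rw [max_eq_left (by linarith)]
        have e1 := Real.add_one_le_exp (R ^ 2)
        calc 3 * Real.exp ((2 - (3 + R) + 4 * R) ^ 2) ≤ Real.exp (R ^ 2) * Real.exp (9 * R ^ 2) := by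
              gcongr <;> nlinarith
          _ = _ := by rw [← Real.exp_add]; congr 1; ring)
      (fun z hz => (bF (3 + R) R z (by linarith) (by linarith) hz).2.2.2 (by linarith))
      (by
        have n1 : ‖zof κ (((-(R / 2) : ℝ) : ℂ) + τ * I) - zof κ ((3 + R : ℝ) + τ * I)‖ ≤ 2 * R := by
          rw [← norm_wof, wof_zof, add_sub_add_right_eq_sub, ← ofReal_sub, norm_real,
            Real.norm_eq_abs, abs_le]
          constructor <;> linarith
        refine ⟨_, n1, ?_⟩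
        have e := (bF (3 + R) (2 * R) _ (by linarith) (by linarith) n1).2.1
        rw [wof_zof] at e
        rw [show Real.log X / 20 = R / 2 by linarith] at c3
        have e1 : (((-(R / 2) : ℝ) : ℂ) + τ * I).re = -(R / 2) := by simp
        rw [e1, max_eq_left (by linarith),
          show (2 - -(R / 2)) ^ 2 = (2 * R + 4) + (R / 2) ^ 2 by ring, Real.exp_add, ← mul_assoc] at e
        have e2 : C * |τ| ^ (-(1 / 3) : ℝ) * Real.exp (2 * R + 4) ≤ 1 / 2 :=
          le_trans (by gcongr) a6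
        have e3 := e.trans (mul_le_mul_of_nonneg_right e2 (Real.exp_pos _).le)
        have e4 := norm_sub_norm_le (Z (((-(R / 2) : ℝ) : ℂ) + τ * I))
          (F (zof κ (((-(R / 2) : ℝ) : ℂ) + τ * I)))
        rw [norm_sub_rev] at e4
        have e5 : Real.exp ((R / 2) ^ 2) =
            Real.exp (1 / 50 * (10 * R ^ 2)) * Real.exp (R ^ 2 / 20) := by
          rw [← Real.exp_add]; congr 1; ring
        have e6 : 2 ≤ Real.exp (R ^ 2 / 20) := by
          nlinarith [Real.add_one_le_exp (R ^ 2 / 20)]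
        nlinarith [Real.exp_pos (1 / 50 * (10 * R ^ 2))])
    refine ⟨S, fun z hz => ?_, by simpa only [oF] using s2⟩
    have r1 := abs_le.1 ((abs_re_le_norm _).trans (s1 z hz))
    have r2 := abs_le.1 ((abs_im_le_norm _).trans (s1 z hz))
    rw [sub_re, zof_re] at r1
    rw [sub_im, zof_im] at r2
    simp only [add_im, ofReal_im, mul_im, ofReal_re, I_im, mul_one, I_re, mul_zero, add_zero,
      zero_add, add_re, mul_re, sub_self] at r1 r2
    have l1 : Real.log ε + 10 * R ≤ Real.log |τ| := by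
      rw [← eR, ← Real.log_mul hε.ne' X0'.ne']; exact Real.log_le_log εX c1
    have l2 : Real.log ε ≤ 0 := Real.log_nonpos hε.le hε1
    have k3 := abs_le.1 k1
    have k4 := abs_le.1 k2
    exact ⟨abs_le.2 ⟨by linarith, by linarith⟩, by linarith⟩
  choose! S s1 s2 using key
  have l2 : Real.log ε ≤ 0 := Real.log_nonpos hε.le hε1
  refine ⟨A.biUnion S, fun z hz => ?_, ?_⟩
  · obtain ⟨τ, hτ, hz⟩ := Finset.mem_biUnion.1 hz
    obtain ⟨u1, u2⟩ := s1 τ hτ z hz
    refine ⟨?_, u2.ne⟩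
    have u3 := (b2 τ hτ).2.1
    have u4 : X ≤ X / ε := le_div_self X0'.le hε hε1
    have := abs_add_le (z.re - τ) τ
    rw [sub_add_cancel] at this
    linarith
  · rw [Finset.sum_biUnion]
    · have u1 := Finset.card_nsmul_le_sum A _ _ s2
      rw [nsmul_eq_mul] at u1
      refine le_trans ?_ u1
      have T0' : 0 < T := by rw [eT]; positivity
      have u2 : Real.log T ≤ 20 * R := by
        rw [eT, Real.log_mul (by norm_num) (by positivity), Real.log_div X0'.ne' hε.ne']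
        linarith
      calc ε ^ 2 * δ / 40 * T * Real.log T ≤ ε ^ 2 * δ / 40 * T * (20 * R) := by gcongr
        _ = ε * X / Real.log X * (δ * (10 * R ^ 2)) := by
          rw [eR, hX]; field_simp; ring
        _ ≤ _ := by gcongr
    · intro τ hτ τ' hτ' hne
      rw [Function.onFun, Finset.disjoint_left]
      intro z hz hz'
      have u1 := (s1 τ hτ z hz).1
      have u2 := (s1 τ' hτ' z hz').1
      have u3 := b3 τ hτ τ' hτ' hne
      have := abs_sub_le τ z.re τ'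
      rw [abs_sub_comm τ z.re] at this
      linarith

end Pool.Agent.H52.KK
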