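import Pool.Agent.H52.KKLoc

set_option autoImplicit false
open Complex Filter Topology Pool.Agent.Lead.KK

namespace Pool.Agent.H52.KK

lemma loc (h1 : REP) (h2 : ZREP) (h3 : APX) (h4 : JEN) : (∃ z, Xi (-1 / 4) z ≠ 0) ∧
    ∃ T1 : ℝ, 1 ≤ T1 ∧ ∀ t : ℝ, T1 ≤ |t| → 2 ≤ Real.log |t| ∧ ∀ S : Finset ℂ,
      (∀ z ∈ S, z.im = 0 ∧ |z.re - t| ≤ Real.log |t| / 4) →
      ∑ z ∈ S, (analyticOrderNatAt (Xi (-1 / 4)) z : ℝ) ≤ 20 * Real.log |t| ^ 2 := by
  obtain ⟨C, T0, hC, hl⟩ := local_form h1 h2 h3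
  obtain ⟨T1, hT1⟩ := eventually_atTop.1 ((eventually_ge_atTop T0).and
    ((ev_log 3 3 (1 / 4) (by norm_num)).and
      (Real.tendsto_log_atTop.eventually_ge_atTop (2 * C + 5))))
  have key : ∀ t : ℝ, T1 ≤ |t| → (∃ z, Xi (-1 / 4) z ≠ 0) ∧ 2 ≤ Real.log |t| ∧ ∀ S : Finset ℂ,
      (∀ z ∈ S, z.im = 0 ∧ |z.re - t| ≤ Real.log |t| / 4) →
      ∑ z ∈ S, (analyticOrderNatAt (Xi (-1 / 4)) z : ℝ) ≤ 20 * Real.log |t| ^ 2 := by
    intro t ht
    obtain ⟨a1, a2, a3⟩ := hT1 _ ht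
    obtain ⟨κ, F, k1, k2, dF, oF, nF, bF⟩ := hl t a1
    generalize Real.log |t| = L at *
    have c1 := (bF 3 0 (zof κ ((3 : ℝ) + t * I)) (by norm_num) (by linarith) (by simp)).2.2.2
      (by norm_num)
    have c2 : 1 / 2 ≤ ‖F (zof κ ((3 : ℝ) + t * I))‖ := by
      have := norm_sub_norm_le (1 : ℂ) (F (zof κ ((3 : ℝ) + t * I)))
      rw [norm_sub_rev, norm_one] at this
      linarith
    have c3 : F (zof κ ((3 : ℝ) + t * I)) ≠ 0 := norm_pos_iff.1 (by linarith)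
    refine ⟨⟨_, nF _ c3⟩, by linarith, fun S hS => ?_⟩
    have c4 := h4 F _ L (3 * Real.exp (9 * L ^ 2)) dF (by linarith) c3 (fun z hz => by
      refine (bF 3 (3 * L) z (by norm_num) a2 hz).2.2.1.trans ?_
      rw [max_eq_left (by linarith)]
      gcongr; nlinarith) S (fun z hz => by
      obtain ⟨s1, s2⟩ := hS z hz
      refine (norm_le_abs_re_add_abs_im _).trans ?_
      rw [sub_re, sub_im, zof_re, zof_im, s1]
      simp only [add_im, ofReal_im, mul_im, ofReal_re, I_im, mul_one, I_re, mul_zero, add_zero,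
        zero_add, add_re, mul_re, sub_self]
      have k3 := abs_le.1 k1
      have k4 := abs_le.1 k2
      have k5 := abs_le.1 s2
      have e1 : |z.re - (t + κ.im / 2)| ≤ L / 4 + C / 2 := abs_le.2 ⟨by linarith, by linarith⟩
      have e2 : |0 - -(3 + κ.re / 2 - 1 / 2)| ≤ 5 / 2 + L / 4 + C / 2 :=
        abs_le.2 ⟨by linarith, by linarith⟩
      linarith)
    simp only [oF] at c4
    refine c4.trans ?_
    have c5 : 3 * Real.exp (9 * L ^ 2) / ‖F (zof κ ((3 : ℝ) + t * I))‖ ≤ Real.exp (10 * L ^ 2) := by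
      have e1 : 6 ≤ Real.exp (L ^ 2) := by nlinarith [Real.add_one_le_exp (L ^ 2)]
      rw [div_le_iff₀ (by linarith), show 10 * L ^ 2 = 9 * L ^ 2 + L ^ 2 by ring, Real.exp_add,
        mul_assoc, mul_comm 3]
      gcongr; nlinarith
    have c6 := Real.log_le_log (by positivity) c5
    rw [Real.log_exp] at c6
    linarith
  exact ⟨(key |T1| (by rw [abs_abs]; exact le_abs_self _)).1, max T1 1, le_max_right _ _,
    fun t ht => (key t ((le_max_left _ _).trans ht)).2⟩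

lemma windows (f : ℂ → ℝ) (S : Finset ℂ) (h U B : ℝ) (hh : 0 < h) (hU : 0 ≤ U) (hB : 0 ≤ B)
    (hS : ∀ z ∈ S, |z.re| ≤ U)
    (H : ∀ t : ℝ, ∀ S' ⊆ S, (∀ z ∈ S', |z.re - t| ≤ h / 2) → ∑ z ∈ S', f z ≤ B) :
    ∑ z ∈ S, f z ≤ (2 * (U / h) + 5) * B := by
  classical
  have m : ∀ z ∈ S, round (z.re / h) ∈ Finset.Icc (-((⌊U / h⌋₊ + 1 : ℕ) : ℤ)) (⌊U / h⌋₊ + 1 : ℕ) := by
    intro z hz
    have e1 := abs_le.1 (abs_sub_round (z.re / h))
    have e2 : |z.re / h| ≤ U / h := by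
      rw [abs_div, abs_of_pos hh]; gcongr; exact hS z hz
    have e3 := abs_le.1 e2
    have e4 := Nat.lt_floor_add_one (U / h)
    rw [Finset.mem_Icc]
    constructor
    · have : (-((⌊U / h⌋₊ + 1 : ℕ) : ℝ)) - 1 < round (z.re / h) := by push_cast; linarith
      have : (-((⌊U / h⌋₊ + 1 : ℕ) : ℤ)) - 1 < round (z.re / h) := by exact_mod_cast this
      omega
    · have : (round (z.re / h) : ℝ) < ((⌊U / h⌋₊ + 1 : ℕ) : ℝ) + 1 := by push_cast; linarith
      have : round (z.re / h) < ((⌊U / h⌋₊ + 1 : ℕ) : ℤ) + 1 := by exact_mod_cast this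
      omega
  rw [← Finset.sum_fiberwise_of_maps_to m]
  refine (Finset.sum_le_card_nsmul _ _ B fun (k : ℤ) _ => H (k * h)
    (S.filter fun z => round (z.re / h) = k) (Finset.filter_subset _ _) fun z hz => ?_).trans ?_
  · have e1 := abs_sub_round (z.re / h)
    rw [(Finset.mem_filter.1 hz).2] at e1
    rw [show z.re - k * h = (z.re / h - k) * h by field_simp, abs_mul, abs_of_pos hh]
    nlinarith
  · rw [nsmul_eq_mul, Int.card_Icc]
    have e1 : (((⌊U / h⌋₊ + 1 : ℕ) : ℤ) + 1 - -((⌊U / h⌋₊ + 1 : ℕ) : ℤ)).toNat = 2 * ⌊U / h⌋₊ + 3 := by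
      omega
    have e2 := Nat.floor_le (show 0 ≤ U / h by positivity)
    rw [e1]; push_cast
    gcongr; linarith

theorem upp (h1 : REP) (h2 : ZREP) (h3 : APX) (h4 : JEN) : UPP := by
  classical
  obtain ⟨⟨z0, hz0⟩, T1, hT1, hl⟩ := loc h1 h2 h3 h4
  refine ⟨⟨z0, hz0⟩, ?_⟩
  obtain ⟨B, hB⟩ := (isCompact_closedBall z0 (3 * (T1 + 1 + ‖z0‖))).exists_bound_of_continuousOn
    h1.1.continuous.continuousOn
  have small := h4 _ z0 (T1 + 1 + ‖z0‖) B h1.1 (by positivity) hz0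
    fun z hz => hB z (mem_closedBall_iff_norm.2 hz)
  generalize 2 * Real.log (B / ‖Xi (-1 / 4) z0‖) = K at small
  obtain ⟨T2, hT2⟩ := eventually_atTop.1 ((ev_log 1 1 (1 / 4) (by norm_num)).and
    ((ev_log 0 1 1 one_pos).and ((Real.tendsto_log_atTop.eventually_ge_atTop (max K 4)).and
      (((tendsto_rpow_atTop (y := 1 / 4) (by norm_num)).eventually_ge_atTop (max T1 2)).and
        (eventually_gt_atTop 0)))))
  refine ⟨3000, T2, by norm_num, fun T hT S hS => ?_⟩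
  obtain ⟨a1, a2, a3, a4, a5⟩ := hT2 T hT
  rw [Real.rpow_one, zero_add, one_mul] at a2
  obtain ⟨q, hq⟩ : ∃ q, q = T ^ (1 / 4 : ℝ) := ⟨_, rfl⟩
  have eq4 : q ^ 4 = T := by
    rw [hq, ← Real.rpow_natCast, ← Real.rpow_mul a5.le]; norm_num
  have lq : Real.log q = Real.log T / 4 := by rw [hq, Real.log_rpow a5]; ring
  rw [← hq] at a1 a4
  have b1 := (le_max_left _ _).trans a3
  have b2 := (le_max_right _ _).trans a3
  have b3 := (le_max_left _ _).trans a4
  have b4 := (le_max_right _ _).trans a4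
  have up : ∀ t : ℝ, 1 ≤ |t| → |t| ≤ 2 * T → 20 * Real.log |t| ^ 2 ≤ 80 * Real.log T ^ 2 := by
    intro t t1 t2
    have e1 := Real.log_le_log (by linarith) t2
    rw [Real.log_mul (by norm_num) a5.ne'] at e1
    have e2 := Real.log_nonneg t1
    have e3 := Real.log_two_lt_d9
    nlinarith
  have near : ∀ x t e : ℝ, |x - t| ≤ e → |x| ≤ |t| + e ∧ |t| ≤ |x| + e := fun x t e h => by
    have := abs_abs_sub_abs_le_abs_sub x t
    have := abs_le.1 (this.trans h)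
    constructor <;> linarith
  generalize hL : Real.log T = L at *
  have w1 := windows (fun z => (analyticOrderNatAt (Xi (-1 / 4)) z : ℝ))
    (S.filter fun z => |z.re| ≤ q ^ 2) 1 (q ^ 2) (80 * L ^ 2) one_pos (by positivity)
    (by positivity) (fun z hz => (Finset.mem_filter.1 hz).2) (fun t S' s1 s2 => by
      rcases S'.eq_empty_or_nonempty with rfl | ⟨z1, hz1⟩
      · rw [Finset.sum_empty]; positivity
      have s3 : ∀ z ∈ S', |z.re| ≤ T ∧ z.im = 0 := fun z hz => hS z (Finset.mem_filter.1 (s1 hz)).1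
      rcases le_or_gt T1 |t| with h | h
      · obtain ⟨c1, c2⟩ := hl t h
        refine (c2 S' fun z hz => ⟨(s3 z hz).2, by linarith [s2 z hz]⟩).trans (up t (by linarith) ?_)
        linarith [(near _ _ _ (s2 z1 hz1)).2, (s3 z1 hz1).1]
      · refine (small S' fun z hz => ?_).trans (by nlinarith)
        have e1 := norm_le_abs_re_add_abs_im z
        rw [(s3 z hz).2, abs_zero] at e1
        linarith [norm_sub_le z z0, (near _ _ _ (s2 z hz)).1])
  have w2 := windows (fun z => (analyticOrderNatAt (Xi (-1 / 4)) z : ℝ))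
    (S.filter fun z => ¬ |z.re| ≤ q ^ 2) (L / 8) T (80 * L ^ 2) (by linarith) a5.le
    (by positivity) (fun z hz => (hS z (Finset.mem_filter.1 hz).1).1) (fun t S' s1 s2 => by
      rcases S'.eq_empty_or_nonempty with rfl | ⟨z1, hz1⟩
      · rw [Finset.sum_empty]; positivity
      have s3 : ∀ z ∈ S', |z.re| ≤ T ∧ z.im = 0 := fun z hz => hS z (Finset.mem_filter.1 (s1 hz)).1
      have s4 := not_le.1 (Finset.mem_filter.1 (s1 hz1)).2
      obtain ⟨n1, n2⟩ := near _ _ _ (s2 z1 hz1)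
      have t1 : q ≤ |t| := by nlinarith
      have t2 := Real.log_le_log (by linarith) t1
      obtain ⟨c1, c2⟩ := hl t (b3.trans t1)
      refine (c2 S' fun z hz => ⟨(s3 z hz).2, by linarith [s2 z hz]⟩).trans (up t (by linarith) ?_)
      linarith [(s3 z1 hz1).1])
  rw [← Finset.sum_filter_add_sum_filter_not S fun z => |z.re| ≤ q ^ 2]
  have e1 : (2 * (T / (L / 8)) + 5) * (80 * L ^ 2) = 1280 * (T * L) + 400 * (L * L) := by
    field_simp; ring
  have e2 : L * L ≤ T * L := by gcongr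
  have e3 : (2 * (q ^ 2 / 1) + 5) * (80 * L ^ 2) ≤ 320 * (T * L) := by
    have e4 : 2 * (q ^ 2 / 1) + 5 ≤ 4 * q ^ 2 := by nlinarith
    have e5 : L ≤ q ^ 2 := by nlinarith
    calc _ ≤ 4 * q ^ 2 * (80 * (q ^ 2 * L)) := by rw [sq L]; gcongr
      _ = 320 * (q ^ 4 * L) := by ring
      _ = _ := by rw [eq4]
  have e4 : 0 ≤ T * L := by positivity
  nlinarith

end Pool.Agent.H52.KK
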