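import Mathlib

set_option autoImplicit false
open Polynomial Finset

namespace Pool.Agent.H52.KronCyc

def Bd (B : ℕ) (f : ℤ[X]) : Prop := ∀ i, |f.coeff i| ≤ B

lemma sum_lt (T : ℕ) (e : ℕ → ℕ) (N : ℕ) (h : ∀ i < N, e i < T) :
    ∑ i ∈ range N, e i * T ^ i < T ^ N := by
  induction N with
  | zero => simp
  | succ N ih =>
    rw [sum_range_succ, pow_succ]
    have h1 := ih fun i hi => h i (by omega)
    have h2 : (e N + 1) * T ^ N ≤ T * T ^ N := Nat.mul_le_mul_right _ (h N (by omega))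
    nlinarith

lemma digit (T : ℕ) (hT : 0 < T) (e : ℕ → ℕ) (N : ℕ) (h : ∀ i < N, e i < T) (j : ℕ) (hj : j < N) :
    (∑ i ∈ range N, e i * T ^ i) / T ^ j % T = e j := by
  induction N with
  | zero => omega
  | succ N ih =>
    rw [sum_range_succ]
    rcases Nat.lt_or_ge j N with h1 | h1
    · obtain ⟨c, rfl⟩ : ∃ c, N = j + 1 + c := ⟨N - j - 1, by omega⟩
      have e1 : e (j + 1 + c) * T ^ (j + 1 + c) = T ^ j * (T * (e (j + 1 + c) * T ^ c)) := by ring
      rw [e1, Nat.add_mul_div_left _ _ (by positivity), Nat.add_mul_mod_self_left]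
      exact ih (fun i hi => h i (by omega)) h1
    · obtain rfl : j = N := by omega
      rw [Nat.add_mul_div_right _ _ (by positivity),
        Nat.div_eq_of_lt (sum_lt T e j fun i hi => h i (by omega)), zero_add,
        Nat.mod_eq_of_lt (h j (by omega))]

/-- The repunit. -/
def R (s N : ℕ) : ℕ := (2 ^ (s * N) - 1) / (2 ^ s - 1)

lemma R_eq (s N : ℕ) (hs : 0 < s) : R s N = ∑ i ∈ range N, (2 ^ s) ^ i := by
  have h : 1 < 2 ^ s := Nat.one_lt_two_pow (by omega)
  rw [R, pow_mul, Nat.geomSum_eq h]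

lemma shifted (s N : ℕ) (f : ℤ[X]) (hd : f.natDegree < N) (c u : ℕ)
    (hu : (u : ℤ) = f.eval (2 ^ (s + 1)) + c * R (s + 1) N)
    (h : ∀ i, 0 ≤ f.coeff i + c ∧ f.coeff i + c < 2 ^ (s + 1)) (j : ℕ) (hj : j < N) :
    ((u / (2 ^ (s + 1)) ^ j % 2 ^ (s + 1) : ℕ) : ℤ) = f.coeff j + c := by
  have e : u = ∑ i ∈ range N, (f.coeff i + c).toNat * (2 ^ (s + 1)) ^ i := by
    apply Int.ofNat_inj.1
    rw [hu, eval_eq_sum_range' hd, R_eq _ _ (by omega)]
    push_cast
    rw [mul_sum, ← sum_add_distrib]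
    refine sum_congr rfl fun i _ => ?_
    rw [Int.toNat_of_nonneg (h i).1]; ring
  rw [e, digit _ (by positivity) (fun i => (f.coeff i + c).toNat) N _ j hj,
    Int.toNat_of_nonneg (h j).1]
  intro i _
  have h1 := (h i).2
  have h2 := Int.toNat_of_nonneg (h i).1
  have : (((f.coeff i + c).toNat : ℕ) : ℤ) < ((2 ^ (s + 1) : ℕ) : ℤ) := by
    rw [h2]; exact_mod_cast h1
  exact_mod_cast this

lemma bit_digit (s u j : ℕ) :
    u.testBit ((s + 1) * j + s) = (u / (2 ^ (s + 1)) ^ j % 2 ^ (s + 1)).testBit s := by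
  rw [Nat.testBit_mod_two_pow, ← pow_mul, Nat.testBit_div_two_pow, add_comm ((s + 1) * j)]
  simp

lemma lower (s N : ℕ) (f : ℤ[X]) (hd : f.natDegree < N) (A B u : ℕ) (hA : Bd A f)
    (hAB : A + B < 2 ^ s) (hu : (u : ℤ) = f.eval (2 ^ (s + 1)) + (B + 2 ^ s : ℕ) * R (s + 1) N)
    (hc : u &&& (2 ^ s * R (s + 1) N) = 2 ^ s * R (s + 1) N) (j : ℕ) : -(B : ℤ) ≤ f.coeff j := by
  rcases Nat.lt_or_ge j N with hj | hj
  swap
  · rw [coeff_eq_zero_of_natDegree_lt (by omega)]; omega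
  have hAB' : (A : ℤ) + B < 2 ^ s := by exact_mod_cast hAB
  have h1 := shifted s N f hd (B + 2 ^ s) u hu (fun i => by
    have := abs_le.1 (hA i)
    push_cast
    rw [pow_succ]
    constructor <;> linarith [this.1, this.2]) j hj
  have h2 := shifted s N 0 (by simp; omega) (2 ^ s) (2 ^ s * R (s + 1) N) (by simp) (fun i => by
    push_cast
    rw [pow_succ, coeff_zero]
    have : (0 : ℤ) < 2 ^ s := by positivity
    constructor <;> linarith) j hj
  have h3 : 2 ^ s * R (s + 1) N / (2 ^ (s + 1)) ^ j % 2 ^ (s + 1) = 2 ^ s := by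
    rw [coeff_zero, zero_add] at h2
    exact_mod_cast h2
  have h4 : (2 ^ s * R (s + 1) N).testBit ((s + 1) * j + s) = true := by
    rw [bit_digit, h3, Nat.testBit_two_pow_self]
  have h5 := congrArg (fun x => Nat.testBit x ((s + 1) * j + s)) hc
  simp only [Nat.testBit_and, h4, Bool.and_true] at h5
  rw [bit_digit] at h5
  have h6 : ((2 ^ s : ℕ) : ℤ) ≤ ((u / (2 ^ (s + 1)) ^ j % 2 ^ (s + 1) : ℕ) : ℤ) := by
    exact_mod_cast Nat.ge_two_pow_of_testBit h5
  rw [h1] at h6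
  push_cast at h6
  linarith

def check (top c v : ℕ) : Bool :=
  Nat.ble v c && Nat.beq ((c + v) &&& top) top && Nat.beq ((c - v) &&& top) top

lemma check_sound (s N : ℕ) (f : ℤ[X]) (hd : f.natDegree < N) (A B v : ℕ) (hA : Bd A f)
    (hAB : A + B < 2 ^ s) (hv : (v : ℤ) = f.eval (2 ^ (s + 1)))
    (hc : check (2 ^ s * R (s + 1) N) ((B + 2 ^ s) * R (s + 1) N) v = true) : Bd B f := by
  simp only [check, Bool.and_eq_true, Nat.ble_eq, Nat.beq_eq] at hc
  obtain ⟨⟨h1, h2⟩, h3⟩ := hc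
  intro j
  rw [abs_le]
  constructor
  · exact lower s N f hd A B _ hA hAB (by push_cast; rw [hv]; ring) h2 j
  · have := lower s N (-f) (by simpa using hd) A B _ (fun i => by simpa using hA i) hAB
      (by rw [Nat.cast_sub h1, eval_neg, hv]; push_cast; ring) h3 j
    rw [coeff_neg] at this
    linarith

lemma Bd_mul {A B N : ℕ} {f g : ℤ[X]} (hf : Bd A f) (hg : Bd B g) (hd : (f * g).natDegree < N) :
    Bd (N * (A * B)) (f * g) := by
  intro i
  rcases Nat.lt_or_ge i N with hi | hi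
  · rw [coeff_mul]
    refine (abs_sum_le_sum_abs _ _).trans ?_
    refine (sum_le_card_nsmul _ _ ((A : ℤ) * B) fun x _ => ?_).trans ?_
    · rw [abs_mul]
      exact mul_le_mul (hf _) (hg _) (abs_nonneg _) (by positivity)
    · rw [Nat.card_antidiagonal, nsmul_eq_mul]
      push_cast
      have : (i : ℤ) + 1 ≤ N := by exact_mod_cast hi
      gcongr
  · rw [coeff_eq_zero_of_natDegree_lt (by omega)]; positivity

def force (x : ℕ) (k : ℕ → Bool) : Bool :=
  match x with
  | 0 => k 0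
  | n + 1 => k (n + 1)

lemma force_eq (x : ℕ) (k : ℕ → Bool) : force x k = k x := by cases x <;> rfl

def dfs (top c : ℕ) : List ℕ → ℕ → Bool
  | [], _ => true
  | a :: L, v => dfs top c L v && force (v * a) fun w => check top c w && dfs top c L w

lemma dfs_sound (s N B : ℕ) (hB : N * (B * B) + B < 2 ^ s) (L : List (ℤ[X] × ℕ))
    (hL : ∀ x ∈ L, Prime x.1 ∧ Bd B x.1 ∧ (x.2 : ℤ) = x.1.eval (2 ^ (s + 1))) :
    ∀ (f : ℤ[X]) (v : ℕ), Bd B f → (v : ℤ) = f.eval (2 ^ (s + 1)) →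
      f.natDegree + (L.map fun x => x.1.natDegree).sum < N →
      dfs (2 ^ s * R (s + 1) N) ((B + 2 ^ s) * R (s + 1) N) (L.map Prod.snd) v = true →
      ∀ g, g ∣ (L.map Prod.fst).prod → Bd B (f * g) := by
  induction L with
  | nil =>
    intro f v hf _ _ _ g hg
    obtain ⟨r, hr, rfl⟩ := Polynomial.isUnit_iff.1 (isUnit_of_dvd_one (by simpa using hg))
    intro i
    rw [coeff_mul_C, abs_mul, Int.isUnit_iff_abs_eq.1 hr, mul_one]
    exact hf i
  | cons x L ih =>
    intro f v hf hv hd hc g hg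
    obtain ⟨hp, hb, he⟩ := hL x (by simp)
    have ih' := ih fun y hy => hL y (by simp [hy])
    simp only [List.map_cons, dfs, force_eq, Bool.and_eq_true, List.sum_cons, List.prod_cons]
      at hc hg hd
    rcases hp.left_dvd_or_dvd_right_of_dvd_mul hg with ⟨g', rfl⟩ | h
    · have hd2 : (f * x.1).natDegree ≤ f.natDegree + x.1.natDegree := natDegree_mul_le
      have hv2 : ((v * x.2 : ℕ) : ℤ) = (f * x.1).eval (2 ^ (s + 1)) := by
        rw [eval_mul, ← hv, ← he]; push_cast; ring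
      have h1 := check_sound s N (f * x.1) (by omega) _ B _ (Bd_mul hf hb (N := N) (by omega)) hB
        hv2 hc.2.1
      rw [← mul_assoc]
      exact ih' _ _ h1 hv2 (by omega) hc.2.2 g' ((mul_dvd_mul_iff_left hp.ne_zero).1 hg)
    · exact ih' f v hf hv (by omega) hc.1 g h

lemma cyc_bd (d : ℕ) (hd : 0 < d) : Bd (2 ^ d.totient) (cyclotomic d ℤ) := by
  intro i
  have h := coeff_le_of_roots_le (f := Int.castRingHom ℂ) (p := cyclotomic d ℤ) (B := 1) i
    (cyclotomic.monic d ℤ) (IsAlgClosed.splits _) (fun z hz => by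
      rw [map_cyclotomic, mem_roots (cyclotomic_ne_zero _ _)] at hz
      haveI : NeZero ((d : ℕ) : ℂ) := ⟨by exact_mod_cast hd.ne'⟩
      exact ((isRoot_cyclotomic_iff.1 hz).norm'_eq_one hd.ne').le)
  rw [one_pow, one_mul, natDegree_cyclotomic, coeff_map, eq_intCast, Complex.norm_intCast] at h
  have h2 : d.totient.choose i ≤ 2 ^ d.totient := Nat.choose_le_two_pow _ _
  have h3 : |(cyclotomic d ℤ).coeff i| ≤ (d.totient.choose i : ℕ) := by exact_mod_cast h
  exact h3.trans (by exact_mod_cast h2)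

lemma Bd_expand {B p : ℕ} (hp : 0 < p) {f : ℤ[X]} (h : Bd B f) : Bd B (expand ℤ p f) := by
  intro i
  rw [coeff_expand hp]
  split_ifs
  · exact h _
  · simp

/-- Values of cyclotomic polynomials by the recursion over the divisors. -/
lemma cyc_eval (T : ℕ) (hT : 1 < T) (D : Finset ℕ) (V : ℕ → ℕ)
    (h : ∀ d ∈ D, 0 < d ∧ d.divisors ⊆ D ∧ ∏ e ∈ d.divisors, V e + 1 = T ^ d) :
    ∀ d ∈ D, (V d : ℤ) = (cyclotomic d ℤ).eval (T : ℤ) := by
  intro d
  induction d using Nat.strong_induction_on with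
  | _ d ih =>
    intro hd
    obtain ⟨h0, h1, h2⟩ := h d hd
    have e1 := congrArg (eval (T : ℤ)) (prod_cyclotomic_eq_X_pow_sub_one h0 ℤ)
    rw [eval_prod, eval_sub, eval_pow, eval_X, eval_one] at e1
    have e2 : ∏ e ∈ d.divisors, (V e : ℤ) = (T : ℤ) ^ d - 1 := by
      have : ((∏ e ∈ d.divisors, V e + 1 : ℕ) : ℤ) = ((T ^ d : ℕ) : ℤ) := by rw [h2]
      push_cast at this
      linarith
    have hne : (T : ℤ) ^ d - 1 ≠ 0 := by
      have : (1 : ℤ) < (T : ℤ) ^ d := one_lt_pow₀ (by exact_mod_cast hT) h0.ne'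
      omega
    rw [← Nat.insert_self_properDivisors h0.ne', prod_insert Nat.self_notMem_properDivisors]
      at e1 e2
    have e3 : ∏ e ∈ d.properDivisors, (V e : ℤ) =
        ∏ e ∈ d.properDivisors, (cyclotomic e ℤ).eval (T : ℤ) :=
      prod_congr rfl fun e he =>
        ih e (Nat.mem_properDivisors.1 he).2 (h1 (Nat.properDivisors_subset_divisors he))
    rw [← e3] at e1
    have : ∏ e ∈ d.properDivisors, (V e : ℤ) ≠ 0 := by
      intro h0; rw [h0, mul_zero] at e2; exact hne e2.symm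
    exact mul_right_cancel₀ this (e2.trans e1.symm)

end Pool.Agent.H52.KronCyc
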