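import Pool.Agent.H52.LTDefs

namespace Pool.Agent.H52.LT

open Equiv

section ev
variable {ι Z : Type} (β : ι → Perm Z)

@[simp] theorem ev_nil : ev β [] = 1 := rfl
@[simp] theorem ev_cons (a : ι × Bool) (l : List (ι × Bool)) :
    ev β (a :: l) = (if a.2 then β a.1 else (β a.1)⁻¹) * ev β l := by simp [ev]
@[simp] theorem ev_append (l l' : List (ι × Bool)) : ev β (l ++ l') = ev β l * ev β l' := by
  simp [ev]
@[simp] theorem ev_rep (K : ℕ) (a : ι × Bool) :
    ev β (List.replicate K a) = (if a.2 then β a.1 else (β a.1)⁻¹) ^ K := by simp [ev]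

theorem ev_mem (S : Subgroup (Perm Z)) (l : List (ι × Bool)) (hS : ∀ a ∈ l, β a.1 ∈ S) :
    ev β l ∈ S := by
  induction l with
  | nil => exact S.one_mem
  | cons a l ih =>
    rw [ev_cons]
    refine S.mul_mem ?_ (ih fun b hb => hS b (List.mem_cons_of_mem _ hb))
    have := hS a List.mem_cons_self
    split_ifs
    · exact this
    · exact S.inv_mem this

theorem ev_map {ι' Z' : Type} (β' : ι' → Perm Z') (fι : ι → ι') (f : Z → Z')
    (hf : ∀ i z, f (β i z) = β' (fι i) (f z)) (l : List (ι × Bool)) (z : Z) :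
    f (ev β l z) = ev β' (l.map fun a => (fι a.1, a.2)) (f z) := by
  induction l with
  | nil => rfl
  | cons a l ih =>
    rw [List.map_cons, ev_cons, ev_cons, Perm.mul_apply, Perm.mul_apply, ← ih]
    rcases a with ⟨i, _ | _⟩
    · simp only [Bool.false_eq_true, if_false]
      have := hf i ((β i)⁻¹ (ev β l z))
      rw [show β i ((β i)⁻¹ (ev β l z)) = ev β l z by simp] at this
      rw [this]; simp
    · simpa using hf i _

theorem mem_cl {g : Perm Z} : g ∈ Subgroup.closure (Set.range β) ↔ ∃ l, ev β l = g := by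
  constructor
  · intro hg
    induction hg using Subgroup.closure_induction_left with
    | one => exact ⟨[], rfl⟩
    | mul_left x hx y _ ih =>
      obtain ⟨i, rfl⟩ := hx
      obtain ⟨l, rfl⟩ := ih
      exact ⟨(i, true) :: l, by simp⟩
    | inv_mul_cancel x hx y _ ih =>
      obtain ⟨i, rfl⟩ := hx
      obtain ⟨l, rfl⟩ := ih
      exact ⟨(i, false) :: l, by simp⟩
  · rintro ⟨l, rfl⟩
    exact ev_mem β _ l fun a _ => Subgroup.subset_closure ⟨_, rfl⟩

/-- permutations preserving a relation -/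
def Pres (R : Z → Z → Prop) : Subgroup (Perm Z) where
  carrier := {g | ∀ u v, R (g u) (g v) ↔ R u v}
  mul_mem' := fun {a b} ha hb u v => (ha _ _).trans (hb u v)
  one_mem' := fun _ _ => Iff.rfl
  inv_mem' := fun {a} ha u v => by simpa using (ha (a⁻¹ u) (a⁻¹ v)).symm

/-- permutations fixing the value of a function -/
def Fx {A : Type} (f : Z → A) : Subgroup (Perm Z) where
  carrier := {g | ∀ u, f (g u) = f u}
  mul_mem' := fun {a b} ha hb u => (ha _).trans (hb u)
  one_mem' := fun _ => rfl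
  inv_mem' := fun {a} ha u => by simpa using (ha (a⁻¹ u)).symm

end ev

section gen
variable {X ι : Type} (σ : ι → Perm X) (h : ι → X → List (ι × Bool))

theorem gen_succ (n : ℕ) (i : ι) (x : X) (u : Lv X n) :
    gen σ h (n + 1) i (x, u) = (σ i x, ev (gen σ h n) (h i x) u) := rfl

theorem lt_iff : LevelTransitive σ h ↔ ∀ n (u v : Lv X n), ∃ l, ev (gen σ h n) l u = v := by
  refine forall_congr' fun n => forall_congr' fun u => forall_congr' fun v => ⟨?_, ?_⟩
  · rintro ⟨g, hg, e⟩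
    obtain ⟨l, rfl⟩ := (mem_cl _).1 hg
    exact ⟨l, e⟩
  · rintro ⟨l, e⟩
    exact ⟨_, (mem_cl _).2 ⟨l, rfl⟩, e⟩

def mp {X' : Type} (f : X → X') : (n : ℕ) → Lv X n → Lv X' n
  | 0, _ => ()
  | n + 1, u => (f u.1, mp f n u.2)

theorem mp_mp {X' : Type} (e : X ≃ X') : ∀ (n : ℕ) (u : Lv X n), mp e.symm n (mp e n u) = u
  | 0, _ => rfl
  | n + 1, (x, u) => by
    show (e.symm (e x), mp e.symm n (mp e n u)) = (x, u)
    rw [mp_mp e n u, e.symm_apply_apply]

theorem mp_gen {X' ι' : Type} (σ' : ι' → Perm X') (h' : ι' → X' → List (ι' × Bool))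
    (f : X → X') (fι : ι → ι') (hσ : ∀ i x, f (σ i x) = σ' (fι i) (f x))
    (hh : ∀ i x, h' (fι i) (f x) = (h i x).map fun a => (fι a.1, a.2)) :
    ∀ (n : ℕ) (i : ι) (u : Lv X n), mp f n (gen σ h n i u) = gen σ' h' n (fι i) (mp f n u)
  | 0, _, _ => rfl
  | n + 1, i, (x, u) => by
    show (f (σ i x), mp f n (ev (gen σ h n) (h i x) u)) =
      (σ' (fι i) (f x), ev (gen σ' h' n) (h' (fι i) (f x)) (mp f n u))
    rw [hσ, hh, ev_map _ _ fι _ (mp_gen σ' h' f fι hσ hh n)]

theorem lt_of_map {X' ι' : Type} (σ' : ι' → Perm X') (h' : ι' → X' → List (ι' × Bool))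
    (e : X ≃ X') (fι : ι → ι') (hσ : ∀ i x, e (σ i x) = σ' (fι i) (e x))
    (hh : ∀ i x, h' (fι i) (e x) = (h i x).map fun a => (fι a.1, a.2))
    (H : LevelTransitive σ h) : LevelTransitive σ' h' := by
  rw [lt_iff] at H ⊢
  intro n u v
  obtain ⟨l, hl⟩ := H n (mp e.symm n u) (mp e.symm n v)
  refine ⟨l.map fun a => (fι a.1, a.2), ?_⟩
  have := ev_map _ _ fι _ (mp_gen σ h σ' h' e fι hσ hh n) l (mp e.symm n u)
  rw [hl] at this
  have h1 := mp_mp e.symm n u
  have h2 := mp_mp e.symm n v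
  rw [Equiv.symm_symm] at h1 h2
  rw [h1, h2] at this
  exact this.symm

/-- relation on level `n+1`: `E` on all letters but the last, `R` on the last -/
def RR (E R : X → X → Prop) : (n : ℕ) → Lv X (n + 1) → Lv X (n + 1) → Prop
  | 0, u, v => R u.1 v.1
  | n + 1, u, v => E u.1 v.1 ∧ RR E R n u.2 v.2

theorem gen_pres (E R : X → X → Prop) (hE : ∀ i x y, E (σ i x) (σ i y) ↔ E x y)
    (hR : ∀ i x y, R (σ i x) (σ i y) ↔ R x y) (hh : ∀ i x y, E x y → h i x = h i y) :
    ∀ (n : ℕ) (i : ι), gen σ h (n + 1) i ∈ Pres (RR E R n)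
  | 0, i => fun u v => hR i u.1 v.1
  | n + 1, i => fun (x, u) (y, v) => by
    show E (σ i x) (σ i y) ∧ RR E R n (ev (gen σ h (n + 1)) (h i x) u)
      (ev (gen σ h (n + 1)) (h i y) v) ↔ E x y ∧ RR E R n u v
    rw [hE]
    refine and_congr_right fun hxy => ?_
    rw [hh i x y hxy]
    exact ev_mem _ (Pres (RR E R n)) _ (fun a _ => gen_pres E R hE hR hh n a.1) u v

def drop : (n : ℕ) → Lv X (n + 1) → Lv X n
  | 0, _ => ()
  | n + 1, u => (u.1, drop n u.2)

def snoc : (n : ℕ) → Lv X n → X → Lv X (n + 1)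
  | 0, _, z => (z, ())
  | n + 1, u, z => (u.1, snoc n u.2 z)

def last : (n : ℕ) → Lv X (n + 1) → X
  | 0, u => u.1
  | n + 1, u => last n u.2

theorem snoc_drop : ∀ (n : ℕ) (u : Lv X (n + 1)), snoc n (drop n u) (last n u) = u
  | 0, _ => rfl
  | n + 1, (x, u) => by
    show (x, snoc n (drop n u) (last n u)) = (x, u)
    rw [snoc_drop n u]

theorem drop_gen : ∀ (n : ℕ) (i : ι) (u : Lv X (n + 1)),
    drop n (gen σ h (n + 1) i u) = gen σ h n i (drop n u)
  | 0, _, _ => rfl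
  | n + 1, i, (x, u) => by
    show (σ i x, drop n (ev (gen σ h (n + 1)) (h i x) u)) =
      (σ i x, ev (gen σ h n) (h i x) (drop n u))
    rw [ev_map _ _ id _ (drop_gen n)]
    simp

theorem drop_ev (n : ℕ) (l : List (ι × Bool)) (u : Lv X (n + 1)) :
    drop n (ev (gen σ h (n + 1)) l u) = ev (gen σ h n) l (drop n u) := by
  rw [ev_map _ _ id _ (drop_gen σ h n)]
  simp

end gen

end Pool.Agent.H52.LT
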