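import Pool.Agent.H52.LT1

namespace Pool.Agent.H52.LT

open Equiv Function Classical

structure Mach (Q : Type) where
  q0 : Q
  rg : Q → ℕ
  nx : Q → Bool → Option Q
  ex : Q → Bool → ℕ

abbrev B (Q : Type) := (Q × Bool) × Bool
abbrev XX (Q : Type) := B Q × ZMod 3

inductive Gn (Q : Type)
  | hd (q : Q) | od (s : Q) | dl | rho (π : Perm (B Q)) | bb (π : Perm (B Q))

instance {Q : Type} [Finite Q] : Finite (Gn Q) := by
  refine Finite.of_surjective (fun z : Q ⊕ Q ⊕ Unit ⊕ Perm (B Q) ⊕ Perm (B Q) =>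
    Sum.elim Gn.hd (Sum.elim Gn.od (Sum.elim (fun _ => Gn.dl) (Sum.elim Gn.rho Gn.bb))) z) ?_
  rintro (q | s | _ | π | π)
  exacts [⟨.inl q, rfl⟩, ⟨.inr (.inl s), rfl⟩, ⟨.inr (.inr (.inl ())), rfl⟩,
    ⟨.inr (.inr (.inr (.inl π))), rfl⟩, ⟨.inr (.inr (.inr (.inr π))), rfl⟩]

variable {Q : Type} (M : Mach Q) (th : Q → ℕ)

def sB : Gn Q → Perm (B Q)
  | .od _ => Equiv.prodCongr (Equiv.refl _) Equiv.boolNot
  | .rho π => π
  | _ => 1

noncomputable def sO : Gn Q → B Q → Perm (ZMod 3)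
  | .hd q, b => if q = M.q0 ∧ b.2 = false then Equiv.addRight 1 else 1
  | .dl, b => if b.2 = false then Equiv.neg _ else 1
  | _, _ => 1

noncomputable def sg (i : Gn Q) : Perm (XX Q) := Equiv.prodShear (sB i) (sO M i)

def cj (s : Q) (e : Bool) : List (Gn Q × Bool) :=
  List.replicate (2 ^ th s) (.od s, false) ++ [(.dl, e)] ++ List.replicate (2 ^ th s) (.od s, true)

def wd (s : Q) (p : Bool) : List (Gn Q × Bool) :=
  cj th s true ++ [(.hd s, p)] ++ cj th s false ++ [(.hd s, false)]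

noncomputable def ee (s : Q) (t : Q × Bool) : ℕ := if M.rg t.1 = M.rg s then M.ex t.1 t.2 else 1

noncomputable def hB : Gn Q → B Q → List (Gn Q × Bool)
  | .hd q, b => if b.2 = false ∧ M.nx b.1.1 b.1.2 = some q then wd th b.1.1 b.1.2 else []
  | .od s, b => if b.2 = true then List.replicate (2 ^ ee M s b.1) (.od s, true) else []
  | .dl, b => if b.2 = false then [(.dl, true)] else []
  | .rho _, _ => []
  | .bb π, b => if b.2 = false then [(.bb π, true)] else [(.rho π, true)]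

noncomputable def hh (i : Gn Q) (x : XX Q) : List (Gn Q × Bool) := hB M th i x.1

noncomputable abbrev G (n : ℕ) (i : Gn Q) : Perm (Lv (XX Q) n) := gen (sg M) (hh M th) n i

theorem G_succ (n : ℕ) (i : Gn Q) (b : B Q) (ω : ZMod 3) (u : Lv (XX Q) n) :
    G M th (n + 1) i ((b, ω), u) = ((sB i b, sO M i b ω), ev (G M th n) (hB M th i b) u) := rfl

def pos : (n : ℕ) → Lv (XX Q) (n + 1) → List (B Q)
  | 0, u => [u.1.1]
  | n + 1, u => u.1.1 :: pos n u.2

def om : (n : ℕ) → Lv (XX Q) (n + 1) → ZMod 3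
  | 0, u => u.1.2
  | n + 1, u => om n u.2

def tr (c : ZMod 3) : (n : ℕ) → Lv (XX Q) (n + 1) → Lv (XX Q) (n + 1)
  | 0, u => ((u.1.1, u.1.2 + c), ())
  | n + 1, u => (u.1, tr c n u.2)

def hist (n : ℕ) (u : Lv (XX Q) (n + 1)) : List (Q × Bool) := (pos n u).map Prod.fst

def yz (n : ℕ) (u : Lv (XX Q) (n + 1)) : Prop := ∀ b ∈ pos n u, b.2 = false

theorem hist_succ (n : ℕ) (x : XX Q) (u : Lv (XX Q) (n + 1)) :
    hist (n + 1) (x, u) = x.1.1 :: hist n u := rfl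

theorem yz_succ (n : ℕ) (x : XX Q) (u : Lv (XX Q) (n + 1)) :
    yz (n + 1) (x, u) ↔ x.1.2 = false ∧ yz n u := by
  simp [yz, pos]

theorem yz_zero (x : XX Q) (u : Lv (XX Q) 0) : yz 0 (x, u) ↔ x.1.2 = false := by
  simp [yz, pos]

theorem hist_length : ∀ (n : ℕ) (u : Lv (XX Q) (n + 1)), (hist n u).length = n + 1
  | 0, _ => rfl
  | n + 1, (x, u) => by rw [hist_succ, List.length_cons, hist_length n u]

theorem pos_tr (c : ZMod 3) : ∀ (n : ℕ) (u : Lv (XX Q) (n + 1)), pos n (tr c n u) = pos n u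
  | 0, _ => rfl
  | n + 1, (x, u) => congrArg (x.1 :: ·) (pos_tr c n u)

theorem om_tr (c : ZMod 3) : ∀ (n : ℕ) (u : Lv (XX Q) (n + 1)), om n (tr c n u) = om n u + c
  | 0, _ => rfl
  | n + 1, (_, u) => om_tr c n u

theorem tr_tr (c d : ZMod 3) : ∀ (n : ℕ) (u : Lv (XX Q) (n + 1)),
    tr c n (tr d n u) = tr (d + c) n u
  | 0, ((b, ω), _) => by simp [tr, add_assoc]
  | n + 1, (x, u) => congrArg (fun z => (x, z)) (tr_tr c d n u)

theorem tr_zero : ∀ (n : ℕ) (u : Lv (XX Q) (n + 1)), tr 0 n u = u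
  | 0, ((b, ω), _) => by simp [tr]; rfl
  | n + 1, (x, u) => congrArg (fun z => (x, z)) (tr_zero n u)

theorem yz_congr {n : ℕ} {u v : Lv (XX Q) (n + 1)} (h : pos n u = pos n v) : yz n u ↔ yz n v := by
  simp [yz, h]

theorem hist_congr {n : ℕ} {u v : Lv (XX Q) (n + 1)} (h : pos n u = pos n v) :
    hist n u = hist n v := by simp [hist, h]

def E1 (x y : XX Q) : Prop := x.1 = y.1

theorem sg_E1 (i : Gn Q) (x y : XX Q) : E1 (sg M i x) (sg M i y) ↔ E1 x y :=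
  (sB i).injective.eq_iff

theorem rr1 : ∀ (n : ℕ) (u v : Lv (XX Q) (n + 1)), RR E1 E1 n u v ↔ pos n u = pos n v
  | 0, u, v => by simp [RR, pos, E1]
  | n + 1, u, v => by simp [RR, pos, E1, rr1 n]

theorem rr2 : ∀ (n : ℕ) (u v : Lv (XX Q) (n + 1)),
    RR E1 Eq n u v ↔ pos n u = pos n v ∧ om n u = om n v
  | 0, u, v => by simp [RR, pos, om, Prod.ext_iff]
  | n + 1, u, v => by simp [RR, pos, om, E1, rr2 n, and_assoc]

theorem rr3 : ∀ (n : ℕ) (u v : Lv (XX Q) (n + 1)), RR Eq E1 n u v ↔ ∃ c, v = tr c n u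
  | 0, ((b, ω), _), ((b', ω'), _) => by
    constructor
    · rintro (rfl : b = b')
      exact ⟨ω' - ω, by simp [tr]; rfl⟩
    · rintro ⟨c, hc⟩
      exact (congrArg (fun z : Lv (XX Q) 1 => z.1.1) hc).symm
  | n + 1, (x, u), (y, v) => by
    show x = y ∧ RR Eq E1 n u v ↔ ∃ c, (y, v) = (x, tr c n u)
    rw [rr3 n]
    constructor
    · rintro ⟨rfl, c, rfl⟩; exact ⟨c, rfl⟩
    · rintro ⟨c, hc⟩
      exact ⟨(Prod.ext_iff.1 hc).1.symm, c, (Prod.ext_iff.1 hc).2⟩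

theorem p1 (n : ℕ) (l : List (Gn Q × Bool)) (u v : Lv (XX Q) (n + 1)) :
    pos n (ev (G M th (n + 1)) l u) = pos n (ev (G M th (n + 1)) l v) ↔ pos n u = pos n v := by
  rw [← rr1, ← rr1]
  exact ev_mem _ (Pres (RR E1 E1 n)) _ (fun a _ => gen_pres _ _ E1 E1 (sg_E1 M) (sg_E1 M)
    (fun i x y h => congrArg (hB M th i) h) n a.1) u v

theorem p2 (n : ℕ) (l : List (Gn Q × Bool)) (u v : Lv (XX Q) (n + 1))
    (h1 : pos n u = pos n v) (h2 : om n u = om n v) :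
    om n (ev (G M th (n + 1)) l u) = om n (ev (G M th (n + 1)) l v) :=
  ((rr2 n _ _).1 ((ev_mem _ (Pres (RR E1 Eq n)) _ (fun a _ => gen_pres _ _ E1 Eq (sg_E1 M)
    (fun i _ _ => (sg M i).injective.eq_iff)
    (fun i x y h => congrArg (hB M th i) h) n a.1) u v).2 ((rr2 n _ _).2 ⟨h1, h2⟩))).2

theorem p3 (n : ℕ) (l : List (Gn Q × Bool)) (u : Lv (XX Q) (n + 1)) (c : ZMod 3) :
    ∃ c', (ev (G M th (n + 1)) l)⁻¹ (tr c n u) = tr c' n ((ev (G M th (n + 1)) l)⁻¹ u) :=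
  (rr3 n _ _).1 ((Subgroup.inv_mem _ (ev_mem _ (Pres (RR Eq E1 n)) l (fun a _ => gen_pres _ _ Eq E1
    (fun i _ _ => (sg M i).injective.eq_iff) (sg_E1 M)
    (fun i x y h => congrArg (hh M th i) h) n a.1)) u _).2 ((rr3 n _ _).2 ⟨c, rfl⟩))

theorem dl_pos : ∀ n : ℕ, G M th (n + 1) .dl ∈ Fx (pos n)
  | 0 => fun _ => rfl
  | n + 1 => fun ((b, ω), u) => by
    rw [G_succ]
    refine congrArg (b :: ·) (ev_mem _ (Fx (pos n)) _ ?_ u)
    intro a ha
    simp only [hB] at ha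
    split_ifs at ha <;> simp at ha
    rw [ha]; exact dl_pos n

theorem od_hist (s : Q) : ∀ n : ℕ, G M th (n + 1) (.od s) ∈ Fx (hist n)
  | 0 => fun _ => rfl
  | n + 1 => fun ((b, ω), u) => by
    rw [G_succ, hist_succ, hist_succ]
    refine congrArg (b.1 :: ·) (ev_mem _ (Fx (hist n)) _ ?_ u)
    intro a ha
    simp only [hB] at ha
    split_ifs at ha <;> simp at ha
    rw [ha]; exact od_hist s n

theorem ev_cj (n : ℕ) (s : Q) : ev (G M th n) (cj th s true) =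
    (G M th n (.od s) ^ 2 ^ th s)⁻¹ * G M th n .dl * G M th n (.od s) ^ 2 ^ th s := by
  simp [cj, mul_assoc]

theorem ev_cj' (n : ℕ) (s : Q) : ev (G M th n) (cj th s false) = (ev (G M th n) (cj th s true))⁻¹ := by
  simp [cj, mul_assoc]

theorem ev_wd (n : ℕ) (s : Q) (p : Bool) : ev (G M th n) (wd th s p) =
    ev (G M th n) (cj th s true) * (if p then G M th n (.hd s) else (G M th n (.hd s))⁻¹) *
      (ev (G M th n) (cj th s true))⁻¹ * (G M th n (.hd s))⁻¹ := by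
  simp [wd, ev_cj', mul_assoc]

theorem conj_pos (n : ℕ) (l : List (Gn Q × Bool)) (g : Perm (Lv (XX Q) (n + 1)))
    (hg : g ∈ Fx (pos n)) :
    ev (G M th (n + 1)) l * g * (ev (G M th (n + 1)) l)⁻¹ ∈ Fx (pos n) := fun u => by
  have := (p1 M th n l (g ((ev (G M th (n + 1)) l)⁻¹ u)) ((ev (G M th (n + 1)) l)⁻¹ u)).2 (hg _)
  simpa using this

theorem cj_pos (n : ℕ) (s : Q) : ev (G M th (n + 1)) (cj th s true) ∈ Fx (pos n) := by
  have := conj_pos M th n (List.replicate (2 ^ th s) (.od s, false)) _ (dl_pos M th n)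
  rw [ev_cj]
  simpa using this

theorem hd_pos : ∀ (n : ℕ) (q : Q), G M th (n + 1) (.hd q) ∈ Fx (pos n)
  | 0, _ => fun _ => rfl
  | n + 1, q => fun ((b, ω), u) => by
    rw [G_succ]
    refine congrArg (b :: ·) ?_
    simp only [hB]
    split_ifs
    · rw [ev_wd]
      refine Subgroup.mul_mem (Fx (pos n)) (conj_pos M th n _ _ ?_)
        (Subgroup.inv_mem _ (hd_pos n _)) u
      split_ifs
      · exact hd_pos n _
      · exact Subgroup.inv_mem _ (hd_pos n _)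
    · rfl

end Pool.Agent.H52.LT
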