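import Pool.Agent.H52.LT2

namespace Pool.Agent.H52.LT

open Equiv Function Classical

variable {Q : Type} (M : Mach Q) (th : Q → ℕ)

def upd (s : Q) (b : Bool) (v : ℕ → ℕ) : ℕ → ℕ := update v (M.rg s) (v (M.rg s) + 1 - M.ex s b)

def tst (s : Q) (v : ℕ → ℕ) : Bool := decide (v (M.rg s) < th s)

inductive Run : List (Q × Bool) → Q → (ℕ → ℕ) → Prop
  | base (t : Q × Bool) : Run [t] M.q0 0
  | step {l : List (Q × Bool)} {s q : Q} {v : ℕ → ℕ} : Run l s v →
      M.nx s (tst M th s v) = some q → Run ((s, tst M th s v) :: l) q (upd M s (tst M th s v) v)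

def WF : Prop := (∀ s b, M.nx s b ≠ some M.q0) ∧ ∀ s v, M.ex s (tst M th s v) ≤ v (M.rg s) + 1

theorem Run.ne_nil {q : Q} {v : ℕ → ℕ} : ¬ Run M th [] q v := fun h => by cases h

theorem run_one {t : Q × Bool} {q : Q} {v : ℕ → ℕ} (h : Run M th [t] q v) : q = M.q0 ∧ v = 0 := by
  cases h with
  | base => exact ⟨rfl, rfl⟩
  | step h _ => exact absurd h (Run.ne_nil M th)

theorem run_cons {t : Q × Bool} {l : List (Q × Bool)} (hl : l ≠ []) {q : Q} {v : ℕ → ℕ}
    (h : Run M th (t :: l) q v) : ∃ v0, Run M th l t.1 v0 ∧ t.2 = tst M th t.1 v0 ∧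
      M.nx t.1 t.2 = some q ∧ v = upd M t.1 t.2 v0 := by
  cases h with
  | base => exact absurd rfl hl
  | step h h' => exact ⟨_, h, rfl, h', rfl⟩

theorem hist_ne (n : ℕ) (u : Lv (XX Q) (n + 1)) : hist n u ≠ [] := fun h => by
  have := hist_length n u
  simp [h] at this

def Cm (n : ℕ) : Subgroup (Perm (Lv (XX Q) (n + 1))) where
  carrier := {g | ∀ c u, g (tr c n u) = tr c n (g u)}
  mul_mem' := fun {a b} ha hb c u => by rw [Perm.mul_apply, hb, ha]; rfl
  one_mem' := fun _ _ => rfl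
  inv_mem' := fun {a} ha c u => by
    apply a.injective
    rw [ha]; simp

theorem od_cm (s : Q) : ∀ n : ℕ, G M th (n + 1) (.od s) ∈ Cm n
  | 0 => fun _ _ => rfl
  | n + 1 => fun c ((b, ω), u) => by
    show G M th (n + 2) (.od s) ((b, ω), tr c n u) = _
    rw [G_succ, G_succ]
    refine congrArg (fun z => (_, z)) (ev_mem _ (Cm n) _ ?_ c u)
    intro a ha
    simp only [hB] at ha
    split_ifs at ha <;> simp at ha
    rw [ha]; exact od_cm s n

theorem dl_tr (c : ZMod 3) : ∀ (n : ℕ) (u : Lv (XX Q) (n + 1)),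
    G M th (n + 1) .dl (tr c n u) = tr (if yz n u then -c else c) n (G M th (n + 1) .dl u)
  | 0, ((b, ω), u) => by
    show G M th 1 .dl ((b, ω + c), ()) = _
    rw [G_succ, G_succ]
    by_cases hb : b.2 = false
    · rw [if_pos ((yz_zero _ _).2 hb)]
      simp [tr, sO, hb, add_comm]; rfl
    · rw [if_neg (fun h => hb ((yz_zero _ _).1 h))]
      simp [tr, sO, hb]; rfl
  | n + 1, ((b, ω), u) => by
    show G M th (n + 2) .dl ((b, ω), tr c n u) = _
    rw [G_succ, G_succ]
    refine congrArg (fun z => (_, z)) ?_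
    by_cases hb : b.2 = false
    · simpa [hB, hb, yz_succ] using dl_tr c n u
    · simp [hB, hb, yz_succ]

theorem od_pow (s : Q) (n : ℕ) (t : Q × Bool) (ω : ZMod 3) (u : Lv (XX Q) n) (k : ℕ) :
    (G M th (n + 1) (.od s) ^ k) (((t, false), ω), u) =
      (((t, decide (k % 2 = 1)), ω), (G M th n (.od s) ^ (2 ^ ee M s t * (k / 2))) u) := by
  induction k with
  | zero => simp
  | succ k ih =>
    rw [pow_succ', Perm.mul_apply, ih, G_succ]
    rcases Nat.mod_two_eq_zero_or_one k with h | h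
    · have h1 : (k + 1) % 2 = 1 := by omega
      have h2 : (k + 1) / 2 = k / 2 := by omega
      simp [h, h1, h2, sB, sO, hB]
    · have h1 : (k + 1) % 2 = 0 := by omega
      have h2 : (k + 1) / 2 = k / 2 + 1 := by omega
      rw [h2, mul_add, mul_one, add_comm (_ * _), pow_add, Perm.mul_apply]
      simp [h, h1, sB, sO, hB]

theorem od_yz (hW : WF M th) (s : Q) : ∀ (n : ℕ) (u : Lv (XX Q) (n + 1)) (q : Q) (v : ℕ → ℕ),
    Run M th (hist n u) q v → yz n u → ∀ k : ℕ,
      (yz n ((G M th (n + 1) (.od s) ^ k) u) ↔ 2 ^ (v (M.rg s) + 1) ∣ k)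
  | 0, (((t, y), ω), u), q, v, hr, hy, k => by
    obtain rfl : y = false := (yz_zero _ _).1 hy
    obtain ⟨-, rfl⟩ := run_one M th hr
    rw [od_pow, yz_zero]
    simp; omega
  | n + 1, (((t, y), ω), u), q, v, hr, hy, k => by
    obtain ⟨rfl, hy'⟩ : y = false ∧ yz n u := (yz_succ _ _ _).1 hy
    obtain ⟨v0, h0, h1, -, rfl⟩ := run_cons M th (t := t) (hist_ne n u) hr
    rw [od_pow, yz_succ, od_yz hW s n u _ v0 h0 hy']
    have key : upd M t.1 t.2 v0 (M.rg s) + ee M s t = v0 (M.rg s) + 1 := by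
      have := hW.2 t.1 v0
      rw [← h1] at this
      unfold upd ee
      split_ifs with h
      · rw [← h, update_self]; omega
      · rw [update_of_ne (Ne.symm h)]
    simp only [decide_eq_false_iff_not]
    rw [← key, add_comm _ (ee M s t), pow_add, Nat.mul_dvd_mul_iff_left (by positivity), pow_succ']
    constructor
    · rintro ⟨h2, m, hm⟩
      exact ⟨m, by rw [mul_assoc, ← hm]; omega⟩
    · rintro ⟨m, rfl⟩
      rw [mul_assoc]
      exact ⟨by omega, m, by omega⟩

noncomputable def chi (n : ℕ) (u : Lv (XX Q) (n + 1)) : ZMod 3 := if yz n u then 1 else 0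

theorem cj_tr (n : ℕ) (s : Q) (c : ZMod 3) (u : Lv (XX Q) (n + 1)) :
    ev (G M th (n + 1)) (cj th s true) (tr c n u) =
      tr (if yz n ((G M th (n + 1) (.od s) ^ 2 ^ th s) u) then -c else c) n
        (ev (G M th (n + 1)) (cj th s true) u) := by
  have h1 := Subgroup.pow_mem _ (od_cm M th s n) (2 ^ th s)
  rw [ev_cj]
  simp only [Perm.mul_apply]
  rw [h1, dl_tr, (Subgroup.inv_mem _ h1)]

theorem wd_run (hW : WF M th) (n : ℕ) (s : Q) (p : Bool) (ts : List (Q × Bool)) (v : ℕ → ℕ)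
    (hr : Run M th ts s v)
    (HV : ∀ w, hist n w = ts → G M th (n + 1) (.hd s) w = tr (chi n w) n w)
    (w : Lv (XX Q) (n + 1)) (hw : hist n w = ts) :
    ev (G M th (n + 1)) (wd th s p) w = tr (if p = tst M th s v then chi n w else 0) n w := by
  have HV' : ∀ w, hist n w = ts → (G M th (n + 1) (.hd s))⁻¹ w = tr (-chi n w) n w := by
    intro w hw
    rw [Perm.inv_eq_iff_eq, HV _ ((hist_congr (pos_tr _ _ _)).trans hw), tr_tr, chi, chi,
      yz_congr (pos_tr _ _ _)]
    simp [tr_zero]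
  rw [ev_wd]
  simp only [Perm.mul_apply]
  rw [HV' w hw]
  set D := ev (G M th (n + 1)) (cj th s true) with hD
  set w1 := D⁻¹ (tr (-chi n w) n w) with hw1
  have e1 : pos n w1 = pos n w := ((Subgroup.inv_mem _ (cj_pos M th n s)) _).trans (pos_tr _ _ _)
  have e2 : chi n w1 = chi n w := by rw [chi, chi, yz_congr e1]
  have e3 : (if p then G M th (n + 1) (.hd s) else (G M th (n + 1) (.hd s))⁻¹) w1 =
      tr (if p then chi n w else -chi n w) n w1 := by
    cases p
    · simpa [e2] using HV' w1 ((hist_congr e1).trans hw)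
    · simpa [e2] using HV w1 ((hist_congr e1).trans hw)
  rw [e3, hD, cj_tr, ← hD, show D w1 = tr (-chi n w) n w by simp [hw1], tr_tr]
  congr 1
  by_cases hy : yz n w
  · rw [od_yz M th hW s n w1 s v (((hist_congr e1).trans hw).symm ▸ hr) ((yz_congr e1).2 hy),
      Nat.pow_dvd_pow_iff_le_right one_lt_two]
    simp only [chi, if_pos hy, tst]
    by_cases hv : v (M.rg s) < th s
    · rw [if_pos (show v (M.rg s) + 1 ≤ th s from hv)]
      cases p <;> simp [hv] <;> decide
    · rw [if_neg (show ¬ v (M.rg s) + 1 ≤ th s from hv)]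
      cases p <;> simp [hv] <;> decide
  · simp [chi, hy]

theorem hd_run (hW : WF M th) : ∀ (n : ℕ) (q : Q) (v : ℕ → ℕ) (u : Lv (XX Q) (n + 1)),
    Run M th (hist n u) q v → G M th (n + 1) (.hd q) u = tr (chi n u) n u
  | 0, q, v, ((b, ω), u), hr => by
    obtain ⟨rfl, -⟩ := run_one M th hr
    rw [G_succ]
    by_cases hb : b.2 = false <;> simp [tr, chi, yz_zero, sO, sB, hb] <;> rfl
  | n + 1, q, v, ((b, ω), u), hr => by
    obtain ⟨v0, h0, h1, h2, -⟩ := run_cons M th (hist_ne n u) hr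
    have hq : q ≠ M.q0 := fun h => hW.1 _ _ (h ▸ h2)
    rw [G_succ]
    show _ = ((b, ω), tr _ n u)
    refine Prod.ext (by simp [sB, sO, hq]) ?_
    by_cases hb : b.2 = false
    · simp only [hB]
      rw [if_pos ⟨hb, h2⟩, wd_run M th hW n _ _ _ v0 h0
        (fun w hw => hd_run hW n _ v0 w (hw ▸ h0)) u rfl, if_pos h1]
      simp [chi, yz_succ, hb]
    · simp [hB, hb, chi, yz_succ, tr_zero]

end Pool.Agent.H52.LT
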