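import Pool.Agent.H52.LT3

namespace Pool.Agent.H52.LT

open Equiv Function Classical

variable {Q : Type} (M : Mach Q) (th : Q → ℕ)

theorem hd_dead (hW : WF M th) : ∀ (n : ℕ) (q : Q) (u : Lv (XX Q) (n + 1)),
    (∀ v, ¬ Run M th (hist n u) q v) → om n (G M th (n + 1) (.hd q) u) = om n u
  | 0, q, ((b, ω), u), hr => by
    have hq : q ≠ M.q0 := fun h => hr 0 (h ▸ Run.base _)
    rw [G_succ]
    simp [om, sO, hq]
  | n + 1, q, ((b, ω), u), hr => by
    rw [G_succ]
    show om n (ev (G M th (n + 1)) (hB M th (.hd q) b) u) = om n u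
    simp only [hB]
    split_ifs with hb
    · by_cases h0 : ∃ v, Run M th (hist n u) b.1.1 v
      · obtain ⟨v, h0⟩ := h0
        rw [wd_run M th hW n _ _ _ v h0 (fun w hw => hd_run M th hW n _ v w (hw ▸ h0)) u rfl,
          if_neg, tr_zero]
        intro e
        refine hr (upd M b.1.1 (tst M th b.1.1 v) v) ?_
        have := Run.step h0 (e ▸ hb.2)
        rw [hist_succ, show ((b, ω) : XX Q).1.1 = (b.1.1, tst M th b.1.1 v) from Prod.ext rfl e]
        exact this
      · push Not at h0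
        set g := G M th (n + 1) (.hd b.1.1) with hg
        have gp : g ∈ Fx (pos n) := hd_pos M th n _
        have H1 : ∀ w, pos n w = pos n u → om n (g w) = om n w := fun w hw =>
          hd_dead hW n _ w (hist_congr hw ▸ h0)
        have H2 : ∀ w, pos n w = pos n u → om n (g⁻¹ w) = om n w := fun w hw => by
          simpa using (H1 (g⁻¹ w) (((Subgroup.inv_mem _ gp) w).trans hw)).symm
        rw [ev_wd, ← hg]
        simp only [Perm.mul_apply]
        set w1 := (ev (G M th (n + 1)) (cj th b.1.1 true))⁻¹ (g⁻¹ u) with hw1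
        have e1 : pos n w1 = pos n u :=
          ((Subgroup.inv_mem _ (cj_pos M th n _)) _).trans ((Subgroup.inv_mem _ gp) u)
        rw [p2 M th n _ _ w1, hw1]
        · simpa using H2 u rfl
        · split_ifs
          · exact gp _
          · exact (Subgroup.inv_mem _ gp) _
        · split_ifs
          · exact H1 _ e1
          · exact H2 _ e1
    · rfl

def isHd : Gn Q → Prop
  | .hd _ => True
  | _ => False

theorem data_om : ∀ (n : ℕ) (i : Gn Q), ¬ isHd i → G M th (n + 1) i ∈ Fx (fun u => om n u = 0)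
  | 0, i, hi => fun ((b, ω), u) => by
    rw [G_succ]
    cases i with
    | hd q => exact absurd trivial hi
    | dl => by_cases hb : b.2 = false <;> simp [om, sO, hb]
    | _ => rfl
  | n + 1, i, hi => fun ((b, ω), u) => by
    rw [G_succ]
    refine ev_mem _ (Fx (fun u => om n u = 0)) _ (fun a ha => data_om n _ ?_) u
    cases i with
    | hd q => exact absurd trivial hi
    | rho π => simp [hB] at ha
    | _ =>
      simp only [hB] at ha
      split_ifs at ha <;> simp at ha <;> simp [ha, isHd]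

def cst (x : XX Q) : (n : ℕ) → Lv (XX Q) n
  | 0 => ()
  | n + 1 => (x, cst x n)

theorem not_lt (hW : WF M th) (n : ℕ) (hn : ∀ l q v, l.length = n + 1 → ¬ Run M th l q v) :
    ¬ LevelTransitive (sg M) (hh M th) := by
  rw [lt_iff]
  intro H
  set u := cst (((M.q0, false), false), 0) (n + 1)
  obtain ⟨l, hl⟩ := H (n + 1) (tr (-om n u) n u) (tr (1 - om n u) n u)
  have := ev_mem (G M th (n + 1)) (Fx (fun u => om n u = 0)) l (fun a _ => by
    by_cases ha : isHd a.1
    · rcases a with ⟨q | _ | _ | _ | _, _⟩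
      · exact fun u => congrArg (· = 0) (hd_dead M th hW n q u fun v => hn _ _ _ (hist_length n u))
      all_goals exact absurd ha id
    · exact data_om M th n _ ha) (tr (-om n u) n u)
  rw [hl] at this
  simp [om_tr] at this

theorem ex_pt : ∀ (n : ℕ) (l : List (Q × Bool)), l.length = n + 1 →
    ∃ u : Lv (XX Q) (n + 1), hist n u = l ∧ yz n u
  | 0, [t], _ => ⟨(((t, false), 0), ()), rfl, (yz_zero _ _).2 rfl⟩
  | n + 1, t :: l, h => by
    obtain ⟨u, h1, h2⟩ := ex_pt n l (by simpa using h)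
    exact ⟨(((t, false), 0), u), by rw [hist_succ, h1], (yz_succ _ _ _).2 ⟨rfl, h2⟩⟩

theorem bb_act : ∀ n : ℕ, ∃ v : Lv (XX Q) (n + 1), ∀ π b ω,
    G M th (n + 2) (.bb π) (snoc (n + 1) v (b, ω)) = snoc (n + 1) v (π b, ω)
  | 0 => ⟨((((M.q0, false), true), 0), ()), fun π b ω => by
      show G M th 2 (.bb π) ((((M.q0, false), true), 0), ((b, ω), ())) = _
      rw [G_succ]
      simp only [hB, Bool.true_eq_false, if_false, ev_cons, if_true, ev_nil, mul_one]
      rfl⟩
  | n + 1 => by
    obtain ⟨v, hv⟩ := bb_act n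
    refine ⟨((((M.q0, false), false), 0), v), fun π b ω => ?_⟩
    show G M th (n + 3) (.bb π) ((((M.q0, false), false), 0), snoc (n + 1) v (b, ω)) = _
    rw [G_succ]
    simp only [hB, if_true, ev_cons, ev_nil, mul_one, hv]
    rfl

theorem rho_act (n : ℕ) : ∃ v : Lv (XX Q) n, ∀ π : Perm (B Q), ∃ i, ∀ b ω,
    G M th (n + 1) i (snoc n v (b, ω)) = snoc n v (π b, ω) := by
  cases n with
  | zero => exact ⟨(), fun π => ⟨.rho π, fun b ω => rfl⟩⟩
  | succ n =>
    obtain ⟨v, hv⟩ := bb_act M th n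
    exact ⟨v, fun π => ⟨.bb π, hv π⟩⟩

theorem snoc_tr (b : B Q) (ω c : ZMod 3) : ∀ (n : ℕ) (v : Lv (XX Q) n),
    tr c n (snoc n v (b, ω)) = snoc n v (b, ω + c)
  | 0, _ => rfl
  | n + 1, (x, v) => congrArg (fun z => (x, z)) (snoc_tr b ω c n v)

theorem is_lt (hW : WF M th) (hn : ∀ n, ∃ l q v, l.length = n + 1 ∧ Run M th l q v) :
    LevelTransitive (sg M) (hh M th) := by
  intro n
  induction n with
  | zero => exact fun u v => ⟨1, Subgroup.one_mem _, rfl⟩
  | succ n ih =>
    obtain ⟨l, q, v, hl, hr⟩ := hn n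
    obtain ⟨z, hz, hy⟩ := ex_pt n l hl
    obtain ⟨v0, hv0⟩ := rho_act M th n
    set S := Subgroup.closure (Set.range (G M th (n + 1))) with hS
    have hgen : ∀ i, G M th (n + 1) i ∈ S := fun i => Subgroup.subset_closure ⟨i, rfl⟩
    have hev : ∀ l, ev (G M th (n + 1)) l ∈ S := fun l => (mem_cl _).2 ⟨l, rfl⟩
    have h1 : ∀ u : Lv (XX Q) (n + 1), ∃ l b ω, ev (G M th (n + 1)) l u = snoc n v0 (b, ω) := by
      intro u
      obtain ⟨g, hg, e⟩ := ih (drop n u) v0
      obtain ⟨l, rfl⟩ := (mem_cl _).1 hg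
      refine ⟨l, (last n (ev (G M th (n + 1)) l u)).1, (last n (ev (G M th (n + 1)) l u)).2, ?_⟩
      rw [← e, ← drop_ev, snoc_drop]
    have h2 : ∀ k : ℕ, (G M th (n + 1) (.hd q) ^ k) z = tr k n z := by
      intro k
      induction k with
      | zero => simp [tr_zero]
      | succ k ihk =>
        rw [pow_succ', Perm.mul_apply, ihk, hd_run M th hW n q v _
          (((hist_congr (pos_tr _ _ _)).trans hz).symm ▸ hr), tr_tr, chi,
          if_pos ((yz_congr (pos_tr _ _ _)).2 hy)]
        simp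
    have h3 : ∀ u : Lv (XX Q) (n + 1), ∃ g ∈ S, g u = z := by
      intro u
      obtain ⟨l1, b1, ω1, e1⟩ := h1 z
      obtain ⟨l2, b2, ω2, e2⟩ := h1 u
      obtain ⟨i, hi⟩ := hv0 (Equiv.swap b2 b1)
      obtain ⟨c, hc⟩ := p3 M th n l1 (ev (G M th (n + 1)) l1 z) (ω2 - ω1)
      refine ⟨(G M th (n + 1) (.hd q) ^ c.val)⁻¹ * (ev (G M th (n + 1)) l1)⁻¹ * G M th (n + 1) i *
        ev (G M th (n + 1)) l2, S.mul_mem (S.mul_mem (S.mul_mem (S.inv_mem (S.pow_mem (hgen _) _))
          (S.inv_mem (hev _))) (hgen _)) (hev _), ?_⟩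
      simp only [Perm.mul_apply]
      rw [e2, hi, Equiv.swap_apply_left, show ω2 = ω1 + (ω2 - ω1) by ring, ← snoc_tr, ← e1, hc,
        Perm.inv_eq_iff_eq, h2]
      simp
    intro u u'
    obtain ⟨g, hg, e⟩ := h3 u
    obtain ⟨g', hg', e'⟩ := h3 u'
    exact ⟨g'⁻¹ * g, S.mul_mem (S.inv_mem hg') hg, by rw [Perm.mul_apply, e, ← e']; simp⟩

/-- one step of the machine -/
def stp (c : Option Q × (ℕ → ℕ)) : Option Q × (ℕ → ℕ) :=
  match c with
  | (none, v) => (none, v)
  | (some s, v) => (M.nx s (tst M th s v), upd M s (tst M th s v) v)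

theorem Run.iter {l : List (Q × Bool)} {q : Q} {v : ℕ → ℕ} (h : Run M th l q v) :
    (stp M th)^[l.length - 1] (some M.q0, 0) = (some q, v) := by
  induction h with
  | base => rfl
  | @step l s q v h h' ih =>
    obtain ⟨m, hm⟩ : ∃ m, l.length = m + 1 := by
      cases l with
      | nil => exact absurd h (Run.ne_nil M th)
      | cons a l => exact ⟨_, rfl⟩
    rw [hm] at ih
    rw [List.length_cons, hm, Nat.add_sub_cancel, iterate_succ_apply']
    rw [Nat.add_sub_cancel] at ih
    rw [ih, stp, h']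

theorem lt_iff_run (hW : WF M th) : LevelTransitive (sg M) (hh M th) ↔
    ¬ ∃ m, ((stp M th)^[m] (some M.q0, 0)).1 = none := by
  constructor
  · rintro H ⟨m, hm⟩
    refine not_lt M th hW m (fun l q v hl hr => ?_) H
    have := hr.iter
    rw [hl, Nat.add_sub_cancel] at this
    simp [this] at hm
  · intro H
    refine is_lt M th hW fun n => ?_
    suffices ∃ l q v, l.length = n + 1 ∧ Run M th l q v ∧
        (stp M th)^[n] (some M.q0, 0) = (some q, v) by
      obtain ⟨l, q, v, a, b, -⟩ := this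
      exact ⟨l, q, v, a, b⟩
    induction n with
    | zero => exact ⟨[(M.q0, false)], _, _, rfl, Run.base _, rfl⟩
    | succ n ih =>
      obtain ⟨l, q, v, a, b, c⟩ := ih
      have e : (stp M th)^[n + 1] (some M.q0, 0) =
          (M.nx q (tst M th q v), upd M q (tst M th q v) v) := by
        rw [iterate_succ_apply', c, stp]
      rcases h : M.nx q (tst M th q v) with _ | q'
      · exact absurd ⟨n + 1, by rw [e, h]⟩ H
      · exact ⟨_, q', _, by simp [a], Run.step b h, by rw [e, h]⟩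

end Pool.Agent.H52.LT
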