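import Mathlib

/-! Self-similar groups given by a recursion, and level-transitivity. -/

namespace Pool.Agent.H52.LT

open Equiv

/-- Level `n` of the tree: words `x₁ x₂ … xₙ` over `X`, stored as nested pairs. -/
def Lv (X : Type) : ℕ → Type
  | 0 => Unit
  | n + 1 => X × Lv X n

/-- The value of a group word: a letter `(i, true)` is `β i`, a letter `(i, false)` its inverse. -/
def ev {ι Z : Type} (β : ι → Perm Z) (l : List (ι × Bool)) : Perm Z :=
  (l.map fun a => if a.2 then β a.1 else (β a.1)⁻¹).prod

/-- The action of the generator `g_i` on level `n`: `g_i (x w) = σ_i(x) h_{i,x}(w)`. -/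
def gen {X ι : Type} (σ : ι → Perm X) (h : ι → X → List (ι × Bool)) :
    (n : ℕ) → ι → Perm (Lv X n)
  | 0, _ => 1
  | n + 1, i => Equiv.prodShear (σ i) fun x => ev (gen σ h n) (h i x)

/-- The group generated by the `g_i` is transitive on every level. -/
def LevelTransitive {X ι : Type} (σ : ι → Perm X) (h : ι → X → List (ι × Bool)) : Prop :=
  ∀ (n : ℕ) (u v : Lv X n), ∃ g ∈ Subgroup.closure (Set.range (gen σ h n)), g u = v

/-- The input list `(d; σ_i; h_{i,x})` written with natural numbers. -/
def code {d k : ℕ} (σ : Fin k → Perm (Fin d)) (h : Fin k → Fin d → List (Fin k × Bool)) :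
    ℕ × List (List ℕ × List (List (ℕ × Bool))) :=
  (d, List.ofFn fun i => (List.ofFn fun x => (σ i x : ℕ),
    List.ofFn fun x => (h i x).map fun a => ((a.1 : ℕ), a.2)))

end Pool.Agent.H52.LT
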