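import Mathlib

set_option autoImplicit false
open Finset

namespace Pool.Agent.H52.Rough

lemma harm_up (n : ℕ) : ∑ k ∈ Icc 1 n, (1 / k : ℝ) ≤ 1 + Real.log n := by
  have h2 := harmonic_le_one_add_log n
  rw [harmonic_eq_sum_Icc] at h2
  push_cast at h2
  simpa only [← one_div] using h2

lemma harm_lo (n : ℕ) : Real.log (n + 1) ≤ ∑ k ∈ Icc 1 n, (1 / k : ℝ) := by
  have h2 := log_add_one_le_harmonic n
  rw [harmonic_eq_sum_Icc] at h2
  push_cast at h2
  simpa only [← one_div] using h2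

/-- Logarithmic sieve bound for y-rough numbers. -/
lemma rough (R : Finset ℕ) (y Z : ℕ)
    (hR : ∀ m ∈ R, 1 ≤ m ∧ m * y ≤ Z ∧ ∀ p, p.Prime → p ∣ m → y < p) :
    (∑ m ∈ R, (1 / m : ℝ)) * Real.log (y + 1) ≤ 1 + Real.log Z := by
  have hcop : ∀ m ∈ R, ∀ s ∈ Icc 1 y, Nat.Coprime m s := by
    intro m hm s hs
    rw [mem_Icc] at hs
    apply Nat.coprime_of_dvd
    intro p hp h1 h2
    have := (hR m hm).2.2 p hp h1
    have := Nat.le_of_dvd (by omega) h2
    omega
  have hinj : Set.InjOn (fun x : ℕ × ℕ => x.1 * x.2) ↑(R ×ˢ Icc 1 y) := by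
    rintro ⟨m, s⟩ h1 ⟨m', s'⟩ h2 he
    simp only [coe_product, Set.mem_prod, mem_coe] at h1 h2
    simp only at he
    have d1 : m ∣ m' := (hcop m h1.1 s' h2.2).dvd_of_dvd_mul_right ⟨s, he.symm⟩
    have d2 : m' ∣ m := (hcop m' h2.1 s h1.2).dvd_of_dvd_mul_right ⟨s', he⟩
    obtain rfl : m = m' := Nat.dvd_antisymm d1 d2
    have := Nat.eq_of_mul_eq_mul_left (hR m h1.1).1 he
    rw [this]
  calc (∑ m ∈ R, (1 / m : ℝ)) * Real.log (y + 1)
      ≤ (∑ m ∈ R, (1 / m : ℝ)) * ∑ k ∈ Icc 1 y, (1 / k : ℝ) := by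
        gcongr
        exact harm_lo y
    _ = ∑ x ∈ R ×ˢ Icc 1 y, (1 / ((x.1 * x.2 : ℕ) : ℝ)) := by
        rw [sum_mul_sum, sum_product]
        refine sum_congr rfl fun m _ => sum_congr rfl fun s _ => ?_
        push_cast
        rw [div_mul_div_comm, one_mul]
    _ = ∑ k ∈ (R ×ˢ Icc 1 y).image (fun x : ℕ × ℕ => x.1 * x.2), (1 / k : ℝ) := by
        rw [sum_image hinj]
    _ ≤ ∑ k ∈ Icc 1 Z, (1 / k : ℝ) := by
        refine sum_le_sum_of_subset_of_nonneg ?_ fun _ _ _ => by positivity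
        intro k hk
        obtain ⟨⟨m, s⟩, h1, rfl⟩ := mem_image.1 hk
        rw [mem_product, mem_Icc] at h1
        obtain ⟨a1, a2, _⟩ := hR m h1.1
        simp only [mem_Icc]
        exact ⟨Nat.mul_pos a1 h1.2.1, (Nat.mul_le_mul_left _ h1.2.2).trans a2⟩
    _ ≤ _ := harm_up Z

noncomputable def w (p : ℕ) : ℝ := 1 / (p * Real.sqrt (Real.log p))

lemma w_nonneg (p : ℕ) : 0 ≤ w p := by unfold w; positivity

lemma block (y : ℕ) (hy : 2 ≤ y) :
    ∑ p ∈ (Ioc y (y ^ 2)).filter Nat.Prime, (1 / p : ℝ) ≤ 5 := by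
  have h := rough ((Ioc y (y ^ 2)).filter Nat.Prime) y (y ^ 3) (fun m hm => by
    obtain ⟨h1, h2⟩ := mem_filter.1 hm
    rw [mem_Ioc] at h1
    refine ⟨by omega, ?_, fun p hp hd => ?_⟩
    · calc m * y ≤ y ^ 2 * y := Nat.mul_le_mul_right _ h1.2
        _ = y ^ 3 := by ring
    · rw [(Nat.prime_dvd_prime_iff_eq hp h2).1 hd]; exact h1.1)
  have hyr : (2 : ℝ) ≤ y := by exact_mod_cast hy
  have h1 : Real.log 2 ≤ Real.log y := Real.log_le_log (by norm_num) hyr
  have h2 : Real.log y ≤ Real.log (y + 1) := Real.log_le_log (by linarith) (by linarith)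
  have h3 := Real.log_two_gt_d9
  push_cast at h
  rw [Real.log_pow] at h
  push_cast at h
  by_contra hc
  push Not at hc
  nlinarith

lemma wsum_aux (j : ℕ) :
    ∑ p ∈ (Icc 1 (2 ^ 2 ^ j)).filter Nat.Prime, w p ≤ 33 - 32 * (4 / 5 : ℝ) ^ j := by
  have hl := Real.log_two_gt_d9
  induction j with
  | zero =>
    have : (Icc 1 (2 ^ 2 ^ 0)).filter Nat.Prime = {2} := by decide
    rw [this, sum_singleton, w]
    have : 1 / 2 ≤ Real.sqrt (Real.log (2 : ℕ)) := by
      apply Real.le_sqrt_of_sq_le; push_cast; linarith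
    rw [div_le_iff₀ (by positivity)]
    push_cast at this ⊢
    linarith
  | succ j ih =>
    set y := 2 ^ 2 ^ j with hy
    have hy2 : 2 ≤ y := by
      calc 2 = 2 ^ 1 := rfl
        _ ≤ y := Nat.pow_le_pow_right (by norm_num) Nat.one_le_two_pow
    have e : 2 ^ 2 ^ (j + 1) = y ^ 2 := by rw [hy, ← pow_mul, pow_succ]
    have e2 : Icc 1 (y ^ 2) = Icc 1 y ∪ Ioc y (y ^ 2) := by
      have : y ≤ y ^ 2 := by nlinarith
      ext x; simp only [mem_union, mem_Icc, mem_Ioc]; omega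
    have hdisj : Disjoint ((Icc 1 y).filter Nat.Prime) ((Ioc y (y ^ 2)).filter Nat.Prime) := by
      rw [disjoint_left]
      intro x h1 h2
      have := mem_Icc.1 (mem_filter.1 h1).1
      have := mem_Ioc.1 (mem_filter.1 h2).1
      omega
    rw [e, e2, filter_union, sum_union hdisj]
    have hb : ∑ p ∈ (Ioc y (y ^ 2)).filter Nat.Prime, w p ≤
        ∑ p ∈ (Ioc y (y ^ 2)).filter Nat.Prime, (5 / 4 * (4 / 5 : ℝ) ^ j) * (1 / p : ℝ) := by
      refine sum_le_sum fun p hp => ?_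
      have h1 := mem_Ioc.1 (mem_filter.1 hp).1
      have hp0 : (0 : ℝ) < p := by exact_mod_cast (by omega : 0 < p)
      have h2 : (y : ℝ) ≤ p := by exact_mod_cast h1.1.le
      have h3 : Real.log y = 2 ^ j * Real.log 2 := by
        rw [hy]; push_cast; rw [Real.log_pow]; push_cast; ring
      have h4 : Real.log y ≤ Real.log p :=
        Real.log_le_log (by exact_mod_cast (by omega : 0 < y)) h2
      have h5 : 4 / 5 * (5 / 4 : ℝ) ^ j ≤ Real.sqrt (Real.log p) := by
        apply Real.le_sqrt_of_sq_le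
        have h6 : ((5 / 4 : ℝ) ^ j) ^ 2 ≤ 2 ^ j := by
          rw [← pow_mul, mul_comm, pow_mul]; gcongr; norm_num
        have h7 : (0 : ℝ) < 2 ^ j := by positivity
        rw [mul_pow]
        nlinarith
      have h8 : (5 / 4 * (4 / 5 : ℝ) ^ j) * (1 / p : ℝ) = 1 / (p * (4 / 5 * (5 / 4 : ℝ) ^ j)) := by
        have : (4 / 5 : ℝ) ^ j = ((5 / 4 : ℝ) ^ j)⁻¹ := by rw [← inv_pow]; norm_num
        rw [this]; field_simp
      rw [h8, w]
      gcongr
    rw [← mul_sum] at hb
    have hb2 := block y hy2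
    have h9 : (0 : ℝ) < (4 / 5 : ℝ) ^ j := by positivity
    rw [pow_succ (4 / 5 : ℝ) j]
    nlinarith

lemma wsum (P : Finset ℕ) (hP : ∀ p ∈ P, p.Prime) : ∑ p ∈ P, w p ≤ 33 := by
  obtain ⟨j, hj⟩ := P.bddAbove
  have h1 := wsum_aux j
  have h2 : (0 : ℝ) < (4 / 5 : ℝ) ^ j := by positivity
  refine (sum_le_sum_of_subset_of_nonneg ?_ fun p _ _ => w_nonneg p).trans (h1.trans (by linarith))
  intro p hp
  have a1 : p ≤ j := hj hp
  have a2 := Nat.lt_two_pow_self (n := j)
  have a3 := Nat.lt_two_pow_self (n := 2 ^ j)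
  have := (hP p hp).pos
  simp only [mem_filter, mem_Icc]
  exact ⟨⟨by omega, by omega⟩, hP p hp⟩

lemma minfac_sum (p Z : ℕ) (hp : p.Prime) :
    (∑ m ∈ (Icc 1 Z).filter (fun m => m.minFac = p), (1 / m : ℝ)) * (p * Real.log p)
      ≤ 1 + Real.log Z := by
  have hp2 := hp.two_le
  have hdvd : ∀ m ∈ (Icc 1 Z).filter (fun m => m.minFac = p), p ∣ m := by
    intro m hm
    rw [← (mem_filter.1 hm).2]; exact Nat.minFac_dvd m
  have hinj : Set.InjOn (fun m => m / p) ↑((Icc 1 Z).filter (fun m => m.minFac = p)) := by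
    intro a ha b hb he
    simp only at he
    rw [← Nat.mul_div_cancel' (hdvd a ha), ← Nat.mul_div_cancel' (hdvd b hb), he]
  have h := rough (((Icc 1 Z).filter (fun m => m.minFac = p)).image (fun m => m / p)) (p - 1) Z
    (fun m hm => by
      obtain ⟨k, hk, rfl⟩ := mem_image.1 hm
      obtain ⟨c, hc⟩ := hdvd k hk
      obtain ⟨h1, h2⟩ := mem_filter.1 hk
      rw [mem_Icc] at h1
      have e : k / p = c := by rw [hc]; exact Nat.mul_div_cancel_left _ hp.pos
      rw [e]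
      refine ⟨?_, ?_, fun q hq hd => ?_⟩
      · rcases Nat.eq_zero_or_pos c with rfl | h
        · omega
        · exact h
      · calc c * (p - 1) ≤ c * p := Nat.mul_le_mul_left _ (by omega)
          _ = k := by rw [hc, mul_comm]
          _ ≤ Z := h1.2
      · have := Nat.minFac_le_of_dvd hq.two_le (show q ∣ k by rw [hc]; exact hd.mul_left _)
        omega)
  rw [sum_image hinj] at h
  have e1 : (((p - 1 : ℕ) : ℝ) + 1) = p := by
    rw [Nat.cast_sub (by omega)]; push_cast; ring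
  rw [e1] at h
  convert h using 1
  rw [← mul_assoc, sum_mul]
  congr 1
  refine sum_congr rfl fun m hm => ?_
  have hpr : (p : ℝ) ≠ 0 := by exact_mod_cast hp.ne_zero
  have hm0 : (m : ℝ) ≠ 0 := by
    have := mem_Icc.1 (mem_filter.1 hm).1
    exact_mod_cast (by omega : m ≠ 0)
  rw [Nat.cast_div (hdvd m hm) hpr]
  field_simp

/-- The second part of the bound. -/
noncomputable def T (Z n : ℕ) : ℝ :=
  ∑ p ∈ (Icc 1 Z).filter Nat.Prime, ∑ a ∈ Icc 1 ⌊p * Real.sqrt (Real.log p)⌋₊,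
    if a < n ∧ (n - a).minFac = p then (1 / p : ℝ) else 0

lemma pointwise (A : Finset ℕ) (n Z : ℕ) (hn : n ≤ Z)
    (h1 : ∀ a ∈ A, a < n ∧ ∃ p, p.Prime ∧ p ≤ a ∧ p ∣ n - a)
    (h2 : ∀ a ∈ A, ∀ b ∈ A, a ≠ b → Nat.Coprime (n - a) (n - b)) :
    ∑ a ∈ A, (1 / a : ℝ) ≤ 33 + T Z n := by
  have hpr : ∀ a ∈ A, (n - a).minFac.Prime ∧ (n - a).minFac ≤ a := by
    intro a ha
    obtain ⟨_, p, hp, hpa, hd⟩ := h1 a ha
    refine ⟨Nat.minFac_prime ?_, (Nat.minFac_le_of_dvd hp.two_le hd).trans hpa⟩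
    intro e; rw [e] at hd; exact hp.one_lt.ne' (Nat.dvd_one.1 hd)
  have hinj : Set.InjOn (fun a => (n - a).minFac) ↑A := by
    intro a ha b hb he
    by_contra hne
    have hc := h2 a ha b hb hne
    have d1 := Nat.minFac_dvd (n - a)
    have d2 := Nat.minFac_dvd (n - b)
    simp only at he
    rw [← he] at d2
    exact (hpr a ha).1.one_lt.ne' (Nat.eq_one_of_dvd_coprimes hc d1 d2)
  let g : ℕ → ℝ := fun p => ∑ a ∈ Icc 1 ⌊p * Real.sqrt (Real.log p)⌋₊,
    if a < n ∧ (n - a).minFac = p then (1 / p : ℝ) else 0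
  have hg : ∀ p, 0 ≤ g p := fun p => sum_nonneg fun a _ => by split_ifs <;> positivity
  have key : ∀ a ∈ A, (1 / a : ℝ) ≤ w (n - a).minFac + g (n - a).minFac := by
    intro a ha
    obtain ⟨hp, hle⟩ := hpr a ha
    set p := (n - a).minFac with hpdef
    have hp2 : (2 : ℝ) ≤ p := by exact_mod_cast hp.two_le
    have hl : 0 < Real.log p := Real.log_pos (by linarith)
    have hs : 0 < Real.sqrt (Real.log p) := Real.sqrt_pos.2 hl
    have hler : (p : ℝ) ≤ a := by exact_mod_cast hle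
    by_cases hc : p * Real.sqrt (Real.log p) ≤ a
    · have : (1 / a : ℝ) ≤ w p := by unfold w; gcongr
      linarith [hg p]
    · push Not at hc
      have hmem : a ∈ Icc 1 ⌊p * Real.sqrt (Real.log p)⌋₊ := by
        rw [mem_Icc]
        exact ⟨hp.one_lt.le.trans hle, Nat.le_floor hc.le⟩
      have h3 := single_le_sum (f := fun a => if a < n ∧ (n - a).minFac = p then (1 / p : ℝ) else 0)
        (fun a _ => by split_ifs <;> positivity) hmem
      simp only [(h1 a ha).1, ← hpdef, and_self, if_true] at h3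
      have h4 : (1 / a : ℝ) ≤ 1 / p := by gcongr
      have := w_nonneg p
      have h5 : (1 / p : ℝ) ≤ g p := h3
      linarith
  calc ∑ a ∈ A, (1 / a : ℝ) ≤ ∑ a ∈ A, (w (n - a).minFac + g (n - a).minFac) := sum_le_sum key
    _ = ∑ p ∈ A.image (fun a => (n - a).minFac), (w p + g p) := by rw [sum_image hinj]
    _ ≤ ∑ p ∈ (Icc 1 Z).filter Nat.Prime, (w p + g p) := by
        refine sum_le_sum_of_subset_of_nonneg ?_ fun p _ _ => add_nonneg (w_nonneg p) (hg p)
        intro p hp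
        obtain ⟨a, ha, rfl⟩ := mem_image.1 hp
        obtain ⟨b1, b2⟩ := hpr a ha
        have := (h1 a ha).1
        simp only [mem_filter, mem_Icc]
        exact ⟨⟨b1.pos, by omega⟩, b1⟩
    _ ≤ 33 + T Z n := by
        rw [sum_add_distrib]
        have := wsum ((Icc 1 Z).filter Nat.Prime) fun p hp => (mem_filter.1 hp).2
        have e : ∑ p ∈ (Icc 1 Z).filter Nat.Prime, g p = T Z n := rfl
        linarith

lemma average (I : Finset ℕ) (Z : ℕ) (hI : ∀ n ∈ I, n ≤ Z) :
    ∑ n ∈ I, (1 / n : ℝ) * T Z n ≤ (1 + Real.log Z) * 33 := by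
  have hZ : 0 ≤ 1 + Real.log Z := by linarith [Real.log_natCast_nonneg Z]
  simp only [T, mul_sum]
  rw [sum_comm]
  refine le_trans (sum_le_sum (g := fun p => (1 + Real.log Z) * w p) fun p hp => ?_) ?_
  · have hp := (mem_filter.1 hp).2
    have hp2 : (2 : ℝ) ≤ p := by exact_mod_cast hp.two_le
    have hl : 0 < Real.log p := Real.log_pos (by linarith)
    have hs : 0 < Real.sqrt (Real.log p) := Real.sqrt_pos.2 hl
    rw [sum_comm]
    have h1 : ∀ a : ℕ, ∑ n ∈ I, (1 / n : ℝ) *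
        (if a < n ∧ (n - a).minFac = p then (1 / p : ℝ) else 0) ≤
        (1 + Real.log Z) / (p * Real.log p) * (1 / p) := by
      intro a
      simp only [mul_ite, mul_zero]
      rw [← sum_filter, ← sum_mul]
      refine mul_le_mul_of_nonneg_right ?_ (by positivity)
      rw [le_div_iff₀ (by positivity)]
      refine le_trans ?_ (minfac_sum p Z hp)
      refine mul_le_mul_of_nonneg_right ?_ (by positivity)
      have hinj : Set.InjOn (fun n => n - a) ↑(I.filter (fun n => a < n ∧ (n - a).minFac = p)) := by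
        intro x hx y hy he
        have := (mem_filter.1 hx).2.1
        have := (mem_filter.1 hy).2.1
        simp only at he
        omega
      calc ∑ n ∈ I.filter (fun n => a < n ∧ (n - a).minFac = p), (1 / n : ℝ)
          ≤ ∑ n ∈ I.filter (fun n => a < n ∧ (n - a).minFac = p), (1 / ((n - a : ℕ) : ℝ)) := by
            refine sum_le_sum fun n hn => ?_
            have h3 := (mem_filter.1 hn).2.1
            have h4 : (0 : ℝ) < ((n - a : ℕ) : ℝ) := by exact_mod_cast (by omega : 0 < n - a)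
            have h5 : ((n - a : ℕ) : ℝ) ≤ n := by exact_mod_cast (by omega : n - a ≤ n)
            gcongr
        _ = ∑ m ∈ (I.filter (fun n => a < n ∧ (n - a).minFac = p)).image (fun n => n - a),
            (1 / m : ℝ) := by rw [sum_image hinj]
        _ ≤ _ := by
            refine sum_le_sum_of_subset_of_nonneg ?_ fun _ _ _ => by positivity
            intro m hm
            obtain ⟨n, hn, rfl⟩ := mem_image.1 hm
            obtain ⟨b1, b2, b3⟩ := mem_filter.1 hn
            have := hI n b1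
            simp only [mem_filter, mem_Icc]
            exact ⟨⟨by omega, by omega⟩, b3⟩
    refine (sum_le_card_nsmul _ _ _ fun a _ => h1 a).trans ?_
    rw [Nat.card_Icc, Nat.add_sub_cancel, nsmul_eq_mul]
    have h2 : (⌊p * Real.sqrt (Real.log p)⌋₊ : ℝ) ≤ p * Real.sqrt (Real.log p) :=
      Nat.floor_le (by positivity)
    calc _ ≤ (p * Real.sqrt (Real.log p)) * ((1 + Real.log Z) / (p * Real.log p) * (1 / p)) := by
          gcongr
      _ = (1 + Real.log Z) * w p := by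
          unfold w
          have h3 := Real.mul_self_sqrt hl.le
          set s := Real.sqrt (Real.log p)
          rw [← h3]
          field_simp
  · rw [← mul_sum]
    gcongr
    exact wsum _ fun p hp => (mem_filter.1 hp).2

theorem not_tendsto (S : ℕ → ℝ) (A : ℕ → Finset ℕ) (hS : ∀ n, S n = ∑ a ∈ A n, (1 / a : ℝ))
    (h1 : ∀ n, ∀ a ∈ A n, a < n ∧ ∃ p, p.Prime ∧ p ≤ a ∧ p ∣ n - a)
    (h2 : ∀ n, ∀ a ∈ A n, ∀ b ∈ A n, a ≠ b → Nat.Coprime (n - a) (n - b)) :
    ¬ Filter.Tendsto S Filter.atTop Filter.atTop := by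
  intro h
  obtain ⟨N0, hN0⟩ := Filter.eventually_atTop.1 (h.eventually_ge_atTop 200)
  set N := max N0 21 with hN
  have hN1 : N0 ≤ N := le_max_left _ _
  have hN2 : 21 ≤ N := le_max_right _ _
  have hNr : (21 : ℝ) ≤ N := by exact_mod_cast hN2
  have hl3 : 3 ≤ Real.log N := by
    rw [Real.le_log_iff_exp_le (by linarith)]
    have h := Real.exp_one_lt_d9
    have e : Real.exp 3 = Real.exp 1 ^ 3 := by rw [← Real.exp_nat_mul]; norm_num
    rw [e]
    calc Real.exp 1 ^ 3 ≤ (2.7182818286 : ℝ) ^ 3 := by gcongr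
      _ ≤ 21 := by norm_num
      _ ≤ N := hNr
  have hav := average (Ioc N (N ^ 2)) (N ^ 2) fun n hn => (mem_Ioc.1 hn).2
  have hlow : ∑ n ∈ Ioc N (N ^ 2), (1 / n : ℝ) * 167 ≤
      ∑ n ∈ Ioc N (N ^ 2), (1 / n : ℝ) * T (N ^ 2) n := by
    refine sum_le_sum fun n hn => ?_
    rw [mem_Ioc] at hn
    have a1 := pointwise (A n) n (N ^ 2) hn.2 (h1 n) (h2 n)
    have a2 := hN0 n (by omega)
    rw [hS] at a2
    gcongr
    linarith
  have hW : Real.log N - 1 ≤ ∑ n ∈ Ioc N (N ^ 2), (1 / n : ℝ) := by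
    have e2 : Icc 1 (N ^ 2) = Icc 1 N ∪ Ioc N (N ^ 2) := by
      have : N ≤ N ^ 2 := by nlinarith
      ext x; simp only [mem_union, mem_Icc, mem_Ioc]; omega
    have hdisj : Disjoint (Icc 1 N) (Ioc N (N ^ 2)) := by
      rw [disjoint_left]
      intro x h1 h2
      have := mem_Icc.1 h1
      have := mem_Ioc.1 h2
      omega
    have b1 := harm_lo (N ^ 2)
    rw [e2, sum_union hdisj] at b1
    have b2 := harm_up N
    have b3 : Real.log ((N ^ 2 : ℕ) : ℝ) ≤ Real.log (((N ^ 2 : ℕ) : ℝ) + 1) :=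
      Real.log_le_log (by positivity) (by linarith)
    push_cast at b3 b1
    rw [Real.log_pow] at b3
    push_cast at b3
    linarith
  rw [← sum_mul] at hlow
  push_cast at hav
  rw [Real.log_pow] at hav
  push_cast at hav
  nlinarith

end Pool.Agent.H52.Rough
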