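import Mathlib
import Pool.Agent.H52.Rough

set_option autoImplicit false
open Finset

namespace Pool.Agent.H52.Lambert

lemma count_dvd (U c Q d : ℕ) (hd : 0 < d) (hc : Nat.Coprime c Q) :
    (((range U).filter (fun t => d ∣ c + Q * t)).card : ℝ) ≤ U / d + 1 := by
  have h1 : ((range U).filter (fun t => d ∣ c + Q * t)).card ≤ (range (U / d + 1)).card := by
    apply card_le_card_of_injOn (fun t => t / d)
    · intro t ht
      have := mem_range.1 (mem_filter.1 ht).1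
      have := Nat.div_le_div_right (c := d) this.le
      simp only [coe_range, Set.mem_Iio]
      omega
    · intro t ht t' ht' he
      have a1 := (mem_filter.1 ht).2
      have a2 := (mem_filter.1 ht').2
      have hcop : Nat.Coprime d Q := by
        apply Nat.coprime_of_dvd
        intro p hp h1 h2
        have h3 : p ∣ c := (Nat.dvd_add_left (h2.mul_right t)).1 (h1.trans a1)
        exact hp.one_lt.ne' (Nat.eq_one_of_dvd_coprimes hc h3 h2)
      have hm : c + Q * t ≡ c + Q * t' [MOD d] :=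
        ((Nat.modEq_zero_iff_dvd).2 a1).trans ((Nat.modEq_zero_iff_dvd).2 a2).symm
      have hm2 : t ≡ t' [MOD d] :=
        Nat.ModEq.cancel_left_of_coprime hcop (Nat.ModEq.add_left_cancel' c hm)
      simp only at he
      rw [← Nat.div_add_mod t d, ← Nat.div_add_mod t' d, he, hm2]
  rw [card_range] at h1
  have h2 : ((U / d : ℕ) : ℝ) ≤ U / d := Nat.cast_div_le
  have h3 : (((range U).filter (fun t => d ∣ c + Q * t)).card : ℝ) ≤ ((U / d + 1 : ℕ) : ℝ) := by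
    exact_mod_cast h1
  push_cast at h3
  linarith

lemma tau_le (x D : ℕ) (hx : 0 < x) (hD : x ≤ D ^ 2) :
    x.divisors.card ≤ 2 * ((Icc 1 D).filter (fun d => d ∣ x)).card := by
  rw [← card_filter_add_card_filter_not (s := x.divisors) (fun d => d ≤ D), two_mul]
  apply add_le_add
  · apply card_le_card
    intro d hd
    obtain ⟨h1, h2⟩ := mem_filter.1 hd
    simp only [mem_filter, mem_Icc]
    exact ⟨⟨Nat.pos_of_mem_divisors h1, h2⟩, Nat.dvd_of_mem_divisors h1⟩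
  · apply card_le_card_of_injOn (fun d => x / d)
    · intro d hd
      obtain ⟨h1, h2⟩ := mem_filter.1 hd
      obtain ⟨e, he⟩ := Nat.dvd_of_mem_divisors h1
      have hd0 := Nat.pos_of_mem_divisors h1
      have e1 : x / d = e := by rw [he]; exact Nat.mul_div_cancel_left _ hd0
      simp only [coe_filter, mem_Icc, Set.mem_ofPred_eq, e1]
      refine ⟨⟨?_, ?_⟩, Dvd.intro_left _ he.symm⟩
      · rcases Nat.eq_zero_or_pos e with rfl | h
        · omega
        · exact h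
      · by_contra h
        nlinarith
    · intro d hd d' hd' he
      have a1 := Nat.dvd_of_mem_divisors (mem_filter.1 hd).1
      have a2 := Nat.dvd_of_mem_divisors (mem_filter.1 hd').1
      simp only at he
      rw [← Nat.div_div_self a1 hx.ne', he, Nat.div_div_self a2 hx.ne']

lemma tau_avg (U c Q D : ℕ) (hc0 : 0 < c) (hc : Nat.Coprime c Q) (hD : c + Q * U ≤ D ^ 2) :
    ∑ t ∈ range U, ((c + Q * t).divisors.card : ℝ) ≤ 2 * (U * (1 + Real.log D) + D) := by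
  calc ∑ t ∈ range U, ((c + Q * t).divisors.card : ℝ)
      ≤ ∑ t ∈ range U, 2 * ∑ d ∈ Icc 1 D, (if d ∣ c + Q * t then (1 : ℝ) else 0) := by
        refine sum_le_sum fun t ht => ?_
        have h1 : Q * t ≤ Q * U := Nat.mul_le_mul_left _ (mem_range.1 ht).le
        have := tau_le (c + Q * t) D (by omega) (by omega)
        rw [sum_boole]
        exact_mod_cast this
    _ = 2 * ∑ d ∈ Icc 1 D, (((range U).filter (fun t => d ∣ c + Q * t)).card : ℝ) := by
        rw [← mul_sum, sum_comm]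
        simp only [sum_boole]
    _ ≤ 2 * ∑ d ∈ Icc 1 D, (U * (1 / d : ℝ) + 1) := by
        gcongr with d hd
        have := count_dvd U c Q d (mem_Icc.1 hd).1 hc
        rw [mul_one_div]; exact this
    _ ≤ _ := by
        rw [sum_add_distrib, ← mul_sum, sum_const, Nat.card_Icc]
        have := Rough.harm_up D
        simp only [Nat.add_sub_cancel, nsmul_eq_mul, mul_one]
        gcongr

lemma exists_P (k Y J : ℕ) (hY : 0 < Y) : ∃ P : ℕ, 0 < P ∧ (P ^ k).divisors.card = (k + 1) ^ J ∧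
    (∀ p, p.Prime → p ∣ P → Y < p ∧ p ≤ 2 ^ J * Y) ∧ P ≤ (2 ^ J * Y) ^ J := by
  induction J with
  | zero => exact ⟨1, one_pos, by simp, fun p hp h => absurd (Nat.dvd_one.1 h) hp.ne_one, by simp⟩
  | succ J ih =>
    obtain ⟨P, h0, h1, h2, h3⟩ := ih
    obtain ⟨q, hq, a1, a2⟩ := Nat.exists_prime_lt_and_le_two_mul (2 ^ J * Y) (by positivity)
    have hle : Y ≤ 2 ^ J * Y := Nat.le_mul_of_pos_left _ (by positivity)
    have e : 2 ^ (J + 1) * Y = 2 * (2 ^ J * Y) := by ring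
    have hcop : Nat.Coprime P q := by
      rw [Nat.coprime_comm, hq.coprime_iff_not_dvd]
      intro h
      have := (h2 q hq h).2
      omega
    refine ⟨P * q, Nat.mul_pos h0 hq.pos, ?_, ?_, ?_⟩
    · rw [mul_pow, Nat.Coprime.card_divisors_mul (Nat.Coprime.pow _ _ hcop), h1,
        Nat.divisors_prime_pow hq, card_map, card_range, pow_succ]
    · intro p hp hd
      rcases (Nat.Prime.dvd_mul hp).1 hd with h | h
      · have := h2 p hp h
        omega
      · rw [(Nat.prime_dvd_prime_iff_eq hp hq).1 h]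
        omega
    · rw [pow_succ (2 ^ (J + 1) * Y)]
      apply Nat.mul_le_mul _ (by omega)
      exact h3.trans (Nat.pow_le_pow_left (by omega) _)

lemma exists_Q (k Y J : ℕ) (hJ : J ≤ Y) (hY : 0 < Y) (hY2 : Y ≤ 2 ^ (J * J)) :
    ∃ Q r : ℕ, 0 < Q ∧ r < Q ∧ Q ≤ 2 ^ (2 * (k + 2) * J ^ 4) ∧
      (∀ t, ∀ j < J, (k + 2) ^ J ∣ (r + Q * t + j + 1).divisors.card) ∧
      (∀ i, J ≤ i → i < Y → Nat.Coprime (r + i + 1) Q) := by
  choose P h0 h1 h2 h3 using fun j => exists_P (k + 1) (2 ^ (J * j) * Y) J (by positivity)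
  have hcop : ∀ a b, a < b → Nat.Coprime (P a) (P b) := by
    intro a b hab
    apply Nat.coprime_of_dvd
    intro p hp d1 d2
    have e1 := (h2 a p hp d1).2
    have e2 := (h2 b p hp d2).1
    have : 2 ^ J * (2 ^ (J * a) * Y) ≤ 2 ^ (J * b) * Y := by
      rw [← mul_assoc, ← pow_add]
      apply Nat.mul_le_mul_right
      apply Nat.pow_le_pow_right (by norm_num)
      nlinarith
    omega
  have hpw : Set.Pairwise (↑(range J) : Set ℕ)
      (Function.onFun Nat.Coprime (fun j => P j ^ (k + 2))) := by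
    intro a _ b _ hab
    rcases lt_or_gt_of_ne hab with h | h
    · exact Nat.Coprime.pow _ _ (hcop a b h)
    · exact Nat.Coprime.pow _ _ (hcop b a h).symm
  have hne : ∀ j ∈ range J, P j ^ (k + 2) ≠ 0 := fun j _ => (pow_pos (h0 j) _).ne'
  set r := Nat.chineseRemainderOfFinset
    (fun j => P j ^ (k + 1) + (j + 1) * (P j ^ (k + 2) - 1)) (fun j => P j ^ (k + 2))
    (range J) hne hpw with hr
  have hr1 : ∀ j < J, r.1 + j + 1 ≡ P j ^ (k + 1) [MOD P j ^ (k + 2)] := by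
    intro j hj
    have a := (r.2 j (mem_range.2 hj)).add_right (j + 1)
    obtain ⟨w, hw⟩ : ∃ w, P j ^ (k + 2) = w + 1 := ⟨P j ^ (k + 2) - 1, by
      have := pow_pos (h0 j) (k + 2)
      omega⟩
    rw [add_assoc]
    refine a.trans ?_
    rw [hw, Nat.add_sub_cancel]
    have : P j ^ (k + 1) + (j + 1) * w + (j + 1) = P j ^ (k + 1) + (w + 1) * (j + 1) := by ring
    rw [this]
    exact Nat.add_mul_mod_self_left _ _ _
  refine ⟨∏ j ∈ range J, P j ^ (k + 2), r.1, prod_pos fun j _ => pow_pos (h0 j) _,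
    Nat.chineseRemainderOfFinset_lt_prod _ _ hne hpw, ?_, ?_, ?_⟩
  · calc ∏ j ∈ range J, P j ^ (k + 2) ≤ (2 ^ (2 * (k + 2) * J ^ 3)) ^ (range J).card := by
          apply prod_le_pow_card
          intro j hj
          have hj := mem_range.1 hj
          have b1 : 2 ^ J * (2 ^ (J * j) * Y) ≤ 2 ^ (2 * J ^ 2) := by
            calc 2 ^ J * (2 ^ (J * j) * Y) ≤ 2 ^ J * (2 ^ (J * j) * 2 ^ (J * J)) := by gcongr
              _ = 2 ^ (J + J * j + J * J) := by rw [← pow_add, ← pow_add, add_assoc]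
              _ ≤ _ := Nat.pow_le_pow_right (by norm_num) (by nlinarith)
          calc P j ^ (k + 2) ≤ ((2 ^ (2 * J ^ 2)) ^ J) ^ (k + 2) :=
                Nat.pow_le_pow_left ((h3 j).trans (Nat.pow_le_pow_left b1 _)) _
            _ = _ := by rw [← pow_mul, ← pow_mul]; congr 1; ring
      _ = _ := by rw [card_range, ← pow_mul]; congr 1; ring
  · intro t j hj
    have hd : P j ^ (k + 2) ∣ ∏ j ∈ range J, P j ^ (k + 2) :=
      dvd_prod_of_mem (fun j => P j ^ (k + 2)) (mem_range.2 hj)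
    have a : r.1 + (∏ j ∈ range J, P j ^ (k + 2)) * t + j + 1 ≡ P j ^ (k + 1)
        [MOD P j ^ (k + 2)] := by
      have b := (hr1 j hj).add (((Nat.modEq_zero_iff_dvd).2 (hd.mul_right t)))
      rw [add_zero] at b
      convert b using 1
      ring
    set x := r.1 + (∏ j ∈ range J, P j ^ (k + 2)) * t + j + 1 with hx
    have d1 : P j ^ (k + 1) ∣ x :=
      (a.dvd_iff (pow_dvd_pow _ (by omega))).2 dvd_rfl
    obtain ⟨s, hs⟩ := d1
    have a2 : s ≡ 1 [MOD P j] := by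
      rw [hs, pow_succ (P j) (k + 1)] at a
      have a3 : P j ^ (k + 1) * s ≡ P j ^ (k + 1) * 1 [MOD P j ^ (k + 1) * P j] := by
        rw [mul_one]; exact a
      exact Nat.ModEq.mul_left_cancel' (pow_pos (h0 j) _).ne' a3
    have hc : Nat.Coprime (P j ^ (k + 1)) s := by
      apply Nat.Coprime.pow_left
      have := a2.gcd_eq
      rw [Nat.gcd_one_left] at this
      exact Nat.Coprime.symm this
    rw [hs, Nat.Coprime.card_divisors_mul hc, h1 j]
    exact Dvd.intro _ rfl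
  · intro i hi1 hi2
    apply Nat.coprime_of_dvd
    intro p hp d1 d2
    obtain ⟨j, hj, d3⟩ := (Prime.dvd_finsetProd_iff hp.prime _).1 d2
    have hj := mem_range.1 hj
    have d4 := hp.dvd_of_dvd_pow d3
    have d5 : p ∣ r.1 + j + 1 := ((hr1 j hj).dvd_iff d3).2 (d4.trans (dvd_pow_self _ (by omega)))
    have d6 := Nat.dvd_sub d1 d5
    have b1 := (h2 j p hp d4).1
    have b2 : Y ≤ 2 ^ (J * j) * Y := Nat.le_mul_of_pos_left _ (by positivity)
    have := Nat.le_of_dvd (by omega) d6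
    omega

/-- The tail sum. -/
noncomputable def S (k m : ℕ) : ℝ :=
  ∑' j : ℕ, ((m + j + 1).divisors.card : ℝ) * (1 / k : ℝ) ^ (j + 1)

lemma hs (m : ℕ) : HasSum (fun j : ℕ => ((m : ℝ) + j + 1) * (1 / 2 : ℝ) ^ (j + 1)) (m + 2) := by
  have h1 := hasSum_coe_mul_geometric_of_norm_lt_one (r := (1 / 2 : ℝ)) (by norm_num)
  have h2 := hasSum_geometric_two
  have := (h1.mul_left (1 / 2)).add (h2.mul_left (((m : ℝ) + 1) / 2))
  have e1 : (fun j : ℕ => ((m : ℝ) + j + 1) * (1 / 2 : ℝ) ^ (j + 1)) = fun b : ℕ =>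
      1 / 2 * ((b : ℝ) * (1 / 2) ^ b) + ((m : ℝ) + 1) / 2 * (1 / 2) ^ b := by
    ext j; ring
  have e2 : (m : ℝ) + 2 = 1 / 2 * (1 / 2 / (1 - 1 / 2) ^ 2) + ((m : ℝ) + 1) / 2 * 2 := by
    norm_num; ring
  rw [e1, e2]
  exact this

lemma term_le (k m j : ℕ) (hk : 2 ≤ k) :
    ((m + j + 1).divisors.card : ℝ) * (1 / k : ℝ) ^ (j + 1) ≤
      ((m : ℝ) + j + 1) * (1 / 2 : ℝ) ^ (j + 1) := by
  have h1 : ((m + j + 1).divisors.card : ℝ) ≤ (m : ℝ) + j + 1 := by
    exact_mod_cast Nat.card_divisors_le_self _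
  have h2 : (2 : ℝ) ≤ k := by exact_mod_cast hk
  gcongr

lemma summ (k m : ℕ) (hk : 2 ≤ k) :
    Summable (fun j : ℕ => ((m + j + 1).divisors.card : ℝ) * (1 / k : ℝ) ^ (j + 1)) :=
  Summable.of_nonneg_of_le (fun j => by positivity) (fun j => term_le k m j hk) (hs m).summable

lemma S_le (k m : ℕ) (hk : 2 ≤ k) : S k m ≤ m + 2 := by
  rw [← (hs m).tsum_eq]
  exact (summ k m hk).tsum_le_tsum (fun j => term_le k m j hk) (hs m).summable

lemma S_nonneg (k m : ℕ) : 0 ≤ S k m := tsum_nonneg fun j => by positivity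

lemma S_split (k m J : ℕ) (hk : 2 ≤ k) : S k m =
    ∑ j ∈ range J, ((m + j + 1).divisors.card : ℝ) * (1 / k : ℝ) ^ (j + 1)
      + (1 / k : ℝ) ^ J * S k (m + J) := by
  rw [S, ← (summ k m hk).sum_add_tsum_nat_add J, S, ← tsum_mul_left]
  congr 2
  ext j
  rw [show m + (j + J) + 1 = m + J + j + 1 by ring]
  ring

lemma S_ge (k m : ℕ) (hk : 2 ≤ k) : 1 / k ≤ S k m := by
  rw [S_split k m 1 hk]
  have h1 : (1 : ℝ) ≤ ((m + 0 + 1).divisors.card : ℝ) := by
    have : 0 < (m + 0 + 1).divisors.card := card_pos.2 ⟨1, by simp⟩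
    exact_mod_cast this
  have h2 := S_nonneg k (m + 1)
  have h3 : (0 : ℝ) < 1 / k := by
    have : (0 : ℝ) < k := by exact_mod_cast (by omega : 0 < k)
    positivity
  simp only [sum_range_one, zero_add, pow_one]
  nlinarith [mul_nonneg h3.le h2]

lemma S_int (k m : ℕ) (hk : 2 ≤ k) : ∃ z : ℤ, (k : ℝ) ^ m * S k 0 = z + S k m := by
  have hk0 : (k : ℝ) ≠ 0 := by exact_mod_cast (by omega : k ≠ 0)
  induction m with
  | zero => exact ⟨0, by simp⟩
  | succ m ih =>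
    obtain ⟨z, hz⟩ := ih
    refine ⟨k * z + (m + 1).divisors.card, ?_⟩
    rw [pow_succ', mul_assoc, hz, S_split k m 1 hk]
    simp only [sum_range_one, zero_add, pow_one, add_zero]
    push_cast
    field_simp
    ring

lemma fract_eq (k m J : ℕ) (hk : 2 ≤ k) (h : ∀ j < J, k ^ J ∣ (m + j + 1).divisors.card)
    (h2 : (1 / k : ℝ) ^ J * S k (m + J) < 1) :
    Int.fract ((k : ℝ) ^ m * S k 0) = (1 / k : ℝ) ^ J * S k (m + J) := by
  have hk0 : (k : ℝ) ≠ 0 := by exact_mod_cast (by omega : k ≠ 0)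
  obtain ⟨z, hz⟩ := S_int k m hk
  rw [Int.fract_eq_iff]
  refine ⟨mul_nonneg (by positivity) (S_nonneg _ _), h2,
    z + ∑ j ∈ range J, (((m + j + 1).divisors.card / k ^ (j + 1) : ℕ) : ℤ), ?_⟩
  rw [hz, S_split k m J hk]
  have : ∑ j ∈ range J, ((m + j + 1).divisors.card : ℝ) * (1 / k : ℝ) ^ (j + 1) =
      ∑ j ∈ range J, (((m + j + 1).divisors.card / k ^ (j + 1) : ℕ) : ℝ) := by
    refine sum_congr rfl fun j hj => ?_
    have hj := mem_range.1 hj
    rw [Nat.cast_div ((pow_dvd_pow _ (by omega)).trans (h j hj)) (by positivity)]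
    push_cast
    rw [one_div, inv_pow, div_eq_mul_inv]
  rw [this, Int.cast_add, Int.cast_sum]
  simp only [Int.cast_natCast]
  ring

lemma choose_J (k C : ℕ) (ε : ℝ) (hε : 0 < ε) : ∃ J : ℕ, 6 ≤ J ∧ 4 * k + 2 ≤ J ∧
    (1 / 2 : ℝ) ^ J * (2 * (1 + 2 * C + 2 * k * J ^ 4) + (C ^ 2 + 2)) < ε := by
  have h1 := tendsto_pow_const_div_const_pow_of_one_lt 4 (r := 2) (by norm_num)
  have h2 := tendsto_pow_atTop_nhds_zero_of_lt_one (r := (1 / 2 : ℝ)) (by norm_num) (by norm_num)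
  have h3 := (h1.const_mul (4 * k : ℝ)).add (h2.const_mul (2 * (1 + 2 * C) + (C ^ 2 + 2) : ℝ))
  simp only [mul_zero, add_zero] at h3
  obtain ⟨J, hJ, a, b⟩ := ((h3.eventually (gt_mem_nhds hε)).and
    ((Filter.eventually_ge_atTop 6).and (Filter.eventually_ge_atTop (4 * k + 2)))).exists
  refine ⟨J, a, b, ?_⟩
  refine lt_of_eq_of_lt ?_ hJ
  rw [one_div, inv_pow]
  field_simp
  ring

lemma six_le (J : ℕ) (hJ : 6 ≤ J) : J ^ 6 ≤ 2 ^ (J * J) := by
  have h1 : J ≤ 2 ^ J := Nat.lt_two_pow_self.le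
  calc J ^ 6 ≤ (2 ^ J) ^ 6 := Nat.pow_le_pow_left h1 _
    _ = 2 ^ (J * 6) := by rw [← pow_mul]
    _ ≤ _ := Nat.pow_le_pow_right (by norm_num) (Nat.mul_le_mul_left _ hJ)

/-- The Erdos type lemma, in every interval. -/
theorem erdos (k C : ℕ) (hk : 2 ≤ k) (ε : ℝ) (hε : 0 < ε) (hε1 : ε ≤ 1) :
    ∃ J H : ℕ, J + 1 ≤ H ∧ ∀ n ≤ C * H, ∃ m, n ≤ m ∧ m ≤ n + H ∧
      (1 / k : ℝ) ^ (J + 1) ≤ Int.fract ((k : ℝ) ^ m * S k 0) ∧
      Int.fract ((k : ℝ) ^ m * S k 0) < ε := by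
  obtain ⟨J, hJ6, hJk, hJ⟩ := choose_J k (2 * C + 4) ε hε
  obtain ⟨k', rfl⟩ : ∃ k', k = k' + 2 := ⟨k - 2, by omega⟩
  have hJY : J ≤ J ^ 6 := Nat.le_self_pow (by norm_num) _
  obtain ⟨Q, r, hQ, hr, hQB, hdiv, hcop⟩ := exists_Q k' (J ^ 6) J hJY (by positivity) (six_le J hJ6)
  set B := 2 ^ (2 * (k' + 2) * J ^ 4) with hB
  have hYB : J ^ 6 ≤ B := by
    refine (six_le J hJ6).trans (Nat.pow_le_pow_right (by norm_num) ?_)
    have : J * J ≤ J ^ 4 := by
      rw [← pow_two]; exact Nat.pow_le_pow_right (by omega) (by norm_num)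
    nlinarith
  have hB2 : 2 ≤ B := by omega
  have hJB : J + 1 ≤ B := by
    have : J ^ 1 < J ^ 6 := Nat.pow_lt_pow_right (by omega) (by norm_num)
    rw [pow_one] at this
    omega
  refine ⟨J, 2 * B ^ 2, by nlinarith, fun n hn => ?_⟩
  set D := (2 * C + 4) * B with hD
  set m0 := r + Q * (n / Q + 1) with hm0
  have hm1 : n ≤ m0 := by
    have := Nat.lt_mul_div_succ n hQ
    omega
  have hm2 : m0 ≤ n + 2 * B := by
    have := Nat.mul_div_le n Q
    rw [hm0, mul_add]; omega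
  have hQB2 : Q * B ≤ B ^ 2 := by nlinarith
  have hX : m0 + J ^ 6 + Q * B ≤ D ^ 2 := by
    have : D ^ 2 = (4 * C ^ 2 + 16 * C + 16) * B ^ 2 := by rw [hD]; ring
    nlinarith
  have hkr : (2 : ℝ) ≤ ((k' + 2 : ℕ) : ℝ) := by exact_mod_cast hk
  set ρ : ℝ := 1 / ((k' + 2 : ℕ) : ℝ) with hρ
  have hρ0 : 0 < ρ := by positivity
  have hρ2 : ρ ≤ 1 / 2 := by rw [hρ]; gcongr
  set K : ℝ := 2 * (1 + 2 * ((2 * C + 4 : ℕ) : ℝ) + 2 * ((k' + 2 : ℕ) : ℝ) * J ^ 4) with hK
  have hBr : (0 : ℝ) < B := by exact_mod_cast (by omega : 0 < B)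
  have hlog : Real.log D ≤ ((2 * C + 4 : ℕ) : ℝ) + 2 * ((k' + 2 : ℕ) : ℝ) * J ^ 4 := by
    have h1 : (0 : ℝ) < ((2 * C + 4 : ℕ) : ℝ) := by positivity
    have h2 := Real.log_le_sub_one_of_pos h1
    have h3 : Real.log B = 2 * ((k' + 2 : ℕ) : ℝ) * J ^ 4 * Real.log 2 := by
      rw [hB, Nat.cast_pow, Real.log_pow]; push_cast; ring
    have h4 := Real.log_two_lt_d9
    have h5 : (0 : ℝ) ≤ 2 * ((k' + 2 : ℕ) : ℝ) * J ^ 4 := by positivity
    rw [hD, Nat.cast_mul, Real.log_mul h1.ne' hBr.ne', h3]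
    nlinarith
  have hK0 : 0 ≤ K := by positivity
  have hsum : ∑ t ∈ range B, ∑ i ∈ range (J ^ 6 - J),
      ((m0 + Q * t + J + i + 1).divisors.card : ℝ) * ρ ^ (i + 1) ≤ ∑ t ∈ range B, K := by
    rw [sum_comm, sum_const, card_range, nsmul_eq_mul]
    calc _ ≤ ∑ i ∈ range (J ^ 6 - J), (B * K) * (1 / 2 : ℝ) ^ (i + 1) := by
          refine sum_le_sum fun i hi => ?_
          have hi := mem_range.1 hi
          rw [← sum_mul]
          have hc : Nat.Coprime (m0 + J + i + 1) Q := by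
            have := hcop (J + i) (by omega) (by omega)
            have e : m0 + J + i + 1 = r + (J + i) + 1 + Q * (n / Q + 1) := by rw [hm0]; ring
            rw [e]
            exact (Nat.coprime_add_mul_left_left _ _ _).2 this
          have h1 := tau_avg B (m0 + J + i + 1) Q D (by omega) hc (by omega)
          have h2 : ∑ t ∈ range B, ((m0 + Q * t + J + i + 1).divisors.card : ℝ) ≤ B * K := by
            have e : ∀ t, m0 + Q * t + J + i + 1 = m0 + J + i + 1 + Q * t := fun t => by ring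
            simp only [e]
            refine h1.trans ?_
            have h3 : (D : ℝ) = ((2 * C + 4 : ℕ) : ℝ) * B := by rw [hD, Nat.cast_mul]
            rw [hK]
            nlinarith
          gcongr
      _ ≤ B * K := by
          rw [← mul_sum]
          have h1 : ∑ i ∈ range (J ^ 6 - J), (1 / 2 : ℝ) ^ (i + 1) ≤ 1 := by
            have := sum_geometric_two_le (J ^ 6 - J)
            simp only [pow_succ (1 / 2 : ℝ), ← sum_mul]
            linarith
          have h2 : 0 ≤ (B : ℝ) * K := by positivity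
          nlinarith
  obtain ⟨t, ht, hle⟩ := exists_le_of_sum_le (nonempty_range_iff.2 (by omega)) hsum
  have ht := mem_range.1 ht
  have hQt : Q * t + Q ≤ Q * B := by nlinarith
  have hS : S (k' + 2) (m0 + Q * t + J) ≤ K + (((2 * C + 4 : ℕ) : ℝ) ^ 2 + 2) := by
    rw [S_split _ _ (J ^ 6 - J) hk]
    refine add_le_add hle ?_
    have h1 := S_le (k' + 2) (m0 + Q * t + J + (J ^ 6 - J)) hk
    have h2 : ((m0 + Q * t + J + (J ^ 6 - J) : ℕ) : ℝ) ≤ ((D ^ 2 : ℕ) : ℝ) := by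
      exact_mod_cast (by omega : m0 + Q * t + J + (J ^ 6 - J) ≤ D ^ 2)
    have h3 : B ^ 2 ≤ 2 ^ (J ^ 6 - J) := by
      rw [hB, ← pow_mul]
      apply Nat.pow_le_pow_right (by norm_num)
      have a1 : J ≤ J ^ 4 := Nat.le_self_pow (by norm_num) _
      have a2 : J ^ 6 = J * J * J ^ 4 := by ring
      have a3 : (4 * (k' + 2) + 1) * J ^ 4 ≤ J * J * J ^ 4 :=
        Nat.mul_le_mul_right _ (by nlinarith)
      have a4 : 2 * (k' + 2) * J ^ 4 * 2 + J ^ 4 = (4 * (k' + 2) + 1) * J ^ 4 := by ring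
      omega
    have h4 : (B : ℝ) ^ 2 ≤ 2 ^ (J ^ 6 - J) := by exact_mod_cast h3
    have h5 : ρ ^ (J ^ 6 - J) ≤ 1 / (B : ℝ) ^ 2 := by
      calc ρ ^ (J ^ 6 - J) ≤ (1 / 2 : ℝ) ^ (J ^ 6 - J) := by gcongr
        _ = 1 / 2 ^ (J ^ 6 - J) := by rw [one_div, inv_pow, one_div]
        _ ≤ _ := by gcongr
    have h6 : ((D ^ 2 : ℕ) : ℝ) = ((2 * C + 4 : ℕ) : ℝ) ^ 2 * B ^ 2 := by
      rw [hD]; push_cast; ring
    have h7 : (1 : ℝ) ≤ (B : ℝ) ^ 2 := by
      have : (1 : ℝ) ≤ B := by exact_mod_cast (by omega : 1 ≤ B)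
      nlinarith
    calc _ ≤ 1 / (B : ℝ) ^ 2 * (((2 * C + 4 : ℕ) : ℝ) ^ 2 * B ^ 2 + 2 * B ^ 2) := by
          have := S_nonneg (k' + 2) (m0 + Q * t + J + (J ^ 6 - J))
          gcongr
          linarith
      _ = _ := by field_simp
  have hlt : ρ ^ J * S (k' + 2) (m0 + Q * t + J) < ε := by
    refine lt_of_le_of_lt ?_ hJ
    have := S_nonneg (k' + 2) (m0 + Q * t + J)
    gcongr
  have hfr := fract_eq (k' + 2) (m0 + Q * t) J hk (fun j hj => by
    have := hdiv (n / Q + 1 + t) j hj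
    have e : r + Q * (n / Q + 1 + t) = m0 + Q * t := by rw [hm0]; ring
    rwa [e] at this) (by linarith)
  refine ⟨m0 + Q * t, by omega, by nlinarith, ?_, ?_⟩
  · rw [hfr, pow_succ]
    have := S_ge (k' + 2) (m0 + Q * t + J) hk
    gcongr
  · rw [hfr]; exact hlt

lemma S_zero (k : ℕ) (hk : 2 ≤ k) : ∑' n : ℕ, (1 : ℝ) / ((k : ℝ) ^ (n + 1) - 1) = S k 0 := by
  have hkr : (2 : ℝ) ≤ k := by exact_mod_cast hk
  have hr : ‖(1 / k : ℝ)‖ < 1 := by
    rw [Real.norm_eq_abs, abs_of_pos (by positivity), div_lt_one (by linarith)]; linarith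
  have h := tsum_pow_div_one_sub_eq_tsum_sigma hr 0
  rw [tsum_pnat_eq_tsum_succ (f := fun n : ℕ => (n : ℝ) ^ 0 * (1 / k : ℝ) ^ n / (1 - (1 / k : ℝ) ^ n)),
    tsum_pnat_eq_tsum_succ (f := fun n : ℕ => ((ArithmeticFunction.sigma 0 n : ℕ) : ℝ) * (1 / k : ℝ) ^ n)] at h
  simp only [ArithmeticFunction.sigma_zero_apply] at h
  rw [S]
  simp only [zero_add]
  rw [← h]
  congr 1
  ext n
  have h1 : (1 : ℝ) < (k : ℝ) ^ (n + 1) := one_lt_pow₀ (by linarith) (by omega)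
  have h2 : (k : ℝ) ^ (n + 1) - 1 ≠ 0 := by linarith
  have h3 : (k : ℝ) ^ (n + 1) ≠ 0 := by linarith
  rw [one_div (k : ℝ), inv_pow]
  field_simp

lemma fract_step (k : ℕ) (y : ℝ) (hk : 2 ≤ k) (h : (k : ℝ) * Int.fract y < 1) :
    Int.fract (k * y) = k * Int.fract y := by
  rw [Int.fract_eq_iff]
  refine ⟨mul_nonneg (by positivity) (Int.fract_nonneg _), h, k * ⌊y⌋, ?_⟩
  rw [Int.fract]; push_cast; ring

lemma zeros_of_small (k : ℕ) (hk : 2 ≤ k) (A : ℝ) (m L : ℕ)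
    (h : (k : ℝ) ^ L * Int.fract ((k : ℝ) ^ m * A) < 1) :
    ∀ i < L, ⌊(k : ℝ) * Int.fract ((k : ℝ) ^ (m + i) * A)⌋₊ = 0 := by
  have hkr : (1 : ℝ) ≤ k := by exact_mod_cast (by omega : 1 ≤ k)
  have h0 := Int.fract_nonneg ((k : ℝ) ^ m * A)
  have hb : ∀ i ≤ L, (k : ℝ) ^ i * Int.fract ((k : ℝ) ^ m * A) < 1 := fun i hi =>
    lt_of_le_of_lt (by gcongr) h
  have key : ∀ i ≤ L, Int.fract ((k : ℝ) ^ (m + i) * A) = k ^ i * Int.fract ((k : ℝ) ^ m * A) := by
    intro i hi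
    induction i with
    | zero => simp
    | succ i ih =>
      have e := ih (by omega)
      have e2 := hb (i + 1) hi
      rw [← add_assoc, pow_succ', mul_assoc, fract_step k _ hk, e, pow_succ', mul_assoc]
      rw [e, ← mul_assoc, ← pow_succ']; exact e2
  intro i hi
  rw [key i hi.le, Nat.floor_eq_zero, ← mul_assoc, ← pow_succ']
  exact hb _ hi

lemma small_of_zeros (k : ℕ) (hk : 2 ≤ k) (A : ℝ) (m L : ℕ)
    (h : ∀ i < L, ⌊(k : ℝ) * Int.fract ((k : ℝ) ^ (m + i) * A)⌋₊ = 0) :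
    (k : ℝ) ^ L * Int.fract ((k : ℝ) ^ m * A) < 1 := by
  have key : ∀ i ≤ L, Int.fract ((k : ℝ) ^ (m + i) * A) = k ^ i * Int.fract ((k : ℝ) ^ m * A) := by
    intro i hi
    induction i with
    | zero => simp
    | succ i ih =>
      have e := ih (by omega)
      have e2 := Nat.floor_eq_zero.1 (h i hi)
      rw [← add_assoc, pow_succ', mul_assoc, fract_step k _ hk e2, e, pow_succ', mul_assoc]
  rw [← key L le_rfl]
  exact Int.fract_lt_one _

theorem not_finite_kernel (k : ℕ) (hk : 2 ≤ k) {σ : Type} [Fintype σ] (c : ℕ → σ) (a : ℕ → ℕ)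
    (ha : ∀ n, a n = ⌊(k : ℝ) * Int.fract ((k : ℝ) ^ n * S k 0)⌋₊)
    (hc : ∀ n n', 1 ≤ n → 1 ≤ n' → c n = c n' → ∀ t, ∀ r < k ^ t,
      a (r + k ^ t * n) = a (r + k ^ t * n')) : False := by
  classical
  have hC : ∃ C : ℕ, ∀ n, 1 ≤ n → ∃ n', 1 ≤ n' ∧ n' ≤ C ∧ c n' = c n := by
    have : ∀ s : σ, ∃ x : ℕ, ∀ n, 1 ≤ n → c n = s → 1 ≤ x ∧ c x = s := by
      intro s
      by_cases h : ∃ n, 1 ≤ n ∧ c n = s
      · obtain ⟨n, h1, h2⟩ := h
        exact ⟨n, fun _ _ _ => ⟨h1, h2⟩⟩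
      · exact ⟨0, fun n h1 h2 => absurd ⟨n, h1, h2⟩ h⟩
    choose f hf using this
    exact ⟨univ.sup f, fun n hn => ⟨f (c n), (hf _ n hn rfl).1, le_sup (mem_univ _),
      (hf _ n hn rfl).2⟩⟩
  obtain ⟨C, hC⟩ := hC
  have hkr : (0 : ℝ) < k := by exact_mod_cast (by omega : 0 < k)
  obtain ⟨J, H, hJH, hE⟩ := erdos k (2 * k * C) hk 1 one_pos le_rfl
  set t := Nat.log k (2 * H) + 1 with ht
  have ht1 : 2 * H < k ^ t := Nat.lt_pow_succ_log_self (by omega) _
  have ht2 : k ^ t ≤ k * (2 * H) := by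
    rw [ht, pow_succ']
    exact Nat.mul_le_mul_left _ (Nat.pow_log_le_self k (by omega))
  have hε1 : (1 / k : ℝ) ^ (2 * k ^ t) ≤ 1 := by
    apply pow_le_one₀ (by positivity)
    rw [div_le_one hkr]; exact_mod_cast (by omega : 1 ≤ k)
  obtain ⟨J', H', _, hE'⟩ := erdos k 0 hk ((1 / k : ℝ) ^ (2 * k ^ t)) (by positivity) hε1
  obtain ⟨m, _, _, _, hm⟩ := hE' 0 (by omega)
  have hz := zeros_of_small k hk (S k 0) m (2 * k ^ t) (by
    rw [one_div, inv_pow, ← one_div, lt_div_iff₀ (by positivity), mul_comm] at hm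
    exact hm)
  have hkt : 0 < k ^ t := by omega
  obtain ⟨n', h1, h2, h3⟩ := hC (m / k ^ t + 1) (Nat.le_add_left _ _)
  have b1 := Nat.lt_mul_div_succ m hkt
  have b2 := Nat.mul_div_le m (k ^ t)
  have hz2 : ∀ r < k ^ t, a (r + k ^ t * n') = 0 := by
    intro r hr
    rw [hc n' _ h1 (Nat.le_add_left _ _) h3 t r hr, ha]
    have := hz (r + k ^ t * (m / k ^ t + 1) - m) (by rw [mul_add] at b1 ⊢; omega)
    rwa [Nat.add_sub_cancel' (by omega)] at this
  obtain ⟨m', c1, c2, c3, _⟩ := hE (k ^ t * n') (by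
    calc k ^ t * n' ≤ k * (2 * H) * C := Nat.mul_le_mul ht2 h2
      _ = 2 * k * C * H := by ring)
  have := small_of_zeros k hk (S k 0) m' (J + 1) (fun i hi => by
    have := hz2 (m' + i - k ^ t * n') (by omega)
    rwa [Nat.sub_add_cancel (by omega), ha] at this)
  rw [one_div, inv_pow, ← one_div, div_le_iff₀ (by positivity), mul_comm] at c3
  linarith

end Pool.Agent.H52.Lambert
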