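import Mathlib

set_option autoImplicit false

namespace Pool.Agent.H52.Lamp1

/-- The lamplighter group with lamps in `ZMod 3`. -/
@[ext] structure L where
  c : ℤ → ZMod 3
  i : ℤ
  fin : ∃ M : ℕ, ∀ x : ℤ, (M : ℤ) < |x| → c x = 0

instance : Mul L := ⟨fun g h => ⟨fun x => g.c x + h.c (x - g.i), g.i + h.i, by
  obtain ⟨M, hM⟩ := g.fin
  obtain ⟨N, hN⟩ := h.fin
  refine ⟨M + N + g.i.natAbs, fun x hx => ?_⟩
  have h1 : (M : ℤ) < |x| := by push_cast at hx; have := abs_nonneg g.i; omega
  have h2 : (N : ℤ) < |x - g.i| := by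
    push_cast at hx
    have := abs_sub_abs_le_abs_sub x g.i
    omega
  rw [hM x h1, hN _ h2, add_zero]⟩⟩

instance : One L := ⟨⟨fun _ => 0, 0, ⟨0, fun _ _ => rfl⟩⟩⟩

instance : Inv L := ⟨fun g => ⟨fun x => - g.c (x + g.i), - g.i, by
  obtain ⟨M, hM⟩ := g.fin
  refine ⟨M + g.i.natAbs, fun x hx => ?_⟩
  have h2 : (M : ℤ) < |x + g.i| := by
    push_cast at hx
    have := abs_sub_abs_le_abs_add x g.i
    omega
  rw [hM _ h2, neg_zero]⟩⟩

@[simp] lemma mul_c (g h : L) (x : ℤ) : (g * h).c x = g.c x + h.c (x - g.i) := rfl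
@[simp] lemma mul_i (g h : L) : (g * h).i = g.i + h.i := rfl
@[simp] lemma one_c (x : ℤ) : (1 : L).c x = 0 := rfl
@[simp] lemma one_i : (1 : L).i = 0 := rfl
@[simp] lemma inv_c (g : L) (x : ℤ) : (g⁻¹).c x = - g.c (x + g.i) := rfl
@[simp] lemma inv_i (g : L) : (g⁻¹).i = - g.i := rfl

instance : Group L := Group.ofLeftAxioms
  (fun a b c => by
    ext x
    · simp only [mul_c, mul_i, add_assoc, sub_sub]
    · simp only [mul_i, add_assoc])
  (fun a => by
    ext x
    · simp
    · simp)
  (fun a => by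
    ext x
    · simp
    · simp)

def ga : L := ⟨fun x => if x = 0 then 1 else 0, 0, ⟨0, fun x hx => by
  have : x ≠ 0 := by rintro rfl; simp at hx
  simp [this]⟩⟩

def gt : L := ⟨fun _ => 0, 1, ⟨0, fun _ _ => rfl⟩⟩

open Classical in
noncomputable def S : Finset L := {ga, gt}

def Γ : SimpleGraph L where
  Adj g h := g ≠ h ∧ ∃ s ∈ S, h = g * s ∨ g = h * s
  symm := ⟨fun g h ⟨h1, s, hs, h2⟩ => ⟨h1.symm, s, hs, h2.symm⟩⟩
  loopless := ⟨fun g h => h.1 rfl⟩

lemma ga_mem : ga ∈ S := by classical simp [S]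
lemma gt_mem : gt ∈ S := by classical simp [S]
lemma mem_S {s : L} (h : s ∈ S) : s = ga ∨ s = gt := by classical simpa [S] using h

lemma adj_cases {g h : L} (H : Γ.Adj g h) :
    |g.i - h.i| ≤ 1 ∧ (∀ x, x ≠ g.i → g.c x = h.c x) := by
  obtain ⟨-, s, hs, h2⟩ := H
  rcases mem_S hs with rfl | rfl <;> rcases h2 with rfl | rfl
  · refine ⟨by simp [ga], fun x hx => ?_⟩
    simp [ga, sub_eq_zero, hx]
  · refine ⟨by simp [ga], fun x hx => ?_⟩
    have : x ≠ h.i := by simpa [ga] using hx
    simp [ga, sub_eq_zero, this]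
  · exact ⟨by simp [gt], fun x _ => by simp [gt]⟩
  · exact ⟨by simp [gt], fun x _ => by simp [gt]⟩

lemma adj_move {g h : L} (h1 : g.c = h.c) (h2 : h.i = g.i + 1) : Γ.Adj g h := by
  refine ⟨fun e => by rw [e] at h2; omega, gt, gt_mem, Or.inl ?_⟩
  ext x
  · simp [gt, h1]
  · simp [gt, h2]

lemma adj_move' {g h : L} (h1 : g.c = h.c) (h2 : h.i = g.i + 1 ∨ g.i = h.i + 1) : Γ.Adj g h := by
  rcases h2 with h2 | h2
  · exact adj_move h1 h2
  · exact (adj_move h1.symm h2).symm

lemma z3 : ∀ a b : ZMod 3, a ≠ b → b = a + 1 ∨ a = b + 1 := by decide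

lemma adj_flip {g h : L} (h1 : g.i = h.i) (h2 : ∀ x, x ≠ g.i → g.c x = h.c x)
    (h3 : g.c g.i ≠ h.c g.i) : Γ.Adj g h := by
  refine ⟨fun e => h3 (by rw [e]), ga, ga_mem, ?_⟩
  rcases z3 _ _ h3 with e | e
  · left
    ext x
    · by_cases hx : x = g.i
      · subst hx; simp [ga, e]
      · simp [ga, sub_eq_zero, hx, h2 x hx]
    · simp [ga, h1]
  · right
    ext x
    · by_cases hx : x = g.i
      · subst hx; simp [ga, e, ← h1]
      · have hx' : x ≠ h.i := h1 ▸ hx
        simp [ga, sub_eq_zero, hx', h2 x hx]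
    · simp [ga, h1]

/-- connected inside the set `P`. -/
def Con (P : L → Prop) : L → L → Prop :=
  Relation.ReflTransGen (fun u v => Γ.Adj u v ∧ P u ∧ P v)

lemma Con.symm {P : L → Prop} {a b : L} (h : Con P a b) : Con P b a := by
  induction h with
  | refl => exact Relation.ReflTransGen.refl
  | tail _ h2 ih => exact Relation.ReflTransGen.head ⟨h2.1.symm, h2.2.2, h2.2.1⟩ ih

lemma Con.trans {P : L → Prop} {a b c : L} (h : Con P a b) (h' : Con P b c) : Con P a c :=
  Relation.ReflTransGen.trans h h'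

lemma Con.mono {P Q : L → Prop} (hPQ : ∀ v, P v → Q v) {a b : L} (h : Con P a b) : Con Q a b := by
  induction h with
  | refl => exact Relation.ReflTransGen.refl
  | tail _ h2 ih => exact Relation.ReflTransGen.tail ih ⟨h2.1, hPQ _ h2.2.1, hPQ _ h2.2.2⟩

lemma Con.walk {P : L → Prop} {a b : L} (h : Con P a b) (ha : P a) :
    ∃ p : Γ.Walk a b, ∀ v ∈ p.support, P v := by
  induction h with
  | refl => exact ⟨SimpleGraph.Walk.nil, by simpa using ha⟩
  | tail _ h2 ih =>
    obtain ⟨p, hp⟩ := ih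
    refine ⟨p.concat h2.1, fun v hv => ?_⟩
    rw [SimpleGraph.Walk.support_concat] at hv
    simp only [List.concat_eq_append, List.mem_append, List.mem_singleton] at hv
    rcases hv with hv | rfl
    · exact hp v hv
    · exact h2.2.2

lemma con_move (c : ℤ → ZMod 3) (n : ℕ) : ∀ g h : L, g.c = c → h.c = c → h.i = g.i + n →
    Con (fun v => v.c = c) g h := by
  induction n with
  | zero =>
    intro g h h1 h2 h3
    have : g = h := L.ext (h1.trans h2.symm) (by simpa using h3.symm)
    subst this; exact Relation.ReflTransGen.refl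
  | succ n ih =>
    intro g h h1 h2 h3
    let k : L := ⟨g.c, g.i + n, g.fin⟩
    refine Relation.ReflTransGen.tail (ih g k h1 h1 rfl) ⟨adj_move (h1.trans h2.symm) ?_, h1, h2⟩
    show h.i = g.i + n + 1
    push_cast at h3; omega

lemma con_move' (g h : L) (e : g.c = h.c) : Con (fun v => v.c = g.c) g h := by
  rcases le_total g.i h.i with hle | hle
  · exact con_move g.c (h.i - g.i).toNat g h rfl e.symm (by omega)
  · exact (con_move g.c (g.i - h.i).toNat h g e.symm rfl (by omega)).symm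

def upd (g : L) (x : ℤ) (a : ZMod 3) (j : ℤ) : L := ⟨Function.update g.c x a, j, by
  obtain ⟨M, hM⟩ := g.fin
  refine ⟨M + x.natAbs, fun y hy => ?_⟩
  push_cast at hy
  have h1 : y ≠ x := by rintro rfl; omega
  have := abs_nonneg x
  rw [Function.update_of_ne h1, hM y (by omega)]⟩

lemma con_keep_aux (y : ℤ) (a : ZMod 3) (s : Finset ℤ) : y ∉ s → ∀ g h : L, g.c y = a →
    (∀ x, x ∉ s → g.c x = h.c x) → Con (fun v => v.c y = a) g h := by
  classical
  induction s using Finset.induction_on with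
  | empty =>
    intro _ g h h1 h2
    exact (con_move' g h (funext fun x => h2 x (by simp))).mono (fun v hv => by rw [hv, h1])
  | insert x s hx ih =>
    intro hy g h h1 h2
    have hyx : y ≠ x := by rintro rfl; simp at hy
    have hys : y ∉ s := fun e => hy (Finset.mem_insert_of_mem e)
    let k : L := ⟨g.c, x, g.fin⟩
    let k' : L := upd g x (h.c x) x
    have e1 : Con (fun v => v.c y = a) g k :=
      (con_move' g k rfl).mono (fun v hv => by rw [hv, h1])
    have hk' : k'.c y = a := by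
      show Function.update g.c x (h.c x) y = a
      rw [Function.update_of_ne hyx, h1]
    have e3 : Con (fun v => v.c y = a) k' h := ih hys k' h hk' (fun z hz => by
      show Function.update g.c x (h.c x) z = h.c z
      by_cases hzx : z = x
      · subst hzx; simp
      · rw [Function.update_of_ne hzx]; exact h2 z (by simp [hzx, hz]))
    have e2 : Con (fun v => v.c y = a) k k' := by
      by_cases hc : g.c x = h.c x
      · have : k = k' := L.ext (by
          show g.c = Function.update g.c x (h.c x)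
          rw [← hc]; simp) rfl
        rw [this]; exact Relation.ReflTransGen.refl
      · refine Relation.ReflTransGen.single ⟨adj_flip rfl (fun z hz => ?_) ?_, h1, hk'⟩
        · show g.c z = Function.update g.c x (h.c x) z
          rw [Function.update_of_ne hz]
        · show g.c x ≠ Function.update g.c x (h.c x) x
          simpa using hc
    exact e1.trans (e2.trans e3)

lemma con_keep (y : ℤ) (g h : L) (e : g.c y = h.c y) : Con (fun v => v.c y = g.c y) g h := by
  classical
  obtain ⟨M, hM⟩ := g.fin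
  obtain ⟨N, hN⟩ := h.fin
  refine con_keep_aux y _ ((Finset.Icc (-(M + N : ℤ)) (M + N)).erase y) (by simp) g h rfl
    (fun x hx => ?_)
  by_cases hxy : x = y
  · rw [hxy, e]
  · have : ¬ (-(M + N : ℤ) ≤ x ∧ x ≤ M + N) := by simpa [hxy] using hx
    have h3 : (M + N : ℤ) < |x| := by
      rcases abs_cases x with h | h <;> omega
    rw [hM x (by omega), hN x (by omega)]

lemma con_all (g h : L) : Con (fun _ => True) g h := by
  obtain ⟨M, hM⟩ := g.fin
  obtain ⟨N, hN⟩ := h.fin
  have h3 : |((M : ℤ) + N + 1)| = M + N + 1 := abs_of_nonneg (by positivity)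
  refine (con_keep (M + N + 1) g h ?_).mono (fun _ _ => trivial)
  rw [hM _ (by omega), hN _ (by omega)]

lemma connected : Γ.Connected := by
  have : Nonempty L := ⟨1⟩
  refine ⟨fun g h => ?_⟩
  obtain ⟨p, -⟩ := (con_all g h).walk trivial
  exact ⟨p⟩

lemma closure_S : Subgroup.closure (S : Set L) = ⊤ := by
  rw [eq_top_iff]
  intro g _
  have h := con_all 1 g
  induction h with
  | refl => exact one_mem _
  | tail _ h2 ih =>
    have ih := ih trivial
    obtain ⟨⟨-, s, hs, h3⟩, -⟩ := h2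
    have hs' : s ∈ Subgroup.closure (S : Set L) := Subgroup.subset_closure hs
    rcases h3 with rfl | h3
    · exact mul_mem ih hs'
    · rw [h3] at ih
      exact (Subgroup.mul_mem_cancel_right _ hs').1 ih

lemma box_finite (M : ℕ) :
    {g : L | |g.i| ≤ M ∧ ∀ x : ℤ, (M : ℤ) < |x| → g.c x = 0}.Finite := by
  let φ : L → (Finset.Icc (-(M : ℤ)) M → ZMod 3) × ℤ := fun g => (fun x => g.c x, g.i)
  refine Set.Finite.of_finite_image (f := φ) ?_ ?_
  · refine ((Set.finite_univ (α := Finset.Icc (-(M : ℤ)) M → ZMod 3)).prod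
      (Set.finite_Icc (-(M : ℤ)) M)).subset ?_
    rintro _ ⟨g, hg, rfl⟩
    exact ⟨trivial, abs_le.1 hg.1⟩
  · intro g hg h hh e
    have e1 := congrArg Prod.fst e
    have e2 := congrArg Prod.snd e
    refine L.ext (funext fun x => ?_) e2
    by_cases hx : (M : ℤ) < |x|
    · rw [hg.2 x hx, hh.2 x hx]
    · exact congrFun e1 ⟨x, by simpa [abs_le] using hx⟩

lemma one_end (F : Finset L) : ∃ F' : Finset L, ∀ a b : L, a ∉ F' → b ∉ F' →
    ∃ p : Γ.Walk a b, ∀ v ∈ p.support, v ∉ F := by
  classical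
  have hM : ∃ M : ℕ, ∀ g ∈ F, |g.i| ≤ M ∧ ∀ x : ℤ, (M : ℤ) < |x| → g.c x = 0 := by
    induction F using Finset.induction_on with
    | empty => exact ⟨0, by simp⟩
    | insert g F _ ih =>
      obtain ⟨M, hM⟩ := ih
      obtain ⟨N, hN⟩ := g.fin
      refine ⟨M + N + g.i.natAbs, fun h hh => ?_⟩
      have := abs_nonneg g.i
      rcases Finset.mem_insert.1 hh with rfl | hh
      · exact ⟨by push_cast; omega, fun x hx => hN x (by push_cast at hx; omega)⟩
      · exact ⟨by have := (hM h hh).1; push_cast; omega,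
          fun x hx => (hM h hh).2 x (by push_cast at hx; omega)⟩
  obtain ⟨M, hM⟩ := hM
  let P : L → Prop := fun g => ¬ (|g.i| ≤ M ∧ ∀ x : ℤ, (M : ℤ) < |x| → g.c x = 0)
  have key : ∀ a, P a → ∃ a' : L, ∃ x : ℤ, (M : ℤ) < |x| ∧ a'.c x ≠ 0 ∧ Con P a a' := by
    intro a ha
    by_cases h1 : ∀ x : ℤ, (M : ℤ) < |x| → a.c x = 0
    · have h2 : (M : ℤ) < |a.i| := by
        by_contra h; exact ha ⟨by omega, h1⟩
      have h3 : (upd a a.i 1 a.i).c a.i = 1 := by simp [upd]
      refine ⟨upd a a.i 1 a.i, a.i, h2, by rw [h3]; decide,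
        Relation.ReflTransGen.single ⟨adj_flip rfl (fun z hz => ?_) ?_, ha, fun h => ?_⟩⟩
      · show a.c z = Function.update a.c a.i 1 z
        rw [Function.update_of_ne hz]
      · rw [h3, h1 _ h2]; decide
      · have : |a.i| ≤ M := h.1
        omega
    · push Not at h1
      obtain ⟨x, hx, hx'⟩ := h1
      exact ⟨a, x, hx, hx', Relation.ReflTransGen.refl⟩
  have keep : ∀ (y : ℤ) (g h : L), (M : ℤ) < |y| → g.c y ≠ 0 → g.c y = h.c y → Con P g h :=
    fun y g h hy h0 e => (con_keep y g h e).mono (fun v hv => by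
      intro hP
      exact h0 (hv.symm.trans (hP.2 y hy)))
  refine ⟨(box_finite M).toFinset, fun a b ha hb => ?_⟩
  have ha' : P a := by simpa [P] using ha
  have hb' : P b := by simpa [P] using hb
  obtain ⟨a', x, hx, hx0, ca⟩ := key a ha'
  obtain ⟨b', z, hz, hz0, cb⟩ := key b hb'
  set y : ℤ := |x| + |z| + 1 with hy
  have hy1 : |y| = y := abs_of_nonneg (by positivity)
  have hxy : x ≠ y := by have := le_abs_self x; have := abs_nonneg z; omega
  have hzy : z ≠ y := by have := le_abs_self z; have := abs_nonneg x; omega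
  have hMy : (M : ℤ) < |y| := by have := abs_nonneg z; omega
  have c1 : Con P a' (upd a' y 1 0) := keep x _ _ hx hx0 (by simp [upd, hxy])
  have c2 : Con P (upd a' y 1 0) (upd b' y 1 0) :=
    keep y _ _ hMy (by simp only [upd, Function.update_self]; decide) (by simp [upd])
  have c3 : Con P b' (upd b' y 1 0) := keep z _ _ hz hz0 (by simp [upd, hzy])
  obtain ⟨p, hp⟩ := (ca.trans (c1.trans (c2.trans (c3.symm.trans cb.symm)))).walk ha'
  exact ⟨p, fun v hv hF => hp v hv (hM v hF)⟩

def Close (R : ℕ) (g h : L) : Prop :=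
  |g.i - h.i| ≤ R ∧ ∀ x, (R : ℤ) < |x - g.i| → g.c x = h.c x

lemma close_walk {g h : L} (p : Γ.Walk g h) : Close p.length g h := by
  induction p with
  | nil => exact ⟨by simp, fun _ _ => rfl⟩
  | @cons u v w hadj p ih =>
    obtain ⟨h1, h2⟩ := adj_cases hadj
    obtain ⟨h3, h4⟩ := ih
    rw [SimpleGraph.Walk.length_cons]
    refine ⟨?_, fun x hx => ?_⟩
    · rw [abs_le] at *; push_cast; omega
    · push_cast at hx
      have hx1 : x ≠ u.i := by rintro rfl; simp at hx; omega
      rw [h2 x hx1]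
      refine h4 x ?_
      rw [abs_le] at h1
      rw [lt_abs] at hx ⊢
      omega

lemma close_of_dist {g h : L} {R : ℕ} (H : Γ.dist g h ≤ R) : Close R g h := by
  obtain ⟨p, hp⟩ := (connected.preconnected g h).exists_walk_length_eq_dist
  obtain ⟨h1, h2⟩ := close_walk p
  have : (p.length : ℤ) ≤ R := by exact_mod_cast hp ▸ H
  exact ⟨by omega, fun x hx => h2 x (by omega)⟩

end Pool.Agent.H52.Lamp1
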