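import Mathlib

set_option autoImplicit false

namespace Pool.Agent.H52.Lamp2

def v (N : ℕ) : ℕ := padicValNat 3 N

lemma v_dvd (N : ℕ) : 3 ^ v N ∣ N := pow_padicValNat_dvd

lemma v_not_dvd {N k : ℕ} (hN : N ≠ 0) (hk : v N < k) : ¬ 3 ^ k ∣ N := fun h => by
  have : k ≤ padicValNat 3 N := (padicValNat_dvd_iff_le hN).1 h
  unfold v at hk; omega

def sig (N k : ℕ) : ZMod 3 :=
  if k / 2 < v N / 2 / 2 then 0
  else if k / 2 = v N / 2 / 2 then 1 + ((v N / 2 % 2 : ℕ) : ZMod 3)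
  else ((N / 3 ^ (v N + (k / 2 - v N / 2 / 2 - 1)) : ℕ) : ZMod 3)

def oth (x y : ZMod 3) : ZMod 3 := if x = y then x + 1 else - x - y

lemma oth_ne : ∀ x y : ZMod 3, oth x y ≠ x ∧ oth x y ≠ y := by decide

def a (k p : ℕ) : ZMod 3 :=
  if p % 3 = 0 then sig (3 ^ (k + 1) * p) k
  else if p % 3 = 1 then sig (3 ^ (k + 1) * (p - 1)) k + 1
  else oth (sig (3 ^ (k + 1) * (p - 2)) k + 1) (sig (3 ^ (k + 1) * (p + 1)) k)

lemma z1 : ∀ x : ZMod 3, x ≠ x + 1 := by decide

lemma a_ne (k p : ℕ) : a k p ≠ a k (p + 1) := by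
  have h : p % 3 = 0 ∨ p % 3 = 1 ∨ p % 3 = 2 := by omega
  rcases h with h | h | h
  · have h' : (p + 1) % 3 = 1 := by omega
    simp only [a, h, h', if_true, Nat.add_sub_cancel, one_ne_zero, if_false]
    exact z1 _
  · have h' : (p + 1) % 3 = 2 := by omega
    have e : p + 1 - 2 = p - 1 := by omega
    simp only [a, h, h', e, if_true, one_ne_zero, if_false, OfNat.ofNat_ne_zero, OfNat.ofNat_ne_one]
    exact (oth_ne _ _).1.symm
  · have h' : (p + 1) % 3 = 0 := by omega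
    simp only [a, h, h', if_true, if_false, OfNat.ofNat_ne_zero, OfNat.ofNat_ne_one]
    exact (oth_ne _ _).2

def d (k q : ℕ) : ZMod 3 :=
  if q % 3 = 0 then a k (q / 3)
  else if q % 3 = 1 then - a k (q / 3) - a k (q / 3 + 1)
  else a k (q / 3 + 1)

lemma z2 : ∀ x y : ZMod 3, x ≠ y → x ≠ - x - y ∧ - x - y ≠ y := by decide
lemma z4 : ∀ x y z : ZMod 3, x ≠ y → z = x ∨ z = - x - y ∨ z = y := by decide

lemma d_inj (k q q' : ℕ) (h : q / 3 = q' / 3) (e : d k q = d k q') : q = q' := by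
  have hne := a_ne k (q' / 3)
  obtain ⟨n1, n2⟩ := z2 _ _ hne
  have h1 : q % 3 = 0 ∨ q % 3 = 1 ∨ q % 3 = 2 := by omega
  have h2 : q' % 3 = 0 ∨ q' % 3 = 1 ∨ q' % 3 = 2 := by omega
  unfold d at e
  rw [h] at e
  rcases h1 with h1 | h1 | h1 <;> rcases h2 with h2 | h2 | h2 <;>
    simp only [h1, h2, if_true, if_false, one_ne_zero, OfNat.ofNat_ne_zero,
      OfNat.ofNat_ne_one] at e <;>
    first
      | omega
      | exact absurd e hne
      | exact absurd e.symm hne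
      | exact absurd e n1
      | exact absurd e.symm n1
      | exact absurd e n2
      | exact absurd e.symm n2

lemma d_surj (k p : ℕ) (z : ZMod 3) : ∃ q, q / 3 = p ∧ d k q = z := by
  rcases z4 _ _ z (a_ne k p) with h | h | h
  · refine ⟨3 * p, by omega, ?_⟩
    have e1 : 3 * p % 3 = 0 := by omega
    have e2 : 3 * p / 3 = p := by omega
    simp [d, e1, e2, h]
  · refine ⟨3 * p + 1, by omega, ?_⟩
    have e1 : (3 * p + 1) % 3 = 1 := by omega
    have e2 : (3 * p + 1) / 3 = p := by omega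
    simp [d, e1, e2, h]
  · refine ⟨3 * p + 2, by omega, ?_⟩
    have e1 : (3 * p + 2) % 3 = 2 := by omega
    have e2 : (3 * p + 2) / 3 = p := by omega
    simp [d, e1, e2, h]

/-- symbol at level `k` of the `n`-th state. -/
def C (n k : ℕ) : ZMod 3 := d k (n / 3 ^ k)

lemma div_succ (n k : ℕ) : n / 3 ^ (k + 1) = n / 3 ^ k / 3 := by
  rw [pow_succ, Nat.div_div_eq_div_mul]

lemma C_zero {n k : ℕ} (h : n < 3 ^ k) (hk : 2 ≤ k) : C n k = 0 := by
  have h1 : k / 2 ≠ 0 := by omega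
  simp [C, Nat.div_eq_of_lt h, d, a, sig, v, h1]

lemma lt_pow (n : ℕ) : n < 3 ^ n := Nat.lt_pow_self (by norm_num)

lemma C_inj_aux (n n' s : ℕ) : ∀ L, n / 3 ^ (L + s) = n' / 3 ^ (L + s) →
    (∀ k, L ≤ k → C n k = C n' k) → n / 3 ^ L = n' / 3 ^ L := by
  induction s with
  | zero => intro L h _; simpa using h
  | succ s ih =>
    intro L h h2
    have := ih (L + 1) (by rw [show L + 1 + s = L + (s + 1) by omega]; exact h)
      (fun k hk => h2 k (by omega))
    rw [div_succ, div_succ] at this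
    exact d_inj L _ _ this (h2 L le_rfl)

lemma C_inj {n n' L : ℕ} (h : ∀ k, L ≤ k → C n k = C n' k) : n / 3 ^ L = n' / 3 ^ L := by
  refine C_inj_aux n n' (n + n') L ?_ h
  have h1 : n + n' < 3 ^ (L + (n + n')) :=
    (lt_pow _).trans_le (Nat.pow_le_pow_right (by norm_num) (by omega))
  rw [Nat.div_eq_of_lt (by omega), Nat.div_eq_of_lt (by omega)]

lemma C_surj_aux (x : ℕ → ZMod 3) (K : ℕ) (hK : 2 ≤ K) (hx : ∀ k, K ≤ k → x k = 0) (s : ℕ) :
    s ≤ K → ∃ q, ∀ j, d (K - s + j) (q / 3 ^ j) = x (K - s + j) := by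
  induction s with
  | zero =>
    intro _
    refine ⟨0, fun j => ?_⟩
    have := C_zero (n := 0) (k := K + j) (by positivity) (by omega)
    simp only [C, Nat.zero_div] at this
    simp [this, hx (K + j) (by omega)]
  | succ s ih =>
    intro hs
    obtain ⟨q, hq⟩ := ih (by omega)
    obtain ⟨q', h1, h2⟩ := d_surj (K - (s + 1)) q (x (K - (s + 1)))
    refine ⟨q', fun j => ?_⟩
    rcases j with _ | j
    · simpa using h2
    · have e : K - (s + 1) + (j + 1) = K - s + j := by omega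
      rw [e, pow_succ', ← Nat.div_div_eq_div_mul, h1, hq]

lemma C_surj (x : ℕ → ZMod 3) (K : ℕ) (hx : ∀ k, K ≤ k → x k = 0) : ∃ n, ∀ k, C n k = x k := by
  obtain ⟨q, hq⟩ := C_surj_aux x (K + 2) (by omega) (fun k hk => hx k (by omega)) (K + 2) le_rfl
  exact ⟨q, fun k => by simpa [C] using hq k⟩

lemma C_step_gt {n k : ℕ} (h : v (n + 1) < k) : C n k = C (n + 1) k := by
  have := v_not_dvd (Nat.succ_ne_zero n) h
  simp only [C, Nat.succ_div, this, if_false, add_zero]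

lemma C_step_lt {n k : ℕ} (h : k < v (n + 1)) : C n k = C (n + 1) k := by
  have h1 : 3 ^ (k + 1) ∣ n + 1 := (pow_dvd_pow 3 h).trans (v_dvd _)
  have h2 : 3 ^ k ∣ n + 1 := (pow_dvd_pow 3 (Nat.le_succ k)).trans h1
  have h3 : (n + 1) / 3 ^ k = n / 3 ^ k + 1 := by simp only [Nat.succ_div, h2, if_true]
  have h4 : 3 ∣ (n + 1) / 3 ^ k := by
    obtain ⟨p, hp⟩ := h1
    rw [hp, pow_succ, mul_assoc, Nat.mul_div_cancel_left _ (by positivity)]
    exact dvd_mul_right _ _
  unfold C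
  rw [h3] at h4 ⊢
  generalize n / 3 ^ k = q at *
  have e1 : q % 3 = 2 := by omega
  have e2 : (q + 1) % 3 = 0 := by omega
  have e3 : (q + 1) / 3 = q / 3 + 1 := by omega
  simp [d, e1, e2, e3]

lemma C_step_ne {n k : ℕ} (h : k ≠ v (n + 1)) : C n k = C (n + 1) k := by
  rcases lt_or_gt_of_ne h with h | h
  · exact C_step_lt h
  · exact C_step_gt h

lemma C_step_eq (n : ℕ) : C n (v (n + 1)) ≠ C (n + 1) (v (n + 1)) := by
  intro e
  have h2 := v_dvd (n + 1)
  have h1 := v_not_dvd (Nat.succ_ne_zero n) (Nat.lt_succ_self (v (n + 1)))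
  have h3 : (n + 1) / 3 ^ v (n + 1) = n / 3 ^ v (n + 1) + 1 := by
    simp only [Nat.succ_div, h2, if_true]
  have h4 : (n + 1) / 3 ^ (v (n + 1) + 1) = n / 3 ^ (v (n + 1) + 1) := by
    simp only [Nat.succ_div, h1, if_false, add_zero]
  rw [div_succ, div_succ] at h4
  have := d_inj _ _ _ h4.symm e
  omega

lemma C_sig {N k : ℕ} (h : k + 2 ≤ v N) : C N k = sig N k := by
  obtain ⟨p, hp⟩ : 3 ^ (k + 2) ∣ N := (pow_dvd_pow 3 h).trans (v_dvd _)
  have h1 : N / 3 ^ k = 3 * (3 * p) := by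
    rw [hp, pow_add, mul_assoc, Nat.mul_div_cancel_left _ (by positivity)]; ring
  have e1 : 3 * (3 * p) % 3 = 0 := by omega
  have e2 : 3 * (3 * p) / 3 = 3 * p := by omega
  have e3 : 3 * p % 3 = 0 := by omega
  have e4 : 3 ^ (k + 1) * (3 * p) = N := by rw [hp]; ring
  simp only [C, h1, d, e1, e2, a, e3, e4, if_true]

lemma z5 : ∀ j : ℕ, (0 : ZMod 3) ≠ 1 + ((j % 2 : ℕ) : ZMod 3) := by
  intro j
  rcases Nat.mod_two_eq_zero_or_one j with h | h <;> rw [h] <;> decide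

lemma dec_m {N N' : ℕ} (hpar : v N % 2 = v N' % 2) (h1 : 8 ≤ v N) (h2 : 8 ≤ v N')
    (H : ∀ k, k % 2 ≠ v N % 2 → C N k = C N' k) : ¬ v N / 2 / 2 < v N' / 2 / 2 := by
  intro hlt
  have := H (2 * (v N / 2 / 2) + (1 - v N % 2)) (by omega)
  rw [C_sig (by omega), C_sig (by omega)] at this
  have e : (2 * (v N / 2 / 2) + (1 - v N % 2)) / 2 = v N / 2 / 2 := by omega
  simp only [sig, e, lt_irrefl, if_false, if_true, hlt] at this
  exact z5 _ this.symm

lemma dec_level {N N' : ℕ} (hpar : v N % 2 = v N' % 2) (h1 : 8 ≤ v N) (h2 : 8 ≤ v N')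
    (H : ∀ k, k % 2 ≠ v N % 2 → C N k = C N' k) : v N = v N' := by
  have a1 := dec_m hpar h1 h2 H
  have a2 := dec_m hpar.symm h2 h1 (fun k hk => (H k (by omega)).symm)
  have hm : v N' / 2 / 2 = v N / 2 / 2 := by omega
  have := H (2 * (v N / 2 / 2) + (1 - v N % 2)) (by omega)
  rw [C_sig (by omega), C_sig (by omega)] at this
  have e : (2 * (v N / 2 / 2) + (1 - v N % 2)) / 2 = v N / 2 / 2 := by omega
  simp only [sig, e, hm, lt_irrefl, if_false, if_true] at this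
  have h5 : v N / 2 % 2 = v N' / 2 % 2 := by
    rcases Nat.mod_two_eq_zero_or_one (v N / 2) with h | h <;>
      rcases Nat.mod_two_eq_zero_or_one (v N' / 2) with h' | h' <;> rw [h, h'] at this ⊢ <;>
      first | rfl | exact absurd this (by decide)
  omega

lemma dec_all {N N' W : ℕ} (hl : v N = v N') (h1 : 4 * W + 12 ≤ v N)
    (H : ∀ k, k % 2 ≠ v N % 2 → C N k = C N' k)
    (H2 : ∀ k, v N + W ≤ k → C N k = C N' k) : N = N' := by
  have key : ∀ s, s ≤ W → N / 3 ^ (v N + (W - s)) = N' / 3 ^ (v N + (W - s)) := by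
    intro s
    induction s with
    | zero => intro _; exact C_inj H2
    | succ s ih =>
      intro hs
      have h3 := ih (by omega)
      rw [show v N + (W - s) = v N + (W - (s + 1)) + 1 by omega, div_succ, div_succ] at h3
      have := H (2 * (v N / 2 / 2 + 1 + (W - (s + 1))) + (1 - v N % 2)) (by omega)
      rw [C_sig (by omega), C_sig (by omega)] at this
      have e : (2 * (v N / 2 / 2 + 1 + (W - (s + 1))) + (1 - v N % 2)) / 2
          = v N / 2 / 2 + 1 + (W - (s + 1)) := by omega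
      have f1 : ¬ (v N / 2 / 2 + 1 + (W - (s + 1)) < v N / 2 / 2) := by omega
      have f2 : ¬ (v N / 2 / 2 + 1 + (W - (s + 1)) = v N / 2 / 2) := by omega
      have f3 : v N / 2 / 2 + 1 + (W - (s + 1)) - v N / 2 / 2 - 1 = W - (s + 1) := by omega
      simp only [sig, e, ← hl, f1, f2, f3, if_false] at this
      have h6 := (ZMod.natCast_eq_natCast_iff' _ _ 3).1 this
      omega
  have h7 := key W le_rfl
  simp only [Nat.sub_self, add_zero] at h7
  have d1 := Nat.div_mul_cancel (v_dvd N)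
  have d2 := Nat.div_mul_cancel (v_dvd N')
  rw [← hl] at d2
  rw [← d1, ← d2, h7]

end Pool.Agent.H52.Lamp2
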