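import Mathlib
import Pool.Agent.H52.Lamp1
import Pool.Agent.H52.Lamp2

set_option autoImplicit false

namespace Pool.Agent.H52.Lamp3

open Pool.Agent.H52.Lamp1 Pool.Agent.H52.Lamp2

def pos (k : ℕ) : ℤ := if k % 2 = 0 then ((k / 2 : ℕ) : ℤ) else -1 - ((k / 2 : ℕ) : ℤ)
def lev (x : ℤ) : ℕ := if 0 ≤ x then 2 * x.toNat else 2 * (-1 - x).toNat + 1

lemma lev_pos (k : ℕ) : lev (pos k) = k := by
  unfold lev pos; split_ifs <;> omega

lemma pos_lev (x : ℤ) : pos (lev x) = x := by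
  unfold lev pos; split_ifs <;> omega

lemma pos_spec (k : ℕ) : (k % 2 = 0 ∧ pos k = ((k / 2 : ℕ) : ℤ)) ∨
    (k % 2 = 1 ∧ pos k = -1 - ((k / 2 : ℕ) : ℤ)) := by
  unfold pos; split_ifs <;> omega

def st (n : ℕ) (i : ℤ) : L := ⟨fun x => C n (lev x), i, ⟨n + 2, fun x hx => by
  have h : n + 2 ≤ lev x := by
    unfold lev; push_cast at hx
    rcases abs_cases x with h | h <;> split_ifs <;> omega
  exact C_zero ((lt_pow n).trans_le (Nat.pow_le_pow_right (by norm_num) (by omega))) (by omega)⟩⟩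

def J (n : ℕ) : ℕ := (pos (v (n + 1))).natAbs
def ε (n : ℕ) : ℤ := if v (n + 1) % 2 = 0 then 1 else -1

lemma ε_spec (n : ℕ) : (v (n + 1) % 2 = 0 ∧ ε n = 1 ∧ J n = v (n + 1) / 2) ∨
    (v (n + 1) % 2 = 1 ∧ ε n = -1 ∧ J n = v (n + 1) / 2 + 1) := by
  unfold J ε
  rcases pos_spec (v (n + 1)) with ⟨h1, h2⟩ | ⟨h1, h2⟩
  · left; rw [h2]; refine ⟨h1, by simp [h1], by omega⟩
  · right; rw [h2]; refine ⟨h1, by simp [h1], by omega⟩

lemma pos_eq (n : ℕ) : pos (v (n + 1)) = ε n * J n := by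
  rcases pos_spec (v (n + 1)) with ⟨h1, h2⟩ | ⟨h1, h2⟩ <;>
    rcases ε_spec n with ⟨a, b, c⟩ | ⟨a, b, c⟩ <;> rw [b, c, h2] <;> push_cast <;> omega

def τ : ℕ → ℕ
  | 0 => 0
  | n + 1 => τ n + 2 * J n + 1

def pt (p : ℕ × ℕ) : L :=
  if p.2 ≤ J p.1 then st p.1 (ε p.1 * p.2) else st (p.1 + 1) (ε p.1 * ((2 * J p.1 + 1 - p.2 : ℕ) : ℤ))

def nx (p : ℕ × ℕ) : ℕ × ℕ := if p.2 < 2 * J p.1 then (p.1, p.2 + 1) else (p.1 + 1, 0)

def sq : ℕ → ℕ × ℕ
  | 0 => (0, 0)
  | t + 1 => nx (sq t)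

def g (t : ℕ) : L := pt (sq t)

lemma sq_inv (t : ℕ) : (sq t).2 ≤ 2 * J (sq t).1 ∧ t = τ (sq t).1 + (sq t).2 := by
  induction t with
  | zero => simp [sq, τ]
  | succ t ih =>
    simp only [sq, nx]
    split_ifs with h
    · simp only; omega
    · simp only [τ]; omega

lemma sq_surj (n : ℕ) : ∃ t, sq t = (n, 0) := by
  induction n with
  | zero => exact ⟨0, rfl⟩
  | succ n ih =>
    obtain ⟨t, ht⟩ := ih
    have : ∀ u, u ≤ 2 * J n → sq (t + u) = (n, u) := by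
      intro u
      induction u with
      | zero => intro _; exact ht
      | succ u ih2 =>
        intro hu
        have h1 : u < 2 * J n := by omega
        rw [← add_assoc, sq, ih2 (by omega)]
        simp [nx, h1]
    refine ⟨t + 2 * J n + 1, ?_⟩
    rw [sq, this _ le_rfl]
    simp [nx]

lemma flip_adj (n : ℕ) : Γ.Adj (st n (ε n * J n)) (st (n + 1) (ε n * J n)) := by
  refine adj_flip rfl (fun x hx => ?_) ?_
  · refine C_step_ne (fun e => hx ?_)
    show x = ε n * J n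
    rw [← pos_eq, ← e, pos_lev]
  · show C n (lev (ε n * J n)) ≠ C (n + 1) (lev (ε n * J n))
    rw [← pos_eq, lev_pos]
    exact C_step_eq n

lemma adj_nx (p : ℕ × ℕ) (hp : p.2 ≤ 2 * J p.1) : Γ.Adj (pt p) (pt (nx p)) := by
  obtain ⟨n, u⟩ := p
  simp only at hp
  have hε : ε n = 1 ∨ ε n = -1 := by rcases ε_spec n with h | h <;> simp [h]
  unfold nx
  simp only
  split_ifs with h
  · unfold pt
    simp only
    by_cases h1 : u + 1 ≤ J n
    · rw [if_pos (by omega), if_pos h1]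
      refine adj_move' rfl ?_
      simp only [st]
      rcases hε with e | e <;> rw [e] <;> push_cast <;> omega
    · by_cases h2 : u ≤ J n
      · rw [if_pos h2, if_neg h1]
        have e1 : u = J n := by omega
        have e2 : 2 * J n + 1 - (u + 1) = J n := by omega
        rw [e2, e1]
        exact flip_adj n
      · rw [if_neg h2, if_neg h1]
        refine adj_move' rfl ?_
        simp only [st]
        rcases hε with e | e <;> rw [e] <;> omega
  · unfold pt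
    simp only
    rw [if_pos (Nat.zero_le _)]
    by_cases h2 : u ≤ J n
    · rw [if_pos h2]
      have e0 : J n = 0 := by omega
      have e1 : u = 0 := by omega
      have := flip_adj n
      rw [e0] at this
      rw [e1]
      simpa using this
    · rw [if_neg h2]
      refine adj_move' rfl ?_
      simp only [st]
      rcases hε with e | e <;> rw [e] <;> omega

lemma g_adj (t : ℕ) : Γ.Adj (g t) (g (t + 1)) := adj_nx _ (sq_inv t).1

lemma g_lip (t s : ℕ) : Γ.dist (g t) (g (t + s)) ≤ s := by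
  induction s with
  | zero => simp
  | succ s ih =>
    have h1 := connected.dist_triangle (u := g t) (v := g (t + s)) (w := g (t + s + 1))
    have h2 : Γ.dist (g (t + s)) (g (t + s + 1)) = 1 :=
      SimpleGraph.dist_eq_one_iff_adj.2 (g_adj _)
    rw [← add_assoc]; omega

lemma g_cover (y : L) (hy : y.i = 0) : ∃ t, g t = y := by
  obtain ⟨M, hM⟩ := y.fin
  obtain ⟨n, hn⟩ := C_surj (fun k => y.c (pos k)) (2 * M + 2) (fun k hk => hM _ (by
    rcases pos_spec k with ⟨h1, h2⟩ | ⟨h1, h2⟩ <;> rw [h2, lt_abs] <;> omega))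
  obtain ⟨t, ht⟩ := sq_surj n
  refine ⟨t, ?_⟩
  simp only [g, ht, pt, Nat.zero_le, if_true]
  ext x
  · show C n (lev x) = y.c x
    rw [hn, pos_lev]
  · simp [st, hy]

lemma g_form (t : ℕ) : ∃ n b w : ℕ, w ≤ J n ∧ g t = st b (ε n * w) ∧
    ((b = n ∧ t = τ n + w) ∨ (b = n + 1 ∧ t + w = τ (n + 1))) := by
  obtain ⟨h1, h2⟩ := sq_inv t
  by_cases h : (sq t).2 ≤ J (sq t).1
  · exact ⟨(sq t).1, (sq t).1, (sq t).2, h, by simp only [g, pt, h, if_true], Or.inl ⟨rfl, h2⟩⟩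
  · refine ⟨(sq t).1, (sq t).1 + 1, 2 * J (sq t).1 + 1 - (sq t).2, by omega,
      by simp only [g, pt, h, if_false], Or.inr ⟨rfl, ?_⟩⟩
    simp only [τ]; omega

lemma τ_block (L' N s : ℕ) (h : N / 3 ^ L' = (N + s) / 3 ^ L') :
    τ N ≤ τ (N + s) ∧ τ (N + s) ≤ τ N + s * (2 * L' + 3) := by
  induction s with
  | zero => simp
  | succ s ih =>
    have m1 : N / 3 ^ L' ≤ (N + s) / 3 ^ L' := Nat.div_le_div_right (by omega)
    have m2 : (N + s) / 3 ^ L' ≤ (N + (s + 1)) / 3 ^ L' := Nat.div_le_div_right (by omega)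
    obtain ⟨i1, i2⟩ := ih (by omega)
    have hv : v (N + s + 1) < L' := by
      by_contra hc
      have hd : 3 ^ L' ∣ N + s + 1 := (pow_dvd_pow 3 (by omega)).trans (v_dvd _)
      have : (N + s + 1) / 3 ^ L' = (N + s) / 3 ^ L' + 1 := by
        simp only [Nat.succ_div, hd, if_true]
      rw [← add_assoc] at h
      omega
    have hJ : J (N + s) ≤ L' + 1 := by rcases ε_spec (N + s) with h | h <;> omega
    rw [← add_assoc]
    simp only [τ]
    constructor
    · omega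
    · nlinarith

lemma τ_close {L' N N' : ℕ} (h : N / 3 ^ L' = N' / 3 ^ L') :
    τ N ≤ τ N' + 3 ^ L' * (2 * L' + 3) := by
  rcases le_total N N' with hle | hle
  · obtain ⟨s, rfl⟩ := Nat.exists_eq_add_of_le hle
    have := (τ_block L' N s h).1
    omega
  · obtain ⟨s, rfl⟩ := Nat.exists_eq_add_of_le hle
    have h1 := (τ_block L' N' s h.symm).2
    have hp : 0 < 3 ^ L' := by positivity
    have h2 : s ≤ 3 ^ L' := by
      have a1 := Nat.div_add_mod (N' + s) (3 ^ L')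
      have a2 := Nat.div_add_mod N' (3 ^ L')
      have a3 := Nat.mod_lt (N' + s) hp
      rw [h] at a1
      omega
    nlinarith

lemma proper (R : ℕ) : ∃ T : ℕ, ∀ t t', Close R (g t) (g t') → t ≤ t' + T ∧ t' ≤ t + T := by
  refine ⟨3 ^ (22 * R + 42) * (2 * (22 * R + 42) + 3) + 30 * R + 50, fun t t' H => ?_⟩
  obtain ⟨n, b, w, hw, e, hb⟩ := g_form t
  obtain ⟨n', b', w', hw', e', hb'⟩ := g_form t'
  rw [e, e'] at H
  obtain ⟨H1, H2⟩ := H
  simp only [st] at H1 H2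
  have H3 : ∀ k, (R : ℤ) < |pos k - ε n * w| → C b k = C b' k := fun k hk => by
    simpa [lev_pos] using H2 (pos k) hk
  rw [abs_le] at H1
  by_cases hs : w ≤ 10 * R + 20
  · have h1 : b / 3 ^ (22 * R + 42) = b' / 3 ^ (22 * R + 42) := C_inj (fun k hk => H3 k (by
      rw [lt_abs]
      rcases pos_spec k with ⟨_, h2⟩ | ⟨_, h2⟩ <;> rcases ε_spec n with ⟨_, h3, _⟩ | ⟨_, h3, _⟩ <;>
        rw [h2, h3] <;> omega))
    have h2 := τ_close h1
    have h3 := τ_close h1.symm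
    have h4 : w' ≤ 11 * R + 20 := by
      rcases ε_spec n with ⟨_, h3, _⟩ | ⟨_, h3, _⟩ <;>
        rcases ε_spec n' with ⟨_, h4, _⟩ | ⟨_, h4, _⟩ <;> rw [h3, h4] at H1 <;> omega
    generalize 3 ^ (22 * R + 42) * (2 * (22 * R + 42) + 3) = X at *
    rcases hb with ⟨rfl, hb⟩ | ⟨rfl, hb⟩ <;> rcases hb' with ⟨rfl, hb'⟩ | ⟨rfl, hb'⟩ <;> omega
  · have c1 : ∀ k, k ≠ v (n + 1) → C b k = C (n + 1) k := fun k hk => by
      rcases hb with ⟨rfl, -⟩ | ⟨rfl, -⟩
      · exact C_step_ne hk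
      · rfl
    have c2 : ∀ k, k ≠ v (n' + 1) → C b' k = C (n' + 1) k := fun k hk => by
      rcases hb' with ⟨rfl, -⟩ | ⟨rfl, -⟩
      · exact C_step_ne hk
      · rfl
    have hpar : v (n + 1) % 2 = v (n' + 1) % 2 ∧ ε n = ε n' ∧ 20 * R + 40 ≤ v (n + 1) ∧
        18 * R + 38 ≤ v (n' + 1) ∧ w ≤ w' + R ∧ w' ≤ w + R := by
      rcases ε_spec n with ⟨_, h3, _⟩ | ⟨_, h3, _⟩ <;>
        rcases ε_spec n' with ⟨_, h4, _⟩ | ⟨_, h4, _⟩ <;> rw [h3, h4] at H1 ⊢ <;> omega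
    obtain ⟨p1, p2, p3, p4, p5, p6⟩ := hpar
    have H4 : ∀ k, k % 2 ≠ v (n + 1) % 2 → C (n + 1) k = C (n' + 1) k := fun k hk => by
      rw [← c1 k (by rintro rfl; omega), ← c2 k (by rintro rfl; omega)]
      refine H3 k ?_
      rw [lt_abs]
      rcases pos_spec k with ⟨_, h2⟩ | ⟨_, h2⟩ <;> rcases ε_spec n with ⟨_, h3, _⟩ | ⟨_, h3, _⟩ <;>
        rw [h2, h3] <;> omega
    have hl := dec_level p1 (by omega) (by omega) H4
    have hN : n + 1 = n' + 1 := dec_all (W := 2 * R + 2) hl (by omega) H4 (fun k hk => by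
      by_cases hk2 : k % 2 = v (n + 1) % 2
      · rw [← c1 k (by omega), ← c2 k (by omega)]
        refine H3 k ?_
        rw [lt_abs]
        rcases pos_spec k with ⟨_, h2⟩ | ⟨_, h2⟩ <;>
          rcases ε_spec n with ⟨_, h3, _⟩ | ⟨_, h3, _⟩ <;> rw [h2, h3] <;> omega
      · exact H4 k hk2)
    have hn : n = n' := by omega
    subst hn
    have hd : b ≠ b' → J n ≤ w + R := fun hne => by
      by_contra hc
      have := H3 (v (n + 1)) (by
        rw [pos_eq, lt_abs]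
        rcases ε_spec n with ⟨_, h3, _⟩ | ⟨_, h3, _⟩ <;> rw [h3] <;> omega)
      have h9 := C_step_eq n
      rcases hb with ⟨rfl, -⟩ | ⟨rfl, -⟩ <;> rcases hb' with ⟨rfl, -⟩ | ⟨rfl, -⟩
      · exact hne rfl
      · exact h9 this
      · exact h9 this.symm
      · exact hne rfl
    generalize 3 ^ (22 * R + 42) * (2 * (22 * R + 42) + 3) = X at *
    have ht : τ (n + 1) = τ n + 2 * J n + 1 := rfl
    rcases hb with ⟨rfl, hb⟩ | ⟨rfl, hb⟩ <;> rcases hb' with ⟨h5, hb'⟩ | ⟨h5, hb'⟩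
    · omega
    · have := hd (by omega); omega
    · have := hd (by omega); omega
    · omega

end Pool.Agent.H52.Lamp3
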