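import Mathlib

set_option autoImplicit false

namespace Pool.Agent.H52.MY

open Set Filter

variable {n : ℕ}

/-- Action of a positive word. -/
noncomputable def act (s : Bool → EuclideanSpace ℝ (Fin n) ≃ᵢ EuclideanSpace ℝ (Fin n)) :
    List Bool → EuclideanSpace ℝ (Fin n) ≃ᵢ EuclideanSpace ℝ (Fin n)
  | [] => IsometryEquiv.refl _
  | b :: w => (act s w).trans (s b)

theorem act_cons (s : Bool → EuclideanSpace ℝ (Fin n) ≃ᵢ EuclideanSpace ℝ (Fin n)) (b : Bool)
    (w : List Bool) (x : EuclideanSpace ℝ (Fin n)) : act s (b :: w) x = s b (act s w x) := rfl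

theorem act_append (s : Bool → EuclideanSpace ℝ (Fin n) ≃ᵢ EuclideanSpace ℝ (Fin n))
    (u w : List Bool) (x : EuclideanSpace ℝ (Fin n)) :
    act s (u ++ w) x = act s u (act s w x) := by
  induction u with
  | nil => rfl
  | cons b u ih => rw [List.cons_append, act_cons, act_cons, ih]

theorem act_norm (s : Bool → EuclideanSpace ℝ (Fin n) ≃ᵢ EuclideanSpace ℝ (Fin n)) (C : ℝ)
    (hC : ∀ b, ‖s b 0‖ ≤ C) (w : List Bool) (x : EuclideanSpace ℝ (Fin n)) :
    ‖act s w x‖ ≤ ‖x‖ + C * w.length := by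
  induction w with
  | nil =>
    show ‖x‖ ≤ _
    simp
  | cons b w ih =>
    rw [act_cons, List.length_cons]
    have h1 := (s b).dist_eq (act s w x) 0
    rw [dist_eq_norm, dist_zero_right] at h1
    have h2 := norm_add_le (s b (act s w x) - s b 0) (s b 0)
    rw [sub_add_cancel] at h2
    push_cast
    linarith [hC b]

/-- The grid cell of a point. -/
noncomputable def cell (δ : ℝ) (x : EuclideanSpace ℝ (Fin n)) (k : Fin n) : ℤ :=
  ⌊x k * ((n + 1) / δ)⌋

theorem cell_eq {δ : ℝ} (hδ : 0 < δ) {x y : EuclideanSpace ℝ (Fin n)} (h : cell δ x = cell δ y) :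
    dist x y < δ := by
  have h1 : ∀ k, (x k - y k) ^ 2 ≤ (δ / (n + 1)) ^ 2 := fun k => by
    have := Int.abs_sub_lt_one_of_floor_eq_floor (congr_fun h k)
    rw [← sub_mul, abs_mul, abs_of_pos (by positivity : (0 : ℝ) < (n + 1) / δ),
      ← lt_div_iff₀ (by positivity), one_div_div] at this
    exact sq_le_sq' (abs_lt.1 this).1.le (abs_lt.1 this).2.le
  rw [EuclideanSpace.dist_eq, Real.sqrt_lt' hδ]
  calc ∑ i, dist (x i) (y i) ^ 2 ≤ ∑ _i : Fin n, (δ / (n + 1)) ^ 2 :=
        Finset.sum_le_sum fun i _ => by rw [Real.dist_eq, sq_abs]; exact h1 i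
    _ = n / (n + 1) ^ 2 * δ ^ 2 := by simp; field_simp
    _ < δ ^ 2 := by
        apply mul_lt_of_lt_one_left (by positivity)
        rw [div_lt_one (by positivity)]
        nlinarith [(Nat.cast_nonneg n : (0 : ℝ) ≤ n)]

theorem cell_mem {δ : ℝ} (hδ : 0 < δ) {x : EuclideanSpace ℝ (Fin n)} {M : ℕ}
    (h : ‖x‖ * ((n + 1) / δ) ≤ M) (k : Fin n) : cell δ x k ∈ Finset.Icc (-(M : ℤ)) M := by
  have h1 : |x k| ≤ ‖x‖ := by simpa using PiLp.norm_apply_le x k
  have h2 : (0 : ℝ) ≤ (n + 1) / δ := by positivity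
  have h3 := mul_le_mul_of_nonneg_right (abs_le.1 h1).1 h2
  have h4 := mul_le_mul_of_nonneg_right (abs_le.1 h1).2 h2
  rw [Finset.mem_Icc]
  constructor
  · apply Int.le_floor.2
    push_cast
    linarith
  · have := Int.floor_le (x k * ((n + 1) / δ))
    have h5 : ((cell δ x k : ℤ) : ℝ) ≤ ((M : ℤ) : ℝ) := by
      unfold cell
      push_cast
      linarith
    exact_mod_cast h5

section
variable {X : Set (EuclideanSpace ℝ (Fin n))}
  {s : Bool → EuclideanSpace ℝ (Fin n) ≃ᵢ EuclideanSpace ℝ (Fin n)}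
  {m : Bool → EuclideanSpace ℝ (Fin n)}

theorem act_mem (hs : ∀ b, s b '' X = X \ {m b}) (w : List Bool) {x : EuclideanSpace ℝ (Fin n)}
    (hx : x ∈ X) : act s w x ∈ X := by
  induction w with
  | nil => exact hx
  | cons b w ih =>
    have : s b (act s w x) ∈ X \ {m b} := hs b ▸ mem_image_of_mem _ ih
    exact this.1

theorem act_ne (hs : ∀ b, s b '' X = X \ {m b}) (b : Bool) (w : List Bool)
    {x : EuclideanSpace ℝ (Fin n)} (hx : x ∈ X) : act s (b :: w) x ≠ m b := by
  have : s b (act s w x) ∈ X \ {m b} := hs b ▸ mem_image_of_mem _ (act_mem hs w hx)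
  exact this.2

theorem pre (hs : ∀ b, s b '' X = X \ {m b}) (b : Bool) {y : EuclideanSpace ℝ (Fin n)}
    (hy : y ∈ X) (h : y ≠ m b) : ∃ x ∈ X, s b x = y := by
  have : y ∈ s b '' X := by rw [hs b]; exact ⟨hy, h⟩
  exact this

theorem sep (hs : ∀ b, s b '' X = X \ {m b}) {δ : ℝ}
    (hm : ∀ b, ∀ y ∈ X, dist y (m b) < δ → y = m b) {p : EuclideanSpace ℝ (Fin n)} (hp : p ∈ X)
    (hp' : ∀ y ∈ X, dist y p < δ → y = p) (w : List Bool) :
    ∀ y ∈ X, dist (act s w p) y < δ → act s w p = y := by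
  induction w with
  | nil => exact fun y hy h => (hp' y hy (by rw [dist_comm]; exact h)).symm
  | cons b w ih =>
    intro y hy h
    by_cases hb : y = m b
    · rw [hb] at h ⊢
      exact hm b _ (act_mem hs _ hp) h
    · obtain ⟨x, hx, rfl⟩ := pre hs b hy hb
      rw [act_cons, IsometryEquiv.dist_eq] at h
      rw [act_cons, ih x hx h]

theorem nofix (hs : ∀ b, s b '' X = X \ {m b}) (hmX : ∀ b, m b ∈ X) {δ : ℝ} (hδ : 0 < δ)
    (hm : ∀ b, ∀ y ∈ X, dist y (m b) < δ → y = m b) (b : Bool) (w : List Bool)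
    (x : EuclideanSpace ℝ (Fin n)) : act s (b :: w) x ≠ x := by
  intro hx
  let W : ℕ → List Bool := fun k => (fun u => (b :: w) ++ u)^[k] []
  have hW : ∀ k y, act s (W (k + 1)) y = act s (b :: w) (act s (W k) y) := fun k y => by
    simp only [W]
    rw [Function.iterate_succ_apply', act_append]
  have hd : ∀ k, dist (act s (W k) (m b)) x = dist (m b) x := by
    intro k
    induction k with
    | zero => rfl
    | succ k ih => rw [hW, ← ih, ← (act s (b :: w)).dist_eq (act s (W k) (m b)) x, hx]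
  have hinj : ∀ i j, act s (W i) (m b) = act s (W (i + j + 1)) (m b) → False := by
    intro i j
    induction i with
    | zero =>
      intro h
      rw [hW, ← act_append] at h
      exact act_ne hs b _ (hmX b) h.symm
    | succ i ih =>
      intro h
      rw [show i + 1 + j + 1 = (i + j + 1) + 1 by ring, hW, hW] at h
      exact ih ((act s (b :: w)).injective h)
  obtain ⟨M, hM⟩ := exists_nat_ge ((dist (m b) x + ‖x‖) * ((n + 1) / δ))
  have hb : ∀ k, ‖act s (W k) (m b)‖ * ((n + 1) / δ) ≤ M := fun k => by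
    refine le_trans (mul_le_mul_of_nonneg_right ?_ (by positivity)) hM
    have := norm_add_le (act s (W k) (m b) - x) x
    rw [sub_add_cancel, ← dist_eq_norm, hd] at this
    exact this
  obtain ⟨i, j, hij, e⟩ := Finite.exists_ne_map_eq_of_infinite
    (fun (k : ℕ) (l : Fin n) =>
      (⟨cell δ (act s (W k) (m b)) l, cell_mem hδ (hb k) l⟩ : Finset.Icc (-(M : ℤ)) M))
  have e' : cell δ (act s (W i) (m b)) = cell δ (act s (W j) (m b)) :=
    funext fun l => congrArg Subtype.val (congr_fun e l)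
  have e2 := sep hs hm (hmX b) (hm b) (W i) _ (act_mem hs (W j) (hmX b)) (cell_eq hδ e')
  rcases lt_or_gt_of_ne hij with h | h
  · obtain ⟨c, rfl⟩ := Nat.exists_eq_add_of_lt h
    exact hinj i c e2
  · obtain ⟨c, rfl⟩ := Nat.exists_eq_add_of_lt h
    exact hinj j c e2.symm

theorem miss (hs : ∀ b, s b '' X = X \ {m b}) (w : List Bool) :
    ∀ y ∈ X, (∀ x ∈ X, act s w x ≠ y) → ∃ u d, y = act s u (m d) := by
  induction w with
  | nil => exact fun y hy h => absurd rfl (h y hy)
  | cons c v ih =>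
    intro y hy h
    by_cases hc : y = m c
    · exact ⟨[], c, hc⟩
    · obtain ⟨x, hx, rfl⟩ := pre hs c hy hc
      obtain ⟨u, d, e⟩ := ih x hx fun z hz e => h z hz (by rw [act_cons, e])
      exact ⟨c :: u, d, by rw [act_cons, ← e]⟩

theorem free (hs : ∀ b, s b '' X = X \ {m b}) (hmX : ∀ b, m b ∈ X) {δ : ℝ} (hδ : 0 < δ)
    (hm : ∀ b, ∀ y ∈ X, dist y (m b) < δ → y = m b) (hi : Function.Injective m) (u : List Bool) :
    ∀ v : List Bool, u.length = v.length → (∀ x ∈ X, act s u x = act s v x) → u = v := by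
  have key : ∀ b c u v, b ≠ c → (∀ x ∈ X, act s (b :: u) x = act s (c :: v) x) →
      ∃ w, m b = act s (c :: w) (m c) := by
    intro b c u v hbc h
    obtain ⟨x, hx, e⟩ := pre hs c (hmX b) fun e => hbc (hi e)
    obtain ⟨w, d, e'⟩ := miss hs v x hx fun z hz e' =>
      act_ne hs b u hz (by rw [h z hz, act_cons, e', e])
    have e2 : m b = act s (c :: w) (m d) := by rw [act_cons, ← e', e]
    by_cases hd : d = b
    · rw [hd] at e2
      exact absurd e2.symm (nofix hs hmX hδ hm c w _)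
    · have : d = c := by
        revert hbc hd
        cases b <;> cases c <;> cases d <;> simp
      exact ⟨w, this ▸ e2⟩
  induction u with
  | nil => exact fun v hv _ => (List.length_eq_zero_iff.1 hv.symm).symm
  | cons b u ih =>
    rintro (_ | ⟨c, v⟩) hv h
    · simp at hv
    · by_cases hbc : b = c
      · subst hbc
        rw [ih v (by simpa using hv) fun x hx => (s b).injective (h x hx)]
      · obtain ⟨w, e⟩ := key b c u v hbc h
        obtain ⟨w', e'⟩ := key c b v u (Ne.symm hbc) fun x hx => (h x hx).symm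
        rw [e', ← act_append] at e
        exact absurd e.symm (nofix hs hmX hδ hm c _ _)

theorem main (hs : ∀ b, s b '' X = X \ {m b}) (hmX : ∀ b, m b ∈ X) (hi : Function.Injective m)
    (hd : ∀ x ∈ X, ∃ ε > 0, ∀ y ∈ X, dist y x < ε → y = x) : False := by
  classical
  obtain ⟨T, hTX, hT, hind⟩ := exists_affineIndependent ℝ (EuclideanSpace ℝ (Fin n)) X
  have hfin : T.Finite := finite_set_of_fin_dim_affineIndependent ℝ hind
  have hfin' : (T ∪ range m).Finite := hfin.union (finite_range m)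
  obtain ⟨δ, hδ, hδ'⟩ : ∃ δ > 0, ∀ x ∈ T ∪ range m, ∀ y ∈ X, dist y x < δ → y = x := by
    have h1 : ∀ x ∈ T ∪ range m, ∀ᶠ δ in nhdsWithin (0 : ℝ) (Ioi 0),
        ∀ y ∈ X, dist y x < δ → y = x := by
      intro x hx
      obtain ⟨ε, hε, h⟩ := hd x (hx.elim (fun h => hTX h) fun ⟨b, e⟩ => e ▸ hmX b)
      filter_upwards [Ioo_mem_nhdsGT hε] with δ hδ y hy h' using h y hy (h'.trans hδ.2)
    obtain ⟨δ, h1, h2⟩ := (((eventually_all_finite hfin').2 h1).and self_mem_nhdsWithin).exists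
    exact ⟨δ, h2, h1⟩
  have hm : ∀ b, ∀ y ∈ X, dist y (m b) < δ → y = m b := fun b => hδ' _ (Or.inr ⟨b, rfl⟩)
  have := hfin.fintype
  obtain ⟨C, hC⟩ := (hfin.image norm).bddAbove
  obtain ⟨K, hK⟩ := exists_nat_ge ((|C| + (‖s true 0‖ + ‖s false 0‖)) * ((n + 1) / δ))
  have hC' : ∀ b, ‖s b 0‖ ≤ ‖s true 0‖ + ‖s false 0‖ := fun b => by
    cases b <;> simp
  have bound : ∀ L : ℕ, 2 ^ L ≤ (2 * (K * (L + 1)) + 1) ^ (n * Fintype.card T) := by
    intro L
    have hb : ∀ (f : Fin L → Bool) (t : T),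
        ‖act s (List.ofFn f) t‖ * ((n + 1) / δ) ≤ ((K * (L + 1) : ℕ) : ℝ) := fun f t => by
      have h1 := act_norm s _ hC' (List.ofFn f) t
      rw [List.length_ofFn] at h1
      have h2 : ‖(t : EuclideanSpace ℝ (Fin n))‖ ≤ |C| := (hC ⟨t, t.2, rfl⟩).trans (le_abs_self C)
      have h3 : ‖act s (List.ofFn f) t‖ ≤ (|C| + (‖s true 0‖ + ‖s false 0‖)) * (L + 1) := by
        have a1 : (0 : ℝ) ≤ L := Nat.cast_nonneg L
        nlinarith [abs_nonneg C, norm_nonneg (s true 0), norm_nonneg (s false 0)]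
      have h4 : (0 : ℝ) ≤ (n + 1) / δ := by positivity
      push_cast
      calc _ ≤ (|C| + (‖s true 0‖ + ‖s false 0‖)) * (L + 1) * ((n + 1) / δ) :=
            mul_le_mul_of_nonneg_right h3 h4
        _ = (|C| + (‖s true 0‖ + ‖s false 0‖)) * ((n + 1) / δ) * (L + 1) := by ring
        _ ≤ _ := mul_le_mul_of_nonneg_right hK (by positivity)
    let Φ : (Fin L → Bool) → T → Fin n → Finset.Icc (-((K * (L + 1) : ℕ) : ℤ)) (K * (L + 1) : ℕ) :=
      fun f t l => ⟨cell δ (act s (List.ofFn f) t) l, cell_mem hδ (hb f t) l⟩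
    have hΦ : Function.Injective Φ := by
      intro f g e
      apply List.ofFn_injective
      apply free hs hmX hδ hm hi _ _ (by simp)
      have e1 : EqOn (act s (List.ofFn f)).toRealAffineIsometryEquiv.toAffineEquiv.toAffineMap
          (act s (List.ofFn g)).toRealAffineIsometryEquiv.toAffineEquiv.toAffineMap T := by
        intro t ht
        exact sep hs hm (hTX ht) (hδ' t (Or.inl ht)) _ _ (act_mem hs _ (hTX ht)) (cell_eq hδ
          (funext fun l => congrArg Subtype.val (congr_fun (congr_fun e ⟨t, ht⟩) l)))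
      intro x hx
      exact AffineMap.eqOn_affineSpan e1 (hT ▸ subset_affineSpan ℝ X hx)
    have := Fintype.card_le_of_injective Φ hΦ
    simp only [Fintype.card_fun, Fintype.card_bool, Fintype.card_fin, Fintype.card_coe,
      Int.card_Icc] at this
    rw [pow_mul]
    convert this using 3
    omega
  set D := n * Fintype.card T
  have ht := (tendsto_pow_const_div_const_pow_of_one_lt D (r := 2) one_lt_two).const_mul
    (2 * (2 * K + 1 : ℝ) ^ D)
  rw [mul_zero] at ht
  obtain ⟨L, hL1, hL2⟩ := ((ht.eventually (gt_mem_nhds one_pos)).and (eventually_ge_atTop 1)).exists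
  obtain ⟨L, rfl⟩ := Nat.exists_eq_add_of_le' hL2
  have h1 : ((2 : ℝ)) ^ L ≤ (2 * (K * (L + 1)) + 1) ^ D := by exact_mod_cast bound L
  have h2 : (2 * (K * (L + 1)) + 1 : ℝ) ^ D ≤ ((2 * K + 1) * (L + 1)) ^ D :=
    pow_le_pow_left₀ (by positivity) (by nlinarith [(Nat.cast_nonneg L : (0 : ℝ) ≤ L)]) D
  rw [← mul_div_assoc, div_lt_one (by positivity), pow_succ] at hL1
  rw [mul_pow] at h2
  push_cast at hL1
  linarith

end

end Pool.Agent.H52.MY
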