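import Mathlib

set_option autoImplicit false

namespace H52.ND

open Polynomial Filter

variable {k : Type} [Field k]

lemma sep {m : ℕ} (hm : 5 ≤ m) {a0 a1 a2 a3 a4 : k} {r : k[X]}
    (h : C a0 + C a1 * X + C a2 * X ^ 2 + C a3 * X ^ 3 + C a4 * X ^ 4 + X ^ m * r = 0) :
    (a0 = 0 ∧ a1 = 0 ∧ a2 = 0 ∧ a3 = 0 ∧ a4 = 0) ∧ r = 0 := by
  have z : ∀ i < 5, (X ^ m * r).coeff i = 0 := fun i hi => by
    rw [coeff_X_pow_mul', if_neg (by omega)]
  have c : ∀ i, (C a0 + C a1 * X + C a2 * X ^ 2 + C a3 * X ^ 3 + C a4 * X ^ 4 + X ^ m * r).coeff i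
      = 0 := fun i => by rw [h, coeff_zero]
  have c0 := c 0
  have c1 := c 1
  have c2 := c 2
  have c3 := c 3
  have c4 := c 4
  rw [coeff_add, z _ (by norm_num)] at c0 c1 c2 c3 c4
  simp [coeff_X, coeff_C, coeff_X_pow] at c0 c1 c2 c3 c4
  refine ⟨⟨c0, c1, c2, c3, c4⟩, ?_⟩
  simpa [c0, c1, c2, c3, c4] using h

noncomputable def w (k : Type) [Field k] (m : ℕ) : Fin 5 → k[X] :=
  ![1, X, X ^ 2 - X ^ m, X * X ^ m, (X ^ m) ^ 2]

noncomputable def ev (m : ℕ) : MvPolynomial (Fin 5) k →ₐ[k] k[X] := MvPolynomial.aeval (w k m)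

noncomputable def ph (m : ℕ) : MvPolynomial (Fin 5) k →ₐ[k] k[X][X] :=
  MvPolynomial.aeval fun i => C (w k m i) * X

lemma ph_hom (m : ℕ) {t : ℕ} {f : MvPolynomial (Fin 5) k} (hf : f.IsHomogeneous t) :
    ph m f = monomial t (ev m f) := by
  rw [ph, ev, MvPolynomial.aeval_def, MvPolynomial.aeval_def, MvPolynomial.eval₂_eq',
    MvPolynomial.eval₂_eq', map_sum]
  refine Finset.sum_congr rfl fun d hd => ?_
  have e : ∑ i, d i = t := by
    have := hf (MvPolynomial.mem_support_iff.1 hd)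
    rw [← this, Finsupp.weight_apply, Finsupp.sum_fintype _ _ (by simp)]
    simp
  simp only [mul_pow, Finset.prod_mul_distrib, Finset.prod_pow_eq_pow_sum, e,
    ← C_mul_X_pow_eq_monomial, map_mul, map_prod, map_pow, Polynomial.algebraMap_apply]
  ring

lemma ph_coeff (m n : ℕ) (f : MvPolynomial (Fin 5) k) :
    (ph m f).coeff n = ev m (MvPolynomial.homogeneousComponent n f) := by
  conv_lhs => rw [← MvPolynomial.sum_homogeneousComponent f, map_sum, finsetSum_coeff]
  simp only [ph_hom m (MvPolynomial.homogeneousComponent_isHomogeneous _ f), coeff_monomial,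
    Finset.sum_ite_eq', Finset.mem_range]
  split_ifs with h
  · rfl
  · rw [MvPolynomial.homogeneousComponent_eq_zero _ _ (by omega), map_zero]

noncomputable def V (k : Type) [Field k] (m t : ℕ) : Submodule k k[X] :=
  (MvPolynomial.homogeneousSubmodule (Fin 5) k t).map (ev m).toLinearMap

lemma V_le {m : ℕ} (hm : 5 ≤ m) (t : ℕ) : V k m t ≤ degreeLT k (2 * m * t + 1) := by
  rintro _ ⟨f, hf, rfl⟩
  have hw : ∀ i, (w k m i).natDegree ≤ 2 * m := by
    intro i
    fin_cases i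
    · simp [w]
    · simp [w]; omega
    · change (X ^ 2 - X ^ m : k[X]).natDegree ≤ _
      compute_degree; omega
    · change (X * X ^ m : k[X]).natDegree ≤ _
      compute_degree; omega
    · simp [w]
  have := MvPolynomial.aeval_natDegree_le f (MvPolynomial.IsHomogeneous.totalDegree_le hf) _ hw
  rw [degreeLT_succ_eq_degreeLE, mem_degreeLE]
  refine degree_le_of_natDegree_le ?_
  rw [mul_comm]
  exact this

lemma fr (n : ℕ) : Module.finrank k (degreeLT k n) = n := by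
  rw [(degreeLTEquiv k n).finrank_eq, Module.finrank_fin_fun]

instance (n : ℕ) : FiniteDimensional k (degreeLT k n) :=
  (degreeLTEquiv k n).symm.finiteDimensional

lemma step {m : ℕ} (hm : 5 ≤ m) (t : ℕ) (ht : 2 * m ≤ t) :
    Module.finrank k (V k m t) + 2 * m ≤ Module.finrank k (V k m (t + 1)) := by
  have := Submodule.finiteDimensional_of_le (V_le (k := k) hm t)
  have := Submodule.finiteDimensional_of_le (V_le (k := k) hm (t + 1))
  let μ : k[X] →ₗ[k] k[X] := LinearMap.mulLeft k (X ^ (2 * m))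
  have hμ : Function.Injective μ := mul_right_injective₀ (pow_ne_zero _ X_ne_zero)
  have e1 := (Submodule.equivMapOfInjective μ hμ (V k m t)).finrank_eq
  have e2 := Submodule.finrank_sup_add_finrank_inf_eq ((V k m t).map μ) (degreeLT k (2 * m))
  have e3 : (V k m t).map μ ⊓ degreeLT k (2 * m) = ⊥ := by
    rw [eq_bot_iff]
    rintro _ ⟨⟨p, -, rfl⟩, h⟩
    refine eq_zero_of_dvd_of_degree_lt (dvd_mul_right (X ^ (2 * m)) p) ?_
    rw [degree_X_pow]
    exact mem_degreeLT.1 h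
  have e4 : (V k m t).map μ ⊔ degreeLT k (2 * m) ≤ V k m (t + 1) := by
    classical
    refine sup_le ?_ ?_
    · rintro _ ⟨_, ⟨f, hf, rfl⟩, rfl⟩
      refine ⟨f * MvPolynomial.X 4, MvPolynomial.IsHomogeneous.mul hf
        (MvPolynomial.isHomogeneous_X k 4), ?_⟩
      simp [μ, ev, w]
      ring
    · rw [degreeLT_eq_span_X_pow, Submodule.span_le]
      intro p hp
      simp only [Finset.coe_image, Finset.coe_range, Set.mem_image, Set.mem_Iio] at hp
      obtain ⟨j, hj, rfl⟩ := hp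
      refine ⟨MvPolynomial.X 1 ^ j * MvPolynomial.X 0 ^ (t + 1 - j), ?_, by simp [ev, w]⟩
      have := (MvPolynomial.isHomogeneous_X_pow (R := k) (1 : Fin 5) j).mul
        (MvPolynomial.isHomogeneous_X_pow (R := k) (0 : Fin 5) (t + 1 - j))
      rwa [show j + (t + 1 - j) = t + 1 by omega] at this
  have e5 := Submodule.finrank_mono e4
  rw [e3, finrank_bot, fr] at e2
  omega

lemma hil {m : ℕ} (hm : 5 ≤ m) :
    ∃ c : ℤ, ∀ᶠ t in atTop, (Module.finrank k (V k m t) : ℤ) = (2 * m : ℕ) * t + c := by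
  let g : ℕ → ℕ := fun s => 2 * m * (s + 2 * m) + 1 - Module.finrank k (V k m (s + 2 * m))
  have ub : ∀ t, Module.finrank k (V k m t) ≤ 2 * m * t + 1 := fun t =>
    (Submodule.finrank_mono (V_le hm t)).trans (fr _).le
  have hg : Antitone g := antitone_nat_of_succ_le fun s => by
    have h1 := step (k := k) hm (s + 2 * m) (by omega)
    have h2 : 2 * m * (s + 1 + 2 * m) = 2 * m * (s + 2 * m) + 2 * m := by ring
    simp only [g]
    rw [h2, show s + 1 + 2 * m = s + 2 * m + 1 by omega]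
    omega
  obtain ⟨n, hn⟩ := WellFoundedLT.antitone_chain_condition hg
  refine ⟨1 - g n, ?_⟩
  filter_upwards [eventually_ge_atTop (n + 2 * m)] with t ht
  obtain ⟨s, rfl⟩ : ∃ s, t = s + 2 * m := ⟨t - 2 * m, by omega⟩
  have e : g n = g s := hn s (by omega)
  have := ub (s + 2 * m)
  rw [e]
  simp only [g]
  push_cast [Nat.cast_sub this]
  ring

lemma lin {m : ℕ} (hm : 5 ≤ m) (a : Fin 5 → k) (e : k)
    (h : ev m (∑ i, a i • MvPolynomial.X i) = C e * X ^ m) : a = 0 ∧ e = 0 := by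
  simp only [ev, map_add, map_smul, MvPolynomial.aeval_X, Fin.sum_univ_five, smul_eq_C_mul] at h
  simp only [w, Matrix.cons_val_zero, Matrix.cons_val_one, Matrix.cons_val] at h
  obtain ⟨⟨h0, h1, h2, -, -⟩, h3⟩ := sep hm (a0 := a 0) (a1 := a 1) (a2 := a 2) (a3 := 0) (a4 := 0)
    (r := C (-a 2 - e) + C (a 3) * X + C 0 * X ^ 2 + C 0 * X ^ 3 + C 0 * X ^ 4 + X ^ m * C (a 4))
    (by simp only [map_sub, map_neg, map_zero]; linear_combination h)
  obtain ⟨⟨h4, h5, -⟩, h6⟩ := sep hm h3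
  refine ⟨?_, by linear_combination -h4 - h2⟩
  funext i
  fin_cases i
  exacts [h0, h1, h2, h5, C_eq_zero.1 h6]

lemma noq {m : ℕ} (hm : 5 ≤ m) (q : MvPolynomial (Fin 5) k)
    (hq : q.IsHomogeneous 2) (h : ev m q = 0) : q = 0 := by
  have h1 : q ∈ Submodule.span k (Set.range fun p : Fin 5 × Fin 5 =>
      (MvPolynomial.X p.1 * MvPolynomial.X p.2 : MvPolynomial (Fin 5) k)) := by
    have : q ∈ MvPolynomial.homogeneousSubmodule (Fin 5) k 2 := hq
    rw [← MvPolynomial.homogeneousSubmodule_one_pow, sq,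
      MvPolynomial.homogeneousSubmodule_one_eq_span_X, Submodule.span_mul_span] at this
    refine Submodule.span_mono ?_ this
    rintro _ ⟨_, ⟨i, rfl⟩, _, ⟨j, rfl⟩, rfl⟩
    exact ⟨(i, j), rfl⟩
  obtain ⟨b, rfl⟩ := (Submodule.mem_span_range_iff_exists_fun k).1 h1
  simp only [ev, map_add, map_smul, map_mul, MvPolynomial.aeval_X, Fintype.sum_prod_type,
    Fin.sum_univ_five, smul_eq_C_mul] at h
  simp only [w, Matrix.cons_val_zero, Matrix.cons_val_one, Matrix.cons_val] at h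
  let s : Fin 5 → Fin 5 → k := fun i j => b (i, j) + b (j, i)
  obtain ⟨⟨a0, a1, a2, a3, a4⟩, h1⟩ := sep hm (a0 := b (0, 0)) (a1 := s 0 1)
    (a2 := s 0 2 + b (1, 1)) (a3 := s 1 2) (a4 := b (2, 2))
    (r := C (-s 0 2) + C (s 0 3 - s 1 2) * X + C (s 1 3 - b (2, 2) - b (2, 2)) * X ^ 2
      + C (s 2 3) * X ^ 3 + C 0 * X ^ 4 + X ^ m * (C (s 0 4 + b (2, 2)) + C (s 1 4 - s 2 3) * X
      + C (s 2 4 + b (3, 3)) * X ^ 2 + C 0 * X ^ 3 + C 0 * X ^ 4 + X ^ m * (C (-s 2 4)
      + C (s 3 4) * X + C 0 * X ^ 2 + C 0 * X ^ 3 + C 0 * X ^ 4 + X ^ m * C (b (4, 4)))))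
    (by simp only [s, map_sub, map_neg, map_zero, map_add]; linear_combination h)
  obtain ⟨⟨b0, b1, b2, b3, -⟩, h2⟩ := sep hm h1
  obtain ⟨⟨c0, c1, c2, -⟩, h3⟩ := sep hm h2
  obtain ⟨⟨d0, d1, -⟩, h4⟩ := sep hm h3
  have d2 := C_eq_zero.1 h4
  simp only [s] at *
  have u01 : b (1, 0) = -b (0, 1) := by linear_combination a1
  have u02 : b (2, 0) = -b (0, 2) := by linear_combination -b0
  have u03 : b (3, 0) = -b (0, 3) := by linear_combination b1 + a3
  have u04 : b (4, 0) = -b (0, 4) := by linear_combination c0 - a4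
  have u12 : b (2, 1) = -b (1, 2) := by linear_combination a3
  have u13 : b (3, 1) = -b (1, 3) := by linear_combination b2 + 2 * a4
  have u14 : b (4, 1) = -b (1, 4) := by linear_combination c1 + b3
  have u23 : b (3, 2) = -b (2, 3) := by linear_combination b3
  have u24 : b (4, 2) = -b (2, 4) := by linear_combination -d0
  have u34 : b (4, 3) = -b (3, 4) := by linear_combination d1
  have u11 : b (1, 1) = 0 := by linear_combination a2 + b0
  have u33 : b (3, 3) = 0 := by linear_combination c2 + d0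
  simp only [Fintype.sum_prod_type, Fin.sum_univ_five, a0, a4, d2, u01, u02, u03, u04, u12, u13,
    u14, u23, u24, u34, u11, u33, MvPolynomial.smul_eq_C_mul, map_neg, map_zero]
  ring

open MvPolynomial in
noncomputable def Q (k : Type) [Field k] : Fin 5 → MvPolynomial (Fin 5) k :=
  ![X 1 * X 1 - X 0 * X 2, X 0 * X 3, X 1 * X 3 - X 0 * X 4, X 1 * X 4, X 3 * X 3 - X 4 * X 2]

lemma Q_hom (i : Fin 5) : (Q k i).IsHomogeneous 2 := by
  have h : ∀ i j : Fin 5, (MvPolynomial.X i * MvPolynomial.X j :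
      MvPolynomial (Fin 5) k).IsHomogeneous 2 := fun i j =>
    (MvPolynomial.isHomogeneous_X k i).mul (MvPolynomial.isHomogeneous_X k j)
  fin_cases i
  exacts [(h 1 1).sub (h 0 2), h 0 3, (h 1 3).sub (h 0 4), h 1 4, (h 3 3).sub (h 4 2)]

lemma ev_Q (m : ℕ) (i : Fin 5) : ev m (Q k i) = X ^ m * w k m i := by
  fin_cases i <;> simp [ev, Q, w] <;> ring

end H52.ND
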