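import Pool.Agent.H52.HB5

set_option autoImplicit false

namespace Pool.Agent.H52.OV
open Set Filter Topology Pool.Agent.H52.HB

def dt (u v : P) : ℝ := u.1 * v.2 - u.2 * v.1

def Sig (γ : Set P) (O x y : P) : Prop :=
  y ∈ γ ∧ y ∈ affineSpan ℝ {O, x} ∧ (y ≠ x ∨ ∀ z ∈ γ, z ∈ affineSpan ℝ {O, x} → z = x)

def Conj (c : ℝ → P) (O Q : P) : Prop :=
  ∃ H : ℝ → P, ContDiff ℝ (⊤ : ℕ∞) H ∧ (∀ t, dt (H t) (deriv H t) ≠ 0) ∧
    (∀ s t, dt (H s) (H t) = 0 ↔ c s = c t) ∧ (∀ v, ∃ t, dt (H t) v = 0) ∧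
    ∃ m11 m12 m21 m22 : ℝ, m11 * m22 - m12 * m21 ≠ 0 ∧
      ∀ s t y, Sig (range c) O (c s) y → Sig (range c) Q y (c t) →
        dt (m11 * (H s).1 + m12 * (H s).2, m21 * (H s).1 + m22 * (H s).2) (H t) = 0

structure Ov (Ω : Set P) (c : ℝ → P) : Prop where
  ho : IsOpen Ω
  hc : Convex ℝ Ω
  hb : Bornology.IsBounded Ω
  ne : Ω.Nonempty
  sc : ∀ x ∈ closure Ω, ∀ y ∈ closure Ω, x ≠ y → ∀ u : ℝ, 0 < u → u < 1 → x + u • (y - x) ∈ Ω
  df : Differentiable ℝ c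
  per : Function.Periodic c 1
  reg : ∀ t, deriv c t ≠ 0
  inj : ∀ s t, c s = c t → ∃ k : ℤ, t = s + k
  rng : ∀ z, z ∈ range c ↔ z ∈ closure Ω ∧ z ∉ Ω

noncomputable def ex (Ω : Set P) (O v : P) : ℝ := sSup {t : ℝ | 0 ≤ t ∧ O + t • v ∈ Ω}

lemma ex_spec {Ω : Set P} (ho : IsOpen Ω) (hc : Convex ℝ Ω) (hb : Bornology.IsBounded Ω)
    {O v : P} (hO : O ∈ Ω) (hv : v ≠ 0) :
    0 < ex Ω O v ∧ O + ex Ω O v • v ∈ closure Ω ∧ O + ex Ω O v • v ∉ Ω ∧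
      ∀ t : ℝ, 0 ≤ t → (O + t • v ∈ Ω ↔ t < ex Ω O v) := by
  obtain ⟨T, hT, h1, h2⟩ := ray ho hc hb hO hv
  have e : ex Ω O v = T := by unfold ex; rw [h2, csSup_Ico hT]
  have key : ∀ t : ℝ, 0 ≤ t → (O + t • v ∈ Ω ↔ t < T) := by
    intro t ht
    constructor
    · intro h
      have : t ∈ Ico 0 T := by rw [← h2]; exact ⟨ht, h⟩
      exact this.2
    · intro h
      have : t ∈ {t : ℝ | 0 ≤ t ∧ O + t • v ∈ Ω} := by rw [h2]; exact ⟨ht, h⟩
      exact this.2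
  rw [e]
  exact ⟨hT, h1, fun h => lt_irrefl _ ((key T hT.le).1 h), key⟩

lemma ex_ge {Ω : Set P} (ho : IsOpen Ω) (hc : Convex ℝ Ω) (hb : Bornology.IsBounded Ω)
    {O v : P} (hO : O ∈ Ω) (hv : v ≠ 0) {T : ℝ} (h1 : O + T • v ∈ closure Ω) :
    T ≤ ex Ω O v := by
  obtain ⟨a1, -, a3, -⟩ := ex_spec ho hc hb hO hv
  by_contra hlt
  push Not at hlt
  have hT : 0 < T := a1.trans hlt
  have := combo_mem ho hc h1 hO (u := 1 - ex Ω O v / T)
    (by rw [sub_pos, div_lt_one hT]; exact hlt) (by have := div_pos a1 hT; linarith)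
  apply a3
  convert this using 1
  ext <;> simp <;> field_simp <;> ring

lemma ex_eq {Ω : Set P} (ho : IsOpen Ω) (hc : Convex ℝ Ω) (hb : Bornology.IsBounded Ω)
    {O v : P} (hO : O ∈ Ω) (hv : v ≠ 0) {T : ℝ} (hT : 0 < T) (h1 : O + T • v ∈ closure Ω)
    (h2 : O + T • v ∉ Ω) : ex Ω O v = T := by
  obtain ⟨-, -, -, a4⟩ := ex_spec ho hc hb hO hv
  refine le_antisymm ?_ (ex_ge ho hc hb hO hv h1)
  by_contra hlt
  push Not at hlt
  exact h2 ((a4 T hT.le).2 hlt)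

lemma ex_tend {Ω : Set P} (ho : IsOpen Ω) (hc : Convex ℝ Ω) (hb : Bornology.IsBounded Ω)
    {O v : P} (hO : O ∈ Ω) (hv : v ≠ 0) {ι : Type} {l : Filter ι} {O' v' : ι → P}
    (h1 : Tendsto O' l (𝓝 O)) (h2 : Tendsto v' l (𝓝 v)) :
    Tendsto (fun i => ex Ω (O' i) (v' i)) l (𝓝 (ex Ω O v)) := by
  have e1 : ∀ᶠ i in l, O' i ∈ Ω := h1.eventually (ho.mem_nhds hO)
  have e2 : ∀ᶠ i in l, v' i ≠ 0 := h2.eventually_ne hv
  have ht : ∀ t : ℝ, Tendsto (fun i => O' i + t • v' i) l (𝓝 (O + t • v)) :=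
    fun t => h1.add (h2.const_smul t)
  obtain ⟨a1, a2, a3, a4⟩ := ex_spec ho hc hb hO hv
  rw [tendsto_order]
  constructor
  · intro t h
    by_cases h0 : 0 ≤ t
    · have := (ht t).eventually (ho.mem_nhds ((a4 t h0).2 h))
      filter_upwards [e1, e2, this] with i b1 b2 b3
      exact ((ex_spec ho hc hb b1 b2).2.2.2 t h0).1 b3
    · filter_upwards [e1, e2] with i b1 b2
      have := (ex_spec ho hc hb b1 b2).1
      linarith
  · intro t h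
    have hn : O + t • v ∈ (closure Ω)ᶜ := fun hh => by
      have := ex_ge ho hc hb hO hv hh
      linarith
    have := (ht t).eventually (isClosed_closure.isOpen_compl.mem_nhds hn)
    filter_upwards [e1, e2, this] with i b1 b2 b3
    obtain ⟨c1, c2, -, c4⟩ := ex_spec ho hc hb b1 b2
    by_contra hle
    push Not at hle
    rcases hle.eq_or_lt with he | hl
    · rw [← he] at c2; exact b3 c2
    · exact b3 (subset_closure ((c4 t (by linarith)).2 hl))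

lemma sup_line {Ω : Set P} (ho : IsOpen Ω) (hc : Convex ℝ Ω) {x r : P}
    (h : ∀ t : ℝ, x + t • r ∉ Ω) :
    ∃ β : P → ℝ, IsAff β ∧ β x = 0 ∧ β (x + r) = 0 ∧ ∀ z ∈ Ω, 0 < β z := by
  have hcv : Convex ℝ (range fun t : ℝ => x + t • r) := by
    rintro _ ⟨s, rfl⟩ _ ⟨t, rfl⟩ a b ha hb hab
    refine ⟨a * s + b * t, ?_⟩
    have : b = 1 - a := by linarith
    subst this
    ext <;> simp <;> ring
  obtain ⟨f, u, h1, h2⟩ := geometric_hahn_banach_open hc ho hcv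
    (disjoint_left.2 (by rintro _ hz ⟨t, rfl⟩; exact h t hz))
  have h3 : ∀ t : ℝ, u ≤ f x + t * f r := fun t => by
    have := h2 _ ⟨t, rfl⟩
    simpa using this
  have h4 : f r = 0 := by
    by_contra hne
    have := h3 ((u - 1 - f x) / f r)
    rw [div_mul_cancel₀ _ hne] at this
    linarith
  refine ⟨fun z => f x - f z, ⟨f x, -f (1, 0), -f (0, 1), fun z => ?_⟩, by simp, by simp [h4],
    fun z hz => ?_⟩
  · have : z = z.1 • ((1 : ℝ), (0 : ℝ)) + z.2 • ((0 : ℝ), (1 : ℝ)) := by ext <;> simp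
    have e : f z = z.1 * f (1, 0) + z.2 * f (0, 1) := by
      conv_lhs => rw [this, map_add, map_smul, map_smul]
      rfl
    show f x - f z = _
    rw [e]; ring
  · have := h1 z hz
    have := h3 0
    show 0 < f x - f z
    linarith

lemma aff_deriv {φ : P → ℝ} {k a b : ℝ} (h : ∀ z : P, φ z = k + a * z.1 + b * z.2) {c : ℝ → P}
    {t : ℝ} (hd : DifferentiableAt ℝ c t) :
    HasDerivAt (fun s => φ (c s)) (a * (deriv c t).1 + b * (deriv c t).2) t := by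
  have h0 := hd.hasDerivAt
  have h1 : HasDerivAt (fun s => (c s).1) (deriv c t).1 t :=
    (ContinuousLinearMap.fst ℝ ℝ ℝ).hasFDerivAt.comp_hasDerivAt t h0
  have h2 : HasDerivAt (fun s => (c s).2) (deriv c t).2 t :=
    (ContinuousLinearMap.snd ℝ ℝ ℝ).hasFDerivAt.comp_hasDerivAt t h0
  have := ((h1.const_mul a).const_add k).add (h2.const_mul b)
  simp only [h]
  exact this

variable {Ω : Set P} {c : ℝ → P}

lemma Ov.cl (h : Ov Ω c) (t : ℝ) : c t ∈ closure Ω := ((h.rng _).1 ⟨t, rfl⟩).1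
lemma Ov.nm (h : Ov Ω c) (t : ℝ) : c t ∉ Ω := ((h.rng _).1 ⟨t, rfl⟩).2

lemma Ov.kill (h : Ov Ω c) {φ : P → ℝ} {k a b : ℝ} (hφ : ∀ z : P, φ z = k + a * z.1 + b * z.2)
    {t : ℝ} (h0 : φ (c t) = 0) (hp : ∀ z ∈ Ω, 0 < φ z) :
    a * (deriv c t).1 + b * (deriv c t).2 = 0 := by
  have hm : IsLocalMin (fun s => φ (c s)) t := by
    refine Eventually.of_forall fun s => ?_
    show φ (c t) ≤ φ (c s)
    rw [h0]
    exact IsAff.nonneg ⟨k, a, b, hφ⟩ hp (h.cl s)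
  exact hm.hasDerivAt_eq_zero (aff_deriv hφ (h.df t))

lemma Ov.spos (h : Ov Ω c) {φ : P → ℝ} (hφ : IsAff φ) {p : P} (hp : p ∈ closure Ω)
    (h0 : φ p = 0) (hpos : ∀ z ∈ Ω, 0 < φ z) {z : P} (hz : z ∈ closure Ω) (hne : z ≠ p) :
    0 < φ z := by
  have := hpos _ (h.sc p hp z hz hne.symm (1 / 2) (by norm_num) (by norm_num))
  rw [hφ.line, h0] at this
  linarith

lemma par_alg {a b a' b' d1 d2 r1 r2 : ℝ} (hab : a ≠ 0 ∨ b ≠ 0) (hd : d1 ≠ 0 ∨ d2 ≠ 0)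
    (h1 : a * d1 + b * d2 = 0) (h2 : a * r1 + b * r2 = 0) (h3 : a' * d1 + b' * d2 = 0) :
    a' * r1 + b' * r2 = 0 := by
  have e : d1 * r2 - d2 * r1 = 0 := by
    rcases hab with h | h
    · apply mul_left_cancel₀ h; linear_combination r2 * h1 - d2 * h2
    · apply mul_left_cancel₀ h; linear_combination d1 * h2 - r1 * h1
  rcases hd with h | h
  · apply mul_left_cancel₀ h; linear_combination r1 * h3 + b' * e
  · apply mul_left_cancel₀ h; linear_combination r2 * h3 - a' * e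

lemma Ov.reg' (h : Ov Ω c) (t : ℝ) : (deriv c t).1 ≠ 0 ∨ (deriv c t).2 ≠ 0 := by
  by_contra hh
  push Not at hh
  exact h.reg t (Prod.ext hh.1 hh.2)

lemma Ov.tang (h : Ov Ω c) {t : ℝ} {r : P} (hr : ∀ τ : ℝ, c t + τ • r ∉ Ω) {α : P → ℝ}
    (hα : IsAff α) (h0 : α (c t) = 0) (hp : ∀ z ∈ Ω, 0 < α z) : α (c t + r) = 0 := by
  obtain ⟨β, ⟨k, a, b, hβ⟩, b0, b1, b2⟩ := sup_line h.ho h.hc hr
  obtain ⟨k', a', b', hα⟩ := hα
  have k1 := h.kill hβ b0 b2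
  have k2 := h.kill hα h0 hp
  have hab : a ≠ 0 ∨ b ≠ 0 := by
    by_contra hh
    push Not at hh
    obtain ⟨O, hO⟩ := h.ne
    have := b2 O hO
    rw [hβ] at this b0
    rw [hh.1, hh.2] at this b0
    linarith
  have k3 : a * r.1 + b * r.2 = 0 := by
    rw [hβ] at b0 b1
    simp only [Prod.fst_add, Prod.snd_add] at b1
    linear_combination b1 - b0
  have := par_alg hab (h.reg' t) k1 k3 k2
  rw [hα] at h0 ⊢
  simp only [Prod.fst_add, Prod.snd_add]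
  linear_combination h0 + this

lemma Ov.par (h : Ov Ω c) {a : ℝ} {ι : Type} {l : Filter ι} {z : ι → P}
    (hz : Tendsto z l (𝓝 (c a))) (hr : ∀ᶠ i in l, z i ∈ range c) :
    ∃ u : ι → ℝ, (∀ᶠ i in l, c (u i) = z i) ∧ Tendsto u l (𝓝 a) := by
  have hex : ∀ i, ∃ u : ℝ, z i ∈ range c → c u = z i ∧ u ∈ Ico (a - 1 / 2) (a - 1 / 2 + 1) := by
    intro i
    by_cases hi : z i ∈ range c
    · obtain ⟨s, hs⟩ := hi
      obtain ⟨y, hy, e⟩ := h.per.exists_mem_Ico one_pos s (a - 1 / 2)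
      exact ⟨y, fun _ => ⟨e ▸ hs, hy⟩⟩
    · exact ⟨0, fun hh => absurd hh hi⟩
  choose u hu using hex
  refine ⟨u, hr.mono fun i hi => (hu i hi).1, ?_⟩
  rw [Metric.tendsto_nhds]
  intro ε hε
  have hcpt : IsCompact (c '' (Icc (a - 1 / 2) (a - ε) ∪ Icc (a + ε) (a + 1 / 2))) :=
    (isCompact_Icc.union isCompact_Icc).image h.df.continuous
  have hn : c a ∈ (c '' (Icc (a - 1 / 2) (a - ε) ∪ Icc (a + ε) (a + 1 / 2)))ᶜ := by
    rintro ⟨s, hs, e⟩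
    obtain ⟨k, hk⟩ := h.inj s a e
    have k1 : (-1 : ℝ) < k ∧ (k : ℝ) < 1 ∧ (k : ℝ) ≠ 0 := by
      rcases hs with hs | hs
      · exact ⟨by linarith [hs.1, hs.2], by linarith [hs.1, hs.2], by linarith [hs.1, hs.2] |> ne_of_gt⟩
      · exact ⟨by linarith [hs.1, hs.2], by linarith [hs.1, hs.2], by linarith [hs.1, hs.2] |> ne_of_lt⟩
    have k2 : -1 < k := by exact_mod_cast k1.1
    have k3 : k < 1 := by exact_mod_cast k1.2.1
    have k4 : k ≠ 0 := by exact_mod_cast k1.2.2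
    omega
  filter_upwards [hr, hz.eventually (hcpt.isClosed.isOpen_compl.mem_nhds hn)] with i h1 h2
  obtain ⟨e, m1, m2⟩ := hu i h1
  rw [Real.dist_eq, abs_lt]
  constructor
  · by_contra hh
    exact h2 ⟨u i, Or.inl ⟨m1, by linarith⟩, e⟩
  · by_contra hh
    exact h2 ⟨u i, Or.inr ⟨by linarith, by linarith⟩, e⟩

end Pool.Agent.H52.OV
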