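import Pool.Agent.H52.OV1

set_option autoImplicit false

namespace Pool.Agent.H52.OV
open Set Filter Topology Pool.Agent.H52.HB

lemma mem_line (O x : P) (t : ℝ) : O + t • (x - O) ∈ affineSpan ℝ {O, x} := by
  rw [mem_affineSpan_pair_iff_exists_lineMap_eq]
  refine ⟨t, ?_⟩
  rw [AffineMap.lineMap_apply]
  ext <;> simp <;> ring

lemma of_mem_line {O x y : P} (h : y ∈ affineSpan ℝ {O, x}) : ∃ t : ℝ, y = O + t • (x - O) := by
  rw [mem_affineSpan_pair_iff_exists_lineMap_eq] at h
  obtain ⟨t, rfl⟩ := h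
  refine ⟨t, ?_⟩
  rw [AffineMap.lineMap_apply]
  ext <;> simp <;> ring

lemma smul_cancel {r : P} (hr : r ≠ 0) {s t : ℝ} {O : P} (h : O + s • r = O + t • r) : s = t := by
  have := add_left_cancel h
  exact smul_left_injective ℝ hr this

variable {Ω : Set P} {c : ℝ → P}

/-- the opposite point through an inner point -/
lemma Ov.opp (h : Ov Ω c) {O x : P} (hO : O ∈ Ω) (hx : x ∉ Ω) :
    O + ex Ω O (O - x) • (O - x) ∈ range c ∧ O + ex Ω O (O - x) • (O - x) ≠ x ∧
      0 < ex Ω O (O - x) := by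
  have hv : O - x ≠ 0 := fun e => hx (by rw [← sub_eq_zero.1 e]; exact hO)
  obtain ⟨a1, a2, a3, -⟩ := ex_spec h.ho h.hc h.hb hO hv
  refine ⟨(h.rng _).2 ⟨a2, a3⟩, fun e => ?_, a1⟩
  have : O + ex Ω O (O - x) • (O - x) = O + (-1 : ℝ) • (O - x) := by rw [e]; simp
  have := smul_cancel hv this
  linarith

lemma Ov.sig_opp (h : Ov Ω c) {O x : P} (hO : O ∈ Ω) (hx : x ∉ Ω) :
    Sig (range c) O x (O + ex Ω O (O - x) • (O - x)) := by
  obtain ⟨a1, a2, -⟩ := h.opp hO hx
  refine ⟨a1, ?_, Or.inl a2⟩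
  convert mem_line O x (-ex Ω O (O - x)) using 1
  ext <;> simp <;> ring

lemma Ov.harm (h : Ov Ω c) {a b : ℝ} (hab : c a ≠ c b) {Q O : P} {α : ℝ} (hα : 0 < α)
    (hα1 : α ≠ 1) (hA : c a = Q + α • (c b - Q)) (hO : O = Q + (2 * α / (1 + α)) • (c b - Q))
    (hC : Conj c O Q) {s t u : ℝ} {y y' : P} (s1 : Sig (range c) O (c s) y)
    (s2 : Sig (range c) Q y (c t)) (s3 : Sig (range c) O (c t) y')
    (s4 : Sig (range c) Q y' (c u)) : c s = c u := by
  obtain ⟨H, hH, hdet, hinj, -, m11, m12, m21, m22, hm, hM⟩ := hC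
  have hHd : Differentiable ℝ H := hH.differentiable (by simp)
  set τ := 2 * α / (1 + α) with hτ
  have h1α : 1 + α ≠ 0 := by linarith
  have h1α' : 1 - α ≠ 0 := fun e => hα1 (by linarith)
  have hA1 : (c a).1 = Q.1 + α * ((c b).1 - Q.1) := by rw [hA]; simp
  have hA2 : (c a).2 = Q.2 + α * ((c b).2 - Q.2) := by rw [hA]; simp
  have hO1 : O.1 = Q.1 + τ * ((c b).1 - Q.1) := by rw [hO]; simp
  have hO2 : O.2 = Q.2 + τ * ((c b).2 - Q.2) := by rw [hO]; simp
  have hOm : O ∈ Ω := by
    have := h.sc _ (h.cl a) _ (h.cl b) hab (α / (1 + α)) (by positivity)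
      (by rw [div_lt_one (by linarith)]; linarith)
    convert this using 1
    ext
    · simp only [Prod.fst_add, Prod.smul_fst, Prod.fst_sub, smul_eq_mul, hO1, hA1, hτ]
      field_simp; ring
    · simp only [Prod.snd_add, Prod.smul_snd, Prod.snd_sub, smul_eq_mul, hO2, hA2, hτ]
      field_simp; ring
  have eB : O + (1 / α) • (O - c a) = c b := by
    ext
    · simp only [Prod.fst_add, Prod.smul_fst, Prod.fst_sub, smul_eq_mul, hO1, hA1, hτ]
      field_simp; ring
    · simp only [Prod.snd_add, Prod.smul_snd, Prod.snd_sub, smul_eq_mul, hO2, hA2, hτ]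
      field_simp; ring
  have eA : O + α • (O - c b) = c a := by
    ext
    · simp only [Prod.fst_add, Prod.smul_fst, Prod.fst_sub, smul_eq_mul, hO1, hA1, hτ]
      field_simp; ring
    · simp only [Prod.snd_add, Prod.smul_snd, Prod.snd_sub, smul_eq_mul, hO2, hA2, hτ]
      field_simp; ring
  have vA : O - c a ≠ 0 := fun e => h.nm a (by rw [← sub_eq_zero.1 e]; exact hOm)
  have vB : O - c b ≠ 0 := fun e => h.nm b (by rw [← sub_eq_zero.1 e]; exact hOm)
  have x1 : ex Ω O (O - c a) = 1 / α :=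
    ex_eq h.ho h.hc h.hb hOm vA (by positivity) (eB ▸ h.cl b) (eB ▸ h.nm b)
  have x2 : ex Ω O (O - c b) = α :=
    ex_eq h.ho h.hc h.hb hOm vB hα (eA ▸ h.cl a) (eA ▸ h.nm a)
  have g1 : Sig (range c) O (c a) (c b) := by
    have := h.sig_opp hOm (h.nm a); rwa [x1, eB] at this
  have g2 : Sig (range c) O (c b) (c a) := by
    have := h.sig_opp hOm (h.nm b); rwa [x2, eA] at this
  have g3 : Sig (range c) Q (c b) (c a) :=
    ⟨⟨a, rfl⟩, by rw [hA]; exact mem_line _ _ _, Or.inl hab⟩
  have g4 : Sig (range c) Q (c a) (c b) := by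
    refine ⟨⟨b, rfl⟩, ?_, Or.inl hab.symm⟩
    convert mem_line Q (c a) (1 / α) using 1
    ext
    · simp only [Prod.fst_add, Prod.smul_fst, Prod.fst_sub, smul_eq_mul, hA1]
      field_simp; ring
    · simp only [Prod.snd_add, Prod.smul_snd, Prod.snd_sub, smul_eq_mul, hA2]
      field_simp; ring
  have e1 := hM a a _ g1 g3
  have e2 := hM b b _ g2 g4
  have hD : dt (H a) (H b) ≠ 0 := fun e => hab ((hinj a b).1 e)
  -- the trace vanishes
  have htr : m11 + m22 = 0 := by
    set η : P → ℝ := fun w => dt (c b - c a) (w - c a) with hη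
    have hηc : ∀ w : P, η w = (-((c b).1 - (c a).1) * (c a).2 + ((c b).2 - (c a).2) * (c a).1) +
        (-((c b).2 - (c a).2)) * w.1 + ((c b).1 - (c a).1) * w.2 := by
      intro w; simp only [hη, dt, Prod.fst_sub, Prod.snd_sub]; ring
    have hηa : IsAff η := ⟨_, _, _, hηc⟩
    have η0 : η (c a) = 0 := by rw [hηc]; ring
    have ηQ : η Q = 0 := by rw [hηc, hA1, hA2]; ring
    have ηO : η O = 0 := by rw [hO, hηa.line, ηQ, hηc]; ring
    have d1 := aff_deriv hηc (h.df a)
    set e := (-((c b).2 - (c a).2)) * (deriv c a).1 + ((c b).1 - (c a).1) * (deriv c a).2 with he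
    have he0 : e ≠ 0 := by
      intro e0
      obtain ⟨σ, ⟨k, a', b', hσ⟩, σ0, σp⟩ := exists_sup h.ho h.hc (h.nm a)
      have k1 := h.kill hσ σ0 σp
      have k2 := h.spos ⟨k, a', b', hσ⟩ (h.cl a) σ0 σp (h.cl b) hab.symm
      have k3 : -((c b).2 - (c a).2) ≠ 0 ∨ (c b).1 - (c a).1 ≠ 0 := by
        by_contra hh
        push Not at hh
        exact hab (Prod.ext (by linarith [hh.2]) (by linarith [hh.1]))
      have := par_alg (r1 := (c b).1 - (c a).1) (r2 := (c b).2 - (c a).2) k3 (h.reg' a)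
        (by rw [← he]; exact e0) (by ring) k1
      rw [hσ] at k2 σ0
      linarith
    have d2 := aff_deriv (φ := fun w => dt (H a) w) (k := 0) (a := -(H a).2) (b := (H a).1)
      (fun w => by simp only [dt]; ring) (hHd a)
    set κ := -(H a).2 * (deriv H a).1 + (H a).1 * (deriv H a).2 with hκ
    have hκ0 : κ ≠ 0 := by
      have := hdet a
      simp only [dt] at this
      intro k0; apply this; rw [hκ] at k0; linarith
    have t1 := hasDerivAt_iff_tendsto_slope.1 d1
    have t2 := hasDerivAt_iff_tendsto_slope.1 d2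
    have q0 : dt (H a) (H a) = 0 := by simp only [dt]; ring
    have ev1 : ∀ᶠ s in 𝓝[≠] a, η (c s) ≠ 0 := by
      filter_upwards [t1.eventually_ne he0] with s hs
      intro h0; apply hs; simp [slope, h0, η0]
    have tρ : Tendsto (fun s => dt (H a) (H s) / η (c s)) (𝓝[≠] a) (𝓝 (κ / e)) := by
      refine (t2.div t1 he0).congr' ?_
      filter_upwards [self_mem_nhdsWithin] with s hs
      have : s - a ≠ 0 := sub_ne_zero.2 hs
      simp only [Pi.div_apply, slope, vsub_eq_sub, smul_eq_mul, η0, q0, sub_zero]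
      rw [mul_div_mul_left _ _ (inv_ne_zero this)]
    have tx : Tendsto c (𝓝[≠] a) (𝓝 (c a)) :=
      h.df.continuous.continuousAt.tendsto.mono_left nhdsWithin_le_nhds
    set E1 : ℝ → ℝ := fun s => ex Ω O (O - c s) with hE1
    have tE1 : Tendsto E1 (𝓝[≠] a) (𝓝 (1 / α)) := by
      rw [← x1]
      exact ex_tend h.ho h.hc h.hb hOm vA tendsto_const_nhds (tendsto_const_nhds.sub tx)
    set Y : ℝ → P := fun s => O + E1 s • (O - c s) with hY
    have tY : Tendsto Y (𝓝[≠] a) (𝓝 (c b)) := by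
      rw [← eB]
      exact tendsto_const_nhds.add (tE1.smul (tendsto_const_nhds.sub tx))
    set O' : ℝ → P := fun s => Q + τ • (Y s - Q) with hO'
    have tO : Tendsto O' (𝓝[≠] a) (𝓝 O) := by
      rw [hO]
      exact tendsto_const_nhds.add ((tY.sub tendsto_const_nhds).const_smul τ)
    set E2 : ℝ → ℝ := fun s => ex Ω (O' s) (O' s - Y s) with hE2
    have tE2 : Tendsto E2 (𝓝[≠] a) (𝓝 α) := by
      rw [← x2]
      exact ex_tend h.ho h.hc h.hb hOm vB tO (tO.sub tY)
    set Z : ℝ → P := fun s => O' s + E2 s • (O' s - Y s) with hZ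
    have tZ : Tendsto Z (𝓝[≠] a) (𝓝 (c a)) := by
      rw [← eA]
      exact tO.add (tE2.smul (tO.sub tY))
    have sY : ∀ s, Sig (range c) O (c s) (Y s) := fun s => h.sig_opp hOm (h.nm s)
    have sZ : ∀ᶠ s in 𝓝[≠] a, Sig (range c) Q (Y s) (Z s) := by
      filter_upwards [tO.eventually (h.ho.mem_nhds hOm)] with s hs
      obtain ⟨a1, a2, -⟩ := h.opp hs ((h.rng _).1 (sY s).1).2
      refine ⟨a1, ?_, Or.inl a2⟩
      convert mem_line Q (Y s) (τ + E2 s * (τ - 1)) using 1
      simp only [hZ, hO']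
      ext <;> simp <;> ring
    obtain ⟨u, hu, tu⟩ := h.par tZ (sZ.mono fun s hs => hs.1)
    set R : ℝ → ℝ := fun s => -E1 s * (τ + E2 s * (τ - 1)) with hR
    have tR : Tendsto R (𝓝[≠] a) (𝓝 (-1)) := by
      have : -(1 / α) * (τ + α * (τ - 1)) = -1 := by rw [hτ]; field_simp; ring
      rw [← this]
      exact tE1.neg.mul (tendsto_const_nhds.add (tE2.mul tendsto_const_nhds))
    have eR : ∀ s, η (Z s) = R s * η (c s) := by
      intro s
      have b1 : η (Y s) = -E1 s * η (c s) := by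
        have := hηa.line O (c s) (-E1 s)
        rw [ηO] at this
        have e' : Y s = O + (-E1 s) • (c s - O) := by simp only [hY]; ext <;> simp <;> ring
        rw [e', this]; ring
      have b2 : η (Z s) = (τ + E2 s * (τ - 1)) * η (Y s) := by
        have := hηa.line Q (Y s) (τ + E2 s * (τ - 1))
        rw [ηQ] at this
        have e' : Z s = Q + (τ + E2 s * (τ - 1)) • (Y s - Q) := by
          simp only [hZ, hO']; ext <;> simp <;> ring
        rw [e', this]; ring
      rw [b2, b1]; simp only [hR]; ring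
    have tu' : Tendsto u (𝓝[≠] a) (𝓝[≠] a) := by
      rw [tendsto_nhdsWithin_iff]
      refine ⟨tu, ?_⟩
      filter_upwards [hu, ev1, tR.eventually_ne (by norm_num : (-1 : ℝ) ≠ 0)] with s b1 b2 b3
      intro (b4 : u s = a)
      have := eR s
      rw [← b1, b4, η0] at this
      exact mul_ne_zero b3 b2 this.symm
    set La := dt (m11 * (H a).1 + m12 * (H a).2, m21 * (H a).1 + m22 * (H a).2) (H b) with hLa
    set Lb := dt (H a) (m11 * (H b).1 + m12 * (H b).2, m21 * (H b).1 + m22 * (H b).2) with hLb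
    have tp : Tendsto (fun s => dt (H s) (H b)) (𝓝[≠] a) (𝓝 (dt (H a) (H b))) := by
      have : Continuous fun s => dt (H s) (H b) := by
        have := hHd.continuous
        simp only [dt]; fun_prop
      exact this.continuousAt.tendsto.mono_left nhdsWithin_le_nhds
    have l1 := ((tp.const_mul La).mul (tρ.comp tu')).mul tR
    have l2 := (tρ.const_mul Lb).mul (tp.comp tu')
    have l3 := tendsto_nhds_unique_of_eventuallyEq l1 l2 (by
      filter_upwards [hu, ev1, sZ, tu'.eventually ev1] with s b1 b2 b3 b4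
      have b5 := hM s (u s) _ (sY s) (b1 ▸ b3)
      have b6 := eR s
      rw [← b1] at b6
      have b7 : La * dt (H s) (H b) * dt (H a) (H (u s)) =
          Lb * dt (H a) (H s) * dt (H (u s)) (H b) := by
        simp only [hLa, hLb, dt] at b5 e1 e2 ⊢
        linear_combination ((H a).1 * (H b).2 - (H a).2 * (H b).1) ^ 2 * b5 -
          ((H s).1 * (H b).2 - (H s).2 * (H b).1) *
            ((H (u s)).1 * (H b).2 - (H (u s)).2 * (H b).1) * e1 -
          ((H a).1 * (H s).2 - (H a).2 * (H s).1) *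
            ((H a).1 * (H (u s)).2 - (H a).2 * (H (u s)).1) * e2
      have b8 : R s = η (c (u s)) / η (c s) := by rw [b6]; field_simp
      simp only [Function.comp]
      rw [b8]
      field_simp
      linear_combination b7)
    have l4 : La + Lb = 0 := by
      have : dt (H a) (H b) * (κ / e) ≠ 0 := mul_ne_zero hD (div_ne_zero hκ0 he0)
      apply mul_left_cancel₀ this
      linear_combination -l3
    apply mul_left_cancel₀ hD
    simp only [hLa, hLb, dt] at l4 ⊢
    linear_combination l4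
  have f1 := hM s t y s1 s2
  have f2 := hM t u y' s3 s4
  have f3 := hdet t
  rw [← hinj]
  have hm22 : m22 = -m11 := by linarith
  subst hm22
  simp only [dt] at f1 f2 f3 ⊢
  have k3 : -(m21 * (H t).1 + -m11 * (H t).2) ≠ 0 ∨ m11 * (H t).1 + m12 * (H t).2 ≠ 0 := by
    by_contra hh
    push Not at hh
    have z1 : (H t).1 = 0 := by
      apply mul_left_cancel₀ hm; linear_combination -m11 * hh.2 + m12 * hh.1
    have z2 : (H t).2 = 0 := by
      apply mul_left_cancel₀ hm; linear_combination -m21 * hh.2 - m11 * hh.1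
    apply f3; rw [z1, z2]; ring
  rcases k3 with k | k
  · apply mul_left_cancel₀ k
    linear_combination (H u).2 * f1 - (H s).2 * f2
  · apply mul_left_cancel₀ k
    linear_combination -(H u).1 * f1 + (H s).1 * f2

end Pool.Agent.H52.OV
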