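import Pool.Agent.H52.OV2

set_option autoImplicit false

namespace Pool.Agent.H52.OV
open Set Filter Topology Pool.Agent.H52.HB

lemma quad {f g : ℝ → ℝ} (h1 : ∀ M X, X ≠ M → f M + g M * (X - M) < f X)
    (h2 : ∀ u v, u ≠ v → f u ≠ f v → f v - f u = (v - u) * g ((u + v) / 2)) :
    ∃ A B C : ℝ, ∀ X, f X = C + A * X + B * X ^ 2 := by
  have sgn : ∀ u v, u < v → f u = f v → ∀ ε, 0 < ε →
      g ((u + v) / 2 - ε) < 0 ∧ 0 < g ((u + v) / 2 + ε) := by
    intro u v huv e ε hε
    have gv : 0 < g v := by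
      have := h1 v u huv.ne
      by_contra hh; push Not at hh; nlinarith
    have gu : g u < 0 := by
      have := h1 u v huv.ne'
      by_contra hh; push Not at hh; nlinarith
    have a1 : f v < f (v + 2 * ε) := by
      have := h1 v (v + 2 * ε) (by linarith); nlinarith
    have a2 : f u < f (u - 2 * ε) := by
      have := h1 u (u - 2 * ε) (by linarith); nlinarith
    have b1 := h2 u (v + 2 * ε) (by linarith) (by linarith)
    have b2 := h2 (u - 2 * ε) v (by linarith) (by linarith)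
    rw [show (u + (v + 2 * ε)) / 2 = (u + v) / 2 + ε by ring] at b1
    rw [show (u - 2 * ε + v) / 2 = (u + v) / 2 - ε by ring] at b2
    constructor
    · by_contra hh; push Not at hh; nlinarith
    · by_contra hh; push Not at hh; nlinarith
  obtain ⟨x, hx⟩ : ∃ x : ℝ, ∀ u v, u < v → f u = f v → (u + v) / 2 = x := by
    by_cases hh : ∃ u v, u < v ∧ f u = f v
    · obtain ⟨u, v, huv, e⟩ := hh
      refine ⟨(u + v) / 2, fun u' v' huv' e' => ?_⟩
      by_contra hne
      rcases lt_or_gt_of_ne hne with hl | hl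
      · have k1 := (sgn u v huv e (((u + v) / 2 - (u' + v') / 2) / 2) (by linarith)).1
        have k2 := (sgn u' v' huv' e' (((u + v) / 2 - (u' + v') / 2) / 2) (by linarith)).2
        rw [show (u' + v') / 2 + ((u + v) / 2 - (u' + v') / 2) / 2 =
          (u + v) / 2 - ((u + v) / 2 - (u' + v') / 2) / 2 by ring] at k2
        linarith
      · have k1 := (sgn u v huv e (((u' + v') / 2 - (u + v) / 2) / 2) (by linarith)).2
        have k2 := (sgn u' v' huv' e' (((u' + v') / 2 - (u + v) / 2) / 2) (by linarith)).1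
        rw [show (u' + v') / 2 - ((u' + v') / 2 - (u + v) / 2) / 2 =
          (u + v) / 2 + ((u' + v') / 2 - (u + v) / 2) / 2 by ring] at k2
        linarith
    · exact ⟨0, fun u v a b => absurd ⟨u, v, a, b⟩ hh⟩
  have h3 : ∀ u v, (u + v) / 2 ≠ x → f v - f u = (v - u) * g ((u + v) / 2) := by
    intro u v hne
    rcases lt_trichotomy u v with hl | he | hl
    · exact h2 u v hl.ne (fun e => hne (hx u v hl e))
    · subst he; ring
    · exact h2 u v hl.ne' (fun e => hne (by rw [add_comm]; exact hx v u hl e.symm))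
  have h4 : ∀ z, z ≠ x → g z = g (x + 1) + (g (x + 2) - g (x + 1)) * (z - (x + 1)) := by
    intro z hz
    have k1 := h3 ((x + 2) + z - (x + 1)) ((x + 1) + z - (x + 2))
      (by intro e; apply hz; linarith)
    have k2 := h3 ((x + 1) + z - (x + 2)) ((x + 1) + (x + 2) - z) (by intro e; linarith)
    have k3 := h3 ((x + 1) + (x + 2) - z) ((x + 2) + z - (x + 1)) (by intro e; linarith)
    rw [show ((x + 2) + z - (x + 1) + ((x + 1) + z - (x + 2))) / 2 = z by ring] at k1
    rw [show ((x + 1) + z - (x + 2) + ((x + 1) + (x + 2) - z)) / 2 = x + 1 by ring] at k2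
    rw [show ((x + 1) + (x + 2) - z + ((x + 2) + z - (x + 1))) / 2 = x + 2 by ring] at k3
    linear_combination (1 / 2) * (k1 + k2 + k3)
  set B := g (x + 2) - g (x + 1) with hB
  set A := g (x + 1) - B * (x + 1) with hA
  have h5 : ∀ u v, (u + v) / 2 ≠ x → f v - A * v - B / 2 * v ^ 2 = f u - A * u - B / 2 * u ^ 2 := by
    intro u v hne
    have := h3 u v hne
    rw [h4 _ hne] at this
    rw [hA]
    linear_combination this
  refine ⟨A, B / 2, f 0, fun X => ?_⟩
  have k1 := h5 X (|X| + 2 * |x| + 1) (by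
    intro e; linarith [neg_abs_le X, le_abs_self x])
  have k2 := h5 0 (|X| + 2 * |x| + 1) (by
    intro e; linarith [abs_nonneg X, le_abs_self x])
  linear_combination k2 - k1

lemma aff_pt {α : P → ℝ} (h : IsAff α) (b d n : P) (x y : ℝ) :
    α (b + x • d + y • n) = α b + x * (α (b + d) - α b) + y * (α (b + n) - α b) := by
  obtain ⟨k, a1, a2, h⟩ := h
  simp only [h, Prod.fst_add, Prod.snd_add, Prod.smul_fst, Prod.smul_snd, smul_eq_mul]
  ring

variable {Ω : Set P} {c : ℝ → P}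

lemma Ov.coord (h : Ov Ω c) : ∃ (d n : P) (ξ η : P → ℝ), IsAff ξ ∧ IsAff η ∧
    (∀ z ∈ Ω, 0 < η z) ∧ (∀ z, z = c 0 + ξ z • d + η z • n) ∧
    (∀ x y : ℝ, ξ (c 0 + x • d + y • n) = x) ∧ (∀ x y : ℝ, η (c 0 + x • d + y • n) = y) := by
  obtain ⟨η, ⟨k, a, b, hη⟩, η0, ηp⟩ := exists_sup h.ho h.hc (h.nm 0)
  have hab : a ^ 2 + b ^ 2 ≠ 0 := by
    intro hh
    have a0 : a = 0 := by nlinarith
    have b0 : b = 0 := by nlinarith
    obtain ⟨O, hO⟩ := h.ne
    have := ηp O hO
    rw [hη] at this η0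
    rw [a0, b0] at this η0
    linarith
  have hk : k = -(a * (c 0).1 + b * (c 0).2) := by rw [hη] at η0; linarith
  refine ⟨(-b, a), (a / (a ^ 2 + b ^ 2), b / (a ^ 2 + b ^ 2)),
    fun z => (-b * (z.1 - (c 0).1) + a * (z.2 - (c 0).2)) / (a ^ 2 + b ^ 2), η,
    ⟨(b * (c 0).1 - a * (c 0).2) / (a ^ 2 + b ^ 2), -b / (a ^ 2 + b ^ 2), a / (a ^ 2 + b ^ 2),
      fun z => by field_simp; ring⟩, ⟨k, a, b, hη⟩, ηp, fun z => ?_, fun x y => ?_, fun x y => ?_⟩
  · ext <;> simp [hη, hk] <;> field_simp <;> ring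
  · simp; field_simp; ring
  · simp [hη, hk]; field_simp; ring

end Pool.Agent.H52.OV
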