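import Pool.Agent.H52.OV3

set_option autoImplicit false

namespace Pool.Agent.H52.OV
open Set Filter Topology Pool.Agent.H52.HB

variable {Ω : Set P} {c : ℝ → P}

lemma Ov.miss (h : Ov Ω c) {Q w : P} (hne : Q - w ≠ 0)
    (hw : ∀ z ∈ range c, z ∈ affineSpan ℝ {Q, w} → z = w) (τ : ℝ) : w + τ • (Q - w) ∉ Ω := by
  intro hN
  obtain ⟨a1, a2, a3, -⟩ := ex_spec h.ho h.hc h.hb hN hne
  obtain ⟨b1, b2, b3, -⟩ := ex_spec h.ho h.hc h.hb hN (neg_ne_zero.2 hne)
  set s := ex Ω (w + τ • (Q - w)) (Q - w)
  set t := ex Ω (w + τ • (Q - w)) (-(Q - w))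
  have k1 := hw _ ((h.rng _).2 ⟨a2, a3⟩) (by
    convert mem_line Q w (1 - τ - s) using 1
    ext <;> simp <;> ring)
  have k2 := hw _ ((h.rng _).2 ⟨b2, b3⟩) (by
    convert mem_line Q w (1 - τ + t) using 1
    ext <;> simp <;> ring)
  have : w + τ • (Q - w) + s • (Q - w) = w + τ • (Q - w) + (-t) • (Q - w) := by
    rw [k1, neg_smul, ← smul_neg, k2]
  have := smul_cancel hne this
  linarith

theorem Ov.main (h : Ov Ω c)
    (H : ∀ O Q : P, O ≠ Q → O ∉ range c → Q ∉ range c →
      (∃ z ∈ range c, z ∈ affineSpan ℝ {O, Q}) → Conj c O Q) :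
    ∃ f : P ≃ᵃ[ℝ] P, Ω = f '' {p : P | p.1 ^ 2 + p.2 ^ 2 < 1} := by
  obtain ⟨d, n, ξ, η, hξ, hη, ηp, dec, cx, cy⟩ := h.coord
  set b := c 0 with hb
  have η0 : η b = 0 := by simpa using cy 0 0
  have ξ0 : ξ b = 0 := by simpa using cx 0 0
  have bcl : b ∈ closure Ω := h.cl 0
  have hex : ∀ X : ℝ, ∃ y : ℝ, 0 < y ∧ b + (y * X) • d + y • n ∈ range c := by
    intro X
    have : ∃ τ : ℝ, c 0 + τ • (X • d + n) ∈ Ω := by
      by_contra hh
      push Not at hh
      have := h.tang hh hη η0 ηp
      have e := cy X 1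
      rw [one_smul, add_assoc, this] at e
      exact zero_ne_one e
    obtain ⟨τ, hτ⟩ := this
    have hv : X • d + n ≠ 0 := by
      intro e0
      have e := cy X 1
      rw [one_smul, add_assoc, e0, add_zero, η0] at e
      exact zero_ne_one e
    obtain ⟨a1, a2, a3, -⟩ := ex_spec h.ho h.hc h.hb hτ hv
    set s := ex Ω (c 0 + τ • (X • d + n)) (X • d + n)
    have τ0 : 0 < τ := by
      have := ηp _ hτ
      have e := cy (τ * X) τ
      rw [show b + (τ * X) • d + τ • n = c 0 + τ • (X • d + n) by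
        rw [hb]; ext <;> simp <;> ring] at e
      linarith
    refine ⟨τ + s, by linarith, ?_⟩
    convert (h.rng _).2 ⟨a2, a3⟩ using 1
    rw [hb]; ext <;> simp <;> ring
  have huniq : ∀ X y y' : ℝ, 0 < y → y < y' → b + (y * X) • d + y • n ∈ range c →
      b + (y' * X) • d + y' • n ∈ range c → False := by
    intro X y y' h0 hl m1 m2
    have y0 : 0 < y' := h0.trans hl
    have := h.sc b bcl _ ((h.rng _).1 m2).1 (fun e => by
      have := cy (y' * X) y'
      rw [← e, η0] at this; linarith) (y / y') (by positivity) (by rwa [div_lt_one y0])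
    apply ((h.rng _).1 m1).2
    convert this using 1
    ext <;> simp <;> field_simp <;> ring
  choose y ypos ymem using hex
  have yuniq : ∀ X y', 0 < y' → b + (y' * X) • d + y' • n ∈ range c → y X = y' := by
    intro X y' h0 m
    rcases lt_trichotomy (y X) y' with hl | he | hl
    · exact (huniq X _ _ (ypos X) hl (ymem X) m).elim
    · exact he
    · exact (huniq X _ _ h0 hl m (ymem X)).elim
  have hsup : ∀ M : ℝ, ∃ α : P → ℝ, IsAff α ∧ α (b + (y M * M) • d + y M • n) = 0 ∧
      ∀ z ∈ Ω, 0 < α z := fun M => exists_sup h.ho h.hc ((h.rng _).1 (ymem M)).2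
  choose α αa α0 αp using hsup
  have αb : ∀ M, 0 < α M b := fun M =>
    h.spos (αa M) ((h.rng _).1 (ymem M)).1 (α0 M) (αp M) bcl (fun e => by
      have := cy (y M * M) (y M)
      rw [← e, η0] at this; linarith [ypos M])
  have Zne : ∀ X M, X ≠ M → b + (y X * X) • d + y X • n ≠ b + (y M * M) • d + y M • n := by
    intro X M hne e
    have e1 := cx (y X * X) (y X)
    have e2 := cy (y X * X) (y X)
    rw [e, cx] at e1
    rw [e, cy] at e2
    rw [e2] at e1
    exact hne (mul_left_cancel₀ (ypos X).ne' e1).symm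
  obtain ⟨A, B, C, hq⟩ := quad (f := fun X => 1 / y X)
    (g := fun M => -(α M (b + d) - α M b) / α M b) (by
      intro M X hne
      have k1 := h.spos (αa M) ((h.rng _).1 (ymem M)).1 (α0 M) (αp M) ((h.rng _).1 (ymem X)).1
        (Zne X M hne)
      have k2 := α0 M
      rw [aff_pt (αa M)] at k1 k2
      have p1 := ypos M; have p2 := ypos X; have p3 := αb M
      set a0 := α M b
      set a1 := α M (b + d) - a0
      set a2 := α M (b + n) - a0
      have : 1 / y X - (1 / y M + -a1 / a0 * (X - M)) =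
          ((a0 + y X * X * a1 + y X * a2) * y M - (a0 + y M * M * a1 + y M * a2) * y X) /
            (a0 * y X * y M) := by field_simp; ring
      rw [k2, zero_mul, sub_zero] at this
      have : 0 < 1 / y X - (1 / y M + -a1 / a0 * (X - M)) := by rw [this]; positivity
      linarith) (by
      intro u v huv hf
      have hy : y u ≠ y v := fun e => hf (by simp only [e])
      have p1 := ypos u; have p2 := ypos v
      have hd : y u - y v ≠ 0 := sub_ne_zero.2 hy
      obtain ⟨a, ha⟩ := ymem u
      obtain ⟨a', ha'⟩ := ymem v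
      set q := y u * y v * (v - u) / (y u - y v) with hq
      have q0 : q ≠ 0 := div_ne_zero (mul_ne_zero (by positivity) (sub_ne_zero.2 huv.symm)) hd
      set Q := b + q • d + (0 : ℝ) • n with hQ
      set p := 2 * y u * y v / (y u + y v) with hp
      have p0 : 0 < p := by positivity
      set M := (u + v) / 2 with hM
      set O := b + (p * M) • d + p • n with hO
      have hab : c a ≠ c a' := by rw [ha, ha']; exact Zne u v huv
      have hA : c a = Q + (y u / y v) • (c a' - Q) := by
        rw [ha, ha', hQ, hq]; ext <;> simp <;> field_simp <;> ring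
      have hO' : O = Q + (2 * (y u / y v) / (1 + y u / y v)) • (c a' - Q) := by
        rw [ha', hO, hQ, hq, hp, hM]; ext <;> simp <;> field_simp <;> ring
      have hOm : O ∈ Ω := by
        have := h.sc _ (h.cl a) _ (h.cl a') hab (y u / (y u + y v)) (by positivity)
          (by rw [div_lt_one (by linarith)]; linarith)
        convert this using 1
        rw [ha, ha', hO, hp, hM]; ext <;> simp <;> field_simp <;> ring
      have Qb : Q ≠ b := fun e => by
        have := cx q 0
        rw [← hQ, e, ξ0] at this; exact q0 this.symm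
      have ηQ : η Q = 0 := cy q 0
      have ηO : η O = p := cy _ p
      have Qn : Q ∉ range c := fun m => by
        have := h.spos hη bcl η0 ηp ((h.rng _).1 m).1 Qb
        linarith
      have hC : Conj c O Q := H O Q (fun e => by rw [e] at ηO; linarith)
        (fun m => ((h.rng _).1 m).2 hOm) Qn ⟨c a', ⟨a', rfl⟩, by
          convert mem_line O Q (-(y v - y u) / (2 * y u)) using 1
          rw [ha', hO, hQ, hq, hp, hM]; ext <;> simp <;> field_simp <;> ring⟩
      obtain ⟨⟨s, hs⟩, w1, w2⟩ := h.opp hOm (h.nm 0)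
      have s3 := h.sig_opp hOm (h.nm 0)
      rw [← hs] at s3 w1
      set T := ex Ω O (O - c 0) with hT
      have hw : c s = b + ((1 + T) * p * M) • d + ((1 + T) * p) • n := by
        rw [hs, hO, ← hb]; ext <;> simp <;> ring
      have yM : y M = (1 + T) * p := yuniq M _ (by positivity) (hw ▸ ⟨s, rfl⟩)
      have s1 : Sig (range c) O (c s) b := by
        refine ⟨⟨0, rfl⟩, ?_, Or.inl w1.symm⟩
        convert mem_line O (c s) (-1 / T) using 1
        rw [hs, ← hb]; ext <;> simp <;> field_simp <;> ring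
      have s2 : Sig (range c) Q b (c 0) := by
        refine ⟨⟨0, rfl⟩, right_mem_affineSpan_pair _ _ _, Or.inr fun z hz hl => ?_⟩
        by_contra hne
        have := h.spos hη bcl η0 ηp ((h.rng _).1 hz).1 hne
        obtain ⟨t, rfl⟩ := of_mem_line hl
        rw [hη.line, ηQ, η0] at this
        linarith
      have tg : ∀ z ∈ range c, z ∈ affineSpan ℝ {Q, c s} → z = c s := by
        rintro _ ⟨u', rfl⟩ hl
        by_contra hne
        exact hne (h.harm hab (div_pos p1 p2) (fun e => hy (by field_simp at e; exact e)) hA hO' hC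
          s1 s2 s3 ⟨⟨u', rfl⟩, hl, Or.inl hne⟩).symm
      have k := h.tang (h.miss (fun e => Qn ⟨s, (sub_eq_zero.1 e).symm⟩) tg) (αa M)
        (by rw [hw, ← yM]; exact α0 M) (αp M)
      rw [add_sub_cancel, hQ, aff_pt (αa M)] at k
      have p3 := αb M
      have k' : α M (b + d) - α M b = -α M b / q := by field_simp; linarith
      show 1 / y v - 1 / y u = (v - u) * (-(α M (b + d) - α M b) / α M b)
      have vu : v - u ≠ 0 := sub_ne_zero.2 huv.symm
      rw [k', hq]; field_simp)
  obtain ⟨k, a1, a2, eη⟩ := id hη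
  obtain ⟨k', b1, b2, eξ⟩ := id hξ
  refine ellipse h.ho h.hc h.hb (F := fun z => η z - (C * η z ^ 2 + A * ξ z * η z + B * ξ z ^ 2))
    (c := k - (C * k ^ 2 + A * k' * k + B * k' ^ 2))
    (l1 := a1 - (2 * C * k * a1 + A * (k' * a1 + b1 * k) + 2 * B * k' * b1))
    (l2 := a2 - (2 * C * k * a2 + A * (k' * a2 + b2 * k) + 2 * B * k' * b2))
    (A := C * a1 ^ 2 + A * b1 * a1 + B * b1 ^ 2)
    (B := C * a1 * a2 + A * (b1 * a2 + b2 * a1) / 2 + B * b1 * b2)
    (C := C * a2 ^ 2 + A * b2 * a2 + B * b2 ^ 2)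
    (fun z => by simp only [eη, eξ]; ring) (O := b + (0 : ℝ) • d + (y 0 / 2) • n) ?_ ?_ ?_
  · have := h.sc b bcl _ ((h.rng _).1 (ymem 0)).1 (fun e => by
      have := cy (y 0 * 0) (y 0)
      rw [← e, η0] at this; linarith [ypos 0]) (1 / 2) (by norm_num) (by norm_num)
    convert this using 1
    ext <;> simp <;> ring
  · simp only [cx, cy]
    have := hq 0
    have p := ypos 0
    have e : C = 1 / y 0 := by linarith
    rw [e]
    have : y 0 / 2 - (1 / y 0 * (y 0 / 2) ^ 2 + A * 0 * (y 0 / 2) + B * 0 ^ 2) = y 0 / 4 := by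
      field_simp; ring
    rw [this]; positivity
  · intro Z h1 h2
    by_cases hZ : Z = b
    · simp [hZ, η0, ξ0]
    · have p := h.spos hη bcl η0 ηp h1 hZ
      have e := yuniq (ξ Z / η Z) (η Z) p (by
        rw [mul_div_cancel₀ _ p.ne', ← dec Z]; exact (h.rng _).2 ⟨h1, h2⟩)
      have := hq (ξ Z / η Z)
      simp only [e] at this
      field_simp at this
      linear_combination this

lemma closure_disc : closure {p : P | p.1 ^ 2 + p.2 ^ 2 < 1} = {p : P | p.1 ^ 2 + p.2 ^ 2 ≤ 1} := by
  apply Subset.antisymm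
  · exact closure_lt_subset_le (by fun_prop) continuous_const
  · intro p (hp : p.1 ^ 2 + p.2 ^ 2 ≤ 1)
    have t1 : Tendsto (fun t : ℝ => t • p) (𝓝[<] 1) (𝓝 p) := by
      have : Continuous fun t : ℝ => t • p := by fun_prop
      have := (this.tendsto 1).mono_left (nhdsWithin_le_nhds (s := Iio 1))
      simpa using this
    refine mem_closure_of_tendsto t1 ?_
    filter_upwards [Ioo_mem_nhdsLT (zero_lt_one' ℝ)] with t ht
    show (t • p).1 ^ 2 + (t • p).2 ^ 2 < 1
    simp only [Prod.smul_fst, Prod.smul_snd, smul_eq_mul]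
    have : t ^ 2 < 1 := by nlinarith [ht.1, ht.2]
    nlinarith [sq_nonneg t]

theorem final {K : Set P} {c : ℝ → P} (hK : IsCompact K) (hs : StrictConvex ℝ K)
    (hne : (interior K).Nonempty) (hc : ContDiff ℝ (⊤ : ℕ∞) c) (hp : Function.Periodic c 1)
    (hr : ∀ t, deriv c t ≠ 0) (hi : ∀ s t, c s = c t → ∃ k : ℤ, t = s + k)
    (hf : range c = frontier K)
    (H : ∀ O Q : P, O ≠ Q → O ∉ range c → Q ∉ range c →
      (∃ z ∈ range c, z ∈ affineSpan ℝ {O, Q}) → Conj c O Q) :
    ∃ f : P ≃ᵃ[ℝ] P, range c = f '' {p : P | p.1 ^ 2 + p.2 ^ 2 = 1} := by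
  have hcl : closure (interior K) = K := by
    rw [hs.convex.closure_interior_eq_closure_of_nonempty_interior hne, hK.isClosed.closure_eq]
  have hrg : ∀ z, z ∈ range c ↔ z ∈ closure (interior K) ∧ z ∉ interior K := by
    intro z
    rw [hf, hcl, frontier, hK.isClosed.closure_eq]; rfl
  have h : Ov (interior K) c :=
    { ho := isOpen_interior
      hc := hs.convex.interior
      hb := hK.isBounded.subset interior_subset
      ne := hne
      sc := by
        intro x hx y hy hxy u h0 h1
        rw [hcl] at hx hy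
        have := hs hx hy hxy (a := 1 - u) (b := u) (by linarith) h0 (by ring)
        convert this using 1
        ext <;> simp <;> ring
      df := hc.differentiable (by simp)
      per := hp
      reg := hr
      inj := hi
      rng := hrg }
  obtain ⟨f, e⟩ := h.main H
  refine ⟨f, ?_⟩
  have e2 : closure (interior K) = f '' {p : P | p.1 ^ 2 + p.2 ^ 2 ≤ 1} := by
    rw [e, ← closure_disc]
    exact (f.toContinuousAffineEquiv.toHomeomorph.image_closure _).symm
  ext z
  rw [hrg, e2, e]
  obtain ⟨p, rfl⟩ := f.surjective z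
  simp only [f.injective.mem_set_image, mem_ofPred_eq]
  constructor
  · intro hh; linarith [hh.1, not_lt.1 hh.2]
  · intro hh; exact ⟨hh.le, by linarith⟩

end Pool.Agent.H52.OV
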