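import Pool.Agent.H52.RCDefs

/-! Groups in which every principal normal subgroup splits off uniformly. -/

set_option autoImplicit false

namespace Pool.Agent.H52.RC

universe u v

variable {G : Type u} [Group G] {H : Type v} [Group H]

def D (z u v : G) : G := u * z * u⁻¹ * (v * z⁻¹ * v⁻¹)

def Q (z p : G) : Prop := ∃ u v : Fin 4 → G,
  p = D z (u 0) (v 0) * D z (u 1) (v 1) * D z (u 2) (v 2) * D z (u 3) (v 3)

def cm (x y : G) : G := x * y * x⁻¹ * y⁻¹

def Cen (a c : G) : Prop := ∀ h, c * (h * a * h⁻¹) = h * a * h⁻¹ * c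

def Good (a : G) : Prop := Q a a ∧ ∃ g, ∀ c, ∃ q1 q2, Q (cm c a) q1 ∧ Q (cm c (g * a * g⁻¹)) q2 ∧
  Cen a ((q1 * q2)⁻¹ * c)

def KK (G : Type u) [Group G] : Prop := ∀ a : G, Good a

theorem Q.map (f : G →* H) {z p : G} (h : Q z p) : Q (f z) (f p) := by
  obtain ⟨u, v, rfl⟩ := h
  exact ⟨fun i => f (u i), fun i => f (v i), by simp [D]⟩

theorem Good.map (f : G →* H) (hf : Function.Surjective f) {a : G} (h : Good a) : Good (f a) := by
  obtain ⟨h1, g, h2⟩ := h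
  refine ⟨h1.map f, f g, fun c => ?_⟩
  obtain ⟨c, rfl⟩ := hf c
  obtain ⟨q1, q2, a1, a2, a3⟩ := h2 c
  refine ⟨f q1, f q2, by simpa [cm] using a1.map f, by simpa [cm] using a2.map f, fun k => ?_⟩
  obtain ⟨k, rfl⟩ := hf k
  simpa using congrArg f (a3 k)

theorem KK.map (f : G →* H) (hf : Function.Surjective f) (h : KK G) : KK H := fun a => by
  obtain ⟨a, rfl⟩ := hf a
  exact (h a).map f hf

theorem Q.prod {z p : G} {w q : H} (h : Q z p) (h' : Q w q) : Q (z, w) (p, q) := by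
  obtain ⟨u, v, rfl⟩ := h
  obtain ⟨u', v', rfl⟩ := h'
  exact ⟨fun i => (u i, u' i), fun i => (v i, v' i), by simp [D]⟩

theorem Good.prod {a : G} {b : H} (h : Good a) (h' : Good b) : Good (a, b) := by
  obtain ⟨h1, g, h2⟩ := h
  obtain ⟨h1', g', h2'⟩ := h'
  refine ⟨h1.prod h1', (g, g'), fun c => ?_⟩
  obtain ⟨q1, q2, a1, a2, a3⟩ := h2 c.1
  obtain ⟨q1', q2', a1', a2', a3'⟩ := h2' c.2
  exact ⟨(q1, q1'), (q2, q2'), a1.prod a1', a2.prod a2', fun k => Prod.ext (a3 k.1) (a3' k.2)⟩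

theorem Q.one (z : G) : Q z 1 := ⟨fun _ => 1, fun _ => 1, by simp [D]⟩

theorem Good.one : Good (1 : G) :=
  ⟨Q.one _, 1, fun c => ⟨1, 1, Q.one _, Q.one _, fun h => by simp⟩⟩

theorem Q.mem {N : Subgroup G} (hN : N.Normal) {z p : G} (h : Q z p) (hz : z ∈ N) : p ∈ N := by
  obtain ⟨u, v, rfl⟩ := h
  have : ∀ u v, D z u v ∈ N := fun u v =>
    N.mul_mem (hN.conj_mem _ hz _) (hN.conj_mem _ (N.inv_mem hz) _)
  exact N.mul_mem (N.mul_mem (N.mul_mem (this _ _) (this _ _)) (this _ _)) (this _ _)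

theorem Q.central {z p : G} (h : Q z p) (hz : ∀ c, Commute c z) : p = 1 := by
  obtain ⟨u, v, rfl⟩ := h
  have : ∀ u v, D z u v = 1 := fun u v => by
    rw [D, (hz u).eq, (hz v).inv_right.eq]; simp
  simp [this]

theorem cm_mem {N : Subgroup G} (hN : N.Normal) (c : G) {a : G} (ha : a ∈ N) : cm c a ∈ N :=
  N.mul_mem (hN.conj_mem _ ha _) (N.inv_mem ha)

theorem Cen.comm {a c : G} (h : Cen a c) {y : G} (hy : y ∈ Subgroup.normalClosure {a}) :
    Commute c y := by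
  have : Subgroup.normalClosure {a} ≤ (Subgroup.centralizer {c}).normalCore :=
    Subgroup.normalClosure_le_normal (by
      rintro _ rfl
      intro b
      rw [Subgroup.mem_centralizer_iff]
      rintro _ rfl
      exact h b)
  exact (Subgroup.normalCore_le _ (this hy)) c rfl

theorem mem_ncl (a : G) : a ∈ Subgroup.normalClosure {a} :=
  Subgroup.subset_normalClosure rfl

theorem Good.split {a : G} (h : Good a) (c : G) :
    ∃ n ∈ Subgroup.normalClosure {a}, ∀ y ∈ Subgroup.normalClosure {a}, Commute (n⁻¹ * c) y := by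
  obtain ⟨-, g, h2⟩ := h
  obtain ⟨q1, q2, a1, a2, a3⟩ := h2 c
  have hN : (Subgroup.normalClosure {a}).Normal := inferInstance
  exact ⟨q1 * q2, Subgroup.mul_mem _ (a1.mem hN (cm_mem hN _ (mem_ncl a)))
    (a2.mem hN (cm_mem hN _ (hN.conj_mem _ (mem_ncl a) _))), fun y hy => a3.comm hy⟩

theorem KK.cless (h : KK G) {a z : G} (hz : z ∈ Subgroup.normalClosure {a})
    (hc : ∀ y ∈ Subgroup.normalClosure {a}, Commute z y) : z = 1 := by
  refine (h z).1.central fun c => ?_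
  obtain ⟨n, hn, h2⟩ := (h a).split c
  have := (hc n hn).symm.mul_left (h2 z hz)
  simpa using this

theorem Good.base {a : G} (h : Good a) : ∃ g, ∀ c, Commute c a → Commute c (g * a * g⁻¹) →
    ∀ y ∈ Subgroup.normalClosure {a}, Commute c y := by
  obtain ⟨-, g, h2⟩ := h
  refine ⟨g, fun c c1 c2 y hy => ?_⟩
  obtain ⟨q1, q2, a1, a2, a3⟩ := h2 c
  have e1 : cm c a = 1 := by rw [cm, c1.eq]; simp
  have e2 : cm c (g * a * g⁻¹) = 1 := by rw [cm, c2.eq]; simp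
  rw [e1] at a1
  rw [e2] at a2
  rw [a1.central fun _ => Commute.one_right _, a2.central fun _ => Commute.one_right _] at a3
  simpa using a3.comm hy

theorem Good.conj {N : Subgroup G} (hN : N.Normal) {a : G} (h : Good a) (ha : a ∈ N) (g : G) :
    ∃ n : N, (n : G) * a * (n : G)⁻¹ = g * a * g⁻¹ := by
  obtain ⟨n, hn, h2⟩ := h.split g
  refine ⟨⟨n, Subgroup.normalClosure_le_normal (N := N) (by rintro _ rfl; exact ha) hn⟩, ?_⟩
  have := (h2 a (mem_ncl a)).eq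
  calc n * a * n⁻¹ = n * (a * (n⁻¹ * g)) * g⁻¹ := by group
    _ = g * a * g⁻¹ := by rw [← this]; group

theorem KK.qsub (h : KK G) {N : Subgroup G} (hN : N.Normal) {z p : N} (hq : Q (z : G) (p : G)) :
    Q z p := by
  obtain ⟨u, v, e⟩ := hq
  choose f hf using (h z).conj hN z.2
  refine ⟨fun i => f (u i), fun i => f (v i), Subtype.ext ?_⟩
  have : ∀ u v, D (z : G) u v = ((D z (f u) (f v) : N) : G) := fun u v => by
    have := congrArg (·⁻¹) (hf v)
    simp only [mul_inv_rev, inv_inv, ← mul_assoc] at this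
    simp only [D, Subgroup.coe_mul, Subgroup.coe_inv, hf u, this]
  simp [e, this]

theorem KK.normal (h : KK G) {N : Subgroup G} (hN : N.Normal) : KK N := fun a => by
  obtain ⟨h1, g, h2⟩ := h a
  obtain ⟨n, hn⟩ := (h a).conj hN a.2 g
  refine ⟨h.qsub hN h1, n, fun c => ?_⟩
  obtain ⟨q1, q2, a1, a2, a3⟩ := h2 c
  rw [← hn] at a2
  refine ⟨⟨q1, a1.mem hN (cm_mem hN _ a.2)⟩, ⟨q2, a2.mem hN (cm_mem hN _ (hN.conj_mem _ a.2 _))⟩,
    h.qsub hN a1, h.qsub hN a2, fun k => Subtype.ext (a3 k)⟩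

/-- The normal closure of `a` inside `N`. -/
def cl (N : Subgroup G) (a : N) : Subgroup G := (Subgroup.normalClosure {a}).map N.subtype

theorem cl_le (N : Subgroup G) (a : N) : cl N a ≤ N := Subgroup.map_subtype_le _

theorem self_cl (N : Subgroup G) (a : N) : (a : G) ∈ cl N a := ⟨a, mem_ncl a, rfl⟩

theorem cl_conj {N : Subgroup G} {a : N} {y g : G} (hy : y ∈ cl N a) (hg : g ∈ N) :
    g * y * g⁻¹ ∈ cl N a := by
  obtain ⟨y, hy, rfl⟩ := hy
  exact ⟨⟨g, hg⟩ * y * ⟨g, hg⟩⁻¹, Subgroup.normalClosure_normal.conj_mem _ hy _, rfl⟩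

theorem cl_min {N Z : Subgroup G} {a : N} (ha : (a : G) ∈ Z)
    (hZ : ∀ y ∈ Z, ∀ g ∈ N, g * y * g⁻¹ ∈ Z) : cl N a ≤ Z := by
  rintro _ ⟨y, hy, rfl⟩
  haveI : (Z.subgroupOf N).Normal := ⟨fun y hy g => hZ y hy g g.2⟩
  exact Subgroup.normalClosure_le_normal (N := Z.subgroupOf N) (by rintro _ rfl; exact ha) hy

theorem cl_split {N : Subgroup G} (h : KK N) (a : N) {c : G} (hc : c ∈ N) :
    ∃ n ∈ cl N a, ∀ y ∈ cl N a, Commute (n⁻¹ * c) y := by
  obtain ⟨n, hn, h2⟩ := (h a).split ⟨c, hc⟩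
  refine ⟨n, ⟨n, hn, rfl⟩, ?_⟩
  rintro _ ⟨y, hy, rfl⟩
  exact congrArg Subtype.val (h2 y hy).eq

theorem cl_cless {N : Subgroup G} (h : KK N) {a : N} {z : G} (hz : z ∈ cl N a)
    (hc : ∀ y ∈ cl N a, Commute z y) : z = 1 := by
  obtain ⟨z, hz, rfl⟩ := hz
  exact congrArg Subtype.val (h.cless hz fun y hy => Subtype.ext (hc y ⟨y, hy, rfl⟩).eq)

theorem cl_base {N : Subgroup G} (h : KK N) (a : N) : ∃ b ∈ N, ∀ c ∈ N, Commute c a →
    Commute c b → ∀ y ∈ cl N a, Commute c y := by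
  obtain ⟨g, hg⟩ := (h a).base
  refine ⟨(g * a * g⁻¹ : N), Subtype.prop _, fun c hc c1 c2 => ?_⟩
  rintro _ ⟨y, hy, rfl⟩
  exact congrArg Subtype.val (hg ⟨c, hc⟩ (Subtype.ext c1.eq) (Subtype.ext c2.eq) y hy).eq

theorem cl_sub {N M : Subgroup G} (hM : M.Normal) (kN : KK N) {z : G}
    (zN : z ∈ N) (zM : z ∈ M) : cl N ⟨z, zN⟩ ≤ cl M ⟨z, zM⟩ := by
  have h1 : cl N ⟨z, zN⟩ ≤ M := cl_min zM fun y hy g _ => hM.conj_mem y hy g
  have : cl N ⟨z, zN⟩ ≤ cl N ⟨z, zN⟩ ⊓ cl M ⟨z, zM⟩ := by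
    refine cl_min ⟨self_cl N ⟨z, zN⟩, self_cl M ⟨z, zM⟩⟩ fun y hy g hg => ⟨cl_conj hy.1 hg, ?_⟩
    obtain ⟨n, hn, h2⟩ := cl_split kN ⟨z, zN⟩ hg
    have e := (h2 y hy.1).eq
    have : g * y * g⁻¹ = n * y * n⁻¹ := by
      calc g * y * g⁻¹ = n * (n⁻¹ * g * y) * g⁻¹ := by group
        _ = n * y * n⁻¹ := by rw [e]; group
    rw [this]
    exact cl_conj hy.2 (h1 hn)
  exact this.trans inf_le_right

theorem stepA {N M : Subgroup G} (hN : N.Normal) (hM : M.Normal) (kN : KK N) (kM : KK M)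
    {x m : G} (hx : x ∈ N) (hm : m ∈ M) : ∃ d ∈ N ⊓ M, Commute x (d⁻¹ * m) ∧
      ∀ y ∈ N, Commute y m → Commute y (d⁻¹ * m) := by
  have zN : x * m * x⁻¹ * m⁻¹ ∈ N := by
    have := N.mul_mem hx (hN.conj_mem _ (N.inv_mem hx) m)
    simpa [mul_assoc] using this
  have zM : x * m * x⁻¹ * m⁻¹ ∈ M := M.mul_mem (hM.conj_mem _ hm _) (M.inv_mem hm)
  have e : cl N ⟨_, zN⟩ = cl M ⟨_, zM⟩ := le_antisymm (cl_sub hM kN zN zM) (cl_sub hN kM zM zN)
  obtain ⟨d, hd, h2⟩ := cl_split kM ⟨_, zM⟩ hm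
  have cj : ∀ y ∈ N, ∀ w ∈ cl M ⟨_, zM⟩, y * w * y⁻¹ ∈ cl M ⟨_, zM⟩ := fun y hy w hw => by
    rw [← e] at hw ⊢
    exact cl_conj hw hy
  have key : ∀ y ∈ N, y * m * y⁻¹ * m⁻¹ ∈ cl M ⟨_, zM⟩ → Commute y (d⁻¹ * m) := fun y hy hz => by
    have h1 : y * (d⁻¹ * m) * y⁻¹ * (d⁻¹ * m)⁻¹ = 1 := by
      refine cl_cless kM (a := ⟨_, zM⟩) ?_ fun w hw => ?_
      · have := Subgroup.mul_mem _ (Subgroup.mul_mem _ (cj y hy _ (Subgroup.inv_mem _ hd)) hz) hd
        convert this using 1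
        group
      · refine Commute.mul_left ?_ (h2 w hw).inv_left
        have := (h2 _ (cj y⁻¹ (N.inv_mem hy) w hw)).eq
        show _ = _
        calc y * (d⁻¹ * m) * y⁻¹ * w = y * (d⁻¹ * m * (y⁻¹ * w * y⁻¹⁻¹)) * y⁻¹ := by group
          _ = w * (y * (d⁻¹ * m) * y⁻¹) := by rw [this]; group
    show _ = _
    calc y * (d⁻¹ * m) = y * (d⁻¹ * m) * y⁻¹ * (d⁻¹ * m)⁻¹ * (d⁻¹ * m * y) := by group
      _ = _ := by rw [h1, one_mul]
  refine ⟨d, ⟨cl_le N _ (e ▸ hd), cl_le M _ hd⟩, key x hx (self_cl M ⟨_, zM⟩), fun y hy c => ?_⟩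
  refine key y hy ?_
  rw [c.eq]
  simpa using Subgroup.one_mem _

theorem stepC {N M : Subgroup G} (hN : N.Normal) (hM : M.Normal) (kN : KK N) (kM : KK M)
    (x : N) {m : G} (hm : m ∈ M) : ∃ n ∈ cl N x, ∀ y ∈ cl N x, Commute (n⁻¹ * m) y := by
  obtain ⟨b, hb, h0⟩ := cl_base kN x
  obtain ⟨d1, hd1, a1, -⟩ := stepA hN hM kN kM x.2 hm
  have m1 : d1⁻¹ * m ∈ M := M.mul_mem (M.inv_mem hd1.2) hm
  obtain ⟨d2, hd2, a2, a3⟩ := stepA hN hM kN kM hb m1
  have a4 := a3 x x.2 a1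
  have m2 : d2⁻¹ * (d1⁻¹ * m) ∈ M := M.mul_mem (M.inv_mem hd2.2) m1
  generalize hμ : d2⁻¹ * (d1⁻¹ * m) = μ at a2 a4 m2
  have h1 : ∀ y ∈ cl N x, Commute μ y := fun y hy => by
    obtain ⟨d3, hd3, b1, b2⟩ := stepA hN hM kN kM (cl_le N x hy) m2
    have c : ∀ w ∈ N, Commute w μ → Commute d3 w := fun w hw c => by
      have := (c.mul_right (b2 w hw c).inv_right).symm
      simpa using this
    have := (h0 d3 hd3.1 (c x x.2 a4) (c b hb a2) y hy).mul_left b1.symm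
    simpa using this
  obtain ⟨n, hn, h2⟩ := cl_split kN x (N.mul_mem hd1.1 hd2.1)
  refine ⟨n, hn, fun y hy => ?_⟩
  have := (h2 y hy).mul_left (h1 y hy)
  rwa [show n⁻¹ * (d1 * d2) * μ = n⁻¹ * m by rw [← hμ]; group] at this

/-- Elements of normal subgroups in the class. -/
def Pc (m : G) : Prop := ∃ M : Subgroup G, M.Normal ∧ KK M ∧ m ∈ M

def Gen (G : Type u) [Group G] : Prop := ∀ a : G, ∃ l : List G, (∀ m ∈ l, Pc m) ∧ l.prod = a

theorem Pc.map (f : G →* H) (hf : Function.Surjective f) {m : G} (h : Pc m) : Pc (f m) := by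
  obtain ⟨M, hM, k, hm⟩ := h
  exact ⟨M.map f, hM.map f hf, k.map (f.subgroupMap M) (f.subgroupMap_surjective M), m, hm, rfl⟩

theorem Gen.map (f : G →* H) (hf : Function.Surjective f) (h : Gen G) : Gen H := fun a => by
  obtain ⟨a, rfl⟩ := hf a
  obtain ⟨l, hl, rfl⟩ := h a
  refine ⟨l.map f, fun m hm => ?_, (map_list_prod f l).symm⟩
  obtain ⟨m', hm', rfl⟩ := List.mem_map.1 hm
  exact (hl m' hm').map f hf

theorem Gen.split (h : Gen G) {N : Subgroup G} (hN : N.Normal) (kN : KK N) (x : N) (g : G) :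
    ∃ n ∈ cl N x, ∀ y ∈ cl N x, Commute (n⁻¹ * g) y := by
  obtain ⟨l, hl, rfl⟩ := h g
  induction l with
  | nil => exact ⟨1, Subgroup.one_mem _, fun y _ => by simp⟩
  | cons m l ih =>
    obtain ⟨n, hn, h1⟩ := ih fun m hm => hl m (List.mem_cons_of_mem _ hm)
    obtain ⟨M, hM, kM, hm⟩ := hl m List.mem_cons_self
    obtain ⟨n', hn', h2⟩ := stepC hN hM kN kM x hm
    refine ⟨n' * n, Subgroup.mul_mem _ hn' hn, fun y hy => ?_⟩
    have e := (h2 _ (Subgroup.inv_mem _ hn)).eq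
    have := (h2 y hy).mul_left (h1 y hy)
    have e2 : (n' * n)⁻¹ * (m :: l).prod = n'⁻¹ * m * (n⁻¹ * l.prod) := by
      rw [List.prod_cons]
      calc (n' * n)⁻¹ * (m * l.prod) = n⁻¹ * (n'⁻¹ * m) * l.prod := by group
        _ = _ := by rw [← e]; group
    rwa [e2]

theorem good_list : ∀ (k : ℕ) (G : Type u) [Group G], Gen G → ∀ l : List G, l.length = k →
    (∀ m ∈ l, Pc m) → Good l.prod
  | 0, G, _, _, l, hk, _ => by
    rw [List.length_eq_zero_iff.1 hk]; exact Good.one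
  | k + 1, G, _, h, x :: l, hk, hl => by
    obtain ⟨N, hN, kN, hx⟩ := hl x List.mem_cons_self
    let X := cl N ⟨x, hx⟩
    let C := Subgroup.centralizer (X : Set G)
    have hc : ∀ (a : X) (c : C), Commute (X.subtype a) (C.subtype c) := fun a c => c.2 a a.2
    let φ : X × C →* G := X.subtype.noncommCoprod C.subtype hc
    have hs : Function.Surjective φ := fun g => by
      obtain ⟨n, hn, h1⟩ := h.split hN kN ⟨x, hx⟩ g
      exact ⟨(⟨n, hn⟩, ⟨n⁻¹ * g, fun y hy => (h1 y hy).eq.symm⟩), by simp [φ]⟩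
    have hi : Function.Injective φ := (injective_iff_map_eq_one φ).2 fun p hp => by
      have e : (p.1 : G) * p.2 = 1 := hp
      have e1 : (p.1 : G) = 1 := cl_cless kN p.1.2 fun y hy => by
        rw [eq_inv_of_mul_eq_one_left e]
        exact (Commute.inv_right (show Commute y (p.2 : G) from p.2.2 y hy)).symm
      rw [e1, one_mul] at e
      exact Prod.ext (Subtype.ext e1) (Subtype.ext e)
    let ε := MulEquiv.ofBijective φ ⟨hi, hs⟩
    let π : G →* C := (MonoidHom.snd X C).comp ε.symm.toMonoidHom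
    have hπ : Function.Surjective π := Prod.snd_surjective.comp ε.symm.surjective
    have πx : π x = 1 := by
      have : ε.symm x = (⟨x, self_cl N ⟨x, hx⟩⟩, 1) := by
        rw [MulEquiv.symm_apply_eq]
        show x = x * 1
        simp
      show (ε.symm x).2 = 1
      rw [this]
    have kX : KK X := (kN.normal Subgroup.normalClosure_normal).map
      (N.subtype.subgroupMap _) (N.subtype.subgroupMap_surjective _)
    have g2 : Good (π (x :: l).prod) := by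
      rw [List.prod_cons, map_mul, πx, one_mul, map_list_prod]
      refine good_list k C (h.map π hπ) _ (by simpa using hk) fun m hm => ?_
      obtain ⟨m', hm', rfl⟩ := List.mem_map.1 hm
      exact (hl m' (List.mem_cons_of_mem _ hm')).map π hπ
    have := ((kX (ε.symm (x :: l).prod).1).prod g2).map φ hs
    rwa [show φ ((ε.symm (x :: l).prod).1, π (x :: l).prod) = (x :: l).prod from
      ε.apply_symm_apply _] at this

theorem radical : IsRadical.{u} fun G _ => KK G where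
  image := fun _ _ _ _ f hf h => h.map f hf
  normal := fun _ _ _ hN h => h.normal hN
  gen := fun G _ h => by
    have hg : Gen G := fun a => by
      have ha : a ∈ sSup {N : Subgroup G | N.Normal ∧ KK N} := h ▸ Subgroup.mem_top a
      rw [sSup_eq_iSup'] at ha
      refine Subgroup.iSup_induction _ (C := fun a => ∃ l : List G, (∀ m ∈ l, Pc m) ∧ l.prod = a)
        ha (fun N m hm => ⟨[m], by simpa using ⟨N, N.2.1, N.2.2, hm⟩, by simp⟩) ⟨[], by simp, rfl⟩ ?_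
      rintro _ _ ⟨l, hl, rfl⟩ ⟨l', hl', rfl⟩
      exact ⟨l ++ l', fun m hm => (List.mem_append.1 hm).elim (hl m) (hl' m), by simp⟩
    intro a
    obtain ⟨l, hl, rfl⟩ := hg a
    exact good_list _ G hg l rfl hl

end Pool.Agent.H52.RC
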