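import Pool.Agent.H52.RC1

/-! `SL₂` over an algebraically closed field of characteristic two lies in the class. -/

set_option autoImplicit false

namespace Pool.Agent.H52.RC

@[ext] structure S2 (K : Type) [Field K] where
  p : K
  q : K
  r : K
  s : K
  h : p * s - q * r = 1

variable {K : Type} [Field K]

instance : Mul (S2 K) := ⟨fun a b => ⟨a.p * b.p + a.q * b.r, a.p * b.q + a.q * b.s,
  a.r * b.p + a.s * b.r, a.r * b.q + a.s * b.s, by
    linear_combination (b.p * b.s - b.q * b.r) * a.h + b.h⟩⟩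
instance : One (S2 K) := ⟨⟨1, 0, 0, 1, by ring⟩⟩
instance : Inv (S2 K) := ⟨fun a => ⟨a.s, -a.q, -a.r, a.p, by linear_combination a.h⟩⟩

@[simp] theorem mul_p (a b : S2 K) : (a * b).p = a.p * b.p + a.q * b.r := rfl
@[simp] theorem mul_q (a b : S2 K) : (a * b).q = a.p * b.q + a.q * b.s := rfl
@[simp] theorem mul_r (a b : S2 K) : (a * b).r = a.r * b.p + a.s * b.r := rfl
@[simp] theorem mul_s (a b : S2 K) : (a * b).s = a.r * b.q + a.s * b.s := rfl
@[simp] theorem one_p : (1 : S2 K).p = 1 := rfl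
@[simp] theorem one_q : (1 : S2 K).q = 0 := rfl
@[simp] theorem one_r : (1 : S2 K).r = 0 := rfl
@[simp] theorem one_s : (1 : S2 K).s = 1 := rfl
@[simp] theorem inv_p (a : S2 K) : a⁻¹.p = a.s := rfl
@[simp] theorem inv_q (a : S2 K) : a⁻¹.q = -a.q := rfl
@[simp] theorem inv_r (a : S2 K) : a⁻¹.r = -a.r := rfl
@[simp] theorem inv_s (a : S2 K) : a⁻¹.s = a.p := rfl

instance : Group (S2 K) := Group.ofLeftAxioms
  (fun a b c => by ext <;> simp <;> ring)
  (fun a => by ext <;> simp)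
  (fun a => by ext <;> simp <;> first | ring1 | linear_combination a.h)

def up (x : K) : S2 K := ⟨1, x, 0, 1, by ring⟩
def lo (x : K) : S2 K := ⟨1, 0, x, 1, by ring⟩
def dg (x : K) (hx : x ≠ 0) : S2 K := ⟨x, 0, 0, x⁻¹, by simp [hx]⟩
def ww : S2 K := ⟨0, 1, -1, 0, by ring⟩

theorem sq_one [CharP K 2] {x : K} (h : x * x = 1) : x = 1 := by
  have h2 : (2 : K) = 0 := CharTwo.two_eq_zero
  have : (x - 1) ^ 2 = 0 := by linear_combination h + (1 - x) * h2
  exact sub_eq_zero.1 (pow_eq_zero_iff two_ne_zero |>.1 this)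

theorem canon [IsAlgClosed K] [CharP K 2] {z : S2 K} (hz : z ≠ 1) : ∃ h : S2 K,
    (∃ x, x ≠ 0 ∧ h * z * h⁻¹ = up x) ∨ ∃ x hx, x * x ≠ 1 ∧ h * z * h⁻¹ = dg x hx := by
  have tri : ∃ h : S2 K, (h * z * h⁻¹).r = 0 := by
    by_cases hr : z.r = 0
    · exact ⟨1, by simpa using hr⟩
    · obtain ⟨μ, hμ⟩ := IsAlgClosed.exists_root
        (Polynomial.C 1 * Polynomial.X ^ 2 + Polynomial.C (-(z.p + z.s)) * Polynomial.X +
          Polynomial.C (1 : K)) (by rw [Polynomial.degree_quadratic one_ne_zero]; decide)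
      simp only [Polynomial.IsRoot.def, Polynomial.eval_add, Polynomial.eval_mul,
        Polynomial.eval_C, Polynomial.eval_pow, Polynomial.eval_X] at hμ
      refine ⟨⟨0, z.r⁻¹, -z.r, μ - z.s, by simp [hr]⟩, ?_⟩
      simp only [mul_r, mul_s, inv_p, inv_r]
      linear_combination z.r * hμ + z.r * z.h
  obtain ⟨h, hh⟩ := tri
  generalize ha : h * z * h⁻¹ = a at hh
  have a1 : a ≠ 1 := fun e => hz (by rw [e] at ha; simpa [mul_inv_eq_one] using ha)
  have hd := a.h
  rw [hh, mul_zero, sub_zero] at hd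
  by_cases e : a.p = a.s
  · have p1 : a.p = 1 := sq_one (by rw [← hd, e])
    refine ⟨h, Or.inl ⟨a.q, fun q0 => a1 ?_, ?_⟩⟩
    · ext <;> simp [← e, p1, q0, hh]
    · rw [ha]; ext <;> simp [up, ← e, p1, hh]
  · have p0 : a.p ≠ 0 := left_ne_zero_of_mul_eq_one hd
    have hs : a.s = a.p⁻¹ := eq_inv_of_mul_eq_one_right hd
    have e' : a.p - a.s ≠ 0 := sub_ne_zero.2 e
    refine ⟨up (a.q / (a.p - a.s)) * h, Or.inr ⟨a.p, p0, fun e2 => e ?_, ?_⟩⟩
    · rw [hs]; exact eq_inv_of_mul_eq_one_right e2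
    · rw [show up (a.q / (a.p - a.s)) * h * z * (up (a.q / (a.p - a.s)) * h)⁻¹ =
        up (a.q / (a.p - a.s)) * (h * z * h⁻¹) * (up (a.q / (a.p - a.s)))⁻¹ by group, ha]
      ext
      · simp [up, dg, hh]
      · simp only [up, dg, mul_q, mul_p, inv_q, inv_s, hh]
        field_simp
        ring
      · simp [up, dg, hh]
      · simp [up, dg, hh, hs]

def DD {G : Type} [Group G] (z p : G) : Prop := ∃ u v, p = D z u v

theorem DD.cj {G : Type} [Group G] {z p : G} (h : DD z p) (k : G) : DD z (k * p * k⁻¹) := by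
  obtain ⟨u, v, rfl⟩ := h
  exact ⟨k * u, k * v, by simp only [D]; group⟩

theorem DD.cj' {G : Type} [Group G] {z p : G} (k : G) (h : DD (k * z * k⁻¹) p) : DD z p := by
  obtain ⟨u, v, rfl⟩ := h
  exact ⟨u * k, v * k, by simp only [D]; group⟩

theorem dd_up [IsAlgClosed K] [CharP K 2] {t : K} (t0 : t ≠ 0) (t1 : t * t ≠ 1) {z : S2 K}
    (hz : z ≠ 1) (y : K) : DD z (up y) := by
  have h0 : ∃ x, x ≠ 0 ∧ DD z (up x) := by
    obtain ⟨h, ⟨x, x0, e⟩ | ⟨x, x0, x1, e⟩⟩ := canon hz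
    · refine ⟨x * (t * t - 1), mul_ne_zero x0 (sub_ne_zero.2 t1), DD.cj' h ⟨dg t t0, 1, ?_⟩⟩
      rw [e]
      ext <;> simp [D, up, dg, t0]
      ring
    · refine ⟨x * x - 1, sub_ne_zero.2 x1, DD.cj' h ⟨1, up 1, ?_⟩⟩
      rw [e]
      ext <;> simp [D, up, dg, x0]
      field_simp
      ring
  obtain ⟨x, x0, hx⟩ := h0
  by_cases y0 : y = 0
  · exact ⟨1, 1, by ext <;> simp [D, up, y0]⟩
  · obtain ⟨l, hl⟩ := IsAlgClosed.exists_eq_mul_self (y / x)
    have l0 : l ≠ 0 := by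
      rintro rfl
      exact div_ne_zero y0 x0 (by simpa using hl)
    have := hx.cj (dg l l0)
    have e : dg l l0 * up x * (dg l l0)⁻¹ = up y := by
      ext <;> simp [up, dg, l0]
      field_simp at hl
      linear_combination -hl
    rwa [e] at this

theorem q_all [IsAlgClosed K] [CharP K 2] {t : K} (t0 : t ≠ 0) (t1 : t * t ≠ 1) {z : S2 K}
    (hz : z ≠ 1) (b : S2 K) : Q z b := by
  have hl : ∀ y, DD z (lo y) := fun y => by
    have := (dd_up t0 t1 hz (-y)).cj ww
    rwa [show ww * up (-y) * ww⁻¹ = lo y by ext <;> simp [ww, up, lo]] at this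
  have h3 : ∀ c : S2 K, c.r ≠ 0 → c = up ((c.p - 1) / c.r) * lo c.r * up ((c.s - 1) / c.r) :=
    fun c hc => by
      ext <;> simp [up, lo] <;> field_simp
      · ring
      · linear_combination -c.h
      · ring
  have h5 : ∀ c : S2 K, c.r ≠ 0 → ∀ e, ∃ x y w, lo e * c = lo e * up x * lo y * up w :=
    fun c hc e => ⟨_, _, _, by rw [mul_assoc, mul_assoc, ← mul_assoc (up _), ← h3 c hc]⟩
  have h4 : ∃ e x y w, b = lo e * up x * lo y * up w := by
    by_cases hr : b.r = 0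
    · have p0 : b.p ≠ 0 := fun e => by simpa [hr, e] using b.h
      have := h5 (lo 1 * b) (by simpa [lo, hr] using p0) (-1)
      rw [show lo (-1) * (lo 1 * b) = b by ext <;> simp [lo]] at this
      exact ⟨_, this⟩
    · have := h5 b hr 0
      rw [show lo 0 * b = b by ext <;> simp [lo]] at this
      exact ⟨_, this⟩
  obtain ⟨e, x, y, w, rfl⟩ := h4
  obtain ⟨u0, v0, e0⟩ := hl e
  obtain ⟨u1, v1, e1⟩ := dd_up t0 t1 hz x
  obtain ⟨u2, v2, e2⟩ := hl y
  obtain ⟨u3, v3, e3⟩ := dd_up t0 t1 hz w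
  exact ⟨![u0, u1, u2, u3], ![v0, v1, v2, v3], by rw [e0, e1, e2, e3]; rfl⟩

theorem base2 [IsAlgClosed K] [CharP K 2] {a : S2 K} (ha : a ≠ 1) :
    ∃ g : S2 K, ∀ c, Commute c a → Commute c (g * a * g⁻¹) → c = 1 := by
  obtain ⟨h, hh⟩ := canon ha
  have : ∃ g : S2 K, ∀ c, Commute c (h * a * h⁻¹) → Commute c (g * (h * a * h⁻¹) * g⁻¹) →
      c = 1 := by
    rcases hh with ⟨x, x0, e⟩ | ⟨x, x0, x1, e⟩
    · refine ⟨ww, fun c c1 c2 => ?_⟩
      rw [e] at c1 c2
      have e1 := congrArg S2.p c1.eq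
      have e2 := congrArg S2.q c1.eq
      have e3 := congrArg S2.p c2.eq
      simp [up, ww, x0] at e1 e2 e3
      have ps : c.p = c.s := mul_left_cancel₀ x0 (by linear_combination e2)
      have p1 : c.p = 1 := sq_one (by have := c.h; rw [e1, ← ps] at this; linear_combination this)
      ext <;> simp [← ps, p1, e1, e3]
    · refine ⟨up 1, fun c c1 c2 => ?_⟩
      rw [e] at c1 c2
      have x2 : x - x⁻¹ ≠ 0 := fun e => x1 (by field_simp at e; linear_combination e)
      have e1 := congrArg S2.q c1.eq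
      have e2 := congrArg S2.r c1.eq
      have e3 := congrArg S2.q c2.eq
      simp only [up, dg, mul_q, mul_r, mul_p, mul_s, inv_p, inv_q, inv_r, inv_s] at e1 e2 e3
      have q0 : c.q = 0 := mul_left_cancel₀ x2 (by linear_combination -e1)
      have r0 : c.r = 0 := mul_left_cancel₀ x2 (by linear_combination e2)
      rw [q0] at e3
      have ps : c.p = c.s := mul_left_cancel₀ x2 (by linear_combination -e3)
      have p1 : c.p = 1 := sq_one (by have := c.h; rw [r0, ← ps] at this; linear_combination this)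
      ext <;> simp [← ps, p1, q0, r0]
  obtain ⟨g, hg⟩ := this
  refine ⟨h⁻¹ * g * h, fun c c1 c2 => ?_⟩
  have := hg (h * c * h⁻¹) (by simpa using c1.map (MulAut.conj h))
    (by have := c2.map (MulAut.conj h); simpa [mul_assoc] using this)
  simpa [mul_inv_eq_one] using this

theorem kk_s2 [IsAlgClosed K] [CharP K 2] {t : K} (t0 : t ≠ 0) (t1 : t * t ≠ 1) : KK (S2 K) :=
  fun a => by
  by_cases ha : a = 1
  · rw [ha]; exact Good.one
  obtain ⟨g, hg⟩ := base2 ha
  refine ⟨q_all t0 t1 ha a, g, fun c => ?_⟩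
  have cc : ∀ x y : S2 K, cm x y = 1 → Commute x y := fun x y e => by
    rw [cm, mul_inv_eq_one, mul_inv_eq_iff_eq_mul] at e
    exact e
  by_cases c1 : cm c a = 1
  · by_cases c2 : cm c (g * a * g⁻¹) = 1
    · exact ⟨1, 1, Q.one _, Q.one _, fun h => by simp [hg c (cc _ _ c1) (cc _ _ c2)]⟩
    · exact ⟨1, c, Q.one _, q_all t0 t1 c2 c, fun h => by simp⟩
  · exact ⟨c, 1, q_all t0 t1 c1 c, Q.one _, fun h => by simp⟩

theorem dg_pow {t : K} (t0 : t ≠ 0) (n : ℕ) : (dg t t0 ^ n).p = t ^ n := by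
  induction n with
  | zero => simp
  | succ n ih => rw [pow_succ, mul_p, ih, pow_succ]; simp [dg]

abbrev K2 : Type := AlgebraicClosure (RatFunc (ZMod 2))

noncomputable def tt : K2 := algebraMap (RatFunc (ZMod 2)) K2 RatFunc.X

theorem tt_pow {n : ℕ} (h : tt ^ n = 1) : n = 0 := by
  rw [tt, ← map_pow, ← map_one (algebraMap (RatFunc (ZMod 2)) K2)] at h
  have := (algebraMap (RatFunc (ZMod 2)) K2).injective h
  rw [← RatFunc.algebraMap_X, ← map_pow, ← map_one (algebraMap (Polynomial (ZMod 2)) _)] at this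
  have := congrArg Polynomial.natDegree (RatFunc.algebraMap_injective _ this)
  simpa using this

theorem tt0 : tt ≠ 0 := by
  simpa [tt] using RatFunc.X_ne_zero

instance : CharP K2 2 := by
  have : CharP (RatFunc (ZMod 2)) 2 := inferInstance
  infer_instance

theorem kk_ex : KK (S2 K2) := kk_s2 tt0 fun h => by simpa using tt_pow (n := 2) (by rw [sq, h])

theorem inf_order : ¬ IsOfFinOrder (dg tt tt0) := fun h => by
  obtain ⟨n, hn, e⟩ := isOfFinOrder_iff_pow_eq_one.1 h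
  have := dg_pow tt0 n
  rw [e] at this
  exact hn.ne' (tt_pow this.symm)

end Pool.Agent.H52.RC
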