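import Pool.Agent.H52.RC2

/-! The class is first-order definable. -/

set_option autoImplicit false

namespace Pool.Agent.H52.RC

open FirstOrder Language

universe u

attribute [local instance] str

abbrev Fn (α : Type) := ∀ (G : Type u) [Group G], (α → G) → G
abbrev Pr (α : Type) := ∀ (G : Type u) [Group G], (α → G) → Prop

def Tm {α : Type} (f : Fn.{u} α) : Prop :=
  ∃ t : Lg.Term α, ∀ (G : Type u) [Group G] (ρ : α → G), t.realize ρ = f G ρ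

def Df {α : Type} (P : Pr.{u} α) : Prop :=
  ∃ φ : Lg.Formula α, ∀ (G : Type u) [Group G] (ρ : α → G), φ.Realize ρ ↔ P G ρ

variable {α : Type} {f f' : Fn.{u} α} {P P' : Pr.{u} α}

theorem Tm.var (i : α) : Tm.{u} fun _ _ ρ => ρ i := ⟨.var i, fun _ _ _ => rfl⟩

theorem Tm.mul (h : Tm f) (h' : Tm f') : Tm fun G _ ρ => f G ρ * f' G ρ := by
  obtain ⟨t, h⟩ := h
  obtain ⟨t', h'⟩ := h'
  exact ⟨.func GF.mul ![t, t'], fun G _ ρ => congrArg₂ (· * ·) (h G ρ) (h' G ρ)⟩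

theorem Tm.inv (h : Tm f) : Tm fun G _ ρ => (f G ρ)⁻¹ := by
  obtain ⟨t, h⟩ := h
  exact ⟨.func GF.inv ![t], fun G _ ρ => congrArg (·⁻¹) (h G ρ)⟩

theorem Tm.inl {β : Type} (h : Tm f) : Tm fun G _ (ρ : α ⊕ β → G) => f G fun i => ρ (.inl i) := by
  obtain ⟨t, h⟩ := h
  exact ⟨t.relabel .inl, fun G _ ρ => by rw [Term.realize_relabel, h]; rfl⟩

theorem Df.eq (h : Tm f) (h' : Tm f') : Df fun G _ ρ => f G ρ = f' G ρ := by
  obtain ⟨t, h⟩ := h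
  obtain ⟨t', h'⟩ := h'
  exact ⟨t.equal t', fun G _ ρ => by rw [Formula.realize_equal, h, h']⟩

theorem Df.and (h : Df P) (h' : Df P') : Df fun G _ ρ => P G ρ ∧ P' G ρ := by
  obtain ⟨t, h⟩ := h
  obtain ⟨t', h'⟩ := h'
  exact ⟨t ⊓ t', fun G _ ρ => by rw [Formula.realize_inf, h, h']⟩

theorem Df.ex {β : Type} [Finite β] {R : Pr.{u} (α ⊕ β)} (h : Df R) :
    Df fun G _ ρ => ∃ σ : β → G, R G (Sum.elim ρ σ) := by
  obtain ⟨t, h⟩ := h
  exact ⟨t.iExs β, fun G _ ρ => by simp only [Formula.realize_iExs, h]⟩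

theorem Df.all {β : Type} [Finite β] {R : Pr.{u} (α ⊕ β)} (h : Df R) :
    Df fun G _ ρ => ∀ σ : β → G, R G (Sum.elim ρ σ) := by
  obtain ⟨t, h⟩ := h
  exact ⟨t.iAlls β, fun G _ ρ => by simp only [Formula.realize_iAlls, h]⟩

theorem Df.of_iff (h : Df P) (e : ∀ (G : Type u) [Group G] (ρ : α → G), P G ρ ↔ P' G ρ) : Df P' := by
  obtain ⟨t, h⟩ := h
  exact ⟨t, fun G _ ρ => (h G ρ).trans (e G ρ)⟩

theorem Df.ex1 {R : ∀ (G : Type u) [Group G], (α → G) → G → Prop}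
    (h : Df fun G _ (ρ : α ⊕ Unit → G) => R G (fun i => ρ (.inl i)) (ρ (.inr ()))) :
    Df fun G _ ρ => ∃ x, R G ρ x :=
  h.ex.of_iff fun _ _ _ => ⟨fun ⟨σ, h⟩ => ⟨σ (), h⟩, fun ⟨x, h⟩ => ⟨fun _ => x, h⟩⟩

theorem Df.all1 {R : ∀ (G : Type u) [Group G], (α → G) → G → Prop}
    (h : Df fun G _ (ρ : α ⊕ Unit → G) => R G (fun i => ρ (.inl i)) (ρ (.inr ()))) :
    Df fun G _ ρ => ∀ x, R G ρ x :=
  h.all.of_iff fun _ _ _ => ⟨fun h x => h fun _ => x, fun h σ => h (σ ())⟩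

theorem Tm.d {f'' : Fn.{u} α} (h : Tm f) (h' : Tm f') (h'' : Tm f'') :
    Tm fun G _ ρ => D (f G ρ) (f' G ρ) (f'' G ρ) :=
  ((h'.mul h).mul h'.inv).mul ((h''.mul h.inv).mul h''.inv)

theorem Tm.cm (h : Tm f) (h' : Tm f') : Tm fun G _ ρ => cm (f G ρ) (f' G ρ) :=
  ((h.mul h').mul h.inv).mul h'.inv

theorem Df.q (h : Tm f) (h' : Tm f') : Df fun G _ ρ => Q (f G ρ) (f' G ρ) := by
  have t : ∀ i : Fin 4, Tm fun G _ (ρ : α ⊕ (Fin 4 ⊕ Fin 4) → G) =>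
      D (f G fun i => ρ (.inl i)) (ρ (.inr (.inl i))) (ρ (.inr (.inr i))) :=
    fun i => h.inl.d (.var _) (.var _)
  exact (Df.eq h'.inl ((((t 0).mul (t 1)).mul (t 2)).mul (t 3))).ex.of_iff fun G _ ρ =>
    ⟨fun ⟨σ, e⟩ => ⟨fun i => σ (.inl i), fun i => σ (.inr i), e⟩, fun ⟨u, v, e⟩ => ⟨Sum.elim u v, e⟩⟩

theorem Df.cen (h : Tm f) (h' : Tm f') : Df fun G _ ρ => Cen (f G ρ) (f' G ρ) :=
  Df.all1 (Df.eq (h'.inl.mul (((Tm.var _).mul h.inl).mul (Tm.var _).inv))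
    ((((Tm.var _).mul h.inl).mul (Tm.var _).inv).mul h'.inl))

theorem Df.good (h : Tm f) : Df fun G _ ρ => Good (f G ρ) :=
  (Df.q h h).and (Df.ex1 (Df.all1 (Df.ex1 (Df.ex1 (
    (Df.q ((Tm.var (.inl (.inl (.inr ())))).cm h.inl.inl.inl.inl) (Tm.var (.inl (.inr ())))).and
    ((Df.q ((Tm.var (.inl (.inl (.inr ())))).cm (((Tm.var (.inl (.inl (.inl (.inr ()))))).mul
      h.inl.inl.inl.inl).mul (Tm.var (.inl (.inl (.inl (.inr ()))))).inv)) (Tm.var (.inr ()))).and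
    (Df.cen h.inl.inl.inl.inl (((Tm.var (.inl (.inr ()))).mul (Tm.var (.inr ()))).inv.mul
      (Tm.var (.inl (.inl (.inr ()))))))))))))

theorem exists_theory : ∃ φ : Lg.Sentence, ∀ (G : Type u) [Group G], Models {φ} G ↔ KK G := by
  obtain ⟨φ, h⟩ : Df.{u} fun G _ (_ : Empty → G) => ∀ a : G, Good a :=
    Df.all1 (Df.good (Tm.var _))
  refine ⟨φ, fun G _ => ?_⟩
  rw [Models, Theory.model_singleton_iff]
  exact h G _

theorem main : ∃ φ : Lg.Sentence, IsRadical.{u} (fun G _ => Models {φ} G) ∧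
    (∃ (G : Type u) (_ : Group G), Models {φ} G ∧ ¬ LocFin G) ∧
    ∃ (G : Type u) (_ : Group G), ¬ Models {φ} G := by
  obtain ⟨φ, h⟩ := exists_theory.{u}
  refine ⟨φ, ?_, ⟨ULift (S2 K2), inferInstance, ?_, fun hl => inf_order ?_⟩,
    ULift (Multiplicative ℤ), inferInstance, fun hm => ?_⟩
  · simp only [h]; exact radical
  · exact (h _).2 (kk_ex.map (MulEquiv.ulift (α := S2 K2)).symm.toMonoidHom
      (MulEquiv.ulift (α := S2 K2)).symm.surjective)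
  · have := hl {ULift.up (dg tt tt0)}
    rw [Finset.coe_singleton, ← Subgroup.zpowers_eq_closure] at this
    exact MulEquiv.ulift.toMonoidHom.isOfFinOrder (finite_zpowers.1 this)
  · have := ((h _).1 hm (ULift.up (Multiplicative.ofAdd 1))).1.central fun c => Commute.all _ _
    simpa using congrArg ULift.down this

end Pool.Agent.H52.RC
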