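import Mathlib

/-! Radical classes of groups and the first-order language of groups. -/

set_option autoImplicit false

namespace Pool.Agent.H52.RC

open FirstOrder

universe u

/-- Function symbols of the language of groups. -/
inductive GF : ℕ → Type
  | one : GF 0
  | inv : GF 1
  | mul : GF 2

/-- The language of groups: `1`, inverse, product. -/
def Lg : Language := { Functions := GF, Relations := fun _ => Empty }

/-- The interpretation of the function symbols in a group. -/
def fm (G : Type u) [Group G] : ∀ {n : ℕ}, GF n → (Fin n → G) → G
  | _, .one, _ => 1
  | _, .inv, v => (v 0)⁻¹
  | _, .mul, v => v 0 * v 1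

/-- A group as a structure for the language of groups. -/
@[reducible] def str (G : Type u) [Group G] : Lg.Structure G where
  funMap := fm G
  RelMap := fun r _ => Empty.elim r

/-- The group `G` satisfies every sentence of `T`. -/
def Models (T : Lg.Theory) (G : Type u) [Group G] : Prop :=
  @Language.Theory.Model Lg G (str G) T

/-- A radical class: closed under homomorphic images (so under isomorphism), normal subgroups,
and groups generated by their normal subgroups lying in the class. -/
structure IsRadical (K : ∀ (G : Type u) [Group G], Prop) : Prop where
  image : ∀ (G H : Type u) [Group G] [Group H] (f : G →* H), Function.Surjective f → K G → K H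
  normal : ∀ (G : Type u) [Group G] (N : Subgroup G), N.Normal → K G → K N
  gen : ∀ (G : Type u) [Group G], sSup {N : Subgroup G | N.Normal ∧ K N} = ⊤ → K G

/-- Every finitely generated subgroup is finite. -/
def LocFin (G : Type u) [Group G] : Prop :=
  ∀ S : Finset G, Finite (Subgroup.closure (S : Set G))

end Pool.Agent.H52.RC
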