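import Mathlib

namespace Pool.Agent.H52.RTri1

def inK (x y : ℝ) : Prop := 0 ≤ (-2373) * (y - (223)) - (1785) * (x - (2046)) ∧ 0 ≤ (-1881) * (y - (2008)) - (-2241) * (x - (-327)) ∧ 0 ≤ (2162) * (y - (-233)) - (-2034) * (x - (-2208)) ∧ 0 ≤ (1251) * (y - (-2267)) - (1115) * (x - (-46)) ∧ 0 ≤ (841) * (y - (-1152)) - (1375) * (x - (1205))

lemma step (c s D x0 y0 : ℝ) (hD : 0 < D) (hN : 0 < c ^ 2 + s ^ 2)
    (H : ∀ x y, inK x y → 0 ≤ c * (x - x0) + s * (y - y0) ∧ 0 ≤ -s * (x - x0) + c * (y - y0) ∧
      (c * (x - x0) + s * (y - y0)) * D + (-s * (x - x0) + c * (y - y0)) * (c ^ 2 + s ^ 2) ≤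
        (c ^ 2 + s ^ 2) * D)
    (x y xi yi xj yj : ℝ) (h : inK x y) (hi : inK xi yi) (hj : inK xj yj)
    (ha : 0 ≤ c * (x - xi) + s * (y - yi))
    (hab : 9550198 * (c ^ 2 + s ^ 2) ≤ (c * (x - xi) + s * (y - yi)) * (-s * (x - xj) + c * (y - yj))) :
    4 * 9550198 ≤ D := by
  obtain ⟨-, -, h3⟩ := H x y h
  obtain ⟨h1, -, -⟩ := H xi yi hi
  obtain ⟨-, h2, -⟩ := H xj yj hj
  generalize hN' : c ^ 2 + s ^ 2 = N at *
  obtain ⟨a, ea⟩ : ∃ a, a = c * (x - xi) + s * (y - yi) := ⟨_, rfl⟩
  obtain ⟨b, eb⟩ : ∃ b, b = -s * (x - xj) + c * (y - yj) := ⟨_, rfl⟩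
  rw [← ea] at ha
  rw [← ea, ← eb] at hab
  have h4 : a * D + b * N ≤ N * D := by
    have e1 : a ≤ c * (x - x0) + s * (y - y0) := by rw [ea]; linarith
    have e2 : b ≤ -s * (x - x0) + c * (y - y0) := by rw [eb]; linarith
    nlinarith [mul_le_mul_of_nonneg_right e1 hD.le, mul_le_mul_of_nonneg_right e2 hN.le]
  have hb : 0 ≤ b := by
    by_contra hb
    push Not at hb
    nlinarith [mul_nonneg ha (neg_nonneg.mpr hb.le)]
  have h5 : 0 ≤ a * D + b * N := by positivity
  have h6 : (a * D + b * N) ^ 2 ≤ (N * D) ^ 2 := by gcongr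
  have h7 : 4 * (a * b) * (N * D) ≤ (N * D) * (N * D) := by nlinarith [sq_nonneg (a * D - b * N)]
  have h8 : 4 * (a * b) ≤ N * D := le_of_mul_le_mul_right h7 (by positivity)
  have h9 : N * (4 * 9550198) ≤ N * D := by linarith
  exact le_of_mul_le_mul_left h9 hN

lemma key (c s D x0 y0 : ℝ) (hD : 0 < D) (hN : 0 < c ^ 2 + s ^ 2)
    (H : ∀ x y, inK x y → 0 ≤ c * (x - x0) + s * (y - y0) ∧ 0 ≤ -s * (x - x0) + c * (y - y0) ∧
      (c * (x - x0) + s * (y - y0)) * D + (-s * (x - x0) + c * (y - y0)) * (c ^ 2 + s ^ 2) ≤
        (c ^ 2 + s ^ 2) * D) : 4 * 9550198 ≤ D := by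
  have S := step c s D x0 y0 hD hN H
  clear H
  rcases le_total 0 s with hs | hs
  · have h0 : 0 ≤ (1) * s - (0) * c := by linarith
    rcases le_total 0 ((358) * c - (934) * s) with g | g
    · exact S (20301/25) (5756/5) (-2208) (-233) (-46) (-2267) (by norm_num [inK]) (by norm_num [inK]) (by norm_num [inK]) (by linarith)
        (by nlinarith [mul_nonneg h0 g, mul_self_nonneg ((1) * s - (0) * c), mul_self_nonneg ((358) * c - (934) * s)])
    have h1 : 0 ≤ (934) * s - (358) * c := by linarith
    clear g h0
    rcases le_total 0 ((688) * c - (725) * s) with g | g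
    · exact S (-327) (2008) (-2208) (-233) (-46) (-2267) (by norm_num [inK]) (by norm_num [inK]) (by norm_num [inK]) (by linarith)
        (by nlinarith [mul_nonneg h1 g, mul_self_nonneg ((934) * s - (358) * c), mul_self_nonneg ((688) * c - (725) * s)])
    have h2 : 0 ≤ (725) * s - (688) * c := by linarith
    clear g h1
    rcases le_total 0 ((734) * c - (679) * s) with g | g
    · exact S (-327) (2008) (-2208) (-233) (1205) (-1152) (by norm_num [inK]) (by norm_num [inK]) (by norm_num [inK]) (by linarith)
        (by nlinarith [mul_nonneg h2 g, mul_self_nonneg ((725) * s - (688) * c), mul_self_nonneg ((734) * c - (679) * s)])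
    have h3 : 0 ≤ (679) * s - (734) * c := by linarith
    clear g h2
    rcases le_total 0 ((956) * c - (292) * s) with g | g
    · exact S (-327) (2008) (-46) (-2267) (1205) (-1152) (by norm_num [inK]) (by norm_num [inK]) (by norm_num [inK]) (by linarith)
        (by nlinarith [mul_nonneg h3 g, mul_self_nonneg ((679) * s - (734) * c), mul_self_nonneg ((956) * c - (292) * s)])
    have h4 : 0 ≤ (292) * s - (956) * c := by linarith
    clear g h3
    rcases le_total 0 ((971) * c - (-238) * s) with g | g
    · exact S (-8913/10) (13357/10) (-46) (-2267) (2046) (223) (by norm_num [inK]) (by norm_num [inK]) (by norm_num [inK]) (by linarith)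
        (by nlinarith [mul_nonneg h4 g, mul_self_nonneg ((292) * s - (956) * c), mul_self_nonneg ((971) * c - (-238) * s)])
    have h5 : 0 ≤ (-238) * s - (971) * c := by linarith
    clear g h4
    rcases le_total 0 ((679) * c - (-734) * s) with g | g
    · exact S (-2208) (-233) (-46) (-2267) (2046) (223) (by norm_num [inK]) (by norm_num [inK]) (by norm_num [inK]) (by linarith)
        (by nlinarith [mul_nonneg h5 g, mul_self_nonneg ((-238) * s - (971) * c), mul_self_nonneg ((679) * c - (-734) * s)])
    have h6 : 0 ≤ (-734) * s - (679) * c := by linarith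
    clear g h5
    rcases le_total 0 ((598) * c - (-801) * s) with g | g
    · exact S (-2208) (-233) (1205) (-1152) (2046) (223) (by norm_num [inK]) (by norm_num [inK]) (by norm_num [inK]) (by linarith)
        (by nlinarith [mul_nonneg h6 g, mul_self_nonneg ((-734) * s - (679) * c), mul_self_nonneg ((598) * c - (-801) * s)])
    have h7 : 0 ≤ (-801) * s - (598) * c := by linarith
    clear g h6
    rcases le_total 0 ((305) * c - (-952) * s) with g | g
    · exact S (-2208) (-233) (1205) (-1152) (-327) (2008) (by norm_num [inK]) (by norm_num [inK]) (by norm_num [inK]) (by linarith)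
        (by nlinarith [mul_nonneg h7 g, mul_self_nonneg ((-801) * s - (598) * c), mul_self_nonneg ((305) * c - (-952) * s)])
    have h8 : 0 ≤ (-952) * s - (305) * c := by linarith
    clear g h7
    have g : 0 ≤ (0) * c - (-1) * s := by linarith
    exact S (-54119/25) (-6842/25) (2046) (223) (-327) (2008) (by norm_num [inK]) (by norm_num [inK]) (by norm_num [inK]) (by linarith)
        (by nlinarith [mul_nonneg h8 g, mul_self_nonneg ((-952) * s - (305) * c), mul_self_nonneg ((0) * c - (-1) * s)])
  · have h0 : 0 ≤ (-1) * s - (0) * c := by linarith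
    rcases le_total 0 ((-577) * c - (-817) * s) with g | g
    · exact S (-15203/25) (-43454/25) (2046) (223) (-327) (2008) (by norm_num [inK]) (by norm_num [inK]) (by norm_num [inK]) (by linarith)
        (by nlinarith [mul_nonneg h0 g, mul_self_nonneg ((-1) * s - (0) * c), mul_self_nonneg ((-577) * c - (-817) * s)])
    have h1 : 0 ≤ (-817) * s - (-577) * c := by linarith
    clear g h0
    rcases le_total 0 ((-769) * c - (-639) * s) with g | g
    · exact S (-46) (-2267) (2046) (223) (-327) (2008) (by norm_num [inK]) (by norm_num [inK]) (by norm_num [inK]) (by linarith)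
        (by nlinarith [mul_nonneg h1 g, mul_self_nonneg ((-817) * s - (-577) * c), mul_self_nonneg ((-769) * c - (-639) * s)])
    have h2 : 0 ≤ (-639) * s - (-769) * c := by linarith
    clear g h1
    rcases le_total 0 ((-809) * c - (-588) * s) with g | g
    · exact S (-46) (-2267) (2046) (223) (-2208) (-233) (by norm_num [inK]) (by norm_num [inK]) (by norm_num [inK]) (by linarith)
        (by nlinarith [mul_nonneg h2 g, mul_self_nonneg ((-639) * s - (-769) * c), mul_self_nonneg ((-809) * c - (-588) * s)])
    have h3 : 0 ≤ (-588) * s - (-809) * c := by linarith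
    clear g h2
    rcases le_total 0 ((-999) * c - (-35) * s) with g | g
    · exact S (-1049/50) (-22447/10) (-327) (2008) (-2208) (-233) (by norm_num [inK]) (by norm_num [inK]) (by norm_num [inK]) (by linarith)
        (by nlinarith [mul_nonneg h3 g, mul_self_nonneg ((-588) * s - (-809) * c), mul_self_nonneg ((-999) * c - (-35) * s)])
    have h4 : 0 ≤ (-35) * s - (-999) * c := by linarith
    clear g h3
    rcases le_total 0 ((-883) * c - (469) * s) with g | g
    · exact S (6866/5) (-877) (-327) (2008) (-2208) (-233) (by norm_num [inK]) (by norm_num [inK]) (by norm_num [inK]) (by linarith)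
        (by nlinarith [mul_nonneg h4 g, mul_self_nonneg ((-35) * s - (-999) * c), mul_self_nonneg ((-883) * c - (469) * s)])
    have h5 : 0 ≤ (469) * s - (-883) * c := by linarith
    clear g h4
    rcases le_total 0 ((-682) * c - (731) * s) with g | g
    · exact S (2046) (223) (-327) (2008) (-2208) (-233) (by norm_num [inK]) (by norm_num [inK]) (by norm_num [inK]) (by linarith)
        (by nlinarith [mul_nonneg h5 g, mul_self_nonneg ((469) * s - (-883) * c), mul_self_nonneg ((-682) * c - (731) * s)])
    have h6 : 0 ≤ (731) * s - (-682) * c := by linarith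
    clear g h5
    rcases le_total 0 ((-541) * c - (841) * s) with g | g
    · exact S (2046) (223) (-327) (2008) (-46) (-2267) (by norm_num [inK]) (by norm_num [inK]) (by norm_num [inK]) (by linarith)
        (by nlinarith [mul_nonneg h6 g, mul_self_nonneg ((731) * s - (-682) * c), mul_self_nonneg ((-541) * c - (841) * s)])
    have h7 : 0 ≤ (841) * s - (-541) * c := by linarith
    clear g h6
    have g : 0 ≤ (0) * c - (1) * s := by linarith
    exact S (2046) (223) (-2208) (-233) (-46) (-2267) (by norm_num [inK]) (by norm_num [inK]) (by norm_num [inK]) (by linarith)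
        (by nlinarith [mul_nonneg h7 g, mul_self_nonneg ((841) * s - (-541) * c), mul_self_nonneg ((0) * c - (1) * s)])

end Pool.Agent.H52.RTri1
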