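import Mathlib
import Pool.Agent.H52.RTri1

namespace Pool.Agent.H52.RTri2
open MeasureTheory Pointwise Pool.Agent.H52.RTri1

abbrev E2 := EuclideanSpace ℝ (Fin 2)

def o (a b c : E2) : ℝ := (b 0 - a 0) * (c 1 - a 1) - (b 1 - a 1) * (c 0 - a 0)

lemma mem_of_o (S : Set E2) (hS : Convex ℝ S) (a b c p : E2) (ha : a ∈ S) (hb : b ∈ S)
    (hc : c ∈ S) (h0 : 0 < o a b c) (h1 : 0 ≤ o b c p) (h2 : 0 ≤ o c a p) (h3 : 0 ≤ o a b p) :
    p ∈ S := by
  have hsum : o b c p + o c a p + o a b p = o a b c := by unfold o; ring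
  have := hS.sum_mem (t := Finset.univ) (w := ![o b c p / o a b c, o c a p / o a b c, o a b p / o a b c])
    (z := ![a, b, c]) (fun i _ => by fin_cases i <;> simp <;> positivity)
    (by simp [Fin.sum_univ_three]; field_simp; linarith)
    (fun i _ => by fin_cases i <;> simpa)
  convert this using 1
  have h0' := h0.ne'
  ext i
  fin_cases i
  · simp [Fin.sum_univ_three]; field_simp; unfold o; ring
  · simp [Fin.sum_univ_three]; field_simp; unfold o; ring

noncomputable def κ : ENNReal := volume (convexHull ℝ ({0, !₂[1, 0], !₂[0, 1]} : Set E2))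

lemma vol_tri (a b c : E2) :
    volume (convexHull ℝ ({a, b, c} : Set E2)) = ENNReal.ofReal |o a b c| * κ := by
  let M : Matrix (Fin 2) (Fin 2) ℝ := !![b 0 - a 0, c 0 - a 0; b 1 - a 1, c 1 - a 1]
  let L : E2 →ₗ[ℝ] E2 := Matrix.toLpLin 2 2 M
  have hdet : LinearMap.det L = o a b c := by
    have : LinearMap.det L = M.det := by
      simp only [L, Matrix.toLpLin_eq_toLin, LinearMap.det_toLin]
    rw [this, Matrix.det_fin_two]
    simp [M, o]; ring
  have h1 : L !₂[1, 0] = b - a := by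
    ext i; fin_cases i <;> simp [L, M, Matrix.toLpLin_apply]
  have h2 : L !₂[0, 1] = c - a := by
    ext i; fin_cases i <;> simp [L, M, Matrix.toLpLin_apply]
  have h3 : convexHull ℝ ({a, b, c} : Set E2) =
      a +ᵥ (L '' convexHull ℝ ({0, !₂[1, 0], !₂[0, 1]} : Set E2)) := by
    rw [LinearMap.image_convexHull, ← convexHull_vadd]
    congr 1
    simp [Set.image_insert_eq, h1, h2, Set.vadd_set_insert]
  rw [h3, measure_vadd, Measure.addHaar_image_linearMap, hdet]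
  rfl


def K0 : Set E2 := {p | inK (p 0) (p 1)}

noncomputable def v0 : E2 := !₂[2046, 223]
noncomputable def v1 : E2 := !₂[-327, 2008]
noncomputable def v2 : E2 := !₂[-2208, -233]
noncomputable def v3 : E2 := !₂[-46, -2267]
noncomputable def v4 : E2 := !₂[1205, -1152]

lemma tri_mem (a b c p : E2) (h0 : 0 < o a b c) (h1 : 0 ≤ o b c p) (h2 : 0 ≤ o c a p)
    (h3 : 0 ≤ o a b p) : p ∈ convexHull ℝ ({a, b, c} : Set E2) :=
  mem_of_o _ (convex_convexHull ℝ _) a b c p (subset_convexHull ℝ _ (by simp))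
    (subset_convexHull ℝ _ (by simp)) (subset_convexHull ℝ _ (by simp)) h0 h1 h2 h3

lemma cover : K0 ⊆ (convexHull ℝ {v0, v1, v2} ∪ convexHull ℝ {v0, v2, v3}) ∪
    convexHull ℝ {v0, v3, v4} := by
  rintro p ⟨h0, h1, h2, h3, h4⟩
  rcases le_total 0 (o v2 v0 p) with g | g
  · refine Or.inl (Or.inl (tri_mem _ _ _ _ ?_ ?_ g ?_)) <;> simp [o, v0, v1, v2] <;> linarith
  rcases le_total 0 (o v3 v0 p) with g' | g'
  · refine Or.inl (Or.inr (tri_mem _ _ _ _ ?_ ?_ g' ?_)) <;> simp [o, v0, v2, v3] at g ⊢ <;> linarith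
  · refine Or.inr (tri_mem _ _ _ _ ?_ ?_ ?_ ?_) <;> simp [o, v0, v3, v4] at g' ⊢ <;> linarith

lemma tri_cpt (a b c : E2) : IsCompact (convexHull ℝ ({a, b, c} : Set E2)) :=
  (Set.toFinite _).isCompact_convexHull ℝ

lemma K0_closed : IsClosed K0 := by
  unfold K0 inK
  simp only [Set.setOf_and]
  refine IsClosed.inter ?_ (IsClosed.inter ?_ (IsClosed.inter ?_ (IsClosed.inter ?_ ?_))) <;>
    exact isClosed_le (by fun_prop) (by fun_prop)

lemma K0_cpt : IsCompact K0 :=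
  (((tri_cpt _ _ _).union (tri_cpt _ _ _)).union (tri_cpt _ _ _)).of_isClosed_subset K0_closed cover

lemma K0_cvx : Convex ℝ K0 := by
  rintro x ⟨x0, x1, x2, x3, x4⟩ y ⟨y0, y1, y2, y3, y4⟩ a b ha hb hab
  obtain rfl : b = 1 - a := by linarith
  refine ⟨?_, ?_, ?_, ?_, ?_⟩ <;> simp only [PiLp.add_apply, PiLp.smul_apply, smul_eq_mul]
  · nlinarith [mul_nonneg ha x0, mul_nonneg hb y0]
  · nlinarith [mul_nonneg ha x1, mul_nonneg hb y1]
  · nlinarith [mul_nonneg ha x2, mul_nonneg hb y2]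
  · nlinarith [mul_nonneg ha x3, mul_nonneg hb y3]
  · nlinarith [mul_nonneg ha x4, mul_nonneg hb y4]

lemma K0_int : (0 : E2) ∈ interior K0 := by
  have hU : IsOpen {p : E2 | |p 0| < 1 ∧ |p 1| < 1} := by
    rw [Set.setOf_and]
    refine IsOpen.inter ?_ ?_ <;> exact isOpen_lt (by fun_prop) (by fun_prop)
  refine mem_interior.mpr ⟨_, ?_, hU, by simp⟩
  rintro p ⟨h0, h1⟩
  obtain ⟨a1, a2⟩ := abs_lt.mp h0
  obtain ⟨a3, a4⟩ := abs_lt.mp h1
  refine ⟨?_, ?_, ?_, ?_, ?_⟩ <;> linarith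

lemma K0_vol : volume K0 ≤ ENNReal.ofReal 19096396 * κ := by
  refine (measure_mono cover).trans ((measure_union_le _ _).trans ?_)
  refine (add_le_add (measure_union_le _ _) le_rfl).trans (le_of_eq ?_)
  rw [vol_tri, vol_tri, vol_tri, ← add_mul, ← add_mul,
    ← ENNReal.ofReal_add (abs_nonneg _) (abs_nonneg _),
    ← ENNReal.ofReal_add (by positivity) (abs_nonneg _)]
  congr 2
  simp [o, v0, v1, v2, v3, v4]; norm_num

lemma κ_fin : κ ≠ ⊤ := (tri_cpt _ _ _).measure_lt_top.ne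

lemma main1 (O P Q : E2) (hP : P ≠ O)
    (hperp : (P 0 - O 0) * (Q 0 - O 0) + (P 1 - O 1) * (Q 1 - O 1) = 0) (hD : 0 < o O P Q)
    (h : K0 ⊆ convexHull ℝ {O, P, Q}) : 4 * 9550198 ≤ o O P Q := by
  have hN : 0 < (P 0 - O 0) ^ 2 + (P 1 - O 1) ^ 2 := by
    by_contra hc
    apply hP
    have e0 : P 0 - O 0 = 0 := by nlinarith [sq_nonneg (P 0 - O 0), sq_nonneg (P 1 - O 1)]
    have e1 : P 1 - O 1 = 0 := by nlinarith [sq_nonneg (P 0 - O 0), sq_nonneg (P 1 - O 1)]
    ext i; fin_cases i <;> simp <;> linarith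
  refine key (P 0 - O 0) (P 1 - O 1) (o O P Q) (O 0) (O 1) hD hN fun x y hxy => ?_
  generalize hD' : o O P Q = D at *
  have hsub : convexHull ℝ ({O, P, Q} : Set E2) ⊆ {z : E2 |
      0 ≤ (P 0 - O 0) * (z 0 - O 0) + (P 1 - O 1) * (z 1 - O 1) ∧
      0 ≤ -(P 1 - O 1) * (z 0 - O 0) + (P 0 - O 0) * (z 1 - O 1) ∧
      ((P 0 - O 0) * (z 0 - O 0) + (P 1 - O 1) * (z 1 - O 1)) * D +
        (-(P 1 - O 1) * (z 0 - O 0) + (P 0 - O 0) * (z 1 - O 1)) *
          ((P 0 - O 0) ^ 2 + (P 1 - O 1) ^ 2) ≤ ((P 0 - O 0) ^ 2 + (P 1 - O 1) ^ 2) * D} := by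
    apply convexHull_min
    · intro z hz
      simp only [Set.mem_insert_iff, Set.mem_singleton_iff] at hz
      have e : -(P 1 - O 1) * (Q 0 - O 0) + (P 0 - O 0) * (Q 1 - O 1) = D := by
        rw [← hD']; unfold o; ring
      rcases hz with rfl | rfl | rfl
      · refine ⟨by simp, by simp, ?_⟩
        simp only [sub_self, mul_zero, add_zero, zero_mul]; positivity
      · refine ⟨by nlinarith, by linarith, le_of_eq (by ring)⟩
      · refine ⟨by rw [hperp], by rw [e]; exact hD.le, ?_⟩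
        rw [hperp, e]; linarith
    · rintro z ⟨z0, z1, z2⟩ w ⟨w0, w1, w2⟩ a b ha hb hab
      obtain rfl : b = 1 - a := by linarith
      refine ⟨?_, ?_, ?_⟩ <;> simp only [PiLp.add_apply, PiLp.smul_apply, smul_eq_mul]
      · linarith [mul_nonneg ha z0, mul_nonneg hb w0]
      · linarith [mul_nonneg ha z1, mul_nonneg hb w1]
      · linarith [mul_le_mul_of_nonneg_left z2 ha, mul_le_mul_of_nonneg_left w2 hb]
  have hz : (!₂[x, y] : E2) ∈ K0 := by simpa [K0] using hxy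
  simpa using hsub (h hz)

lemma main0 (O P Q : E2) (hP : P ≠ O) (hQ : Q ≠ O)
    (hperp : (P 0 - O 0) * (Q 0 - O 0) + (P 1 - O 1) * (Q 1 - O 1) = 0)
    (h : K0 ⊆ convexHull ℝ {O, P, Q}) : 4 * 9550198 ≤ |o O P Q| := by
  rcases lt_trichotomy (o O P Q) 0 with hD | hD | hD
  · have e : o O Q P = -o O P Q := by unfold o; ring
    have := main1 O Q P hQ (by linarith) (by linarith) (by rwa [Set.pair_comm Q P])
    rw [abs_of_neg hD]; linarith
  · exfalso
    have h1 := measure_mono (μ := volume) h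
    rw [vol_tri, hD] at h1
    have h2 := MeasureTheory.Measure.measure_pos_of_nonempty_interior volume ⟨_, K0_int⟩
    simp at h1
    exact h2.ne' h1
  · rw [abs_of_pos hD]; exact main1 O P Q hP hperp hD h

end Pool.Agent.H52.RTri2
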