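import Mathlib

namespace Pool.Agent.H52.SN

open Finset

/-- prefix values of a binary digit sequence -/
def P (d : ℕ → ℕ) : ℕ → ℕ
  | 0 => 0
  | p + 1 => 2 * P d p + d p

lemma floor_eq (d : ℕ → ℕ) (hd : ∀ i, d i ≤ 1) (h0 : ∀ p, ∃ i, p ≤ i ∧ d i = 0) (p : ℕ) :
    ⌊(∑' i, (d i : ℝ) / 2 ^ (i + 1)) * 2 ^ p⌋ = P d p := by
  have g1 : HasSum (fun i : ℕ => (1 : ℝ) / 2 ^ (i + 1)) 1 := by
    have := hasSum_geometric_two' (1 : ℝ)
    refine this.congr_fun ?_ |>.trans_eq rfl |> fun h => h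
    intro i; simp [pow_succ]; ring
  have le1 : ∀ p i : ℕ, (d (i + p) : ℝ) / 2 ^ (i + 1) ≤ 1 / 2 ^ (i + 1) := fun p i => by
    gcongr; exact_mod_cast hd _
  have sm : ∀ p, Summable fun i : ℕ => (d (i + p) : ℝ) / 2 ^ (i + 1) := fun p =>
    .of_nonneg_of_le (fun _ => by positivity) (le1 p) g1.summable
  have lt1 : ∀ p, ∑' i, (d (i + p) : ℝ) / 2 ^ (i + 1) < 1 := fun p => by
    obtain ⟨i, h1, h2⟩ := h0 p
    obtain ⟨i, rfl⟩ := Nat.exists_eq_add_of_le' h1
    rw [← g1.tsum_eq]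
    exact (sm p).tsum_lt_tsum (i := i) (le1 p) (by simp [h2]) g1.summable
  have key : ∀ p, (∑' i, (d i : ℝ) / 2 ^ (i + 1)) * 2 ^ p =
      P d p + ∑' i, (d (i + p) : ℝ) / 2 ^ (i + 1) := fun p => by
    induction p with
    | zero => simp [P]
    | succ p ih =>
      rw [pow_succ, ← mul_assoc, ih, (sm p).tsum_eq_zero_add, add_mul, add_mul, ← tsum_mul_right]
      simp only [P, zero_add]
      push_cast
      rw [add_assoc]
      congr 1
      · ring
      congr 1
      · ring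
      refine tsum_congr fun i => ?_
      rw [show i + 1 + p = i + (p + 1) by ring]
      field_simp
      ring
  rw [key, Int.floor_eq_iff]
  have : 0 ≤ ∑' i, (d (i + p) : ℝ) / 2 ^ (i + 1) := tsum_nonneg fun _ => by positivity
  constructor <;> push_cast <;> linarith [lt1 p]

lemma cover (n : ℕ → ℕ) (hn : ∀ g, 0 < n g) (p : ℕ) :
    ∃ g i, i < n g ∧ p = ∑ j ∈ range g, n j + i := by
  induction p with
  | zero => exact ⟨0, 0, hn 0, by simp⟩
  | succ p ih =>
    obtain ⟨g, i, h1, h2⟩ := ih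
    rcases (Nat.succ_le_of_lt h1).eq_or_lt with h | h
    · exact ⟨g + 1, 0, hn _, by rw [sum_range_succ]; omega⟩
    · exact ⟨g, i + 1, h, by omega⟩

lemma flat {α : Type} (n : ℕ → ℕ) (hn : ∀ g, 0 < n g) (f : ℕ → ℕ → α) :
    ∃ a : ℕ → α, ∀ g i, i < n g → a (∑ j ∈ range g, n j + i) = f g i := by
  choose G I h1 h2 using cover n hn
  have m : ∀ g g', g < g' → ∑ j ∈ range g, n j + n g ≤ ∑ j ∈ range g', n j := fun g g' h => by
    rw [← sum_range_succ]
    exact sum_le_sum_of_subset (range_subset_range.mpr h)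
  refine ⟨fun p => f (G p) (I p), fun g i hi => ?_⟩
  have a1 := h1 (∑ j ∈ range g, n j + i)
  have a2 := h2 (∑ j ∈ range g, n j + i)
  show f (G _) (I _) = _
  generalize G _ = g' at *
  generalize I _ = i' at *
  obtain rfl : g = g' := by
    rcases lt_trichotomy g g' with h | h | h
    · have := m _ _ h; omega
    · exact h
    · have := m _ _ h; omega
  obtain rfl : i = i' := by omega
  rfl

/-- centred indicator -/
noncomputable def ind (m k e : ℕ) : ℝ := (if e % 2 ^ m = k then 1 else 0) - 1 / 2 ^ m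

lemma ind_abs (m k e : ℕ) : |ind m k e| ≤ 1 := by
  have h1 : (0 : ℝ) < 1 / 2 ^ m := by positivity
  have h2 : (1 : ℝ) / 2 ^ m ≤ 1 := by
    rw [div_le_one (by positivity)]; exact one_le_pow₀ one_le_two
  rw [ind, abs_le]
  split_ifs <;> constructor <;> linarith

/-- discrepancy of the word of length `L` with value `x` -/
noncomputable def S (m k x L : ℕ) : ℝ := ∑ i ∈ range (L / m), ind m k (x / 2 ^ (m * i))

/-- discrepancy of the sequence -/
noncomputable def D (d : ℕ → ℕ) (m k n : ℕ) : ℝ := ∑ i ∈ range n, ind m k (P d (m * (i + 1)))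

lemma ind_add (m k x y j : ℕ) (h : m ≤ j) : ind m k (x * 2 ^ j + y) = ind m k y := by
  obtain ⟨j, rfl⟩ := Nat.exists_eq_add_of_le h
  rw [ind, ind, pow_add, mul_comm (2 ^ m), ← mul_assoc, Nat.mul_add_mod_self_right]

lemma div_pow_add (x y a b : ℕ) : (x * 2 ^ (a + b) + y) / 2 ^ a = x * 2 ^ b + y / 2 ^ a := by
  rw [pow_add, mul_comm (2 ^ a), ← mul_assoc, add_comm, Nat.add_mul_div_right _ _ (by positivity),
    add_comm]

lemma S_add {m k x y L L' : ℕ} (hm : 0 < m) (h : m ∣ L) (h' : m ∣ L') (hy : y < 2 ^ L') :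
    S m k (x * 2 ^ L' + y) (L + L') = S m k x L + S m k y L' := by
  obtain ⟨q, rfl⟩ := h
  obtain ⟨q', rfl⟩ := h'
  simp only [S, ← mul_add, Nat.mul_div_cancel_left _ hm]
  rw [add_comm q, sum_range_add, add_comm]
  congr 1
  · refine sum_congr rfl fun i _ => ?_
    rw [mul_add, pow_add, ← Nat.div_div_eq_div_mul, add_comm, Nat.add_mul_div_right _ _
      (by positivity), Nat.div_eq_of_lt hy, zero_add]
  · refine sum_congr rfl fun i hi => ?_
    obtain ⟨j, rfl⟩ := Nat.exists_eq_add_of_lt (mem_range.mp hi)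
    rw [show m * (i + j + 1) = m * i + m * (j + 1) by ring, div_pow_add,
      ind_add _ _ _ _ _ (Nat.le_mul_of_pos_right _ j.succ_pos)]

lemma D_lip (d : ℕ → ℕ) (m k : ℕ) {n n' : ℕ} (h : n ≤ n') :
    |D d m k n' - D d m k n| ≤ (n' - n : ℕ) := by
  obtain ⟨j, rfl⟩ := Nat.exists_eq_add_of_le h
  rw [D, D, sum_range_add, add_sub_cancel_left, Nat.add_sub_cancel_left]
  exact (abs_sum_le_sum_abs _ _).trans ((sum_le_card_nsmul _ _ 1 fun _ _ => ind_abs _ _ _).trans
    (by simp))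

lemma P_word {d : ℕ → ℕ} {o L x : ℕ} (hx : x < 2 ^ L)
    (h : ∀ r, r < L → d (o + r) = x / 2 ^ (L - 1 - r) % 2) (r : ℕ) (hr : r ≤ L) :
    P d (o + r) = P d o * 2 ^ r + x / 2 ^ (L - r) := by
  induction r with
  | zero => simp [Nat.div_eq_of_lt hx]
  | succ r ih =>
    rw [← add_assoc, P, ih (by omega), h r (by omega), show L - r = L - 1 - r + 1 by omega,
      show L - (r + 1) = L - 1 - r by omega, pow_succ 2 (L - 1 - r), ← Nat.div_div_eq_div_mul,
      pow_succ, ← mul_assoc]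
    omega

lemma D_word {d : ℕ → ℕ} {o L x m : ℕ} (k : ℕ) (hx : x < 2 ^ L)
    (h : ∀ r, r < L → d (o + r) = x / 2 ^ (L - 1 - r) % 2) (hm : 0 < m) (h1 : m ∣ o) (h2 : m ∣ L) :
    D d m k ((o + L) / m) = D d m k (o / m) + S m k x L := by
  obtain ⟨u, rfl⟩ := h1
  obtain ⟨q, rfl⟩ := h2
  simp only [S, D, ← mul_add, Nat.mul_div_cancel_left _ hm]
  rw [sum_range_add, ← sum_range_reflect (fun i => ind m k (x / 2 ^ (m * i)))]
  congr 1
  refine sum_congr rfl fun i hi => ?_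
  have hi := mem_range.mp hi
  rw [add_assoc, mul_add, P_word hx h _ (Nat.mul_le_mul_left _ hi),
    ind_add _ _ _ _ _ (Nat.le_mul_of_pos_right _ i.succ_pos), ← Nat.mul_sub,
    show q - (i + 1) = q - 1 - i by omega]

lemma S_list {m k l : ℕ} (hm : 0 < m) (h : m ∣ l) (s : List ℕ) (hs : ∀ y ∈ s, y < 2 ^ l) :
    S m k (Nat.ofDigits (2 ^ l) s) (l * s.length) = (s.map fun y => S m k y l).sum := by
  induction s with
  | nil => simp [S]
  | cons y s ih =>
    rw [Nat.ofDigits_cons, List.length_cons, mul_add, mul_one, add_comm y, mul_comm (2 ^ l),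
      S_add hm (h.mul_right _) h (hs y (by simp)), ih fun z hz => hs z (by simp [hz])]
    simp [add_comm]

lemma digit_eq {x L : ℕ} (h1 : 2 ^ (L - 1) ≤ x) (h2 : x < 2 ^ L) (hL : 0 < L) :
    (Nat.digits 2 x).length = L := by
  have x0 : x ≠ 0 := by have := Nat.two_pow_pos (L - 1); omega
  rw [Nat.length_digits 2 x one_lt_two x0, Nat.log_eq_of_pow_le_of_lt_pow h1 (by
    rwa [Nat.sub_add_cancel hL])]
  omega

lemma digit_get {x r : ℕ} (hr : r < (Nat.digits 2 x).length) :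
    (Nat.digits 2 x).reverse.getD r 0 = x / 2 ^ ((Nat.digits 2 x).length - 1 - r) % 2 := by
  rw [← Nat.getD_digits x _ le_rfl, List.getD_eq_getElem _ _ (by simpa), List.getElem_reverse,
    List.getD_eq_getElem]

end Pool.Agent.H52.SN
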