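import Pool.Agent.H52.SN1

namespace Pool.Agent.H52.SN

open Finset

lemma sum_mul_range (f : ℕ → ℝ) (a b : ℕ) :
    ∑ y ∈ range (a * b), f y = ∑ u ∈ range a, ∑ e ∈ range b, f (u * b + e) := by
  induction a with
  | zero => simp
  | succ a ih => rw [add_mul, one_mul, sum_range_add, ih, sum_range_succ]

lemma ind_sum {m k : ℕ} (hk : k < 2 ^ m) : ∑ e ∈ range (2 ^ m), ind m k e = 0 ∧
    ∑ e ∈ range (2 ^ m), ind m k e ^ 2 = (2 ^ m - 1) / 2 ^ m := by
  have e1 : ∀ e ∈ range (2 ^ m), ind m k e = (if e = k then 1 else 0) - 1 / 2 ^ m := fun e he => by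
    rw [ind, Nat.mod_eq_of_lt (mem_range.mp he)]
  have e2 : ∀ e ∈ range (2 ^ m), ind m k e ^ 2 =
      (if e = k then 1 - 2 / 2 ^ m else 0) + (1 / 2 ^ m) ^ 2 := fun e he => by
    rw [e1 e he]; split_ifs <;> ring
  rw [sum_congr rfl e2, sum_congr rfl e1, sum_sub_distrib, sum_add_distrib, sum_ite_eq', sum_ite_eq']
  simp only [mem_range, hk, if_true, sum_const, card_range, nsmul_eq_mul]
  push_cast
  constructor <;> field_simp <;> ring

lemma S_sum {m k : ℕ} (hm : 0 < m) (hk : k < 2 ^ m) (q : ℕ) :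
    ∑ y ∈ range (2 ^ (m * q)), S m k y (m * q) = 0 ∧
    ∑ y ∈ range (2 ^ (m * q)), S m k y (m * q) ^ 2 = 2 ^ (m * q) * q * ((2 ^ m - 1) / 4 ^ m) := by
  induction q with
  | zero => simp [S]
  | succ q ih =>
    have e : ∀ u, ∀ e ∈ range (2 ^ m), S m k (u * 2 ^ m + e) (m * q + m) =
        S m k u (m * q) + ind m k e := fun u e he => by
      rw [S_add hm (dvd_mul_right _ _) dvd_rfl (mem_range.mp he)]
      simp [S, Nat.div_self hm]
    obtain ⟨i1, i2⟩ := ind_sum hk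
    rw [mul_add, mul_one, pow_add, sum_mul_range, sum_mul_range]
    constructor
    · rw [sum_congr rfl fun u _ => sum_congr rfl (e u)]
      simp only [sum_add_distrib, i1, sum_const, card_range, nsmul_eq_mul, ← mul_sum, ih.1]
      simp
    · rw [sum_congr rfl fun u _ => sum_congr rfl fun x hx => by rw [e u x hx, add_sq]]
      simp only [sum_add_distrib, i1, i2, sum_const, card_range, nsmul_eq_mul, ← mul_sum, ih.2,
        mul_zero, add_zero]
      rw [show (4 : ℝ) ^ m = 2 ^ m * 2 ^ m by rw [← mul_pow]; norm_num]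
      push_cast
      field_simp
      ring

/-- balanced words -/
def Bal (l L x : ℕ) : Prop := x < 2 ^ L ∧ ∀ m k, 0 < m → m ∣ l → k < 2 ^ m → S m k x L = 0

lemma ofD_lt {l : ℕ} (hl : 0 < l) (s : List ℕ) (hs : ∀ y ∈ s, y < 2 ^ l) :
    Nat.ofDigits (2 ^ l) s < 2 ^ (l * s.length) := by
  rw [pow_mul]
  exact Nat.ofDigits_lt_base_pow_length (Nat.one_lt_two_pow hl.ne') hs

lemma bal_perm {l : ℕ} (hl : 0 < l) {s : List ℕ} (hs : s.Perm (List.range (2 ^ l))) :
    Bal l (l * 2 ^ l) (Nat.ofDigits (2 ^ l) s) := by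
  have h1 : ∀ y ∈ s, y < 2 ^ l := fun y hy => List.mem_range.mp (hs.mem_iff.mp hy)
  have h2 : s.length = 2 ^ l := by simpa using hs.length_eq
  refine ⟨by simpa [h2] using ofD_lt hl s h1, fun m k hm hd hk => ?_⟩
  have := S_list (k := k) hm hd s h1
  rw [h2] at this
  obtain ⟨q, rfl⟩ := hd
  rw [this, (hs.map _).sum_eq, ← (S_sum hm hk q).1]
  rfl

lemma bal_cat {l L L' x y : ℕ} (h : l ∣ L) (h' : l ∣ L') (hx : Bal l L x) (hy : Bal l L' y) :
    Bal l (L + L') (x * 2 ^ L' + y) := by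
  refine ⟨?_, fun m k hm hd hk => by
    rw [S_add hm (hd.trans h) (hd.trans h') hy.1, hx.2 m k hm hd hk, hy.2 m k hm hd hk, add_zero]⟩
  have := Nat.mul_le_mul_right (2 ^ L') (Nat.succ_le_of_lt hx.1)
  have := hy.1
  rw [pow_add]
  nlinarith

lemma fact_ge (l : ℕ) : 2 ^ ((l - 2) * 2 ^ l) ≤ (2 ^ l).factorial := by
  rcases le_or_gt l 2 with h | h
  · rw [Nat.sub_eq_zero_of_le h]; simpa using Nat.succ_le_of_lt (Nat.factorial_pos _)
  obtain ⟨j, rfl⟩ : ∃ j, l = j + 2 := ⟨l - 2, by omega⟩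
  have h1 := Real.pow_div_factorial_le_exp ((2 ^ (j + 2) : ℕ) : ℝ) (by positivity) (2 ^ (j + 2))
  have h2 : Real.exp ((2 ^ (j + 2) : ℕ) : ℝ) ≤ 4 ^ (2 ^ (j + 2)) := by
    rw [← Real.exp_one_pow]
    exact pow_le_pow_left₀ (by positivity) (Real.exp_one_lt_d9.le.trans (by norm_num)) _
  have h3 := h1.trans h2
  rw [div_le_iff₀ (by positivity)] at h3
  have h4 : ((2 ^ (j + 2) : ℕ) : ℝ) = 4 * 2 ^ j := by push_cast; ring
  rw [h4, mul_pow] at h3
  have h5 := le_of_mul_le_mul_left h3 (by positivity)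
  rw [Nat.add_sub_cancel, pow_mul]
  exact_mod_cast h5

lemma family {l : ℕ} (hl : 0 < l) (t : ℕ) : ∃ T : Finset ℕ, 2 ^ ((l - 2) * 2 ^ l * t) ≤ T.card ∧
    ∀ x ∈ T, Bal l (l * 2 ^ l * (t + 1)) x ∧ 2 ^ (l * 2 ^ l * (t + 1) - 1) ≤ x := by
  induction t with
  | zero =>
    refine ⟨{Nat.ofDigits (2 ^ l) (List.range (2 ^ l))}, by simp, fun x hx => ?_⟩
    obtain rfl := mem_singleton.mp hx
    refine ⟨by simpa using bal_perm hl (.refl _), ?_⟩
    obtain ⟨B, hB⟩ : ∃ B, 2 ^ l = B + 1 := ⟨2 ^ l - 1, by have := Nat.two_pow_pos l; omega⟩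
    obtain ⟨j, rfl⟩ : ∃ j, l = j + 1 := ⟨l - 1, by omega⟩
    conv_rhs => enter [2]; rw [hB, List.range_succ]
    rw [Nat.ofDigits_append, List.length_range, Nat.ofDigits_singleton, zero_add, mul_one]
    refine le_trans ?_ (Nat.le_add_left _ _)
    conv_lhs => rw [hB]
    rw [show (j + 1) * (B + 1) - 1 = (j + 1) * B + j by rw [mul_add, mul_one]; omega, pow_add,
      pow_mul]
    refine Nat.mul_le_mul_left _ ?_
    have := Nat.two_pow_pos j
    omega
  | succ t ih =>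
    obtain ⟨T, h1, h2⟩ := ih
    let Q := (List.range (2 ^ l)).permutations.toFinset
    have q1 : ∀ s ∈ Q, s.Perm (List.range (2 ^ l)) := fun s hs =>
      List.mem_permutations.mp (List.mem_toFinset.mp hs)
    have q2 : Q.card = (2 ^ l).factorial := by
      rw [List.toFinset_card_of_nodup (List.nodup_permutations _ List.nodup_range),
        List.length_permutations, List.length_range]
    refine ⟨(T ×ˢ Q).image fun p => p.1 * 2 ^ (l * 2 ^ l) + Nat.ofDigits (2 ^ l) p.2, ?_, ?_⟩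
    · rw [card_image_of_injOn, card_product, q2, mul_add, mul_one, pow_add]
      · exact Nat.mul_le_mul h1 (fact_ge l)
      rintro ⟨x, s⟩ hx ⟨y, s'⟩ hy h
      have a1 := q1 s (mem_product.mp hx).2
      have a2 := q1 s' (mem_product.mp hy).2
      have b1 := (bal_perm hl a1).1
      have b2 := (bal_perm hl a2).1
      have c1 := congrArg (· % 2 ^ (l * 2 ^ l)) h
      simp only [Nat.mul_add_mod_self_right, Nat.mod_eq_of_lt b1, Nat.mod_eq_of_lt b2] at c1
      simp only [c1, add_left_inj] at h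
      rw [Nat.eq_of_mul_eq_mul_right (Nat.two_pow_pos _) h, Nat.ofDigits_inj_of_len_eq
        (Nat.one_lt_two_pow hl.ne') (a1.trans a2.symm).length_eq
        (fun y hy => List.mem_range.mp (a1.mem_iff.mp hy))
        (fun y hy => List.mem_range.mp (a2.mem_iff.mp hy)) c1]
    · intro z hz
      obtain ⟨⟨x, s⟩, hx, rfl⟩ := mem_image.mp hz
      obtain ⟨a1, a2⟩ := h2 x (mem_product.mp hx).1
      rw [mul_add _ (t + 1), mul_one]
      refine ⟨bal_cat ((dvd_mul_right _ _).mul_right _) (dvd_mul_right _ _) a1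
        (bal_perm hl (q1 s (mem_product.mp hx).2)), le_trans ?_ (Nat.le_add_right _ _)⟩
      have : 0 < l * 2 ^ l * (t + 1) := by positivity
      rw [show l * 2 ^ l * (t + 1) + l * 2 ^ l - 1 = l * 2 ^ l * (t + 1) - 1 + l * 2 ^ l by omega,
        pow_add]
      exact Nat.mul_le_mul_right _ a2

lemma family' {l : ℕ} (hl : 0 < l) (t : ℕ) : ∃ β : ℕ → ℕ, ∀ i, i < 2 ^ ((l - 2) * 2 ^ l * t) →
    (∀ j, j < i → β j < β i) ∧
    Bal l (l * 2 ^ l * (t + 1)) (β i) ∧ 2 ^ (l * 2 ^ l * (t + 1) - 1) ≤ β i := by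
  obtain ⟨T, h1, h2⟩ := family hl t
  refine ⟨fun i => if h : i < _ then T.orderEmbOfCardLe h1 ⟨i, h⟩ else 0, fun i hi =>
    ⟨fun j hj => ?_, ?_⟩⟩
  · simp only [hi, hj.trans hi, dif_pos]
    exact (T.orderEmbOfCardLe h1).strictMono hj
  · simp only [hi, dif_pos]
    exact h2 _ (T.orderEmbOfCardLe_mem h1 _)

lemma suffix {l m0 k0 : ℕ} (hl : 0 < l) (h0 : 0 < m0) (h1 : m0 ∣ l) (h2 : k0 < 2 ^ m0) (s : ℤ)
    (hs : |s| ≤ 1) : ∃ z, z < 2 ^ (l * 2 ^ l * (l * 2 ^ l)) ∧ ∀ m k, 0 < m → m ∣ l → k < 2 ^ m →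
    S m k z (l * 2 ^ l * (l * 2 ^ l)) =
      s * (2 ^ m0 * ∑ y ∈ range (2 ^ l), S m0 k0 y l * S m k y l) := by
  have hμ : ∀ y, ∃ μ : ℕ, (μ : ℝ) = l * 2 ^ l + s * (2 ^ m0 * S m0 k0 y l) := fun y => by
    obtain ⟨F, hF⟩ : ∃ F : ℤ, (F : ℝ) = 2 ^ m0 * S m0 k0 y l :=
      ⟨∑ i ∈ range (l / m0), ((if y / 2 ^ (m0 * i) % 2 ^ m0 = k0 then 2 ^ m0 else 0) - 1), by
        rw [S, mul_sum]
        push_cast
        refine sum_congr rfl fun i _ => ?_
        rw [ind]
        split_ifs <;> field_simp <;> ring⟩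
    have a1 : |(F : ℝ)| ≤ l * 2 ^ l := by
      rw [hF, abs_mul, mul_comm, abs_of_pos (a := (2 : ℝ) ^ m0) (by positivity)]
      refine mul_le_mul ((abs_sum_le_sum_abs _ _).trans ((sum_le_card_nsmul _ _ 1 fun _ _ =>
        ind_abs _ _ _).trans ?_)) (pow_le_pow_right₀ one_le_two (Nat.le_of_dvd hl h1))
        (by positivity) (by positivity)
      simpa using Nat.div_le_self l m0
    have a2 : |(s : ℝ) * F| ≤ l * 2 ^ l := by
      rw [abs_mul]
      exact (mul_le_of_le_one_left (abs_nonneg _) (by exact_mod_cast hs)).trans a1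
    have a3 : (0 : ℤ) ≤ l * 2 ^ l + s * F := by
      have := (abs_le.mp a2).1
      exact_mod_cast (show (0 : ℝ) ≤ l * 2 ^ l + s * F by linarith)
    obtain ⟨μ, hμ⟩ := Int.eq_ofNat_of_zero_le a3
    exact ⟨μ, by rw [← hF]; exact_mod_cast hμ.symm⟩
  choose μ hμ using hμ
  have key : ∀ (f : ℕ → ℝ) (n : ℕ), (((List.range n).flatMap fun y => List.replicate (μ y) y).map
      f).sum = ∑ y ∈ range n, μ y * f y := fun f n => by
    induction n with
    | zero => simp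
    | succ n ih => simp [List.range_succ, sum_range_succ, ih]
  set w := (List.range (2 ^ l)).flatMap fun y => List.replicate (μ y) y
  have w1 : ∀ y ∈ w, y < 2 ^ l := fun y hy => by
    obtain ⟨x, x1, x2⟩ := List.mem_flatMap.mp hy
    rw [List.eq_of_mem_replicate x2]
    exact List.mem_range.mp x1
  have z0 : ∀ m k, 0 < m → m ∣ l → k < 2 ^ m → ∑ y ∈ range (2 ^ l), S m k y l = 0 := by
    rintro m k hm ⟨q, rfl⟩ hk
    exact (S_sum hm hk q).1
  have w2 : w.length = 2 ^ l * (l * 2 ^ l) := by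
    have := key (fun _ => 1) (2 ^ l)
    simp only [List.map_const', List.sum_replicate, nsmul_eq_mul, mul_one, hμ, sum_add_distrib,
      ← mul_sum, z0 m0 k0 h0 h1 h2, sum_const, card_range, mul_zero, add_zero] at this
    rw [mul_left_comm]
    exact_mod_cast this
  refine ⟨Nat.ofDigits (2 ^ l) w, by simpa [w2, mul_assoc] using ofD_lt hl w w1,
    fun m k hm hd hk => ?_⟩
  have := S_list (k := k) hm hd w w1
  rw [w2, ← mul_assoc, key] at this
  rw [this]
  simp only [hμ, add_mul, sum_add_distrib, mul_assoc, ← mul_sum, z0 m k hm hd hk]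
  simp

end Pool.Agent.H52.SN
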