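import Pool.Agent.H52.SN2

namespace Pool.Agent.H52.SN

open Finset Filter Real

/-- normalised standard deviation -/
noncomputable def tau (m : ℕ) : ℝ := √(2 ^ m - 1) / 2 ^ m / √m

lemma tau_nonneg (m : ℕ) : 0 ≤ tau m := by unfold tau; positivity

lemma tau_sq {m : ℕ} (hm : 0 < m) : tau m ^ 2 = (2 ^ m - 1) / 4 ^ m / m := by
  rw [tau, div_pow, div_pow, sq_sqrt (sub_nonneg.mpr (one_le_pow₀ one_le_two)),
    sq_sqrt (by positivity), ← pow_mul, mul_comm m, pow_mul]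
  norm_num

lemma var_eq {l m k : ℕ} (hm : 0 < m) (h : m ∣ l) (hk : k < 2 ^ m) :
    ∑ y ∈ range (2 ^ l), S m k y l ^ 2 = l * 2 ^ l * tau m ^ 2 := by
  obtain ⟨q, rfl⟩ := h
  rw [(S_sum hm hk q).2, tau_sq hm]
  push_cast
  field_simp

lemma cov_le {l m k m0 k0 : ℕ} (hm : 0 < m) (h : m ∣ l) (hk : k < 2 ^ m) (hm0 : 0 < m0)
    (h0 : m0 ∣ l) (hk0 : k0 < 2 ^ m0) :
    |∑ y ∈ range (2 ^ l), S m0 k0 y l * S m k y l| ≤ l * 2 ^ l * tau m0 * tau m := by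
  have := sum_mul_sq_le_sq_mul_sq (range (2 ^ l)) (fun y => S m0 k0 y l) fun y => S m k y l
  rw [var_eq hm h hk, var_eq hm0 h0 hk0] at this
  have := tau_nonneg m
  have := tau_nonneg m0
  exact abs_le_of_sq_le_sq (by linarith) (by positivity)

lemma tau_bd {m : ℕ} (hm : 0 < m) : 1 ≤ 2 ^ m * tau m ∧ tau m ≤ 1 := by
  have h1 : (m : ℝ) + 1 ≤ 2 ^ m := by exact_mod_cast Nat.lt_two_pow_self
  have h2 : (1 : ℝ) ≤ m := by exact_mod_cast hm
  have h4 : (4 : ℝ) ^ m = 2 ^ m * 2 ^ m := by rw [← mul_pow]; norm_num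
  have h0 := tau_nonneg m
  constructor
  · refine (abs_le_of_sq_le_sq' ?_ (by positivity)).2
    rw [mul_pow, tau_sq hm, h4]
    field_simp
    linarith
  · refine (pow_le_one_iff_of_nonneg h0 two_ne_zero).mp ?_
    rw [tau_sq hm, h4, div_div, div_le_one (by positivity)]
    nlinarith [mul_le_mul_of_nonneg_left h2 (show (0 : ℝ) ≤ 2 ^ m * 2 ^ m by positivity)]

/-- the iterated logarithm scale -/
noncomputable def psi (x : ℝ) : ℝ := √(2 * x * log (log x))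

lemma psi_nonneg (x : ℝ) : 0 ≤ psi x := sqrt_nonneg _

lemma ll_top : Tendsto (fun x => log (log x)) atTop atTop := tendsto_log_atTop.comp tendsto_log_atTop

lemma ll_sq {δ : ℝ} (hδ : 0 < δ) : ∀ᶠ x in atTop, 1 ≤ log (log x) ∧
    ∀ y, 1 < y → y ≤ x ^ 2 → log (log y) ≤ (1 + δ) * log (log x) := by
  filter_upwards [ll_top.eventually_ge_atTop 1, ll_top.eventually_ge_atTop (log 2 / δ),
    eventually_gt_atTop 1] with x h1 h2 h3
  refine ⟨h1, fun y y1 y2 => ?_⟩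
  have a1 := log_le_log (log_pos y1) (log_le_log (by linarith) y2)
  rw [log_pow, Nat.cast_ofNat, log_mul two_ne_zero (log_pos h3).ne'] at a1
  rw [div_le_iff₀ hδ] at h2
  linarith

lemma psi_cmp {δ : ℝ} (hδ : 0 < δ) : ∀ᶠ x in atTop, √x ≤ psi x ∧ ∀ y c c' : ℝ, 1 < y →
    y ≤ x ^ 2 → 0 ≤ c → 0 ≤ c' → c * y ≤ (1 + δ) * c' * x → √c * psi y ≤ (1 + δ) * √c' * psi x := by
  filter_upwards [ll_sq hδ, eventually_gt_atTop 1] with x ⟨h1, h2⟩ h3
  refine ⟨sqrt_le_sqrt (by nlinarith), fun y c c' y1 y2 c0 c1 h => ?_⟩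
  rw [psi, psi, ← sqrt_mul c0, mul_assoc (1 + δ), ← sqrt_mul c1, ← sqrt_sq (show 0 ≤ 1 + δ by linarith),
    ← sqrt_mul (sq_nonneg _)]
  refine sqrt_le_sqrt ?_
  have a1 := mul_le_mul_of_nonneg_left (h2 y y1 y2) (show 0 ≤ c * y by positivity)
  have a2 := mul_le_mul_of_nonneg_right h (show 0 ≤ (1 + δ) * log (log x) by positivity)
  nlinarith

lemma psi_cube {x : ℝ} (hx : 1 ≤ x) : psi x ^ 3 ≤ 7 * x ^ 2 := by
  have h0 := log_nonneg hx
  have h1 : log (log x) ≤ log x := by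
    rcases h0.eq_or_lt with h | h
    · simp [← h]
    · linarith [log_le_sub_one_of_pos h]
  have h2 := pow_div_factorial_le_exp _ h0 3
  rw [exp_log (by linarith), div_le_iff₀ (by positivity)] at h2
  norm_num [Nat.factorial] at h2
  have h3 : psi x ^ 2 ≤ 2 * x * log x := by
    refine (pow_le_pow_left₀ (psi_nonneg x) (sqrt_le_sqrt (y := 2 * x * log x) ?_) 2).trans_eq
      (sq_sqrt (by positivity))
    exact mul_le_mul_of_nonneg_left h1 (by positivity)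
  refine (abs_le_of_sq_le_sq' ?_ (by positivity)).2
  have h4 := pow_le_pow_left₀ (sq_nonneg _) h3 3
  have h5 := mul_le_mul_of_nonneg_left h2 (show 0 ≤ 8 * x ^ 3 by positivity)
  have h6 : 0 ≤ x ^ 4 := by positivity
  nlinarith

lemma levels : ∃ l : ℕ → ℕ, (∀ g, 0 < l g ∧ (l g * 2 ^ l g) ^ 2 ≤ g + 4) ∧
    ∀ m, 0 < m → ∀ᶠ g in atTop, m ∣ l g := by
  classical
  refine ⟨fun g => (Nat.findGreatest (fun j => (j.factorial * 2 ^ j.factorial) ^ 2 ≤ g + 4) g).factorial,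
    fun g => ⟨Nat.factorial_pos _, ?_⟩, fun m hm => ?_⟩
  · exact Nat.findGreatest_spec (P := fun j => (j.factorial * 2 ^ j.factorial) ^ 2 ≤ g + 4)
      g.zero_le (by simp)
  · filter_upwards [eventually_ge_atTop m,
      eventually_ge_atTop ((m.factorial * 2 ^ m.factorial) ^ 2)] with g h1 h2
    exact Nat.dvd_factorial hm (Nat.le_findGreatest h1 (by omega))

lemma types (l : ℕ → ℕ) (h : ∀ m, 0 < m → ∀ᶠ g in atTop, m ∣ l g) :
    ∃ (m k : ℕ → ℕ) (s : ℕ → ℤ), (∀ g, 0 < m g ∧ m g ∣ l g ∧ k g < 2 ^ m g ∧ |s g| ≤ 1) ∧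
    ∀ m0 k0 (s0 : ℤ), 0 < m0 → k0 < 2 ^ m0 → |s0| ≤ 1 →
      ∃ᶠ g in atTop, m g = m0 ∧ k g = k0 ∧ s g = s0 := by
  classical
  let e : ℕ → ℕ × ℕ × ℤ := fun g => Denumerable.ofNat _ g.unpair.1
  let v : ℕ → Prop := fun g => 0 < (e g).1 ∧ (e g).1 ∣ l g ∧ (e g).2.1 < 2 ^ (e g).1 ∧ |(e g).2.2| ≤ 1
  refine ⟨fun g => if v g then (e g).1 else 1, fun g => if v g then (e g).2.1 else 0,
    fun g => if v g then (e g).2.2 else 0, fun g => ?_, fun m0 k0 s0 h1 h2 h3 => ?_⟩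
  · by_cases hv : v g
    · simp only [hv, if_true]; exact hv
    · simp [hv]
  · have : ∃ᶠ g in atTop, e g = (m0, k0, s0) := frequently_atTop.mpr fun n =>
      ⟨Nat.pair (Encodable.encode (m0, k0, s0)) n, Nat.right_le_pair _ _, by
        simp only [e, Nat.unpair_pair, Denumerable.ofNat_encode]⟩
    refine (this.and_eventually (h m0 h1)).mono fun g ⟨g1, g2⟩ => ?_
    have hv : v g := by simp only [v, g1]; exact ⟨h1, g2, h2, h3⟩
    simp [hv, g1]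

end Pool.Agent.H52.SN
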