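import Pool.Agent.H52.SN3

namespace Pool.Agent.H52.SN

open Finset Filter Real

lemma build (n fl K M : ℕ → ℕ) (w : ℕ → ℕ → ℕ) (hM0 : M 0 = 0)
    (hM : ∀ g, M (g + 1) = M g + fl g + n g * K g)
    (h1 : ∀ g, 2 ≤ fl g ∧ fl g < K g ∧ K g < fl (g + 1))
    (h2 : ∀ g i, i < n g → 2 ^ (K g - 1) ≤ w g i ∧ w g i < 2 ^ K g ∧ ∀ j, j < i → w g j < w g i) :
    ∃ a d : ℕ → ℕ, StrictMono a ∧ (∀ p, 0 < a p) ∧
      (∀ g N, 2 ^ K g ≤ N → n g < Nat.card {p | a p ≤ N}) ∧
      (∀ p r : ℕ, r < (Nat.digits 2 (a p)).length →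
        d ((∑ j ∈ range p, (Nat.digits 2 (a j)).length) + r) = (Nat.digits 2 (a p)).reverse.getD r 0) ∧
      (∀ i, d i ≤ 1) ∧ (∀ p, ∃ i, p ≤ i ∧ d i = 0) ∧
      ∀ g i, i < n g → ∀ r, r < K g → d (M g + fl g + i * K g + r) = w g i / 2 ^ (K g - 1 - r) % 2 := by
  let f : ℕ → ℕ → ℕ := fun g i => Nat.casesOn i (2 ^ (fl g - 1)) (w g)
  let len : ℕ → ℕ → ℕ := fun g i => Nat.casesOn i (fl g) fun _ => K g
  obtain ⟨a, ha⟩ := flat (fun g => n g + 1) (fun _ => Nat.succ_pos _) f
  have cv := cover (fun g => n g + 1) (fun _ => Nat.succ_pos _)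
  set c : ℕ → ℕ := fun g => ∑ j ∈ range g, (n j + 1) with hc
  have cs : ∀ g, c (g + 1) = c g + (n g + 1) := fun g => sum_range_succ _ _
  have f1 : ∀ g i, i < n g + 1 → 2 ^ (len g i - 1) ≤ f g i ∧ f g i < 2 ^ len g i ∧
      0 < len g i ∧ len g i ≤ K g := fun g i hi => by
    have := h1 g
    rcases i with _ | i
    · exact ⟨le_rfl, Nat.pow_lt_pow_right one_lt_two (show fl g - 1 < fl g by omega),
        show 0 < fl g by omega, this.2.1.le⟩
    · exact ⟨(h2 g i (by omega)).1, (h2 g i (by omega)).2.1, show 0 < K g by omega, le_rfl⟩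
  have f2 : ∀ g i, i < n g + 1 → f g i < 2 ^ K g := fun g i hi =>
    (f1 g i hi).2.1.trans_le (Nat.pow_le_pow_right two_pos (f1 g i hi).2.2.2)
  have sm : StrictMono a := strictMono_nat_of_lt_succ fun p => by
    obtain ⟨g, i, hi, rfl⟩ := cv p
    have := h1 g
    rw [ha g i hi]
    rcases (Nat.succ_le_of_lt hi).eq_or_lt with h | h
    · have e := ha (g + 1) 0 (Nat.succ_pos _)
      rw [sum_range_succ, ← h] at e
      rw [add_assoc]
      exact ((f2 g i hi).trans_le (Nat.pow_le_pow_right two_pos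
        (show K g ≤ fl (g + 1) - 1 by omega))).trans_eq e.symm
    · rw [add_assoc, ha g (i + 1) h]
      rcases i with _ | i
      · exact (Nat.pow_lt_pow_right one_lt_two (show fl g - 1 < K g - 1 by omega)).trans_le
          (h2 g 0 (by omega)).1
      · exact (h2 g (i + 1) (by omega)).2.2 i (by omega)
  have ln : ∀ g i, i < n g + 1 → (Nat.digits 2 (a (c g + i))).length = len g i := fun g i hi => by
    rw [ha g i hi]
    exact digit_eq (f1 g i hi).1 (f1 g i hi).2.1 (f1 g i hi).2.2.1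
  have pos : ∀ p, 0 < a p := fun p => by
    obtain ⟨g, i, hi, rfl⟩ := cv p
    rw [ha g i hi]
    exact (Nat.two_pow_pos _).trans_le (f1 g i hi).1
  have lp : ∀ p, 0 < (Nat.digits 2 (a p)).length := fun p => by
    obtain ⟨g, i, hi, rfl⟩ := cv p
    exact (f1 g i hi).2.2.1.trans_eq (ln g i hi).symm
  obtain ⟨d, hd⟩ := flat _ lp fun p r => a p / 2 ^ ((Nat.digits 2 (a p)).length - 1 - r) % 2
  set o : ℕ → ℕ := fun p => ∑ j ∈ range p, (Nat.digits 2 (a j)).length with ho
  have os : ∀ p, o (p + 1) = o p + (Nat.digits 2 (a p)).length := fun p => sum_range_succ _ _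
  have o1 : ∀ g, o (c g) = M g → ∀ i, i ≤ n g → o (c g + (i + 1)) = M g + fl g + i * K g :=
    fun g h i hi => by
    induction i with
    | zero =>
      have := ln g 0 (Nat.succ_pos _)
      rw [add_zero] at this
      rw [zero_add, os, h, this, zero_mul, add_zero]
      rfl
    | succ i ih => rw [← add_assoc, os, ih (by omega), ln g (i + 1) (by omega), add_mul, one_mul,
        add_assoc _ _ (K g)]
  have o2 : ∀ g, o (c g) = M g := fun g => by
    induction g with
    | zero => simp [ho, hc, hM0]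
    | succ g ih => rw [cs, o1 g ih _ le_rfl, hM]
  refine ⟨a, d, sm, pos, fun g N hN => ?_, fun p r hr => (hd p r hr).trans (digit_get hr).symm,
    fun i => ?_, fun p => ?_, fun g i hi r hr => ?_⟩
  · have fin : {p | a p ≤ N}.Finite := (Set.finite_Iic N).subset fun p hp => sm.le_apply.trans hp
    have : (range (c g + n g + 1) : Set ℕ) ⊆ {p | a p ≤ N} := fun p hp => by
      have hp : p ≤ c g + n g := by simpa [Nat.lt_succ_iff] using hp
      exact (sm.monotone hp).trans ((ha g _ (Nat.lt_succ_self _)).trans_le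
        ((f2 g _ (Nat.lt_succ_self _)).le.trans hN))
    have := Set.ncard_le_ncard this fin
    rw [Set.ncard_coe_finset, card_range] at this
    rw [Nat.card_coe_set_eq]
    omega
  · obtain ⟨p, r, hr, rfl⟩ := cover _ lp i
    rw [hd p r hr]
    omega
  · have e := ln p 0 (Nat.succ_pos _)
    have e2 := ha p 0 (Nat.succ_pos _)
    have := h1 p
    have m1 : ∀ g, g ≤ M g := fun g => by
      induction g with
      | zero => simp
      | succ g ih => have := h1 g; rw [hM]; omega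
    refine ⟨o (c p) + 1, by rw [o2]; exact (m1 p).trans (Nat.le_succ _), ?_⟩
    rw [add_zero] at e e2
    rw [hd (c p) 1 (by rw [e]; show 1 < fl p; omega), e, e2]
    show 2 ^ (fl p - 1) / 2 ^ (fl p - 1 - 1) % 2 = 0
    rw [Nat.pow_div (by omega) two_pos, show fl p - 1 - (fl p - 1 - 1) = 1 by omega]
    rfl
  · have e := ln g (i + 1) (by omega)
    rw [← o1 g (o2 g) i hi.le, hd _ r (by rw [e]; exact hr), e, ha g (i + 1) (by omega)]

lemma group (Dn : ℕ → ℝ) (lip : ∀ x y, x ≤ y → |Dn y - Dn x| ≤ (y - x : ℕ)) {m : ℕ} (hm : 0 < m)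
    (n fl K M r : ℕ → ℕ) (v : ℕ → ℝ) (hM : ∀ g, M (g + 1) = M g + fl g + n g * K g)
    (h1 : ∀ g, fl g ≤ (g + 5) ^ 2 ∧ K g ≤ (g + 5) ^ 2 ∧ 0 < K g) (g0 : ℕ)
    (h2 : ∀ g, g0 ≤ g → 2 * r g ≤ n g ∧ ∀ i, i < n g →
      Dn ((M g + fl g + (i + 1) * K g) / m) = Dn ((M g + fl g + i * K g) / m) +
        if i < r g then v g else if i < 2 * r g then -v g else 0) :
    ∃ c : ℝ, ∀ g, g0 ≤ g → (∀ x, M g ≤ m * x → m * x < M (g + 1) →
      |Dn x| ≤ c + (g + 2) * (g + 5) ^ 2 ∨
      (M g + fl g ≤ m * x ∧ |Dn x| ≤ c + (g + 2) * (g + 5) ^ 2 + r g * |v g|)) ∧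
      |Dn ((M g + fl g + r g * K g) / m) - r g * v g| ≤ c + (g + 2) * (g + 5) ^ 2 := by
  have lp : ∀ g x y : ℕ, x ≤ y → y ≤ x + (g + 5) ^ 2 → |Dn y - Dn x| ≤ (g + 5) ^ 2 :=
    fun (g : ℕ) x y a b => (lip x y a).trans (by exact_mod_cast (show y - x ≤ (g + 5) ^ 2 by omega))
  have dv : ∀ x y, (x + y) / m ≤ x / m + y := fun x y => by
    rw [← Nat.add_mul_div_right _ _ hm]
    exact Nat.div_le_div_right (Nat.add_le_add_left (Nat.le_mul_of_pos_right _ hm) _)
  have a1 : ∀ g, g0 ≤ g → ∀ i, i ≤ n g → Dn ((M g + fl g + i * K g) / m) =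
      Dn ((M g + fl g) / m) + (min i (2 * r g - i) : ℕ) * v g := fun g hg i hi => by
    induction i with
    | zero => simp
    | succ i ih =>
      rw [(h2 g hg).2 i hi, ih (by omega), add_assoc]
      congr 1
      split_ifs with b1 b2
      · rw [show min (i + 1) (2 * r g - (i + 1)) = min i (2 * r g - i) + 1 by omega]
        push_cast; ring
      · rw [show min i (2 * r g - i) = min (i + 1) (2 * r g - (i + 1)) + 1 by omega]
        push_cast; ring
      · rw [show min i (2 * r g - i) = min (i + 1) (2 * r g - (i + 1)) by omega, add_zero]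
  have a2 : ∀ g, g0 ≤ g →
      |Dn ((M g + fl g) / m)| ≤ |Dn ((M g0 + fl g0) / m)| + (g + 1) * (g + 5) ^ 2 := fun g hg => by
    induction g, hg using Nat.le_induction with
    | base => exact le_add_of_nonneg_right (by positivity)
    | succ g hg ih =>
      have b1 := a1 g hg _ le_rfl
      have b0 := (h2 g hg).1
      rw [← hM, show min (n g) (2 * r g - n g) = 0 by omega, Nat.cast_zero, zero_mul, add_zero] at b1
      have b2 := lp (g + 1) (M (g + 1) / m) ((M (g + 1) + fl (g + 1)) / m)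
        (Nat.div_le_div_right (Nat.le_add_right _ _))
        ((dv _ _).trans (Nat.add_le_add_left (h1 _).1 _))
      rw [b1] at b2
      have b3 := abs_sub_abs_le_abs_sub (Dn ((M (g + 1) + fl (g + 1)) / m)) (Dn ((M g + fl g) / m))
      push_cast at b2 ⊢
      nlinarith [(g.cast_nonneg : (0 : ℝ) ≤ g)]
  refine ⟨|Dn ((M g0 + fl g0) / m)|, fun g hg => ⟨fun x x1 x2 => ?_, ?_⟩⟩
  · have b0 := a2 g hg
    rcases lt_or_ge (m * x) (M g + fl g) with h | h
    · left
      have b2 := lp g x ((M g + fl g) / m) ((Nat.le_div_iff_mul_le hm).mpr (by rw [mul_comm]; omega))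
        ((dv _ _).trans (Nat.add_le_add (Nat.div_le_of_le_mul x1) (h1 _).1))
      have b3 := abs_sub_abs_le_abs_sub (Dn x) (Dn ((M g + fl g) / m))
      rw [abs_sub_comm] at b2
      linarith
    · refine .inr ⟨h, ?_⟩
      obtain ⟨y, hy⟩ := Nat.exists_eq_add_of_le h
      have k0 := (h1 g).2.2
      have b4 := Nat.div_add_mod y (K g)
      have b5 := Nat.mod_lt y k0
      have b6 : y / K g ≤ n g := Nat.div_le_of_le_mul (by rw [hM, mul_comm (n g)] at x2; omega)
      have b1 := a1 g hg _ b6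
      rw [mul_comm (K g)] at b4
      have b2 := lp g ((M g + fl g + y / K g * K g) / m) x (Nat.div_le_of_le_mul (by omega)) (by
        refine le_trans ?_ ((dv _ (K g)).trans (Nat.add_le_add_left (h1 g).2.1 _))
        exact (Nat.le_div_iff_mul_le hm).mpr (by rw [mul_comm]; omega))
      have b3 := abs_sub_abs_le_abs_sub (Dn x) (Dn ((M g + fl g + y / K g * K g) / m))
      have b7 := abs_add_le (Dn ((M g + fl g) / m)) ((min (y / K g) (2 * r g - y / K g) : ℕ) * v g)
      rw [← b1, abs_mul, Nat.abs_cast] at b7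
      have b8 : ((min (y / K g) (2 * r g - y / K g) : ℕ) : ℝ) ≤ r g := by
        exact_mod_cast (show min (y / K g) (2 * r g - y / K g) ≤ r g by omega)
      linarith [mul_le_mul_of_nonneg_right b8 (abs_nonneg (v g))]
  · have b0 := (h2 g hg).1
    rw [a1 g hg _ (by omega), show min (r g) (2 * r g - r g) = r g by omega, add_sub_cancel_right]
    nlinarith [a2 g hg, sq_nonneg ((g : ℝ) + 5)]

end Pool.Agent.H52.SN
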