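import Pool.Agent.H52.SN4

namespace Pool.Agent.H52.SN

open Finset Filter Real

lemma params : ∃ l t K fl M : ℕ → ℕ, (∀ m, 0 < m → ∀ᶠ g in atTop, m ∣ l g) ∧ M 0 = 0 ∧
    (∀ g, M (g + 1) = M g + fl g + 2 ^ ((l g - 2) * 2 ^ l g * t g) * K g) ∧
    (∀ g, 0 < l g ∧ (l g * 2 ^ l g) ^ 2 ≤ g + 4 ∧ l g ∣ M g + fl g ∧
      K g = l g * 2 ^ l g * (t g + 1) + l g * 2 ^ l g * (l g * 2 ^ l g) ∧
      (g + 4) ^ 2 < fl g ∧ fl g < K g ∧ K g ≤ (g + 5) ^ 2) ∧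
    (∀ θ : ℝ, θ < 1 → ∀ᶠ g : ℕ in atTop, θ * (g + 6) ^ 2 < ((l g - 2) * 2 ^ l g * t g : ℕ)) ∧
    ∀ᶠ g in atTop, (g + 5) ^ 8 ≤ M g ∧
      56 * (M g + fl g) ^ 2 ≤ (2 ^ ((l g - 2) * 2 ^ l g * t g)) ^ 3 := by
  obtain ⟨l, hl, hl2⟩ := levels
  obtain ⟨U, hU⟩ : ∃ U : ℕ → ℕ, ∀ g, U g = l g * 2 ^ l g := ⟨_, fun _ => rfl⟩
  obtain ⟨t, ht⟩ : ∃ t : ℕ → ℕ, ∀ g, t g = ((g + 4) ^ 2 + l g) / U g - U g := ⟨_, fun _ => rfl⟩
  obtain ⟨K, hK⟩ : ∃ K : ℕ → ℕ, ∀ g, K g = U g * (t g + 1) + U g * U g := ⟨_, fun _ => rfl⟩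
  obtain ⟨e, he⟩ : ∃ e : ℕ → ℕ, ∀ g, e g = (l g - 2) * 2 ^ l g * t g := ⟨_, fun _ => rfl⟩
  let F : ℕ → ℕ → ℕ := fun g x => (g + 4) ^ 2 + l g - (x + (g + 4) ^ 2) % l g
  let M : ℕ → ℕ := fun g => Nat.rec 0 (fun g x => x + F g x + 2 ^ e g * K g) g
  have hM : ∀ g, M (g + 1) = M g + F g (M g) + 2 ^ e g * K g := fun _ => rfl
  have u1 : ∀ g, l g ≤ U g ∧ U g * U g ≤ g + 4 ∧ U g ≤ g + 4 := fun g => by
    have a1 : l g ≤ U g := hU g ▸ Nat.le_mul_of_pos_right _ (Nat.two_pow_pos _)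
    have a2 := (hl g).2
    rw [← hU, sq] at a2
    exact ⟨a1, a2, (Nat.le_mul_self _).trans a2⟩
  have k1 : ∀ g, (g + 4) ^ 2 + l g < K g ∧ K g ≤ (g + 5) ^ 2 := fun g => by
    obtain ⟨a1, a2, a3⟩ := u1 g
    have a0 : 0 < U g := (hl g).1.trans_le a1
    have a4 : U g ≤ ((g + 4) ^ 2 + l g) / U g := (Nat.le_div_iff_mul_le a0).mpr (by nlinarith)
    have a5 : K g = U g * (((g + 4) ^ 2 + l g) / U g) + U g := by
      rw [hK, ht]
      obtain ⟨j, hj⟩ := Nat.exists_eq_add_of_le a4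
      rw [hj, Nat.add_sub_cancel_left]; ring
    have a6 := Nat.div_add_mod ((g + 4) ^ 2 + l g) (U g)
    have a7 := Nat.mod_lt ((g + 4) ^ 2 + l g) a0
    constructor
    · omega
    · have : (g + 5) ^ 2 = (g + 4) ^ 2 + 2 * g + 9 := by ring
      omega
  have f1 : ∀ g x, (g + 4) ^ 2 < F g x ∧ F g x ≤ (g + 4) ^ 2 + l g ∧ l g ∣ x + F g x := fun g x => by
    have a1 := Nat.mod_lt (x + (g + 4) ^ 2) (hl g).1
    have a2 := Nat.div_add_mod (x + (g + 4) ^ 2) (l g)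
    refine ⟨by simp only [F]; omega, by simp only [F]; omega,
      (x + (g + 4) ^ 2) / l g + 1, by simp only [F, mul_add, mul_one]; omega⟩
  have e1 : ∀ θ : ℝ, θ < 1 → ∀ᶠ g : ℕ in atTop, θ * (g + 6) ^ 2 < e g := fun θ hθ => by
    obtain ⟨η, η0, rfl⟩ : ∃ η, 0 < η ∧ θ = 1 - η := ⟨1 - θ, by linarith, by ring⟩
    obtain ⟨m, hm⟩ := exists_nat_gt (max 2 (4 / η))
    have m2 : 2 < m := by exact_mod_cast (le_max_left _ _).trans_lt hm
    have m3 := (div_lt_iff₀ η0).mp ((le_max_right _ _).trans_lt hm)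
    filter_upwards [hl2 m (by omega), tendsto_natCast_atTop_atTop.eventually_ge_atTop (40 / η),
      eventually_ge_atTop 3] with g g1 g2 g3
    have a1 := Nat.le_of_dvd (hl g).1 g1
    obtain ⟨j, hj⟩ : ∃ j, l g = j + 2 := ⟨l g - 2, by omega⟩
    have a2 : (j + 2) * e g = j * (U g * t g) := by
      rw [he, hU, hj, Nat.add_sub_cancel]; ring
    have a3 : (g + 4) * (g + 2) ≤ U g * t g := by
      have := (k1 g).1
      have := u1 g
      rw [hK] at *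
      nlinarith
    have a4 : (j : ℝ) * ((g + 4) * (g + 2)) ≤ (j + 2) * e g := by
      exact_mod_cast a2 ▸ Nat.mul_le_mul_left j a3
    have a5 : (m : ℝ) ≤ j + 2 := by exact_mod_cast hj ▸ a1
    have a6 : (3 : ℝ) ≤ g := by exact_mod_cast g3
    rw [div_le_iff₀ η0] at g2
    refine lt_of_mul_lt_mul_left (a := (j : ℝ) + 2) (lt_of_lt_of_le ?_ a4) (by positivity)
    have a7 : (j + 2) * (1 - η / 2) ≤ (j : ℝ) := by nlinarith
    refine lt_of_lt_of_le ?_ (mul_le_mul_of_nonneg_right a7 (by positivity))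
    rw [mul_assoc]
    refine mul_lt_mul_of_pos_left ?_ (by positivity)
    nlinarith [mul_le_mul_of_nonneg_left g2 (show (0 : ℝ) ≤ g by positivity)]
  have m1 : ∀ g, M g ≤ 2 * g * (g + 4) ^ 2 * 2 ^ (g + 4) ^ 2 := fun g => by
    induction g with
    | zero => rfl
    | succ g ih =>
      have a1 : e g ≤ (g + 5) ^ 2 := by
        refine le_trans ?_ (k1 g).2
        rw [he, hK, hU]
        exact (Nat.mul_le_mul (Nat.mul_le_mul_right _ (Nat.sub_le _ _)) (Nat.le_succ _)).trans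
          (Nat.le_add_right _ _)
      have a2 := Nat.mul_le_mul (Nat.pow_le_pow_right two_pos a1) (k1 g).2
      have a3 := ((f1 g (M g)).2.1.trans (k1 g).1.le).trans ((k1 g).2.trans
        (Nat.le_mul_of_pos_left _ (Nat.two_pow_pos ((g + 5) ^ 2))))
      have a4 : 2 * g * (g + 4) ^ 2 * 2 ^ (g + 4) ^ 2 ≤ 2 * g * (g + 5) ^ 2 * 2 ^ (g + 5) ^ 2 := by
        gcongr <;> omega
      rw [hM, show g + 1 + 4 = g + 5 from rfl]
      nlinarith
  refine ⟨l, t, K, fun g => F g (M g), M, hl2, rfl, fun g => by rw [hM, he], fun g =>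
    ⟨(hl g).1, (hl g).2, (f1 _ _).2.2, by rw [hK, hU], (f1 _ _).1, (f1 _ _).2.1.trans_lt (k1 g).1,
    (k1 g).2⟩, by simpa only [he] using e1, ?_⟩
  obtain ⟨g1, h⟩ := eventually_atTop.mp (e1 (2 / 3) (by norm_num))
  have h' : ∀ g, g1 ≤ g → 2 * (g + 6) ^ 2 < 3 * e g := fun g hg => by
    exact_mod_cast (show (2 : ℝ) * (g + 6) ^ 2 < 3 * e g by linarith [h g hg])
  filter_upwards [eventually_ge_atTop (g1 + 7)] with g hg
  constructor
  · obtain ⟨g, rfl⟩ : ∃ j, g = j + 1 := ⟨g - 1, by omega⟩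
    have a1 : (g + 6) * 8 ≤ e g := by nlinarith [h' g (by omega), show 6 ≤ g by omega]
    have a2 := Nat.pow_le_pow_right two_pos a1
    rw [pow_mul] at a2
    have a3 := Nat.pow_le_pow_left (Nat.lt_two_pow_self (n := g + 6)).le 8
    have a4 := Nat.le_mul_of_pos_right (2 ^ e g) (show 0 < K g by have := k1 g; omega)
    rw [hM, show g + 1 + 5 = g + 6 from rfl]
    omega
  · rw [← he, ← pow_mul]
    have a3 := ((f1 g (M g)).2.1.trans (k1 g).1.le).trans ((k1 g).2.trans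
      (Nat.le_mul_of_pos_right _ (Nat.two_pow_pos ((g + 4) ^ 2))))
    have a4 : M g + F g (M g) ≤ 2 * (g + 5) ^ 3 * 2 ^ (g + 4) ^ 2 := by
      refine (Nat.add_le_add (m1 g) a3).trans ?_
      rw [← add_mul]
      exact Nat.mul_le_mul_right _ (by nlinarith [Nat.zero_le (g ^ 2), Nat.zero_le (g ^ 3)])
    have a5 := Nat.pow_le_pow_left (Nat.lt_two_pow_self (n := g + 5)).le 3
    have a6 : M g + F g (M g) ≤ 2 ^ (1 + (g + 5) * 3 + (g + 4) ^ 2) := by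
      rw [pow_add, pow_add, pow_mul, pow_one]
      exact a4.trans (by gcongr)
    refine (Nat.mul_le_mul (show 56 ≤ 2 ^ 6 by norm_num) (Nat.pow_le_pow_left a6 2)).trans ?_
    rw [← pow_mul, ← pow_add]
    exact Nat.pow_le_pow_right two_pos (by nlinarith [h' g (by omega)])

end Pool.Agent.H52.SN
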