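import Pool.Agent.H52.SN5

namespace Pool.Agent.H52.SN

open Finset Filter Real

lemma small (c : ℝ) {m : ℕ} (hm : 0 < m) {δ : ℝ} (hδ : 0 < δ) : ∀ᶠ g : ℕ in atTop, ∀ x : ℕ,
    (g + 5) ^ 8 ≤ m * x + m → c + (g + 2) * (g + 5) ^ 2 + (g + 4) < δ * √x := by
  have m1 : (1 : ℝ) ≤ m := by exact_mod_cast hm
  filter_upwards [tendsto_natCast_atTop_atTop.eventually_ge_atTop c,
    tendsto_natCast_atTop_atTop.eventually_ge_atTop (4 * m / δ), eventually_ge_atTop m]
    with g h1 h2 h3 x hx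
  have g0 : (0 : ℝ) ≤ g := g.cast_nonneg
  have x1 : 1 ≤ x := by
    by_contra! h
    obtain rfl : x = 0 := by omega
    have := Nat.le_self_pow (show 8 ≠ 0 by norm_num) (g + 5)
    omega
  have a1 : ((g : ℝ) + 5) ^ 4 ≤ 2 * m * √x := by
    refine (abs_le_of_sq_le_sq' ?_ (by positivity)).2
    rw [mul_pow, sq_sqrt (by positivity), ← pow_mul]
    have : (g + 5) ^ 8 ≤ (2 * m) ^ 2 * x := by nlinarith [Nat.mul_le_mul_right x (Nat.le_mul_self m)]
    exact_mod_cast this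
  rw [div_le_iff₀ hδ] at h2
  refine lt_of_mul_lt_mul_left (a := 2 * (m : ℝ)) ?_ (by positivity)
  have a2 : c + (g + 2) * (g + 5) ^ 2 + (g + 4) < 2 * ((g : ℝ) + 5) ^ 3 := by
    nlinarith [pow_nonneg g0 2, pow_nonneg g0 3]
  have a3 := mul_lt_mul_of_pos_left a2 (show 0 < 2 * (m : ℝ) by positivity)
  have a4 := mul_le_mul_of_nonneg_left a1 hδ.le
  have a5 := mul_le_mul_of_nonneg_right (h2.trans (mul_le_mul_of_nonneg_right
    (show (g : ℝ) ≤ g + 5 by linarith) hδ.le)) (show 0 ≤ ((g : ℝ) + 5) ^ 3 by positivity)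
  nlinarith

theorem core : ∃ a d : ℕ → ℕ, StrictMono a ∧ (∀ p, 0 < a p) ∧
    (∀ θ : ℝ, θ < 1 → ∀ᶠ N : ℕ in atTop, (N : ℝ) ^ θ < (Nat.card {n : ℕ | a n ≤ N} : ℝ)) ∧
    (∀ p r : ℕ, r < (Nat.digits 2 (a p)).length →
      d ((∑ j ∈ range p, (Nat.digits 2 (a j)).length) + r) = (Nat.digits 2 (a p)).reverse.getD r 0) ∧
    (∀ i, d i ≤ 1) ∧ (∀ p, ∃ i, p ≤ i ∧ d i = 0) ∧ ∀ m k, 0 < m → k < 2 ^ m → ∀ δ : ℝ, 0 < δ →
      (∀ᶠ x : ℕ in atTop, |D d m k x| < ((1 + δ) * (√m * tau m) + δ) * psi x) ∧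
      ∀ s : ℤ, s * s = 1 →
        ∃ᶠ x : ℕ in atTop, (√m * tau m / (1 + δ) - δ) * psi x < s * D d m k x := by
  obtain ⟨l, t, K, fl, M, hl2, M0, hM, hp, he, hb⟩ := params
  obtain ⟨mm, kk, ss, ty, ty2⟩ := types l hl2
  have fl1 : ∀ g, g + 4 < fl g := fun g =>
    (Nat.le_self_pow two_ne_zero _).trans_lt (hp g).2.2.2.2.1
  choose β hβ using fun g => family' (hp g).1 (t g)
  have hz : ∀ g (σ : ℤ), ∃ z, |σ| ≤ 1 → _ := fun g σ => by
    by_cases h : |σ| ≤ 1
    · exact (suffix (hp g).1 (ty g).1 (ty g).2.1 (ty g).2.2.1 σ h).imp fun _ h _ => h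
    · exact ⟨0, fun h' => absurd h' h⟩
  choose z hz using hz
  obtain ⟨κ, hκ⟩ : ∃ κ : ℕ → ℝ, ∀ g, κ g = l g * 2 ^ l g * (2 ^ mm g * tau (mm g)) :=
    ⟨_, fun _ => rfl⟩
  have κ1 : ∀ g, 1 ≤ κ g ∧ κ g ≤ g + 4 := fun g => by
    have a1 : (1 : ℝ) ≤ l g := by exact_mod_cast (hp g).1
    have a2 : (1 : ℝ) ≤ 2 ^ l g := one_le_pow₀ one_le_two
    have a3 := tau_bd (ty g).1
    have a4 : ((l g : ℝ) * 2 ^ l g) ^ 2 ≤ g + 4 := by exact_mod_cast (hp g).2.1
    rw [hκ]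
    refine ⟨one_le_mul_of_one_le_of_one_le (one_le_mul_of_one_le_of_one_le a1 a2) a3.1,
      le_trans ?_ a4⟩
    rw [sq]
    refine mul_le_mul_of_nonneg_left ((mul_le_of_le_one_right (by positivity) a3.2).trans
      ((pow_le_pow_right₀ one_le_two (Nat.le_of_dvd (hp g).1 (ty g).2.1)).trans
      (le_mul_of_one_le_left (by positivity) a1))) (by positivity)
  obtain ⟨r, hr⟩ : ∃ r : ℕ → ℕ, ∀ g, r g = ⌊psi (M g + fl g : ℕ) / κ g⌋₊ := ⟨_, fun _ => rfl⟩
  have r1 : ∀ g, r g * κ g ≤ psi (M g + fl g : ℕ) ∧ psi (M g + fl g : ℕ) < (r g + 1) * κ g ∧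
      r g ^ 3 ≤ 7 * (M g + fl g) ^ 2 := fun g => by
    have k0 : 0 < κ g := one_pos.trans_le (κ1 g).1
    have a1 : r g * κ g ≤ psi (M g + fl g : ℕ) := by
      rw [← le_div_iff₀ k0, hr]
      exact Nat.floor_le (div_nonneg (psi_nonneg _) k0.le)
    refine ⟨a1, by rw [← div_lt_iff₀ k0, hr]; exact Nat.lt_floor_add_one _, ?_⟩
    have a2 := (pow_le_pow_left₀ (by positivity) ((le_mul_of_one_le_right (by positivity)
      (κ1 g).1).trans a1) 3).trans (psi_cube (by have := hp g; exact_mod_cast by omega))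
    exact_mod_cast a2
  let sg : ℕ → ℕ → ℤ := fun g i => if i < r g then ss g else if i < 2 * r g then -ss g else 0
  have sg1 : ∀ g i, |sg g i| ≤ 1 := fun g i => by
    have := (ty g).2.2.2
    simp only [sg]
    split_ifs <;> simp [this]
  have w1 : ∀ g i, i < 2 ^ ((l g - 2) * 2 ^ l g * t g) →
      β g i * 2 ^ (l g * 2 ^ l g * (l g * 2 ^ l g)) + z g (sg g i) <
      (β g i + 1) * 2 ^ (l g * 2 ^ l g * (l g * 2 ^ l g)) := fun g i _ => by
    have := (hz g _ (sg1 g i)).1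
    linarith
  have w2 : ∀ g i, i < 2 ^ ((l g - 2) * 2 ^ l g * t g) →
      β g i * 2 ^ (l g * 2 ^ l g * (l g * 2 ^ l g)) + z g (sg g i) < 2 ^ K g := fun g i hi => by
    rw [(hp g).2.2.2.1, pow_add]
    exact (w1 g i hi).trans_le (Nat.mul_le_mul_right _ (hβ g i hi).2.1.1)
  have k1 : ∀ g, fl g ≤ (g + 5) ^ 2 ∧ K g ≤ (g + 5) ^ 2 ∧ 0 < K g := fun g => by
    have := hp g; omega
  obtain ⟨a, d, a1, a2, a3, a4, a5, a6, a7⟩ := build (fun g => 2 ^ ((l g - 2) * 2 ^ l g * t g)) fl K M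
    (fun g i => β g i * 2 ^ (l g * 2 ^ l g * (l g * 2 ^ l g)) + z g (sg g i)) M0 hM
    (fun g => ⟨by have := fl1 g; omega, (hp g).2.2.2.2.2.1,
      (k1 g).2.1.trans_lt (hp (g + 1)).2.2.2.2.1⟩) fun g i hi => ⟨by
      have b1 : 0 < l g * 2 ^ l g * (t g + 1) := by have := (hp g).1; positivity
      rw [(hp g).2.2.2.1, show ∀ a b : ℕ, 0 < a → a + b - 1 = a - 1 + b by omega, pow_add]
      · exact (Nat.mul_le_mul_right _ (hβ g i hi).2.2).trans (Nat.le_add_right _ _)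
      · exact b1, w2 g i hi, fun j hj => (w1 g j (hj.trans hi)).trans_le
        ((Nat.mul_le_mul_right _ ((hβ g i hi).1 j hj)).trans (Nat.le_add_right _ _))⟩
  have cov : ∀ (f : ℕ → ℕ), (∀ g, f g < f (g + 1)) → ∀ g0, ∀ᶠ x in atTop,
      ∃ g, g0 ≤ g ∧ f g ≤ x ∧ x < f (g + 1) := fun f hf g0 => by
    refine eventually_atTop.mpr ⟨f g0, fun x hx => ?_⟩
    induction x, hx using Nat.le_induction with
    | base => exact ⟨g0, le_rfl, le_rfl, hf _⟩
    | succ x _ ih =>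
      obtain ⟨g, b1, b2, b3⟩ := ih
      rcases (Nat.succ_le_of_lt b3).eq_or_lt with h | h
      · exact ⟨g + 1, by omega, h.ge, h.trans_lt (hf _)⟩
      · exact ⟨g, b1, by omega, h⟩
  refine ⟨a, d, a1, a2, fun θ hθ => ?_, a4, a5, a6, fun m k hm hk δ hδ => ?_⟩
  · obtain ⟨g0, h0⟩ := eventually_atTop.mp (he (max θ 0) (max_lt hθ one_pos))
    filter_upwards [cov (fun g => 2 ^ (g + 5) ^ 2) (fun g => Nat.pow_lt_pow_right one_lt_two
      (Nat.pow_lt_pow_left (by omega) two_ne_zero)) g0] with N ⟨g, b1, b2, b3⟩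
    have b4 := a3 g N ((Nat.pow_le_pow_right two_pos (k1 g).2.1).trans b2)
    have b5 : (1 : ℝ) ≤ N := by exact_mod_cast (Nat.two_pow_pos _).trans_le b2
    refine lt_of_le_of_lt ?_ (Nat.cast_lt.mpr b4)
    refine (rpow_le_rpow_of_exponent_le b5 (le_max_left θ 0)).trans ((rpow_le_rpow (by positivity)
      (Nat.cast_le.mpr b3.le) (le_max_right _ _)).trans ?_)
    rw [Nat.cast_pow, Nat.cast_pow, Nat.cast_ofNat, ← rpow_natCast, ← rpow_natCast,
      ← rpow_mul zero_le_two]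
    refine rpow_le_rpow_of_exponent_le one_le_two (le_trans (le_of_eq ?_) (h0 g b1).le)
    push_cast; ring
  obtain ⟨v, hv⟩ : ∃ v : ℕ → ℝ, ∀ g, v g =
    ss g * (2 ^ mm g * ∑ y ∈ range (2 ^ l g), S (mm g) (kk g) y (l g) * S m k y (l g)) :=
    ⟨_, fun _ => rfl⟩
  obtain ⟨g0, h0⟩ := eventually_atTop.mp ((hl2 m hm).and hb)
  obtain ⟨c, hc⟩ := group (D d m k) (fun _ _ => D_lip d m k) hm _ fl K M r v hM k1 g0 fun g hg => by
    obtain ⟨b1, -, b2⟩ := h0 g hg
    refine ⟨(Nat.pow_le_pow_iff_left (show 3 ≠ 0 by norm_num)).mp (le_trans ?_ b2), fun i hi => ?_⟩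
    · nlinarith [(r1 g).2.2]
    have b3 : m ∣ l g * 2 ^ l g := b1.mul_right _
    have b4 : m ∣ K g := by rw [(hp g).2.2.2.1]; exact dvd_add (b3.mul_right _) (b3.mul_right _)
    rw [add_mul, one_mul, ← add_assoc, D_word k (w2 g i hi) (a7 g i hi) hm
      (dvd_add (b1.trans (hp g).2.2.1) (b4.mul_left _)) b4]
    congr 1
    rw [(hp g).2.2.2.1, S_add hm (b3.mul_right _) (b3.mul_right _) (hz g _ (sg1 g i)).1,
      (hβ g i hi).2.1.2 m k hm b1 hk, (hz g _ (sg1 g i)).2 m k hm b1 hk, hv]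
    simp only [sg]
    split_ifs <;> simp
  have m1 : (1 : ℝ) ≤ m := by exact_mod_cast hm
  have t0 := tau_nonneg m
  have Mt : Tendsto (fun g => M g + fl g) atTop atTop := tendsto_atTop_mono
    (fun g => by have := fl1 g; simp only [id]; omega) tendsto_id
  constructor
  · obtain ⟨g1, h1⟩ := eventually_atTop.mp ((small c hm hδ).and (eventually_ge_atTop g0))
    filter_upwards [(tendsto_id.const_mul_atTop' hm).eventually (cov M (fun g => by
      have := hp g; rw [hM]; omega) g1), tendsto_natCast_atTop_atTop.eventually (psi_cmp hδ),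
      eventually_ge_atTop m] with x ⟨g, b1, b2, b3⟩ ⟨b4, b5⟩ b6
    obtain ⟨c1, c2⟩ := h1 g b1
    have c3 := (c1 x ((h0 g c2).2.1.trans (b2.trans (Nat.le_add_right _ _)))).trans_le
      (mul_le_mul_of_nonneg_left b4 hδ.le)
    have c4 : (0 : ℝ) ≤ g + 4 := by positivity
    have c5 : 0 ≤ (1 + δ) * (√m * tau m) * psi x := by have := psi_nonneg x; positivity
    rcases (hc g c2).1 x b2 b3 with h | ⟨h, h'⟩
    · linarith
    have c6 := b5 (M g + fl g : ℕ) 1 m (by have := fl1 g; exact_mod_cast by omega)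
      (by exact_mod_cast h.trans (by nlinarith)) zero_le_one (by positivity) (by
        have : ((M g + fl g : ℕ) : ℝ) ≤ m * x := by exact_mod_cast h
        nlinarith [show (0 : ℝ) ≤ δ * (m * x) by positivity])
    have c7 : |v g| ≤ κ g * tau m := by
      rw [hv, abs_mul, abs_mul, hκ]
      refine (mul_le_of_le_one_left (by positivity) (by exact_mod_cast (ty g).2.2.2)).trans ?_
      rw [abs_of_pos (by positivity)]
      exact (mul_le_mul_of_nonneg_left (cov_le hm (h0 g c2).1 hk (ty g).1 (ty g).2.1 (ty g).2.2.1)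
        (by positivity)).trans_eq (by ring)
    have c8 := mul_le_mul_of_nonneg_left c7 (r g).cast_nonneg
    have c9 := mul_le_mul_of_nonneg_right ((r1 g).1.trans (by simpa using c6)) t0
    nlinarith
  intro s hs
  have s1 : |s| = 1 := by
    rcases Int.eq_one_or_neg_one_of_mul_eq_one hs with rfl | rfl <;> simp
  refine Tendsto.frequently (f := fun g => (M g + fl g + r g * K g) / m) (l₁ := atTop)
    ((Nat.tendsto_div_const_atTop hm.ne').comp (tendsto_atTop_mono (fun g => Nat.le_add_right _ _) Mt))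
    (((ty2 m k s hm hk s1.le).and_eventually ((small c hm hδ).and ((eventually_ge_atTop g0).and
    (((tendsto_natCast_atTop_atTop.comp Mt).eventually (psi_cmp hδ)).and
    ((tendsto_natCast_atTop_atTop.eventually_ge_atTop (7 / min δ 1 ^ 3)).and
    (((Nat.tendsto_div_const_atTop hm.ne').comp (tendsto_atTop_mono
      (fun g => Nat.le_add_right _ (r g * K g)) Mt)).eventually ((eventually_gt_atTop 1).and
      (tendsto_natCast_atTop_atTop.eventually (psi_cmp hδ))))))))).mono ?_)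
  rintro g ⟨⟨b1, b2, b3⟩, c1, c2, ⟨-, c3⟩, c4, c5, c6, -⟩
  simp only [Function.comp] at c3 c5 c6
  obtain ⟨d1, d2, -⟩ := h0 g c2
  have d3 := (hc g c2).2
  have d4 := Nat.lt_mul_div_succ (M g + fl g + r g * K g) hm
  have d5 := Nat.mul_div_le (M g + fl g + r g * K g) m
  generalize (M g + fl g + r g * K g) / m = x at *
  have d6 := (c1 x (by rw [mul_add] at d4; omega)).trans_le (mul_le_mul_of_nonneg_left c6 hδ.le)
  have μ0 : 0 < min δ 1 := lt_min hδ one_pos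
  have d7 : (r g * K g : ℝ) ≤ min δ 1 * (M g + fl g : ℕ) := by
    refine le_of_pow_le_pow_left₀ (show 3 ≠ 0 by norm_num) (by positivity) ?_
    have e1 : ((r g * K g) ^ 3 : ℝ) ≤ 7 * (M g + fl g : ℕ) ^ 2 * ((g + 5) ^ 2) ^ 3 := by
      rw [mul_pow]
      exact_mod_cast Nat.mul_le_mul (r1 g).2.2 (Nat.pow_le_pow_left (k1 g).2.1 3)
    have e2 : ((g : ℝ) + 5) ^ 8 ≤ (M g + fl g : ℕ) := by exact_mod_cast d2.trans (Nat.le_add_right _ _)
    rw [div_le_iff₀ (by positivity)] at c4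
    have e3 : (g : ℝ) ≤ (g + 5) ^ 2 := by nlinarith [(g.cast_nonneg : (0 : ℝ) ≤ g)]
    have e4 := mul_le_mul_of_nonneg_right (c4.trans (mul_le_mul_of_nonneg_right e3 (by positivity)))
      (show 0 ≤ ((M g + fl g : ℕ) : ℝ) ^ 2 * ((g + 5) ^ 2) ^ 3 by positivity)
    have e5 := mul_le_mul_of_nonneg_right e2
      (show 0 ≤ ((M g + fl g : ℕ) : ℝ) ^ 2 * min δ 1 ^ 3 by positivity)
    exact e1.trans ((le_of_eq (by ring)).trans (e4.trans ((le_of_eq (by ring)).trans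
      (e5.trans_eq (by ring)))))
  have d8 : (m * x : ℝ) ≤ (M g + fl g : ℕ) + r g * K g := by exact_mod_cast d5
  have N2 : (2 : ℝ) ≤ (M g + fl g : ℕ) := by have := fl1 g; exact_mod_cast by omega
  have x0 : (0 : ℝ) ≤ x := x.cast_nonneg
  have d9 := c3 x m 1 (by exact_mod_cast c5) (by
      nlinarith [mul_le_mul_of_nonneg_right (min_le_right δ 1) (zero_le_two.trans N2),
        mul_le_mul_of_nonneg_right m1 x0]) (by positivity) zero_le_one (by
      nlinarith [mul_le_mul_of_nonneg_right (min_le_left δ 1) (zero_le_two.trans N2)])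
  have s2 : (s : ℝ) * s = 1 := by exact_mod_cast hs
  have e1 : s * v g = κ g * tau m := by
    rw [hv, hκ, b1, b2, b3, ← mul_assoc, s2, one_mul]
    simp only [← sq, var_eq hm d1 hk]
    ring
  have e2 : |s * D d m k x - r g * (κ g * tau m)| ≤ c + (g + 2) * (g + 5) ^ 2 := by
    rw [← e1, mul_left_comm, ← mul_sub, abs_mul, show |(s : ℝ)| = 1 by exact_mod_cast s1, one_mul]
    exact d3
  have e3 := (abs_le.mp e2).1
  have e4 := mul_le_mul_of_nonneg_right (r1 g).2.1.le t0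
  have e5 := mul_le_mul (κ1 g).2 (tau_bd hm).2 t0 (by positivity)
  have e6 : √m * tau m / (1 + δ) * psi x ≤ psi (M g + fl g : ℕ) * tau m := by
    rw [div_mul_eq_mul_div, div_le_iff₀ (by positivity)]
    simp only [sqrt_one, mul_one] at d9
    nlinarith [mul_le_mul_of_nonneg_right d9 t0]
  nlinarith

end Pool.Agent.H52.SN
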