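import Mathlib

set_option autoImplicit false

namespace H52.ST

open Polynomial Filter Topology

abbrev B := Polynomial (Polynomial ℝ)

noncomputable def cc : B := X ^ 2 + C (X ^ 3 + X ^ 2)

lemma ev_cc (x y : ℝ) : cc.evalEval x y = x ^ 3 + x ^ 2 + y ^ 2 := by
  simp [cc, evalEval_C]; ring

lemma mpos {x : ℝ} (hx : x < -1) : 0 < -x ^ 3 - x ^ 2 := by
  have : 0 < x ^ 2 := by nlinarith
  nlinarith

lemma dv (g : B) (h : ∀ x < -1, ∀ d : ℝ, d ^ 2 = 1 →
    g.evalEval x (d * √(-x ^ 3 - x ^ 2)) = 0) : cc ∣ g := by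
  have hm : cc.Monic := monic_X_pow_add (lt_of_le_of_lt degree_C_le (by norm_num))
  have hd : cc.degree = 2 := by
    rw [cc, degree_add_eq_left_of_degree_lt] <;> rw [degree_X_pow]
    · rfl
    · exact lt_of_le_of_lt degree_C_le (by norm_num)
  rw [← modByMonic_eq_zero_iff_dvd hm]
  have h1 : (g %ₘ cc).degree ≤ 1 := by
    have := degree_modByMonic_lt g hm
    rw [hd] at this
    exact Order.le_of_lt_succ this
  have h2 := eq_X_add_C_of_degree_le_one h1
  set a := (g %ₘ cc).coeff 1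
  set b := (g %ₘ cc).coeff 0
  have key : ∀ x < -1, ∀ d : ℝ, d ^ 2 = 1 →
      a.eval x * (d * √(-x ^ 3 - x ^ 2)) + b.eval x = 0 := by
    intro x hx d hd
    have e := h x hx d hd
    rw [← modByMonic_add_div g cc, evalEval_add, evalEval_mul, ev_cc, h2, mul_pow, hd,
      Real.sq_sqrt (mpos hx).le] at e
    simp only [evalEval_add, evalEval_mul, evalEval_C, evalEval_X] at e
    linear_combination e
  have z : ∀ x < -1, a.eval x = 0 ∧ b.eval x = 0 := by
    intro x hx
    have e1 := key x hx 1 (by norm_num)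
    have e2 := key x hx (-1) (by norm_num)
    have s : 0 < √(-x ^ 3 - x ^ 2) := Real.sqrt_pos.2 (mpos hx)
    refine ⟨?_, by linarith⟩
    have : a.eval x * √(-x ^ 3 - x ^ 2) = 0 := by linarith
    exact (mul_eq_zero.1 this).resolve_right s.ne'
  have ha : a = 0 := eq_zero_of_infinite_isRoot a
    ((Set.Iio_infinite (-1 : ℝ)).mono fun x hx => (z x hx).1)
  have hb : b = 0 := eq_zero_of_infinite_isRoot b
    ((Set.Iio_infinite (-1 : ℝ)).mono fun x hx => (z x hx).2)
  rw [h2, ha, hb]; simp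

noncomputable def yy (x d w : ℝ) : ℝ := d * √(-x ^ 3 - x ^ 2 - (w ^ 2)⁻¹)

noncomputable def ev (G : B[X]) (x y w : ℝ) : ℝ := G.eval₂ (evalEvalRingHom x y) w

lemma inv_lim : Tendsto (fun w : ℝ => (w ^ 2)⁻¹) atTop (𝓝 0) :=
  (tendsto_pow_atTop two_ne_zero).inv_tendsto_atTop

lemma yy_lim (x d : ℝ) : Tendsto (yy x d) atTop (𝓝 (d * √(-x ^ 3 - x ^ 2))) := by
  have := ((tendsto_const_nhds (x := -x ^ 3 - x ^ 2)).sub inv_lim).sqrt.const_mul d
  unfold yy
  simpa using this

lemma yy_on {x d : ℝ} (hx : x < -1) (hd : d ^ 2 = 1) :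
    ∀ᶠ w in atTop, w ^ 2 * (x ^ 3 + x ^ 2 + yy x d w ^ 2) + 1 = 0 := by
  filter_upwards [inv_lim.eventually (gt_mem_nhds (mpos hx)), eventually_gt_atTop 0]
    with w h1 h2
  rw [yy, mul_pow, hd, Real.sq_sqrt (by linarith)]
  field_simp
  ring

lemma g_lim (g : B) (x d : ℝ) : Tendsto (fun w => g.evalEval x (yy x d w)) atTop
    (𝓝 (g.evalEval x (d * √(-x ^ 3 - x ^ 2)))) := by
  simp only [← map_evalRingHom_eval]
  exact ((g.map (evalRingHom x)).continuous.tendsto _).comp (yy_lim x d)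

lemma lim (G : B[X]) (J : ℕ) (hJ : G.natDegree ≤ J) (x d : ℝ) :
    Tendsto (fun w => ev G x (yy x d w) w / w ^ J) atTop
      (𝓝 ((G.coeff J).evalEval x (d * √(-x ^ 3 - x ^ 2)))) := by
  have e : ∀ w, ev G x (yy x d w) w / w ^ J = ∑ j ∈ Finset.range (J + 1),
      (G.coeff j).evalEval x (yy x d w) * (w ^ j / w ^ J) := by
    intro w
    rw [ev, eval₂_eq_sum_range' _ (Nat.lt_succ_of_le hJ), Finset.sum_div]
    exact Finset.sum_congr rfl fun j _ => by rw [mul_div_assoc]; rfl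
  simp only [e, Finset.sum_range_succ]
  have h1 : Tendsto (fun w => ∑ j ∈ Finset.range J,
      (G.coeff j).evalEval x (yy x d w) * (w ^ j / w ^ J)) atTop
      (𝓝 (∑ j ∈ Finset.range J, (G.coeff j).evalEval x (d * √(-x ^ 3 - x ^ 2)) * 0)) :=
    tendsto_finsetSum _ fun j hj => (g_lim _ x d).mul
      (tendsto_pow_div_pow_atTop_zero (Finset.mem_range.1 hj))
  have h2 : Tendsto (fun w => (G.coeff J).evalEval x (yy x d w) * (w ^ J / w ^ J)) atTop
      (𝓝 ((G.coeff J).evalEval x (d * √(-x ^ 3 - x ^ 2)))) := by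
    refine (g_lim _ x d).congr' ?_
    filter_upwards [eventually_gt_atTop 0] with w hw
    rw [div_self (by positivity), mul_one]
  simpa using h1.add h2

lemma top (G : B[X]) (J : ℕ) (hJ : G.natDegree ≤ J + 1)
    (hb : ∀ x < -1, ∀ d : ℝ, d ^ 2 = 1 → ∃ M, ∀ᶠ w in atTop, |ev G x (yy x d w) w| ≤ M) :
    cc ∣ G.coeff (J + 1) := by
  refine dv _ fun x hx d hd => ?_
  obtain ⟨M, hM⟩ := hb x hx d hd
  refine tendsto_nhds_unique (lim G (J + 1) hJ x d) ?_
  have h0 : Tendsto (fun w : ℝ => M / w ^ (J + 1)) atTop (𝓝 0) :=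
    tendsto_const_nhds.div_atTop (tendsto_pow_atTop (Nat.succ_ne_zero J))
  refine squeeze_zero_norm' ?_ h0
  filter_upwards [hM, eventually_gt_atTop 0] with w h1 h2
  rw [Real.norm_eq_abs, abs_div, abs_of_pos (pow_pos h2 _)]
  exact div_le_div_of_nonneg_right h1 (pow_pos h2 _).le

lemma red (J : ℕ) : ∀ G : B[X], G.natDegree ≤ J →
    (∀ x < -1, ∀ d : ℝ, d ^ 2 = 1 → ∃ M, ∀ᶠ w in atTop, |ev G x (yy x d w) w| ≤ M) →
    ∃ g : B, ∀ x < -1, ∀ d : ℝ, d ^ 2 = 1 → Tendsto (fun w => ev G x (yy x d w) w) atTop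
      (𝓝 (g.evalEval x (d * √(-x ^ 3 - x ^ 2)))) := by
  induction J with
  | zero =>
    intro G hG _
    exact ⟨G.coeff 0, fun x _ d _ => by simpa using lim G 0 hG x d⟩
  | succ J ih =>
    intro G hG hb
    obtain ⟨h, hh⟩ := top G J hG hb
    rcases J with _ | J
    · refine ⟨G.coeff 0, fun x hx d hd => ?_⟩
      have e := eq_X_add_C_of_natDegree_le_one hG
      have h1 := (g_lim (G.coeff 0) x d).sub ((g_lim h x d).mul tendsto_inv_atTop_zero)
      rw [mul_zero, sub_zero] at h1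
      refine h1.congr' ?_
      filter_upwards [yy_on hx hd, eventually_gt_atTop 0] with w h2 h3
      conv_rhs => rw [e, hh]
      simp only [ev, eval₂_add, eval₂_mul, eval₂_C, eval₂_X, map_mul, coe_evalEvalRingHom, ev_cc]
      field_simp
      linear_combination (-h.evalEval x (yy x d w)) * h2
    · have hd' : (G - C h * (C cc * X ^ (J + 2) + X ^ J)).natDegree ≤ J + 1 := by
        rw [natDegree_le_iff_coeff_eq_zero]
        intro N hN
        rw [coeff_sub, coeff_C_mul, coeff_add, coeff_C_mul, coeff_X_pow, coeff_X_pow,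
          if_neg (show N ≠ J by omega)]
        by_cases e : N = J + 2
        · rw [if_pos e, e, show J + 2 = J + 1 + 1 from rfl, hh]; ring
        · rw [if_neg e, coeff_eq_zero_of_natDegree_lt (by omega)]; ring
      have he : ∀ x < -1, ∀ d : ℝ, d ^ 2 = 1 → ∀ᶠ w in atTop,
          ev (G - C h * (C cc * X ^ (J + 2) + X ^ J)) x (yy x d w) w = ev G x (yy x d w) w := by
        intro x hx d hd
        filter_upwards [yy_on hx hd] with w h2
        simp only [ev, eval₂_sub, eval₂_add, eval₂_mul, eval₂_C, eval₂_X_pow,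
          coe_evalEvalRingHom, ev_cc]
        linear_combination (-h.evalEval x (yy x d w) * w ^ J) * h2
      obtain ⟨g, hg⟩ := ih _ hd' fun x hx d hd => by
        obtain ⟨M, hM⟩ := hb x hx d hd
        exact ⟨M, by filter_upwards [hM, he x hx d hd] with w h1 h2; rwa [h2]⟩
      exact ⟨g, fun x hx d hd => (hg x hx d hd).congr' (he x hx d hd)⟩

theorem stub {r : ℕ} (k : ℕ) (hk : Odd k) (G : Fin r → B[X])
    (h : ∀ x y w : ℝ, w ^ 2 * (x ^ 3 + x ^ 2 + y ^ 2) + 1 = 0 →
      (2 * x ^ 2 + y ^ 2 - 1) ^ k = ∑ i, ev (G i) x y w ^ 2) : False := by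
  have hF : ∀ x d : ℝ, Tendsto (fun w => (2 * x ^ 2 + yy x d w ^ 2 - 1) ^ k) atTop
      (𝓝 ((2 * x ^ 2 + (d * √(-x ^ 3 - x ^ 2)) ^ 2 - 1) ^ k)) := fun x d =>
    ((((yy_lim x d).pow 2).const_add _).sub_const 1).pow k
  have hg : ∀ i, ∃ g : B, ∀ x < -1, ∀ d : ℝ, d ^ 2 = 1 →
      Tendsto (fun w => ev (G i) x (yy x d w) w) atTop
        (𝓝 (g.evalEval x (d * √(-x ^ 3 - x ^ 2)))) := by
    intro i
    refine red _ (G i) le_rfl fun x hx d hd => ?_
    refine ⟨√((2 * x ^ 2 + (d * √(-x ^ 3 - x ^ 2)) ^ 2 - 1) ^ k + 1), ?_⟩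
    filter_upwards [yy_on hx hd, (hF x d).eventually (gt_mem_nhds (lt_add_one _))] with w h1 h2
    refine Real.abs_le_sqrt ?_
    rw [h _ _ _ h1] at h2
    exact (Finset.single_le_sum (f := fun i => ev (G i) x (yy x d w) w ^ 2)
      (fun _ _ => sq_nonneg _) (Finset.mem_univ i)).trans h2.le
  choose g hg using hg
  obtain ⟨q, hq⟩ := dv ((C (2 * X ^ 2) + X ^ 2 - 1) ^ k - ∑ i, g i ^ 2) fun x hx d hd => by
    have h1 := tendsto_finsetSum Finset.univ fun i _ => (hg i x hx d hd).pow 2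
    have h2 := tendsto_nhds_unique (hF x d) (h1.congr' (by
      filter_upwards [yy_on hx hd] with w hw
      exact (h _ _ _ hw).symm))
    simp only [evalEval_sub, evalEval_pow, evalEval_add, evalEval_C, evalEval_X, evalEval_one,
      evalEval_finsetSum, eval_mul, eval_pow, eval_X, eval_ofNat]
    rw [h2, sub_self]
  have e := congrArg (evalEval 0 0) hq
  simp only [evalEval_sub, evalEval_pow, evalEval_add, evalEval_C, evalEval_X, evalEval_one,
    evalEval_finsetSum, eval_mul, eval_pow, eval_X, eval_ofNat, evalEval_mul, ev_cc] at e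
  have : 0 ≤ ∑ i, (g i).evalEval 0 0 ^ 2 := Finset.sum_nonneg fun _ _ => sq_nonneg _
  norm_num [hk.neg_one_pow] at e
  linarith

theorem relint {S : Type*} (V : Submodule ℝ (S → ℝ)) [FiniteDimensional ℝ V] (F φ : S → ℝ)
    (hF : ∀ v, 0 ≤ F v) (hφ : φ ∈ V) {a b : ℝ} (ha : 0 < a) (h1 : ∀ v, a * F v ≤ φ v)
    (h2 : ∀ v, φ v ≤ b * F v) :
    φ ∈ intrinsicInterior ℝ {ψ : S → ℝ | (ψ ∈ V ∧ ∀ v, 0 ≤ ψ v) ∧ ∃ c, ∀ v, ψ v ≤ c * F v} := by
  set K := {ψ : S → ℝ | (ψ ∈ V ∧ ∀ v, 0 ≤ ψ v) ∧ ∃ c, ∀ v, ψ v ≤ c * F v} with hK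
  let W : Submodule ℝ (S → ℝ) :=
    { carrier := {ψ | ψ ∈ V ∧ ∃ c, ∀ v, |ψ v| ≤ c * F v}
      add_mem' := by
        rintro p q ⟨p1, c, p2⟩ ⟨q1, e, q2⟩
        exact ⟨V.add_mem p1 q1, c + e, fun v =>
          (abs_add_le _ _).trans (by linarith [p2 v, q2 v])⟩
      zero_mem' := ⟨V.zero_mem, 0, fun v => by simp⟩
      smul_mem' := by
        rintro t p ⟨p1, c, p2⟩
        refine ⟨V.smul_mem t p1, |t| * c, fun v => ?_⟩
        rw [Pi.smul_apply, smul_eq_mul, abs_mul, mul_assoc]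
        exact mul_le_mul_of_nonneg_left (p2 v) (abs_nonneg t) }
  haveI : FiniteDimensional ℝ W := Submodule.finiteDimensional_of_le (S₂ := V) fun p hp => hp.1
  have hKW : K ⊆ W := by
    rintro p ⟨⟨p1, p2⟩, c, p3⟩
    exact ⟨p1, c, fun v => by rw [abs_of_nonneg (p2 v)]; exact p3 v⟩
  have hφK : φ ∈ K := ⟨⟨hφ, fun v => (mul_nonneg ha.le (hF v)).trans (h1 v)⟩, b, h2⟩
  have hsp : ∀ y : affineSpan ℝ K, (y : S → ℝ) ∈ W := fun y =>
    (affineSpan_le (Q := W.toAffineSubspace)).2 hKW y.2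
  let bs := Module.finBasis ℝ W
  choose c hc using fun i => (bs i).2.2
  let T : affineSpan ℝ K → W := fun y => ⟨y - φ, W.sub_mem (hsp y) (hKW hφK)⟩
  have hT : Continuous T := (continuous_subtype_val.sub continuous_const).subtype_mk _
  have hN : Continuous fun y => ∑ i, |bs.coord i (T y)| * |c i| :=
    continuous_finsetSum _ fun i _ =>
      (((bs.coord i).continuous_of_finiteDimensional.comp hT).abs).mul continuous_const
  refine mem_intrinsicInterior.2 ⟨⟨φ, subset_affineSpan ℝ K hφK⟩, ?_, rfl⟩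
  refine mem_interior.2 ⟨_, ?_, isOpen_lt hN (continuous_const (y := a)), ?_⟩
  · intro y hy
    have hy' : ∑ i, |bs.coord i (T y)| * |c i| < a := hy
    have key : ∀ v, |(y : S → ℝ) v - φ v| ≤ a * F v := by
      intro v
      have e := congrArg (fun p : W => (p : S → ℝ) v) (bs.sum_repr (T y))
      simp only [Submodule.coe_sum, Submodule.coe_smul, Finset.sum_apply, Pi.smul_apply,
        smul_eq_mul] at e
      have e2 : ((T y : W) : S → ℝ) v = (y : S → ℝ) v - φ v := rfl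
      rw [← e2, ← e]
      refine (Finset.abs_sum_le_sum_abs _ _).trans (le_trans ?_
        (mul_le_mul_of_nonneg_right hy'.le (hF v)))
      rw [Finset.sum_mul]
      refine Finset.sum_le_sum fun i _ => ?_
      rw [abs_mul, mul_assoc]
      exact mul_le_mul_of_nonneg_left ((hc i v).trans
        (mul_le_mul_of_nonneg_right (le_abs_self _) (hF v))) (abs_nonneg _)
    refine ⟨⟨(hsp y).1, fun v => ?_⟩, a + b, fun v => ?_⟩
    · linarith [(abs_le.1 (key v)).1, h1 v]
    · linarith [(abs_le.1 (key v)).2, h2 v]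
  · have : T ⟨φ, subset_affineSpan ℝ K hφK⟩ = 0 := Subtype.ext (sub_self φ)
    change ∑ i, |bs.coord i (T _)| * |c i| < a
    simpa [this] using ha

lemma eval_smul {n m : ℕ} {f : MvPolynomial (Fin n) ℝ} (hf : f.IsHomogeneous m) (t : ℝ)
    (v : Fin n → ℝ) : MvPolynomial.eval (t • v) f = t ^ m * MvPolynomial.eval v f := by
  rw [MvPolynomial.eval_eq', MvPolynomial.eval_eq', Finset.mul_sum]
  refine Finset.sum_congr rfl fun d hd => ?_
  have e : ∑ i, d i = m := by
    have := hf (MvPolynomial.mem_support_iff.1 hd)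
    rw [← this, Finsupp.weight_apply, Finsupp.sum_fintype _ _ (by simp)]
    simp
  simp only [Pi.smul_apply, smul_eq_mul, mul_pow, Finset.prod_mul_distrib,
    Finset.prod_pow_eq_pow_sum, e]
  ring

lemma comp_zero {n : ℕ} (f : MvPolynomial (Fin n) ℝ) (v : Fin n → ℝ)
    (h : ∀ t : ℝ, t ≠ 0 → MvPolynomial.eval (t • v) f = 0) (m : ℕ) :
    MvPolynomial.eval v (MvPolynomial.homogeneousComponent m f) = 0 := by
  by_cases hm : f.totalDegree < m
  · rw [MvPolynomial.homogeneousComponent_eq_zero _ _ hm, map_zero]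
  let p : ℝ[X] := ∑ i ∈ Finset.range (f.totalDegree + 1),
    monomial i (MvPolynomial.eval v (MvPolynomial.homogeneousComponent i f))
  have hp : p = 0 := by
    refine eq_zero_of_infinite_isRoot p ((Set.Ioi_infinite (0 : ℝ)).mono fun t ht => ?_)
    have := h t (ne_of_gt ht)
    rw [← MvPolynomial.sum_homogeneousComponent f, map_sum] at this
    change p.eval t = 0
    rw [← this, eval_finsetSum]
    refine Finset.sum_congr rfl fun i _ => ?_
    rw [eval_monomial, eval_smul (MvPolynomial.homogeneousComponent_isHomogeneous i f), mul_comm]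
  have := congrArg (fun q => coeff q m) hp
  simp only [p, finsetSum_coeff, coeff_monomial, coeff_zero, Finset.sum_ite_eq',
    Finset.mem_range] at this
  rwa [if_pos (by omega)] at this

noncomputable def tr : MvPolynomial (Fin 4) ℝ →ₐ[ℝ] B[X] :=
  MvPolynomial.aeval (![C (C X), C X, 1, X] : Fin 4 → B[X])

lemma ev_tr (f : MvPolynomial (Fin 4) ℝ) (x y w : ℝ) :
    ev (tr f) x y w = MvPolynomial.eval ![x, y, 1, w] f := by
  induction f using MvPolynomial.induction_on with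
  | C a => simp [ev, tr, evalEval_C, Polynomial.algebraMap_apply]
  | add p q hp hq => simp only [ev, map_add, eval₂_add] at *; rw [hp, hq]
  | mul_X p i hp =>
    simp only [ev, map_mul, eval₂_mul] at *
    rw [hp]
    congr 1
    fin_cases i <;> simp [tr, evalEval_C]

end H52.ST
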