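import Mathlib
import Pool.Agent.H53.KmB
import Pool.Agent.H53.KmC

namespace Pool.Agent.H52.Spr

open Polynomial MeasureTheory Metric Module Matrix Filter Pool.Agent.H53.KmB Pool.Agent.H53.KmC

lemma ev (C a b : ℝ) (h : a < b) : ∀ᶠ x : ℝ in Filter.atTop, C * x ^ a < x ^ b := by
  filter_upwards [(tendsto_rpow_atTop (sub_pos.mpr h)).eventually_gt_atTop C,
    Filter.eventually_gt_atTop 0] with x h1 h2
  rw [show b = (b - a) + a by ring, Real.rpow_add h2]
  exact mul_lt_mul_of_pos_right h1 (Real.rpow_pos_of_pos h2 _)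

/-- the scaled coordinates -/
noncomputable def FF (n : ℕ) (a b : ℝ) (P : ℤ[X]) : Fin (n + 2) → ℝ[X] :=
  Fin.cons (C a⁻¹ * P.map (Int.castRingHom ℝ)) fun i : Fin (n + 1) => C (b⁻¹ * (P.coeff i : ℝ))

lemma verif (n : ℕ) : ∃ c : ℝ, 0 < c ∧ ∀ a b : ℝ, 0 < a → 1 ≤ b → a * b ^ n < c →
    ∀ (k : ℕ) (u : Fin (k + 1) → ℤ[X]), k ≤ n → LinearIndependent ℤ u →
    (∀ i, (u i).natDegree ≤ n) → ∃ z ∈ closedBall (0 : ℝ) 2, ∃ I : Fin (k + 1) → Fin (n + 2),
      1 ≤ |(Matrix.of fun i j => (FF n a b (u i) (I j)).eval z).det| := by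
  obtain ⟨c, c0, hc⟩ := glem n 1
  refine ⟨c, c0, fun a b ha hb hab k u hk hu hd => ?_⟩
  have h3 : LinearIndependent ℝ fun i => algebraMap ℤ ℝ ∘ fun l : Fin (n + 1) => (u i).coeff l :=
    linearIndependent_algebraMap_comp_iff.mpr (Fintype.linearIndependent_iff.mpr fun g hg =>
      Fintype.linearIndependent_iff.mp hu g (by
        ext l
        rcases le_or_gt l n with h | h
        · simpa using congrFun hg ⟨l, by omega⟩
        · simp [coeff_eq_zero_of_natDegree_lt ((hd _).trans_lt h)]))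
  obtain ⟨I0, hI⟩ := minor_ne (Matrix.of fun i (l : Fin (n + 1)) => ((u i).coeff l : ℝ)) h3
  have hI1 : 1 ≤ |((Matrix.of fun i (l : Fin (n + 1)) => ((u i).coeff l : ℝ)).submatrix id I0).det| := by
    have e : ((Matrix.of fun i (l : Fin (n + 1)) => ((u i).coeff l : ℝ)).submatrix id I0).det =
        ((Matrix.of fun i j => (u i).coeff (I0 j)).det : ℤ) := by
      rw [Int.cast_det]; rfl
    rw [e] at hI ⊢
    exact_mod_cast Int.one_le_abs (by exact_mod_cast hI)
  by_contra! h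
  set m : Fin (k + 1) → ℝ := fun i => (-1) ^ (i : ℕ) *
    (Matrix.of fun (p q : Fin k) => ((u (i.succAbove p)).coeff (I0 q.succ) : ℝ)).det with hm
  set R : ℝ[X] := ∑ i, C (m i) * (u i).map (Int.castRingHom ℝ) with hR
  have b0 : 0 < b := by linarith
  have key := hc (fun _ => R) (a * b ^ k) (fun _ => natDegree_sum_le_of_forall_le _ _ fun i _ =>
    (natDegree_C_mul_le _ _).trans (natDegree_map_le.trans (hd i))) (fun x hx => by
      have h1 := h x hx (Fin.cons 0 fun j => (I0 j.succ).succ)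
      rw [det_succ_column_zero] at h1
      have e : ∀ i : Fin (k + 1), (-1 : ℝ) ^ (i : ℕ) * (Matrix.of fun i j => (FF n a b (u i)
          ((Fin.cons 0 fun j => (I0 j.succ).succ : Fin (k + 1) → Fin (n + 2)) j)).eval x) i 0 *
          ((Matrix.of fun i j => (FF n a b (u i) ((Fin.cons 0 fun j => (I0 j.succ).succ :
          Fin (k + 1) → Fin (n + 2)) j)).eval x).submatrix i.succAbove Fin.succ).det =
          (a * b ^ k)⁻¹ * (m i * ((u i).map (Int.castRingHom ℝ)).eval x) := fun i => by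
        have e1 : ((Matrix.of fun i j => (FF n a b (u i) ((Fin.cons 0 fun j => (I0 j.succ).succ :
            Fin (k + 1) → Fin (n + 2)) j)).eval x).submatrix i.succAbove Fin.succ) =
            b⁻¹ • Matrix.of fun (p q : Fin k) => ((u (i.succAbove p)).coeff (I0 q.succ) : ℝ) := by
          ext p q
          simp [FF]
        rw [e1, det_smul, hm]
        simp only [of_apply, Fin.cons_zero, FF, eval_mul, eval_C, Fintype.card_fin, inv_pow, mul_inv]
        ring
      simp only [e, ← Finset.mul_sum, abs_mul] at h1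
      rw [abs_of_pos (by positivity), inv_mul_lt_iff₀ (by positivity), mul_one] at h1
      simpa [hR, eval_finset_sum] using h1.le) (fun _ => I0 0)
  have e2 : R.coeff (I0 0) = ((Matrix.of fun i (l : Fin (n + 1)) =>
      ((u i).coeff l : ℝ)).submatrix id I0).det := by
    rw [det_succ_column_zero, hR, finset_sum_coeff]
    refine Finset.sum_congr rfl fun i _ => ?_
    simp only [coeff_C_mul, coeff_map, eq_intCast, hm, submatrix_apply, of_apply, id]
    rw [mul_right_comm]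
    rfl
  rw [det_unique, of_apply, e2] at key
  have : a * b ^ k ≤ a * b ^ n := mul_le_mul_of_nonneg_left (pow_le_pow_right₀ hb hk) ha.le
  nlinarith

/-- bad points at height `Q` -/
def Bad (n : ℕ) (ε Q x : ℝ) : Prop := ∃ P : ℤ[X], P ≠ 0 ∧ P.natDegree ≤ n ∧
  (∀ i, |(P.coeff i : ℝ)| ≤ Q) ∧ |aeval x P| ≤ Q ^ (-(n + ε))

lemma badQ (n : ℕ) (ε r : ℝ) (hε : 0 < ε) (hr : 2 ≤ r) : ∃ c δ : ℝ, 0 ≤ c ∧ 0 < δ ∧
    ∀ᶠ Q : ℝ in atTop,
    volume {x ∈ closedBall (0 : ℝ) r | Bad n ε Q x} ≤ ENNReal.ofReal (c * Q ^ (-δ)) := by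
  obtain ⟨D, D0, hD⟩ := verif n
  obtain ⟨d, K0, c, c0, h⟩ := latKM (degreeLT ℤ (n + 1)) (Fin (n + 2)) n
  obtain ⟨γ, γ0, γ1⟩ : ∃ γ : ℝ, 0 < γ ∧ γ * (n + 1) - ε < 0 :=
    ⟨ε / 2 / (n + 1), by positivity, by rw [div_mul_cancel₀ _ (by positivity)]; linarith⟩
  refine ⟨c * r, γ / (d + 1), by positivity, by positivity, ?_⟩
  filter_upwards [eventually_ge_atTop 1, ev D⁻¹ _ _ γ1, ev K0 (-γ * (2 : ℕ))
    (-(γ / (d + 1)) * d) (by
      have : γ / (d + 1) * d ≤ γ := by
        rw [div_mul_eq_mul_div, div_le_iff₀ (by positivity)]; linarith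
      push_cast; linarith)] with Q q1 q2 q3
  have Q0 : 0 < Q := by linarith
  have l1 : 1 ≤ Q ^ γ := Real.one_le_rpow q1 γ0.le
  have t0 : 0 < Q ^ (-(n + ε)) := by positivity
  have hd : ∀ v : degreeLT ℤ (n + 1), v.1.natDegree ≤ n := fun v => natDegree_le_iff_coeff_eq_zero.mpr
    fun i hi => (degree_lt_iff_coeff_zero _ _).mp (mem_degreeLT.mp v.2) i hi
  rw [mul_right_comm]
  refine le_trans (measure_mono ?_) (h (AddMonoidHom.toIntLinearMap (AddMonoidHom.mk'
    (fun v => FF n (Q ^ γ * Q ^ (-(n + ε))) (Q ^ γ * Q) v.1) fun u v => ?_))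
    {v | v ≠ 0} 0 r _ (Q ^ (-γ)) (fun v j => ?_) (by simp) (by linarith) (by positivity)
    (Real.rpow_le_one_of_one_le_of_nonpos q1 (neg_nonpos.mpr (by positivity))) (by positivity)
    (by rwa [← Real.rpow_mul_natCast Q0.le, ← Real.rpow_mul_natCast Q0.le])
    fun k b hb ⟨v, v1, v2⟩ => ?_)
  · rintro x ⟨x1, P, p0, p1, p2, p3⟩
    refine ⟨x1, ⟨P, mem_degreeLT.mpr (degree_le_natDegree.trans_lt (by exact_mod_cast by omega))⟩,
      fun h => p0 (congrArg Subtype.val h), fun j => ?_⟩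
    rw [Real.rpow_neg Q0.le γ]
    refine Fin.cases ?_ (fun j => ?_) j <;>
      simp only [AddMonoidHom.coe_toIntLinearMap, AddMonoidHom.mk'_apply, FF, Fin.cons_zero,
        Fin.cons_succ, eval_C, eval_mul] <;>
      rw [abs_mul, abs_inv, abs_of_pos (by positivity), inv_mul_le_iff₀ (by positivity)]
    · rw [eval_map, ← algebraMap_int_eq, ← aeval_def]
      exact p3.trans_eq (by field_simp)
    · exact (p2 j).trans_eq (by field_simp)
  · funext j
    refine Fin.cases ?_ (fun j => ?_) j <;> simp [FF, mul_add]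
  · exact Fin.cases ((natDegree_C_mul_le _ _).trans (natDegree_map_le.trans (hd v)))
      (fun j => (natDegree_C _).trans_le n.zero_le) j
  · rcases k with _ | k
    · simp at v2
      exact absurd v2 v1
    have hk : k + 1 ≤ n + 1 := by
      simpa [Module.finrank_eq_card_basis (degreeLT.basis ℤ (n + 1))] using hb.fintype_card_le_finrank
    obtain ⟨z, z1, z2⟩ := hD (Q ^ γ * Q ^ (-(n + ε))) (Q ^ γ * Q) (by positivity)
      (one_le_mul_of_one_le_of_one_le l1 q1) (by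
        rw [Real.rpow_zero, inv_mul_lt_iff₀ D0, mul_one] at q2
        refine lt_of_eq_of_lt ?_ q2
        rw [mul_pow, ← Real.rpow_mul_natCast Q0.le, ← Real.rpow_natCast Q n, ← Real.rpow_add Q0,
          ← Real.rpow_add Q0, ← Real.rpow_add Q0]
        congr 1; ring) k (fun i => (b i).1) (by omega)
      (hb.map' (degreeLT ℤ (n + 1)).subtype (Submodule.ker_subtype _)) (fun i => hd _)
    exact ⟨z, closedBall_subset_closedBall hr z1, z2⟩

lemma badAll (n : ℕ) (ε r η : ℝ) (hε : 0 < ε) (hr : 2 ≤ r) (hη : 0 < η) : ∃ j0 : ℕ,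
    volume {x ∈ closedBall (0 : ℝ) r | ∃ j, j0 ≤ j ∧ Bad n ε (2 ^ j) x} ≤ ENNReal.ofReal η := by
  obtain ⟨c, δ, c0, δ0, h⟩ := badQ n ε r hε hr
  have r0 : (0 : ℝ) ≤ 2 ^ (-δ) := by positivity
  have r1 : (2 : ℝ) ^ (-δ) < 1 := Real.rpow_lt_one_of_one_lt_of_neg one_lt_two (by linarith)
  have hs := (summable_geometric_of_lt_one r0 r1).mul_left c
  obtain ⟨j0, h1, h2⟩ := ((tendsto_sum_nat_add fun j => c * ((2 : ℝ) ^ (-δ)) ^ j).eventually
    (gt_mem_nhds hη) |>.and (eventually_forall_ge_atTop.mpr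
    ((tendsto_pow_atTop_atTop_of_one_lt (one_lt_two (α := ℝ))).eventually h))).exists
  refine ⟨j0, (measure_mono (t := ⋃ i : ℕ, {x ∈ closedBall (0 : ℝ) r |
    Bad n ε (2 ^ (i + j0)) x}) ?_).trans
    ((measure_iUnion_le _).trans (le_trans ?_ (ENNReal.ofReal_le_ofReal h1.le)))⟩
  · rintro x ⟨x1, j, j1, j2⟩
    obtain ⟨i, rfl⟩ := Nat.exists_eq_add_of_le' j1
    exact Set.mem_iUnion.mpr ⟨i, x1, j2⟩
  · rw [ENNReal.ofReal_tsum_of_nonneg (fun _ => by positivity) ((summable_nat_add_iff j0).mpr hs)]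
    refine ENNReal.tsum_le_tsum fun i => ?_
    simpa only [← Real.rpow_pow_comm zero_le_two] using h2 _ le_add_self

/-- diagonal Borel-Cantelli -/
lemma diag (n : ℕ → ℕ) (ε : ℝ) (hε : 0 < ε) : ∃ J : ℕ → ℕ, ∀ᵐ x : ℝ, ∀ᶠ k in atTop,
    ∀ j, J k ≤ j → ¬ Bad (n k) ε (2 ^ j) x := by
  choose J hJ using fun k : ℕ => badAll (n k) ε (k + 2) ((1 / 2) ^ k) hε (by simp) (by positivity)
  refine ⟨J, ?_⟩
  have := ae_eventually_notMem (μ := volume) (s := fun k : ℕ =>
    {x ∈ closedBall (0 : ℝ) (k + 2) | ∃ j, J k ≤ j ∧ Bad (n k) ε (2 ^ j) x})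
    (ne_top_of_le_ne_top (by
      rw [← ENNReal.ofReal_tsum_of_nonneg (fun _ => by positivity) summable_geometric_two]
      exact ENNReal.ofReal_ne_top) (ENNReal.tsum_le_tsum hJ))
  filter_upwards [this] with x hx
  filter_upwards [hx, tendsto_natCast_atTop_atTop.eventually_ge_atTop |x|] with k h1 h2 j h3 h4
  exact h1 ⟨by simpa using h2.trans (by linarith), j, h3, h4⟩

lemma lower {n J : ℕ} {ε x : ℝ} (hε : 0 < ε) (h : ∀ j, J ≤ j → ¬ Bad n ε (2 ^ j) x) {P : ℤ[X]}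
    (h0 : P ≠ 0) (h1 : P.natDegree ≤ n) {H : ℕ} (H1 : 1 ≤ H) (h2 : ∀ i, (P.coeff i).natAbs ≤ H) :
    Real.exp (-(n + ε) * (Real.log H + (J + 1) * Real.log 2)) < |aeval x P| := by
  have a1 : H ≤ 2 ^ (J + Nat.clog 2 H) :=
    (Nat.le_pow_clog one_lt_two H).trans (Nat.pow_le_pow_right two_pos (by omega))
  have a2 : 2 ^ Nat.clog 2 H ≤ 2 * H := by
    rcases H1.eq_or_lt with rfl | H2
    · simp
    have := Nat.pow_pred_clog_lt_self one_lt_two H2
    have h3 := Nat.clog_pos one_lt_two H2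
    obtain ⟨m, hm⟩ : ∃ m, Nat.clog 2 H = m + 1 := ⟨_, (Nat.succ_pred_eq_of_pos h3).symm⟩
    rw [hm] at this ⊢
    simp only [Nat.pred_succ] at this
    omega
  by_contra! h3
  refine h (J + Nat.clog 2 H) (by omega) ⟨P, h0, h1, fun i => ?_, h3.trans ?_⟩
  · rw [← Int.cast_abs, Int.abs_eq_natAbs]
    exact_mod_cast (h2 i).trans a1
  · rw [Real.rpow_def_of_pos (by positivity), Real.exp_le_exp, mul_comm (Real.log _)]
    refine mul_le_mul_of_nonpos_left ?_ (neg_nonpos.mpr (by positivity))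
    have H0 : (0 : ℝ) < H := by exact_mod_cast H1
    have a3 : ((2 : ℝ) ^ (J + Nat.clog 2 H)) ≤ H * 2 ^ (J + 1) := by
      have : ((2 : ℝ) ^ Nat.clog 2 H) ≤ 2 * H := by exact_mod_cast a2
      rw [pow_add, pow_succ]
      nlinarith [pow_pos (two_pos (α := ℝ)) J]
    refine (Real.log_le_log (by positivity) a3).trans_eq ?_
    rw [Real.log_mul H0.ne' (by positivity), Real.log_pow]
    push_cast; ring

end Pool.Agent.H52.Spr
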