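import Mathlib

set_option autoImplicit false

namespace Pool.Agent.H52.SymGen

open Equiv

/-- `K` contains every permutation supported in `X`. -/
def Full (K : Subgroup (Perm ℕ)) (X : Set ℕ) : Prop := ∀ σ : Perm ℕ, (∀ a, a ∉ X → σ a = a) → σ ∈ K

lemma equiv_inf {P Q : Set ℕ} (hP : P.Infinite) (hQ : Q.Infinite) : Nonempty (P ≃ Q) := by
  have := hP.to_subtype
  have := hQ.to_subtype
  exact nonempty_equiv_of_countable

lemma ext1 (X P : Set ℕ) (φ : ℕ → ℕ) (hPX : P ⊆ X) (hi : Set.InjOn φ P) (hm : φ '' P ⊆ X)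
    (h1 : (X \ P).Infinite) (h2 : (X \ φ '' P).Infinite) :
    ∃ σ : Perm ℕ, (∀ a, a ∉ X → σ a = a) ∧ ∀ a ∈ P, σ a = φ a := by
  classical
  obtain ⟨ψ⟩ := equiv_inf h1 h2
  let f : ℕ → ℕ := fun a => if a ∈ P then φ a else if h : a ∈ X \ P then (ψ ⟨a, h⟩ : ℕ) else a
  have fP : ∀ a ∈ P, f a = φ a := fun a ha => by simp only [f, ha, if_true]
  have fX : ∀ a (h : a ∈ X \ P), f a = ψ ⟨a, h⟩ := fun a h => by
    simp only [f, h.2, if_false, h, dif_pos]
  have fN : ∀ a, a ∉ X → f a = a := fun a h => by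
    have h3 : a ∉ P := fun e => h (hPX e)
    have h4 : a ∉ X \ P := fun e => h e.1
    simp only [f, h3, if_false, h4, dif_neg, not_false_iff]
  have tri : ∀ a, a ∈ P ∨ a ∈ X \ P ∨ a ∉ X := fun a => by
    by_cases h : a ∈ P
    · exact Or.inl h
    · by_cases h' : a ∈ X
      · exact Or.inr (Or.inl ⟨h', h⟩)
      · exact Or.inr (Or.inr h')
  have hinj : Function.Injective f := by
    intro a b e
    rcases tri a with ha | ha | ha <;> rcases tri b with hb | hb | hb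
    · rw [fP a ha, fP b hb] at e; exact hi ha hb e
    · rw [fP a ha, fX b hb] at e; exact absurd ⟨a, ha, e⟩ (ψ ⟨b, hb⟩).2.2
    · rw [fP a ha, fN b hb] at e; exact absurd (hm ⟨a, ha, e⟩) hb
    · rw [fX a ha, fP b hb] at e; exact absurd ⟨b, hb, e.symm⟩ (ψ ⟨a, ha⟩).2.2
    · rw [fX a ha, fX b hb] at e
      exact congrArg Subtype.val (ψ.injective (Subtype.ext e))
    · rw [fX a ha, fN b hb] at e; exact absurd (e ▸ (ψ ⟨a, ha⟩).2.1) hb
    · rw [fN a ha, fP b hb] at e; exact absurd (hm ⟨b, hb, e.symm⟩) ha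
    · rw [fN a ha, fX b hb] at e; exact absurd (e.symm ▸ (ψ ⟨b, hb⟩).2.1) ha
    · rwa [fN a ha, fN b hb] at e
  have hsurj : Function.Surjective f := by
    intro b
    by_cases h : b ∈ φ '' P
    · obtain ⟨a, ha, rfl⟩ := h
      exact ⟨a, fP a ha⟩
    · by_cases h' : b ∈ X
      · refine ⟨ψ.symm ⟨b, h', h⟩, ?_⟩
        rw [fX _ (ψ.symm ⟨b, h', h⟩).2]
        simp
      · exact ⟨b, fN b h'⟩
  exact ⟨Equiv.ofBijective f ⟨hinj, hsurj⟩, fN, fP⟩

lemma gen_two (K : Subgroup (Perm ℕ)) (M1 M2 : Set ℕ) (hu : ∀ a, a ∉ M1 → a ∈ M2)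
    (hC : (M1 ∩ M2).Infinite) (F1 : Full K M1) (F2 : Full K M2) : K = ⊤ := by
  let c : ℕ ↪ ↥(M1 ∩ M2) := hC.natEmbedding
  let φ : ℕ → ℕ := fun a => c (2 * a)
  have cinj : ∀ m n : ℕ, (c m : ℕ) = c n → m = n := fun m n e => c.injective (Subtype.ext e)
  have φinj : Function.Injective φ := fun a b e => by have := cinj _ _ e; omega
  have odd_inf : ∀ Y : Set ℕ, (∀ n, (c (2 * n + 1) : ℕ) ∈ Y) → Y.Infinite := fun Y hY =>
    Set.infinite_of_injective_forall_mem (f := fun n => (c (2 * n + 1) : ℕ))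
      (fun a b e => by have := cinj _ _ e; omega) hY
  have odd_ne : ∀ n a, (c (2 * n + 1) : ℕ) ≠ φ a := fun n a e => by have := cinj _ _ e; omega
  have claim1 : ∀ g : Perm ℕ, (M1 \ g '' M1ᶜ).Infinite → g ∈ K := by
    intro g hg
    obtain ⟨k1, a1, b1⟩ := ext1 M1 (g '' M1ᶜ ∩ M1) φ Set.inter_subset_right φinj.injOn
      (by rintro _ ⟨a, -, rfl⟩; exact (c _).2.1)
      (hg.mono (fun a ha => ⟨ha.1, fun e => ha.2 e.1⟩))
      (odd_inf _ (fun n => ⟨(c _).2.1, by rintro ⟨a, -, e⟩; exact odd_ne n a e.symm⟩))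
    have hk : ∀ b, b ∉ M1 → (k1 (g b) ∈ M2 ∧ ∀ n, k1 (g b) ≠ c (2 * n + 1)) := by
      intro b hb
      by_cases h : g b ∈ M1
      · rw [b1 _ ⟨⟨b, hb, rfl⟩, h⟩]
        exact ⟨(c _).2.2, fun n e => odd_ne n _ e.symm⟩
      · rw [a1 _ h]
        exact ⟨hu _ h, fun n e => h (e ▸ (c _).2.1)⟩
    obtain ⟨k2, a2, b2⟩ := ext1 M2 ((k1 * g) '' M1ᶜ) (k1 * g).symm
      (by rintro _ ⟨b, hb, rfl⟩; exact (hk b hb).1) (k1 * g).symm.injective.injOn
      (by rintro _ ⟨_, ⟨b, hb, rfl⟩, rfl⟩; rw [Equiv.symm_apply_apply]; exact hu b hb)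
      (odd_inf _ (fun n => ⟨(c _).2.2, by rintro ⟨b, hb, e⟩; exact (hk b hb).2 n e⟩))
      (hC.mono (fun a ha => ⟨ha.2, by
        rintro ⟨_, ⟨b, hb, rfl⟩, e⟩
        rw [Equiv.symm_apply_apply] at e
        exact hb (e ▸ ha.1)⟩))
    have h3 : k2 * (k1 * g) ∈ K := F1 _ (fun b hb => by
      rw [Perm.mul_apply, b2 _ ⟨b, hb, rfl⟩, Equiv.symm_apply_apply])
    have h4 := (K.mul_mem_cancel_left (F2 k2 a2)).1 h3
    exact (K.mul_mem_cancel_left (F1 k1 a1)).1 h4
  rw [eq_top_iff]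
  intro g _
  by_cases h : (M1 \ g '' M1ᶜ).Infinite
  · exact claim1 g h
  · have h5 : (M2 \ g '' M1ᶜ).Infinite := by
      intro hf
      have h6 : (g '' (M1 ∩ M2)).Infinite := hC.image g.injective.injOn
      refine h6 ((hf.union (Set.not_infinite.1 h)).subset ?_)
      rintro _ ⟨a, ha, rfl⟩
      have h7 : g a ∉ g '' M1ᶜ := by
        rintro ⟨b, hb, e⟩
        exact hb (g.injective e ▸ ha.1)
      by_cases h8 : g a ∈ M1
      · exact Or.inr ⟨h8, h7⟩
      · exact Or.inl ⟨hu _ h8, h7⟩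
    obtain ⟨k0, a0, b0⟩ := ext1 M2 (g '' M1ᶜ ∩ M2) φ Set.inter_subset_right φinj.injOn
      (by rintro _ ⟨a, -, rfl⟩; exact (c _).2.2)
      (h5.mono (fun a ha => ⟨ha.1, fun e => ha.2 e.1⟩))
      (odd_inf _ (fun n => ⟨(c _).2.2, by rintro ⟨a, -, e⟩; exact odd_ne n a e.symm⟩))
    have h9 : k0 * g ∈ K := claim1 _ (odd_inf _ (fun n => ⟨(c _).2.1, by
      rintro ⟨b, hb, e⟩
      rw [Perm.mul_apply] at e
      by_cases h : g b ∈ M2
      · rw [b0 _ ⟨⟨b, hb, rfl⟩, h⟩] at e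
        exact odd_ne n _ e.symm
      · rw [a0 _ h] at e
        exact h (e ▸ (c _).2.2)⟩))
    exact (K.mul_mem_cancel_left (F2 k0 a0)).1 h9

lemma moiety {P Q : Set ℕ} (h1 : P.Infinite) (h2 : Pᶜ.Infinite) (h3 : Q.Infinite)
    (h4 : Qᶜ.Infinite) : ∃ e : Perm ℕ, ∀ a, a ∉ P → e a ∉ Q := by
  classical
  obtain ⟨ψ⟩ := equiv_inf h1 h3
  obtain ⟨χ⟩ := equiv_inf h2 h4
  refine ⟨Equiv.subtypeCongr (p := fun a => a ∈ P) (q := fun a => a ∈ Q) ψ χ, fun a ha => ?_⟩
  have : Equiv.subtypeCongr (p := fun a => a ∈ P) (q := fun a => a ∈ Q) ψ χ a = χ ⟨a, ha⟩ := by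
    simp [Equiv.subtypeCongr, Equiv.sumCompl_symm_apply_of_neg (p := fun a => a ∈ P) ha]
  rw [this]
  exact (χ ⟨a, ha⟩).2

lemma Full.conj {K : Subgroup (Perm ℕ)} {P Q : Set ℕ} (h : Full K P) {e : Perm ℕ} (he : e ∈ K)
    (hPQ : ∀ a, a ∉ P → e a ∉ Q) : Full K Q := by
  intro σ hσ
  have : e⁻¹ * σ * e ∈ K := h _ (fun a ha => by
    rw [Perm.mul_apply, Perm.mul_apply, hσ _ (hPQ a ha)]; simp)
  have h2 := (K.mul_mem_cancel_right he).1 this
  exact (K.mul_mem_cancel_left (K.inv_mem he)).1 h2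

def b (r : ℕ → Bool) : ℕ → ℕ
  | 0 => 1
  | n + 1 => 2 * b r n + (if r n then 1 else 0)

lemma b_bd (r : ℕ → Bool) (n : ℕ) : 2 ^ n ≤ b r n ∧ b r n < 2 ^ (n + 1) := by
  induction n with
  | zero => simp [b]
  | succ n ih =>
    simp only [b, pow_succ] at *
    split_ifs <;> omega

lemma b_log (r : ℕ → Bool) (n : ℕ) : Nat.log 2 (b r n) = n :=
  Nat.log_eq_of_pow_le_of_lt_pow (b_bd r n).1 (b_bd r n).2

lemma b_eq {r r' : ℕ → Bool} (n : ℕ) (h : b r n = b r' n) : ∀ i < n, r i = r' i := by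
  induction n with
  | zero => intro i hi; omega
  | succ n ih =>
    simp only [b] at h
    have h1 : b r n = b r' n := by split_ifs at h <;> omega
    intro i hi
    rcases Nat.lt_succ_iff_lt_or_eq.1 hi with h2 | rfl
    · exact ih h1 i h2
    · rw [h1] at h
      cases e1 : r i <;> cases e2 : r' i <;> simp_all

lemma ad {r r' : ℕ → Bool} (h : r ≠ r') : (Set.range (b r) ∩ Set.range (b r')).Finite := by
  obtain ⟨m, hm⟩ := Function.ne_iff.1 h
  refine (Set.finite_lt_nat (2 ^ (m + 1))).subset ?_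
  rintro _ ⟨⟨n, rfl⟩, n', e⟩
  have h1 : n' = n := by rw [← b_log r' n', e, b_log]
  subst h1
  have h2 : n' ≤ m := by
    by_contra hc
    exact hm (b_eq n' e.symm m (by omega))
  exact (b_bd r n').2.trans_le (Nat.pow_le_pow_right (by norm_num) (by omega))

def yf (r : ℕ → Bool) (a : ℕ) : ℕ := Equiv.swap (2 ^ Nat.log 2 a) (b r (Nat.log 2 a)) a

lemma yf_cases (r : ℕ → Bool) (a : ℕ) :
    yf r a = a ∨ (a ≠ 0 ∧ (yf r a = 2 ^ Nat.log 2 a ∨ yf r a = b r (Nat.log 2 a))) := by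
  unfold yf
  rw [Equiv.swap_apply_def]
  have := (b_bd r (Nat.log 2 a)).1
  have h2 : 0 < 2 ^ Nat.log 2 a := by positivity
  split_ifs with h1 h3
  · exact Or.inr ⟨by omega, Or.inr rfl⟩
  · exact Or.inr ⟨by omega, Or.inl rfl⟩
  · exact Or.inl rfl

lemma yf_log (r : ℕ → Bool) (a : ℕ) : Nat.log 2 (yf r a) = Nat.log 2 a := by
  rcases yf_cases r a with h | ⟨-, h | h⟩ <;> rw [h]
  · exact Nat.log_pow (by norm_num) _
  · exact b_log _ _

lemma yf_inv (r : ℕ → Bool) : Function.Involutive (yf r) := by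
  intro a
  have := yf_log r a
  unfold yf at *
  rw [this, Equiv.swap_apply_self]

def y (r : ℕ → Bool) : Perm ℕ := Function.Involutive.toPerm (yf r) (yf_inv r)

lemma y_pow (r : ℕ → Bool) (n : ℕ) : y r (2 ^ n) = b r n := by
  show yf r (2 ^ n) = b r n
  unfold yf
  rw [Nat.log_pow (by norm_num), Equiv.swap_apply_left]

lemma y_le (r : ℕ → Bool) (a : ℕ) : y r a ≤ 2 * a := by
  show yf r a ≤ 2 * a
  rcases yf_cases r a with h | ⟨h0, h | h⟩ <;> rw [h]
  · omega
  · have := Nat.pow_log_le_self 2 h0; omega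
  · have := Nat.pow_log_le_self 2 h0
    have := (b_bd r (Nat.log 2 a)).2
    rw [pow_succ] at this; omega

lemma y_inv (r : ℕ → Bool) : (y r)⁻¹ = y r := rfl

/-- permutations of slow growth together with a finite set never generate everything. -/
lemma slow (T : Set (Perm ℕ)) (hT : ∀ s ∈ T, (∀ a, s a ≤ 2 * a) ∧ ∀ a, s⁻¹ a ≤ 2 * a)
    (U : Finset (Perm ℕ)) : Subgroup.closure (T ∪ (U : Set (Perm ℕ))) ≠ ⊤ := by
  intro htop
  let ψ : ℕ → ℕ := fun a => 2 * a + ∑ x ∈ Finset.range (a + 1), ∑ s ∈ U, (s x + s⁻¹ x)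
  have ψmono : Monotone ψ := fun a a' h => by
    have : ∑ x ∈ Finset.range (a + 1), ∑ s ∈ U, (s x + s⁻¹ x) ≤
        ∑ x ∈ Finset.range (a' + 1), ∑ s ∈ U, (s x + s⁻¹ x) :=
      Finset.sum_le_sum_of_subset (Finset.range_subset_range.2 (by omega))
    simp only [ψ]; omega
  have hs : ∀ s ∈ T ∪ (U : Set (Perm ℕ)), ∀ a, s a ≤ ψ a ∧ s⁻¹ a ≤ ψ a := by
    rintro s (h | h) a
    · have := (hT s h).1 a
      have := (hT s h).2 a
      simp only [ψ]; omega
    · have h1 : s a + s⁻¹ a ≤ ∑ s ∈ U, (s a + s⁻¹ a) :=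
        Finset.single_le_sum (f := fun s : Perm ℕ => s a + s⁻¹ a) (fun _ _ => Nat.zero_le _) h
      have h2 : ∑ s ∈ U, (s a + s⁻¹ a) ≤ ∑ x ∈ Finset.range (a + 1), ∑ s ∈ U, (s x + s⁻¹ x) :=
        Finset.single_le_sum (f := fun x => ∑ s ∈ U, (s x + s⁻¹ x)) (fun _ _ => Nat.zero_le _)
          (Finset.self_mem_range_succ a)
      simp only [ψ]; omega
  have key : ∀ g ∈ Subgroup.closure (T ∪ (U : Set (Perm ℕ))), ∃ k, ∀ a, g a ≤ ψ^[k] a := by
    intro g hg
    induction hg using Subgroup.closure_induction_left with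
    | one => exact ⟨0, fun a => le_rfl⟩
    | mul_left s h g _ ih =>
      obtain ⟨k, hk⟩ := ih
      refine ⟨k + 1, fun a => ?_⟩
      rw [Function.iterate_succ_apply']
      exact (hs s h _).1.trans (ψmono (hk a))
    | inv_mul_cancel s h g _ ih =>
      obtain ⟨k, hk⟩ := ih
      refine ⟨k + 1, fun a => ?_⟩
      rw [Function.iterate_succ_apply']
      exact (hs s h _).2.trans (ψmono (hk a))
  let l : ℕ → ℕ := fun n => Nat.rec 0 (fun n x => ψ^[n / 2] x + x + 1) n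
  have hl : ∀ n, l (n + 1) = ψ^[n / 2] (l n) + l n + 1 := fun _ => rfl
  have lmono : StrictMono l := strictMono_nat_of_lt_succ (fun n => by rw [hl]; omega)
  let τf : ℕ → ℕ := fun n => if n % 2 = 0 then n + 1 else n - 1
  have τinv : Function.Involutive τf := fun n => by simp only [τf]; split_ifs <;> omega
  obtain ⟨k, hk⟩ := key (Perm.viaEmbedding (Function.Involutive.toPerm τf τinv) ⟨l, lmono.injective⟩) (htop ▸ trivial)
  have h1 := hk (l (2 * k))
  have h2 := Perm.viaEmbedding_apply (Function.Involutive.toPerm τf τinv) ⟨l, lmono.injective⟩ (2 * k)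
  have h3 : (Function.Involutive.toPerm τf τinv) (2 * k) = 2 * k + 1 := by
    show τf (2 * k) = _
    simp [τf]
  rw [h3] at h2
  have h4 : (Perm.viaEmbedding (Function.Involutive.toPerm τf τinv) ⟨l, lmono.injective⟩) (l (2 * k)) = l (2 * k + 1) := h2
  rw [h4, hl, show 2 * k / 2 = k by omega] at h1
  omega

def NP (V : Ultrafilter ℕ) : Prop := ∀ s : Set ℕ, s.Finite → s ∉ V

lemma NP.map {V : Ultrafilter ℕ} (h : NP V) {f : ℕ → ℕ} (hf : Function.Injective f) :
    NP (V.map f) := fun s hs hm =>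
  h _ (hs.preimage hf.injOn) (Ultrafilter.mem_map.1 hm)

lemma map_fix {V : Ultrafilter ℕ} {A : Set ℕ} (hA : A ∉ V) {f : ℕ → ℕ}
    (hf : ∀ a, a ∉ A → f a = a) : V.map f = V := by
  have h1 : Aᶜ ∈ V := Ultrafilter.compl_mem_iff_notMem.2 hA
  apply Ultrafilter.coe_injective
  rw [Ultrafilter.coe_map]
  have : f =ᶠ[(V : Filter ℕ)] id := Filter.mem_of_superset h1 (fun a ha => hf a ha)
  rw [Filter.map_congr this, Filter.map_id]

/-- permutations with almost disjoint branch supports together with a countable set never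
generate everything. -/
lemma thin {ι : Type} (x : ι → Perm ℕ) (r : ι → ℕ → Bool) (hr : Function.Injective r)
    (hx : ∀ i a, a ∉ Set.range (b (r i)) → x i a = a) (E : Set (Perm ℕ)) (hE : E.Countable) :
    Subgroup.closure (Set.range x ∪ E) ≠ ⊤ := by
  intro htop
  let N : Ultrafilter ℕ → Set (Ultrafilter ℕ) := fun V =>
    {W | ∃ s ∈ Set.range x ∪ E, W = V.map s ∨ W = V.map (s⁻¹ : Perm ℕ)}
  have hN : ∀ V, NP V → (N V).Countable := by
    intro V hV
    have h1 : {i | Set.range (b (r i)) ∈ V}.Subsingleton := by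
      intro i hi j hj
      by_contra hne
      exact hV _ (ad (fun e => hne (hr e))) (Filter.inter_mem hi hj)
    have h2 : (x '' {i | Set.range (b (r i)) ∈ V} ∪ E).Countable :=
      (h1.finite.countable.image x).union hE
    refine (((h2.image (fun s : Perm ℕ => V.map s)).union
      (h2.image (fun s : Perm ℕ => V.map (s⁻¹ : Perm ℕ)))).insert V).mono ?_
    rintro W ⟨s, hs, hW⟩
    by_cases h3 : s ∈ x '' {i | Set.range (b (r i)) ∈ V} ∪ E
    · rcases hW with rfl | rfl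
      · exact Or.inr (Or.inl ⟨s, h3, rfl⟩)
      · exact Or.inr (Or.inr ⟨s, h3, rfl⟩)
    · rcases hs with ⟨i, rfl⟩ | hs
      · have h4 : Set.range (b (r i)) ∉ V := fun e => h3 (Or.inl ⟨i, e, rfl⟩)
        left
        rcases hW with rfl | rfl
        · exact map_fix h4 (hx i)
        · exact map_fix h4 (fun a ha => by rw [Perm.inv_eq_iff_eq, hx i a ha])
      · exact absurd (Or.inr hs) h3
  let U0 : Ultrafilter ℕ := (Filter.hyperfilter ℕ).map (fun n => 2 ^ n)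
  have hU0 : NP U0 := NP.map (fun s hs => hs.notMem_hyperfilter)
    (Nat.pow_right_injective (le_refl 2))
  let T : ℕ → Set (Ultrafilter ℕ) := fun n => Nat.rec {U0} (fun _ S => ⋃ V ∈ S, N V) n
  have hT : ∀ n, T (n + 1) = ⋃ V ∈ T n, N V := fun _ => rfl
  have hTc : ∀ n, (T n).Countable ∧ ∀ V ∈ T n, NP V := by
    intro n
    induction n with
    | zero => exact ⟨Set.countable_singleton _, fun V hV => by rw [hV]; exact hU0⟩
    | succ n ih =>
      rw [hT]
      refine ⟨ih.1.biUnion (fun V hV => hN V (ih.2 V hV)), fun W hW => ?_⟩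
      simp only [Set.mem_iUnion] at hW
      obtain ⟨V, hV, s, -, rfl | rfl⟩ := hW
      · exact (ih.2 V hV).map s.injective
      · exact (ih.2 V hV).map (s⁻¹).injective
  have key : ∀ g ∈ Subgroup.closure (Set.range x ∪ E), ∃ n, U0.map g ∈ T n := by
    intro g hg
    induction hg using Subgroup.closure_induction_left with
    | one => exact ⟨0, rfl⟩
    | mul_left s h g _ ih =>
      obtain ⟨n, hn⟩ := ih
      refine ⟨n + 1, ?_⟩
      rw [hT]
      exact Set.mem_biUnion hn ⟨s, h, Or.inl rfl⟩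
    | inv_mul_cancel s h g _ ih =>
      obtain ⟨n, hn⟩ := ih
      refine ⟨n + 1, ?_⟩
      rw [hT]
      exact Set.mem_biUnion hn ⟨s, h, Or.inr rfl⟩
  have hmem : ∀ q, Set.range (b q) ∈ U0.map (y q) := fun q => by
    rw [Ultrafilter.mem_map, Ultrafilter.mem_map]
    exact Filter.univ_mem' (fun n => ⟨n, (y_pow q n).symm⟩)
  have hinj : Function.Injective (fun q : ℕ → Bool => U0.map (y q)) := by
    intro q q' e
    by_contra hne
    have h5 := hmem q'
    simp only at e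
    rw [← e] at h5
    exact hU0.map (y q).injective _ (ad hne) (Filter.inter_mem (hmem q) h5)
  have hc : (Set.univ : Set (ℕ → Bool)).Countable := by
    refine ((Set.countable_iUnion (fun n => (hTc n).1)).preimage_of_injOn hinj.injOn).mono ?_
    intro q _
    obtain ⟨n, hn⟩ := key (y q) (htop ▸ trivial)
    exact Set.mem_iUnion.2 ⟨n, hn⟩
  have : Countable (ℕ → Bool) := Set.countable_univ_iff.1 hc
  obtain ⟨F, hF⟩ := exists_surjective_nat (ℕ → Bool)
  obtain ⟨n, hn⟩ := hF (fun n => !(F n n))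
  have := congrFun hn n
  simp at this

end Pool.Agent.H52.SymGen
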