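import Mathlib

set_option autoImplicit false

namespace Pool.Agent.H52.TBG

/-- The triangular lattice spanned by (1, 0) and (1/2, sqrt 3 / 2); the plane is modelled by the
complex numbers with their Euclidean norm. -/
def Lam : Set ℂ := {z | ∃ a b : ℤ, z = a + b * (⟨1 / 2, Real.sqrt 3 / 2⟩ : ℂ)}

/-- The union of the k lattices obtained by rotating by the angle θ i and translating by x i. -/
def TBG {k : ℕ} (x : Fin k → ℂ) (θ : Fin k → ℝ) : Set ℂ :=
  {p | ∃ i : Fin k, ∃ l ∈ Lam, p = Complex.exp (θ i * Complex.I) * l + x i}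

/-- Every segment of length V(ε) comes within distance less than ε of a point of D. -/
def DenseForest (D : Set ℂ) : Prop :=
  ∀ ε : ℝ, 0 < ε → ∃ V : ℝ, 0 < V ∧ ∀ a b : ℂ, dist a b = V →
    ∃ y ∈ segment ℝ a b, ∃ p ∈ D, dist y p < ε

/-- Distinct points of D are at distance at least some fixed r > 0. -/
def UnifDiscrete (D : Set ℂ) : Prop :=
  ∃ r : ℝ, 0 < r ∧ ∀ p ∈ D, ∀ q ∈ D, p ≠ q → r ≤ dist p q

end Pool.Agent.H52.TBG
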