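import Mathlib
import Pool.Agent.H52.TBGDefs

set_option autoImplicit false
open Complex

namespace Pool.Agent.H52.TBG

noncomputable def om : ℂ := ⟨1 / 2, Real.sqrt 3 / 2⟩

lemma om_sq : om * om = om - 1 := by
  have h : Real.sqrt 3 * Real.sqrt 3 = 3 := Real.mul_self_sqrt (by norm_num)
  apply Complex.ext <;> simp [om]
  · nlinarith
  · ring

lemma mem_Lam {z : ℂ} : z ∈ Lam ↔ ∃ a b : ℤ, z = a + b * om := Iff.rfl

lemma Lam_add {z w : ℂ} (hz : z ∈ Lam) (hw : w ∈ Lam) : z + w ∈ Lam := by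
  obtain ⟨a, b, rfl⟩ := mem_Lam.1 hz
  obtain ⟨c, d, rfl⟩ := mem_Lam.1 hw
  exact mem_Lam.2 ⟨a + c, b + d, by push_cast; ring⟩

lemma Lam_mul {z w : ℂ} (hz : z ∈ Lam) (hw : w ∈ Lam) : z * w ∈ Lam := by
  obtain ⟨a, b, rfl⟩ := mem_Lam.1 hz
  obtain ⟨c, d, rfl⟩ := mem_Lam.1 hw
  exact mem_Lam.2 ⟨a * c - b * d, a * d + b * c + b * d, by
    push_cast; linear_combination (b * d : ℂ) * om_sq⟩

lemma Lam_int (n : ℤ) : (n : ℂ) ∈ Lam := mem_Lam.2 ⟨n, 0, by simp⟩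

lemma Lam_neg {z : ℂ} (hz : z ∈ Lam) : -z ∈ Lam := by
  have := Lam_mul (Lam_int (-1)) hz
  simpa using this

lemma Lam_sub {z w : ℂ} (hz : z ∈ Lam) (hw : w ∈ Lam) : z - w ∈ Lam := by
  rw [sub_eq_add_neg]; exact Lam_add hz (Lam_neg hw)

lemma s3pos : 0 < Real.sqrt 3 := Real.sqrt_pos.2 (by norm_num)

lemma norm_om : ‖om‖ ≤ 1 := by
  have h : Real.sqrt 3 * Real.sqrt 3 = 3 := Real.mul_self_sqrt (by norm_num)
  rw [← sq_le_one_iff₀ (norm_nonneg _), Complex.sq_norm, Complex.normSq_apply]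
  simp [om]
  nlinarith

lemma reduce (z : ℂ) : ∃ l ∈ Lam, ‖z - l‖ ≤ 2 := by
  set t : ℝ := z.im * 2 / Real.sqrt 3 with ht
  set s : ℝ := z.re - t / 2 with hs
  have hz : z = s + t * om := by
    have := s3pos
    apply Complex.ext <;> simp [om, hs]
    · ring
    · rw [ht]; field_simp
  refine ⟨(⌊s⌋ : ℂ) + (⌊t⌋ : ℂ) * om, mem_Lam.2 ⟨_, _, rfl⟩, ?_⟩
  have : z - ((⌊s⌋ : ℂ) + (⌊t⌋ : ℂ) * om) = (Int.fract s : ℝ) + (Int.fract t : ℝ) * om := by
    rw [Int.fract, Int.fract]; push_cast; linear_combination hz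
  rw [this]
  have h1 : ‖((Int.fract s : ℝ) : ℂ)‖ ≤ 1 := by
    rw [Complex.norm_real, Real.norm_eq_abs, abs_of_nonneg (Int.fract_nonneg _)]
    exact (Int.fract_lt_one _).le
  have h2 : ‖((Int.fract t : ℝ) : ℂ)‖ ≤ 1 := by
    rw [Complex.norm_real, Real.norm_eq_abs, abs_of_nonneg (Int.fract_nonneg _)]
    exact (Int.fract_lt_one _).le
  calc _ ≤ ‖((Int.fract s : ℝ) : ℂ)‖ + ‖((Int.fract t : ℝ) : ℂ) * om‖ := norm_add_le _ _
    _ ≤ 1 + 1 * 1 := by
      rw [norm_mul]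
      gcongr
      exact norm_om
    _ = 2 := by norm_num

/-- v is a rational direction. -/
def Rat (v : ℂ) : Prop := ∃ l ∈ Lam, l ≠ 0 ∧ ∃ t : ℝ, l = t * v

lemma decomp (v w : ℂ) (hv : ‖v‖ = 1) :
    ‖w - ((w * starRingEnd ℂ v).re : ℝ) * v‖ = |(w * starRingEnd ℂ v).im| := by
  have h1 : v * starRingEnd ℂ v = 1 := by
    rw [Complex.mul_conj, Complex.normSq_eq_norm_sq, hv]; simp
  have h2 : w - ((w * starRingEnd ℂ v).re : ℝ) * v
      = (((w * starRingEnd ℂ v).im : ℝ) * I) * v := by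
    have := Complex.re_add_im (w * starRingEnd ℂ v)
    linear_combination (-v) * this - w * h1
  rw [h2, norm_mul, norm_mul, hv, Complex.norm_I, Complex.norm_real, Real.norm_eq_abs]
  ring

lemma dense_line (v : ℂ) (hv : ‖v‖ = 1) (hr : ¬ Rat v) (z : ℂ) (ε : ℝ) (hε : 0 < ε) :
    ∃ t : ℝ, ∃ l ∈ Lam, ‖z + t * v - l‖ < ε := by
  let S : AddSubgroup ℝ :=
    { carrier := {y | ∃ l ∈ Lam, y = (l * starRingEnd ℂ v).im}
      zero_mem' := ⟨0, by simpa using Lam_int 0, by simp⟩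
      add_mem' := by
        rintro _ _ ⟨l1, h1, rfl⟩ ⟨l2, h2, rfl⟩
        exact ⟨l1 + l2, Lam_add h1 h2, by rw [add_mul, Complex.add_im]⟩
      neg_mem' := by
        rintro _ ⟨l1, h1, rfl⟩
        exact ⟨-l1, Lam_neg h1, by rw [neg_mul, Complex.neg_im]⟩ }
  have key : ∀ l ∈ Lam, l ≠ 0 → (l * starRingEnd ℂ v).im ≠ 0 := by
    intro l hl h0 h
    have := decomp v l hv
    rw [h, abs_zero, norm_eq_zero, sub_eq_zero] at this
    exact hr ⟨l, hl, h0, _, this⟩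
  rcases AddSubgroup.dense_or_cyclic S with hd | ⟨a, ha⟩
  · obtain ⟨y, ⟨l, hl, rfl⟩, hy⟩ := hd.exists_dist_lt ((z * starRingEnd ℂ v).im) hε
    refine ⟨-((z - l) * starRingEnd ℂ v).re, l, hl, ?_⟩
    have := decomp v (z - l) hv
    rw [Real.dist_eq, ← Complex.sub_im, ← sub_mul, ← this] at hy
    convert hy using 2
    push_cast; ring
  · exfalso
    have h1 : ((1 : ℂ) * starRingEnd ℂ v).im ∈ S := ⟨1, by simpa using Lam_int 1, rfl⟩
    have h2 : (om * starRingEnd ℂ v).im ∈ S := ⟨om, mem_Lam.2 ⟨0, 1, by simp⟩, rfl⟩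
    rw [ha, AddSubgroup.mem_closure_singleton] at h1 h2
    obtain ⟨m, hm⟩ := h1
    obtain ⟨n, hn⟩ := h2
    by_cases hm0 : m = 0
    · apply key 1 (by simpa using Lam_int 1) one_ne_zero
      rw [← hm, hm0]; simp
    · apply key ((n : ℂ) + ((-m : ℤ) : ℂ) * om) (mem_Lam.2 ⟨_, _, rfl⟩)
      · intro h0
        have := congrArg Complex.im h0
        simp [om] at this
        exact hm0 this
      · have : ((n : ℂ) + ((-m : ℤ) : ℂ) * om) * starRingEnd ℂ v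
            = ((n : ℝ) : ℂ) * (1 * starRingEnd ℂ v) - ((m : ℝ) : ℂ) * (om * starRingEnd ℂ v) := by
          push_cast; ring
        rw [this, Complex.sub_im, Complex.im_ofReal_mul, Complex.im_ofReal_mul, ← hm, ← hn]
        simp only [zsmul_eq_mul]
        ring

lemma norm_e (θ : ℝ) : ‖exp (θ * I)‖ = 1 := Complex.norm_exp_ofReal_mul_I θ

lemma forest_two (x : Fin 2 → ℂ) (θ : Fin 2 → ℝ)
    (h : ∀ v : ℂ, ‖v‖ = 1 → ∃ i : Fin 2, ¬ Rat ((exp (θ i * I))⁻¹ * v)) :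
    DenseForest (TBG x θ) := by
  intro ε hε
  set K : Set (ℂ × (Fin 2 → ℂ)) := Metric.sphere 0 1 ×ˢ Metric.closedBall 0 2 with hK
  have hKc : IsCompact K := (isCompact_sphere _ _).prod (isCompact_closedBall _ _)
  let U : ℕ → Set (ℂ × (Fin 2 → ℂ)) := fun T =>
    ⋃ i : Fin 2, ⋃ t ∈ Set.Icc (-(T : ℝ)) T, ⋃ l ∈ Lam,
      {p | ‖p.2 i + (t : ℂ) * ((exp (θ i * I))⁻¹ * p.1) - l‖ < ε}
  have hUo : ∀ T, IsOpen (U T) := by
    intro T
    refine isOpen_iUnion fun i => isOpen_biUnion fun t _ => isOpen_biUnion fun l _ => ?_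
    exact isOpen_lt (by fun_prop) continuous_const
  have hUm : Monotone U := by
    intro S T hST p hp
    simp only [U, Set.mem_iUnion] at hp ⊢
    obtain ⟨i, t, ht, l, hl, hp⟩ := hp
    have : (S : ℝ) ≤ T := by exact_mod_cast hST
    exact ⟨i, t, ⟨by linarith [ht.1], by linarith [ht.2]⟩, l, hl, hp⟩
  have hcov : K ⊆ ⋃ T, U T := by
    rintro ⟨v, r⟩ ⟨hv, _⟩
    have hv1 : ‖v‖ = 1 := by simpa using hv
    obtain ⟨i, hi⟩ := h v hv1
    obtain ⟨t, l, hl, ht⟩ := dense_line _ (by rw [norm_mul, norm_inv, norm_e, hv1]; simp) hi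
      (r i) ε hε
    obtain ⟨T, hT⟩ := exists_nat_ge |t|
    simp only [U, Set.mem_iUnion]
    exact ⟨T, i, t, abs_le.1 hT, l, hl, ht⟩
  obtain ⟨T, hT⟩ := hKc.elim_directed_cover U hUo hcov hUm.directed_le
  refine ⟨2 * (T + 1), by positivity, fun a b hab => ?_⟩
  set V : ℝ := 2 * (T + 1) with hV
  have hVpos : 0 < V := by positivity
  have hVC : (V : ℂ) ≠ 0 := by exact_mod_cast hVpos.ne'
  set c : ℂ := (a + b) / 2 with hc
  set v : ℂ := (b - a) / V with hv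
  have hv1 : ‖v‖ = 1 := by
    rw [hv, norm_div, Complex.norm_real, Real.norm_eq_abs, abs_of_pos hVpos, ← dist_eq_norm,
      dist_comm, hab, div_self hVpos.ne']
  choose l0 hl0 hr0 using fun i : Fin 2 => reduce ((exp (θ i * I))⁻¹ * (c - x i))
  have hmem : (v, fun i => (exp (θ i * I))⁻¹ * (c - x i) - l0 i) ∈ K := by
    refine ⟨by simpa using hv1, ?_⟩
    rw [mem_closedBall_zero_iff, pi_norm_le_iff_of_nonneg (by norm_num)]
    exact hr0
  have := hT hmem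
  simp only [U, Set.mem_iUnion] at this
  obtain ⟨i, t, ht, l, hl, hp⟩ := this
  refine ⟨c + t * v, ?_, exp (θ i * I) * (l0 i + l) + x i, ⟨i, _, Lam_add (hl0 i) hl, rfl⟩, ?_⟩
  · refine ⟨1 / 2 - t / V, 1 / 2 + t / V, ?_, ?_, by ring, ?_⟩
    · rw [sub_nonneg, div_le_iff₀ hVpos]; linarith [ht.2]
    · have : -(1 / 2) ≤ t / V := by rw [le_div_iff₀ hVpos]; linarith [ht.1]
      linarith
    · simp only [Complex.real_smul, hc, hv]
      push_cast
      field_simp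
      ring
  · simp only [Set.mem_ofPred_eq] at hp
    have he : exp (θ i * I) ≠ 0 := Complex.exp_ne_zero _
    rw [dist_eq_norm]
    have : c + t * v - (exp (θ i * I) * (l0 i + l) + x i) = exp (θ i * I) *
        ((exp (θ i * I))⁻¹ * (c - x i) - l0 i + (t : ℂ) * ((exp (θ i * I))⁻¹ * v) - l) := by
      field_simp
      ring
    rw [this, norm_mul, norm_e, one_mul]
    exact hp

/-- The countable set of bad angle differences. -/
def Bad : Set ℝ := {c | ∃ l1 ∈ Lam, ∃ l2 ∈ Lam, l1 ≠ 0 ∧ l2 ≠ 0 ∧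
  ∃ t : ℝ, exp (c * I) * l1 = t * l2}

lemma Lam_countable : Lam.Countable := by
  have : Lam = Set.range (fun p : ℤ × ℤ => (p.1 : ℂ) + p.2 * om) := by
    ext z
    simp only [mem_Lam, Set.mem_range, Prod.exists]
    constructor <;> rintro ⟨a, b, h⟩ <;> exact ⟨a, b, h.symm⟩
  rw [this]; exact Set.countable_range _

lemma Bad_countable : Bad.Countable := by
  let S : Set ℂ := (fun p : ℤ × ℂ × ℂ => (p.1 : ℂ) * ((‖p.2.1‖ / ‖p.2.2‖ : ℝ) : ℂ) * p.2.2 / p.2.1) ''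
    (Set.univ ×ˢ (Lam ×ˢ Lam))
  have hS : S.Countable := (Set.countable_univ.prod (Lam_countable.prod Lam_countable)).image _
  have h1 : (Complex.exp ⁻¹' S).Countable := Complex.countable_preimage_exp.2 hS
  have hinj : Function.Injective (fun c : ℝ => (c : ℂ) * I) := by
    intro a b hab
    have := mul_right_cancel₀ Complex.I_ne_zero hab
    exact_mod_cast this
  refine (h1.preimage hinj).mono ?_
  rintro c ⟨l1, h1, l2, h2, n1, n2, t, ht⟩
  have hn := congrArg norm ht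
  rw [norm_mul, norm_mul, norm_e, one_mul, Complex.norm_real, Real.norm_eq_abs] at hn
  have hl2 : ‖l2‖ ≠ 0 := norm_ne_zero_iff.2 n2
  have hab : ‖l1‖ / ‖l2‖ = |t| := by rw [hn]; field_simp
  rcases abs_cases t with ⟨h3, _⟩ | ⟨h3, _⟩
  · refine ⟨(1, l1, l2), ⟨trivial, h1, h2⟩, ?_⟩
    simp only [hab, h3]
    field_simp
    push_cast
    linear_combination -ht
  · refine ⟨(-1, l1, l2), ⟨trivial, h1, h2⟩, ?_⟩
    simp only [hab, h3]
    field_simp
    push_cast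
    linear_combination -ht

lemma forest_of_not_bad (x : Fin 2 → ℂ) (θ : Fin 2 → ℝ) (h : θ 0 - θ 1 ∉ Bad) :
    DenseForest (TBG x θ) := by
  apply forest_two
  intro v hv
  by_contra hc
  push Not at hc
  obtain ⟨l1, h1, n1, t1, e1⟩ := hc 0
  obtain ⟨l2, h2, n2, t2, e2⟩ := hc 1
  have ht2 : (t2 : ℂ) ≠ 0 := by
    intro h0; rw [h0, zero_mul] at e2; exact n2 e2
  apply h
  refine ⟨l1, h1, l2, h2, n1, n2, t1 / t2, ?_⟩
  have he0 : exp (θ 0 * I) ≠ 0 := Complex.exp_ne_zero _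
  have he1 : exp (θ 1 * I) ≠ 0 := Complex.exp_ne_zero _
  rw [e1, e2]
  push_cast
  rw [sub_mul, Complex.exp_sub]
  field_simp

lemma avoid {k : ℕ} (y : Fin k → ℝ) (h : ℝ) (hh : 0 < h) :
    ∃ s : ℝ, ∀ i, ∀ n : ℤ, h / (2 * (k + 1)) ≤ |s - (y i + n * h)| := by
  by_contra hc
  push Not at hc
  choose f n hf using fun j : Fin (k + 1) => hc (j * (h / (k + 1)))
  obtain ⟨j1, j2, hne, he⟩ := Fintype.exists_ne_map_eq_of_card_lt f (by simp)
  have a1 := hf j1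
  have a2 := hf j2
  rw [he] at a1
  set d : ℝ := h / (k + 1) with hd
  have hk : (0 : ℝ) < k + 1 := by positivity
  have hdpos : 0 < d := by positivity
  have hhd : h = (k + 1) * d := by rw [hd]; field_simp
  have h2 : h / (2 * (k + 1)) = d / 2 := by rw [hd]; field_simp
  rw [h2, abs_lt] at a1 a2
  set m : ℤ := (j1 : ℕ) - (j2 : ℕ) - (n j1 - n j2) * (k + 1) with hm
  have hm1 : |(m : ℝ)| < 1 := by
    have e : (m : ℝ) * d = (j1 : ℕ) * d - (y (f j2) + n j1 * h) - ((j2 : ℕ) * d - (y (f j2) + n j2 * h)) := by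
      rw [hm, hhd]; push_cast; ring
    rw [abs_lt]
    constructor <;> nlinarith [a1.1, a1.2, a2.1, a2.2]
  have hm0 : m = 0 := by
    have : |m| < 1 := by exact_mod_cast hm1
    exact Int.abs_lt_one_iff.1 this
  have b1 := j1.2
  have b2 := j2.2
  have hj : (j1 : ℕ) ≠ j2 := fun e => hne (Fin.ext e)
  have hm2 : ((j1 : ℕ) : ℤ) - (j2 : ℕ) = (n j1 - n j2) * (k + 1) := by omega
  rcases lt_trichotomy (n j1 - n j2) 0 with h3 | h3 | h3
  · have : (n j1 - n j2) * (k + 1) ≤ -1 * (k + 1) := by gcongr; omega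
    omega
  · rw [h3] at hm2; omega
  · have : 1 * ((k : ℤ) + 1) ≤ (n j1 - n j2) * (k + 1) := by gcongr; omega
    omega

lemma not_forest {k : ℕ} (x : Fin k → ℂ) (θ : Fin k → ℝ) (θ0 : ℝ) (N : ℤ) (hN : 0 < N)
    (h : ∀ i, (N : ℂ) * ((exp (θ0 * I))⁻¹ * exp (θ i * I)) ∈ Lam) :
    ¬ DenseForest (TBG x θ) := by
  intro hD
  set u := exp (θ0 * I) with hu
  have hu0 : u ≠ 0 := Complex.exp_ne_zero _
  have hu1 : ‖u‖ = 1 := norm_e _
  have hNr : (0 : ℝ) < N := by exact_mod_cast hN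
  have h3 := s3pos
  obtain ⟨s, hs⟩ := avoid (fun i => (u⁻¹ * x i).im) (Real.sqrt 3 / 2 / N) (by positivity)
  obtain ⟨V, hV, hD⟩ := hD (Real.sqrt 3 / 2 / N / (2 * (k + 1))) (by positivity)
  obtain ⟨y, ⟨α, β, _, _, hab, rfl⟩, p, ⟨i, l, hl, rfl⟩, hd⟩ := hD (u * (s * I)) (u * (V + s * I)) (by
    rw [dist_eq_norm, ← mul_sub, norm_mul, hu1]
    simp [abs_of_pos hV])
  obtain ⟨a, b, hab'⟩ := mem_Lam.1 (Lam_mul (h i) hl)
  have hNC : (N : ℂ) ≠ 0 := by exact_mod_cast hN.ne'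
  have habC : (α : ℂ) + β = 1 := by exact_mod_cast hab
  have e : α • (u * (s * I)) + β • (u * (V + s * I)) - (exp (θ i * I) * l + x i)
      = u * (((β * V : ℝ) : ℂ) + s * I - (((1 / N : ℝ) : ℂ) * (a + b * om) + u⁻¹ * x i)) := by
    rw [← hab']
    simp only [Complex.real_smul]
    push_cast
    field_simp
    linear_combination (u * s * I) * habC
  rw [dist_eq_norm, e, norm_mul, hu1, one_mul] at hd
  have h4 := (Complex.abs_im_le_norm _).trans_lt hd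
  have h5 := hs i b
  refine absurd h4 (not_lt.2 ?_)
  have e2 : (((β * V : ℝ) : ℂ) + s * I - (((1 / N : ℝ) : ℂ) * (a + b * om) + u⁻¹ * x i)).im
      = s - ((u⁻¹ * x i).im + b * (Real.sqrt 3 / 2 / N)) := by
    rw [Complex.sub_im, Complex.add_im, Complex.add_im, Complex.im_ofReal_mul, Complex.ofReal_im]
    simp [om]
    ring
  rw [e2]
  exact h5

lemma not_discrete {k : ℕ} (x : Fin k → ℂ) (θ : Fin k → ℝ) (i j : Fin k)
    (h : ∀ n : ℤ, 0 < n → (n : ℂ) * ((exp (θ i * I))⁻¹ * exp (θ j * I)) ∉ Lam) :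
    ¬ UnifDiscrete (TBG x θ) := by
  rintro ⟨r, hr, hD⟩
  set u := exp (θ i * I) with hu
  have hu0 : u ≠ 0 := Complex.exp_ne_zero _
  have hu1 : ‖u‖ = 1 := norm_e _
  set w := u⁻¹ * exp (θ j * I) with hw
  choose l0 hl0 hr0 using fun n : ℕ => reduce ((n : ℂ) * w)
  obtain ⟨a, _, φ, hφ, ht⟩ := (isCompact_closedBall (0 : ℂ) 2).tendsto_subseq
    (x := fun n : ℕ => (n : ℂ) * w - l0 n) (fun n => mem_closedBall_zero_iff.2 (hr0 n))
  obtain ⟨M, hM⟩ := Metric.tendsto_atTop.1 ht (r / 20) (by positivity)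
  have m1 := hM M le_rfl
  have m2 := hM (M + 1) (by omega)
  simp only [Function.comp] at m1 m2
  set z : ℂ := ((φ (M + 1) : ℂ) * w - l0 (φ (M + 1))) - ((φ M : ℂ) * w - l0 (φ M)) with hz
  have hzs : ‖z‖ < r / 10 := by
    rw [hz, ← dist_eq_norm]
    have := dist_triangle_right ((φ (M + 1) : ℂ) * w - l0 (φ (M + 1))) ((φ M : ℂ) * w - l0 (φ M)) a
    linarith
  have hlt : φ M < φ (M + 1) := hφ (by omega)
  have hz0 : z ≠ 0 := by
    intro h0
    apply h ((φ (M + 1) : ℤ) - φ M) (by omega)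
    have : (((φ (M + 1) : ℤ) - φ M : ℤ) : ℂ) * w = l0 (φ (M + 1)) - l0 (φ M) := by
      push_cast; linear_combination h0
    rw [this]
    exact Lam_sub (hl0 _) (hl0 _)
  set tg : ℂ := u⁻¹ * (x i - x j) with htg
  obtain ⟨l, hl, hl2⟩ := reduce ((tg + (r / 2 : ℝ)) / z)
  have hclose : ‖tg + (r / 2 : ℝ) - z * l‖ ≤ r / 5 := by
    have : tg + (r / 2 : ℝ) - z * l = z * ((tg + (r / 2 : ℝ)) / z - l) := by field_simp
    rw [this, norm_mul]
    calc ‖z‖ * _ ≤ r / 10 * 2 := by gcongr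
      _ = r / 5 := by ring
  have hp : u * ((l0 (φ (M + 1)) - l0 (φ M)) * l) + x i ∈ TBG x θ :=
    ⟨i, _, Lam_mul (Lam_sub (hl0 _) (hl0 _)) hl, rfl⟩
  have hq : exp (θ j * I) * ((((φ (M + 1) : ℤ) - φ M : ℤ) : ℂ) * l) + x j ∈ TBG x θ :=
    ⟨j, _, Lam_mul (Lam_int _) hl, rfl⟩
  have hdiff : u * ((l0 (φ (M + 1)) - l0 (φ M)) * l) + x i -
      (exp (θ j * I) * ((((φ (M + 1) : ℤ) - φ M : ℤ) : ℂ) * l) + x j) = u * (tg - z * l) := by
    rw [htg, hz, hw]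
    push_cast
    field_simp
    ring
  have hr2 : ‖((r / 2 : ℝ) : ℂ)‖ = r / 2 := by
    rw [Complex.norm_real, Real.norm_eq_abs, abs_of_pos (by positivity)]
  have hup : ‖tg - z * l‖ ≤ r / 5 + r / 2 := by
    have : tg - z * l = (tg + (r / 2 : ℝ) - z * l) - (r / 2 : ℝ) := by ring
    rw [this]
    exact (norm_sub_le _ _).trans (by linarith)
  have hne : tg - z * l ≠ 0 := by
    intro h0
    have : tg + (r / 2 : ℝ) - z * l = (r / 2 : ℝ) := by linear_combination h0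
    rw [this, hr2] at hclose
    linarith
  have := hD _ hp _ hq (by
    intro e
    rw [← sub_eq_zero, hdiff] at e
    exact mul_ne_zero hu0 hne e)
  rw [dist_eq_norm, hdiff, norm_mul, hu1, one_mul] at this
  linarith

lemma never {k : ℕ} (x : Fin k → ℂ) (θ : Fin k → ℝ) :
    ¬ (UnifDiscrete (TBG x θ) ∧ DenseForest (TBG x θ)) := by
  rintro ⟨h1, h2⟩
  rcases Nat.eq_zero_or_pos k with rfl | hk
  · exact not_forest x θ 0 1 one_pos (fun i => i.elim0) h2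
  · let i0 : Fin k := ⟨0, hk⟩
    have : ∀ j, ∃ n : ℤ, 0 < n ∧ (n : ℂ) * ((exp (θ i0 * I))⁻¹ * exp (θ j * I)) ∈ Lam := by
      intro j
      by_contra hc
      push Not at hc
      exact not_discrete x θ i0 j hc h1
    choose n hn hn2 using this
    refine not_forest x θ (θ i0) (∏ j, n j) (Finset.prod_pos fun j _ => hn j) (fun i => ?_) h2
    obtain ⟨m, hm⟩ := Finset.dvd_prod_of_mem n (Finset.mem_univ i)
    rw [hm]
    have := Lam_mul (Lam_int m) (hn2 i)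
    convert this using 1
    push_cast; ring

end Pool.Agent.H52.TBG
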