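import Pool.Agent.H52.TFDefs

/-! A metric space with unique betweenness points and medians is a tree. -/

set_option autoImplicit false

namespace Pool.Agent.H52.TF

variable {Λ X : Type} [CommRing Λ] [LinearOrder Λ] [IsStrictOrderedRing Λ]

structure Pre (d : X → X → Λ) : Prop where
  nonempty : Nonempty X
  nonneg : ∀ x y, 0 ≤ d x y
  eq_zero : ∀ x y, d x y = 0 ↔ x = y
  symm : ∀ x y, d x y = d y x
  tri : ∀ x y z, d x z ≤ d x y + d y z
  ex : ∀ x y t, 0 ≤ t → t ≤ d x y → ∃ z, d x z = t ∧ d x z + d z y = d x y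
  uniq : ∀ x y z w, d x z + d z y = d x y → d x w + d w y = d x y → d x z = d x w → z = w
  med : ∀ x y z, ∃ m, d x m + d m y = d x y ∧ d x m + d m z = d x z ∧ d y m + d m z = d y z

def Btw (d : X → X → Λ) (x y : X) : Set X := {z | d x z + d z y = d x y}

variable {d : X → X → Λ}

theorem Pre.self (h : Pre d) (x : X) : d x x = 0 := (h.eq_zero x x).2 rfl

theorem Pre.btw_comm (h : Pre d) (x y : X) : Btw d x y = Btw d y x := by
  ext z
  simp only [Btw, Set.mem_setOf_eq]
  rw [h.symm x z, h.symm z y, h.symm x y, add_comm]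

theorem Pre.seg_eq (h : Pre d) {x y : X} {S : Set X} (hS : Seg d x y S) : S = Btw d x y := by
  obtain ⟨a, b, φ, hab, hφ, rfl, rfl, rfl⟩ := hS
  have ha : a ∈ Set.Icc a b := ⟨le_rfl, hab⟩
  have hb : b ∈ Set.Icc a b := ⟨hab, le_rfl⟩
  have h1 : ∀ t ∈ Set.Icc a b, d (φ a) (φ t) = t - a := fun t ht => by
    rw [hφ a ha t ht, abs_sub_comm, abs_of_nonneg (sub_nonneg.2 ht.1)]
  have h2 : ∀ t ∈ Set.Icc a b, d (φ t) (φ b) = b - t := fun t ht => by
    rw [hφ t ht b hb, abs_sub_comm, abs_of_nonneg (sub_nonneg.2 ht.2)]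
  ext z
  constructor
  · rintro ⟨t, ht, rfl⟩
    show _ = _
    rw [h1 t ht, h2 t ht, h1 b hb]; ring
  · intro hz
    have hz' : d (φ a) z + d z (φ b) = d (φ a) (φ b) := hz
    have ht : a + d (φ a) z ∈ Set.Icc a b := by
      have := h.nonneg (φ a) z
      have := h.nonneg z (φ b)
      have := h1 b hb
      constructor <;> linarith
    refine ⟨_, ht, h.uniq (φ a) (φ b) _ _ ?_ hz' ?_⟩
    · rw [h1 _ ht, h2 _ ht, h1 b hb]; ring
    · rw [h1 _ ht]; ring

theorem Pre.seg (h : Pre d) (x y : X) : Seg d x y (Btw d x y) := by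
  classical
  have key : ∀ t, ∃ z, 0 ≤ t → t ≤ d x y → d x z = t ∧ d x z + d z y = d x y := by
    intro t
    by_cases ht : 0 ≤ t ∧ t ≤ d x y
    · obtain ⟨z, hz⟩ := h.ex x y t ht.1 ht.2
      exact ⟨z, fun _ _ => hz⟩
    · exact ⟨x, fun h1 h2 => absurd ⟨h1, h2⟩ ht⟩
  choose φ hφ using key
  have iso : ∀ s ∈ Set.Icc 0 (d x y), ∀ t ∈ Set.Icc 0 (d x y), s ≤ t →
      d (φ s) (φ t) = t - s := by
    intro s hs t ht hst
    obtain ⟨e1, e2⟩ := hφ s hs.1 hs.2
    obtain ⟨e3, e4⟩ := hφ t ht.1 ht.2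
    obtain ⟨w, e5, e6⟩ := h.ex x (φ t) s hs.1 (by rw [e3]; exact hst)
    have e7 : d x w + d w y = d x y := by
      have := h.tri w (φ t) y
      have := h.tri x w y
      linarith
    rw [← h.uniq x y _ _ e7 e2 (e5.trans e1.symm)]
    linarith
  have hS : Seg d x y (φ '' Set.Icc 0 (d x y)) := by
    refine ⟨0, d x y, φ, h.nonneg x y, fun s hs t ht => ?_, ?_, ?_, rfl⟩
    · rcases le_total s t with hst | hst
      · rw [iso s hs t ht hst, abs_sub_comm, abs_of_nonneg (sub_nonneg.2 hst)]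
      · rw [h.symm, iso t ht s hs hst, abs_of_nonneg (sub_nonneg.2 hst)]
    · exact ((h.eq_zero _ _).1 (hφ 0 le_rfl (h.nonneg x y)).1).symm
    · obtain ⟨e1, e2⟩ := hφ (d x y) (h.nonneg x y) le_rfl
      exact (h.eq_zero _ _).1 (by linarith)
  rwa [← h.seg_eq hS]

theorem Pre.endOf (h : Pre d) {x : X} {S : Set X} (hS : EndOf d x S) : ∃ y, S = Btw d x y := by
  obtain ⟨y, hy | hy⟩ := hS
  · exact ⟨y, h.seg_eq hy⟩
  · exact ⟨y, (h.seg_eq hy).trans (h.btw_comm _ _)⟩

theorem Pre.sub (h : Pre d) {x y m : X} (hm : d x m + d m y = d x y) :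
    Btw d x m ⊆ Btw d x y := by
  intro w hw
  have hw' : d x w + d w m = d x m := hw
  have := h.tri w m y
  have := h.tri x w y
  show d x w + d w y = d x y
  linarith

theorem Pre.mem_of_le (h : Pre d) {x y m w : X} (hm : d x m + d m y = d x y)
    (hw : w ∈ Btw d x y) (hle : d x w ≤ d x m) : w ∈ Btw d x m := by
  obtain ⟨w', e1, e2⟩ := h.ex x m (d x w) (h.nonneg _ _) hle
  rwa [← h.uniq x y w' w (h.sub hm e2) hw e1]

theorem Pre.inter (h : Pre d) {x y z m : X} (h1 : d x m + d m y = d x y)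
    (h2 : d x m + d m z = d x z) (h3 : d y m + d m z = d y z) :
    Btw d x y ∩ Btw d x z = Btw d x m := by
  refine Set.Subset.antisymm ?_ (Set.subset_inter (h.sub h1) (h.sub h2))
  rintro w ⟨hy, hz⟩
  refine h.mem_of_le h1 hy ?_
  have hy' : d x w + d w y = d x y := hy
  have hz' : d x w + d w z = d x z := hz
  have := h.tri y w z
  have := h.symm y w
  have := h.symm y m
  linarith

theorem Pre.tree (h : Pre d) : IsTree d where
  nonempty := h.nonempty
  nonneg := h.nonneg
  eq_zero := h.eq_zero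
  symm := h.symm
  tri := h.tri
  geodesic x y := ⟨_, h.seg x y⟩
  inter x S T hS hT := by
    obtain ⟨y, rfl⟩ := h.endOf hS
    obtain ⟨z, rfl⟩ := h.endOf hT
    obtain ⟨m, h1, h2, h3⟩ := h.med x y z
    rw [h.inter h1 h2 h3]
    exact ⟨x, m, h.seg x m⟩
  union x S T hS hT e := by
    obtain ⟨y, rfl⟩ := h.endOf hS
    obtain ⟨z, rfl⟩ := h.endOf hT
    obtain ⟨m, h1, h2, h3⟩ := h.med x y z
    rw [h.inter h1 h2 h3] at e
    have hm : m ∈ Btw d x m := by
      show d x m + d m m = d x m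
      rw [h.self, add_zero]
    rw [e] at hm
    obtain rfl : m = x := hm
    have h4 : d z m + d m y = d z y := by
      rw [h.symm z m, h.symm m y, h.symm z y, add_comm, h3]
    refine ⟨y, z, ?_⟩
    convert h.seg y z using 1
    refine Set.Subset.antisymm (Set.union_subset ?_ ?_) fun w hw => ?_
    · rw [h.btw_comm]; exact h.sub h3
    · rw [h.btw_comm, h.btw_comm y]; exact h.sub h4
    · rcases le_total (d y w) (d y m) with hle | hle
      · left; rw [h.btw_comm]; exact h.mem_of_le h3 hw hle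
      · right
        rw [h.btw_comm]
        have hw' : d y w + d w z = d y z := hw
        rw [h.btw_comm] at hw
        refine h.mem_of_le h4 hw ?_
        have := h.symm z w
        have := h.symm z m
        linarith

end Pool.Agent.H52.TF
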