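import Pool.Agent.H52.TF1

/-! The Cayley tree of a free group and of its ultrapower. -/

set_option autoImplicit false

namespace Pool.Agent.H52.TF

open FreeGroup Filter

variable {α : Type} [DecidableEq α]

theorem norm_mk_red {L : List (α × Bool)} (h : IsReduced L) : norm (mk L) = L.length := by
  rw [FreeGroup.norm, toWord_mk, h.reduce_eq]

theorem word_add {g h : FreeGroup α} (e : norm g + norm h = norm (g * h)) :
    (g * h).toWord = g.toWord ++ h.toWord :=
  (toWord_mul_sublist g h).eq_of_length (by rw [List.length_append]; exact e.symm)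

theorem ex0 (g : FreeGroup α) (t : ℕ) (ht : t ≤ norm g) :
    ∃ z : FreeGroup α, norm z = t ∧ norm z + norm (z⁻¹ * g) = norm g := by
  have h1 : IsReduced (g.toWord.take t) := List.IsChain.take isReduced_toWord _
  have h2 : IsReduced (g.toWord.drop t) := List.IsChain.drop isReduced_toWord _
  have e : g = mk (g.toWord.take t) * mk (g.toWord.drop t) := by
    rw [mul_mk, List.take_append_drop, mk_toWord]
  refine ⟨mk (g.toWord.take t), ?_, ?_⟩
  · rw [norm_mk_red h1, List.length_take]; exact min_eq_left ht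
  · have : (mk (g.toWord.take t))⁻¹ * g = mk (g.toWord.drop t) := by
      rw [inv_mul_eq_iff_eq_mul]; exact e
    rw [this, norm_mk_red h1, norm_mk_red h2, ← List.length_append, List.take_append_drop]
    rfl

theorem uniq0 {g z w : FreeGroup α} (hz : norm z + norm (z⁻¹ * g) = norm g)
    (hw : norm w + norm (w⁻¹ * g) = norm g) (e : norm z = norm w) : z = w := by
  have h1 := word_add (g := z) (h := z⁻¹ * g) (by simpa using hz)
  have h2 := word_add (g := w) (h := w⁻¹ * g) (by simpa using hw)
  rw [mul_inv_cancel_left] at h1 h2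
  exact toWord_injective (List.append_inj (h1.symm.trans h2) e).1

theorem split {β : Type} : ∀ u v : List β, ∃ p u' v', u = p ++ u' ∧ v = p ++ v' ∧
    ∀ a ∈ u'.head?, ∀ b ∈ v'.head?, a ≠ b
  | [], v => ⟨[], [], v, rfl, rfl, by simp⟩
  | a :: u, [] => ⟨[], a :: u, [], rfl, rfl, by simp⟩
  | a :: u, b :: v => by
    by_cases h : a = b
    · obtain ⟨p, u', v', rfl, rfl, h'⟩ := split u v
      exact ⟨a :: p, u', v', rfl, by rw [h]; rfl, h'⟩
    · exact ⟨[], a :: u, b :: v, rfl, rfl, by simpa using h⟩

theorem red_invRev {L : List (α × Bool)} (h : IsReduced L) : IsReduced (invRev L) :=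
  IsReduced.of_reduce_eq (by rw [reduce_invRev, h.reduce_eq])

theorem med0 (y z : FreeGroup α) : ∃ m : FreeGroup α, norm m + norm (m⁻¹ * y) = norm y ∧
    norm m + norm (m⁻¹ * z) = norm z ∧ norm (y⁻¹ * m) + norm (m⁻¹ * z) = norm (y⁻¹ * z) := by
  obtain ⟨p, u, v, hy, hz, h⟩ := split y.toWord z.toWord
  have ry : IsReduced (p ++ u) := hy ▸ isReduced_toWord
  have rz : IsReduced (p ++ v) := hz ▸ isReduced_toWord
  have rp : IsReduced p := List.IsChain.left_of_append ry
  have ru : IsReduced u := List.IsChain.right_of_append ry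
  have rv : IsReduced v := List.IsChain.right_of_append rz
  have ey : y = mk p * mk u := by rw [mul_mk, ← hy, mk_toWord]
  have ez : z = mk p * mk v := by rw [mul_mk, ← hz, mk_toWord]
  have ruv : IsReduced (invRev u ++ v) := by
    refine List.IsChain.append (red_invRev ru) rv fun a ha b hb e => ?_
    cases u with
    | nil => simp at ha
    | cons c u =>
      have : a = (c.1, !c.2) := by simpa [invRev, eq_comm] using ha
      subst this
      have := h c (by simp) b hb
      by_contra h'
      apply this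
      ext
      · exact e
      · revert h'; cases c.2 <;> cases b.2 <;> simp
  refine ⟨mk p, ?_, ?_, ?_⟩
  · rw [ey, inv_mul_cancel_left, mul_mk, norm_mk_red rp, norm_mk_red ru, norm_mk_red ry,
      List.length_append]
  · rw [ez, inv_mul_cancel_left, mul_mk, norm_mk_red rp, norm_mk_red rv, norm_mk_red rz,
      List.length_append]
  · have e1 : y⁻¹ * mk p = (mk u)⁻¹ := by rw [ey]; group
    have e2 : y⁻¹ * z = mk (invRev u ++ v) := by rw [ey, ez, ← mul_mk, ← inv_mk]; group
    rw [e1, e2, ez, inv_mul_cancel_left, norm_inv_eq, norm_mk_red ru, norm_mk_red rv,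
      norm_mk_red ruv, List.length_append, invRev_length]

def dF (x y : FreeGroup α) : ℤ := norm (x⁻¹ * y)

theorem dF_mul (g x y : FreeGroup α) : dF (g * x) (g * y) = dF x y := by
  simp [dF, mul_assoc]

theorem preF : Pre (dF (α := α)) where
  nonempty := ⟨1⟩
  nonneg _ _ := Int.natCast_nonneg _
  eq_zero x y := by simp [dF, inv_mul_eq_one]
  symm x y := by rw [dF, dF, ← norm_inv_eq]; simp
  tri x y z := by
    have := norm_mul_le (x⁻¹ * y) (y⁻¹ * z)
    simp only [mul_assoc, mul_inv_cancel_left] at this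
    simp only [dF]; omega
  ex x y t h0 ht := by
    lift t to ℕ using h0
    obtain ⟨z, h1, h2⟩ := ex0 (x⁻¹ * y) t (by simpa [dF] using ht)
    refine ⟨x * z, by simp [dF, h1], ?_⟩
    simp only [dF, inv_mul_cancel_left, mul_inv_rev, mul_assoc]
    omega
  uniq x y z w hz hw e := by
    have := uniq0 (g := x⁻¹ * y) (z := x⁻¹ * z) (w := x⁻¹ * w)
      (by simp only [dF] at hz; simp only [mul_inv_rev, inv_inv, mul_assoc, mul_inv_cancel_left]; omega)
      (by simp only [dF] at hw; simp only [mul_inv_rev, inv_inv, mul_assoc, mul_inv_cancel_left]; omega)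
      (by simp only [dF] at e; omega)
    exact mul_left_cancel this
  med x y z := by
    obtain ⟨m, h1, h2, h3⟩ := med0 (x⁻¹ * y) (x⁻¹ * z)
    refine ⟨x * m, ?_⟩
    simp only [dF, inv_mul_cancel_left, mul_inv_rev, inv_inv, mul_assoc, mul_inv_cancel_left] at *
    omega

section ultra

variable {X : Type} {d : X → X → ℤ} (U : Ultrafilter ℕ)

theorem Pre.germ (h : Pre d) :
    Pre (fun x y : Germ (U : Filter ℕ) X => Germ.map₂ d x y) where
  nonempty := ⟨(↑(fun _ : ℕ => h.nonempty.some) : Germ _ _)⟩
  nonneg x y := Germ.inductionOn₂ x y fun f g =>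
    Germ.coe_nonneg.2 (.of_forall fun k => h.nonneg _ _)
  eq_zero x y := Germ.inductionOn₂ x y fun f g => by
    rw [Germ.map₂_coe, ← Germ.coe_zero, Germ.coe_eq, Germ.coe_eq]
    exact eventually_congr (.of_forall fun k => h.eq_zero _ _)
  symm x y := Germ.inductionOn₂ x y fun f g => by
    rw [Germ.map₂_coe, Germ.map₂_coe, Germ.coe_eq]
    exact .of_forall fun k => h.symm _ _
  tri x y z := Germ.inductionOn₃ x y z fun f g e => by
    rw [Germ.map₂_coe, Germ.map₂_coe, Germ.map₂_coe, ← Germ.coe_add, Germ.coe_le]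
    exact .of_forall fun k => h.tri _ _ _
  ex x y t := Germ.inductionOn₃ x y t fun f g t h0 ht => by
    rw [Germ.coe_nonneg] at h0
    rw [Germ.map₂_coe, Germ.coe_le] at ht
    have key : ∀ k, ∃ z, 0 ≤ t k → t k ≤ d (f k) (g k) →
        d (f k) z = t k ∧ d (f k) z + d z (g k) = d (f k) (g k) := by
      intro k
      by_cases hk : 0 ≤ t k ∧ t k ≤ d (f k) (g k)
      · obtain ⟨z, hz⟩ := h.ex _ _ _ hk.1 hk.2
        exact ⟨z, fun _ _ => hz⟩
      · exact ⟨f k, fun h1 h2 => absurd ⟨h1, h2⟩ hk⟩
    choose z hz using key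
    refine ⟨(z : Germ _ _), ?_, ?_⟩
    · rw [Germ.map₂_coe, Germ.coe_eq]
      filter_upwards [h0, ht] with k h1 h2 using (hz k h1 h2).1
    · rw [Germ.map₂_coe, Germ.map₂_coe, Germ.map₂_coe, ← Germ.coe_add, Germ.coe_eq]
      filter_upwards [h0, ht] with k h1 h2 using (hz k h1 h2).2
  uniq x y z w := Germ.inductionOn₂ x y fun f g => Germ.inductionOn₂ z w fun z w h1 h2 h3 => by
    rw [Germ.map₂_coe, Germ.map₂_coe, Germ.map₂_coe, ← Germ.coe_add, Germ.coe_eq] at h1 h2
    rw [Germ.map₂_coe, Germ.map₂_coe, Germ.coe_eq] at h3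
    rw [Germ.coe_eq]
    filter_upwards [h1, h2, h3] with k h1 h2 h3 using h.uniq _ _ _ _ h1 h2 h3
  med x y z := Germ.inductionOn₃ x y z fun f g e => by
    choose m hm using fun k => h.med (f k) (g k) (e k)
    refine ⟨(m : Germ _ _), ?_, ?_, ?_⟩ <;>
      rw [Germ.map₂_coe, Germ.map₂_coe, Germ.map₂_coe, ← Germ.coe_add, Germ.coe_eq]
    · exact .of_forall fun k => (hm k).1
    · exact .of_forall fun k => (hm k).2.1
    · exact .of_forall fun k => (hm k).2.2

/-- subgroups of an ultrapower of a free group act freely on a tree -/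
theorem actsFreely (G : Subgroup (Germ (U : Filter ℕ) (FreeGroup α))) : ActsFreely G := by
  refine ⟨Germ (U : Filter ℕ) ℤ, Germ (U : Filter ℕ) (FreeGroup α), inferInstance, inferInstance,
    inferInstance, fun x y => Germ.map₂ dF x y, inferInstance, (preF.germ U).tree, ?_, ?_, ?_⟩
  · rintro ⟨g, -⟩ x y
    show Germ.map₂ dF (g * x) (g * y) = Germ.map₂ dF x y
    refine Germ.inductionOn₃ g x y fun g x y => ?_
    rw [← Germ.coe_mul, ← Germ.coe_mul, Germ.map₂_coe, Germ.map₂_coe, Germ.coe_eq]
    exact .of_forall fun k => dF_mul _ _ _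
  · intro g x h
    exact Subtype.ext (mul_eq_right.1 h)
  · rintro ⟨g, hg⟩ ⟨h1, x, h2⟩
    have h3 : g * g = 1 := mul_eq_right.1 h2
    refine h1 1 (show g * 1 = 1 from ?_)
    rw [mul_one]
    revert h3
    refine Germ.inductionOn g fun g h3 => ?_
    rw [← Germ.coe_mul, ← Germ.coe_one, Germ.coe_eq] at h3
    rw [← Germ.coe_one, Germ.coe_eq]
    filter_upwards [h3] with k hk
    have : g k ^ 2 = 1 := by rw [pow_two]; exact hk
    exact (pow_eq_one_iff_left two_ne_zero).1 this

end ultra

/-- the centralizer of a free generator -/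
theorem cent (b : α) : ∀ (n : ℕ) (g : FreeGroup α), norm g = n → of b * g = g * of b →
    ∃ m : ℤ, g = of b ^ m := by
  intro n
  induction n with
  | zero => exact fun g h _ => ⟨0, by simpa using h⟩
  | succ n ih =>
    intro g hn hc
    obtain ⟨⟨x, β⟩, w, hw⟩ : ∃ x w, g.toWord = x :: w := by
      cases e : g.toWord with
      | nil => rw [FreeGroup.norm, e] at hn; simp at hn
      | cons x w => exact ⟨x, w, rfl⟩
    have rw' : IsReduced ((x, β) :: w) := hw ▸ isReduced_toWord
    have hl : w.length = n := by rw [FreeGroup.norm, hw] at hn; simpa using hn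
    by_cases hx : x = b
    · subst hx
      have rw2 : IsReduced w := List.IsChain.tail rw'
      have eg : g = mk [(x, β)] * mk w := by rw [mul_mk, List.singleton_append, ← hw, mk_toWord]
      obtain ⟨s, hs⟩ : ∃ s : ℤ, mk [(x, β)] = of x ^ s := by
        cases β
        · exact ⟨-1, by rw [zpow_neg_one]; rfl⟩
        · exact ⟨1, by rw [zpow_one]; rfl⟩
      rw [hs] at eg
      obtain ⟨m, hm⟩ := ih (mk w) ((norm_mk_red rw2).trans hl) (by
        rw [eg] at hc
        have : of x * (of x ^ s * mk w) = of x ^ s * (of x * mk w) := by group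
        rw [this, mul_assoc] at hc
        exact mul_left_cancel hc)
      exact ⟨s + m, by rw [eg, hm, zpow_add]⟩
    · exfalso
      have h1 : (of b * g).toWord = (b, true) :: (x, β) :: w := by
        rw [toWord_mul, toWord_of, hw, List.singleton_append]
        exact IsReduced.reduce_eq (isReduced_cons_cons.2 ⟨fun e => absurd e.symm hx, rw'⟩)
      have h2 := toWord_mul_sublist g (of b)
      rw [← hc, h1, hw, toWord_of] at h2
      have h3 := h2.eq_of_length (by simp)
      simp only [List.cons_append, List.cons.injEq, Prod.mk.injEq] at h3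
      exact hx h3.1.1.symm

end Pool.Agent.H52.TF
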