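import Pool.Agent.H52.TF2

/-! The model: a subgroup of an ultrapower of the free group of rank three in which an arbitrary
set of integers is definable. -/

set_option autoImplicit false

namespace Pool.Agent.H52.TF

open Filter
open FreeGroup (of lift)

abbrev F3 := FreeGroup (Fin 3)

def uu {G : Type} [Group G] (b c x : G) : G := b * (x * c * x⁻¹)

def u (M : ℤ) : F3 := uu (of 1) (of 2) (of 0 ^ M)

theorem cent_u (M : ℤ) (g : F3) (h : u M * g = g * u M) : ∃ m : ℤ, g = u M ^ m := by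
  let w : F3 := of 0 ^ M * of 2 * (of 0 ^ M)⁻¹
  let σ : F3 →* F3 := lift ![of 0, of 1 * w, of 2]
  let τ : F3 →* F3 := lift ![of 0, of 1 * w⁻¹, of 2]
  have h1 : σ.comp τ = MonoidHom.id _ := by
    ext i
    fin_cases i <;> simp [σ, τ, w, mul_assoc]
  have h2 : τ (u M) = of 1 := by simp [τ, u, uu, w, mul_assoc]
  have h3 : σ (of 1) = u M := by simp [σ, u, uu, w]
  obtain ⟨m, hm⟩ := cent 1 _ (τ g) rfl (by rw [← h2, ← map_mul, h, map_mul])
  refine ⟨m, ?_⟩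
  have := DFunLike.congr_fun h1 g
  rw [MonoidHom.comp_apply, hm, map_zpow, h3] at this
  exact this.symm

def eB : F3 →* Multiplicative ℤ := lift ![1, Multiplicative.ofAdd 1, 1]
def eA : F3 →* Multiplicative ℤ := lift ![Multiplicative.ofAdd 1, 1, 1]

theorem eB_u (M : ℤ) : eB (u M) = Multiplicative.ofAdd 1 := by simp [eB, u, uu]
theorem eA_u (M : ℤ) : eA (u M) = 1 := by simp [eA, u, uu]

def sh (m : ℤ) : Equiv.Perm (ℤ × ℤ) := Equiv.addRight (m, 0)

def rf (i0 t : ℤ) : Equiv.Perm (ℤ × ℤ) :=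
  Function.Involutive.toPerm (fun p => if p.1 = i0 then (p.1, t - p.2) else p) (by
    intro p
    by_cases h : p.1 = i0
    · simp [h]; rw [← h]
    · simp [h])

theorem rf_apply (i0 t : ℤ) (p : ℤ × ℤ) : rf i0 t p = if p.1 = i0 then (p.1, t - p.2) else p := rfl

theorem sh_zpow (m : ℤ) : sh 1 ^ m = sh m := by
  have h : ∀ a b, sh a * sh b = sh (a + b) := fun a b => by
    ext1 ⟨i, j⟩; simp [sh]; ring
  have h0 : sh 0 = 1 := by ext1 ⟨i, j⟩; simp [sh]
  induction m using Int.induction_on with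
  | zero => simp [h0]
  | succ n ih => rw [zpow_add_one, ih, h]
  | pred n ih => rw [zpow_sub_one, ih, mul_inv_eq_iff_eq_mul, h]; simp

def th (M : ℤ) : F3 →* Equiv.Perm (ℤ × ℤ) := lift ![sh 1, rf 0 0, rf (-M) 1]

theorem th_u (M M' : ℤ) : th M (u M') = rf 0 0 * rf (M' - M) 1 := by
  have : th M (u M') = rf 0 0 * (sh M' * rf (-M) 1 * (sh M')⁻¹) := by
    simp [th, u, uu, sh_zpow]
  rw [this]
  congr 1
  rw [mul_inv_eq_iff_eq_mul]
  ext1 ⟨i, j⟩
  simp only [Equiv.Perm.mul_apply, rf_apply, sh, Equiv.coe_addRight, Prod.mk_add_mk, add_zero]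
  by_cases h : i = -M
  · rw [if_pos h, if_pos (by omega)]; simp
  · rw [if_neg h, if_neg (by omega)]; simp

theorem th_sq {M M' : ℤ} (h : M' ≠ M) : th M (u M') ^ 2 = 1 := by
  rw [th_u, pow_two]
  ext1 ⟨i, j⟩
  have h' : M' - M ≠ 0 := sub_ne_zero.2 h
  simp only [Equiv.Perm.mul_apply, rf_apply, Equiv.Perm.one_apply]
  by_cases h1 : i = M' - M
  · simp [h1, h']
  · by_cases h2 : i = 0
    · subst h2; simp [h1]
    · simp [h1, h2]

theorem th_pow (M : ℤ) (n : ℕ) (j : ℤ) : (th M (u M) ^ n) (0, j) = (0, j - n) := by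
  induction n generalizing j with
  | zero => simp
  | succ n ih =>
    rw [pow_succ, Equiv.Perm.mul_apply]
    have : th M (u M) (0, j) = (0, j - 1) := by simp [th_u, rf_apply]
    rw [this, ih]; push_cast; ring_nf

theorem th_inj (M : ℤ) : Function.Injective fun m : ℤ => th M (u M) ^ m := by
  refine injective_zpow_iff_not_isOfFinOrder.2 fun h => ?_
  obtain ⟨n, hn, e⟩ := isOfFinOrder_iff_pow_eq_one.1 h
  have := th_pow M n 0
  rw [e] at this
  simp at this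
  omega

def G0 (S : Set ℤ) : Subgroup (ℕ → F3) where
  carrier := {f | (∃ i j : ℤ, ∀ k, eB (f k) = Multiplicative.ofAdd (i + 2 * j * k)) ∧
    (∃ m, ∀ k, eA (f k) = m) ∧ ∀ M, M ∉ S → ∃ h, ∀ k, th M (f k) = h}
  one_mem' := ⟨⟨0, 0, by simp⟩, ⟨1, by simp⟩, fun _ _ => ⟨1, by simp⟩⟩
  mul_mem' := by
    rintro f g ⟨⟨i, j, h1⟩, ⟨m, h2⟩, h3⟩ ⟨⟨i', j', h1'⟩, ⟨m', h2'⟩, h3'⟩
    refine ⟨⟨i + i', j + j', fun k => ?_⟩, ⟨m * m', fun k => ?_⟩, fun M hM => ?_⟩
    · rw [Pi.mul_apply, map_mul, h1, h1', ← ofAdd_add]; congr 1; ring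
    · rw [Pi.mul_apply, map_mul, h2, h2']
    · obtain ⟨h, hh⟩ := h3 M hM
      obtain ⟨h', hh'⟩ := h3' M hM
      exact ⟨h * h', fun k => by rw [Pi.mul_apply, map_mul, hh, hh']⟩
  inv_mem' := by
    rintro f ⟨⟨i, j, h1⟩, ⟨m, h2⟩, h3⟩
    refine ⟨⟨-i, -j, fun k => ?_⟩, ⟨m⁻¹, fun k => ?_⟩, fun M hM => ?_⟩
    · rw [Pi.inv_apply, map_inv, h1, ← ofAdd_neg]; congr 1; ring
    · rw [Pi.inv_apply, map_inv, h2]
    · obtain ⟨h, hh⟩ := h3 M hM
      exact ⟨h⁻¹, fun k => by rw [Pi.inv_apply, map_inv, hh]⟩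

noncomputable def GG (S : Set ℤ) : Subgroup (Germ (hyperfilter ℕ : Filter ℕ) F3) :=
  (G0 S).map (Germ.coeMulHom _)

noncomputable def mkG {S : Set ℤ} (f : ℕ → F3) (hf : f ∈ G0 S) : GG S := ⟨(f : Germ _ _), f, hf, rfl⟩

theorem const_mem (S : Set ℤ) (g : F3) : (fun _ => g) ∈ G0 S :=
  ⟨⟨(eB g).toAdd, 0, by simp⟩, ⟨_, fun _ => rfl⟩, fun _ _ => ⟨_, fun _ => rfl⟩⟩

noncomputable def io (S : Set ℤ) : F3 →* GG S where
  toFun g := mkG _ (const_mem S g)
  map_one' := rfl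
  map_mul' _ _ := rfl

theorem mkG_eq {S : Set ℤ} {f g : ℕ → F3} {hf : f ∈ G0 S} {hg : g ∈ G0 S} :
    mkG f hf = mkG g hg ↔ ∀ᶠ k in (hyperfilter ℕ : Filter ℕ), f k = g k := by
  rw [Subtype.ext_iff]; exact Germ.coe_eq

theorem mkG_mul {S : Set ℤ} {f g : ℕ → F3} (hf : f ∈ G0 S) (hg : g ∈ G0 S) :
    mkG f hf * mkG g hg = mkG (f * g) (mul_mem hf hg) := rfl

theorem mkG_surj {S : Set ℤ} (x : GG S) : ∃ f hf, x = mkG f hf := by
  obtain ⟨_, f, hf, rfl⟩ := x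
  exact ⟨f, hf, rfl⟩

theorem std {S : Set ℤ} {H : Type} [Group H] (ψ : F3 →* H) (v : F3)
    (h1 : ∀ f ∈ G0 S, ∃ h, ∀ k, ψ (f k) = h) (h2 : Function.Injective fun m : ℤ => ψ v ^ m)
    (h3 : ∀ g, v * g = g * v → ∃ m : ℤ, g = v ^ m) (x : GG S)
    (hx : x * io S v = io S v * x) : ∃ m : ℤ, x = io S v ^ m := by
  obtain ⟨f, hf, rfl⟩ := mkG_surj x
  have h4 : ∀ᶠ k in (hyperfilter ℕ : Filter ℕ), ∃ m : ℤ, f k = v ^ m := by
    filter_upwards [(mkG_eq (hf := mul_mem hf (const_mem S _)) (hg := mul_mem (const_mem S _) hf)).1 hx]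
      with k hk using h3 _ hk.symm
  obtain ⟨k0, m0, h0⟩ := h4.exists
  obtain ⟨h, hh⟩ := h1 f hf
  refine ⟨m0, ?_⟩
  rw [← map_zpow]
  refine (mkG_eq (hg := const_mem S _)).2 ?_
  filter_upwards [h4] with k ⟨m, hm⟩
  have : m = m0 := h2 (by
    show ψ v ^ m = ψ v ^ m0
    rw [← map_zpow, ← map_zpow, ← hm, ← h0, hh, hh])
  rw [hm, this]

theorem cent_a {S : Set ℤ} (x : GG S) (hx : x * io S (of 0) = io S (of 0) * x) :
    ∃ m : ℤ, x = io S (of 0) ^ m := by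
  refine std eA (of 0) (fun f hf => hf.2.1) ?_ (fun g => cent 0 _ g rfl) x hx
  intro m n h
  simpa [eA, ← ofAdd_zsmul] using h

def PP {G : Type} [Group G] (v : G) : Prop :=
  ∃ s, s * v = v * s ∧ ∀ y, ¬ y * y = s ∧ ¬ y * y = s * v

theorem pp_iff (S : Set ℤ) (M : ℤ) : PP (io S (u M)) ↔ M ∈ S := by
  constructor
  · rintro ⟨s, h1, h2⟩
    by_contra hM
    obtain ⟨m, rfl⟩ := std (th M) (u M) (fun f hf => hf.2.2 M hM) (th_inj M) (cent_u M) s h1
    obtain ⟨n, rfl | rfl⟩ := Int.even_or_odd' m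
    · exact (h2 (io S (u M) ^ n)).1 (by group)
    · exact (h2 (io S (u M) ^ (n + 1))).2 (by group)
  · intro hM
    have hs : (fun k : ℕ => u M ^ (2 * k)) ∈ G0 S := by
      refine ⟨⟨0, 1, fun k => ?_⟩, ⟨1, fun k => ?_⟩, fun M' hM' => ⟨1, fun k => ?_⟩⟩
      · rw [map_pow, eB_u, ← ofAdd_nsmul]; simp
      · rw [map_pow, eA_u, one_pow]
      · rw [map_pow, pow_mul, th_sq (by rintro rfl; exact hM' hM), one_pow]
    refine ⟨mkG _ hs, (mkG_eq (hf := mul_mem hs (const_mem S _)) (hg := mul_mem (const_mem S _) hs)).2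
      (.of_forall fun k => ?_), fun y => ?_⟩
    · exact (pow_succ _ _).symm.trans (pow_succ' _ _)
    obtain ⟨f, hf, rfl⟩ := mkG_surj y
    obtain ⟨i, j, hij⟩ := hf.1
    constructor
    · intro h
      have h1 : ∀ᶠ k : ℕ in (hyperfilter ℕ : Filter ℕ), i + 2 * j * k = k := by
        filter_upwards [(mkG_eq (hf := mul_mem hf hf)).1 h] with k hk
        have := congrArg eB hk
        rw [Pi.mul_apply, map_mul, hij, map_pow, eB_u, ← ofAdd_nsmul, ← ofAdd_add] at this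
        have := Multiplicative.ofAdd.injective this
        simp only [nsmul_eq_mul, mul_one, Nat.cast_mul, Nat.cast_ofNat] at this
        omega
      have h2 : ∀ᶠ k : ℕ in (hyperfilter ℕ : Filter ℕ), i.natAbs < k :=
        Nat.hyperfilter_le_atTop (eventually_gt_atTop _)
      obtain ⟨k, e1, e2⟩ := (h1.and h2).exists
      have e3 : (k : ℤ) ∣ i := ⟨1 - 2 * j, by linarith⟩
      have e4 : i = 0 := Int.eq_zero_of_dvd_of_natAbs_lt_natAbs e3 (by simpa using e2)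
      have e5 : (k : ℤ) * (2 * j - 1) = 0 := by linarith
      rcases mul_eq_zero.1 e5 with e | e <;> omega
    · intro h
      obtain ⟨k, hk⟩ := ((mkG_eq (hf := mul_mem hf hf) (hg := mul_mem hs (const_mem S _))).1 h).exists
      have := congrArg eB hk
      rw [Pi.mul_apply, Pi.mul_apply, map_mul, map_mul, hij, map_pow, eB_u, ← ofAdd_nsmul,
        ← ofAdd_add, ← ofAdd_add] at this
      have := Multiplicative.ofAdd.injective this
      simp only [nsmul_eq_mul, mul_one, Nat.cast_mul, Nat.cast_ofNat] at this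
      omega

end Pool.Agent.H52.TF
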