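import Pool.Agent.H52.TF3
import Pool.Agent.H30.MulM

/-! Undecidability of the theory of groups acting freely on Lambda-trees. -/

set_option autoImplicit false

namespace Pool.Agent.H52.TF

open Pool.Agent.H30.MulM

section defin

abbrev Fn := ∀ (G : Type) [Group G], (ℕ → G) → G
abbrev Pr := ∀ (G : Type) [Group G], (ℕ → G) → Prop

def Tm (f : Fn) : Prop := ∃ w : List (ℕ × Bool), ∀ (G : Type) [Group G] (ρ : ℕ → G), ev ρ w = f G ρ

def Df (P : Pr) : Prop := ∃ φ : Fm, ∀ (G : Type) [Group G] (ρ : ℕ → G), φ.Sat ρ ↔ P G ρ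

variable {f f' f'' f''' : Fn} {P P' : Pr}

theorem Tm.var (i : ℕ) : Tm fun _ _ ρ => ρ i := ⟨[(i, true)], by simp [ev]⟩
theorem Tm.one : Tm fun _ _ _ => 1 := ⟨[], by simp [ev]⟩
theorem Tm.mul (h : Tm f) (h' : Tm f') : Tm fun G _ ρ => f G ρ * f' G ρ := by
  obtain ⟨u, hu⟩ := h
  obtain ⟨v, hv⟩ := h'
  exact ⟨u ++ v, fun G _ ρ => by
    beta_reduce
    rw [← hu, ← hv, ev, List.map_append, List.prod_append]; rfl⟩
theorem Tm.inv (h : Tm f) : Tm fun G _ ρ => (f G ρ)⁻¹ := by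
  obtain ⟨u, hu⟩ := h
  refine ⟨(u.map fun p => (p.1, !p.2)).reverse, fun G _ ρ => ?_⟩
  beta_reduce
  rw [← hu]
  clear hu
  induction u with
  | nil => simp [ev]
  | cons a u ih =>
    simp only [ev, List.map_cons, List.reverse_cons, List.map_append, List.prod_append,
      List.prod_cons, mul_inv_rev] at ih ⊢
    rw [ih]
    cases a.2 <;> simp
theorem Tm.pow (h : Tm f) (n : ℕ) : Tm fun G _ ρ => f G ρ ^ n := by
  induction n with
  | zero => simpa using Tm.one
  | succ n ih => simpa [pow_succ] using ih.mul h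
theorem Tm.ren (h : Tm f) (σ : ℕ → ℕ) : Tm fun G _ ρ => f G fun i => ρ (σ i) := by
  obtain ⟨u, hu⟩ := h
  refine ⟨u.map fun p => (σ p.1, p.2), fun G _ ρ => ?_⟩
  beta_reduce
  rw [← hu, ev, ev, List.map_map]
  rfl

theorem Df.eq (h : Tm f) (h' : Tm f') : Df fun G _ ρ => f G ρ = f' G ρ := by
  obtain ⟨u, hu⟩ := h
  obtain ⟨v, hv⟩ := h'
  exact ⟨.eq u v, fun G _ ρ => by rw [Fm.Sat, hu, hv]⟩
theorem Df.not (h : Df P) : Df fun G _ ρ => ¬ P G ρ := by
  obtain ⟨φ, h⟩ := h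
  exact ⟨.neg φ, fun G _ ρ => by rw [Fm.Sat, h]⟩
theorem Df.and (h : Df P) (h' : Df P') : Df fun G _ ρ => P G ρ ∧ P' G ρ := by
  obtain ⟨φ, h⟩ := h
  obtain ⟨ψ, h'⟩ := h'
  exact ⟨.and φ ψ, fun G _ ρ => by rw [Fm.Sat, h, h']⟩
theorem Df.of_iff (h : Df P) (e : ∀ (G : Type) [Group G] (ρ : ℕ → G), P G ρ ↔ P' G ρ) :
    Df P' := by
  obtain ⟨φ, h⟩ := h
  exact ⟨φ, fun G _ ρ => (h G ρ).trans (e G ρ)⟩
theorem Df.imp (h : Df P) (h' : Df P') : Df fun G _ ρ => P G ρ → P' G ρ :=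
  (h.and h'.not).not.of_iff fun _ _ _ => by tauto
theorem Df.all {R : ∀ (G : Type) [Group G], (ℕ → G) → G → Prop}
    (h : Df fun G _ ρ => R G (fun i => ρ (i + 1)) (ρ 0)) : Df fun G _ ρ => ∀ t, R G ρ t := by
  obtain ⟨φ, h⟩ := h
  exact ⟨.all φ, fun G _ ρ => forall_congr' fun t => h G _⟩
theorem Df.ex {R : ∀ (G : Type) [Group G], (ℕ → G) → G → Prop}
    (h : Df fun G _ ρ => R G (fun i => ρ (i + 1)) (ρ 0)) : Df fun G _ ρ => ∃ t, R G ρ t :=
  (Df.all (R := fun G _ ρ t => ¬ R G ρ t) h.not).not.of_iff fun _ _ _ => by simp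
theorem Df.allL {I : Type} {R : I → Pr} (h : ∀ i, Df (R i)) (l : List I) :
    Df fun G _ ρ => ∀ i ∈ l, R i G ρ := by
  induction l with
  | nil => exact (Df.eq Tm.one Tm.one).of_iff fun _ _ _ => by simp
  | cons a l ih => exact ((h a).and ih).of_iff fun _ _ _ => by simp
theorem Df.allF {I : Type} [Finite I] {R : I → Pr} (h : ∀ i, Df (R i)) :
    Df fun G _ ρ => ∀ i, R i G ρ := by
  have := Fintype.ofFinite I
  exact (Df.allL h Finset.univ.toList).of_iff fun _ _ _ => by simp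

theorem Df.pp (h : Tm f) : Df fun G _ ρ => PP (f G ρ) :=
  .ex <| (Df.eq ((Tm.var 0).mul (h.ren (· + 1))) ((h.ren (· + 1)).mul (.var 0))).and <| .all <|
    (Df.eq ((Tm.var 0).mul (.var 0)) (.var 1)).not.and
      (Df.eq ((Tm.var 0).mul (.var 0)) ((Tm.var 1).mul (h.ren fun i => i + 1 + 1))).not

def RR {G : Type} [Group G] (K i : ℕ) (a b c x : G) : Prop := PP (uu b c (x ^ K * a ^ i))

theorem Df.rr (K i : ℕ) (h : Tm f) (h' : Tm f') (h'' : Tm f'') (h''' : Tm f''') :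
    Df fun G _ ρ => RR K i (f G ρ) (f' G ρ) (f'' G ρ) (f''' G ρ) :=
  .pp (h'.mul ((((h'''.pow K).mul (h.pow i)).mul h'').mul ((h'''.pow K).mul (h.pow i)).inv))

def Rule {G : Type} [Group G] (K i i' k p : ℕ) (a b c x : G) : Prop :=
  if k = 0 then RR K i' a b c (x ^ p) → RR K i a b c x
  else if k = 1 then RR K i' a b c x → RR K i a b c (x ^ p)
  else ∀ r ∈ List.range' 1 (p - 1), RR K i' a b c (x ^ p * a ^ r) → RR K i a b c (x ^ p * a ^ r)

theorem Df.rule (K i i' k p : ℕ) (h : Tm f) (h' : Tm f') (h'' : Tm f'') (h''' : Tm f''') :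
    Df fun G _ ρ => Rule K i i' k p (f G ρ) (f' G ρ) (f'' G ρ) (f''' G ρ) := by
  unfold Rule
  split_ifs
  · exact (Df.rr K i' h h' h'' (h'''.pow p)).imp (.rr K i h h' h'' h''')
  · exact (Df.rr K i' h h' h'' h''').imp (.rr K i h h' h'' (h'''.pow p))
  · exact Df.allL (fun r => (Df.rr K i' h h' h'' ((h'''.pow p).mul (h.pow r))).imp
      (.rr K i h h' h'' ((h'''.pow p).mul (h.pow r)))) _

variable {Q : Type} (ins : Q → Bool → Option Q × ℕ × ℕ) (K : ℕ) (idx : Option Q → ℕ)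

def Ax {G : Type} [Group G] (a b c : G) : Prop :=
  ∀ x, x * a = a * x → RR K (idx none) a b c x ∧ ∀ sb : Q × Bool,
    Rule K (idx (some sb.1)) (idx (ins sb.1 sb.2).1) (ins sb.1 sb.2).2.1 ((ins sb.1 sb.2).2.2 + 1)
      a b c x

theorem Df.psi [Finite Q] (o : Option Q) :
    Df fun _ _ ρ => Ax ins K idx (ρ 1) (ρ 2) (ρ 3) → RR K (idx o) (ρ 1) (ρ 2) (ρ 3) (ρ 0) :=
  Df.imp (.all <| (Df.eq ((Tm.var 0).mul (.var 2)) ((Tm.var 2).mul (.var 0))).imp <|
    (Df.rr _ _ (.var 2) (.var 3) (.var 4) (.var 0)).and <| .allF fun _ =>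
      .rule _ _ _ _ _ (.var 2) (.var 3) (.var 4) (.var 0))
    (.rr _ _ (.var 1) (.var 2) (.var 3) (.var 0))

end defin

section machine

variable {Q : Type} {ins : Q → Bool → Option Q × ℕ × ℕ} {K : ℕ} {idx : Option Q → ℕ}

theorem complete {G : Type} [Group G] {a b c : G} (hA : Ax ins K idx a b c) {o : Option Q} {N : ℕ}
    (h : Halt ins o N) : RR K (idx o) a b c (a ^ N) := by
  have hc : ∀ n : ℕ, a ^ n * a = a * a ^ n := fun n => (pow_succ _ _).symm.trans (pow_succ' _ _)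
  induction h with
  | stop N => exact (hA _ (hc N)).1
  | @step s N N' β hok _ ih =>
    have hr := fun n => (hA _ (hc n)).2 (s, β)
    unfold ok at hok
    unfold Rule at hr
    dsimp only at hr
    split_ifs at hok hr
    · subst hok
      exact hr N (by rwa [← pow_mul, mul_comm])
    · subst hok
      have := hr N' ih
      rwa [← pow_mul, mul_comm] at this
    · obtain ⟨rfl, hd⟩ := hok
      set p := (ins s β).2.2 + 1 with hp
      have e : (a ^ (N' / p)) ^ p * a ^ (N' % p) = a ^ N' := by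
        rw [← pow_mul, ← pow_add, Nat.div_add_mod']
      have := hr (N' / p) (N' % p) (by
        have h1 : N' % p < p := Nat.mod_lt _ (by omega)
        have h2 : N' % p ≠ 0 := fun h => hd (Nat.dvd_of_mod_eq_zero h)
        rw [List.mem_range'_1]; omega)
      rw [e] at this
      exact this ih

def SS (ins : Q → Bool → Option Q × ℕ × ℕ) (K : ℕ) (idx : Option Q → ℕ) : Set ℤ :=
  {M | ∃ (o : Option Q) (N : ℤ), M = N * K + idx o ∧ Halt ins o N.natAbs}

theorem rr_iff (hK : ∀ o, idx o < K) (hi : Function.Injective idx) (o : Option Q) (N : ℤ) :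
    RR K (idx o) (io (SS ins K idx) (.of 0)) (io _ (.of 1)) (io _ (.of 2))
      (io _ (.of 0) ^ N) ↔ Halt ins o N.natAbs := by
  have e : uu (io (SS ins K idx) (.of 1)) (io _ (.of 2))
      ((io _ (.of 0) ^ N) ^ K * io _ (.of 0) ^ idx o) = io _ (u (N * K + idx o)) := by
    simp only [u, uu, map_mul, map_inv, map_zpow, map_pow, zpow_add, zpow_mul, zpow_natCast]
  rw [RR, e, pp_iff]
  constructor
  · rintro ⟨o', N', h1, h2⟩
    have h3 := hK o
    have h4 := hK o'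
    have h5 : N = N' := by
      rcases lt_trichotomy N N' with h | h | h
      · exfalso; nlinarith
      · exact h
      · exfalso; nlinarith
    subst h5
    rwa [hi (show idx o = idx o' by omega)]
  · exact fun h => ⟨o, N, rfl, h⟩

theorem ax_model (hK : ∀ o, idx o < K) (hi : Function.Injective idx) :
    Ax ins K idx (io (SS ins K idx) (.of 0)) (io _ (.of 1)) (io _ (.of 2)) := by
  intro x hx
  obtain ⟨m, rfl⟩ := cent_a x hx
  refine ⟨(rr_iff hK hi _ _).2 (.stop _), fun ⟨s, β⟩ => ?_⟩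
  unfold Rule
  dsimp only
  split_ifs with h0 h1
  · rw [← zpow_natCast, ← zpow_mul, rr_iff hK hi, rr_iff hK hi]
    refine fun h => .step β ?_ h
    rw [ok, if_pos h0, Int.natAbs_mul, Int.natAbs_natCast, mul_comm]
  · rw [← zpow_natCast, ← zpow_mul, rr_iff hK hi, rr_iff hK hi]
    refine fun h => .step β ?_ h
    rw [ok, if_neg h0, if_pos h1, Int.natAbs_mul, Int.natAbs_natCast, mul_comm]
  · intro r hr
    rw [← zpow_natCast, ← zpow_natCast, ← zpow_mul, ← zpow_add, rr_iff hK hi, rr_iff hK hi]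
    refine fun h => .step β ?_ h
    rw [ok, if_neg h0, if_neg h1]
    refine ⟨rfl, fun hd => ?_⟩
    rw [← Int.natCast_dvd, dvd_add_right (dvd_mul_left _ _), Int.natCast_dvd_natCast] at hd
    rw [List.mem_range'_1] at hr
    have := Nat.le_of_dvd (by omega) hd
    omega

end machine

section sent

theorem Fm.Bd.mono : ∀ {φ : Fm} {m n : ℕ}, φ.Bd m → m ≤ n → φ.Bd n
  | .eq _ _, _, _, h, e => fun i hi => (h i hi).trans_le e
  | .neg φ, _, _, h, e => Fm.Bd.mono (φ := φ) h e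
  | .and _ _, _, _, h, e => ⟨h.1.mono e, h.2.mono e⟩
  | .all φ, _, _, h, e => Fm.Bd.mono (φ := φ) h (Nat.succ_le_succ e)

theorem Fm.exists_bd : ∀ φ : Fm, ∃ n, φ.Bd n
  | .eq u v => by
    refine ⟨((u ++ v).map Prod.fst).sum + 1, fun i hi => Nat.lt_succ_of_le ?_⟩
    exact List.le_sum_of_mem (List.mem_map.2 ⟨_, hi, rfl⟩)
  | .neg φ => φ.exists_bd
  | .and φ ψ => by
    obtain ⟨m, hm⟩ := φ.exists_bd
    obtain ⟨n, hn⟩ := ψ.exists_bd
    exact ⟨m + n, hm.mono (by omega), hn.mono (by omega)⟩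
  | .all φ => by
    obtain ⟨m, hm⟩ := φ.exists_bd
    exact ⟨m, hm.mono (by omega)⟩

def allN : ℕ → Fm → Fm
  | 0, φ => φ
  | n + 1, φ => allN n φ.all

theorem allN_bd : ∀ (n k : ℕ) (φ : Fm), φ.Bd (k + n) → (allN n φ).Bd k
  | 0, _, _, h => h
  | n + 1, k, φ, h => allN_bd n k φ.all h

theorem allN_sat {G : Type} [Group G] :
    ∀ (n : ℕ) (φ : Fm), (∀ ρ : ℕ → G, φ.Sat ρ) → ∀ ρ : ℕ → G, (allN n φ).Sat ρ
  | 0, _, h => h
  | n + 1, φ, h => allN_sat n φ.all fun _ _ => h _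

theorem allN_sat' {G : Type} [Group G] :
    ∀ (n : ℕ) (φ : Fm) (ρ : ℕ → G), (allN n φ).Sat ρ → ∃ ρ : ℕ → G, φ.Sat ρ
  | 0, _, ρ, h => ⟨ρ, h⟩
  | n + 1, φ, ρ, h => by
    obtain ⟨ρ', h⟩ := allN_sat' n φ.all ρ h
    exact ⟨_, h 1⟩

theorem allN_code : ∀ (n : ℕ) {F : ℕ → Fm}, (Primrec fun m => (F m).code) →
    Primrec fun m => (allN n (F m)).code
  | 0, _, h => h
  | n + 1, F, h => allN_code n (F := fun m => (F m).all)
      (Primrec₂.natPair.comp (.const 3) h)

theorem Fm.code_inj : ∀ {φ ψ : Fm}, φ.code = ψ.code → φ = ψ := by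
  intro φ
  induction φ with
  | eq u v =>
    intro ψ h
    cases ψ <;> simp only [Fm.code, Nat.pair_eq_pair] at h <;> try omega
    obtain ⟨rfl, rfl⟩ := Prod.mk.inj (Encodable.encode_injective h.2)
    rfl
  | neg φ ih =>
    intro ψ h
    cases ψ <;> simp only [Fm.code, Nat.pair_eq_pair] at h <;> try omega
    rw [ih h.2]
  | and φ φ' ih ih' =>
    intro ψ h
    cases ψ <;> simp only [Fm.code, Nat.pair_eq_pair] at h <;> try omega
    rw [ih h.2.1, ih' h.2.2]
  | all φ ih =>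
    intro ψ h
    cases ψ <;> simp only [Fm.code, Nat.pair_eq_pair] at h <;> try omega
    rw [ih h.2]

theorem undec : ¬ ComputablePred Theory := by
  obtain ⟨Q, hQ, ins, q0, hu⟩ := exists_undec
  obtain ⟨K, ⟨e⟩⟩ := Finite.exists_equiv_fin (Option Q)
  let idx : Option Q → ℕ := fun o => e o
  have hK : ∀ o, idx o < K := fun o => (e o).2
  have hi : Function.Injective idx := fun o o' h => e.injective (Fin.ext h)
  obtain ⟨ψ, hψ⟩ := Df.psi ins K idx (some q0)
  obtain ⟨B, hB⟩ := ψ.exists_bd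
  let F : ℕ → Fm := fun n => .neg (.and (.eq [(0, true)]
    ((List.range (2 ^ n)).map fun _ => (1, true))) (.neg ψ))
  have hF : ∀ n (G : Type) [Group G] (ρ : ℕ → G), (F n).Sat ρ ↔ (ρ 0 = ρ 1 ^ (2 ^ n) →
      Ax ins K idx (ρ 1) (ρ 2) (ρ 3) → RR K (idx (some q0)) (ρ 1) (ρ 2) (ρ 3) (ρ 0)) := by
    intro n G _ ρ
    simp [F, Fm.Sat, hψ, ev, List.map_map, Function.comp_def]
  have key : ∀ n, Theory (allN B (F n).all.all.all.all).code ↔ Halt ins (some q0) (2 ^ n) := by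
    intro n
    constructor
    · rintro ⟨φ, h1, -, h3⟩
      rw [Fm.code_inj h1] at h3
      obtain ⟨ρ, hρ⟩ := allN_sat' _ _ _ (h3 (GG (SS ins K idx)) (actsFreely _ _))
      have := (hF n _ _).1 (hρ (io _ (.of 2)) (io _ (.of 1)) (io _ (.of 0))
        (io _ (.of 0) ^ (2 ^ n))) rfl (ax_model hK hi)
      have h4 := (rr_iff (ins := ins) hK hi (some q0) ((2 ^ n : ℕ) : ℤ)).1 (by
        rw [zpow_natCast]; exact this)
      rwa [Int.natAbs_natCast] at h4
    · intro h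
      refine ⟨_, rfl, allN_bd _ _ _ ⟨fun i hi => ?_, hB.mono (by omega)⟩, fun G _ _ =>
        allN_sat B (F n).all.all.all.all (fun ρ c b a x => (hF n _ _).2 fun e hA => ?_) _⟩
      · simp only [List.cons_append, List.nil_append, List.mem_cons, List.mem_map] at hi
        rcases hi with rfl | ⟨_, -, rfl⟩ <;> omega
      · rw [e]; exact complete hA h
  have hp : Primrec fun n => (allN B (F n).all.all.all.all).code := by
    refine allN_code B (F := fun n => (F n).all.all.all.all) ?_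
    have h2 : Primrec fun n : ℕ => 2 ^ n :=
      (Primrec₂.unpaired'.1 Nat.Primrec.pow).comp (.const 2) .id
    have h3 : Primrec fun n : ℕ => (List.range (2 ^ n)).map fun _ => ((1, true) : ℕ × Bool) :=
      Primrec.list_map (Primrec.list_range.comp h2) (Primrec.const _).to₂
    exact Primrec₂.natPair.comp (.const 3) <| Primrec₂.natPair.comp (.const 3) <|
      Primrec₂.natPair.comp (.const 3) <| Primrec₂.natPair.comp (.const 3) <|
      Primrec₂.natPair.comp (.const 1) <| Primrec₂.natPair.comp (.const 2) <|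
      Primrec₂.natPair.comp (Primrec₂.natPair.comp (.const 0)
        (Primrec.encode.comp ((Primrec.const _).pair h3))) (.const _)
  rintro ⟨d, hd⟩
  exact hu (ComputablePred.of_eq ⟨fun n => d _, hd.comp hp.to_comp⟩ key)

end sent

end Pool.Agent.H52.TF
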