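import Mathlib

/-! Groups acting freely on Lambda-trees and first-order sentences in the language of groups. -/

set_option autoImplicit false

namespace Pool.Agent.H52.TF

section tree

variable {Λ X : Type} [AddCommGroup Λ] [LinearOrder Λ]

/-- `S` is a segment with endpoints `x`, `y`: the image of an isometric embedding of a closed
interval `[a,b]` of `Λ` sending `a` to `x` and `b` to `y`. -/
def Seg (d : X → X → Λ) (x y : X) (S : Set X) : Prop :=
  ∃ (a b : Λ) (φ : Λ → X), a ≤ b ∧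
    (∀ s ∈ Set.Icc a b, ∀ t ∈ Set.Icc a b, d (φ s) (φ t) = |s - t|) ∧
    φ a = x ∧ φ b = y ∧ S = φ '' Set.Icc a b

/-- `S` is a segment. -/
def IsSeg (d : X → X → Λ) (S : Set X) : Prop := ∃ x y, Seg d x y S

/-- `S` is a segment having `x` as an endpoint. -/
def EndOf (d : X → X → Λ) (x : X) (S : Set X) : Prop := ∃ y, Seg d x y S ∨ Seg d y x S

/-- `(X, d)` is a (nonempty) `Λ`-tree. -/
structure IsTree (d : X → X → Λ) : Prop where
  nonempty : Nonempty X
  nonneg : ∀ x y, 0 ≤ d x y
  eq_zero : ∀ x y, d x y = 0 ↔ x = y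
  symm : ∀ x y, d x y = d y x
  tri : ∀ x y z, d x z ≤ d x y + d y z
  geodesic : ∀ x y, ∃ S, Seg d x y S
  inter : ∀ x S T, EndOf d x S → EndOf d x T → IsSeg d (S ∩ T)
  union : ∀ x S T, EndOf d x S → EndOf d x T → S ∩ T = {x} → IsSeg d (S ∪ T)

end tree

/-- `G` acts freely on a `Λ`-tree for some ordered abelian group `Λ`: by isometries, no
non-identity element fixes a point, and no element is an inversion (an element without fixed
point whose square has a fixed point). -/
def ActsFreely (G : Type) [Group G] : Prop :=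
  ∃ (Λ X : Type) (_ : AddCommGroup Λ) (_ : LinearOrder Λ) (_ : IsOrderedAddMonoid Λ)
    (d : X → X → Λ) (_ : MulAction G X), IsTree d ∧
    (∀ (g : G) (x y : X), d (g • x) (g • y) = d x y) ∧
    (∀ (g : G) (x : X), g • x = x → g = 1) ∧
    (∀ g : G, ¬ ((∀ x : X, g • x ≠ x) ∧ ∃ x : X, (g * g) • x = x))

/-- First-order formulas in the language of groups. A term is a word in variables (de Bruijn
indices) and their inverses (`false`); the empty word is `1`. -/
inductive Fm : Type
  | eq (u v : List (ℕ × Bool)) : Fm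
  | neg (φ : Fm) : Fm
  | and (φ ψ : Fm) : Fm
  | all (φ : Fm) : Fm

/-- All free variables are below `n`; sentences are the formulas with `Bd 0`. -/
def Fm.Bd : ℕ → Fm → Prop
  | n, .eq u v => ∀ p ∈ u ++ v, p.1 < n
  | n, .neg φ => φ.Bd n
  | n, .and φ ψ => φ.Bd n ∧ ψ.Bd n
  | n, .all φ => φ.Bd (n + 1)

/-- The valuation with a new variable `0`. -/
def push {G : Type} (t : G) (ρ : ℕ → G) : ℕ → G
  | 0 => t
  | n + 1 => ρ n

/-- The value of a term. -/
def ev {G : Type} [Group G] (ρ : ℕ → G) (u : List (ℕ × Bool)) : G :=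
  (u.map fun p => if p.2 then ρ p.1 else (ρ p.1)⁻¹).prod

/-- Truth in the group `G`. -/
def Fm.Sat {G : Type} [Group G] : Fm → (ℕ → G) → Prop
  | .eq u v, ρ => ev ρ u = ev ρ v
  | .neg φ, ρ => ¬ φ.Sat ρ
  | .and φ ψ, ρ => φ.Sat ρ ∧ ψ.Sat ρ
  | .all φ, ρ => ∀ t, φ.Sat (push t ρ)

/-- Goedel numbers. -/
def Fm.code : Fm → ℕ
  | .eq u v => Nat.pair 0 (Encodable.encode (u, v))
  | .neg φ => Nat.pair 1 φ.code
  | .and φ ψ => Nat.pair 2 (Nat.pair φ.code ψ.code)
  | .all φ => Nat.pair 3 φ.code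

/-- `n` is the Goedel number of a sentence true in every group acting freely on some
`Λ`-tree. -/
def Theory (n : ℕ) : Prop :=
  ∃ φ : Fm, φ.code = n ∧ φ.Bd 0 ∧
    ∀ (G : Type) [Group G], ActsFreely G → φ.Sat (G := G) fun _ => 1

end Pool.Agent.H52.TF
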