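import Mathlib

namespace Pool.Agent.H52.TM1

open Set Filter Topology

noncomputable def ph (s : ℝ) (b : Bool) (y : ℝ) : ℝ := if b then 1 - y / s else y / s

noncomputable def back (s : ℝ) (w : ℕ → Bool) (N : ℕ) (y : ℝ) : ℕ → ℝ
  | 0 => y
  | j + 1 => ph s (w (N - (j + 1))) (back s w N y j)

noncomputable def z (s : ℝ) (w : ℕ → Bool) (N : ℕ) (y : ℝ) (k : ℕ) : ℝ := back s w N y (N - k)

lemma ph_t (s y : ℝ) : ph s true y = 1 - y / s := by simp [ph]
lemma ph_f (s y : ℝ) : ph s false y = y / s := by simp [ph]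

lemma z_N (s : ℝ) (w : ℕ → Bool) (N : ℕ) (y : ℝ) : z s w N y N = y := by simp [z, back]

lemma z_step (s : ℝ) (w : ℕ → Bool) {N k : ℕ} (y : ℝ) (hk : k < N) :
    z s w N y k = ph s (w k) (z s w N y (k + 1)) := by
  unfold z
  have h : N - k = (N - (k + 1)) + 1 := by omega
  rw [h, back]
  congr 2
  omega

lemma ph_mem {s : ℝ} (hs : 1 ≤ s) (b : Bool) {y : ℝ} (h0 : 0 ≤ y) (h1 : y ≤ 1) :
    0 ≤ ph s b y ∧ ph s b y ≤ 1 := by
  have hs0 : 0 < s := by linarith
  have a : 0 ≤ y / s := div_nonneg h0 hs0.le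
  have c : y / s ≤ 1 := by rw [div_le_one hs0]; linarith
  cases b
  · rw [ph_f]; exact ⟨a, c⟩
  · rw [ph_t]; constructor <;> linarith

lemma back_mem {s : ℝ} (hs : 1 ≤ s) (w : ℕ → Bool) (N : ℕ) {y : ℝ} (h0 : 0 ≤ y) (h1 : y ≤ 1)
    (j : ℕ) : 0 ≤ back s w N y j ∧ back s w N y j ≤ 1 := by
  induction j with
  | zero => exact ⟨h0, h1⟩
  | succ j ih => exact ph_mem hs _ ih.1 ih.2

lemma z_mem {s : ℝ} (hs : 1 ≤ s) (w : ℕ → Bool) (N : ℕ) {y : ℝ} (h0 : 0 ≤ y) (h1 : y ≤ 1)
    (k : ℕ) : 0 ≤ z s w N y k ∧ z s w N y k ≤ 1 := back_mem hs w N h0 h1 _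

lemma ph_lip {s : ℝ} (hs : 0 < s) (b : Bool) (y y' : ℝ) :
    |ph s b y - ph s b y'| = |y - y'| / s := by
  cases b
  · rw [ph_f, ph_f, ← sub_div, abs_div, abs_of_pos hs]
  · rw [ph_t, ph_t]
    have : 1 - y / s - (1 - y' / s) = -((y - y') / s) := by ring
    rw [this, abs_neg, abs_div, abs_of_pos hs]

lemma back_lip {s : ℝ} (hs : 1 ≤ s) (w : ℕ → Bool) (N : ℕ) (y y' : ℝ) (j : ℕ) :
    |back s w N y j - back s w N y' j| ≤ |y - y'| := by
  induction j with
  | zero => exact le_rfl
  | succ j ih =>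
    simp only [back]
    rw [ph_lip (by linarith)]
    exact (div_le_self (abs_nonneg _) hs).trans ih

lemma z_dec {s : ℝ} (hs : 1 < s) (w : ℕ → Bool) {N k : ℕ} (hk : k < N) {y y' : ℝ} (h : y < y') :
    z s w N y' k - y' < z s w N y k - y := by
  have h1 : |z s w N y' k - z s w N y k| ≤ |y' - y| / s := by
    rw [z_step s w y' hk, z_step s w y hk, ph_lip (by linarith)]
    exact div_le_div_of_nonneg_right (back_lip hs.le w N y' y _) (by linarith)
  have h2 : |y' - y| / s < y' - y := by
    rw [abs_of_pos (by linarith)]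
    exact div_lt_self (by linarith) hs
  have h3 := le_abs_self (z s w N y' k - z s w N y k)
  linarith

lemma back_cont (s : ℝ) (w : ℕ → Bool) (N j : ℕ) : Continuous fun y => back s w N y j := by
  induction j with
  | zero => exact continuous_id
  | succ j ih =>
    simp only [back]
    cases w (N - (j + 1))
    · simp only [ph_f]; exact ih.div_const _
    · simp only [ph_t]; exact continuous_const.sub (ih.div_const _)

lemma z_cont (s : ℝ) (w : ℕ → Bool) (N k : ℕ) : Continuous fun y => z s w N y k :=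
  back_cont s w N _

lemma exists_fix {s : ℝ} (hs : 1 ≤ s) (w : ℕ → Bool) (N k : ℕ) :
    ∃ p, 0 ≤ p ∧ p ≤ 1 ∧ z s w N p k = p := by
  have hc : ContinuousOn (fun y => z s w N y k - y) (Icc 0 1) :=
    ((z_cont s w N k).sub continuous_id).continuousOn
  have h0 := z_mem hs w N (le_refl 0) zero_le_one k
  have h1 := z_mem hs w N zero_le_one (le_refl 1) k
  obtain ⟨p, hp, hp0⟩ := intermediate_value_Icc' zero_le_one hc
    (show (0 : ℝ) ∈ Icc (z s w N 1 k - 1) (z s w N 0 k - 0) from ⟨by linarith [h1.2], by linarith [h0.1]⟩)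
  exact ⟨p, hp.1, hp.2, by simpa [sub_eq_zero] using hp0⟩

lemma z_run {s : ℝ} (hs : 0 < s) (w : ℕ → Bool) {N k l : ℕ} (y : ℝ) (hkl : k ≤ l) (hl : l ≤ N)
    (hw : ∀ i, k ≤ i → i < l → w i = false) :
    z s w N y k = z s w N y l / s ^ (l - k) := by
  induction l, hkl using Nat.le_induction with
  | base => simp
  | succ l hkl ih =>
    rw [ih (by omega) (fun i h1 h2 => hw i h1 (by omega)), z_step s w y (show l < N by omega),
      hw l hkl (by omega), ph_f, show l + 1 - k = (l - k) + 1 by omega, pow_succ]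
    field_simp

lemma adm {s : ℝ} (hs : 1 < s) (w : ℕ → Bool) {N a c : ℕ} (ha : a < N) (hc : c ≤ a)
    (hcond : s ^ (N - 1) * (2 - s) < 1) {p : ℝ} (h0 : 0 ≤ p) (h1 : p ≤ 1)
    (hp : z s w N p a = p)
    (hR : (∃ i, a ≤ i ∧ i < N ∧ w i = true) ∨ ∀ i, c ≤ i → i < N → w i = false) :
    ∀ k, c ≤ k → k ≤ N → z s w N p k < s / 2 := by
  classical
  have hs0 : 0 < s := by linarith
  obtain ⟨k0, hk0, hmax⟩ := (Finset.Ico c N).exists_max_image (fun k => z s w N p k)
    ⟨a, Finset.mem_Ico.2 ⟨hc, ha⟩⟩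
  rw [Finset.mem_Ico] at hk0
  set M := z s w N p k0 with hM
  have hle : ∀ k, c ≤ k → k ≤ N → z s w N p k ≤ M := by
    intro k h1 h2
    rcases h2.lt_or_eq with h2 | h2
    · exact hmax k (Finset.mem_Ico.2 ⟨h1, h2⟩)
    · rw [h2, z_N, ← hp]; exact hmax a (Finset.mem_Ico.2 ⟨hc, ha⟩)
  suffices hMs : M < s / 2 from fun k h1 h2 => (hle k h1 h2).trans_lt hMs
  by_contra hMs
  push Not at hMs
  have hM1 : M ≤ 1 := (z_mem hs.le w N h0 h1 k0).2
  have hMpos : 0 < M := by linarith
  have hw0 : w k0 = true := by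
    by_contra hw
    have hw' : w k0 = false := by simpa using hw
    have e := z_step s w p hk0.2
    rw [hw', ph_f, ← hM] at e
    have h2 := hle (k0 + 1) (by omega) (by omega)
    have h3 : z s w N p (k0 + 1) / s ≤ M / s := div_le_div_of_nonneg_right h2 hs0.le
    have h4 : M / s < M := div_lt_self hMpos hs
    linarith
  have eM : M = 1 - z s w N p (k0 + 1) / s := by
    have e := z_step s w p hk0.2
    rwa [hw0, ph_t, ← hM] at e
  have hRlow : ∀ l, c ≤ l → l < N → w l = true → 1 - M / s ≤ z s w N p l := by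
    intro l h1 h2 h3
    have e := z_step s w p h2
    rw [h3, ph_t] at e
    have h4 : z s w N p (l + 1) / s ≤ M / s :=
      div_le_div_of_nonneg_right (hle (l + 1) (by omega) (by omega)) hs0.le
    linarith
  have hP : 1 ≤ s ^ (N - 1) := one_le_pow₀ hs.le
  have key : ∀ (l e : ℕ), c ≤ l → l < N → w l = true → e ≤ N - 1 →
      M = 1 - z s w N p l / s ^ e → False := by
    intro l e h1 h2 h3 h4 h5
    have h6 := hRlow l h1 h2 h3
    have h7 : 0 ≤ 1 - M / s := by
      have : M / s ≤ 1 := by rw [div_le_one hs0]; linarith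
      linarith
    have h8 : s ^ e ≤ s ^ (N - 1) := pow_le_pow_right₀ hs.le h4
    have hpe : 0 < s ^ e := pow_pos hs0 e
    have h9 : (1 - M / s) / s ^ (N - 1) ≤ z s w N p l / s ^ e :=
      div_le_div₀ (by linarith) h6 hpe h8
    have h10 : (1 - M / s) / s ^ (N - 1) ≤ 1 - M := by linarith
    rw [div_le_iff₀ (by linarith)] at h10
    have h11 : s - M ≤ (1 - M) * s ^ (N - 1) * s := by
      have := mul_le_mul_of_nonneg_right h10 hs0.le
      have e2 : (1 - M / s) * s = s - M := by field_simp
      linarith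
    set P := s ^ (N - 1)
    have h12 : 0 ≤ (M - s / 2) * (P * s - 1) := mul_nonneg (by linarith) (by nlinarith)
    nlinarith
  by_cases hex : ∃ l, k0 < l ∧ l < N ∧ w l = true
  · have hl := Nat.find_spec hex
    set l := Nat.find hex
    have hrun : ∀ i, k0 + 1 ≤ i → i < l → w i = false := by
      intro i h1 h2
      have := Nat.find_min hex h2
      by_contra hw
      exact this ⟨by omega, by omega, by simpa using hw⟩
    have e := z_run hs0 w p (show k0 + 1 ≤ l by omega) hl.2.1.le hrun
    refine key l (l - k0) (by omega) hl.2.1 hl.2.2 (by omega) ?_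
    rw [eM, e, show l - k0 = (l - (k0 + 1)) + 1 by omega, pow_succ]
    field_simp
  · have hno : ∀ i, k0 + 1 ≤ i → i < N → w i = false := by
      intro i h1 h2
      by_contra hw
      exact hex ⟨i, by omega, h2, by simpa using hw⟩
    rcases hR with hR | hR
    · have hr := Nat.find_spec hR
      set r := Nat.find hR
      have hrun : ∀ i, a ≤ i → i < r → w i = false := by
        intro i h1 h2
        have := Nat.find_min hR h2
        by_contra hw
        exact this ⟨h1, by omega, by simpa using hw⟩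
      have hrk : r ≤ k0 := by
        by_contra hh
        have := hno r (by omega) hr.2.1
        rw [hr.2.2] at this
        exact absurd this (by simp)
      have e1 := z_run hs0 w p (show k0 + 1 ≤ N by omega) le_rfl hno
      have e2 := z_run hs0 w p hr.1 hr.2.1.le hrun
      rw [z_N] at e1
      rw [hp] at e2
      have e3 : M = 1 - z s w N p r / s ^ (N - k0 + (r - a)) := by
        rw [eM, e1]
        conv_lhs => rw [e2]
        rw [show N - k0 + (r - a) = (r - a) + (N - (k0 + 1)) + 1 by omega, pow_succ, pow_add]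
        field_simp
      by_cases hE : N - k0 + (r - a) ≤ N - 1
      · exact key r _ (by omega) hr.2.1 hr.2.2 hE e3
      · have hrk' : r = k0 := by omega
        have hN : N - k0 + (r - a) = (N - 1) + 1 := by omega
        rw [hN, hrk', ← hM, pow_succ] at e3
        set P := s ^ (N - 1)
        have hPs : 0 < P * s := by positivity
        have e4 : M * (P * s) = P * s - M := by
          conv_lhs => rw [e3]
          field_simp
        have h12 : 0 ≤ (M - s / 2) * (P * s + 1) := mul_nonneg (by linarith) (by linarith)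
        nlinarith
    · have := hR k0 hk0.1 hk0.2
      rw [hw0] at this
      exact absurd this (by simp)

lemma cmp {α : Type} (S : Set α) (σ : α → α) (hσ : ∀ a ∈ S, σ a ∈ S) (u : α → Bool)
    (q r : α → ℝ) {s : ℝ} (hs : 0 < s)
    (hq : ∀ a ∈ S, q a = ph 2 (u a) (q (σ a))) (hr : ∀ a ∈ S, r a = ph s (u a) (r (σ a)))
    (hq01 : ∀ a ∈ S, 0 ≤ q a ∧ q a ≤ 1) (hrs : ∀ a ∈ S, r a < s / 2) :
    ∀ m : ℕ, ∀ a ∈ S, ∀ b ∈ S, (1 / 2 : ℝ) ^ m < q b - q a → r a < r b := by
  intro m
  induction m with
  | zero =>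
    intro a ha b hb h
    have := hq01 a ha
    have := hq01 b hb
    simp at h
    linarith
  | succ m ih =>
    intro a ha b hb h
    have e1 := hq a ha
    have e2 := hq b hb
    have e3 := hr a ha
    have e4 := hr b hb
    have f1 := hq01 _ (hσ a ha)
    have f2 := hq01 _ (hσ b hb)
    have g1 : r (σ a) / s < 1 / 2 := by
      rw [div_lt_iff₀ hs]; linarith [hrs _ (hσ a ha)]
    have g2 : r (σ b) / s < 1 / 2 := by
      rw [div_lt_iff₀ hs]; linarith [hrs _ (hσ b hb)]
    have hpos : (0 : ℝ) < (1 / 2) ^ m := by positivity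
    rw [pow_succ] at h
    cases hua : u a <;> cases hub : u b <;> rw [hua] at e1 e3 <;> rw [hub] at e2 e4 <;>
      simp only [ph_t, ph_f] at e1 e2 e3 e4
    · have := ih _ (hσ a ha) _ (hσ b hb) (by linarith)
      have := div_lt_div_of_pos_right this hs
      linarith
    · linarith
    · linarith
    · have := ih _ (hσ b hb) _ (hσ a ha) (by linarith)
      have := div_lt_div_of_pos_right this hs
      linarith

lemma order {s : ℝ} (hs : 0 < s) (w : ℕ → Bool) (N : ℕ) (x v : ℕ → ℝ)
    (hx : ∀ k < N, x k = ph 2 (w k) (x (k + 1))) (hv : ∀ k < N, v k = ph s (w k) (v (k + 1)))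
    (hx01 : ∀ k, 0 ≤ x k ∧ x k ≤ 1) (hvs : ∀ k, 1 ≤ k → k ≤ N → v k < s / 2)
    (hA : ∀ k < N, x k < x N → v k < v N) (hB : ∀ k < N, x N < x k → v N < v k) :
    ∀ m : ℕ, ∀ i ≤ N, ∀ j ≤ N, (N - i) + (N - j) ≤ m → x i < x j → v i < v j := by
  intro m
  induction m with
  | zero =>
    intro i hi j hj hm h
    have hiN : i = j := by omega
    subst hiN
    exact absurd h (lt_irrefl _)
  | succ m ih =>
    intro i hi j hj hm h
    rcases hi.lt_or_eq with hi | hi
    · rcases hj.lt_or_eq with hj | hj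
      · have e1 := hx i hi
        have e2 := hx j hj
        have e3 := hv i hi
        have e4 := hv j hj
        have f1 := hx01 (i + 1)
        have f2 := hx01 (j + 1)
        have g1 : v (i + 1) / s < 1 / 2 := by
          rw [div_lt_iff₀ hs]; linarith [hvs (i + 1) (by omega) (by omega)]
        have g2 : v (j + 1) / s < 1 / 2 := by
          rw [div_lt_iff₀ hs]; linarith [hvs (j + 1) (by omega) (by omega)]
        cases hua : w i <;> cases hub : w j <;> rw [hua] at e1 e3 <;> rw [hub] at e2 e4 <;>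
          simp only [ph_t, ph_f] at e1 e2 e3 e4
        · have := ih (i + 1) (by omega) (j + 1) (by omega) (by omega) (by linarith)
          have := div_lt_div_of_pos_right this hs
          linarith
        · linarith
        · linarith
        · have := ih (j + 1) (by omega) (i + 1) (by omega) (by omega) (by linarith)
          have := div_lt_div_of_pos_right this hs
          linarith
      · subst hj; exact hA i hi h
    · subst hi
      rcases hj.lt_or_eq with hj | hj
      · exact hB j hj h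
      · subst hj; exact absurd h (lt_irrefl _)

lemma fix_pos {s : ℝ} (hs : 1 < s) (w : ℕ → Bool) {N a : ℕ} {p : ℝ}
    (hp : z s w N p a = p) (hadm : ∀ k, a ≤ k → k ≤ N → z s w N p k < s / 2)
    (hR : ∃ i, a ≤ i ∧ i < N ∧ w i = true) : 0 < p := by
  classical
  have hs0 : 0 < s := by linarith
  have hr := Nat.find_spec hR
  set r := Nat.find hR
  have hrun : ∀ i, a ≤ i → i < r → w i = false := by
    intro i h1 h2
    have := Nat.find_min hR h2
    by_contra hw
    exact this ⟨h1, by omega, by simpa using hw⟩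
  have e2 := z_run hs0 w p hr.1 hr.2.1.le hrun
  have e := z_step s w p hr.2.1
  rw [hr.2.2, ph_t] at e
  have g1 : z s w N p (r + 1) / s < 1 / 2 := by
    rw [div_lt_iff₀ hs0]; linarith [hadm (r + 1) (by omega) (by omega)]
  rw [← hp, e2]
  exact div_pos (by linarith) (pow_pos hs0 _)

lemma fix_zero {s : ℝ} (hs : 1 < s) (w : ℕ → Bool) {N a : ℕ} (ha : a < N) {p : ℝ}
    (hp : z s w N p a = p) (hL : ∀ i, a ≤ i → i < N → w i = false) : p = 0 := by
  have hs0 : 0 < s := by linarith
  have e := z_run hs0 w p ha.le le_rfl hL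
  rw [hp, z_N, eq_div_iff (pow_pos hs0 _).ne'] at e
  have h1 : 1 < s ^ (N - a) := one_lt_pow₀ hs (by omega)
  have : p * (s ^ (N - a) - 1) = 0 := by linarith
  rcases mul_eq_zero.1 this with h | h
  · exact h
  · linarith

lemma realise {s : ℝ} (hs : 1 < s) (hs2 : s < 2) {N : ℕ} (hN : 0 < N)
    (hcond : s ^ (N - 1) * (2 - s) < 1) (w : ℕ → Bool) (x : ℕ → ℝ)
    (hx : ∀ k < N, x k = ph 2 (w k) (x (k + 1))) (hx01 : ∀ k, 0 ≤ x k ∧ x k ≤ 1) :
    ∃ y, 0 ≤ y ∧ (∀ k ≤ N, z s w N y k < s / 2) ∧
      ∀ i ≤ N, ∀ j ≤ N, x i < x j → z s w N y i < z s w N y j := by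
  classical
  have hs0 : 0 < s := by linarith
  choose p hp0 hp1 hp using fun k => exists_fix hs.le w N k
  choose P hP0 hP1 hP using fun k => exists_fix (show (1 : ℝ) ≤ 2 by norm_num) w N k
  have hxz : ∀ d k, k + d = N → x k = z 2 w N (x N) k := by
    intro d
    induction d with
    | zero => intro k hk; rw [show k = N by omega, z_N]
    | succ d ih => intro k hk; rw [z_step 2 w _ (by omega), hx k (by omega), ← ih (k + 1) (by omega)]
  have hxz' : ∀ k ≤ N, x k = z 2 w N (x N) k := fun k hk => hxz (N - k) k (by omega)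
  have adm1 : ∀ a < N, ∀ k, a ≤ k → k ≤ N → z s w N (p a) k < s / 2 := by
    intro a ha
    refine adm hs w ha le_rfl hcond (hp0 a) (hp1 a) (hp a) ?_
    by_cases h : ∃ i, a ≤ i ∧ i < N ∧ w i = true
    · exact Or.inl h
    · right
      intro i h1 h2
      by_contra hw
      exact h ⟨i, h1, h2, by simpa using hw⟩
  have hcmp : ∀ a < N, ∀ b < N, P a < P b → p a < p b := by
    intro a ha b hb hab
    obtain ⟨m, hm⟩ := exists_pow_lt_of_lt_one (show 0 < P b - P a by linarith)
      (show (1 / 2 : ℝ) < 1 by norm_num)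
    have key := cmp {t : ℕ × ℕ | t.1 ≤ t.2 ∧ t.2 < N}
      (fun t => (t.1, if t.2 + 1 < N then t.2 + 1 else t.1))
      (by
        rintro ⟨c, k⟩ ⟨h1, h2⟩
        simp only [mem_setOf_eq] at h1 h2 ⊢
        split_ifs <;> omega)
      (fun t => w t.2) (fun t => z 2 w N (P t.1) t.2) (fun t => z s w N (p t.1) t.2) hs0
      (by
        rintro ⟨c, k⟩ ⟨h1, h2⟩
        simp only at h1 h2 ⊢
        rw [z_step 2 w _ h2]
        split_ifs with h
        · rfl
        · rw [show k + 1 = N by omega, z_N, hP])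
      (by
        rintro ⟨c, k⟩ ⟨h1, h2⟩
        simp only at h1 h2 ⊢
        rw [z_step s w _ h2]
        split_ifs with h
        · rfl
        · rw [show k + 1 = N by omega, z_N, hp])
      (fun t _ => z_mem (by norm_num) w N (hP0 _) (hP1 _) _)
      (fun t ht => adm1 t.1 (ht.1.trans_lt ht.2) t.2 ht.1 ht.2.le)
      m (a, a) ⟨le_rfl, ha⟩ (b, b) ⟨le_rfl, hb⟩ (by simpa only [hP] using hm)
    simpa only [hp] using key
  have hPA : ∀ k < N, x k < x N → P k < x N := by
    intro k hk h
    by_contra hh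
    rcases (not_lt.1 hh).lt_or_eq with h2 | h2
    · have := z_dec (show (1 : ℝ) < 2 by norm_num) w hk h2
      rw [hP, ← hxz' k hk.le] at this
      linarith
    · have := hP k
      rw [← h2, ← hxz' k hk.le] at this
      linarith
  have hPB : ∀ k < N, x N < x k → x N < P k := by
    intro k hk h
    by_contra hh
    rcases (not_lt.1 hh).lt_or_eq with h2 | h2
    · have := z_dec (show (1 : ℝ) < 2 by norm_num) w hk h2
      rw [hP, ← hxz' k hk.le] at this
      linarith
    · have := hP k
      rw [h2, ← hxz' k hk.le] at this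
      linarith
  have hev : ∀ a, (∀ k ≤ N, z s w N (p a) k < s / 2) →
      ∀ᶠ y in 𝓝 (p a), ∀ k ∈ Finset.range (N + 1), z s w N y k < s / 2 := by
    intro a h
    rw [Filter.eventually_all_finset]
    intro k hk
    exact (z_cont s w N k).continuousAt.eventually_lt continuousAt_const
      (h k (by simpa [Nat.lt_succ_iff] using hk))
  have main : ∃ y, 0 ≤ y ∧ (∀ k ≤ N, z s w N y k < s / 2) ∧
      (∀ k < N, x k < x N → p k < y) ∧ (∀ k < N, x N < x k → y < p k) := by
    by_cases hB : ∃ b, b < N ∧ x N < x b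
    · obtain ⟨b, hb, hmin⟩ := ((Finset.range N).filter fun k => x N < x k).exists_min_image p
        (by obtain ⟨b, h1, h2⟩ := hB; exact ⟨b, by simp [h1, h2]⟩)
      simp only [Finset.mem_filter, Finset.mem_range] at hb hmin
      have hR : ∃ i, b ≤ i ∧ i < N ∧ w i = true := by
        by_contra hh
        have hL : ∀ i, b ≤ i → i < N → w i = false := by
          intro i h1 h2
          by_contra hw
          exact hh ⟨i, h1, h2, by simpa using hw⟩
        have := fix_zero (show (1 : ℝ) < 2 by norm_num) w hb.1 (hP b) hL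
        have h3 := hPB b hb.1 hb.2
        linarith [(hx01 N).1]
      have hpos := fix_pos hs w (hp b) (adm1 b hb.1) hR
      have e1 := hev b fun k hk =>
        adm hs w hb.1 (Nat.zero_le _) hcond (hp0 b) (hp1 b) (hp b) (Or.inl hR) k (Nat.zero_le _) hk
      have e2 : ∀ᶠ y in 𝓝 (p b), 0 < y := lt_mem_nhds hpos
      have e3 : ∀ᶠ y in 𝓝 (p b), ∀ k ∈ Finset.range N, x k < x N → p k < y := by
        rw [Filter.eventually_all_finset]
        intro k hk
        by_cases h : x k < x N
        · have hk' : k < N := by simpa using hk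
          have := hcmp k hk' b hb.1 ((hPA k hk' h).trans (hPB b hb.1 hb.2))
          filter_upwards [lt_mem_nhds this] with y hy _ using hy
        · exact Eventually.of_forall fun y hy => absurd hy h
      obtain ⟨y, ⟨⟨h1, h2⟩, h3⟩, h4⟩ :=
        ((((e1.and e2).and e3).filter_mono nhdsWithin_le_nhds).and
          (self_mem_nhdsWithin : Iio (p b) ∈ 𝓝[<] (p b))).exists
      refine ⟨y, h2.le, fun k hk => h1 k (by simp; omega), fun k hk => h3 k (by simpa using hk),
        fun k hk h => lt_of_lt_of_le h4 (hmin k ⟨hk, h⟩)⟩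
    · obtain ⟨a, ha, hmax⟩ := (Finset.range N).exists_max_image p ⟨0, by simpa using hN⟩
      simp only [Finset.mem_range] at ha hmax
      have hR : (∃ i, a ≤ i ∧ i < N ∧ w i = true) ∨ ∀ i, 0 ≤ i → i < N → w i = false := by
        by_cases h : ∃ i, a ≤ i ∧ i < N ∧ w i = true
        · exact Or.inl h
        · right
          have hL : ∀ i, a ≤ i → i < N → w i = false := by
            intro i h1 h2
            by_contra hw
            exact h ⟨i, h1, h2, by simpa using hw⟩
          have h0 := fix_zero hs w ha (hp a) hL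
          intro i _ h2
          by_contra hw
          have := fix_pos hs w (hp i) (adm1 i h2) ⟨i, le_rfl, h2, by simpa using hw⟩
          linarith [hmax i h2]
      have e1 := hev a fun k hk =>
        adm hs w ha (Nat.zero_le _) hcond (hp0 a) (hp1 a) (hp a) hR k (Nat.zero_le _) hk
      obtain ⟨y, h1, h4⟩ := ((e1.filter_mono nhdsWithin_le_nhds).and
          (self_mem_nhdsWithin : Ioi (p a) ∈ 𝓝[>] (p a))).exists
      refine ⟨y, (hp0 a).trans (le_of_lt h4), fun k hk => h1 k (by simp; omega),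
        fun k hk _ => lt_of_le_of_lt (hmax k hk) h4, fun k hk h => absurd ⟨k, hk, h⟩ hB⟩
  obtain ⟨y, hy0, hy1, hy2, hy3⟩ := main
  refine ⟨y, hy0, hy1, fun i hi j hj h => ?_⟩
  refine order hs0 w N x (z s w N y) hx (fun k hk => z_step s w y hk) hx01
    (fun k _ hk => hy1 k hk) ?_ ?_ _ i hi j hj le_rfl h
  · intro k hk h
    have := z_dec hs w hk (hy2 k hk h)
    rw [hp] at this
    rw [z_N]; linarith
  · intro k hk h
    have := z_dec hs w hk (hy3 k hk h)
    rw [hp] at this
    rw [z_N]; linarith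

end Pool.Agent.H52.TM1
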