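import Mathlib

namespace Pool.Agent.H52.UT1
open Matrix

lemma diag_mul {n : ℕ} {A B : Matrix (Fin n) (Fin n) ℤ} (hA : ∀ i j, j < i → A i j = 0)
    (hB : ∀ i j, j < i → B i j = 0) (i : Fin n) : (A * B) i i = A i i * B i i := by
  rw [mul_apply]
  apply Finset.sum_eq_single i
  · intro k _ hk
    rcases lt_or_gt_of_ne hk with h | h
    · rw [hA i k h, zero_mul]
    · rw [hB k i h, mul_zero]
  · simp

lemma inv_tri {n : ℕ} (g : GL (Fin n) ℤ) (h : ∀ i j, j < i → (g : Matrix (Fin n) (Fin n) ℤ) i j = 0) :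
    ∀ i j, j < i → ((g⁻¹ : GL (Fin n) ℤ) : Matrix (Fin n) (Fin n) ℤ) i j = 0 := by
  have := g.invertible
  have h1 : BlockTriangular (g : Matrix (Fin n) (Fin n) ℤ) id := fun i j hij => h i j hij
  have h2 := blockTriangular_inv_of_blockTriangular h1
  intro i j hij
  rw [Matrix.coe_units_inv]
  exact h2 hij

/-- `UT_n(ℤ)`: upper triangular integer matrices with all diagonal entries `1`. -/
def UT (n : ℕ) : Subgroup (GL (Fin n) ℤ) where
  carrier := {g | (∀ i j, j < i → (g : Matrix (Fin n) (Fin n) ℤ) i j = 0) ∧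
    ∀ i, (g : Matrix (Fin n) (Fin n) ℤ) i i = 1}
  one_mem' := ⟨fun i j h => by simp [one_apply_ne h.ne'], fun i => by simp⟩
  mul_mem' := by
    rintro a b ⟨ha, ha'⟩ ⟨hb, hb'⟩
    refine ⟨fun i j h => ?_, fun i => ?_⟩
    · have h1 : BlockTriangular (a : Matrix (Fin n) (Fin n) ℤ) id := fun i j hij => ha i j hij
      have h2 : BlockTriangular (b : Matrix (Fin n) (Fin n) ℤ) id := fun i j hij => hb i j hij
      exact (h1.mul h2) h
    · rw [Units.val_mul, diag_mul ha hb, ha', hb', mul_one]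
  inv_mem' := by
    rintro a ⟨ha, ha'⟩
    refine ⟨inv_tri a ha, fun i => ?_⟩
    have := diag_mul ha (inv_tri a ha) i
    rw [← Units.val_mul, mul_inv_cancel, ha', one_mul] at this
    simpa using this.symm

/-- Word length with respect to a generating set `S`. -/
noncomputable def wordLength {G : Type*} [Group G] (S : Set G) (g : G) : ℕ :=
  sInf {k | ∃ l : List G, (∀ x ∈ l, x ∈ S ∨ x⁻¹ ∈ S) ∧ l.prod = g ∧ l.length = k}

/-- `H` is undistorted in `K` (for some choice of finite generating sets). -/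
def Undistorted {K : Type*} [Group K] (H : Subgroup K) : Prop :=
  ∃ (S : Finset H) (T : Finset K), Subgroup.closure (S : Set H) = ⊤ ∧
    Subgroup.closure (T : Set K) = ⊤ ∧ ∃ C : ℝ, 1 ≤ C ∧
      ∀ h : H, (wordLength (S : Set H) h : ℝ) ≤ C * wordLength (T : Set K) (h : K) + C

section wl
variable {G : Type*} [Group G] {S : Set G}

lemma wl_le (l : List G) (h : ∀ x ∈ l, x ∈ S ∨ x⁻¹ ∈ S) : wordLength S l.prod ≤ l.length :=
  Nat.sInf_le ⟨l, h, rfl, rfl⟩

lemma wl_ex (hS : Subgroup.closure S = ⊤) (g : G) :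
    ∃ l : List G, (∀ x ∈ l, x ∈ S ∨ x⁻¹ ∈ S) ∧ l.prod = g ∧ l.length = wordLength S g := by
  have hg : g ∈ (Subgroup.closure S).toSubmonoid := by rw [hS]; trivial
  rw [Subgroup.closure_toSubmonoid] at hg
  obtain ⟨l, hl, hp⟩ := Submonoid.exists_list_of_mem_closure hg
  have : {k | ∃ l : List G, (∀ x ∈ l, x ∈ S ∨ x⁻¹ ∈ S) ∧ l.prod = g ∧ l.length = k}.Nonempty :=
    ⟨_, l, fun x hx => by simpa using hl x hx, hp, rfl⟩
  exact Nat.sInf_mem this

lemma wl_one : wordLength S (1 : G) = 0 := Nat.le_zero.mp (wl_le [] (by simp))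

lemma wl_mul (hS : Subgroup.closure S = ⊤) (g h : G) :
    wordLength S (g * h) ≤ wordLength S g + wordLength S h := by
  obtain ⟨l, hl, rfl, e⟩ := wl_ex hS g
  obtain ⟨l', hl', rfl, e'⟩ := wl_ex hS h
  rw [← e, ← e', ← List.prod_append, ← List.length_append]
  apply wl_le
  intro x hx
  rcases List.mem_append.mp hx with h | h
  exacts [hl x h, hl' x h]

lemma wl_inv (hS : Subgroup.closure S = ⊤) (g : G) : wordLength S g⁻¹ ≤ wordLength S g := by
  obtain ⟨l, hl, rfl, e⟩ := wl_ex hS g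
  rw [← e, List.prod_inv_reverse]
  refine (wl_le _ ?_).trans (by simp)
  intro x hx
  simp only [List.mem_reverse, List.mem_map] at hx
  obtain ⟨y, hy, rfl⟩ := hx
  rw [inv_inv]; exact (hl y hy).symm

lemma wl_pow (hS : Subgroup.closure S = ⊤) (g : G) (k : ℕ) :
    wordLength S (g ^ k) ≤ k * wordLength S g := by
  induction k with
  | zero => simp [wl_one]
  | succ k ih => rw [pow_succ]; refine (wl_mul hS _ _).trans ?_; nlinarith

lemma wl_zpow (hS : Subgroup.closure S = ⊤) (g : G) (z : ℤ) :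
    (wordLength S (g ^ z) : ℤ) ≤ |z| * wordLength S g := by
  obtain ⟨k, rfl | rfl⟩ := Int.eq_nat_or_neg z
  · rw [zpow_natCast, Nat.abs_cast]; exact_mod_cast wl_pow hS g k
  · rw [_root_.zpow_neg, zpow_natCast, abs_neg, Nat.abs_cast]
    exact_mod_cast (wl_inv hS _).trans (wl_pow hS g k)
end wl

/-- underlying matrix -/
def mat {n : ℕ} (g : UT n) : Matrix (Fin n) (Fin n) ℤ := ((g : GL (Fin n) ℤ) : Matrix (Fin n) (Fin n) ℤ)
lemma mat_mul {n : ℕ} (g h : UT n) : mat (g * h) = mat g * mat h := rfl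
lemma mat_one {n : ℕ} : mat (1 : UT n) = 1 := rfl
lemma mat_inj {n : ℕ} {g h : UT n} (e : mat g = mat h) : g = h := Subtype.ext (Units.ext e)
lemma mat_lo {n : ℕ} (g : UT n) {i j : Fin n} (h : j < i) : mat g i j = 0 := g.2.1 i j h
lemma mat_diag {n : ℕ} (g : UT n) (i : Fin n) : mat g i i = 1 := g.2.2 i

/-- elementary matrix -/
def el {n : ℕ} (i j : Fin n) (h : i < j) (c : ℤ) : UT n :=
  ⟨⟨transvection i j c, transvection i j (-c),
    by rw [transvection_mul_transvection_same _ _ h.ne]; simp,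
    by rw [transvection_mul_transvection_same _ _ h.ne]; simp⟩,
   fun a b hab => by
    have : ¬ (i = a ∧ j = b) := by rintro ⟨rfl, rfl⟩; exact lt_asymm h hab
    simp [transvection, one_apply_ne hab.ne', single, this],
   fun a => by
    have : ¬ (i = a ∧ j = a) := by rintro ⟨rfl, rfl⟩; exact lt_irrefl _ h
    simp [transvection, single, this]⟩

lemma mat_el {n : ℕ} (i j : Fin n) (h : i < j) (c : ℤ) : mat (el i j h c) = 1 + single i j c := rfl

lemma el_add {n : ℕ} (i j : Fin n) (h : i < j) (c d : ℤ) :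
    el i j h (c + d) = el i j h c * el i j h d :=
  mat_inj (transvection_mul_transvection_same _ _ h.ne c d).symm

lemma el_zpow {n : ℕ} (i j : Fin n) (h : i < j) (c : ℤ) : el i j h c = el i j h 1 ^ c := by
  have h0 : el i j h 0 = 1 := mat_inj (by simp [mat_el, mat_one])
  induction c using Int.induction_on with
  | zero => simpa using h0
  | succ k ih => rw [el_add, _root_.zpow_add_one, ← ih]
  | pred k ih =>
    rw [_root_.zpow_sub_one, ← ih, eq_mul_inv_iff_mul_eq, ← el_add]; congr 1; ring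

lemma el_comm {n : ℕ} (i k j : Fin n) (h : i < k) (h' : k < j) (a b : ℤ) :
    el i j (h.trans h') (a * b) = el i k h a * el k j h' b * (el i k h a)⁻¹ * (el k j h' b)⁻¹ := by
  rw [eq_mul_inv_iff_mul_eq, eq_mul_inv_iff_mul_eq]
  apply mat_inj
  have h1 : j ≠ k := h'.ne'
  have h2 : j ≠ i := (h.trans h').ne'
  simp only [mat_mul, mat_el, mul_add, add_mul, one_mul, mul_one, single_mul_single_same,
    single_mul_single_of_ne _ _ _ _ h1, single_mul_single_of_ne _ _ _ _ h2, add_zero]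
  abel

end Pool.Agent.H52.UT1
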