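import Mathlib

namespace Pool.Agent.H52.UT2

/-- The 5-dimensional integer Heisenberg group. -/
@[ext] structure H5 where
  a : ℤ
  b : ℤ
  c : ℤ
  d : ℤ
  z : ℤ

instance : Mul H5 := ⟨fun x y => ⟨x.a + y.a, x.b + y.b, x.c + y.c, x.d + y.d,
  x.z + y.z + x.a * y.b + x.c * y.d⟩⟩
instance : One H5 := ⟨⟨0, 0, 0, 0, 0⟩⟩
instance : Inv H5 := ⟨fun x => ⟨-x.a, -x.b, -x.c, -x.d, -x.z + x.a * x.b + x.c * x.d⟩⟩

@[simp] lemma mul_a (x y : H5) : (x * y).a = x.a + y.a := rfl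
@[simp] lemma mul_b (x y : H5) : (x * y).b = x.b + y.b := rfl
@[simp] lemma mul_c (x y : H5) : (x * y).c = x.c + y.c := rfl
@[simp] lemma mul_d (x y : H5) : (x * y).d = x.d + y.d := rfl
@[simp] lemma mul_z (x y : H5) : (x * y).z = x.z + y.z + x.a * y.b + x.c * y.d := rfl
@[simp] lemma one_a : (1 : H5).a = 0 := rfl
@[simp] lemma one_b : (1 : H5).b = 0 := rfl
@[simp] lemma one_c : (1 : H5).c = 0 := rfl
@[simp] lemma one_d : (1 : H5).d = 0 := rfl
@[simp] lemma one_z : (1 : H5).z = 0 := rfl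
@[simp] lemma inv_a (x : H5) : (x⁻¹).a = -x.a := rfl
@[simp] lemma inv_b (x : H5) : (x⁻¹).b = -x.b := rfl
@[simp] lemma inv_c (x : H5) : (x⁻¹).c = -x.c := rfl
@[simp] lemma inv_d (x : H5) : (x⁻¹).d = -x.d := rfl
@[simp] lemma inv_z (x : H5) : (x⁻¹).z = -x.z + x.a * x.b + x.c * x.d := rfl

instance : Group H5 := Group.ofLeftAxioms
  (fun x y w => by ext <;> simp <;> ring)
  (fun x => by ext <;> simp)
  (fun x => by ext <;> simp; ring)

lemma zpow_eq (x : H5) (h : x.a * x.b + x.c * x.d = 0) (t : ℤ) :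
    x ^ t = ⟨t * x.a, t * x.b, t * x.c, t * x.d, t * x.z⟩ := by
  induction t using Int.induction_on with
  | zero => ext <;> simp
  | succ k ih =>
    rw [zpow_add_one, ih]; ext <;> simp <;> first | ring1 | linear_combination (k : ℤ) * h
  | pred k ih =>
    rw [zpow_sub_one, ih]; ext <;> simp <;> first | ring1 | linear_combination ((k : ℤ) + 1) * h

lemma pow_ab (x : H5) (k : ℕ) : (x ^ k).a = k * x.a ∧ (x ^ k).b = k * x.b ∧ (x ^ k).c = k * x.c ∧
    (x ^ k).d = k * x.d := by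
  induction k with
  | zero => simp
  | succ k ih => obtain ⟨h1, h2, h3, h4⟩ := ih; simp [pow_succ, h1, h2, h3, h4, add_mul]

lemma tf (x : H5) (h : IsOfFinOrder x) : x = 1 := by
  obtain ⟨k, hk, e⟩ := isOfFinOrder_iff_pow_eq_one.mp h
  obtain ⟨h1, h2, h3, h4⟩ := pow_ab x k
  rw [e] at h1 h2 h3 h4
  have hk' : (k : ℤ) ≠ 0 := by exact_mod_cast hk.ne'
  simp only [one_a, one_b, one_c, one_d, zero_eq_mul, hk', false_or] at h1 h2 h3 h4
  have h5 := zpow_eq x (by simp [h1, h3]) k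
  rw [zpow_natCast, e] at h5
  have h6 := congrArg H5.z h5
  simp only [one_z, zero_eq_mul, hk', false_or] at h6
  ext <;> simp [*]

def x1 : H5 := ⟨1, 0, 0, 0, 0⟩
def y1 : H5 := ⟨0, 1, 0, 0, 0⟩
def x2 : H5 := ⟨0, 0, 1, 0, 0⟩
def y2 : H5 := ⟨0, 0, 0, 1, 0⟩
def z0 : H5 := ⟨0, 0, 0, 0, 1⟩

lemma fg : Group.FG H5 := by
  refine Group.fg_iff.mpr ⟨{x1, y1, x2, y2, z0}, ?_, by simp⟩
  rw [eq_top_iff]
  intro g _
  have e : g = y1 ^ g.b * y2 ^ g.d * x1 ^ g.a * x2 ^ g.c * z0 ^ g.z := by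
    rw [zpow_eq y1 (by simp [y1]), zpow_eq y2 (by simp [y2]), zpow_eq x1 (by simp [x1]),
      zpow_eq x2 (by simp [x2]), zpow_eq z0 (by simp [z0])]
    ext <;> simp [x1, x2, y1, y2, z0]
  rw [e]
  refine mul_mem (mul_mem (mul_mem (mul_mem ?_ ?_) ?_) ?_) ?_ <;>
    exact zpow_mem (Subgroup.subset_closure (by simp)) _

lemma nil : Group.IsNilpotent H5 := by
  refine ⟨2, ?_⟩
  rw [eq_top_iff]
  intro x _
  rw [Subgroup.mem_upperCentralSeries_succ_iff]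
  intro y
  rw [Subgroup.mem_upperCentralSeries_succ_iff]
  intro w
  rw [Subgroup.upperCentralSeries_zero, Subgroup.mem_bot]
  ext <;> simp [commutatorElement_def] <;> ring

lemma prod_bound (B : ℤ) (hB : 0 ≤ B) (l : List H5)
    (h : ∀ x ∈ l, |x.a| ≤ B ∧ |x.b| ≤ B ∧ |x.c| ≤ B ∧ |x.d| ≤ B ∧ |x.z| ≤ B) :
    |l.prod.b| ≤ B * l.length ∧ |l.prod.d| ≤ B * l.length ∧
      |l.prod.z| ≤ (B + 2 * B ^ 2) * (l.length : ℤ) ^ 2 := by
  induction l with
  | nil => simp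
  | cons x l ih =>
    obtain ⟨h1, h2, h3⟩ := ih fun y hy => h y (List.mem_cons_of_mem _ hy)
    obtain ⟨a1, a2, a3, a4, a5⟩ := h x (by simp)
    simp only [List.prod_cons, mul_b, mul_d, mul_z, List.length_cons]
    push_cast
    have hl : (0 : ℤ) ≤ l.length := by positivity
    refine ⟨(abs_add_le _ _).trans (by linarith), (abs_add_le _ _).trans (by linarith), ?_⟩
    have k1 : |x.a * l.prod.b| ≤ B * (B * l.length) := by rw [abs_mul]; gcongr
    have k2 : |x.c * l.prod.d| ≤ B * (B * l.length) := by rw [abs_mul]; gcongr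
    have k3 := abs_add_le (x.z + l.prod.z + x.a * l.prod.b) (x.c * l.prod.d)
    have k4 := abs_add_le (x.z + l.prod.z) (x.a * l.prod.b)
    have k5 := abs_add_le x.z l.prod.z
    nlinarith [mul_nonneg hB hl, mul_nonneg (sq_nonneg B) hl, sq_nonneg B]

end Pool.Agent.H52.UT2
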