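import Mathlib
import Pool.Agent.H52.UT1

namespace Pool.Agent.H52.UT3
open Matrix Pool.Agent.H52.UT1

variable {n : ℕ} {T : Set (UT n)}

lemma el_len (hT : Subgroup.closure T = ⊤) (d : ℕ) : ∀ K : ℤ, 0 ≤ K → ∃ C : ℤ, 0 ≤ C ∧
    ∀ L : ℤ, 1 ≤ L → ∀ (i j : Fin n) (h : i < j), (j : ℕ) ≤ i + d + 1 → ∀ x : ℤ,
      |x| ≤ K * L ^ ((j : ℕ) - i) → (wordLength T (el i j h x) : ℤ) ≤ C * L := by
  obtain ⟨c0, hc0⟩ := (Set.finite_range fun p : {p : Fin n × Fin n // p.1 < p.2} =>
    wordLength T (el p.1.1 p.1.2 p.2 1)).bddAbove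
  have hc : ∀ (i j : Fin n) (h : i < j) (x : ℤ), (wordLength T (el i j h x) : ℤ) ≤ |x| * c0 := by
    intro i j h x
    rw [el_zpow]
    refine (wl_zpow hT _ _).trans ?_
    have : wordLength T (el i j h 1) ≤ c0 := hc0 ⟨⟨(i, j), h⟩, rfl⟩
    gcongr
  have hc00 : (0 : ℤ) ≤ c0 := by positivity
  have base : ∀ K L : ℤ, ∀ (i j : Fin n) (h : i < j), (j : ℕ) = i + 1 → ∀ x : ℤ,
      |x| ≤ K * L ^ ((j : ℕ) - i) → (wordLength T (el i j h x) : ℤ) ≤ (K * c0) * L := by
    intro K L i j h e x hx
    rw [show (j : ℕ) - i = 1 by omega, pow_one] at hx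
    refine (hc i j h x).trans ?_
    nlinarith
  induction d with
  | zero =>
    intro K hK
    refine ⟨K * c0, by positivity, fun L hL i j h e x hx => base K L i j h ?_ x hx⟩
    have : (i : ℕ) < j := h
    omega
  | succ d ih =>
    intro K hK
    obtain ⟨C, hC, H⟩ := ih (K + 1) (by linarith)
    refine ⟨K * c0 + 3 * c0 + 2 * C, by positivity, fun L hL i j h e x hx => ?_⟩
    have hij : (i : ℕ) < j := h
    by_cases e1 : (j : ℕ) = i + 1
    · have := base K L i j h e1 x hx
      nlinarith
    · let k : Fin n := ⟨i + 1, by omega⟩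
      have hik : i < k := by show (i : ℕ) < i + 1; omega
      have hkj : k < j := by show (i : ℕ) + 1 < j; omega
      have ex : x = L * (x / L) + x % L := (Int.mul_ediv_add_emod x L).symm
      have r0 : 0 ≤ x % L := Int.emod_nonneg _ (by linarith)
      have r1 : x % L < L := Int.emod_lt_of_pos _ (by linarith)
      have hq : |x / L| ≤ (K + 1) * L ^ ((j : ℕ) - k) := by
        have e2 : (j : ℕ) - i = ((j : ℕ) - k) + 1 := by show _ = (j : ℕ) - (i + 1) + 1; omega
        rw [e2, pow_succ] at hx
        have p1 : 1 ≤ L ^ ((j : ℕ) - k) := one_le_pow₀ hL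
        have h3 : L * |x / L| ≤ |x| + L := by
          have : L * (x / L) = x - x % L := by linarith
          have e5 : L * |x / L| = |L * (x / L)| := by
            rw [abs_mul, abs_of_pos (show 0 < L by linarith)]
          rw [e5, this]
          refine (abs_sub _ _).trans ?_
          rw [abs_of_nonneg r0]; linarith
        refine le_of_mul_le_mul_left ?_ (show 0 < L by linarith)
        nlinarith
      have w1 := H L hL k j hkj (by show (j : ℕ) ≤ i + 1 + d + 1; omega) _ hq
      have w2 := hc i k hik L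
      have w3 := hc i j h (x % L)
      rw [abs_of_pos (show 0 < L by linarith)] at w2
      rw [abs_of_nonneg r0] at w3
      have ee : el i j h x = el i k hik L * el k j hkj (x / L) * (el i k hik L)⁻¹ *
          (el k j hkj (x / L))⁻¹ * el i j h (x % L) := by
        rw [← el_comm, ← el_add, ← ex]
      have m1 := wl_mul hT (el i k hik L * el k j hkj (x / L) * (el i k hik L)⁻¹ *
          (el k j hkj (x / L))⁻¹) (el i j h (x % L))
      have m2 := wl_mul hT (el i k hik L * el k j hkj (x / L) * (el i k hik L)⁻¹)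
          (el k j hkj (x / L))⁻¹
      have m3 := wl_mul hT (el i k hik L * el k j hkj (x / L)) (el i k hik L)⁻¹
      have m4 := wl_mul hT (el i k hik L) (el k j hkj (x / L))
      have m5 := wl_inv hT (el i k hik L)
      have m6 := wl_inv hT (el k j hkj (x / L))
      rw [← ee] at m1
      have m7 : (wordLength T (el i j h x) : ℤ) ≤ 2 * wordLength T (el i k hik L) +
          2 * wordLength T (el k j hkj (x / L)) + wordLength T (el i j h (x % L)) := by
        omega
      nlinarith [mul_nonneg (mul_nonneg hK hc00) (show 0 ≤ L by linarith)]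

lemma decomp (w : UT n → ℤ) (w1 : w 1 = 0) (wm : ∀ g h, w (g * h) ≤ w g + w h) (P : Fin n → Fin n → ℤ → Prop) (R : ℤ) (hR : 0 ≤ R)
    (hP : ∀ (i j : Fin n) (h : i < j) x, P i j x → w (el i j h x) ≤ R)
    (s : Finset (Fin n × Fin n)) : ∀ g : UT n,
      (∀ i j, i < j → (i, j) ∉ s → mat g i j = 0) → (∀ i j, i < j → (i, j) ∈ s → P i j (mat g i j)) →
      w g ≤ s.card * R := by
  refine Finset.induction_on_min_value (fun p : Fin n × Fin n => p.2) (motive := fun s => ∀ g : UT n,
      (∀ i j, i < j → (i, j) ∉ s → mat g i j = 0) → (∀ i j, i < j → (i, j) ∈ s → P i j (mat g i j)) →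
      w g ≤ s.card * R) s ?_ ?_
  · intro g h _
    have : g = 1 := by
      apply mat_inj; ext i j
      rcases lt_trichotomy i j with e | rfl | e
      · rw [h i j e (by simp), mat_one, one_apply_ne e.ne]
      · rw [mat_diag, mat_one, one_apply_eq]
      · rw [mat_lo _ e, mat_one, one_apply_ne e.ne']
    simp [this, w1]
  · intro a s ha hmin ih
    obtain ⟨i, j⟩ := a
    intro g h0 h1
    rw [Finset.card_insert_of_notMem ha]
    push_cast
    by_cases hij : i < j
    · have key : ∀ a b, mat (g * el i j hij (-mat g i j)) a b =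
          if a = i ∧ b = j then 0 else mat g a b := by
        intro a b
        rw [mat_mul, mat_el, mul_add, mul_one, Matrix.add_apply]
        by_cases hb : b = j
        · subst hb
          rw [mul_single_apply_same]
          rcases lt_trichotomy a i with e | rfl | e
          · rw [h0 a i e ?_]
            · simp [e.ne]
            · intro hm
              rcases Finset.mem_insert.mp hm with e2 | e2
              · exact hij.ne (Prod.ext_iff.mp e2).2
              · exact absurd (hmin _ e2) (not_le.mpr hij)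
          · simp [mat_diag]
          · simp [mat_lo _ e, e.ne']
        · rw [mul_single_apply_of_ne _ _ _ _ _ hb]; simp [hb]
      have h2 := ih (g * el i j hij (-mat g i j)) (fun a b hab hm => by
          rw [key]; split_ifs with e
          · rfl
          · apply h0 a b hab
            intro hm'
            rcases Finset.mem_insert.mp hm' with e2 | e2
            · exact e (Prod.ext_iff.mp e2)
            · exact hm e2)
        (fun a b hab hm => by
          rw [key, if_neg]
          · exact h1 a b hab (Finset.mem_insert_of_mem hm)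
          · rintro ⟨rfl, rfl⟩; exact ha hm)
      have h3 := hP i j hij _ (h1 i j hij (Finset.mem_insert_self _ _))
      have h4 := wm (g * el i j hij (-mat g i j)) (el i j hij (mat g i j))
      have h5 : g * el i j hij (-mat g i j) * el i j hij (mat g i j) = g := by
        rw [mul_assoc, ← el_add, neg_add_cancel, el_zpow]; simp
      rw [h5] at h4
      linarith
    · have := ih g (fun a b hab hm => h0 a b hab fun hm' => by
          rcases Finset.mem_insert.mp hm' with e2 | e2
          · obtain ⟨rfl, rfl⟩ := Prod.ext_iff.mp e2; exact hij hab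
          · exact hm e2) (fun a b hab hm => h1 a b hab (Finset.mem_insert_of_mem hm))
      linarith

lemma UT_fg (n : ℕ) : Group.FG (UT n) := by
  classical
  let S : Set (UT n) := Set.range fun p : {p : Fin n × Fin n // p.1 < p.2} => el p.1.1 p.1.2 p.2 1
  refine Group.fg_iff.mpr ⟨S, ?_, Set.finite_range _⟩
  rw [eq_top_iff]
  intro g _
  have := decomp (fun g => if g ∈ Subgroup.closure S then 0 else 1) (by simp [one_mem])
    (fun g h => by
      by_cases hg : g ∈ Subgroup.closure S <;> by_cases hh : h ∈ Subgroup.closure S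
      · simp [hg, hh, mul_mem]
      all_goals (simp only [hg, hh, if_true, if_false]; split_ifs <;> norm_num))
    (fun _ _ _ => True) 0 le_rfl
    (fun i j h x _ => by
      have : el i j h x ∈ Subgroup.closure S := by
        have hm : el i j h 1 ∈ S := ⟨⟨(i, j), h⟩, rfl⟩
        rw [el_zpow]; exact zpow_mem (Subgroup.subset_closure hm) _
      simp [this]) Finset.univ g (by simp) (by simp)
  by_contra hg
  simp [hg] at this

lemma growth (A : UT n) (hA : ∀ i j : Fin n, i < j → (j : ℕ) < i + 3 → mat A i j = 0) (B : ℝ)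
    (hB : ∀ i j, |(mat A i j : ℝ)| ≤ B) (hB0 : 0 ≤ B) (L : ℝ) (hL : 1 ≤ L) (k : ℕ) :
    ∀ i j : Fin n, |(mat (A ^ k) i j : ℝ)| * L ^ (i : ℕ) ≤ (1 + n * B / L ^ 3) ^ k * L ^ (j : ℕ) := by
  have hL0 : 0 < L := by linarith
  induction k with
  | zero =>
    intro i j
    by_cases e : i = j
    · subst e; simp [mat_one]
    · simp [mat_one, one_apply_ne e]; positivity
  | succ k ih =>
    intro i j
    set r := (1 + n * B / L ^ 3) ^ k with hr
    have r0 : 0 ≤ r := by positivity
    rw [pow_succ, mat_mul, mul_apply]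
    push_cast
    have t : ∀ l : Fin n, |(mat (A ^ k) i l : ℝ) * mat A l j| * L ^ (i : ℕ) ≤
        (if l = j then r * L ^ (j : ℕ) else 0) + r * B * L ^ (j : ℕ) / L ^ 3 := by
      intro l
      have p0 : 0 ≤ r * B * L ^ (j : ℕ) / L ^ 3 := by positivity
      split_ifs with e
      · subst e; rw [mat_diag]; simp only [Int.cast_one, mul_one]; linarith [ih i l]
      · by_cases e3 : (l : ℕ) + 3 ≤ j
        · rw [zero_add, le_div_iff₀ (by positivity), abs_mul]
          have q1 : L ^ (l : ℕ) * L ^ 3 ≤ L ^ (j : ℕ) := by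
            rw [← pow_add]; exact pow_le_pow_right₀ hL e3
          calc |(mat (A ^ k) i l : ℝ)| * |(mat A l j : ℝ)| * L ^ (i : ℕ) * L ^ 3
              = (|(mat (A ^ k) i l : ℝ)| * L ^ (i : ℕ)) * |(mat A l j : ℝ)| * L ^ 3 := by ring
            _ ≤ (r * L ^ (l : ℕ)) * B * L ^ 3 :=
              mul_le_mul_of_nonneg_right (mul_le_mul (ih i l) (hB l j) (abs_nonneg _)
                (by positivity)) (by positivity)
            _ = r * B * (L ^ (l : ℕ) * L ^ 3) := by ring
            _ ≤ r * B * L ^ (j : ℕ) := by gcongr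
        · have : mat A l j = 0 := by
            rcases lt_or_gt_of_ne e with e4 | e4
            · exact hA l j e4 (by omega)
            · exact mat_lo _ e4
          simp [this, p0]
    calc |∑ l, (mat (A ^ k) i l : ℝ) * mat A l j| * L ^ (i : ℕ)
        ≤ (∑ l, |(mat (A ^ k) i l : ℝ) * mat A l j|) * L ^ (i : ℕ) := by
          gcongr; exact Finset.abs_sum_le_sum_abs _ _
      _ = ∑ l, |(mat (A ^ k) i l : ℝ) * mat A l j| * L ^ (i : ℕ) := Finset.sum_mul _ _ _
      _ ≤ ∑ l, ((if l = j then r * L ^ (j : ℕ) else 0) + r * B * L ^ (j : ℕ) / L ^ 3) :=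
          Finset.sum_le_sum fun l _ => t l
      _ = r * (1 + n * B / L ^ 3) * L ^ (j : ℕ) := by
          rw [Finset.sum_add_distrib]; simp; ring

lemma upper (hT : Subgroup.closure T = ⊤) (A : UT n)
    (hA : ∀ i j : Fin n, i < j → (j : ℕ) < i + 3 → mat A i j = 0) :
    ∃ C : ℤ, 0 ≤ C ∧ ∀ L : ℕ, 1 ≤ L → (wordLength T (A ^ (L ^ 3)) : ℤ) ≤ C * L := by
  obtain ⟨B, hB⟩ := (Set.finite_range fun p : Fin n × Fin n => |(mat A p.1 p.2 : ℝ)|).bddAbove
  have hB' : ∀ i j, |(mat A i j : ℝ)| ≤ |B| := fun i j => (hB ⟨(i, j), rfl⟩).trans (le_abs_self _)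
  obtain ⟨C, hC, H⟩ := el_len hT n ⌈Real.exp (n * |B|)⌉ (Int.ceil_nonneg (Real.exp_pos _).le)
  refine ⟨(Finset.univ : Finset (Fin n × Fin n)).card * C, by positivity, fun L hL => ?_⟩
  have hL' : (1 : ℤ) ≤ L := by exact_mod_cast hL
  have hLr : (1 : ℝ) ≤ L := by exact_mod_cast hL
  rw [mul_assoc]
  refine decomp (fun g => wordLength T g) (by simp [wl_one])
    (fun g h => by exact_mod_cast wl_mul hT g h) (fun i j x => |x| ≤ ⌈Real.exp (n * |B|)⌉ * (L : ℤ) ^ ((j : ℕ) - i)) (C * L)
    (by positivity) (fun i j h x hx => H L hL' i j h (by omega) x hx) _ _ (by simp) ?_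
  intro i j hij _
  have g1 := growth A hA |B| hB' (abs_nonneg _) L hLr (L ^ 3) i j
  have g2 : (1 + n * |B| / (L : ℝ) ^ 3) ^ (L ^ 3) ≤ Real.exp (n * |B|) := by
    calc (1 + n * |B| / (L : ℝ) ^ 3) ^ (L ^ 3) ≤ Real.exp (n * |B| / (L : ℝ) ^ 3) ^ (L ^ 3) := by
          gcongr; linarith [Real.add_one_le_exp (n * |B| / (L : ℝ) ^ 3)]
      _ = Real.exp (n * |B|) := by
          rw [← Real.exp_nat_mul]; congr 1; push_cast; field_simp
  have g3 : (L : ℝ) ^ (j : ℕ) = (L : ℝ) ^ ((j : ℕ) - i) * (L : ℝ) ^ (i : ℕ) := by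
    rw [← pow_add, Nat.sub_add_cancel (le_of_lt hij)]
  rw [g3, ← mul_assoc] at g1
  have g4 := le_of_mul_le_mul_right g1 (by positivity)
  have g5 : |(mat (A ^ (L ^ 3)) i j : ℝ)| ≤ (⌈Real.exp (n * |B|)⌉ : ℝ) * (L : ℝ) ^ ((j : ℕ) - i) :=
    g4.trans (by gcongr; exact g2.trans (Int.le_ceil _))
  exact_mod_cast g5

lemma ent1 (g h : UT n) (i j : Fin n) (e : (j : ℕ) = i + 1) :
    mat (g * h) i j = mat g i j + mat h i j := by
  have hij : i ≠ j := by intro e2; subst e2; omega
  rw [mat_mul, mul_apply, ← Finset.sum_subset (Finset.subset_univ {i, j}), Finset.sum_pair hij,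
    mat_diag, mat_diag]
  · ring
  · intro l _ hl
    simp only [Finset.mem_insert, Finset.mem_singleton, not_or, Fin.ext_iff] at hl
    by_cases e3 : l < i
    · rw [mat_lo _ e3, zero_mul]
    · rw [mat_lo h (show j < l by rw [Fin.lt_def] at *; omega), mul_zero]

lemma ent2 (g h : UT n) (i k j : Fin n) (e : (k : ℕ) = i + 1) (e' : (j : ℕ) = k + 1) :
    mat (g * h) i j = mat g i j + mat h i j + mat g i k * mat h k j := by
  have hkj : k ≠ j := by intro e2; subst e2; omega
  have hi : i ∉ ({k, j} : Finset (Fin n)) := by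
    simp only [Finset.mem_insert, Finset.mem_singleton, not_or, Fin.ext_iff]; omega
  rw [mat_mul, mul_apply, ← Finset.sum_subset (Finset.subset_univ {i, k, j}),
    Finset.sum_insert hi, Finset.sum_pair hkj, mat_diag, mat_diag]
  · ring
  · intro l _ hl
    simp only [Finset.mem_insert, Finset.mem_singleton, not_or, Fin.ext_iff] at hl
    by_cases e3 : l < i
    · rw [mat_lo _ e3, zero_mul]
    · rw [mat_lo h (show j < l by rw [Fin.lt_def] at *; omega), mul_zero]

end Pool.Agent.H52.UT3
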